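import Pool.Agent.Helper185.BlkMain

/-!
Transport to the real line.
-/

namespace Pool.Agent.Helper185.Blk

set_option linter.unusedSectionVars false

open Set Filter Pool.Agent.Helper185.Silver Pool.Agent.Helper185.Sel

section

variable {A B : Type*} [TopologicalSpace A] [TopologicalSpace B]

theorem split_transport (e : A ≃ₜ B) {CA : Set (Set (Set A))} {CB : Set (Set (Set B))}
    {DA : Set (Set (Set A))} {DB : Set (Set (Set B))}
    (hC : ∀ U ∈ CB, pullFam e U ∈ CA) (hD : ∀ U ∈ DA, pullFam e.symm U ∈ DB)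
    (h : SplitP CA DA) : SplitP CB DB := by
  intro U hU
  obtain ⟨V, W, hVW, hd, ⟨V', hV', hVD⟩, W', hW', hWD⟩ := h (pullFam e U) (hC U hU)
  refine ⟨pullFam e.symm V, pullFam e.symm W, ?_, ?_, ⟨pullFam e.symm V', image_mono hV',
    hD _ hVD⟩, pullFam e.symm W', image_mono hW', hD _ hWD⟩
  · have h1 : pullFam e.symm (V ∪ W) = pullFam e.symm V ∪ pullFam e.symm W := image_union _ _ _
    rw [← h1, hVW]
    ext u
    constructor
    · rintro ⟨_, ⟨w, hw, rfl⟩, rfl⟩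
      have h2 : e.symm ⁻¹' (e ⁻¹' w) = w := pull_pull_symm e.symm w
      change e.symm ⁻¹' (e ⁻¹' w) ∈ U
      rw [h2]
      exact hw
    · intro hu
      exact ⟨_, ⟨u, hu, rfl⟩, pull_pull_symm e.symm u⟩
  · exact (disjoint_image_iff (pre_injective e.symm)).2 hd

theorem choose_transport (e : A ≃ₜ B) {CA : Set (Set (Set A))} {CB : Set (Set (Set B))}
    {DA : Set (Set (Set A))} {DB : Set (Set (Set B))}
    (hC : ∀ U ∈ CB, pullFam e U ∈ CA) (hD : ∀ U ∈ DA, pullFam e.symm U ∈ DB)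
    (h : Choose CA DA) : Choose CB DB := by
  intro U hU
  obtain ⟨V, hV, hVD⟩ := h (pullFam e U) (hC U hU)
  refine ⟨pullFam e.symm V, ?_, hD _ hVD⟩
  rintro _ ⟨v, hv, rfl⟩
  obtain ⟨w, hw, hwv⟩ := hV hv
  have h1 : e.symm ⁻¹' v = w := by
    rw [← hwv]
    exact pull_pull_symm e.symm w
  change e.symm ⁻¹' v ∈ U
  rw [h1]
  exact hw

end

theorem split_choose {X : Type*} {C D : Set (Set (Set X))} (h : SplitP C D) : Choose C D := by
  intro U hU
  obtain ⟨V, W, hVW, -, ⟨V', hV', hD⟩, -⟩ := h U hU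
  exact ⟨V', hV'.trans (hVW ▸ subset_union_left), hD⟩

theorem exists_Zset (hCH : Cardinal.aleph 1 = Cardinal.continuum.{0}) :
    ∃ X : Set Z, X.Nonempty ∧ SplitP (OmegaOf (OpenFam X)) (TauOf (OpenFam X)) ∧
      ¬ Choose (TauOf (OpenFam X)) (GammaOf (OpenFam X)) := by
  obtain ⟨I, _, _, hI, B, O, hO, hBO⟩ := Blk.exists_enumeration hCH
  obtain ⟨p, hp⟩ := Blk.exists_tower hI B O hO
  have hU : ∀ n : ℕ, Op ((fun _ => univ : ℕ → Set (Set ℕ)) n) := fun n A _ => ⟨0, fun _ _ => trivial⟩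
  have : Nonempty I := by
    obtain ⟨i, -⟩ := hBO ∅ (fun _ => univ) hU
    exact ⟨i⟩
  obtain ⟨i0⟩ := this
  have : Nonempty I := ⟨i0⟩
  refine ⟨XT p, ⟨_, ch_mem p i0 (EqS.refl _)⟩, split_XT hp (fun W hW => ?_), not_choose_XT hp (fun C => ?_)⟩
  · obtain ⟨i, _, hi⟩ := hBO ∅ W hW
    exact ⟨i, hi⟩
  · obtain ⟨i, hi, _⟩ := hBO C (fun _ => univ) hU
    exact ⟨i, hi⟩

/-- Under the continuum hypothesis there is a set of reals satisfying `Split(Ω, T)` but not
`(T choose Γ)`. -/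
theorem exists_real (hCH : Cardinal.aleph 1 = Cardinal.continuum.{0}) :
    ∃ X : Set ℝ, X.Nonempty ∧ SplitP (OmegaOf (OpenFam X)) (TauOf (OpenFam X)) ∧
      ¬ Choose (TauOf (OpenFam X)) (GammaOf (OpenFam X)) := by
  obtain ⟨X, h0, h1, h2⟩ := exists_Zset hCH
  obtain ⟨g, hg⟩ := exists_embedding_Z
  obtain ⟨eX⟩ := homeo_image hg X
  refine ⟨g '' X, h0.image g, ?_, fun h => h2 ?_⟩
  · exact split_transport eX (fun U hU => pull_omega eX hU) (fun U hU => pull_tau eX.symm hU) h1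
  · exact choose_transport eX.symm (fun U hU => pull_tau eX.symm hU)
      (fun U hU => pull_gamma eX hU) h

end Pool.Agent.Helper185.Blk
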