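import Pool.Agent.Helper185.SelDefs

/-!
Splitting and subcover properties.
-/

namespace Pool.Agent.Helper185.Sel

open Set

/-- `Split(A, B)`: every member of `A` splits into two disjoint subfamilies each containing a
member of `B`. -/
def SplitP {X : Type*} (A B : Set (Set (Set X))) : Prop :=
  ∀ U ∈ A, ∃ V W : Set (Set X), V ∪ W = U ∧ Disjoint V W ∧ (∃ V' ⊆ V, V' ∈ B) ∧ ∃ W' ⊆ W, W' ∈ B

/-- `(A choose B)`: every member of `A` has a subfamily that is a member of `B`. -/
def Choose {X : Type*} (A B : Set (Set (Set X))) : Prop :=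
  ∀ U ∈ A, ∃ V ⊆ U, V ∈ B

end Pool.Agent.Helper185.Sel
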