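import Pool.Agent.Helper185.SelStrong

/-!
A gamma-set that is not a strong gamma-set, from the continuum hypothesis.
-/

namespace Pool.Agent.Helper185.CH

set_option linter.unusedSectionVars false

open Set Filter

/-- the compact product space used for the construction -/
abbrev K := (n : ℕ) → Fin (n + 2)

/-- points vanishing beyond `m` -/
def P (m : ℕ) : Set K := {x | ∀ n, m < n → x n = 0}

theorem finite_P (m : ℕ) : (P m).Finite := by
  let ext : ((n : Fin (m + 1)) → Fin (n.1 + 2)) → K := fun φ n =>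
    if h : n < m + 1 then φ ⟨n, h⟩ else 0
  apply (finite_range ext).subset
  intro x hx
  refine ⟨fun n => x n.1, ?_⟩
  funext n
  by_cases h : n < m + 1
  · simp only [ext, dif_pos h]
  · simp only [ext, dif_neg h]
    exact (hx n (by omega)).symm

/-- finitely supported points -/
def FIN : Set K := ⋃ m, P m

theorem countable_FIN : FIN.Countable := countable_iUnion (fun m => (finite_P m).countable)

theorem exists_agree {x : K} {O : Set K} (hO : IsOpen O) (hx : x ∈ O) :
    ∃ N : ℕ, ∀ y : K, (∀ n < N, y n = x n) → y ∈ O := by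
  obtain ⟨I, u, hu, hIO⟩ := isOpen_pi_iff.1 hO x hx
  refine ⟨I.sup id + 1, fun y hy => hIO ?_⟩
  intro i hi
  have : i ≤ I.sup id := Finset.le_sup (f := id) (Finset.mem_coe.1 hi)
  rw [hy i (by omega)]
  exact (hu i (Finset.mem_coe.1 hi)).2

theorem exists_agree_finite {F : Set K} (hF : F.Finite) {O : Set K} (hO : IsOpen O)
    (hFO : F ⊆ O) : ∃ N : ℕ, ∀ x ∈ F, ∀ y : K, (∀ n < N, y n = x n) → y ∈ O := by
  induction F, hF using Set.Finite.induction_on with
  | empty => exact ⟨0, fun x hx => absurd hx (notMem_empty x)⟩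
  | @insert a S haS hS ih =>
    obtain ⟨N, hN⟩ := ih (fun x hx => hFO (mem_insert_of_mem _ hx))
    obtain ⟨M, hM⟩ := exists_agree hO (hFO (mem_insert a S))
    refine ⟨max M N, ?_⟩
    rintro x (rfl | hx) y hy
    · exact hM y (fun n hn => hy n (lt_of_lt_of_le hn (le_max_left _ _)))
    · exact hN x hx y (fun n hn => hy n (lt_of_lt_of_le hn (le_max_right _ _)))

/-- the stage lemma -/
theorem stage {X0 : Set K} (hX0 : X0.Countable) (hfin : FIN ⊆ X0) {B : Set ℕ}
    (hB : B.Infinite) {u : ℕ → ℕ → Set K} (hu : ∀ n m, IsOpen (u n m))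
    (hω : ∀ n, ∀ F : Set K, F.Finite → F ⊆ X0 → ∃ m, F ⊆ u n m) :
    ∃ b : ℕ → ℕ, StrictMono b ∧ (∀ k, b k ∈ B) ∧ ∃ f : ℕ → ℕ,
      (∀ x ∈ X0, {k | x ∉ u k (f k)}.Finite) ∧
      ∀ k, ∀ x : K, (∀ n, b k < n → n < b (k + 1) → x n = 0) → x ∈ u k (f k) := by
  classical
  have hne : X0.Nonempty := ⟨fun _ => 0, hfin (mem_iUnion.2 ⟨0, fun n _ => rfl⟩)⟩
  obtain ⟨e, he⟩ := hX0.exists_eq_range hne
  have key : ∀ k b0 : ℕ, ∃ b1 m : ℕ, b0 < b1 ∧ b1 ∈ B ∧ (∀ i < k, e i ∈ u k m) ∧
      ∀ x : K, (∀ n, b0 < n → n < b1 → x n = 0) → x ∈ u k m := by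
    intro k b0
    have hF : (P b0 ∪ e '' {i | i < k}).Finite := (finite_P b0).union ((finite_lt_nat k).image e)
    obtain ⟨m, hm⟩ := hω k _ hF (by
      rintro x (hx | ⟨i, _, rfl⟩)
      · exact hfin (mem_iUnion.2 ⟨b0, hx⟩)
      · rw [he]; exact mem_range_self i)
    obtain ⟨N, hN⟩ := exists_agree_finite (finite_P b0) (hu k m)
      (fun x hx => hm (Or.inl hx))
    obtain ⟨b1, hb1B, hb1⟩ := hB.exists_gt (max b0 N)
    refine ⟨b1, m, lt_of_le_of_lt (le_max_left _ _) hb1, hb1B, ?_, ?_⟩
    · intro i hi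
      exact hm (Or.inr ⟨i, hi, rfl⟩)
    · intro x hx
      let y : K := fun n => if n ≤ b0 then x n else 0
      have hy : y ∈ P b0 := by
        intro n hn
        simp only [y]
        rw [if_neg (by omega)]
      apply hN y hy
      intro n hn
      simp only [y]
      by_cases h : n ≤ b0
      · rw [if_pos h]
      · rw [if_neg h]
        apply hx n (by omega)
        have := le_max_right b0 N
        omega
  choose nxt m hlt hnB hei hnx using key
  obtain ⟨b00, hb00⟩ := hB.nonempty
  let b : ℕ → ℕ := fun k => Nat.rec b00 (fun k bk => nxt k bk) k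
  have hb : ∀ k, b (k + 1) = nxt k (b k) := fun k => rfl
  refine ⟨b, strictMono_nat_of_lt_succ (fun k => by rw [hb]; exact hlt _ _), ?_,
    fun k => m k (b k), ?_, ?_⟩
  · intro k
    cases k with
    | zero => exact hb00
    | succ k => rw [hb]; exact hnB _ _
  · intro x hx
    rw [he] at hx
    obtain ⟨i, rfl⟩ := hx
    apply (finite_le_nat i).subset
    intro k hk
    by_contra hki
    exact hk (hei k (b k) i (lt_of_not_ge (fun h => hki h)))
  · intro k x hx
    rw [hb] at hx
    exact hnx k (b k) x hx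

open Classical in
/-- restriction of a point to a set of coordinates -/
noncomputable def restr (z : K) (B : Set ℕ) : K := fun n => if n ∈ B then z n else 0

/-- a countable chain of infinite sets has an infinite pseudo-intersection -/
theorem exists_pseudo_nat {ι : Type*} [Countable ι] [Nonempty ι] (B : ι → Set ℕ)
    (hB : ∀ s : Finset ι, s.Nonempty → (⋂ i ∈ s, B i).Infinite) :
    ∃ A : Set ℕ, A.Infinite ∧ ∀ i, (A \ B i).Finite := by
  classical
  obtain ⟨e, he⟩ := exists_surjective_nat ι
  obtain ⟨g, hg, hgm⟩ := Sel.exists_sdr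
    (fun n => ⋂ i ∈ (Finset.range (n + 1)).image e, B i)
    (fun n => hB _ ⟨e 0, Finset.mem_image_of_mem _ (by simp)⟩)
  refine ⟨range g, infinite_range_of_injective hg, ?_⟩
  intro i
  obtain ⟨j, rfl⟩ := he i
  apply ((finite_lt_nat j).image g).subset
  rintro _ ⟨⟨n, rfl⟩, hn⟩
  refine ⟨n, ?_, rfl⟩
  by_contra hnj
  apply hn
  have := hgm n
  simp only [mem_iInter] at this
  apply this
  apply Finset.mem_image_of_mem
  rw [Finset.mem_range]
  have : j ≤ n := le_of_not_gt (fun h => hnj h)
  omega

section Rec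

variable {I : Type} [LinearOrder I] [WellFoundedLT I]

/-- the points constructed before stage `i`, together with the finitely supported points -/
def before (z : I → K) (i : I) (b : (j : I) → j < i → ℕ → ℕ) : Set K :=
  FIN ∪ {x | ∃ (j : I) (h : j < i), x = restr (z j) (range (b j h))}

/-- the requirement at stage `i` -/
def Req (z : I → K) (u : I → ℕ → ℕ → Set K) (i : I) (prev : (j : I) → j < i → ℕ → ℕ)
    (b : ℕ → ℕ) : Prop :=
  StrictMono b ∧ (∀ (j : I) (h : j < i), (range b \ range (prev j h)).Finite) ∧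
    ((∀ n m, IsOpen (u i n m)) →
      (∀ n, ∀ F : Set K, F.Finite → F ⊆ before z i prev → ∃ m, F ⊆ u i n m) →
      ∃ f : ℕ → ℕ, (∀ x ∈ before z i prev, {k | x ∉ u i k (f k)}.Finite) ∧
        ∀ k, ∀ x : K, (∀ n, b k < n → n < b (k + 1) → x n = 0) → x ∈ u i k (f k))

theorem exists_req (hI : ∀ i : I, (Iio i).Countable) (z : I → K) (u : I → ℕ → ℕ → Set K)
    (i : I) (prev : (j : I) → j < i → ℕ → ℕ) (hmono : ∀ j h, StrictMono (prev j h))
    (hchain : ∀ (j k : I) (hj : j < i) (hk : k < i), j < k →
      (range (prev k hk) \ range (prev j hj)).Finite) :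
    ∃ b, Req z u i prev b := by
  classical
  have hcount : Countable (Iio i) := (hI i).to_subtype
  -- an infinite pseudo-intersection
  obtain ⟨A, hA, hAB⟩ : ∃ A : Set ℕ, A.Infinite ∧
      ∀ (j : I) (h : j < i), (A \ range (prev j h)).Finite := by
    rcases isEmpty_or_nonempty (Iio i) with he | hne
    · exact ⟨univ, infinite_univ, fun j h => (he.false ⟨j, h⟩).elim⟩
    · obtain ⟨A, hA, hAB⟩ := exists_pseudo_nat (ι := Iio i) (fun j => range (prev j.1 j.2)) (by
        intro s hs
        obtain ⟨m, hm, hmax⟩ := s.exists_max_image (fun j => j) hs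
        have hfin : (range (prev m.1 m.2) \ ⋂ j ∈ s, range (prev j.1 j.2)).Finite := by
          have hsub : range (prev m.1 m.2) \ ⋂ j ∈ s, range (prev j.1 j.2) ⊆
              ⋃ j ∈ s, (range (prev m.1 m.2) \ range (prev j.1 j.2)) := by
            rintro n ⟨hn, hn2⟩
            simp only [mem_iInter, not_forall] at hn2
            obtain ⟨j, hj, hnj⟩ := hn2
            simp only [mem_iUnion]
            exact ⟨j, hj, hn, hnj⟩
          refine Finite.subset (Set.Finite.biUnion s.finite_toSet ?_) hsub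
          intro j hj
          rcases eq_or_lt_of_le (hmax j hj) with h | h
          · subst h
            rw [sdiff_self]
            exact finite_empty
          · exact hchain j.1 m.1 j.2 m.2 h
        intro hcon
        apply infinite_range_of_injective (hmono m.1 m.2).injective
        apply (hcon.union hfin).subset
        intro n hn
        by_cases h : n ∈ ⋂ j ∈ s, range (prev j.1 j.2)
        · exact Or.inl h
        · exact Or.inr ⟨hn, h⟩)
      exact ⟨A, hA, fun j h => hAB ⟨j, h⟩⟩
  by_cases hval : (∀ n m, IsOpen (u i n m)) ∧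
      (∀ n, ∀ F : Set K, F.Finite → F ⊆ before z i prev → ∃ m, F ⊆ u i n m)
  · have hX0 : (before z i prev).Countable := by
      apply countable_FIN.union
      have : {x | ∃ (j : I) (h : j < i), x = restr (z j) (range (prev j h))} ⊆
          range (fun j : Iio i => restr (z j.1) (range (prev j.1 j.2))) := by
        rintro x ⟨j, h, rfl⟩
        exact ⟨⟨j, h⟩, rfl⟩
      exact (countable_range _).mono this
    obtain ⟨b, hb, hbA, f, hf1, hf2⟩ := stage hX0 subset_union_left hA hval.1 hval.2
    refine ⟨b, hb, ?_, fun _ _ => ⟨f, hf1, hf2⟩⟩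
    intro j h
    apply (hAB j h).subset
    rintro _ ⟨⟨k, rfl⟩, hn⟩
    exact ⟨hbA k, hn⟩
  · refine ⟨Nat.nth (· ∈ A), Nat.nth_strictMono hA, ?_, fun h1 h2 => absurd ⟨h1, h2⟩ hval⟩
    intro j h
    apply (hAB j h).subset
    rintro _ ⟨⟨k, rfl⟩, hn⟩
    exact ⟨Nat.nth_mem_of_infinite hA k, hn⟩

theorem exists_tower (hI : ∀ i : I, (Iio i).Countable) (z : I → K) (u : I → ℕ → ℕ → Set K) :
    ∃ b : I → ℕ → ℕ, ∀ i, Req z u i (fun j _ => b j) (b i) := by
  classical
  let step : (i : I) → ((j : I) → j < i → ℕ → ℕ) → ℕ → ℕ := fun i prev =>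
    if h : ∃ b, Req z u i prev b then h.choose else id
  let b : I → ℕ → ℕ := WellFounded.fix (wellFounded_lt (α := I)) step
  have hb : ∀ i, b i = step i (fun j _ => b j) := fun i =>
    WellFounded.fix_eq (wellFounded_lt (α := I)) step i
  refine ⟨b, ?_⟩
  intro i
  induction i using WellFoundedLT.induction with
  | ind i ih =>
    have hex : ∃ b', Req z u i (fun j _ => b j) b' := by
      apply exists_req hI
      · intro j h
        exact (ih j h).1
      · intro j k hj hk hjk
        exact (ih k hk).2.1 j hjk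
    rw [hb i]
    simp only [step]
    rw [dif_pos hex]
    exact hex.choose_spec

end Rec

end Pool.Agent.Helper185.CH
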