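import Pool.Agent.Helper185.SelMore
import Pool.Agent.Helper185.SelCH

/-!
Sierpinski-type sets: sets of reals meeting each null set in a countable set.
-/

namespace Pool.Agent.Helper185.Sierp

set_option linter.unusedSectionVars false

open Set Filter Topology MeasureTheory Pool.Agent.Helper185.Sel

/-- `X` meets each null set in a countable set -/
def Sp (X : Set ℝ) : Prop := ∀ N : Set ℝ, volume N = 0 → (X ∩ N).Countable

theorem Sp.mono {X Y : Set ℝ} (h : Sp X) (hYX : Y ⊆ X) : Sp Y := fun N hN =>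
  (h N hN).mono (inter_subset_inter_left _ hYX)

section Omega

variable {X : Type*} [TopologicalSpace X] {G : Set (Set (Set X))}

theorem omega_large {U : Set (Set X)} (h1 : univ ∉ U)
    (h2 : ∀ F : Set X, F.Finite → ∃ u ∈ U, F ⊆ u) (x : X) : {u | u ∈ U ∧ x ∈ u}.Infinite := by
  classical
  intro hfin
  have hw : ∀ u : Set X, ∃ z, u ∈ U → z ∉ u := by
    intro u
    by_cases hu : u ∈ U
    · have h3 : u ≠ univ := fun h => h1 (h ▸ hu)
      obtain ⟨z, hz⟩ := (ne_univ_iff_exists_notMem _).1 h3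
      exact ⟨z, fun _ => hz⟩
    · exact ⟨x, fun h => absurd h hu⟩
  choose z hz using hw
  obtain ⟨u, hu, hF⟩ := h2 (insert x (z '' {u | u ∈ U ∧ x ∈ u})) ((hfin.image z).insert x)
  have hxu : x ∈ u := hF (mem_insert _ _)
  exact hz u hu (hF (mem_insert_of_mem _ ⟨u, ⟨hu, hxu⟩, rfl⟩))

theorem lin_sub {U V : Set (Set X)} (h : Lin U) (hVU : V ⊆ U)
    (hl : ∀ x, {u | u ∈ V ∧ x ∈ u}.Infinite) : Lin V where
  large := hl
  lin := by
    intro x y
    rcases h.lin x y with h | h
    · exact Or.inl (h.subset (fun u hu => ⟨hVU hu.1, hu.2⟩))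
    · exact Or.inr (h.subset (fun u hu => ⟨hVU hu.1, hu.2⟩))

/-- open omega-covers of second countable spaces have countable omega-subcovers -/
theorem exists_countable_omega [SecondCountableTopology X] {U : Set (Set X)}
    (hopen : ∀ u ∈ U, IsOpen u) (hω : ∀ F : Set X, F.Finite → ∃ u ∈ U, F ⊆ u) :
    ∃ V ⊆ U, V.Countable ∧ ∀ F : Set X, F.Finite → ∃ u ∈ V, F ⊆ u := by
  classical
  have h1 : ∀ k : ℕ, ∃ T : Set U, T.Countable ∧
      ⋃ u ∈ T, {x : Fin k → X | ∀ i, x i ∈ u.1} = ⋃ u : U, {x : Fin k → X | ∀ i, x i ∈ u.1} := by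
    intro k
    apply TopologicalSpace.isOpen_iUnion_countable
    rintro ⟨u, hu⟩
    have : {x : Fin k → X | ∀ i, x i ∈ u} = Set.univ.pi fun _ => u := by
      ext x; simp [Set.mem_pi]
    rw [this]
    exact isOpen_set_pi finite_univ fun _ _ => hopen u hu
  choose T hT1 hT2 using h1
  refine ⟨⋃ k, (fun u : U => u.1) '' T k, ?_, ?_, ?_⟩
  · intro u hu
    rw [mem_iUnion] at hu
    obtain ⟨k, v, _, rfl⟩ := hu
    exact v.2
  · exact countable_iUnion fun k => (hT1 k).image _
  · intro F hF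
    obtain ⟨k, x, hx⟩ : ∃ (k : ℕ) (x : Fin k → X), range x = F := by
      obtain ⟨k, e⟩ := hF.exists_equiv_fin
      exact ⟨k, fun i => (e.some.symm i).1, by
        ext y; constructor
        · rintro ⟨i, rfl⟩; exact (e.some.symm i).2
        · intro hy; exact ⟨e.some ⟨y, hy⟩, by simp⟩⟩
    obtain ⟨u, hu, hFu⟩ := hω F hF
    have h2 : x ∈ ⋃ u : U, {x : Fin k → X | ∀ i, x i ∈ u.1} := by
      rw [mem_iUnion]
      exact ⟨⟨u, hu⟩, fun i => hFu (hx ▸ mem_range_self i)⟩
    rw [← hT2 k, mem_iUnion₂] at h2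
    obtain ⟨v, hv, hxv⟩ := h2
    refine ⟨v.1, mem_iUnion.2 ⟨k, v, hv, rfl⟩, ?_⟩
    rw [← hx]
    rintro _ ⟨i, rfl⟩
    exact hxv i

/-- open tau-covers of second countable spaces have countable tau-subcovers -/
theorem exists_countable_tau [SecondCountableTopology X] [Nonempty X] {U : Set (Set X)}
    (hU : U ∈ TauOf (OpenFam X)) : ∃ V ⊆ U, V.Countable ∧ V ∈ TauOf (OpenFam X) := by
  obtain ⟨h1, h2, h3⟩ := tau_sub_omega hU
  obtain ⟨V, hVU, hVc, hVω⟩ := exists_countable_omega h1 h3
  obtain ⟨_, _, hlin⟩ := tau_iff.1 hU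
  have hne : univ ∉ V := fun h => h2.2 (hVU h)
  refine ⟨V, hVU, hVc, ?_⟩
  exact tau_of_lin (fun u hu => h1 u (hVU hu)) hne (lin_sub hlin hVU (omega_large hne hVω))

end Omega

/-- description of countable Borel families on a set of reals -/
theorem exists_borel_ext {X : Set ℝ} {u : Set X} (hu : @MeasurableSet X (borel X) u) :
    ∃ w : Set ℝ, MeasurableSet w ∧ (Subtype.val ⁻¹' w : Set X) = u := by
  have h3 : borel X = MeasurableSpace.comap Subtype.val (borel ℝ) := borel_comap
  rw [h3, MeasurableSpace.measurableSet_comap] at hu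
  rw [← BorelSpace.measurable_eq (α := ℝ)] at hu
  exact hu

/-- the restricted measure of a measurable set missing `X` is zero -/
theorem restrict_zero {X S : Set ℝ} (hS : MeasurableSet S) (h : ∀ x ∈ X, x ∉ S) :
    (volume.restrict X) S = 0 := by
  rw [Measure.restrict_apply hS]
  have : S ∩ X = ∅ := by
    ext x
    simp only [mem_inter_iff, mem_empty_iff_false, iff_false, not_and]
    exact fun h1 h2 => h x h2 h1
  rw [this, measure_empty]

/-- Fubini: a Borel relation all of whose relevant sections on both sides are null cannot be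
total on a non-null set -/
theorem fubini_total {L : Set ℝ} (hfin : volume L ≠ ⊤) {W : Set (ℝ × ℝ)} (hW : MeasurableSet W)
    (hsec : ∀ x ∈ L, (volume.restrict L) {y | (x, y) ∈ W} = 0)
    (htot : ∀ x ∈ L, ∀ y ∈ L, (x, y) ∈ W ∨ (y, x) ∈ W) : volume L = 0 := by
  have : IsFiniteMeasure (volume.restrict L) := ⟨by
    rw [Measure.restrict_apply MeasurableSet.univ, univ_inter]
    exact lt_top_iff_ne_top.2 hfin⟩
  let μ := volume.restrict L
  let W' : Set (ℝ × ℝ) := Prod.swap ⁻¹' W
  have hW' : MeasurableSet W' := measurable_swap hW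
  have h1 : (μ.prod μ) W = 0 := by
    rw [Measure.prod_apply hW]
    rw [lintegral_eq_zero_iff (measurable_measure_prodMk_left hW)]
    have hm : MeasurableSet {x : ℝ | μ (Prod.mk x ⁻¹' W) ≠ 0} :=
      (measurable_measure_prodMk_left hW) (measurableSet_singleton 0).compl
    change μ {x : ℝ | ¬ (μ (Prod.mk x ⁻¹' W) = 0)} = 0
    exact restrict_zero hm (fun x hx h => h (hsec x hx))
  have h2 : (μ.prod μ) W' = 0 := by
    have h3 : (μ.prod μ) W' = (Measure.map Prod.swap (μ.prod μ)) W := by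
      rw [Measure.map_apply measurable_swap hW]
    rw [h3, Measure.prod_swap]
    exact h1
  have h3 : (μ.prod μ) (W ∪ W') = 0 := measure_union_null h1 h2
  have hU : MeasurableSet (W ∪ W') := hW.union hW'
  rw [Measure.prod_apply hU, lintegral_eq_zero_iff (measurable_measure_prodMk_left hU)] at h3
  -- the set of points with null section is measurable and misses `L`
  have hm : MeasurableSet {x : ℝ | μ (Prod.mk x ⁻¹' (W ∪ W')) = 0} :=
    (measurable_measure_prodMk_left hU) (measurableSet_singleton 0)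
  by_contra hL
  have h4 : μ {x : ℝ | μ (Prod.mk x ⁻¹' (W ∪ W')) = 0} = 0 := by
    apply restrict_zero hm
    intro x hx h
    apply hL
    have h5 : MeasurableSet (Prod.mk x ⁻¹' (W ∪ W')) := measurable_prodMk_left hU
    change μ (Prod.mk x ⁻¹' (W ∪ W')) = 0 at h
    change (volume.restrict L) (Prod.mk x ⁻¹' (W ∪ W')) = 0 at h
    rw [Measure.restrict_apply h5] at h
    rw [← h]
    congr 1
    ext y
    constructor
    · intro hy
      exact ⟨htot x hx y hy, hy⟩
    · rintro ⟨_, hy⟩
      exact hy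
  have h5 : μ univ = 0 := by
    have h6 : μ {x : ℝ | ¬ (μ (Prod.mk x ⁻¹' (W ∪ W')) = 0)} = 0 := h3
    have h7 := measure_union_null h4 h6
    have h8 : {x : ℝ | μ (Prod.mk x ⁻¹' (W ∪ W')) = 0} ∪
        {x : ℝ | ¬ (μ (Prod.mk x ⁻¹' (W ∪ W')) = 0)} = univ := by
      ext x
      simp only [mem_union, mem_ofPred_eq, mem_univ, iff_true]
      exact em _
    rw [h8] at h7
    exact h7
  apply hL
  change (volume.restrict L) univ = 0 at h5
  rw [Measure.restrict_apply MeasurableSet.univ, univ_inter] at h5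
  exact h5

end Pool.Agent.Helper185.Sierp
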