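import Pool.Agent.Helper185.BlkTower
import Pool.Agent.Helper185.SelDefs2
import Pool.Agent.Helper185.SierpBase

/-!
The main theorem for block towers.
-/

namespace Pool.Agent.Helper185.Blk

set_option linter.unusedSectionVars false

open Set Filter Pool.Agent.Helper185.Silver Pool.Agent.Helper185.Sel

/-- almost inclusion -/
def Sub (A B : Set ℕ) : Prop := ∃ N : ℕ, ∀ n, N ≤ n → n ∈ A → n ∈ B

theorem Sub.trans {A B C : Set ℕ} (h : Sub A B) (h' : Sub B C) : Sub A C := by
  obtain ⟨N, hN⟩ := h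
  obtain ⟨M, hM⟩ := h'
  exact ⟨max N M, fun n hn hA => hM n (le_of_max_le_right hn) (hN n (le_of_max_le_left hn) hA)⟩

theorem EqS.sub {A B : Set ℕ} (h : EqS A B) : Sub A B :=
  let ⟨N, hN⟩ := h; ⟨N, fun n hn => (hN n hn).1⟩

/-- inclusion of unions gives inclusion of index sets -/
theorem index_sub {q : ℕ → Finset ℕ} (hq : Bl q) {J J' : Set ℕ}
    (h : Sub (UU q J) (UU q J')) : (J \ J').Finite := by
  obtain ⟨N, hN⟩ := h
  apply (finite_lt_nat N).subset
  rintro j ⟨hj, hj'⟩
  by_contra hcon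
  have hNj : N ≤ j := le_of_not_gt (fun h' => hcon h')
  obtain ⟨a, ha⟩ := hq.ne j
  obtain ⟨i, hi, hai⟩ := hN a (hNj.trans (hq.le j a ha)) ⟨j, hj, ha⟩
  rcases lt_trichotomy i j with h1 | h1 | h1
  · exact absurd (hq.lt' h1 a hai a ha) (lt_irrefl _)
  · subst h1
    exact hj' hi
  · exact absurd (hq.lt' h1 a ha a hai) (lt_irrefl _)

theorem UU_univ_sub {q p : ℕ → Finset ℕ} (hq : Bl q) (hp : Bl p) (h : Le q p) :
    Sub (UU q univ) (UU p univ) := by
  obtain ⟨J, _, hJ⟩ := h.exists_index hq hp infinite_univ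
  refine hJ.sub.trans ⟨0, ?_⟩
  rintro n _ ⟨j, _, hj⟩
  exact ⟨j, trivial, hj⟩

theorem lin_of_seq {X : Type*} {w : ℕ → Set X} (hw : Function.Injective w)
    (h1 : ∀ x, {i | x ∈ w i}.Infinite)
    (h2 : ∀ x y, {i | x ∈ w i ∧ y ∉ w i}.Finite ∨ {i | y ∈ w i ∧ x ∉ w i}.Finite) :
    Lin (range w) where
  large := by
    intro x
    apply ((h1 x).image hw.injOn).mono
    rintro _ ⟨i, hi, rfl⟩
    exact ⟨mem_range_self i, hi⟩
  lin := by
    intro x y
    rcases h2 x y with h | h
    · left
      apply (h.image w).subset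
      rintro _ ⟨⟨i, rfl⟩, hi⟩
      exact ⟨i, hi, rfl⟩
    · right
      apply (h.image w).subset
      rintro _ ⟨⟨i, rfl⟩, hi⟩
      exact ⟨i, hi, rfl⟩

section

variable {I : Type} [LinearOrder I] [WellFoundedLT I]

/-- the constructed set -/
def XT (p : I → ℕ → Finset ℕ) : Set Z := {z | ∃ i, EqS (supp z) (UU (p i) univ)}

variable {B : I → Set ℕ} {O : I → ℕ → Set (Set ℕ)} {p : I → ℕ → Finset ℕ}

theorem tower_le (hp : ∀ i, Req B O i (fun j _ => p j) (p i)) {i j : I} (h : i ≤ j) :
    Le (p j) (p i) := by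
  rcases eq_or_lt_of_le h with h1 | h1
  · subst h1
    exact Le.refl _
  · exact (hp j).2.1 i h1

theorem XT_lin (hp : ∀ i, Req B O i (fun j _ => p j) (p i)) (x y : XT p) :
    Sub (supp x) (supp y) ∨ Sub (supp y) (supp x) := by
  obtain ⟨x, i, hx⟩ := x
  obtain ⟨y, j, hy⟩ := y
  rcases le_total i j with h | h
  · right
    exact (hy.sub.trans (UU_univ_sub (hp j).1 (hp i).1 (tower_le hp h))).trans hx.symm.sub
  · left
    exact (hx.sub.trans (UU_univ_sub (hp i).1 (hp j).1 (tower_le hp h))).trans hy.symm.sub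

theorem ch_mem (p : I → ℕ → Finset ℕ) (i : I) {A : Set ℕ} (h : EqS A (UU (p i) univ)) :
    ch A ∈ XT p := ⟨i, by rw [supp_ch]; exact h⟩

/-- the main selection lemma -/
theorem exists_two (hp : ∀ i, Req B O i (fun j _ => p j) (p i))
    (hall : ∀ W : ℕ → Set (Set ℕ), (∀ n, Op (W n)) → ∃ i, O i = W)
    {v : ℕ → Set (XT p)} (hv : Function.Injective v) (hvo : ∀ n, IsOpen (v n))
    (hne : ∀ n, v n ≠ univ) (hω : ∀ F : Set (XT p), F.Finite → ∃ n, F ⊆ v n) :
    ∃ m : Bool → ℕ → ℕ, (∀ i, m false i < m true i ∧ m true i < m false (i + 1)) ∧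
      ∀ ε, Lin (range (fun i => v (m ε i))) := by
  classical
  choose W hW hWv using fun n => isOpen_induced_iff.1 (hvo n)
  obtain ⟨i, hi⟩ := hall (fun n => {A | ch A ∈ W n}) (fun n => op_of_open (hW n))
  have hvm : ∀ n (x : XT p), x ∈ v n ↔ supp x ∈ O i n := by
    intro n x
    rw [hi, ← hWv n]
    change (x : Z) ∈ W n ↔ ch (supp x) ∈ W n
    rw [ch_supp]
  rcases (hp i).2.2.2 with ⟨F, hF, hFX, N, hN⟩ | ⟨m, hm1, hm2, hm3⟩
  · exfalso
    have h1 : ∀ n, ∃ z : XT p, z ∉ v n := fun n => (ne_univ_iff_exists_notMem _).1 (hne n)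
    choose z hz using h1
    obtain ⟨n, hn⟩ := hω ({x | supp x ∈ F} ∪ z '' {k | k < N})
      ((hF.preimage (fun x _ y _ h => Subtype.ext (supp_injective h))).union
        ((finite_lt_nat N).image z))
    have hNn : N ≤ n := by
      by_contra hcon
      exact hz n (hn (Or.inr ⟨n, not_le.1 hcon, rfl⟩))
    apply hN n hNn
    intro A hA
    have hA2 : ∃ j, EqS A (UU (p j) univ) := by
      rcases hFX hA with ⟨j, _, h2⟩ | h2
      · exact ⟨j, h2⟩
      · exact ⟨i, h2⟩
    obtain ⟨j, hj⟩ := hA2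
    have h3 : (⟨ch A, ch_mem p j hj⟩ : XT p) ∈ v n := by
      apply hn
      left
      change supp (ch A) ∈ F
      rw [supp_ch]
      exact hA
    rw [hvm] at h3
    change supp (ch A) ∈ O i n at h3
    rw [supp_ch] at h3
    exact h3
  · refine ⟨m, hm1, fun ε => ?_⟩
    have hmono : StrictMono (m ε) := by
      apply strictMono_nat_of_lt_succ
      intro k
      have h1 := hm1 k
      have h2 := hm1 (k + 1)
      cases ε <;> omega
    have hst : ∀ x : XT p, (∃ i0, ∀ k, i0 ≤ k → x ∈ v (m ε k)) ∨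
        ∃ J : Set ℕ, J.Infinite ∧ EqS (supp x) (UU (p i) J) ∧
          ∃ i0, ∀ k, i0 ≤ k → (x ∈ v (m ε k) ↔ k ∈ J) := by
      intro x
      obtain ⟨j, hj⟩ := x.2
      rcases lt_or_ge j i with h | h
      · left
        obtain ⟨i0, hi0⟩ := hm2 (supp x) ⟨j, h, hj⟩ ε
        exact ⟨i0, fun k hk => (hvm _ _).2 (hi0 k hk)⟩
      · obtain ⟨J, hJ, hJ2⟩ := (tower_le hp h).exists_index (hp j).1 (hp i).1 infinite_univ
        rcases hm3 ε J hJ (supp x) (hj.trans hJ2) with ⟨i0, hi0⟩ | ⟨i0, hi0⟩
        · left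
          exact ⟨i0, fun k hk => (hvm _ _).2 (hi0 k hk)⟩
        · right
          exact ⟨J, hJ, hj.trans hJ2, i0, fun k hk => (hvm _ _).trans (hi0 k hk)⟩
    apply lin_of_seq (hv.comp hmono.injective)
    · intro x
      rcases hst x with ⟨i0, hi0⟩ | ⟨J, hJ, -, i0, hi0⟩
      · intro hfin
        obtain ⟨M, hM⟩ := hfin.bddAbove
        have h1 : max i0 (M + 1) ≤ M := hM (hi0 (max i0 (M + 1)) (le_max_left _ _))
        have h2 := le_max_right i0 (M + 1)
        omega
      · intro hfin
        apply hJ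
        apply (hfin.union (finite_lt_nat i0)).subset
        intro k hk
        by_cases h1 : k < i0
        · exact Or.inr h1
        · exact Or.inl ((hi0 k (not_lt.1 h1)).2 hk)
    · have key : ∀ x y : XT p, Sub (supp x) (supp y) →
          {k | x ∈ v (m ε k) ∧ y ∉ v (m ε k)}.Finite ∨
          {k | y ∈ v (m ε k) ∧ x ∉ v (m ε k)}.Finite := by
        intro x y hxy
        rcases hst y with ⟨j0, hj0⟩ | ⟨J', hJ', hy, j0, hj0⟩
        · left
          apply (finite_lt_nat j0).subset
          rintro k ⟨_, hk⟩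
          by_contra hcon
          exact hk (hj0 k (le_of_not_gt (fun h' => hcon h')))
        · rcases hst x with ⟨i0, hi0⟩ | ⟨J, hJ, hx, i0, hi0⟩
          · right
            apply (finite_lt_nat i0).subset
            rintro k ⟨_, hk⟩
            by_contra hcon
            exact hk (hi0 k (le_of_not_gt (fun h' => hcon h')))
          · left
            have h1 := index_sub (hp i).1 ((hx.symm.sub.trans hxy).trans hy.sub)
            apply ((h1.union (finite_lt_nat i0)).union (finite_lt_nat j0)).subset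
            rintro k ⟨hk1, hk2⟩
            by_cases h2 : k < i0
            · exact Or.inl (Or.inr h2)
            · by_cases h3 : k < j0
              · exact Or.inr h3
              · left
                left
                exact ⟨(hi0 k (not_lt.1 h2)).1 hk1, fun h4 => hk2 ((hj0 k (not_lt.1 h3)).2 h4)⟩
      intro x y
      rcases XT_lin hp x y with h | h
      · exact key x y h
      · exact (key y x h).symm

theorem exists_enum_inj {X : Type*} {V : Set (Set X)} (hc : V.Countable) (hi : V.Infinite) :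
    ∃ v : ℕ → Set X, Function.Injective v ∧ range v = V := by
  have : Countable V := hc.to_subtype
  have : Infinite V := hi.to_subtype
  obtain ⟨e⟩ : Nonempty (ℕ ≃ V) := nonempty_equiv_of_countable
  refine ⟨fun n => (e n).1, fun a b h => e.injective (Subtype.ext h), ?_⟩
  ext u
  constructor
  · rintro ⟨n, rfl⟩
    exact (e n).2
  · intro hu
    exact ⟨e.symm ⟨u, hu⟩, by simp⟩

theorem split_XT [Nonempty I] (hp : ∀ i, Req B O i (fun j _ => p j) (p i))
    (hall : ∀ W : ℕ → Set (Set ℕ), (∀ n, Op (W n)) → ∃ i, O i = W) :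
    SplitP (OmegaOf (OpenFam (XT p))) (TauOf (OpenFam (XT p))) := by
  classical
  intro U hU
  obtain ⟨V, hVU, hVc, hVω⟩ := Sierp.exists_countable_omega hU.1 hU.2.2
  have hne : univ ∉ V := fun h => hU.2.1.2 (hVU h)
  have hpt : ∃ x : XT p, True := by
    obtain ⟨i⟩ := (inferInstance : Nonempty I)
    exact ⟨⟨ch (UU (p i) univ), ch_mem p i (EqS.refl _)⟩, trivial⟩
  obtain ⟨x0, -⟩ := hpt
  have hVi : V.Infinite := (Sierp.omega_large hne hVω x0).mono (fun u hu => hu.1)
  obtain ⟨v, hv, hvV⟩ := exists_enum_inj hVc hVi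
  have hvmem : ∀ n, v n ∈ V := fun n => by rw [← hvV]; exact mem_range_self n
  obtain ⟨m, hm, hlin⟩ := exists_two hp hall hv (fun n => hU.1 _ (hVU (hvmem n)))
    (fun n h => hne (h ▸ hvmem n)) (by
      intro F hF
      obtain ⟨u, hu, hFu⟩ := hVω F hF
      rw [← hvV] at hu
      obtain ⟨n, rfl⟩ := hu
      exact ⟨n, hFu⟩)
  have htau : ∀ ε, range (fun i => v (m ε i)) ∈ TauOf (OpenFam (XT p)) := by
    intro ε
    apply tau_of_lin _ _ (hlin ε)
    · rintro _ ⟨i, rfl⟩
      exact hU.1 _ (hVU (hvmem _))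
    · rintro ⟨i, hi⟩
      exact hne (hi ▸ hvmem _)
  refine ⟨U \ range (fun i => v (m true i)), range (fun i => v (m true i)), ?_, ?_,
    ⟨range (fun i => v (m false i)), ?_, htau false⟩, ⟨_, subset_rfl, htau true⟩⟩
  · apply sdiff_union_of_subset
    rintro _ ⟨i, rfl⟩
    exact hVU (hvmem _)
  · exact disjoint_sdiff_left
  · rintro _ ⟨i, rfl⟩
    refine ⟨hVU (hvmem _), ?_⟩
    rintro ⟨j, hj⟩
    have h1 : m true j = m false i := hv hj
    have hft : ∀ a b, a < b → m true a < m false b := by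
      intro a b hab
      induction b, hab using Nat.le_induction with
      | base => exact (hm a).2
      | succ b _ ih => exact (ih.trans (hm b).1).trans (hm b).2
    rcases lt_or_ge j i with h2 | h2
    · have := hft j i h2
      omega
    · rcases eq_or_lt_of_le h2 with h3 | h3
      · rw [h3] at h1
        have := (hm j).1
        omega
      · have h4 := hft i j h3
        have h5 := (hm i).1
        have h6 := (hm j).1
        omega

theorem not_choose_XT [Nonempty I] (hp : ∀ i, Req B O i (fun j _ => p j) (p i))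
    (hall : ∀ C : Set ℕ, ∃ i, B i = C) :
    ¬ Choose (TauOf (OpenFam (XT p))) (GammaOf (OpenFam (XT p))) := by
  classical
  intro h
  let c : ℕ → Set (XT p) := fun n => {x | (x : Z) n = true}
  obtain ⟨i0⟩ := (inferInstance : Nonempty I)
  have hmod : ∀ s : Finset ℕ, ∀ k : ℕ, ∃ x : XT p, (k ∉ s → (x : Z) k = false) ∧
      ∀ n ∈ s, (x : Z) n = true := by
    intro s k
    refine ⟨⟨ch ((UU (p i0) univ \ {k}) ∪ s), ch_mem p i0 ⟨max (s.sup id + 1) (k + 1), ?_⟩⟩, ?_, ?_⟩
    · intro n hn
      have h1 := le_of_max_le_left hn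
      have h2 := le_of_max_le_right hn
      constructor
      · rintro (h3 | h3)
        · exact h3.1
        · have h4 : n ≤ s.sup id := Finset.le_sup (f := id) (Finset.mem_coe.1 h3)
          omega
      · intro h3
        refine Or.inl ⟨h3, ?_⟩
        intro h4
        rw [mem_singleton_iff] at h4
        omega
    · intro hk
      simp [ch, hk]
    · intro n hn
      simp [ch, hn]
  have hcinj : Function.Injective c := by
    intro a b hab
    by_contra hne
    obtain ⟨x, hx1, hx2⟩ := hmod {a} b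
    have h1 : x ∈ c a := hx2 a (Finset.mem_singleton_self a)
    rw [hab] at h1
    have h2 : (x : Z) b = false := hx1 (by
      rw [Finset.mem_singleton]
      exact fun h => hne h.symm)
    have h3 : (x : Z) b = true := h1
    rw [h2] at h3
    cases h3
  have hcu : ∀ n, c n ≠ univ := by
    intro n hn
    obtain ⟨x, hx1, _⟩ := hmod ∅ n
    have h1 : x ∈ c n := by rw [hn]; trivial
    have h2 : (x : Z) n = true := h1
    rw [hx1 (by simp)] at h2
    cases h2
  have hco : ∀ n, IsOpen (c n) := by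
    intro n
    have h0 : Continuous (fun z : Z => z n) := continuous_apply n
    have h1 : IsOpen ((fun z : Z => z n) ⁻¹' {true}) := (isOpen_discrete _).preimage h0
    exact h1.preimage continuous_subtype_val
  have hlin : Lin (range c) := by
    apply lin_of_seq hcinj
    · intro x
      obtain ⟨i, hi⟩ := x.2
      intro hfin
      apply UU_infinite (hp i).1 infinite_univ
      obtain ⟨N, hN⟩ := hi
      apply (hfin.union (finite_lt_nat N)).subset
      intro n hn
      by_cases h1 : n < N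
      · exact Or.inr h1
      · exact Or.inl ((hN n (not_lt.1 h1)).2 hn)
    · intro x y
      rcases XT_lin hp x y with ⟨N, hN⟩ | ⟨N, hN⟩
      · left
        apply (finite_lt_nat N).subset
        rintro n ⟨h1, h2⟩
        by_contra hcon
        exact h2 (hN n (le_of_not_gt (fun h' => hcon h')) h1)
      · right
        apply (finite_lt_nat N).subset
        rintro n ⟨h1, h2⟩
        by_contra hcon
        exact h2 (hN n (le_of_not_gt (fun h' => hcon h')) h1)
  have htau : range c ∈ TauOf (OpenFam (XT p)) := by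
    apply tau_of_lin _ _ hlin
    · rintro _ ⟨n, rfl⟩
      exact hco n
    · rintro ⟨n, hn⟩
      exact hcu n hn
  obtain ⟨V, hVU, hV⟩ := h _ htau
  have hBi : {n | c n ∈ V}.Infinite := by
    intro hfin
    apply hV.2.2.1
    apply (hfin.image c).subset
    intro u hu
    obtain ⟨n, rfl⟩ := hVU hu
    exact ⟨n, hu, rfl⟩
  obtain ⟨i, hi⟩ := hall {n | c n ∈ V}
  have h1 := (hp i).2.2.1 (by rw [hi]; exact hBi)
  let x : XT p := ⟨ch (UU (p i) univ), ch_mem p i (EqS.refl _)⟩
  apply h1
  have h2 := hV.2.2.2 x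
  have h3 : (c '' (B i \ UU (p i) univ)).Finite := by
    apply h2.subset
    rintro _ ⟨n, ⟨hn1, hn2⟩, rfl⟩
    refine ⟨by rw [hi] at hn1; exact hn1, ?_⟩
    intro h4
    apply hn2
    have h5 : ch (UU (p i) univ) n = true := h4
    simpa [ch] using h5
  exact h3.of_finite_image hcinj.injOn

end

end Pool.Agent.Helper185.Blk
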