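import Mathlib

/-!
Thinning out families of finite partial functions, and calibers of the spaces of two-colourings.
-/

namespace Pool.Agent.Helper185.Cal
open Cardinal Set

universe u

section
variable {I J : Type u} {κ : Cardinal.{u}}

/-- pigeonhole for subsets -/
theorem pigeon (hκ : κ.IsRegular) {C : Type u} (hC : #C < κ) (f : I → C) (S : Set I)
    (hS : κ ≤ #S) : ∃ c, κ ≤ #{i | i ∈ S ∧ f i = c} := by
  obtain ⟨a, t, h, ht, h'⟩ := infinite_pigeonhole_set (s := S) (fun i => f i.1) κ hS hκ.1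
    (by rwa [hκ.cof_ord])
  exact ⟨a, ht.trans (mk_le_mk_of_subset fun i hi => ⟨h hi, h' hi⟩)⟩

theorem compat_card (hκ : κ.IsRegular) (h0 : ℵ₀ < κ) (z : I → J → Bool) (n : ℕ) :
    ∀ (D : I → Finset J) (S : Set I), κ ≤ #S → (∀ i ∈ S, (D i).card = n) →
      ∃ B ⊆ S, κ ≤ #B ∧ ∀ i ∈ B, ∀ i' ∈ B, ∀ j ∈ D i, j ∈ D i' → z i j = z i' j := by
  classical
  induction n with
  | zero =>
    intro D S hS hD
    refine ⟨S, subset_rfl, hS, ?_⟩
    intro i hi i' _ j hj
    rw [Finset.card_eq_zero.1 (hD i hi)] at hj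
    exact absurd hj (Finset.notMem_empty j)
  | succ n ih =>
    intro D S hS hD
    by_cases h : ∃ j, κ ≤ #{i | i ∈ S ∧ j ∈ D i}
    · obtain ⟨j, hj⟩ := h
      obtain ⟨c, hc⟩ := pigeon hκ (C := ULift.{u} Bool)
        ((lt_aleph0_of_finite _).trans h0) (fun i => ⟨z i j⟩) _ hj
      obtain ⟨B, hB, hBκ, h1⟩ := ih (fun i => (D i).erase j) _ hc (by
        rintro i ⟨⟨hi, hij⟩, _⟩
        rw [Finset.card_erase_of_mem hij, hD i hi]
        rfl)
      refine ⟨B, fun i hi => (hB hi).1.1, hBκ, ?_⟩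
      intro i hi i' hi' j' hj' hj''
      by_cases hjj : j' = j
      · subst hjj
        have h2 := (hB hi).2
        have h3 := (hB hi').2
        exact congrArg ULift.down (h2.trans h3.symm)
      · exact h1 i hi i' hi' j' (Finset.mem_erase.2 ⟨hjj, hj'⟩) (Finset.mem_erase.2 ⟨hjj, hj''⟩)
    · push Not at h
      obtain ⟨B, hB⟩ := zorn_subset {B : Set I | B ⊆ S ∧
          ∀ i ∈ B, ∀ i' ∈ B, i ≠ i' → Disjoint (D i) (D i')} (by
        intro c hc hch
        refine ⟨⋃₀ c, ⟨sUnion_subset fun s hs => (hc hs).1, ?_⟩,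
          fun s hs => subset_sUnion_of_mem hs⟩
        rintro i ⟨s, hs, his⟩ i' ⟨t, ht, hit⟩ hne
        rcases hch.total hs ht with h | h
        · exact (hc ht).2 i (h his) i' hit hne
        · exact (hc hs).2 i his i' (h hit) hne)
      refine ⟨B, hB.1.1, ?_, ?_⟩
      · by_contra hlt
        push Not at hlt
        have hU : #(⋃ i ∈ B, (D i : Set J) : Set J) < κ := by
          rw [card_biUnion_lt_iff_forall_of_isRegular hκ hlt]
          intro i _
          exact (lt_aleph0_of_finite _).trans h0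
        have hS' : S ⊆ ⋃ j ∈ (⋃ i ∈ B, (D i : Set J) : Set J), {i | i ∈ S ∧ j ∈ D i} := by
          intro i hi
          have hne : (D i).Nonempty := by
            rw [← Finset.card_pos, hD i hi]
            exact Nat.succ_pos n
          by_cases hiB : i ∈ B
          · obtain ⟨j, hj⟩ := hne
            exact mem_iUnion₂.2 ⟨j, mem_iUnion₂.2 ⟨i, hiB, hj⟩, hi, hj⟩
          · by_contra hc
            have hdis : ∀ i' ∈ B, Disjoint (D i) (D i') := by
              intro i' hi'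
              rw [Finset.disjoint_left]
              intro j hj hj'
              exact hc (mem_iUnion₂.2 ⟨j, mem_iUnion₂.2 ⟨i', hi', hj'⟩, hi, hj⟩)
            have h1 : insert i B ∈ {B : Set I | B ⊆ S ∧
                ∀ i ∈ B, ∀ i' ∈ B, i ≠ i' → Disjoint (D i) (D i')} := by
              refine ⟨insert_subset hi hB.1.1, ?_⟩
              rintro a (rfl | ha) b (rfl | hb) hne
              · exact absurd rfl hne
              · exact hdis b hb
              · exact (hdis a ha).symm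
              · exact hB.1.2 a ha b hb hne
            exact hiB (hB.2 h1 (subset_insert _ _) (mem_insert _ _))
        have h2 : #(⋃ j ∈ (⋃ i ∈ B, (D i : Set J) : Set J), {i | i ∈ S ∧ j ∈ D i} : Set I) <
            κ := by
          rw [card_biUnion_lt_iff_forall_of_isRegular hκ hU]
          intro j _
          exact h j
        exact absurd (hS.trans (mk_le_mk_of_subset hS')) (not_le.2 h2)
      · intro i hi i' hi' j hj hj'
        by_cases hne : i = i'
        · rw [hne]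
        · exact absurd hj' (Finset.disjoint_left.1 (hB.1.2 i hi i' hi' hne) hj)

/-- thinning out a family of finite partial functions -/
theorem compat (hκ : κ.IsRegular) (h0 : ℵ₀ < κ) (z : I → J → Bool) (D : I → Finset J) (S : Set I)
    (hS : κ ≤ #S) :
    ∃ B ⊆ S, κ ≤ #B ∧ ∀ i ∈ B, ∀ i' ∈ B, ∀ j ∈ D i, j ∈ D i' → z i j = z i' j := by
  obtain ⟨⟨n⟩, hn⟩ := pigeon hκ (C := ULift.{u} ℕ) (by simpa using h0)
    (fun i => ⟨(D i).card⟩) S hS
  obtain ⟨B, hB, hB', h⟩ := compat_card hκ h0 z n D _ hn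
    (fun i hi => congrArg ULift.down hi.2)
  exact ⟨B, fun i hi => (hB hi).1, hB', h⟩

end

/-- `X` has caliber `α`: every family of `α` nonempty open sets has a subfamily of size `α` with
a nonempty intersection. -/
def HasCaliber (X : Type u) [TopologicalSpace X] (α : Cardinal.{u}) : Prop :=
  ∀ (I : Type u), #I = α → ∀ U : I → Set X, (∀ i, IsOpen (U i)) → (∀ i, (U i).Nonempty) →
    ∃ B : Set I, #B = α ∧ (⋂ i ∈ B, U i).Nonempty

/-- The countable chain condition. -/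
def CCC (X : Type u) [TopologicalSpace X] : Prop :=
  ∀ 𝒰 : Set (Set X), (∀ U ∈ 𝒰, IsOpen U ∧ U.Nonempty) →
    (∀ U ∈ 𝒰, ∀ V ∈ 𝒰, U ≠ V → Disjoint U V) → 𝒰.Countable

theorem ccc_of_caliber {X : Type u} [TopologicalSpace X] (h : HasCaliber X ℵ₁) : CCC X := by
  intro 𝒰 h1 h2
  by_contra hc
  have h3 : ℵ₁ ≤ #𝒰 := by
    rw [← succ_aleph0, Order.succ_le_iff]
    rw [← le_aleph0_iff_set_countable, not_le] at hc
    exact hc
  obtain ⟨𝒱, h4, h5⟩ := le_mk_iff_exists_subset.1 h3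
  obtain ⟨B, hB, x, hx⟩ := h 𝒱 h5 (fun V => V.1) (fun V => (h1 _ (h4 V.2)).1)
    (fun V => (h1 _ (h4 V.2)).2)
  have h6 : 1 < #B := by
    rw [hB]
    exact one_lt_aleph0.trans aleph0_lt_aleph_one
  obtain ⟨V, W, hne⟩ := one_lt_iff_nontrivial.1 h6
  have h7 : V.1.1 ≠ W.1.1 := fun h => hne (Subtype.ext (Subtype.ext h))
  have h8 := h2 _ (h4 V.1.2) _ (h4 W.1.2) h7
  rw [mem_iInter₂] at hx
  exact Set.disjoint_left.1 h8 (hx _ V.2) (hx _ W.2)

section
variable {L M K : Type u}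

/-- The space of all pairs of a set `s ⊆ L` and a two-colouring `a` of `M × K` such that `a` is not
constant on any of the edges `T ξ n`, for `ξ ∈ s`. -/
def Sp (T : L → M → K × K) : Set (L ⊕ (M × K) → Bool) :=
  {z | ∀ ξ, z (Sum.inl ξ) = true → ∀ n, z (Sum.inr (n, (T ξ n).1)) ≠ z (Sum.inr (n, (T ξ n).2))}

theorem isClosed_Sp (T : L → M → K × K) : IsClosed (Sp T) := by
  have h : Sp T = ⋂ ξ, ⋂ n, {z | z (Sum.inl ξ) = true →
      z (Sum.inr (n, (T ξ n).1)) ≠ z (Sum.inr (n, (T ξ n).2))} := by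
    ext z
    simp only [mem_iInter]
    exact ⟨fun h ξ n hξ => h ξ hξ n, fun h ξ hξ n => h ξ n hξ⟩
  rw [h]
  refine isClosed_iInter fun ξ => isClosed_iInter fun n => ?_
  have hc : Continuous fun z : L ⊕ (M × K) → Bool =>
      (z (Sum.inl ξ), z (Sum.inr (n, (T ξ n).1)), z (Sum.inr (n, (T ξ n).2))) := by
    fun_prop
  exact (isClosed_discrete {p : Bool × Bool × Bool | p.1 = true → p.2.1 ≠ p.2.2}).preimage hc

theorem compact_Sp (T : L → M → K × K) : CompactSpace (Sp T) :=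
  isCompact_iff_compactSpace.1 (isClosed_Sp T).isCompact

theorem caliber_Sp [LinearOrder M] [Nonempty M] (hM : #M ≤ ℵ₀) (hfin : ∀ m : M, (Iic m).Finite)
    {κ : Cardinal.{u}} (hκ : κ.IsRegular) (h0 : ℵ₀ < κ) (T : L → M → K × K)
    (hT : ∀ ξ n, (T ξ n).1 ≠ (T ξ n).2)
    (free : ∀ A : Set L, #A ≤ κ → ∃ f : L → M, ∀ ξ ∈ A, ∀ ξ' ∈ A, ξ ≠ ξ' → ∀ n, f ξ ≤ n →
      f ξ' ≤ n → (T ξ n).2 ≠ (T ξ' n).1) : HasCaliber (Sp T) κ := by
  classical
  intro I hI U hU hne
  choose z hz using hne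
  have hD : ∀ i, ∃ D : Finset (L ⊕ (M × K)), ∀ w : Sp T, (∀ j ∈ D, w.1 j = (z i).1 j) →
      w ∈ U i := by
    intro i
    obtain ⟨V, hV, hVU⟩ := isOpen_induced_iff.1 (hU i)
    have h1 : (z i).1 ∈ V := by
      have h2 := hz i
      rw [← hVU] at h2
      exact h2
    obtain ⟨D, u, hu, hu'⟩ := isOpen_pi_iff.1 hV _ h1
    refine ⟨D, fun w hw => ?_⟩
    rw [← hVU]
    apply hu'
    intro j hj
    rw [hw j hj]
    exact (hu j hj).2
  choose D hD using hD
  obtain ⟨f, hf⟩ := free (⋃ i, {ξ | Sum.inl ξ ∈ D i}) (by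
    refine (mk_iUnion_le_sum_mk.trans (sum_le_mk_mul_iSup _)).trans ?_
    refine mul_le_of_le h0.le hI.le ?_
    refine ciSup_le' fun i => ?_
    have h1 : {ξ : L | Sum.inl ξ ∈ D i}.Finite := by
      refine ((D i).finite_toSet.preimage (f := fun ξ : L => (Sum.inl ξ : L ⊕ (M × K))) ?_)
      exact Sum.inl_injective.injOn
    have := h1.to_subtype
    exact ((lt_aleph0_of_finite _).trans h0).le)
  have hN : ∀ i, ∃ N : M, (∀ ξ, Sum.inl ξ ∈ D i → f ξ ≤ N) ∧
      ∀ n x, Sum.inr (n, x) ∈ D i → n ≤ N := by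
    intro i
    obtain ⟨N, hN⟩ := ((D i).image fun j => Sum.elim f Prod.fst j).exists_le
    refine ⟨N, fun ξ hξ => ?_, fun n x hx => ?_⟩
    · exact hN _ (Finset.mem_image.2 ⟨_, hξ, rfl⟩)
    · exact hN _ (Finset.mem_image.2 ⟨_, hx, rfl⟩)
  choose N hN1 hN2 using hN
  have hE : ∀ i, ∃ E : Finset (L ⊕ (M × K)), D i ⊆ E ∧ ∀ ξ, Sum.inl ξ ∈ D i → ∀ n ≤ N i,
      Sum.inr (n, (T ξ n).1) ∈ E ∧ Sum.inr (n, (T ξ n).2) ∈ E := by
    intro i
    have h1 : {ξ : L | Sum.inl ξ ∈ D i}.Finite := by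
      refine ((D i).finite_toSet.preimage (f := fun ξ : L => (Sum.inl ξ : L ⊕ (M × K))) ?_)
      exact Sum.inl_injective.injOn
    have h2 := (h1.prod (hfin (N i)))
    have h3 := (h2.image fun p => (Sum.inr (p.2, (T p.1 p.2).1) : L ⊕ (M × K)))
    have h4 := (h2.image fun p => (Sum.inr (p.2, (T p.1 p.2).2) : L ⊕ (M × K)))
    refine ⟨D i ∪ (h3.toFinset ∪ h4.toFinset), Finset.subset_union_left, ?_⟩
    intro ξ hξ n hn
    constructor
    · refine Finset.mem_union_right _ (Finset.mem_union_left _ ?_)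
      rw [Set.Finite.mem_toFinset]
      exact ⟨(ξ, n), ⟨hξ, hn⟩, rfl⟩
    · refine Finset.mem_union_right _ (Finset.mem_union_right _ ?_)
      rw [Set.Finite.mem_toFinset]
      exact ⟨(ξ, n), ⟨hξ, hn⟩, rfl⟩
  choose E hE1 hE2 using hE
  obtain ⟨N', hN'⟩ := pigeon hκ (C := M) (hM.trans_lt h0) N Set.univ (by rw [mk_univ, hI])
  obtain ⟨B', hB', hB'κ, hcomp'⟩ := compat hκ h0 (fun i => (z i).1) E _ hN'
  obtain ⟨B, hBB', hBκ⟩ := le_mk_iff_exists_subset.1 hB'κ
  have hNB : ∀ i ∈ B, N i = N' := fun i hi => (hB' (hBB' hi)).2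
  have hcomp : ∀ i ∈ B, ∀ i' ∈ B, ∀ j ∈ E i, j ∈ E i' → (z i).1 j = (z i').1 j :=
    fun i hi i' hi' => hcomp' i (hBB' hi) i' (hBB' hi')
  let act : L → Prop := fun ξ => ∃ i ∈ B, Sum.inl ξ ∈ D i ∧ (z i).1 (Sum.inl ξ) = true
  let w : L ⊕ (M × K) → Bool := fun j => match j with
    | Sum.inl ξ => decide (act ξ)
    | Sum.inr (n, x) => if n ≤ N' then
        decide (∃ i ∈ B, Sum.inr (n, x) ∈ E i ∧ (z i).1 (Sum.inr (n, x)) = true)
        else decide (∃ ξ, act ξ ∧ x = (T ξ n).1)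
  have hw1 : ∀ ξ, w (Sum.inl ξ) = decide (act ξ) := fun ξ => rfl
  have hw2 : ∀ n x, n ≤ N' → w (Sum.inr (n, x)) =
      decide (∃ i ∈ B, Sum.inr (n, x) ∈ E i ∧ (z i).1 (Sum.inr (n, x)) = true) := by
    intro n x hn
    exact if_pos hn
  have hw3 : ∀ n x, ¬ n ≤ N' → w (Sum.inr (n, x)) = decide (∃ ξ, act ξ ∧ x = (T ξ n).1) := by
    intro n x hn
    exact if_neg hn
  have hw4 : ∀ i ∈ B, ∀ n x, n ≤ N' → Sum.inr (n, x) ∈ E i →
      w (Sum.inr (n, x)) = (z i).1 (Sum.inr (n, x)) := by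
    intro i hi n x hn hx
    rw [hw2 n x hn]
    by_cases h : (z i).1 (Sum.inr (n, x)) = true
    · rw [h]
      exact decide_eq_true ⟨i, hi, hx, h⟩
    · rw [Bool.not_eq_true] at h
      rw [h]
      refine decide_eq_false ?_
      rintro ⟨i', hi', hx', h'⟩
      rw [hcomp i' hi' i hi _ hx' hx, h] at h'
      exact Bool.false_ne_true h'
  have hw5 : ∀ i ∈ B, ∀ ξ, Sum.inl ξ ∈ D i → w (Sum.inl ξ) = (z i).1 (Sum.inl ξ) := by
    intro i hi ξ hξ
    rw [hw1]
    by_cases h : (z i).1 (Sum.inl ξ) = true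
    · rw [h]
      exact decide_eq_true ⟨i, hi, hξ, h⟩
    · rw [Bool.not_eq_true] at h
      rw [h]
      refine decide_eq_false ?_
      rintro ⟨i', hi', hx', h'⟩
      rw [hcomp i' hi' i hi _ (hE1 _ hx') (hE1 _ hξ), h] at h'
      exact Bool.false_ne_true h'
  have hwS : w ∈ Sp T := by
    intro ξ hξ n
    rw [hw1] at hξ
    obtain ⟨i, hi, hiD, hiz⟩ := of_decide_eq_true hξ
    by_cases hn : n ≤ N'
    · have h1 := hE2 i ξ hiD n (by rw [hNB i hi]; exact hn)
      rw [hw4 i hi n _ hn h1.1, hw4 i hi n _ hn h1.2]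
      exact (z i).2 ξ hiz n
    · have h1 : w (Sum.inr (n, (T ξ n).1)) = true := by
        rw [hw3 n _ hn]
        exact decide_eq_true ⟨ξ, ⟨i, hi, hiD, hiz⟩, rfl⟩
      have h2 : w (Sum.inr (n, (T ξ n).2)) = false := by
        rw [hw3 n _ hn]
        refine decide_eq_false ?_
        rintro ⟨ξ', ⟨i', hi', hiD', _⟩, h'⟩
        by_cases hne : ξ = ξ'
        · subst hne
          exact hT _ _ h'.symm
        · have h3 : f ξ ≤ n := (hN1 i ξ hiD).trans (by rw [hNB i hi]; exact (not_le.1 hn).le)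
          have h4 : f ξ' ≤ n := (hN1 i' ξ' hiD').trans (by rw [hNB i' hi']; exact (not_le.1 hn).le)
          exact hf ξ (mem_iUnion.2 ⟨i, hiD⟩) ξ' (mem_iUnion.2 ⟨i', hiD'⟩) hne n h3 h4 h'
      rw [h1, h2]
      exact Bool.noConfusion
  refine ⟨B, hBκ, ⟨w, hwS⟩, ?_⟩
  rw [mem_iInter₂]
  intro i hi
  apply hD i
  rintro (ξ | ⟨n, x⟩) hj
  · exact hw5 i hi ξ hj
  · refine hw4 i hi n x ?_ (hE1 i hj)
    rw [← hNB i hi]
    exact hN2 i n x hj

theorem not_caliber_Sp [LinearOrder L] (T : L → M → K × K)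
    (hT : ∀ ξ n, (T ξ n).1 ≠ (T ξ n).2) (hL : ∀ ζ : L, #(Iic ζ) < #L)
    (hdiag : ∀ a : M × K → Bool, ∃ ζ : L, ∀ ξ, ζ < ξ → ∃ n, a (n, (T ξ n).1) = a (n, (T ξ n).2)) :
    ¬ HasCaliber (Sp T) #L := by
  classical
  intro h
  obtain ⟨B, hB, ⟨w, hw⟩, hwB⟩ := h L rfl (fun ξ => {w | w.1 (Sum.inl ξ) = true})
    (fun ξ => by
      have hc : Continuous fun w : Sp T => w.1 (Sum.inl ξ) :=
        (continuous_apply (Sum.inl ξ : L ⊕ (M × K))).comp continuous_subtype_val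
      exact (isOpen_discrete {b : Bool | b = true}).preimage hc)
    (fun ξ => by
      refine ⟨⟨fun j => match j with
        | Sum.inl ξ' => decide (ξ' = ξ)
        | Sum.inr (n, x) => decide (x = (T ξ n).1), ?_⟩, ?_⟩
      · intro ξ' hξ' n
        have h1 : ξ' = ξ := of_decide_eq_true hξ'
        subst h1
        change decide ((T ξ' n).1 = (T ξ' n).1) ≠ decide ((T ξ' n).2 = (T ξ' n).1)
        rw [decide_eq_true (rfl : (T ξ' n).1 = (T ξ' n).1), decide_eq_false (hT ξ' n).symm]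
        exact Bool.noConfusion
      · exact decide_eq_true rfl)
  rw [mem_iInter₂] at hwB
  obtain ⟨ζ, hζ⟩ := hdiag fun p => w (Sum.inr p)
  have h1 : B ⊆ Iic ζ := by
    intro ξ hξ
    by_contra hc
    obtain ⟨n, hn⟩ := hζ ξ (not_le.1 hc)
    exact hw ξ (hwB ξ hξ) n hn
  have h2 := (mk_le_mk_of_subset h1).trans_lt (hL ζ)
  rw [hB] at h2
  exact lt_irrefl _ h2

end

end Pool.Agent.Helper185.Cal
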