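import Pool.Agent.Helper185.Cal1

/-!
The compact space obtained from a subadditive and locally small function.
-/

namespace Pool.Agent.Helper185.Cal
open Cardinal Set

universe u v

theorem exists_rec {I : Type u} {X : Type v} [LinearOrder I] [WellFoundedLT I]
    (R : (i : I) → ((j : I) → j < i → X) → X → Prop)
    (h : ∀ i (f : (j : I) → j < i → X), ∃ x, R i f x) :
    ∃ F : I → X, ∀ i, R i (fun j _ => F j) (F i) := by
  classical
  let G : (i : I) → ((j : I) → j < i → X) → X := fun i f => (h i f).choose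
  let F : I → X := (wellFounded_lt (α := I)).fix G
  have hF : ∀ i, F i = G i (fun j _ => F j) := fun i => WellFounded.fix_eq _ G i
  refine ⟨F, fun i => ?_⟩
  have h2 : F i = (h i (fun j _ => F j)).choose := hF i
  rw [h2]
  exact (h i (fun j _ => F j)).choose_spec

/-- the well-ordered set of the ordinals below `lam⁺` -/
abbrev Lam (lam : Cardinal.{u}) : Type u := (Order.succ lam).ord.ToType

/-- the well-ordered set of the ordinals below the cofinality of `lam` -/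
abbrev Cf (lam : Cardinal.{u}) : Type u := lam.ord.cof.ord.ToType

/-- There is a function `d` which attaches a level `d b a < cf λ` to every pair `a < b < λ⁺`, such
that for every `n < cf λ` some cardinal below `λ` is larger than all the numbers of the `a < b` of
level at most `n`, for the different `b < λ⁺`, and `d` is subadditive. -/
def HasSubadditive (lam : Cardinal.{u}) : Prop :=
  ∃ d : Lam lam → Lam lam → Cf lam,
    (∀ n, ∃ s : lam.ord.ToType, ∀ b, #{a | a < b ∧ d b a ≤ n} < #(Iio s)) ∧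
    ∀ a g b, a < g → g < b → d g a ≤ max (d b a) (d b g) ∧ d b a ≤ max (d g a) (d b g)

theorem mk_Iio_ord_lt {μ : Cardinal.{u}} (i : μ.ord.ToType) : #(Iio i) < μ := by
  simpa using mk_Iio_lt i

section
variable {lam : Cardinal.{u}}

theorem mk_Iio_le (a : Lam lam) : #(Iio a) ≤ lam := by
  have h : #(Iio a) < Order.succ lam := mk_Iio_ord_lt a
  exact Order.lt_succ_iff.1 h

theorem mk_Iic_le (hl : ℵ₀ ≤ lam) (a : Lam lam) : #(Iic a) ≤ lam := by
  have : Iic a = insert a (Iio a) := by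
    ext x
    simp [le_iff_eq_or_lt]
  rw [this]
  exact mk_insert_le.trans (add_le_of_le hl (mk_Iio_le a) (one_le_aleph0.trans hl))

theorem mk_Lam : #(Lam lam) = Order.succ lam := by
  change #((Order.succ lam).ord.ToType) = Order.succ lam
  simp

theorem exists_bound (hl : ℵ₀ ≤ lam) {ι : Type u} (hι : #ι ≤ lam) (f : ι → Lam lam) :
    ∃ b, ∀ i, f i < b := by
  by_contra hc
  push Not at hc
  have h1 : (Set.univ : Set (Lam lam)) ⊆ ⋃ i, Iic (f i) := by
    intro b _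
    obtain ⟨i, hi⟩ := hc b
    exact mem_iUnion.2 ⟨i, hi⟩
  have h2 : #(Lam lam) ≤ lam := by
    rw [← mk_univ]
    refine (mk_le_mk_of_subset h1).trans ?_
    refine (mk_iUnion_le_sum_mk.trans (sum_le_mk_mul_iSup _)).trans ?_
    refine mul_le_of_le hl hι ?_
    exact ciSup_le' fun i => mk_Iic_le hl _
  rw [mk_Lam] at h2
  exact absurd h2 (not_le.2 (Order.lt_succ lam))

theorem exists_edges (h0 : ℵ₀ < lam) (hst : ∀ κ < lam, 2 ^ κ < lam) {M : Type u} [LinearOrder M]
    (d : Lam lam → Lam lam → M) (hd : ∀ b n, #{a | a < b ∧ d b a ≤ n} < lam)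
    (e : Lam lam → (M × lam.ord.ToType → Bool)) :
    ∃ T : Lam lam → M → lam.ord.ToType × lam.ord.ToType, ∀ ξ n, (T ξ n).1 ≠ (T ξ n).2 ∧
      ∀ ζ < ξ, d ξ ζ ≤ n → e ζ (n, (T ξ n).1) = e ζ (n, (T ξ n).2) ∧
        (T ξ n).1 ≠ (T ζ n).2 ∧ (T ξ n).2 ≠ (T ζ n).1 := by
  classical
  have hK : #(lam.ord.ToType) = lam := by simp
  have hKi : Infinite lam.ord.ToType := by
    rw [infinite_iff, hK]
    exact h0.le
  obtain ⟨T, hT⟩ := exists_rec (I := Lam lam) (X := M → lam.ord.ToType × lam.ord.ToType)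
    (fun ξ f x => ∀ n, (x n).1 ≠ (x n).2 ∧ ∀ ζ (h : ζ < ξ), d ξ ζ ≤ n →
      e ζ (n, (x n).1) = e ζ (n, (x n).2) ∧ (x n).1 ≠ (f ζ h n).2 ∧ (x n).2 ≠ (f ζ h n).1) (by
    intro ξ f
    have key : ∀ n, ∃ y : lam.ord.ToType × lam.ord.ToType, y.1 ≠ y.2 ∧
        ∀ ζ (h : ζ < ξ), d ξ ζ ≤ n →
          e ζ (n, y.1) = e ζ (n, y.2) ∧ y.1 ≠ (f ζ h n).2 ∧ y.2 ≠ (f ζ h n).1 := by
      intro n
      let Γ : Set (Lam lam) := {a | a < ξ ∧ d ξ a ≤ n}
      have hΓ : #Γ < lam := hd ξ n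
      let F : Set lam.ord.ToType := range (fun ζ : Γ => (f ζ.1 ζ.2.1 n).1) ∪
        range (fun ζ : Γ => (f ζ.1 ζ.2.1 n).2)
      have hF : #F < #(lam.ord.ToType) := by
        rw [hK]
        refine (mk_union_le _ _).trans_lt ?_
        exact add_lt_of_lt h0.le (mk_range_le.trans_lt hΓ) (mk_range_le.trans_lt hΓ)
      have hFc : #(Fᶜ : Set lam.ord.ToType) = lam := by
        rw [mk_compl_of_infinite F hF, hK]
      let φ : (Fᶜ : Set lam.ord.ToType) → (Γ → Bool) := fun x ζ => e ζ.1 (n, x.1)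
      have hφ : ¬ Function.Injective φ := by
        intro hinj
        have h1 := mk_le_of_injective hinj
        rw [hFc] at h1
        have h2 : #(Γ → Bool) = 2 ^ #Γ := by simp
        rw [h2] at h1
        exact absurd h1 (not_le.2 (hst _ hΓ))
      rw [Function.not_injective_iff] at hφ
      obtain ⟨x, y, hxy, hne⟩ := hφ
      refine ⟨(x.1, y.1), fun h => hne (Subtype.ext h), fun ζ hζ hdζ => ⟨?_, ?_, ?_⟩⟩
      · exact congrFun hxy ⟨ζ, hζ, hdζ⟩
      · intro h
        exact x.2 (Or.inr ⟨⟨ζ, hζ, hdζ⟩, h.symm⟩)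
      · intro h
        exact y.2 (Or.inl ⟨⟨ζ, hζ, hdζ⟩, h.symm⟩)
    choose y hy using key
    exact ⟨y, hy⟩)
  exact ⟨T, fun ξ n => hT ξ n⟩

/-- The main construction. -/
theorem exists_space (h0 : ℵ₀ < lam) (h1 : lam.ord.cof = ℵ₀) (hst : ∀ κ < lam, 2 ^ κ < lam)
    (h2 : 2 ^ lam = Order.succ lam) (h3 : HasSubadditive lam) :
    ∃ (X : Type u) (_ : TopologicalSpace X), CompactSpace X ∧ T2Space X ∧
      (∀ κ : Cardinal.{u}, κ.IsRegular → ℵ₀ < κ → κ ≤ lam → HasCaliber X κ) ∧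
      ¬ HasCaliber X (Order.succ lam) := by
  classical
  obtain ⟨d, hd, hsub⟩ := h3
  have hM : #(Cf lam) = ℵ₀ := by
    change #(lam.ord.cof.ord.ToType) = ℵ₀
    rw [mk_toType, card_ord, h1]
  have hne : Nonempty (Cf lam) := by
    rw [← mk_ne_zero_iff, hM]
    exact aleph0_ne_zero
  have hfin : ∀ m : Cf lam, (Iic m).Finite := by
    intro m
    have h4 : #(Iio m) < ℵ₀ := (mk_Iio_ord_lt m).trans_eq h1
    have h5 : (Iio m).Finite := lt_aleph0_iff_set_finite.1 h4
    have : Iic m = insert m (Iio m) := by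
      ext x
      simp [le_iff_eq_or_lt]
    rw [this]
    exact h5.insert m
  have hK : #(lam.ord.ToType) = lam := by simp
  have hcard : #((Cf lam) × lam.ord.ToType → Bool) = #(Lam lam) := by
    rw [mk_Lam, ← h2]
    simp only [mk_pi, mk_bool, prod_const, lift_id, mk_prod, lift_uzero]
    rw [hM, hK, aleph0_mul_eq h0.le]
    try simp
  obtain ⟨ee⟩ := Cardinal.eq.1 hcard
  obtain ⟨T, hT⟩ := exists_edges h0 hst d (fun b n => by
    obtain ⟨s, hs⟩ := hd n
    exact (hs b).trans (mk_Iio_ord_lt s)) ee.symm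
  refine ⟨Sp T, inferInstance, compact_Sp T, inferInstance, ?_, ?_⟩
  · intro κ hκ hκ0 hκl
    refine caliber_Sp hM.le hfin hκ hκ0 T (fun ξ n => (hT ξ n).1) ?_
    intro A hA
    obtain ⟨b, hb⟩ := exists_bound h0.le (hA.trans hκl) (fun a : A => a.1)
    refine ⟨d b, fun ξ hξ ξ' hξ' hne n hn hn' => ?_⟩
    rcases lt_or_gt_of_ne hne with h | h
    · have h4 := (hsub ξ ξ' b h (hb ⟨ξ', hξ'⟩)).1.trans (max_le hn hn')
      exact ((hT ξ' n).2 ξ h h4).2.1.symm
    · have h4 := (hsub ξ' ξ b h (hb ⟨ξ, hξ⟩)).1.trans (max_le hn' hn)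
      exact ((hT ξ n).2 ξ' h h4).2.2
  · rw [← mk_Lam]
    refine not_caliber_Sp T (fun ξ n => (hT ξ n).1) ?_ ?_
    · intro ζ
      rw [mk_Lam]
      exact Order.lt_succ_iff.2 (mk_Iic_le h0.le ζ)
    · intro a
      refine ⟨ee a, fun ξ hξ => ⟨d ξ (ee a), ?_⟩⟩
      have h4 := ((hT ξ (d ξ (ee a))).2 (ee a) hξ le_rfl).1
      rwa [ee.symm_apply_apply] at h4

end

end Pool.Agent.Helper185.Cal
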