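import Pool.Agent.Helper185.Cal2

/-!
The forcing notion which adds a subadditive and locally small function. The conditions are the
initial segments of such a function which have a last stage.
-/

namespace Pool.Agent.Helper185.Cal
open Cardinal Ordinal Set

universe u v w

theorem exists_rec_ih {I : Type u} {X : Type v} [LinearOrder I] [WellFoundedLT I]
    (R : (i : I) → ((j : I) → j < i → X) → X → Prop)
    (h : ∀ i (f : (j : I) → j < i → X),
      (∀ j (hj : j < i), R j (fun k hk => f k (hk.trans hj)) (f j hj)) → ∃ x, R i f x) :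
    ∃ F : I → X, ∀ i, R i (fun j _ => F j) (F i) := by
  classical
  rcases isEmpty_or_nonempty I with hI | hI
  · exact ⟨fun i => (hI.false i).elim, fun i => (hI.false i).elim⟩
  have hX : Nonempty X := by
    obtain ⟨b, _, hb⟩ := (wellFounded_lt (α := I)).has_min Set.univ Set.univ_nonempty
    obtain ⟨x, _⟩ := h b (fun j hj => (hb j trivial hj).elim) (fun j hj => (hb j trivial hj).elim)
    exact ⟨x⟩
  let G : (i : I) → ((j : I) → j < i → X) → X := fun i f =>
    if h : ∃ x, R i f x then h.choose else Classical.arbitrary X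
  let F : I → X := (wellFounded_lt (α := I)).fix G
  have hF : ∀ i, F i = G i (fun j _ => F j) := fun i => WellFounded.fix_eq _ G i
  refine ⟨F, fun i => ?_⟩
  induction i using (wellFounded_lt (α := I)).induction with
  | _ i ih =>
    have h1 : ∃ x, R i (fun j _ => F j) x := h i _ (fun j hj => ih j hj)
    have h2 : F i = h1.choose := by
      rw [hF i]
      exact dif_pos h1
    rw [h2]
    exact h1.choose_spec


/-- a sequence of infinite cardinals cofinal in the limit cardinal `lam` -/
structure Setup {M : Type u} [LinearOrder M] (lam : Cardinal.{u}) (c : M → Cardinal.{u}) :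
    Prop where
  inf : ∀ n, ℵ₀ ≤ c n
  mono : Monotone c
  lt : ∀ n, c n < lam
  cof : ∀ μ < lam, ∃ n, μ ≤ c n
  lim : ∀ μ < lam, Order.succ μ < lam

theorem Setup.inf_lam {M : Type u} [LinearOrder M] {lam : Cardinal.{u}} {c : M → Cardinal.{u}}
    [OrderBot M] (hS : Setup lam c) : ℵ₀ ≤ lam := (hS.inf ⊥).trans (hS.lt ⊥).le

section
variable {M : Type u} [LinearOrder M] [OrderBot M] {lam : Cardinal.{u}} {c : M → Cardinal.{u}}

/-- The values `x b a = d b a` are as wanted at stage `b`. -/
structure Good (c : M → Cardinal.{u}) (x : Lam lam → Lam lam → M) (b : Lam lam) : Prop where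
  d0 : x b b = ⊥
  d1 : ∀ n, #{a | a ≤ b ∧ x b a ≤ n} ≤ c n
  d2 : ∀ a g, a ≤ g → g ≤ b → x g a ≤ max (x b a) (x b g)
  d3 : ∀ a g, a ≤ g → g ≤ b → x b a ≤ max (x g a) (x b g)

theorem Good.congr {x y : Lam lam → Lam lam → M} {b : Lam lam} (h : Good c x b)
    (hxy : ∀ a ≤ b, y a = x a) : Good c y b := by
  have hb := hxy b le_rfl
  refine ⟨?_, ?_, ?_, ?_⟩
  · rw [hb]; exact h.d0
  · rw [hb]; exact h.d1
  · intro a g h1 h2
    rw [hb, hxy g h2]; exact h.d2 a g h1 h2
  · intro a g h1 h2
    rw [hb, hxy g h2]; exact h.d3 a g h1 h2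

/-- The conditions: initial segments, with a last stage. -/
structure Cond (lam : Cardinal.{u}) (c : M → Cardinal.{u}) : Type u where
  /-- the last stage -/
  top : Lam lam
  /-- the function -/
  x : Lam lam → Lam lam → M
  good : ∀ b ≤ top, Good c x b
  junk : ∀ b a, top < b ∨ b < a → x b a = ⊥

instance : Preorder (Cond lam c) where
  le q p := p.top ≤ q.top ∧ ∀ a ≤ p.top, q.x a = p.x a
  le_refl p := ⟨le_rfl, fun _ _ => rfl⟩
  le_trans q p r h h' := ⟨h'.1.trans h.1, fun a ha =>
    (h.2 a (ha.trans h'.1)).trans (h'.2 a ha)⟩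

theorem Cond.le_def {q p : Cond lam c} : q ≤ p ↔ p.top ≤ q.top ∧ ∀ a ≤ p.top, q.x a = p.x a :=
  Iff.rfl

/-- a condition obtained from data which are good below `b` -/
theorem exists_cond (hS : Setup lam c) (x : Lam lam → Lam lam → M) (b : Lam lam)
    (hx : ∀ a < b, Good c x a) (hxj : ∀ a < b, ∀ g, a < g → x a g = ⊥) (D : Lam lam → M)
    (hD1 : ∀ n, #{a | a < b ∧ D a ≤ n} ≤ c n)
    (hD2 : ∀ a g, a ≤ g → g < b → x g a ≤ max (D a) (D g))
    (hD3 : ∀ a g, a ≤ g → g < b → D a ≤ max (x g a) (D g)) :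
    ∃ q : Cond lam c, q.top = b ∧ (∀ a < b, q.x a = x a) ∧ ∀ a < b, q.x b a = D a := by
  classical
  let y : Lam lam → Lam lam → M := fun a => if a < b then x a else
    if a = b then (fun g => if g < b then D g else ⊥) else fun _ => ⊥
  have hy : ∀ a < b, y a = x a := fun a ha => if_pos ha
  have hyb : y b = fun g => if g < b then D g else ⊥ := by
    change (if b < b then x b else if b = b then _ else _) = _
    rw [if_neg (lt_irrefl b), if_pos rfl]
  have hyd : ∀ a < b, y b a = D a := by
    intro a ha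
    rw [hyb]
    exact if_pos ha
  have hyd0 : y b b = ⊥ := by
    rw [hyb]
    exact if_neg (lt_irrefl b)
  have hgood : Good c y b := by
    refine ⟨hyd0, ?_, ?_, ?_⟩
    · intro n
      have h1 : {a | a ≤ b ∧ y b a ≤ n} ⊆ insert b {a | a < b ∧ D a ≤ n} := by
        rintro a ⟨h1, h2⟩
        rcases h1.eq_or_lt with h | h
        · exact Or.inl h
        · exact Or.inr ⟨h, by rwa [hyd a h] at h2⟩
      refine (mk_le_mk_of_subset h1).trans (mk_insert_le.trans ?_)
      exact add_le_of_le (hS.inf n) (hD1 n) (one_le_aleph0.trans (hS.inf n))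
    · intro a g h1 h2
      rcases h2.eq_or_lt with rfl | h
      · exact le_max_left _ _
      · rw [hy g h, hyd g h, hyd a (h1.trans_lt h)]
        exact hD2 a g h1 h
    · intro a g h1 h2
      rcases h2.eq_or_lt with rfl | h
      · exact le_max_left _ _
      · rw [hy g h, hyd g h, hyd a (h1.trans_lt h)]
        exact hD3 a g h1 h
  refine ⟨⟨b, y, fun a ha => ?_, ?_⟩, rfl, hy, hyd⟩
  · rcases ha.eq_or_lt with rfl | h
    · exact hgood
    · exact (hx a h).congr fun g hg => hy g (hg.trans_lt h)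
  · intro a g h
    rcases lt_trichotomy a b with hab | rfl | hab
    · rcases h with h | h
      · exact absurd hab h.not_gt
      · rw [hy a hab]
        exact hxj a hab g h
    · rcases h with h | h
      · exact absurd h (lt_irrefl _)
      · rw [hyb]
        exact if_neg h.not_gt
    · change (if a < b then x a else if a = b then _ else _) g = _
      rw [if_neg hab.not_gt, if_neg hab.ne']

theorem one_more (hS : Setup lam c) (p q : Cond lam c) (hqp : q ≤ p) :
    ∃ r ≤ q, q.top < r.top ∧ r.x r.top p.top = ⊥ := by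
  classical
  have hne : ({a | q.top < a} : Set (Lam lam)).Nonempty := by
    obtain ⟨b, hb⟩ := exists_bound hS.inf_lam (ι := PUnit.{u+1})
      (by rw [mk_punit]; exact one_le_aleph0.trans hS.inf_lam) (fun _ => q.top)
    exact ⟨b, hb PUnit.unit⟩
  obtain ⟨b, hb, hmin⟩ := (wellFounded_lt (α := Lam lam)).has_min _ hne
  have hb' : q.top < b := hb
  have hlt : ∀ a, a < b → a ≤ q.top := fun a ha => not_lt.1 fun h => hmin a h ha
  have hgg : p.top ≤ q.top := hqp.1
  have G := q.good q.top le_rfl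
  have G0 := q.good p.top hgg
  let D : Lam lam → M := fun a => if a ≤ p.top then q.x p.top a else
    max (q.x q.top p.top) (q.x q.top a)
  have hDl : ∀ a, a ≤ p.top → D a = q.x p.top a := fun a h => if_pos h
  have hDr : ∀ a, p.top < a → D a = max (q.x q.top p.top) (q.x q.top a) :=
    fun a h => if_neg (not_le.2 h)
  have hlast : ∀ g, p.top < g → g ≤ q.top → q.x g p.top ≤ D g := by
    intro g h1 h2
    rw [hDr g h1]
    exact G.d2 _ _ h1.le h2
  obtain ⟨r, hr1, hr2, hr4⟩ := exists_cond hS q.x b (fun a ha => q.good a (hlt a ha))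
    (fun a _ g hg => q.junk a g (Or.inr hg)) D
    (by
      intro n
      have h1 : {a | a < b ∧ D a ≤ n} ⊆ {a | a ≤ p.top ∧ q.x p.top a ≤ n} ∪
          {a | a ≤ q.top ∧ q.x q.top a ≤ n} := by
        rintro a ⟨h1, h2⟩
        rcases le_or_gt a p.top with h | h
        · exact Or.inl ⟨h, by rwa [hDl a h] at h2⟩
        · refine Or.inr ⟨hlt a h1, ?_⟩
          rw [hDr a h] at h2
          exact (le_max_right _ _).trans h2
      refine (mk_le_mk_of_subset h1).trans ((mk_union_le _ _).trans ?_)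
      exact add_le_of_le (hS.inf n) (G0.d1 n) (G.d1 n))
    (by
      intro a g h1 h2
      rcases le_or_gt g p.top with h | h
      · rw [hDl g h, hDl a (h1.trans h)]
        exact G0.d2 a g h1 h
      rcases le_or_gt a p.top with h' | h'
      · have h3 := (q.good g (hlt g h2)).d3 a p.top h' h.le
        have h4 := hlast g h (hlt g h2)
        rw [hDl a h']
        exact h3.trans (max_le_max le_rfl h4)
      · have h3 := G.d2 a g h1 (hlt g h2)
        rw [hDr a h', hDr g h]
        exact h3.trans (max_le_max (le_max_right _ _) (le_max_right _ _)))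
    (by
      intro a g h1 h2
      rcases le_or_gt g p.top with h | h
      · rw [hDl g h, hDl a (h1.trans h)]
        exact G0.d3 a g h1 h
      rcases le_or_gt a p.top with h' | h'
      · have h3 := (q.good g (hlt g h2)).d2 a p.top h' h.le
        have h4 := hlast g h (hlt g h2)
        rw [hDl a h']
        exact h3.trans (max_le_max le_rfl h4)
      · have h3 := G.d3 a g h1 (hlt g h2)
        rw [hDr a h', hDr g h]
        refine max_le ((le_max_left _ _).trans (le_max_right _ _)) ?_
        exact h3.trans (max_le_max le_rfl (le_max_right _ _)))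
  refine ⟨r, ⟨by rw [hr1]; exact hb'.le, fun a ha => hr2 a (ha.trans_lt hb')⟩, ?_, ?_⟩
  · rw [hr1]; exact hb'
  · rw [hr1, hr4 _ (hgg.trans_lt hb'), hDl _ le_rfl]
    exact G0.d0

theorem limit_step (hS : Setup lam c) {I : Type u} [LinearOrder I] [WellFoundedLT I] [Nonempty I]
    (hI : #I ≤ lam) (p : I → Cond lam c) (lev : I → M) (hlev : Monotone lev)
    (hlev' : ∀ n, #{i | lev i ≤ n} ≤ c n) (hle : ∀ j i, j ≤ i → p i ≤ p j)
    (htop : ∀ j i, j < i → (p j).top < (p i).top)
    (hd : ∀ j i, j < i → (p i).x (p i).top (p j).top ≤ lev i) :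
    ∃ q : Cond lam c, ∀ i, q ≤ p i ∧ (p i).top < q.top ∧ q.x q.top (p i).top ≤ lev i := by
  classical
  obtain ⟨b, hb, hmin⟩ := (wellFounded_lt (α := Lam lam)).has_min _
    (exists_bound hS.inf_lam hI fun i => (p i).top)
  have hb' : ∀ i, (p i).top < b := hb
  have hlt : ∀ a, a < b → ∃ i, a ≤ (p i).top := by
    intro a ha
    by_contra hc
    push Not at hc
    exact hmin a hc ha
  -- the least index above `a`
  have hj : ∀ a : Lam lam, ∃ j : I, a < b → (a ≤ (p j).top ∧ ∀ i, a ≤ (p i).top → j ≤ i) := by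
    intro a
    by_cases ha : a < b
    · obtain ⟨j, h1, h2⟩ := (wellFounded_lt (α := I)).has_min {i | a ≤ (p i).top} (hlt a ha)
      exact ⟨j, fun _ => ⟨h1, fun i hi => not_lt.1 fun h => h2 i hi h⟩⟩
    · exact ⟨Classical.arbitrary I, fun h => absurd h ha⟩
  choose j hj using hj
  let X : Lam lam → Lam lam → M := fun a => (p (j a)).x a
  have hX : ∀ i a, a ≤ (p i).top → X a = (p i).x a := by
    intro i a ha
    have h1 := hj a (ha.trans_lt (hb' i))
    exact ((hle _ _ (h1.2 i ha)).2 a h1.1).symm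
  have hG : ∀ i a, a ≤ (p i).top → Good c X a := by
    intro i a ha
    exact ((p i).good a ha).congr fun g hg => hX i g (hg.trans ha)
  let D : Lam lam → M := fun a => max (X (p (j a)).top a) (lev (j a))
  have hD : ∀ a, D a = max (X (p (j a)).top a) (lev (j a)) := fun a => rfl
  have hjm : ∀ a g, a ≤ g → g < b → j a ≤ j g := by
    intro a g h1 h2
    exact (hj a (h1.trans_lt h2)).2 _ (h1.trans (hj g h2).1)
  -- comparing two blocks
  have hblock : ∀ a g, a ≤ g → g < b → j a < j g →
      X g (p (j a)).top ≤ D g ∧ (p (j a)).top ≤ g ∧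
      X (p (j g)).top (p (j a)).top ≤ D g := by
    intro a g h1 h2 h3
    have h4 : (p (j a)).top < g := by
      by_contra hc
      exact absurd ((hj g h2).2 _ (not_lt.1 hc)) (not_le.2 h3)
    have h5 := (hG (j g) _ le_rfl).d2 (p (j a)).top g h4.le (hj g h2).1
    have h6 : X (p (j g)).top (p (j a)).top ≤ lev (j g) := by
      rw [hX (j g) _ le_rfl]
      exact hd _ _ h3
    have h7 : X (p (j g)).top (p (j a)).top ≤ D g := h6.trans (le_max_right _ _)
    exact ⟨h5.trans (max_le h7 (le_max_left _ _)), h4.le, h7⟩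
  obtain ⟨q, hq1, hq2, hq4⟩ := exists_cond hS X b
    (fun a ha => hG (j a) a (hj a ha).1)
    (fun a _ g hg => (p (j a)).junk a g (Or.inr hg)) D
    (by
      intro n
      have h1 : {a | a < b ∧ D a ≤ n} ⊆ ⋃ i : {i : I | lev i ≤ n},
          {a | a ≤ (p i.1).top ∧ X (p i.1).top a ≤ n} := by
        rintro a ⟨h1, h2⟩
        refine mem_iUnion.2 ⟨⟨j a, (le_max_right _ _).trans h2⟩, (hj a h1).1, ?_⟩
        exact (le_max_left _ _).trans h2
      refine (mk_le_mk_of_subset h1).trans ?_
      refine (mk_iUnion_le_sum_mk.trans (sum_le_mk_mul_iSup _)).trans ?_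
      refine mul_le_of_le (hS.inf n) (hlev' n) ?_
      exact ciSup_le' fun i => (hG i.1 _ le_rfl).d1 n)
    (by
      intro a g h1 h2
      rcases (hjm a g h1 h2).eq_or_lt with h | h
      · have h3 := (hG (j g) _ le_rfl).d2 a g h1 (hj g h2).1
        refine h3.trans (max_le_max ?_ (le_max_left _ _))
        rw [hD a, h]
        exact le_max_left _ _
      · obtain ⟨_, h4, h5⟩ := hblock a g h1 h2 h
        have h3 := (hG (j g) _ le_rfl).d2 a g h1 (hj g h2).1
        have h6 := (hG (j g) _ le_rfl).d3 a (p (j a)).top (hj a (h1.trans_lt h2)).1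
          (h4.trans (hj g h2).1)
        refine h3.trans (max_le (h6.trans (max_le_max (le_max_left _ _) h5)) ?_)
        exact (le_max_left _ _).trans (le_max_right _ _))
    (by
      intro a g h1 h2
      have hl : lev (j a) ≤ D g := (hlev (hjm a g h1 h2)).trans (le_max_right _ _)
      rw [hD a]
      refine max_le ?_ (hl.trans (le_max_right _ _))
      rcases (hjm a g h1 h2).eq_or_lt with h | h
      · have h3 := (hG (j g) _ le_rfl).d3 a g h1 (hj g h2).1
        rw [h]
        exact h3.trans (max_le_max le_rfl (le_max_left _ _))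
      · obtain ⟨h3, h4, _⟩ := hblock a g h1 h2 h
        have h5 := (hG (j g) g (hj g h2).1).d2 a (p (j a)).top (hj a (h1.trans_lt h2)).1 h4
        exact h5.trans (max_le_max le_rfl h3))
  refine ⟨q, fun i => ⟨⟨by rw [hq1]; exact (hb' i).le, fun a ha => ?_⟩, by rw [hq1]; exact hb' i,
    ?_⟩⟩
  · rw [hq2 a (ha.trans_lt (hb' i)), hX i a ha]
  · rw [hq1, hq4 _ (hb' i), hD]
    have h1 : j (p i).top ≤ i := (hj _ (hb' i)).2 i le_rfl
    have h2 : j (p i).top = i := by
      rcases h1.eq_or_lt with h | h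
      · exact h
      · exact absurd (hj _ (hb' i)).1 (not_le.2 (htop _ _ h))
    rw [h2]
    refine max_le ?_ le_rfl
    rw [hX i _ le_rfl, ((p i).good _ le_rfl).d0]
    exact bot_le

end

section
variable {M : Type u} [LinearOrder M] [OrderBot M] {lam : Cardinal.{u}} {c : M → Cardinal.{u}}

theorem mk_le_of_Iio_lt {S : Type u} [LinearOrder S] [WellFoundedLT S] (μ : Cardinal.{u})
    (h : ∀ i : S, #(Iio i) < μ) : #S ≤ μ := by
  by_contra hc
  rw [not_le] at hc
  have h1 : μ.ord < typeLT S := by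
    by_contra h2
    rw [not_lt] at h2
    have h3 := card_le_card h2
    rw [card_type, card_ord] at h3
    exact absurd h3 (not_le.2 hc)
  have h2 := card_typein (r := ((· < ·) : S → S → Prop)) (enum (· < ·) ⟨μ.ord, h1⟩)
  rw [typein_enum, card_ord] at h2
  exact absurd h2 (h _).ne'

theorem exists_level [WellFoundedLT M] (hS : Setup lam c) :
    ∃ lev : lam.ord.ToType → M, Monotone lev ∧ ∀ n, #{i | lev i ≤ n} ≤ c n := by
  classical
  have h0 : ∀ i : lam.ord.ToType, ∃ n, #(Iio i) < c n := by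
    intro i
    have h1 : #(Iio i) < lam := mk_Iio_ord_lt i
    obtain ⟨n, hn⟩ := hS.cof _ (hS.lim _ h1)
    exact ⟨n, (Order.lt_succ _).trans_le hn⟩
  have h1 : ∀ i : lam.ord.ToType, ∃ n, #(Iio i) < c n ∧ ∀ m, #(Iio i) < c m → n ≤ m := by
    intro i
    obtain ⟨n, h1, h2⟩ := (wellFounded_lt (α := M)).has_min {n | #(Iio i) < c n} (h0 i)
    exact ⟨n, h1, fun m hm => not_lt.1 (h2 m hm)⟩
  choose lev h1 h2 using h1
  refine ⟨lev, ?_, ?_⟩
  · intro i j hij
    exact h2 i _ ((mk_le_mk_of_subset (Iio_subset_Iio hij)).trans_lt (h1 j))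
  · intro n
    refine mk_le_of_Iio_lt (c n) ?_
    rintro ⟨i, hi⟩
    have h2 : #(Iio i) < c n := (h1 i).trans_le (hS.mono hi)
    refine lt_of_le_of_lt ?_ h2
    refine mk_le_of_injective (f := fun j => (⟨j.1.1, j.2⟩ : Iio i)) ?_
    rintro ⟨⟨j, _⟩, _⟩ ⟨⟨k, _⟩, _⟩ h
    have : j = k := congrArg Subtype.val h
    subst this
    rfl

/-- a set of sentences, closed downwards -/
def Down {P : Type u} [Preorder P] (φ : Set P) : Prop := ∀ p ∈ φ, ∀ q ≤ p, q ∈ φ

theorem meet_many_ord [WellFoundedLT M] (hS : Setup lam c) (φ : lam.ord.ToType → Set (Cond lam c))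
    (hdown : ∀ i, Down (φ i)) (p : Cond lam c) (hdense : ∀ i, ∀ r ≤ p, ∃ q ≤ r, q ∈ φ i) :
    ∃ q ≤ p, ∀ i, q ∈ φ i := by
  classical
  obtain ⟨lev, hlev, hlev'⟩ := exists_level hS
  obtain ⟨F, hF⟩ := exists_rec_ih (I := lam.ord.ToType) (X := Cond lam c)
    (fun i f q => (∀ j (hj : j < i), q ≤ f j hj ∧ (f j hj).top < q.top ∧
      q.x q.top (f j hj).top ≤ lev i) ∧ q ∈ φ i ∧ q ≤ p) (by
    intro i f ih
    by_cases hne : Nonempty (Iio i)
    · obtain ⟨q0, hq0⟩ := limit_step hS (I := Iio i) (mk_Iio_ord_lt i).le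
        (fun j => f j.1 j.2) (fun j => lev j.1) (fun j k h => hlev h)
        (by
          intro n
          refine le_trans ?_ (hlev' n)
          refine mk_le_of_injective (f := fun j => (⟨j.1.1, j.2⟩ : {i | lev i ≤ n})) ?_
          rintro ⟨⟨j, _⟩, _⟩ ⟨⟨k, _⟩, _⟩ h
          have : j = k := congrArg Subtype.val h
          subst this
          rfl)
        (by
          rintro ⟨j, hj⟩ ⟨k, hk⟩ hjk
          rcases (show j ≤ k from hjk).eq_or_lt with h | h
          · subst h
            exact le_rfl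
          · exact ((ih k hk).1 j h).1)
        (by
          rintro ⟨j, hj⟩ ⟨k, hk⟩ hjk
          exact ((ih k hk).1 j hjk).2.1)
        (by
          rintro ⟨j, hj⟩ ⟨k, hk⟩ hjk
          exact ((ih k hk).1 j hjk).2.2)
      have hq0p : q0 ≤ p := by
        obtain ⟨j⟩ := hne
        exact (hq0 j).1.trans (ih j.1 j.2).2.2
      obtain ⟨q1, hq1, hq1φ⟩ := hdense i q0 hq0p
      obtain ⟨q2, hq2, hq2t, hq2d⟩ := one_more hS q0 q1 hq1
      refine ⟨q2, fun j hj => ?_, hdown i _ hq1φ _ hq2, hq2.trans (hq1.trans hq0p)⟩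
      obtain ⟨h1, h2, h3⟩ := hq0 ⟨j, hj⟩
      have h4 : q0.top ≤ q2.top := hq1.1.trans hq2.1
      refine ⟨hq2.trans (hq1.trans h1), h2.trans_le h4, ?_⟩
      have h5 := (q2.good q2.top le_rfl).d3 (f j hj).top q0.top h2.le h4
      rw [hq2d, (hq2.trans hq1).2 q0.top le_rfl] at h5
      refine h5.trans (max_le (h3.trans (hlev hj.le)) bot_le)
    · obtain ⟨q1, hq1, hq1φ⟩ := hdense i p le_rfl
      exact ⟨q1, fun j hj => (hne ⟨⟨j, hj⟩⟩).elim, hq1φ, hq1⟩)
  have hne : Nonempty lam.ord.ToType := by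
    rw [← mk_ne_zero_iff, mk_toType, card_ord]
    exact (aleph0_pos.trans_le hS.inf_lam).ne'
  obtain ⟨q, hq⟩ := limit_step hS (I := lam.ord.ToType) (by simp) F lev hlev hlev'
    (by
      intro j i hji
      rcases hji.eq_or_lt with h | h
      · subst h
        exact le_rfl
      · exact ((hF i).1 j h).1)
    (fun j i h => ((hF i).1 j h).2.1) (fun j i h => ((hF i).1 j h).2.2)
  obtain ⟨i0⟩ := hne
  exact ⟨q, (hq i0).1.trans (hF i0).2.2, fun i => hdown i _ (hF i).2.1 _ (hq i).1⟩

/-- `lam` many dense requirements can be met at once -/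
theorem meet_many [WellFoundedLT M] (hS : Setup lam c) {ι : Type u} (hι : #ι ≤ lam) (φ : ι → Set (Cond lam c))
    (hdown : ∀ i, Down (φ i)) (p : Cond lam c) (hdense : ∀ i, ∀ r ≤ p, ∃ q ≤ r, q ∈ φ i) :
    ∃ q ≤ p, ∀ i, q ∈ φ i := by
  rcases isEmpty_or_nonempty ι with h | h
  · exact ⟨p, le_rfl, fun i => (h.false i).elim⟩
  have h1 : #ι ≤ #(lam.ord.ToType) := by simpa using hι
  obtain ⟨e⟩ := h1
  let g : lam.ord.ToType → ι := Function.invFun e
  have hg : Function.Surjective g := Function.invFun_surjective e.injective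
  obtain ⟨q, hq, hq'⟩ := meet_many_ord hS (fun i => φ (g i)) (fun i => hdown _) p
    (fun i => hdense _)
  refine ⟨q, hq, fun i => ?_⟩
  obtain ⟨j, rfl⟩ := hg i
  exact hq' j

/-! ### No large free sets -/


end

end Pool.Agent.Helper185.Cal
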