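import Pool.Agent.Helper185.Cal3

/-!
The forcing language, and the statements which are forced: GCH, and the existence of a subadditive
and locally small function.
-/

namespace Pool.Agent.Helper185.Cal
open Cardinal Ordinal Set

universe u v w

section

theorem exists_mk_Iio_eq {lam ν : Cardinal.{u}} (h : ν < lam) :
    ∃ i : lam.ord.ToType, #(Iio i) = ν := by
  have h1 : ν.ord < typeLT lam.ord.ToType := by
    rw [type_toType]
    exact ord_lt_ord.2 h
  refine ⟨enum (· < ·) ⟨ν.ord, h1⟩, ?_⟩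
  have h2 := card_typein (r := ((· < ·) : lam.ord.ToType → lam.ord.ToType → Prop))
    (enum (· < ·) ⟨ν.ord, h1⟩)
  rw [typein_enum, card_ord] at h2
  exact h2.symm

theorem exists_setup (lam : Cardinal.{u}) (h0 : ℵ₀ ≤ lam) (h1 : lam.ord.cof < lam) :
    ∃ c : lam.ord.cof.ord.ToType → Cardinal.{u}, Setup lam c := by
  obtain ⟨s, hs, hs'⟩ := exists_ord_cof_eq lam.ord.ToType
  rw [cof_toType] at hs'
  have h2 : typeLT s = typeLT lam.ord.cof.ord.ToType := by
    rw [hs', type_toType]
  obtain ⟨e⟩ := type_eq.1 h2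
  have hlt : ℵ₀ < lam := by
    rcases h0.eq_or_lt with h | h
    · rw [← h, ord_aleph0, cof_omega0] at h1
      exact absurd h1 (lt_irrefl _)
    · exact h
  have hmono : ∀ a b : lam.ord.cof.ord.ToType, a ≤ b → (e.symm a).1 ≤ (e.symm b).1 := by
    intro a b hab
    rcases hab.eq_or_lt with h | h
    · rw [h]
    · have h3 : (e.symm a) < (e.symm b) := e.symm.map_rel_iff.2 h
      exact le_of_lt h3
  refine ⟨fun m => max ℵ₀ #(Iio (e.symm m).1), fun _ => le_max_left _ _, ?_, ?_, ?_, ?_⟩
  · intro a b hab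
    exact max_le_max le_rfl (mk_le_mk_of_subset (Iio_subset_Iio (hmono a b hab)))
  · intro m
    exact max_lt hlt (mk_Iio_ord_lt _)
  · intro ν hν
    obtain ⟨i, hi⟩ := exists_mk_Iio_eq hν
    obtain ⟨j, hj, hij⟩ := hs i
    refine ⟨e ⟨j, hj⟩, ?_⟩
    rw [e.symm_apply_apply, ← hi]
    exact (mk_le_mk_of_subset (Iio_subset_Iio hij)).trans (le_max_right _ _)
  · intro ν hν
    rcases (Order.succ_le_of_lt hν).eq_or_lt with h | h
    · exfalso
      have h3 : ℵ₀ ≤ ν := by
        by_contra hc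
        have h4 : Order.succ ν < ℵ₀ := by
          rw [not_le] at hc
          obtain ⟨n, rfl⟩ := lt_aleph0.1 hc
          have h5 : Order.succ (n : Cardinal.{u}) ≤ ((n + 1 : ℕ) : Cardinal.{u}) :=
            Order.succ_le_of_lt (by exact_mod_cast Nat.lt_succ_self n)
          exact h5.trans_lt natCast_lt_aleph0
        rw [h] at h4
        exact absurd h4 (not_lt.2 h0)
      have h5 := (isRegular_succ h3).cof_ord
      rw [h] at h5
      rw [h5] at h1
      exact lt_irrefl _ h1
    · exact h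

section
variable {P : Type u} [Preorder P]

/-- `p` forces `not φ` iff no `q ≤ p` forces `φ`. -/
def fnot (φ : Set P) : Set P := {p | ∀ q ≤ p, q ∉ φ}

/-- `p` forces `φ and ψ` iff it forces both. -/
def fand (φ ψ : Set P) : Set P := {p | p ∈ φ ∧ p ∈ ψ}

/-- `p` forces `for all i, φ i` iff it forces every `φ i`. -/
def fall {ι : Sort v} (φ : ι → Set P) : Set P := {p | ∀ i, p ∈ φ i}

/-- `φ implies ψ` is `not (φ and not ψ)`. -/
def fimp (φ ψ : Set P) : Set P := fnot (fand φ (fnot ψ))

/-- `there is i with φ i` is `not for all i, not φ i`. -/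
def fex {ι : Sort v} (φ : ι → Set P) : Set P := fnot (fall fun i => fnot (φ i))

/-- An absolute statement about ground model objects. -/
def fground (h : Prop) : Set P := {_p | h}

/-- `p` forces that the generic filter meets the set `N` of conditions:
the set of `r` lying below some member of `N` is dense below `p`. -/
def meets (N : Set P) : Set P := {p | ∀ q ≤ p, ∃ r ≤ q, ∃ s ∈ N, r ≤ s}

/-- The relation named by `R` is a function from `X` to `Y`. -/
def IsFun {X : Type v} {Y : Type w} (R : X → Y → Set P) : Set P :=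
  fand (fall fun x => fex fun y => meets (R x y))
    (fall fun x => fall fun y => fall fun y' =>
      fimp (fand (meets (R x y)) (meets (R x y'))) (fground (y = y')))

/-- The relation named by `R` is injective. -/
def IsInj {X : Type v} {Y : Type w} (R : X → Y → Set P) : Set P :=
  fall fun x => fall fun x' => fall fun y =>
    fimp (fand (meets (R x y)) (meets (R x' y))) (fground (x = x'))

/-- The set of all `y` such that `φ y` holds has at least as many elements as `A`: there is an
injective function defined on `A` with values in this set. -/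
def AtLeast (A : Type v) {Y : Type w} (φ : Y → Set P) : Set P :=
  fex fun R : A → Y → Set P => fand (fand (IsFun R) (IsInj R))
    (fall fun a => fall fun y => fimp (meets (R a y)) (φ y))

theorem mem_fex {ι : Sort v} {φ : ι → Set P} {p : P} :
    p ∈ fex φ ↔ ∀ q ≤ p, ∃ r ≤ q, ∃ i, r ∈ φ i := by
  simp only [fex, fnot, fall, Set.mem_ofPred_eq, not_forall, not_not]
  constructor
  · intro h q hq
    obtain ⟨i, r, hr, h'⟩ := h q hq
    exact ⟨r, hr, i, h'⟩
  · intro h q hq
    obtain ⟨r, hr, i, h'⟩ := h q hq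
    exact ⟨i, r, hr, h'⟩

theorem mem_fimp {φ ψ : Set P} {p : P} :
    p ∈ fimp φ ψ ↔ ∀ q ≤ p, q ∈ φ → ∃ r ≤ q, r ∈ ψ := by
  simp only [fimp, fnot, fand, Set.mem_ofPred_eq, not_and, not_forall, not_not]
  constructor
  · intro h q hq h'
    obtain ⟨r, hr, h''⟩ := h q hq h'
    exact ⟨r, hr, h''⟩
  · intro h q hq h'
    obtain ⟨r, hr, h''⟩ := h q hq h'
    exact ⟨r, hr, h''⟩

theorem down_fnot (φ : Set P) : Down (fnot φ) :=
  fun _ hp _ hq r hr => hp r (hr.trans hq)

theorem down_fand {φ ψ : Set P} (h : Down φ) (h' : Down ψ) : Down (fand φ ψ) :=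
  fun _ hp _ hq => ⟨h _ hp.1 _ hq, h' _ hp.2 _ hq⟩

theorem down_fall {ι : Sort v} {φ : ι → Set P} (h : ∀ i, Down (φ i)) : Down (fall φ) :=
  fun _ hp _ hq i => h i _ (hp i) _ hq

theorem down_fex {ι : Sort v} (φ : ι → Set P) : Down (fex φ) := down_fnot _

theorem down_fimp (φ ψ : Set P) : Down (fimp φ ψ) := down_fnot _

theorem down_meets (N : Set P) : Down (meets N) :=
  fun _ hp _ hq r hr => hp r (hr.trans hq)

theorem down_isFun {X : Type v} {Y : Type w} (R : X → Y → Set P) : Down (IsFun R) :=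
  down_fand (down_fall fun _ => down_fex _)
    (down_fall fun _ => down_fall fun _ => down_fall fun _ => down_fimp _ _)

theorem down_isInj {X : Type v} {Y : Type w} (R : X → Y → Set P) : Down (IsInj R) :=
  down_fall fun _ => down_fall fun _ => down_fall fun _ => down_fimp _ _

variable (P) in

/-- Every function from `A` to a set of the ground model which belongs to the extension belongs
to the ground model. -/
def NoNewFunctions (A : Type u) : Prop :=
  ∀ (Y : Type u) (R : A → Y → Set P), ∀ p ∈ IsFun R, ∃ q ≤ p, ∃ f : A → Y,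
    ∀ a, q ∈ meets (R a (f a))


/-- `φ if and only if ψ`. -/
def fiff (φ ψ : Set P) : Set P := fand (fimp φ ψ) (fimp ψ φ)

/-- `2 ^ |L| ≤ |S|` holds in the extension: some family of subsets of `L` indexed by `S` contains
every subset of `L`. -/
def PowLe (P : Type u) [Preorder P] (L S : Type u) : Set P :=
  fex fun E : S → L → Set P => fall fun x : L → Set P => fex fun a : S =>
    fall fun n : L => fiff (meets (x n)) (meets (E a n))

/-- The statement `HasSubadditive lam`, in the forcing language: there is a function `d` which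
attaches a level `d b a < cf λ` to every pair of `b, a < λ⁺` (`meets (D b a m)` means
`d b a = m`), such that for every `n < cf λ` there is `s < λ` such that for every `b < λ⁺` the
set of all `a < b` with `d b a ≤ n` does not have at least `|s|` elements, and `d` is
subadditive. -/
def Subadditive (P : Type u) [Preorder P] (lam : Cardinal.{u}) : Set P :=
  fex fun D : Lam lam → Lam lam → Cf lam → Set P =>
    fand (fall fun b : Lam lam => IsFun (D b))
      (fand
        (fall fun n : Cf lam => fex fun s : lam.ord.ToType => fall fun b : Lam lam =>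
          fnot (AtLeast (Iio s) fun a : Lam lam => fex fun m : Cf lam =>
            fand (fground (a < b ∧ m ≤ n)) (meets (D b a m))))
        (fall fun a : Lam lam => fall fun g : Lam lam => fall fun b : Lam lam =>
          fall fun m₁ : Cf lam => fall fun m₂ : Cf lam => fall fun m₃ : Cf lam =>
            fimp (fand (fground (a < g ∧ g < b))
                (fand (meets (D g a m₁)) (fand (meets (D b a m₂)) (meets (D b g m₃)))))
              (fground (m₁ ≤ max m₂ m₃ ∧ m₂ ≤ max m₁ m₃))))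

end

section
variable {P : Type u} [Preorder P]

theorem fimp_of {φ ψ : Set P} {p : P} (h : ∀ q ≤ p, q ∈ φ → q ∈ ψ) : p ∈ fimp φ ψ :=
  mem_fimp.2 fun q hq h' => ⟨q, le_rfl, h q hq h'⟩

/-- decided equivalence -/
theorem fiff_of_decided {φ ψ : Set P} (hφ : Down φ) (hψ : Down ψ) {p : P}
    (h : (p ∈ φ ∧ p ∈ ψ) ∨ (p ∈ fnot φ ∧ p ∈ fnot ψ)) : p ∈ fiff φ ψ := by
  rcases h with ⟨h1, h2⟩ | ⟨h1, h2⟩
  · exact ⟨fimp_of fun q hq _ => hψ _ h2 _ hq, fimp_of fun q hq _ => hφ _ h1 _ hq⟩
  · exact ⟨fimp_of fun q hq h => absurd h (h1 q hq), fimp_of fun q hq h => absurd h (h2 q hq)⟩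

end

variable {M : Type u} [LinearOrder M] [OrderBot M] {lam : Cardinal.{u}} {c : M → Cardinal.{u}}

/-- deciding the values of a function defined on a set of size at most `lam` -/
theorem decide_fun [WellFoundedLT M] (hS : Setup lam c) {A : Type u} (hA : #A ≤ lam)
    {Y : Type v} (R : A → Y → Set (Cond lam c)) (p : Cond lam c) (hp : p ∈ IsFun R) :
    ∃ q ≤ p, ∃ f : A → Y, ∀ a, q ∈ meets (R a (f a)) := by
  obtain ⟨q, hq, h1⟩ := meet_many hS hA (fun a => {t | ∃ y, t ∈ meets (R a y)})
    (fun n t ⟨a, ha⟩ t' ht' => ⟨a, down_meets _ _ ha _ ht'⟩) p (by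
      intro n t ht
      obtain ⟨t', ht', a, ha⟩ := mem_fex.1 (hp.1 n) t ht
      exact ⟨t', ht', a, ha⟩)
  choose f hf using h1
  exact ⟨q, hq, f, hf⟩

theorem exists_longer [WellFoundedLT M] (hS : Setup lam c) (a : Lam lam) :
    ∀ p : Cond lam c, ∃ q ≤ p, a ≤ q.top := by
  induction a using (wellFounded_lt (α := Lam lam)).induction with
  | _ a ih =>
    intro p
    obtain ⟨q, hq, h1⟩ := meet_many hS (mk_Iio_le a) (fun a' : Iio a => {t : Cond lam c | a'.1 ≤ t.top})
      (fun a' t ht t' ht' => le_trans (show a'.1 ≤ t.top from ht) ht'.1) p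
      (fun a' r _ => ih a'.1 a'.2 r)
    obtain ⟨r, hr, hr', _⟩ := one_more hS q q le_rfl
    refine ⟨r, hr.trans hq, ?_⟩
    by_contra hc
    exact absurd (h1 ⟨r.top, not_le.1 hc⟩) (not_le.2 hr')

theorem nonempty_cond (hS : Setup lam c) : Nonempty (Cond lam c) := by
  obtain ⟨b0, _⟩ := exists_bound hS.inf_lam (ι := PUnit.{u+1})
      (by rw [mk_punit]; exact one_le_aleph0.trans hS.inf_lam)
      (fun _ => Classical.choice (mk_ne_zero_iff.1 (by
        rw [mk_Lam]; exact (aleph0_pos.trans_le (hS.inf_lam.trans (Order.le_succ _))).ne')))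
  obtain ⟨b, _, hb⟩ := (wellFounded_lt (α := Lam lam)).has_min Set.univ ⟨b0, trivial⟩
  have hb' : ∀ a, ¬ a < b := fun a => hb a trivial
  obtain ⟨q, _⟩ := exists_cond hS (fun _ _ => ⊥) b
    (fun a ha => absurd ha (hb' a)) (fun _ _ _ _ => rfl) (fun _ => ⊥)
    (by
      intro n
      have : {a : Lam lam | a < b ∧ (⊥ : M) ≤ n} = ∅ := by
        ext a
        simp [hb' a]
      rw [this]
      simp)
    (fun a g _ h => absurd h (hb' g)) (fun a g _ h => absurd h (hb' g))
  exact ⟨q⟩

/-- the name of the generic function -/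
def gen (b a : Lam lam) (m : M) : Set (Cond lam c) := {t | b ≤ t.top ∧ t.x b a = m}

theorem mem_meets_gen {b a : Lam lam} {m : M} {t : Cond lam c} (hb : b ≤ t.top)
    (h : t.x b a = m) : t ∈ meets (gen b a m) :=
  fun q hq => ⟨q, le_rfl, t, ⟨hb, h⟩, hq⟩

theorem eq_of_mem_meets_gen {b a : Lam lam} {m : M} {t : Cond lam c} (hb : b ≤ t.top)
    (h : t ∈ meets (gen b a m)) : t.x b a = m := by
  obtain ⟨r, hr, s, hs, hrs⟩ := h t le_rfl
  rw [← hs.2, ← hrs.2 b hs.1, hr.2 b hb]

/-- The size of the forcing notion. -/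
theorem mk_cond (hS : Setup lam c) (hM : #M ≤ lam) : #(Cond lam c) ≤ 2 ^ lam := by
  classical
  have h0 := hS.inf_lam
  let F : Cond lam c → Σ t : Lam lam, (Iic t → Iic t → M) :=
    fun q => ⟨q.top, fun a g => q.x a.1 g.1⟩
  have hF : Function.Injective F := by
    rintro ⟨t, x, hx, hj⟩ ⟨t', x', hx', hj'⟩ h
    obtain ⟨h1, h2⟩ := Sigma.mk.inj_iff.1 h
    change t = t' at h1
    subst h1
    have h3 := eq_of_heq h2
    have h4 : x = x' := by
      funext b a
      by_cases hba : t < b ∨ b < a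
      · rw [hj b a hba, hj' b a hba]
      · push Not at hba
        exact congrFun (congrFun h3 ⟨b, hba.1⟩) ⟨a, hba.2.trans hba.1⟩
    subst h4
    rfl
  refine (mk_le_of_injective hF).trans ?_
  rw [mk_sigma]
  refine (sum_le_mk_mul_iSup _).trans ?_
  have h1 : lam ≤ 2 ^ lam := (cantor lam).le
  refine mul_le_of_le (h0.trans h1) ?_ ?_
  · rw [mk_Lam]
    exact Order.succ_le_of_lt (cantor lam)
  · refine ciSup_le' fun t => ?_
    have h2 : #(Iic t → Iic t → M) = (#M ^ #(Iic t)) ^ #(Iic t) := by simp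
    rw [h2, ← power_mul]
    have h3 : #(Iic t) * #(Iic t) ≤ lam := mul_le_of_le h0 (mk_Iic_le h0 t) (mk_Iic_le h0 t)
    calc #M ^ (#(Iic t) * #(Iic t)) ≤ (2 ^ lam) ^ (#(Iic t) * #(Iic t)) :=
          power_le_power_right (hM.trans h1)
      _ ≤ (2 ^ lam) ^ lam := power_le_power_left (by
          exact (lt_of_lt_of_le aleph0_pos (h0.trans h1)).ne') h3
      _ = 2 ^ lam := by rw [← power_mul, mul_eq_self h0]

/-- GCH is preserved. -/
theorem powLe [WellFoundedLT M] (hS : Setup lam c) (hM : #M ≤ lam)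
    (hGCH : ∀ κ : Cardinal.{u}, ℵ₀ ≤ κ → 2 ^ κ = Order.succ κ) (A : Type u) (hA : Infinite A)
    (p : Cond lam c) : p ∈ PowLe (Cond lam c) A (Order.succ #A).ord.ToType := by
  classical
  have hA0 : ℵ₀ ≤ #A := aleph0_le_mk A
  have hSc : #((Order.succ #A).ord.ToType) = 2 ^ #A := by
    rw [mk_toType, card_ord, hGCH _ hA0]
  rcases le_or_gt #A lam with h | h
  · have h1 : #(A → Bool) = #((Order.succ #A).ord.ToType) := by
      rw [hSc]
      simp
    obtain ⟨e⟩ := Cardinal.eq.1 h1
    refine mem_fex.2 fun q _ => ⟨q, le_rfl, fun s n => {_t | e.symm s n = true}, fun x =>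
      mem_fex.2 fun r _ => ?_⟩
    obtain ⟨t, ht, h2⟩ := meet_many hS (ι := A) h
      (fun n => {s | s ∈ meets (x n) ∨ s ∈ fnot (meets (x n))})
      (by
        rintro n s (hs | hs) s' hs'
        · exact Or.inl (down_meets _ _ hs _ hs')
        · exact Or.inr (down_fnot _ _ hs _ hs')) r
      (by
        intro n s _
        by_cases h2 : ∃ s' ≤ s, s' ∈ meets (x n)
        · obtain ⟨s', hs', hx⟩ := h2
          exact ⟨s', hs', Or.inl hx⟩
        · push Not at h2
          exact ⟨s, le_rfl, Or.inr fun s' hs' => h2 s' hs'⟩)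
    refine ⟨t, ht, e (fun n => decide (t ∈ meets (x n))), fun n =>
      fiff_of_decided (down_meets _) (down_meets _) ?_⟩
    rcases h2 n with h8 | h8
    · refine Or.inl ⟨h8, fun s hs => ⟨s, le_rfl, s, ?_, le_rfl⟩⟩
      change e.symm (e _) n = true
      rw [e.symm_apply_apply]
      exact decide_eq_true h8
    · refine Or.inr ⟨h8, ?_⟩
      intro s hs h9
      obtain ⟨_, _, s2, hs2, _⟩ := h9 s le_rfl
      have hs3 : e.symm (e fun n => decide (t ∈ meets (x n))) n = true := hs2
      rw [e.symm_apply_apply] at hs3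
      exact h8 t le_rfl (of_decide_eq_true hs3)
  · have h1 : #(A → Set (Cond lam c)) ≤ #((Order.succ #A).ord.ToType) := by
      rw [hSc]
      have h2 : #(A → Set (Cond lam c)) = (2 ^ #(Cond lam c)) ^ #A := by simp
      rw [h2, ← power_mul]
      refine power_le_power_left two_ne_zero ?_
      refine mul_le_of_le hA0 ((mk_cond hS hM).trans ?_) le_rfl
      rw [hGCH lam hS.inf_lam]
      exact Order.succ_le_of_lt h
    obtain ⟨e⟩ := h1
    refine mem_fex.2 fun q _ => ⟨q, le_rfl, fun s => Function.invFun e s, fun x =>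
      mem_fex.2 fun r _ => ⟨r, le_rfl, e x, fun n => ?_⟩⟩
    change r ∈ fiff (meets (x n)) (meets (Function.invFun e (e x) n))
    rw [Function.leftInverse_invFun e.injective x]
    exact ⟨fimp_of fun q _ h => h, fimp_of fun q _ h => h⟩

end

section

theorem forced_subadditive (lam : Cardinal.{u}) (h0 : ℵ₀ < lam) (h1 : lam.ord.cof = ℵ₀) :
    ∃ (P : Type u) (_ : Preorder P), Nonempty P ∧ #P ≤ 2 ^ lam ∧
      NoNewFunctions P lam.ord.ToType ∧
      ((∀ κ : Cardinal.{u}, ℵ₀ ≤ κ → 2 ^ κ = Order.succ κ) →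
        ∀ A : Type u, Infinite A → ∀ p : P, p ∈ PowLe P A (Order.succ #A).ord.ToType) ∧
      ∀ p : P, p ∈ Subadditive P lam := by
  obtain ⟨c, hS⟩ := exists_setup lam h0.le (by rw [h1]; exact h0)
  have hne : Nonempty lam.ord.cof.ord.ToType := by
    rw [← mk_ne_zero_iff, mk_toType, card_ord, h1]
    exact aleph0_ne_zero
  let _ : OrderBot lam.ord.cof.ord.ToType := WellFoundedLT.toOrderBot _
  have hM : #(lam.ord.cof.ord.ToType) ≤ lam := by
    rw [mk_toType, card_ord, h1]
    exact h0.le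
  refine ⟨Cond lam c, inferInstance, nonempty_cond hS, mk_cond hS hM, ?_,
    fun hG A hA p => powLe hS hM hG A hA p, ?_⟩
  · intro Y R p hp
    exact decide_fun hS (by simp) R p hp
  intro p
  refine mem_fex.2 fun q _ => ⟨q, le_rfl, gen, ?_, ?_, ?_⟩
  · intro b
    refine ⟨fun a => mem_fex.2 fun r _ => ?_, fun a m m' => mem_fimp.2 fun r _ hr => ?_⟩
    · obtain ⟨t, ht, hbt⟩ := exists_longer hS b r
      exact ⟨t, ht, t.x b a, mem_meets_gen hbt rfl⟩
    · obtain ⟨t, ht, hbt⟩ := exists_longer hS b r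
      refine ⟨t, ht, ?_⟩
      have h2 := eq_of_mem_meets_gen hbt (down_meets _ _ hr.1 _ ht)
      have h3 := eq_of_mem_meets_gen hbt (down_meets _ _ hr.2 _ ht)
      exact h2.symm.trans h3
  · intro n
    obtain ⟨s, hs⟩ := exists_mk_Iio_eq (hS.lim _ (hS.lt n))
    refine mem_fex.2 fun q' _ => ⟨q', le_rfl, s, fun b r _ hr => ?_⟩
    obtain ⟨r1, hr1, R, ⟨hR1, hR2⟩, hR3⟩ := mem_fex.1 hr r le_rfl
    obtain ⟨r2, hr2, hb⟩ := exists_longer hS b r1
    obtain ⟨t, ht, f, hf⟩ := decide_fun hS (A := Iio s)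
      (mk_Iio_ord_lt s).le R r2 (down_isFun R _ hR1 _ hr2)
    have hinj : Function.Injective f := by
      intro i i' hii
      obtain ⟨_, _, h3⟩ := mem_fimp.1 (hR2 i i' (f i)) t (ht.trans hr2)
        ⟨hf i, by rw [hii]; exact hf i'⟩
      exact h3
    have hbt : b ≤ t.top := hb.trans ht.1
    have hval : ∀ i, f i ≤ b ∧ t.x b (f i) ≤ n := by
      intro i
      obtain ⟨t1, ht1, h3⟩ := mem_fimp.1 (hR3 i (f i)) t (ht.trans hr2) (hf i)
      obtain ⟨t2, ht2, m, h4, h5⟩ := mem_fex.1 h3 t1 le_rfl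
      have h6 := eq_of_mem_meets_gen (hbt.trans (ht2.trans ht1).1) h5
      rw [(ht2.trans ht1).2 b hbt] at h6
      have h7 : f i < b ∧ m ≤ n := h4
      exact ⟨h7.1.le, h6.trans_le h7.2⟩
    have h8 : #(Iio s) ≤ c n := by
      refine le_trans ?_ ((t.good b hbt).d1 n)
      exact mk_le_of_injective (f := fun i => (⟨f i, hval i⟩ : {a | a ≤ b ∧ t.x b a ≤ n}))
        fun i i' h => hinj (congrArg Subtype.val h)
    rw [hs] at h8
    exact absurd h8 (not_le.2 (Order.lt_succ _))
  · intro a g b m₁ m₂ m₃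
    refine mem_fimp.2 fun r _ ⟨hr1, hr2, hr3, hr4⟩ => ?_
    have hr1' : a < g ∧ g < b := hr1
    obtain ⟨t, ht, hbt⟩ := exists_longer hS b r
    refine ⟨t, ht, ?_⟩
    have h2 := eq_of_mem_meets_gen (hr1'.2.le.trans hbt) (down_meets _ _ hr2 _ ht)
    have h3 := eq_of_mem_meets_gen hbt (down_meets _ _ hr3 _ ht)
    have h4 := eq_of_mem_meets_gen hbt (down_meets _ _ hr4 _ ht)
    have G := t.good b hbt
    have h5 := G.d2 a g hr1'.1.le hr1'.2.le
    have h6 := G.d3 a g hr1'.1.le hr1'.2.le
    rw [h2, h3, h4] at h5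
    rw [h2, h3, h4] at h6
    exact ⟨h5, h6⟩

end

end Pool.Agent.Helper185.Cal
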