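import Mathlib

namespace Pool.Agent.Helper185.Deb

open MeasureTheory ProbabilityTheory Preorder
open scoped ENNReal

/-- The cylinder of all sequences that begin with `v`. -/
def Cyl {A : Type} (v : List A) : Set (ℕ → A) := {w | ∀ i (h : i < v.length), w i = v[i]}

section TM

variable {A : Type} [Countable A] [Nonempty A] [MeasurableSpace A] [MeasurableSingletonClass A]

noncomputable def stepM (q : List A → ℝ≥0∞) (L : List A) : Measure A :=
  open Classical in
  if q L = 0 ∨ q L = ⊤ then Measure.dirac (Classical.arbitrary A)
  else (q L)⁻¹ • Measure.sum (fun a => q (L ++ [a]) • Measure.dirac a)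

theorem stepM_prob (q : List A → ℝ≥0∞) (hq : ∀ v, ∑' a, q (v ++ [a]) = q v) (L : List A) :
    IsProbabilityMeasure (stepM q L) := by
  classical
  unfold stepM
  split_ifs with h
  · infer_instance
  · push Not at h
    constructor
    rw [Measure.smul_apply, Measure.sum_apply _ MeasurableSet.univ]
    simp only [Measure.smul_apply, measure_univ, smul_eq_mul, mul_one]
    rw [hq, ENNReal.inv_mul_cancel h.1 h.2]

def tailList {n : ℕ} (y : (i : Finset.Iic n) → A) : List A :=
  List.ofFn (fun i : Fin n => y ⟨i.1 + 1, by simp⟩)

noncomputable def ker (q : List A → ℝ≥0∞) (n : ℕ) : Kernel ((i : Finset.Iic n) → A) A :=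
  Kernel.ofFunOfCountable fun y => stepM q (tailList y)

theorem exists_tree_measure (q : List A → ℝ≥0∞) (h0 : q [] = 1)
    (hq : ∀ v, ∑' a, q (v ++ [a]) = q v) :
    ∃ m : Measure (ℕ → A), IsProbabilityMeasure m ∧ ∀ v, m (Cyl v) = q v := by
  classical
  haveI : ∀ n, IsMarkovKernel (ker q n) := fun n => ⟨fun y => stepM_prob q hq _⟩
  let P : Measure (ℕ → A) :=
    Kernel.trajMeasure (X := fun _ => A) (Measure.dirac (Classical.arbitrary A)) (ker q)
  haveI hP : IsProbabilityMeasure P := by
    change IsProbabilityMeasure (Kernel.trajMeasure (X := fun _ => A)
      (Measure.dirac (Classical.arbitrary A)) (ker q))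
    infer_instance
  have hmeas : Measurable (fun (x : ℕ → A) (n : ℕ) => x (n + 1)) := by fun_prop
  have hq1 : ∀ v, q v ≤ 1 := by
    intro v
    induction v using List.reverseRecOn with
    | nil => rw [h0]
    | append_singleton v a ih =>
      refine le_trans ?_ ih
      rw [← hq v]
      exact ENNReal.le_tsum a
  refine ⟨P.map (fun x n => x (n + 1)), Measure.isProbabilityMeasure_map hmeas.aemeasurable, ?_⟩
  have hcyl : ∀ v : List A, MeasurableSet (Cyl v) := by
    intro v
    have : Cyl v = ⋂ (i : ℕ) (h : i < v.length), {w : ℕ → A | w i = v[i]} := by
      ext w; simp [Cyl]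
    rw [this]
    refine MeasurableSet.iInter fun i => MeasurableSet.iInter fun h => ?_
    exact (measurable_pi_apply i) (measurableSet_singleton _)
  have hE : ∀ v : List A, P {x | ∀ i (h : i < v.length), x (i + 1) = v[i]} = q v := by
    intro v
    induction v using List.reverseRecOn with
    | nil => simp [h0]
    | append_singleton v a ih =>
      have key := Kernel.map_frestrictLe_trajMeasure_compProd_eq_map_trajMeasure
        (X := fun _ => A) (μ₀ := Measure.dirac (Classical.arbitrary A)) (κ := ker q)
        (a := v.length)
      let S : Set ((i : Finset.Iic v.length) → A) := {y | tailList y = v}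
      have hS : MeasurableSet S := (Set.to_countable S).measurableSet
      have h1 : {x : ℕ → A | ∀ i (h : i < (v ++ [a]).length), x (i + 1) = (v ++ [a])[i]}
          = (fun x : ℕ → A => (frestrictLe (π := fun _ => A) v.length x, x (v.length + 1))) ⁻¹'
            (S ×ˢ {a}) := by
        ext x
        simp only [Set.mem_ofPred_eq, Set.mem_preimage, Set.mem_prod, Set.mem_singleton_iff, S]
        constructor
        · intro h
          refine ⟨?_, ?_⟩
          · apply List.ext_getElem
            · simp [tailList]
            · intro i hi1 hi2
              simp only [tailList, List.getElem_ofFn, frestrictLe_apply]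
              have := h i (by simp; omega)
              rw [this, List.getElem_append_left hi2]
          · have := h v.length (by simp)
            rw [this]; simp
        · rintro ⟨h2, h3⟩ i hi
          rcases Nat.lt_or_ge i v.length with h4 | h4
          · rw [List.getElem_append_left h4]
            have h5 : (tailList (frestrictLe (π := fun _ => A) v.length x))[i]'(by
              simp [tailList, h4]) = v[i] := by
              simp only [h2]
            simpa [tailList, List.getElem_ofFn, frestrictLe_apply] using h5
          · have h5 : i = v.length := by simp at hi; omega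
            subst h5
            simp [h3]
      have h2 : P {x : ℕ → A | ∀ i (h : i < (v ++ [a]).length), x (i + 1) = (v ++ [a])[i]}
          = ((P.map (frestrictLe (π := fun _ => A) v.length)) ⊗ₘ (ker q v.length)) (S ×ˢ {a}) := by
        rw [h1]
        change P _ = ((Measure.map (frestrictLe (π := fun _ => A) v.length)
          (Kernel.trajMeasure (X := fun _ => A) (Measure.dirac (Classical.arbitrary A)) (ker q)))
          ⊗ₘ (ker q v.length)) (S ×ˢ {a})
        rw [key, Measure.map_apply (by fun_prop) (hS.prod (measurableSet_singleton a))]
      rw [h2, Measure.compProd_apply_prod hS (measurableSet_singleton a)]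
      have h3 : ∀ y ∈ S, ker q v.length y {a} = stepM q v {a} := by
        intro y hy
        simp only [S, Set.mem_ofPred_eq] at hy
        change stepM q (tailList y) {a} = _
        rw [hy]
      rw [setLIntegral_congr_fun hS (g := fun _ => stepM q v {a}) (fun y hy => h3 y hy)]
      rw [setLIntegral_const, Measure.map_apply (by fun_prop) hS]
      have h4 : (frestrictLe (π := fun _ => A) v.length) ⁻¹' S
          = {x : ℕ → A | ∀ i (h : i < v.length), x (i + 1) = v[i]} := by
        ext x
        simp only [S, Set.mem_preimage, Set.mem_ofPred_eq]
        constructor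
        · intro h i hi
          have h5 : (tailList (frestrictLe (π := fun _ => A) v.length x))[i]'(by
              simp [tailList, hi]) = v[i] := by
            simp only [h]
          simpa [tailList, List.getElem_ofFn, frestrictLe_apply] using h5
        · intro h
          apply List.ext_getElem
          · simp [tailList]
          · intro i hi1 hi2
            simp only [tailList, List.getElem_ofFn, frestrictLe_apply]
            exact h i hi2
      rw [h4, ih]
      have hva : q (v ++ [a]) ≤ q v := by rw [← hq v]; exact ENNReal.le_tsum a
      by_cases hv : q v = 0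
      · rw [hv, mul_zero]
        rw [hv] at hva
        exact (le_antisymm hva zero_le).symm
      · have hvt : q v ≠ ⊤ := ne_top_of_le_ne_top ENNReal.one_ne_top (hq1 v)
        unfold stepM
        rw [if_neg (by simp [hv, hvt])]
        rw [Measure.smul_apply, Measure.sum_apply _ (measurableSet_singleton a)]
        rw [tsum_eq_single a]
        · simp only [Measure.smul_apply, smul_eq_mul]
          rw [Measure.dirac_apply' _ (measurableSet_singleton a)]
          simp only [Set.mem_singleton_iff, Set.indicator_of_mem, Pi.one_apply, mul_one]
          rw [mul_comm, ← mul_assoc, ENNReal.mul_inv_cancel hv hvt, one_mul]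
        · intro b hb
          simp only [Measure.smul_apply, smul_eq_mul]
          rw [Measure.dirac_apply' _ (measurableSet_singleton a)]
          simp [hb]
  intro v
  rw [Measure.map_apply hmeas (hcyl v)]
  rw [← hE v]
  rfl

end TM

end Pool.Agent.Helper185.Deb
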