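import Mathlib
import Pool.Agent.Helper185.Deb1

namespace Pool.Agent.Helper185.Deb

open MeasureTheory ProbabilityTheory Preorder
open scoped ENNReal

section Laws

variable {A : Type} [Countable A] [Nonempty A] [MeasurableSpace A] [MeasurableSingletonClass A]
variable {Z : Type} [MeasurableSpace Z] [DiscreteMeasurableSpace Z]
variable (ν : Measure Z) [IsProbabilityMeasure ν] (c : List A → Z → Z → A)

open Classical in
noncomputable def rr : ℕ → List A → Z → List A → ℝ≥0∞
  | 0 => fun u _ v => if v <+: u then 1 else 0
  | k + 1 => fun u α v => ∫⁻ β, rr k (u ++ [c u α β]) β v ∂ν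

noncomputable def qq (u : List A) (α : Z) (v : List A) : ℝ≥0∞ :=
  rr ν c (v.length - u.length) u α v

theorem pre_iff {u v : List A} (x : A) (h : v.length ≤ u.length) :
    v <+: u ++ [x] ↔ v <+: u := by
  constructor
  · intro h1
    exact List.prefix_of_prefix_length_le h1 (List.prefix_append u [x]) h
  · intro h1
    exact h1.trans (List.prefix_append u [x])

theorem rr_stab (k : ℕ) : ∀ (u : List A) (α : Z) (v : List A), v.length ≤ u.length + k →
    rr ν c k u α v = rr ν c (k + 1) u α v := by
  classical
  induction k with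
  | zero =>
    intro u α v h
    have h1 : ∀ β, (if v <+: u ++ [c u α β] then (1 : ℝ≥0∞) else 0) = if v <+: u then 1 else 0 := by
      intro β
      simp only [pre_iff (c u α β) (by simpa using h)]
    simp only [rr, h1]
    simp
  | succ k ih =>
    intro u α v h
    rw [rr]
    conv_rhs => rw [rr]
    refine lintegral_congr fun β => ?_
    exact ih _ β v (by simp; omega)

theorem rr_eq (k j : ℕ) : ∀ (u : List A) (α : Z) (v : List A), v.length ≤ u.length + k →
    rr ν c (k + j) u α v = rr ν c k u α v := by
  induction j with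
  | zero => intro u α v h; rfl
  | succ j ih =>
    intro u α v h
    rw [← add_assoc, ← rr_stab ν c (k + j) u α v (by omega), ih u α v h]

theorem qq_eq (k : ℕ) (u : List A) (α : Z) (v : List A) (h : v.length ≤ u.length + k) :
    qq ν c u α v = rr ν c k u α v := by
  have h1 : k = (v.length - u.length) + (k - (v.length - u.length)) := by omega
  rw [h1, rr_eq ν c _ _ u α v (by omega)]
  rfl

theorem qq_rec (u : List A) (α : Z) (v : List A) :
    qq ν c u α v = ∫⁻ β, qq ν c (u ++ [c u α β]) β v ∂ν := by
  rw [qq_eq ν c (v.length - u.length + 1) u α v (by omega), rr]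
  refine lintegral_congr fun β => ?_
  rw [qq_eq ν c (v.length - u.length) (u ++ [c u α β]) β v (by simp; omega)]

open Classical in
theorem qq_pre (u : List A) (α : Z) (v : List A) (h : v.length ≤ u.length) :
    qq ν c u α v = if v <+: u then 1 else 0 := by
  rw [qq_eq ν c 0 u α v (by omega), rr]

theorem qq_nil (u : List A) (α : Z) : qq ν c u α [] = 1 := by
  classical
  rw [qq_pre ν c u α [] (by simp)]
  simp

theorem qq_add (k : ℕ) : ∀ (u : List A) (α : Z) (v : List A), v.length + 1 ≤ u.length + k →
    ∑' a, qq ν c u α (v ++ [a]) = qq ν c u α v := by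
  classical
  induction k with
  | zero =>
    intro u α v h
    have h1 : ∀ a, qq ν c u α (v ++ [a]) = if v ++ [a] <+: u then 1 else 0 :=
      fun a => qq_pre ν c u α _ (by simp; omega)
    simp only [h1]
    rw [qq_pre ν c u α v (by omega)]
    by_cases h2 : v <+: u
    · obtain ⟨t, rfl⟩ := h2
      cases t with
      | nil => simp at h
      | cons b t =>
        rw [tsum_eq_single b]
        · rw [if_pos ⟨t, by simp⟩, if_pos ⟨b :: t, rfl⟩]
        · intro a ha
          rw [if_neg]
          rintro ⟨s, hs⟩
          rw [List.append_assoc] at hs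
          have := List.append_cancel_left hs
          simp at this
          exact ha this.1
    · rw [if_neg h2]
      have : ∀ a, ¬ (v ++ [a] <+: u) := fun a h3 => h2 ((List.prefix_append v [a]).trans h3)
      simp [this]
  | succ k ih =>
    intro u α v h
    rw [qq_rec ν c u α v]
    have h1 : ∀ a, qq ν c u α (v ++ [a]) = ∫⁻ β, qq ν c (u ++ [c u α β]) β (v ++ [a]) ∂ν :=
      fun a => qq_rec ν c u α _
    simp only [h1]
    rw [← lintegral_tsum (fun a => Measurable.of_discrete.aemeasurable)]
    refine lintegral_congr fun β => ?_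
    exact ih _ β v (by simp; omega)

theorem exists_law (u : List A) (α : Z) :
    ∃ m : Measure (ℕ → A), IsProbabilityMeasure m ∧ ∀ v, m (Cyl v) = qq ν c u α v :=
  exists_tree_measure _ (qq_nil ν c u α)
    (fun v => qq_add ν c (v.length + 1) u α v (by omega))

noncomputable def MM (u : List A) (α : Z) : Measure (ℕ → A) := (exists_law ν c u α).choose

instance (u : List A) (α : Z) : IsProbabilityMeasure (MM ν c u α) :=
  (exists_law ν c u α).choose_spec.1

theorem MM_cyl (u : List A) (α : Z) (v : List A) : MM ν c u α (Cyl v) = qq ν c u α v :=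
  (exists_law ν c u α).choose_spec.2 v

theorem MM_self (u : List A) (α : Z) : MM ν c u α (Cyl u) = 1 := by
  classical
  rw [MM_cyl, qq_pre ν c u α u le_rfl, if_pos (List.prefix_refl u)]

omit [Countable A] [Nonempty A] in
theorem meas_cyl (v : List A) : MeasurableSet (Cyl v) := by
  have : Cyl v = ⋂ (i : ℕ) (h : i < v.length), {w : ℕ → A | w i = v[i]} := by
    ext w; simp [Cyl]
  rw [this]
  refine MeasurableSet.iInter fun i => MeasurableSet.iInter fun h => ?_
  exact (measurable_pi_apply i) (measurableSet_singleton _)

def pre (w : ℕ → A) (n : ℕ) : List A := (List.range n).map w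

omit [Countable A] [Nonempty A] [MeasurableSpace A] [MeasurableSingletonClass A] in
@[simp] theorem pre_length (w : ℕ → A) (n : ℕ) : (pre w n).length = n := by simp [pre]

omit [Countable A] [Nonempty A] [MeasurableSpace A] [MeasurableSingletonClass A] in
theorem pre_mem (w : ℕ → A) (n : ℕ) : w ∈ Cyl (pre w n) := by
  intro i h
  simp [pre]

omit [Countable A] [Nonempty A] [MeasurableSpace A] [MeasurableSingletonClass A] in
theorem pre_succ (w : ℕ → A) (n : ℕ) : pre w (n + 1) = pre w n ++ [w n] := by
  simp [pre, List.range_succ]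

omit [Countable A] [Nonempty A] [MeasurableSpace A] [MeasurableSingletonClass A] in
theorem mem_cyl_iff (w : ℕ → A) (v : List A) : w ∈ Cyl v ↔ pre w v.length = v := by
  constructor
  · intro h
    apply List.ext_getElem
    · simp
    · intro i h1 h2
      have := h i h2
      simpa [pre] using this
  · intro h
    have := pre_mem w v.length
    rwa [h] at this

omit [Nonempty A] in
theorem gen_cyl : (MeasurableSpace.pi : MeasurableSpace (ℕ → A)) =
    MeasurableSpace.generateFrom (Set.range (Cyl (A := A))) := by
  apply le_antisymm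
  · refine iSup_le fun i => ?_
    rw [MeasurableSpace.comap_le_iff_le_map]
    intro s _
    change MeasurableSet[MeasurableSpace.generateFrom (Set.range (Cyl (A := A)))]
      ((fun w : ℕ → A => w i) ⁻¹' s)
    have h1 : (fun w : ℕ → A => w i) ⁻¹' s =
        ⋃ v ∈ {v : List A | ∃ h : i < v.length, v[i] ∈ s}, Cyl v := by
      ext w
      simp only [Set.mem_preimage, Set.mem_iUnion, Set.mem_ofPred_eq, exists_prop]
      constructor
      · intro h
        refine ⟨pre w (i + 1), ⟨by simp, ?_⟩, pre_mem w _⟩
        simpa [pre] using h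
      · rintro ⟨v, ⟨h2, h3⟩, h4⟩
        rw [h4 i h2]; exact h3
    rw [h1]
    exact MeasurableSet.biUnion (Set.to_countable _)
      (fun v _ => MeasurableSpace.measurableSet_generateFrom ⟨v, rfl⟩)
  · refine MeasurableSpace.generateFrom_le ?_
    rintro _ ⟨v, rfl⟩
    exact meas_cyl v

omit [Countable A] [Nonempty A] [MeasurableSpace A] [MeasurableSingletonClass A] in
theorem pi_cyl : IsPiSystem (Set.range (Cyl (A := A))) := by
  rintro _ ⟨v, rfl⟩ _ ⟨v', rfl⟩ ⟨w, hw, hw'⟩
  rcases le_total v.length v'.length with h | h
  · refine ⟨v', ?_⟩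
    ext x
    constructor
    · intro hx
      refine ⟨fun i hi => ?_, hx⟩
      rw [hx i (by omega), ← hw' i (by omega), hw i hi]
    · exact fun hx => hx.2
  · refine ⟨v, ?_⟩
    ext x
    constructor
    · intro hx
      refine ⟨hx, fun i hi => ?_⟩
      rw [hx i (by omega), ← hw i (by omega), hw' i hi]
    · exact fun hx => hx.1

theorem MM_rec (u : List A) (α : Z) (D : Set (ℕ → A)) (hD : MeasurableSet D) :
    MM ν c u α D = ∫⁻ β, MM ν c (u ++ [c u α β]) β D ∂ν := by
  have hm : AEMeasurable (fun β => MM ν c (u ++ [c u α β]) β) ν :=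
    Measurable.of_discrete.aemeasurable
  have h : MM ν c u α = ν.bind (fun β => MM ν c (u ++ [c u α β]) β) := by
    refine ext_of_generate_finite (Set.range (Cyl (A := A))) gen_cyl pi_cyl ?_ ?_
    · rintro _ ⟨v, rfl⟩
      rw [Measure.bind_apply (meas_cyl v) hm]
      simp only [MM_cyl]
      exact qq_rec ν c u α v
    · rw [Measure.bind_apply MeasurableSet.univ hm]
      simp
  conv_lhs => rw [h]
  rw [Measure.bind_apply hD hm]

end Laws

end Pool.Agent.Helper185.Deb
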