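import Mathlib
import Pool.Agent.Helper185.Deb2

namespace Pool.Agent.Helper185.Deb

open MeasureTheory ProbabilityTheory Preorder
open scoped ENNReal

section LemmaA

variable {A : Type} [Countable A] [Nonempty A] [MeasurableSpace A] [MeasurableSingletonClass A]
variable {Z : Type} [MeasurableSpace Z] [DiscreteMeasurableSpace Z]
variable (ν : Measure Z) [IsProbabilityMeasure ν] (c : List A → Z → Z → A)

noncomputable def MK (u : List A) : Kernel Z (ℕ → A) := ⟨MM ν c u, Measurable.of_discrete⟩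

instance (u : List A) : IsMarkovKernel (MK ν c u) :=
  ⟨fun α => by change IsProbabilityMeasure (MM ν c u α); infer_instance⟩

noncomputable def lam (u : List A) : Measure (ℕ → A) := ν.bind (MM ν c u)

theorem lam_apply (u : List A) {D : Set (ℕ → A)} (hD : MeasurableSet D) :
    lam ν c u D = ∫⁻ β, MM ν c u β D ∂ν :=
  Measure.bind_apply hD Measurable.of_discrete.aemeasurable

instance (u : List A) : IsProbabilityMeasure (lam ν c u) := by
  constructor
  rw [lam_apply ν c u MeasurableSet.univ]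
  simp

noncomputable def Lam : Measure (ℕ → A) := (Measure.sum (lam ν c)).toFinite

instance : IsFiniteMeasure (Lam ν c) := by unfold Lam; infer_instance

theorem MM_ac (u : List A) (α : Z) : MM ν c u α ≪ Lam ν c := by
  refine Measure.AbsolutelyContinuous.mk fun N hN h0 => ?_
  unfold Lam at h0
  rw [toFinite_apply_eq_zero_iff, Measure.sum_apply _ hN, ENNReal.tsum_eq_zero] at h0
  rw [MM_rec ν c u α N hN]
  have h1 : ∀ a : A, ∀ᵐ β ∂ν, MM ν c (u ++ [a]) β N = 0 := by
    intro a
    have := h0 (u ++ [a])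
    rw [lam_apply ν c _ hN, lintegral_eq_zero_iff Measurable.of_discrete] at this
    exact this
  have h2 : ∀ᵐ β ∂ν, ∀ a : A, MM ν c (u ++ [a]) β N = 0 := ae_all_iff.2 h1
  rw [lintegral_eq_zero_iff Measurable.of_discrete]
  filter_upwards [h2] with β hβ
  exact hβ _

theorem prod_ac (u : List A) : ν ⊗ₘ MK ν c u ≪ ν.prod (Lam ν c) := by
  rw [← Measure.compProd_const]
  refine Measure.AbsolutelyContinuous.compProd_right (Filter.Eventually.of_forall fun α => ?_)
  rw [Kernel.const_apply]
  exact MM_ac ν c u α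

noncomputable def ff (u : List A) : Z × (ℕ → A) → ℝ≥0∞ :=
  (ν ⊗ₘ MK ν c u).rnDeriv (ν.prod (Lam ν c))

theorem ff_meas (u : List A) : Measurable (ff ν c u) := Measure.measurable_rnDeriv _ _

theorem ff_eq (u : List A) : (ν.prod (Lam ν c)).withDensity (ff ν c u) = ν ⊗ₘ MK ν c u :=
  Measure.withDensity_rnDeriv_eq _ _ (prod_ac ν c u)

theorem null_iff (u : List A) (s : Set (Z × (ℕ → A))) :
    (ν ⊗ₘ MK ν c u) s = 0 ↔ (ν.prod (Lam ν c)) ({x | ff ν c u x ≠ 0} ∩ s) = 0 := by
  rw [← ff_eq ν c u, withDensity_apply_eq_zero (ff_meas ν c u)]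

def Bad (u : List A) : Set (Z × (ℕ → A)) :=
  {p | ν {β | c u p.1 β = p.2 u.length ∧ ff ν c (u ++ [p.2 u.length]) (β, p.2) ≠ 0} = 0}

theorem Bad_meas (u : List A) : MeasurableSet (Bad ν c u) := by
  have h1 : ∀ a : A, MeasurableSet {p : Z × (ℕ → A) |
      ν {β | c u p.1 β = a ∧ ff ν c (u ++ [a]) (β, p.2) ≠ 0} = 0} := by
    intro a
    let η : Kernel Z Z := ⟨fun α => ν.restrict {β | c u α β = a}, Measurable.of_discrete⟩
    haveI : IsFiniteKernel η := ⟨⟨1, by simp, fun α => by
      change ν.restrict {β | c u α β = a} Set.univ ≤ 1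
      rw [Measure.restrict_apply_univ]
      exact prob_le_one⟩⟩
    let η' : Kernel (Z × (ℕ → A)) Z := η.comap Prod.fst measurable_fst
    have h2 : MeasurableSet {q : (Z × (ℕ → A)) × Z | ff ν c (u ++ [a]) (q.2, q.1.2) ≠ 0} := by
      have : Measurable fun q : (Z × (ℕ → A)) × Z => ff ν c (u ++ [a]) (q.2, q.1.2) :=
        (ff_meas ν c _).comp (by fun_prop)
      exact this (measurableSet_singleton 0).compl
    have h3 := Kernel.measurable_kernel_prodMk_left (κ := η') h2
    have h4 : {p : Z × (ℕ → A) | ν {β | c u p.1 β = a ∧ ff ν c (u ++ [a]) (β, p.2) ≠ 0} = 0}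
        = (fun p => η' p (Prod.mk p ⁻¹' {q : (Z × (ℕ → A)) × Z |
          ff ν c (u ++ [a]) (q.2, q.1.2) ≠ 0})) ⁻¹' {0} := by
      ext p
      simp only [Set.mem_ofPred_eq, Set.mem_preimage, Set.mem_singleton_iff]
      have h5 : η' p (Prod.mk p ⁻¹' {q : (Z × (ℕ → A)) × Z |
          ff ν c (u ++ [a]) (q.2, q.1.2) ≠ 0}) =
          ν {β | c u p.1 β = a ∧ ff ν c (u ++ [a]) (β, p.2) ≠ 0} := by
        change ν.restrict {β | c u p.1 β = a} _ = _
        rw [Measure.restrict_apply (MeasurableSet.of_discrete)]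
        congr 1
        ext β
        simp only [Set.mem_inter_iff, Set.mem_preimage, Set.mem_ofPred_eq]
        exact and_comm
      rw [h5]
    rw [h4]
    exact h3 (measurableSet_singleton 0)
  have h6 : Bad ν c u = ⋃ a : A, ({p : Z × (ℕ → A) | p.2 u.length = a} ∩
      {p : Z × (ℕ → A) | ν {β | c u p.1 β = a ∧ ff ν c (u ++ [a]) (β, p.2) ≠ 0} = 0}) := by
    ext p
    simp only [Bad, Set.mem_ofPred_eq, Set.mem_iUnion, Set.mem_inter_iff]
    constructor
    · intro h
      exact ⟨_, rfl, h⟩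
    · rintro ⟨a, rfl, h⟩
      exact h
  rw [h6]
  refine MeasurableSet.iUnion fun a => (MeasurableSet.inter ?_ (h1 a))
  have : Measurable fun p : Z × (ℕ → A) => p.2 u.length := by fun_prop
  exact this (measurableSet_singleton a)

theorem Bad_null (u : List A) : (ν ⊗ₘ MK ν c u) (Bad ν c u) = 0 := by
  rw [Measure.compProd_apply (Bad_meas ν c u)]
  have h0 : ∀ α, MK ν c u α (Prod.mk α ⁻¹' Bad ν c u) = 0 := by
    intro α
    change MM ν c u α (Prod.mk α ⁻¹' Bad ν c u) = 0
    have hD : MeasurableSet (Prod.mk α ⁻¹' Bad ν c u) := measurable_prodMk_left (Bad_meas ν c u)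
    rw [MM_rec ν c u α _ hD, lintegral_eq_zero_iff Measurable.of_discrete]
    have h1 : ∀ a : A, ∀ᵐ β ∂ν, c u α β = a →
        MM ν c (u ++ [a]) β (Prod.mk α ⁻¹' Bad ν c u) = 0 := by
      intro a
      let D : Set (ℕ → A) := (Prod.mk α ⁻¹' Bad ν c u) ∩ Cyl (u ++ [a])
      have hDm : MeasurableSet D := hD.inter (meas_cyl _)
      let G : Set (Z × (ℕ → A)) := {β | c u α β = a} ×ˢ D
      have hG : MeasurableSet G := MeasurableSet.of_discrete.prod hDm
      have h2 : (ν ⊗ₘ MK ν c (u ++ [a])) G = 0 := by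
        rw [null_iff, Measure.prod_apply_symm]
        · rw [lintegral_eq_zero_iff]
          · refine Filter.Eventually.of_forall fun w => ?_
            change ν _ = 0
            by_cases hw : w ∈ D
            · have h3 : w u.length = a := by
                have := hw.2 u.length (by simp)
                simpa using this
              have h4 : ν {β | c u α β = w u.length ∧
                  ff ν c (u ++ [w u.length]) (β, w) ≠ 0} = 0 := hw.1
              rw [h3] at h4
              refine measure_mono_null ?_ h4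
              rintro β ⟨h5, h6, _⟩
              exact ⟨h6, h5⟩
            · refine measure_mono_null (t := ∅) ?_ measure_empty
              rintro β ⟨_, _, h6⟩
              exact hw h6
          · refine measurable_measure_prodMk_right ?_
            exact ((ff_meas ν c _) (measurableSet_singleton 0).compl).inter hG
        · exact ((ff_meas ν c _) (measurableSet_singleton 0).compl).inter hG
      rw [Measure.compProd_apply hG, lintegral_eq_zero_iff
        (Kernel.measurable_kernel_prodMk_left hG)] at h2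
      filter_upwards [h2] with β hβ hc
      have h3 : MM ν c (u ++ [a]) β (Prod.mk β ⁻¹' G) = 0 := hβ
      have h4 : Prod.mk β ⁻¹' G = D := by
        ext w
        simp only [G, Set.mem_preimage, Set.mem_prod, Set.mem_ofPred_eq, hc, true_and]
      rw [h4] at h3
      have h5 : MM ν c (u ++ [a]) β (Cyl (u ++ [a]))ᶜ = 0 := by
        rw [prob_compl_eq_zero_iff (meas_cyl _)]
        exact MM_self ν c _ β
      refine measure_mono_null (t := D ∪ (Cyl (u ++ [a]))ᶜ) ?_ (measure_union_null h3 h5)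
      intro w hw
      by_cases h6 : w ∈ Cyl (u ++ [a])
      · exact Or.inl ⟨hw, h6⟩
      · exact Or.inr h6
    filter_upwards [ae_all_iff.2 h1] with β hβ
    exact hβ _ rfl
  simp [h0]

theorem lemmaA : ∃ (w : ℕ → A) (E : ℕ → Set Z), ν (E 0) ≠ 0 ∧
    ∀ n, ∀ α ∈ E n, ν {β | β ∈ E (n + 1) ∧ c (pre w n) α β = w n} ≠ 0 := by
  have h1 : ∀ u : List A, ∀ᵐ w ∂(Lam ν c), ν {α | ff ν c u (α, w) ≠ 0 ∧ (α, w) ∈ Bad ν c u} = 0 := by
    intro u
    have hm : MeasurableSet ({x | ff ν c u x ≠ 0} ∩ Bad ν c u) :=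
      ((ff_meas ν c u) (measurableSet_singleton 0).compl).inter (Bad_meas ν c u)
    have h := (null_iff ν c u _).1 (Bad_null ν c u)
    rw [Measure.prod_apply_symm hm, lintegral_eq_zero_iff
      (measurable_measure_prodMk_right hm)] at h
    filter_upwards [h] with w hw
    exact hw
  have h2 : ∀ᵐ w ∂(Lam ν c), ∀ u : List A,
      ν {α | ff ν c u (α, w) ≠ 0 ∧ (α, w) ∈ Bad ν c u} = 0 := ae_all_iff.2 h1
  have h3 : ¬ ∀ᵐ w ∂(Lam ν c), ν {α | ff ν c [] (α, w) ≠ 0} = 0 := by
    intro h
    have hm : MeasurableSet ({x | ff ν c ([] : List A) x ≠ 0} ∩ Set.univ) :=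
      ((ff_meas ν c []) (measurableSet_singleton 0).compl).inter MeasurableSet.univ
    have h4 : (ν ⊗ₘ MK ν c ([] : List A)) Set.univ = 0 := by
      rw [null_iff, Measure.prod_apply_symm hm, lintegral_eq_zero_iff
        (measurable_measure_prodMk_right hm)]
      filter_upwards [h] with w hw
      refine measure_mono_null ?_ hw
      rintro α ⟨h5, _⟩
      exact h5
    rw [measure_univ] at h4
    exact one_ne_zero h4
  have h4 : ∃ᶠ w in ae (Lam ν c), ν {α | ff ν c ([] : List A) (α, w) ≠ 0} ≠ 0 := Filter.not_eventually.1 h3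
  obtain ⟨w, hw1, hw2⟩ := (h4.and_eventually h2).exists
  refine ⟨w, fun n => {α | ff ν c (pre w n) (α, w) ≠ 0 ∧ (α, w) ∉ Bad ν c (pre w n)}, ?_, ?_⟩
  · intro h0
    apply hw1
    refine measure_mono_null (t := {α | ff ν c (pre w 0) (α, w) ≠ 0 ∧
      (α, w) ∉ Bad ν c (pre w 0)} ∪ {α | ff ν c (pre w 0) (α, w) ≠ 0 ∧
      (α, w) ∈ Bad ν c (pre w 0)}) ?_ (measure_union_null h0 (hw2 _))
    intro α hα
    have hα' : ff ν c (pre w 0) (α, w) ≠ 0 := hα
    by_cases h5 : (α, w) ∈ Bad ν c (pre w 0)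
    · exact Or.inr ⟨hα', h5⟩
    · exact Or.inl ⟨hα', h5⟩
  · intro n α hα h0
    apply hα.2
    change ν {β | c (pre w n) α β = w (pre w n).length ∧
      ff ν c (pre w n ++ [w (pre w n).length]) (β, w) ≠ 0} = 0
    rw [pre_length, ← pre_succ]
    refine measure_mono_null ?_ (measure_union_null h0 (hw2 (pre w (n + 1))))
    rintro β ⟨h5, h6⟩
    by_cases h7 : (β, w) ∈ Bad ν c (pre w (n + 1))
    · exact Or.inr ⟨h6, h7⟩
    · exact Or.inl ⟨⟨h6, h7⟩, h5⟩

end LemmaA

end Pool.Agent.Helper185.Deb
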