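import Mathlib

/-!
The Banach-Mazur game and (limited memory) strategies of the second player.
-/

namespace Pool.Agent.Helper185.Deb

/-- A legal choice in the Banach-Mazur game: a nonempty open set. -/
def Move {X : Type} [TopologicalSpace X] (U : Set X) : Prop := IsOpen U ∧ U.Nonempty

/-- `U` lists the moves of player I, `V` the answers of player II. Player II does well: all her
answers are legal as long as player I plays legally, and if all moves of player I are legal then
the intersection of the `U n` is nonempty. -/
def GoodPlay {X : Type} [TopologicalSpace X] (U V : ℕ → Set X) : Prop :=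
  (∀ n, (∀ i ≤ n, Move (U i)) → (∀ i < n, U (i + 1) ⊆ V i) → Move (V n) ∧ V n ⊆ U n) ∧
  ((∀ n, Move (U n)) → (∀ n, U (n + 1) ⊆ V n) → (⋂ n, U n).Nonempty)

/-- The list `(U_0, V_0), ..., (U_(n-1), V_(n-1))` of the rounds before round `n`. -/
def rounds {X : Type} (U V : ℕ → Set X) (n : ℕ) : List (Set X × Set X) :=
  (List.range n).map fun i => (U i, V i)

/-- The list of the last `min k (n + 1)` moves of player I at the time of the answer in round `n`,
that is `U_(max 0 (n-k+1)), ..., U_n`. -/
def lastMoves {X : Type} (U : ℕ → Set X) (k n : ℕ) : List (Set X) :=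
  (List.range' (n + 1 - k) (n + 1 - (n + 1 - k))).map U

/-- Player II has a winning strategy: a function of the complete position. -/
def HasWinningStrategy (X : Type) [TopologicalSpace X] : Prop :=
  ∃ σ : List (Set X × Set X) → Set X → Set X,
    ∀ U V : ℕ → Set X, (∀ n, V n = σ (rounds U V n) (U n)) → GoodPlay U V

/-- Player II has a winning `k`-tactic: a winning strategy that depends on the last `k` moves
of player I only. -/
def HasWinningTactic (X : Type) [TopologicalSpace X] (k : ℕ) : Prop :=
  ∃ τ : List (Set X) → Set X,
    ∀ U V : ℕ → Set X, (∀ n, V n = τ (lastMoves U k n)) → GoodPlay U V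

end Pool.Agent.Helper185.Deb
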