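import Mathlib
import Pool.Agent.Helper185.Deb4

namespace Pool.Agent.Helper185.Deb

open MeasureTheory Topology Cardinal
open scoped ENNReal

/-- Lebesgue measure extends to a `𝔠`-additive measure on all sets of reals. -/
def TotalExtension : Prop :=
  ∃ ν : @Measure ℝ ⊤, (∀ s : Set ℝ, MeasurableSet s → ν s = volume s) ∧
    ∀ F : Set (Set ℝ), #F < 𝔠 → (∀ s ∈ F, ν s = 0) → ν (⋃₀ F) = 0

section Space

variable (r : ℝ → ℝ → Prop) [IsWellOrder ℝ r]

theorem exists_max (b₁ b₂ : ℝ) : ∃ b, ∀ y, ¬ r y b → ¬ r y b₁ ∧ ¬ r y b₂ := by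
  rcases trichotomous_of r b₁ b₂ with h | h | h
  · exact ⟨b₂, fun y hy => ⟨fun h1 => hy (_root_.trans h1 h), hy⟩⟩
  · subst h
    exact ⟨b₁, fun y hy => ⟨hy, hy⟩⟩
  · exact ⟨b₁, fun y hy => ⟨hy, fun h1 => hy (_root_.trans h1 h)⟩⟩

/-- The topology: usual open sets minus bounded sets of the well-order. -/
@[reducible] def topo : TopologicalSpace ℝ where
  IsOpen U := ∀ x ∈ U, ∃ ε : ℝ, 0 < ε ∧ ∃ b : ℝ, ∀ y : ℝ, |y - x| < ε → ¬ r y b → y ∈ U
  isOpen_univ := fun x _ => ⟨1, one_pos, 0, fun y _ _ => Set.mem_univ y⟩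
  isOpen_inter := by
    rintro U V hU hV x ⟨hx1, hx2⟩
    obtain ⟨ε₁, h1, b₁, h2⟩ := hU x hx1
    obtain ⟨ε₂, h3, b₂, h4⟩ := hV x hx2
    obtain ⟨b, hb⟩ := exists_max r b₁ b₂
    exact ⟨min ε₁ ε₂, lt_min h1 h3, b, fun y hy hyb =>
      ⟨h2 y (lt_of_lt_of_le hy (min_le_left _ _)) (hb y hyb).1,
        h4 y (lt_of_lt_of_le hy (min_le_right _ _)) (hb y hyb).2⟩⟩
  isOpen_sUnion := by
    rintro S hS x ⟨U, hU, hx⟩
    obtain ⟨ε, h1, b, h2⟩ := hS U hU x hx
    exact ⟨ε, h1, b, fun y hy hyb => ⟨U, hU, h2 y hy hyb⟩⟩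

theorem isOpen_iff_t (U : Set ℝ) : IsOpen[topo r] U ↔
    ∀ x ∈ U, ∃ ε : ℝ, 0 < ε ∧ ∃ b : ℝ, ∀ y : ℝ, |y - x| < ε → ¬ r y b → y ∈ U := Iff.rfl

theorem isOpen_of_real {U : Set ℝ} (h : IsOpen U) : IsOpen[topo r] U := by
  rw [isOpen_iff_t]
  intro x hx
  obtain ⟨ε, h1, h2⟩ := Metric.isOpen_iff.1 h x hx
  exact ⟨ε, h1, 0, fun y hy _ => h2 (by rw [Metric.mem_ball, Real.dist_eq]; exact hy)⟩

theorem t2 : @T2Space ℝ (topo r) := by
  refine @T2Space.mk ℝ (topo r) (fun x y hxy => ?_)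
  obtain ⟨U, V, hU, hV, hx, hy, hd⟩ := t2_separation (X := ℝ) (x := x) (y := y) hxy
  exact ⟨U, V, isOpen_of_real r hU, isOpen_of_real r hV, hx, hy, hd⟩

end Space

section Small

variable (ν : @Measure ℝ ⊤) (hν : ∀ s : Set ℝ, MeasurableSet s → ν s = volume s)
  (hadd : ∀ F : Set (Set ℝ), #F < 𝔠 → (∀ s ∈ F, ν s = 0) → ν (⋃₀ F) = 0)

include hν hadd in
theorem small_null (N : Set ℝ) (hN : #N < 𝔠) : ν N = 0 := by
  have h := hadd ((fun x : ℝ => ({x} : Set ℝ)) '' N) (lt_of_le_of_lt mk_image_le hN) (by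
    rintro _ ⟨x, _, rfl⟩
    rw [hν _ (measurableSet_singleton x)]
    exact Real.volume_singleton)
  have h2 : ⋃₀ ((fun x : ℝ => ({x} : Set ℝ)) '' N) = N := by
    ext y; simp
  rwa [h2] at h

include hν hadd in
theorem small_meagre (N : Set ℝ) (hN : #N < 𝔠) : IsMeagre N := by
  have hmeas : ∀ x : ℝ, MeasurableSet {z : ℝ | Liouville (x - z)} := by
    intro x
    have h1 : MeasurableSet {y : ℝ | Liouville y} := IsGδ.setOfPred_liouville.measurableSet
    exact (by fun_prop : Measurable fun z : ℝ => x - z) h1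
  have hvol : ∀ x : ℝ, volume {z : ℝ | Liouville (x - z)} = 0 := by
    intro x
    have h1 : MeasurePreserving (fun z : ℝ => x - z) volume volume := Measure.measurePreserving_sub_left volume x
    have h2 := h1.measure_preimage (s := {y : ℝ | Liouville y})
      IsGδ.setOfPred_liouville.measurableSet.nullMeasurableSet
    rw [volume_setOfPred_liouville] at h2
    exact h2
  have h := hadd ((fun x : ℝ => {z : ℝ | Liouville (x - z)}) '' N)
    (lt_of_le_of_lt mk_image_le hN) (by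
      rintro _ ⟨x, _, rfl⟩
      rw [hν _ (hmeas x), hvol x])
  have hex : ∃ z : ℝ, z ∉ ⋃₀ ((fun x : ℝ => {z : ℝ | Liouville (x - z)}) '' N) := by
    by_contra hcon
    push Not at hcon
    have h2 : ⋃₀ ((fun x : ℝ => {z : ℝ | Liouville (x - z)}) '' N) = Set.univ :=
      Set.eq_univ_of_forall hcon
    rw [h2, hν _ MeasurableSet.univ] at h
    simp at h
  obtain ⟨z, hz⟩ := hex
  have hres : {x : ℝ | Liouville (x - z)} ∈ residual ℝ := by
    have h1 : Filter.Tendsto (fun x : ℝ => x - z) (residual ℝ) (residual ℝ) :=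
      tendsto_residual_of_isOpenMap (by fun_prop) (Homeomorph.subRight z).isOpenMap
    exact h1 eventually_residual_liouville
  unfold IsMeagre
  refine Filter.mem_of_superset hres ?_
  intro x hx hxN
  exact hz ⟨_, ⟨x, hxN, rfl⟩, hx⟩

include hν hadd in
theorem small_cover (N : Set ℝ) (hN : #N < 𝔠) :
    ∃ K : ℕ → Set ℝ, (∀ i, IsClosed (K i)) ∧ (∀ i, interior (K i) = ∅) ∧ N ⊆ ⋃ i, K i := by
  have h := small_meagre ν hν hadd N hN
  rw [isMeagre_iff_countable_union_isNowhereDense] at h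
  obtain ⟨S, h1, h2, h3⟩ := h
  rcases S.eq_empty_or_nonempty with h4 | h4
  · subst h4
    exact ⟨fun _ => ∅, fun _ => isClosed_empty, fun _ => interior_empty, by simpa using h3⟩
  · obtain ⟨f, hf⟩ := h2.exists_eq_range h4
    refine ⟨fun i => closure (f i), fun i => isClosed_closure, fun i => ?_, ?_⟩
    · exact h1 (f i) (hf ▸ ⟨i, rfl⟩)
    · intro x hx
      obtain ⟨t, ht, hxt⟩ := h3 hx
      rw [hf] at ht
      obtain ⟨i, rfl⟩ := ht
      exact Set.mem_iUnion.2 ⟨i, subset_closure hxt⟩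

end Small

end Pool.Agent.Helper185.Deb
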