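import Mathlib
import Pool.Agent.Helper185.Deb5

namespace Pool.Agent.Helper185.Deb

open MeasureTheory Topology Cardinal Metric
open scoped ENNReal

structure St where
  B : Set ℝ
  L : List (ℕ → Set ℝ)

def Valid (s : St) : Prop :=
  IsOpen s.B ∧ ∀ K ∈ s.L, ∀ i, IsClosed (K i) ∧ interior (K i) = ∅

def Step (s : St) (U : Set ℝ) (s' : St) : Prop :=
  Valid s' ∧ ∃ (y δ : ℝ) (K : ℕ → Set ℝ), 0 < δ ∧ s'.B = ball y δ ∧ closedBall y δ ⊆ s.B ∧
    s'.L = K :: s.L ∧ closedBall y δ \ U ⊆ ⋃ i, K i ∧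
    (∀ K' ∈ s'.L, ∀ i ≤ s.L.length, Disjoint (closedBall y δ) (K' i)) ∧ (ball y δ ∩ U).Nonempty

section

variable (r : ℝ → ℝ → Prop) [IsWellOrder ℝ r]
variable (ν : @Measure ℝ ⊤) (hν : ∀ s : Set ℝ, MeasurableSet s → ν s = volume s)
  (hadd : ∀ F : Set (Set ℝ), #F < 𝔠 → (∀ s ∈ F, ν s = 0) → ν (⋃₀ F) = 0)
  (hr : ∀ b : ℝ, #{x : ℝ | r x b} < 𝔠)

include hν hadd hr in
omit [IsWellOrder ℝ r] in
theorem ball_not_seg (y δ b : ℝ) (hδ : 0 < δ) : ∃ z ∈ ball y δ, ¬ r z b := by
  by_contra hcon
  push Not at hcon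
  have h1 := small_null ν hν hadd _ (hr b)
  have h2 : ν (ball y δ) = 0 := by
    refine le_antisymm ?_ zero_le
    rw [← h1]
    exact @measure_mono ℝ _ _ _ ν _ _ hcon
  rw [hν _ measurableSet_ball] at h2
  have h3 : 0 < volume (ball y δ) := measure_ball_pos volume y hδ
  exact h3.ne' h2

theorem closed_union (L : List (ℕ → Set ℝ)) (n : ℕ)
    (h : ∀ K ∈ L, ∀ i, IsClosed (K i) ∧ interior (K i) = ∅) (O : Set ℝ) (hO : IsOpen O)
    (hne : O.Nonempty) : ∃ y δ : ℝ, 0 < δ ∧ closedBall y δ ⊆ O ∧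
      ∀ K ∈ L, ∀ i ≤ n, Disjoint (closedBall y δ) (K i) := by
  let F : Set ℝ := ⋃ K ∈ {K | K ∈ L}, ⋃ i ∈ Set.Iic n, K i
  have hF : IsClosed F := by
    refine Set.Finite.isClosed_biUnion (List.finite_toSet L) (fun K hK => ?_)
    exact Set.Finite.isClosed_biUnion (Set.finite_Iic n) (fun i _ => (h K hK i).1)
  have hFr : Fᶜ ∈ residual ℝ := by
    have h1 : Fᶜ = ⋂ K ∈ {K | K ∈ L}, ⋂ i ∈ Set.Iic n, (K i)ᶜ := by
      simp only [F, Set.compl_iUnion]
    rw [h1]
    refine (Filter.biInter_mem (List.finite_toSet L)).2 fun K hK => ?_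
    refine (Filter.biInter_mem (Set.finite_Iic n)).2 fun i _ => ?_
    exact residual_of_dense_open (h K hK i).1.isOpen_compl (interior_eq_empty_iff_dense_compl.1
      (h K hK i).2)
  have hd : Dense Fᶜ := dense_of_mem_residual hFr
  obtain ⟨y, hy1, hy2⟩ := hd.inter_open_nonempty O hO hne
  have hopen : IsOpen (O ∩ Fᶜ) := hO.inter hF.isOpen_compl
  obtain ⟨ε, hε, hsub⟩ := Metric.isOpen_iff.1 hopen y ⟨hy1, hy2⟩
  refine ⟨y, ε / 2, by positivity, ?_, ?_⟩
  · exact fun z hz => (hsub (closedBall_subset_ball (by linarith) hz)).1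
  · intro K hK i hi
    rw [Set.disjoint_left]
    intro z hz hzK
    apply (hsub (closedBall_subset_ball (by linarith) hz)).2
    simp only [F, Set.mem_iUnion]
    exact ⟨K, hK, i, hi, hzK⟩

include hν hadd hr in
theorem step_exists (s : St) (hs : Valid s) (U : Set ℝ) (hU : IsOpen[topo r] U)
    (hne : U.Nonempty) (hsub : U ⊆ s.B) : ∃ s', Step s U s' := by
  obtain ⟨x, hx⟩ := hne
  obtain ⟨ε, hε, b, hb⟩ := (isOpen_iff_t r U).1 hU x hx
  obtain ⟨ε', hε', hball⟩ := Metric.isOpen_iff.1 hs.1 x (hsub hx)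
  obtain ⟨K, hK1, hK2, hK3⟩ := small_cover ν hν hadd _ (hr b)
  have hval : ∀ K' ∈ K :: s.L, ∀ i, IsClosed (K' i) ∧ interior (K' i) = ∅ := by
    intro K' hK' i
    rcases List.mem_cons.1 hK' with h | h
    · subst h; exact ⟨hK1 i, hK2 i⟩
    · exact hs.2 K' h i
  obtain ⟨y, δ, hδ, h1, h2⟩ := closed_union (K :: s.L) s.L.length hval (ball x (min ε ε'))
    isOpen_ball ⟨x, mem_ball_self (lt_min hε hε')⟩
  refine ⟨⟨ball y δ, K :: s.L⟩, ⟨isOpen_ball, hval⟩, y, δ, K, hδ, rfl, ?_, rfl, ?_, h2, ?_⟩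
  · intro z hz
    exact hball (ball_subset_ball (min_le_right _ _) (h1 hz))
  · rintro z ⟨hz, hzU⟩
    apply hK3
    by_contra hcon
    apply hzU
    refine hb z ?_ hcon
    have := ball_subset_ball (min_le_left ε ε') (h1 hz)
    rwa [mem_ball, Real.dist_eq] at this
  · obtain ⟨z, hz, hzb⟩ := ball_not_seg r ν hν hadd hr y δ b hδ
    refine ⟨z, hz, hb z ?_ hzb⟩
    have := ball_subset_ball (min_le_left ε ε') (h1 (ball_subset_closedBall hz))
    rwa [mem_ball, Real.dist_eq] at this

open Classical in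
noncomputable def stp (s : St) (U : Set ℝ) : St :=
  if h : ∃ s', Step s U s' then h.choose else s

theorem stp_spec (s : St) (U : Set ℝ) (h : ∃ s', Step s U s') : Step s U (stp s U) := by
  unfold stp
  rw [dif_pos h]
  exact h.choose_spec

noncomputable def state (h : List (Set ℝ × Set ℝ)) : St :=
  h.foldl (fun s p => stp s p.1) ⟨Set.univ, []⟩

theorem state_succ (U V : ℕ → Set ℝ) (n : ℕ) :
    state (rounds U V (n + 1)) = stp (state (rounds U V n)) (U n) := by
  simp [state, rounds, List.range_succ]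

include hν hadd hr in
theorem has_strategy : @HasWinningStrategy ℝ (topo r) := by
  refine ⟨fun h U => (stp (state h) U).B ∩ U, fun U V hV => ?_⟩
  have hV' : ∀ n, V n = (state (rounds U V (n + 1))).B ∩ U n := by
    intro n
    rw [hV n, state_succ]
  have hvalid0 : Valid (state (rounds U V 0)) := by
    refine ⟨isOpen_univ, ?_⟩
    intro K hK
    simp [state, rounds] at hK
  have key : ∀ n, (∀ i ≤ n, @Move ℝ (topo r) (U i)) → (∀ i < n, U (i + 1) ⊆ V i) →
      Step (state (rounds U V n)) (U n) (state (rounds U V (n + 1))) := by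
    intro n
    induction n with
    | zero =>
      intro h1 _
      rw [state_succ]
      apply stp_spec
      exact step_exists r ν hν hadd hr _ hvalid0 _ (h1 0 le_rfl).1 (h1 0 le_rfl).2
        (fun x _ => Set.mem_univ x)
    | succ n ih =>
      intro h1 h2
      have h3 := ih (fun i hi => h1 i (by omega)) (fun i hi => h2 i (by omega))
      rw [state_succ U V (n + 1)]
      apply stp_spec
      refine step_exists r ν hν hadd hr _ h3.1 _ (h1 (n + 1) le_rfl).1 (h1 (n + 1) le_rfl).2 ?_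
      intro x hx
      have := h2 n (by omega) hx
      rw [hV' n] at this
      exact this.1
  constructor
  · intro n h1 h2
    obtain ⟨h3, y, δ, K, hδ, hB, _, _, _, _, hne⟩ := key n h1 h2
    rw [hV' n]
    refine ⟨⟨?_, ?_⟩, Set.inter_subset_right⟩
    · exact @IsOpen.inter ℝ (topo r) _ _ (isOpen_of_real r h3.1) (h1 n le_rfl).1
    · rw [hB]; exact hne
  · intro h1 h2
    have hst : ∀ n, Step (state (rounds U V n)) (U n) (state (rounds U V (n + 1))) :=
      fun n => key n (fun i _ => h1 i) (fun i _ => h2 i)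
    choose hval y δ K hδ hB hsub hL hcov hdis _ using hst
    have hlen : ∀ n, (state (rounds U V n)).L.length = n := by
      intro n
      induction n with
      | zero => simp [state, rounds]
      | succ n ih => rw [hL n, List.length_cons, ih]
    have hmem : ∀ n m, n < m → K n ∈ (state (rounds U V m)).L := by
      intro n m hnm
      induction m with
      | zero => omega
      | succ m ih =>
        rw [hL m]
        rcases Nat.lt_or_ge n m with h | h
        · exact List.mem_cons_of_mem _ (ih h)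
        · have : n = m := by omega
          subst this
          exact List.mem_cons_self
    have hnest : ∀ n, closedBall (y (n + 1)) (δ (n + 1)) ⊆ closedBall (y n) (δ n) := by
      intro n z hz
      have := hsub (n + 1) hz
      rw [hB n] at this
      exact ball_subset_closedBall this
    obtain ⟨x, hx⟩ := IsCompact.nonempty_iInter_of_sequence_nonempty_isCompact_isClosed
      (fun n => closedBall (y n) (δ n)) hnest
      (fun n => ⟨y n, mem_closedBall_self (hδ n).le⟩) (isCompact_closedBall _ _)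
      (fun n => isClosed_closedBall)
    rw [Set.mem_iInter] at hx
    refine ⟨x, Set.mem_iInter.2 fun n => ?_⟩
    by_contra hcon
    have h3 := hcov n ⟨hx n, hcon⟩
    obtain ⟨i, hi⟩ := Set.mem_iUnion.1 h3
    have h4 := hdis (max n i) (K n) (hmem n _ (by omega)) i (by rw [hlen]; omega)
    exact Set.disjoint_left.1 h4 (hx _) hi

end

end Pool.Agent.Helper185.Deb
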