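import Mathlib
import Pool.Agent.Helper185.Deb3
import Pool.Agent.Helper185.Deb6

namespace Pool.Agent.Helper185.Deb

open MeasureTheory Topology Cardinal
open scoped ENNReal

abbrev Iv := ℚ × ℚ

def ivl (s : Iv) : Set ℝ := Set.Ioo (s.1 : ℝ) (s.2 : ℝ)

def sh (n : ℕ) (t : Iv) : Iv :=
  ((t.1 + t.2) / 2 - min ((t.2 - t.1) / 4) (1 / (n + 1)),
    (t.1 + t.2) / 2 + min ((t.2 - t.1) / 4) (1 / (n + 1)))

theorem sh_lt (n : ℕ) (t : Iv) (h : t.1 < t.2) : (sh n t).1 < (sh n t).2 := by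
  have h1 : (0 : ℚ) < min ((t.2 - t.1) / 4) (1 / (n + 1)) := by
    apply lt_min
    · linarith
    · positivity
  simp only [sh]
  linarith

theorem sh_sub (n : ℕ) (t : Iv) (h : t.1 < t.2) : ivl (sh n t) ⊆ ivl t := by
  have h0 : (0 : ℚ) < min ((t.2 - t.1) / 4) (1 / (n + 1)) := by
    apply lt_min
    · linarith
    · positivity
  have h1 : min ((t.2 - t.1) / 4) (1 / ((n : ℚ) + 1)) ≤ (t.2 - t.1) / 4 := min_le_left _ _
  rintro x ⟨hx1, hx2⟩
  have h2 : t.1 < (sh n t).1 := by simp only [sh]; linarith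
  have h3 : (sh n t).2 < t.2 := by simp only [sh]; linarith
  have h2' : (t.1 : ℝ) < (sh n t).1 := by exact_mod_cast h2
  have h3' : ((sh n t).2 : ℝ) < t.2 := by exact_mod_cast h3
  exact ⟨h2'.trans hx1, hx2.trans h3'⟩

theorem sh_len (n : ℕ) (t : Iv) (x y : ℝ) (hx : x ∈ ivl (sh n t)) (hy : y ∈ ivl (sh n t)) :
    |x - y| ≤ 2 / (n + 1) := by
  have h1 : min ((t.2 - t.1) / 4) (1 / ((n : ℚ) + 1)) ≤ 1 / (n + 1) := min_le_right _ _
  have h2 : (sh n t).2 - (sh n t).1 ≤ 2 / ((n : ℚ) + 1) := by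
    simp only [sh]
    have : (2 : ℚ) / (n + 1) = 1 / (n + 1) + 1 / (n + 1) := by ring
    rw [this]
    linarith
  have h2' : ((sh n t).2 : ℝ) - (sh n t).1 ≤ 2 / ((n : ℝ) + 1) := by
    have h3 := (Rat.cast_le (K := ℝ)).2 h2
    push_cast at h3
    exact h3
  rw [abs_le]
  constructor
  · linarith [hx.1, hx.2, hy.1, hy.2]
  · linarith [hx.1, hx.2, hy.1, hy.2]

section

variable (r : ℝ → ℝ → Prop) [IsWellOrder ℝ r]

def W (s : Iv) (α : ℝ) : Set ℝ := {x | x ∈ ivl s ∧ ¬ r x α}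

def PG (s : Iv) (V : Set ℝ) (p : Iv × ℝ) : Prop :=
  p.1.1 < p.1.2 ∧ ivl p.1 ⊆ ivl s ∧ ∀ x ∈ ivl p.1, ¬ r x p.2 → x ∈ V

theorem pick_exists (s : Iv) (V : Set ℝ) (h1 : IsOpen[topo r] V) (h2 : V.Nonempty)
    (h3 : V ⊆ ivl s) : ∃ p, PG r s V p := by
  obtain ⟨x, hx⟩ := h2
  obtain ⟨ε, hε, b, hb⟩ := (isOpen_iff_t r V).1 h1 x hx
  obtain ⟨hx1, hx2⟩ := h3 hx
  obtain ⟨p, hp1, hp2⟩ := exists_rat_btwn (max_lt (sub_lt_self x hε) hx1)
  obtain ⟨q, hq1, hq2⟩ := exists_rat_btwn (lt_min (lt_add_of_pos_right x hε) hx2)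
  rw [max_lt_iff] at hp1
  rw [lt_min_iff] at hq2
  refine ⟨((p, q), b), ?_, ?_, ?_⟩
  · have : (p : ℝ) < q := hp2.trans hq1
    exact_mod_cast this
  · rintro y ⟨hy1, hy2⟩
    exact ⟨hp1.2.trans hy1, hy2.trans hq2.2⟩
  · rintro y ⟨hy1, hy2⟩ hyb
    simp only at hy1 hy2
    refine hb y ?_ hyb
    rw [abs_lt]
    constructor <;> linarith [hp1.1, hq2.1]

open Classical in
noncomputable def pk (s : Iv) (V : Set ℝ) : Iv × ℝ :=
  if h : ∃ p, PG r s V p then h.choose else ((0, 0), 0)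

theorem pk_spec (s : Iv) (V : Set ℝ) (h1 : IsOpen[topo r] V) (h2 : V.Nonempty)
    (h3 : V ⊆ ivl s) : PG r s V (pk r s V) := by
  unfold pk
  rw [dif_pos (pick_exists r s V h1 h2 h3)]
  exact (pick_exists r s V h1 h2 h3).choose_spec

theorem W_open (s : Iv) (α : ℝ) : IsOpen[topo r] (W r s α) := by
  rw [isOpen_iff_t]
  rintro x ⟨hx1, hx2⟩
  obtain ⟨ε, hε, hball⟩ := Metric.isOpen_iff.1 (isOpen_Ioo (a := (s.1 : ℝ)) (b := s.2)) x hx1
  refine ⟨ε, hε, α, fun y hy hyb => ⟨hball ?_, hyb⟩⟩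
  rwa [Metric.mem_ball, Real.dist_eq]

theorem W_nonempty (hr : ∀ b : ℝ, #{x : ℝ | r x b} < 𝔠) (s : Iv) (hs : s.1 < s.2) (α : ℝ) :
    (W r s α).Nonempty := by
  by_contra hcon
  rw [Set.not_nonempty_iff_eq_empty] at hcon
  have h1 : ivl s ⊆ {x : ℝ | r x α} := by
    intro x hx
    by_contra h2
    have : x ∈ W r s α := ⟨hx, h2⟩
    rw [hcon] at this
    exact this
  have h2 : #(ivl s) = 𝔠 := by
    have : (s.1 : ℝ) < s.2 := by exact_mod_cast hs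
    exact mk_Ioo_real this
  have h3 := mk_le_mk_of_subset h1
  rw [h2] at h3
  exact absurd (hr α) (not_lt.2 h3)

variable (τ : List (Set ℝ) → Set ℝ)

def s0 : Iv := (0, 1)

noncomputable def cc (u : List (Iv × Iv)) (α β : ℝ) : Iv × Iv :=
  match u.getLast? with
  | none => ((pk r s0 (τ [W r s0 α])).1,
      (pk r (sh 0 (pk r s0 (τ [W r s0 α])).1)
        (τ [W r s0 α, W r (sh 0 (pk r s0 (τ [W r s0 α])).1) β])).1)
  | some (p, q) => (q, (pk r (sh u.length q)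
      (τ [W r (sh (u.length - 1) p) α, W r (sh u.length q) β])).1)

def ss (w : ℕ → Iv × Iv) : ℕ → Iv
  | 0 => s0
  | n + 1 => sh n (w n).1

theorem last_two (U : ℕ → Set ℝ) (n : ℕ) : lastMoves U 2 (n + 1) = [U n, U (n + 1)] := by
  have h1 : n + 1 + 1 - 2 = n := by omega
  have h2 : n + 1 + 1 - n = 2 := by omega
  simp [lastMoves, h1, h2, List.range'_succ]

theorem last_one (U : ℕ → Set ℝ) : lastMoves U 2 0 = [U 0] := by
  simp [lastMoves]

theorem t_eq (w : ℕ → Iv × Iv) (a : ℕ → ℝ)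
    (h : ∀ n, cc r τ (pre w n) (a n) (a (n + 1)) = w n) (n : ℕ) :
    (w n).1 = (pk r (ss w n) (τ (lastMoves (fun i => W r (ss w i) (a i)) 2 n))).1 := by
  have hw1 : ∀ m, (w (m + 1)).1 = (w m).2 := by
    intro m
    rw [← h (m + 1), pre_succ]
    simp [cc]
  match n with
  | 0 =>
    rw [last_one, ← h 0]
    simp [cc, pre, ss]
  | 1 =>
    rw [last_two, hw1 0, ← h 0]
    have h0 : (w 0).1 = (pk r s0 (τ [W r s0 (a 0)])).1 := by
      rw [← h 0]; simp [cc, pre]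
    simp only [ss, h0]
    simp [cc, pre]
  | m + 2 =>
    rw [last_two, hw1 (m + 1), ← h (m + 1)]
    rw [pre_succ]
    simp only [cc, List.getLast?_append, List.getLast?_singleton, Option.some_or,
      List.length_append, pre_length, List.length_singleton, Nat.add_sub_cancel, ss]
    rw [hw1 m]

end

end Pool.Agent.Helper185.Deb
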