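import Mathlib
import Pool.Agent.Helper185.Deb7

namespace Pool.Agent.Helper185.Deb

open MeasureTheory Topology Cardinal
open scoped ENNReal

section

variable (r : ℝ → ℝ → Prop) [IsWellOrder ℝ r]

theorem legal (hr : ∀ b : ℝ, #{x : ℝ | r x b} < 𝔠) (τ : List (Set ℝ) → Set ℝ)
    (w : ℕ → Iv × Iv) (a : ℕ → ℝ)
    (hw : ∀ n, cc r τ (pre w n) (a n) (a (n + 1)) = w n)
    (hg : @GoodPlay ℝ (topo r) (fun i => W r (ss w i) (a i))
      (fun n => τ (lastMoves (fun i => W r (ss w i) (a i)) 2 n)))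
    (hb : ∀ n, ¬ r (a (n + 1)) (pk r (ss w n)
      (τ (lastMoves (fun i => W r (ss w i) (a i)) 2 n))).2) :
    ∀ n, (∀ i ≤ n, @Move ℝ (topo r) (W r (ss w i) (a i))) ∧
      (∀ i < n, W r (ss w (i + 1)) (a (i + 1)) ⊆
        τ (lastMoves (fun i => W r (ss w i) (a i)) 2 i)) := by
  intro n
  induction n with
  | zero =>
    refine ⟨fun i hi => ?_, fun i hi => absurd hi (by omega)⟩
    have : i = 0 := by omega
    subst this
    exact ⟨W_open r _ _, W_nonempty r hr s0 (by norm_num [s0]) _⟩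
  | succ n ih =>
    obtain ⟨h1, h2⟩ := ih
    obtain ⟨⟨h3, h4⟩, h5⟩ := hg.1 n h1 h2
    have h6 : PG r (ss w n) (τ (lastMoves (fun i => W r (ss w i) (a i)) 2 n))
        (pk r (ss w n) (τ (lastMoves (fun i => W r (ss w i) (a i)) 2 n))) :=
      pk_spec r _ _ h3 h4 (fun x hx => (h5 hx).1)
    obtain ⟨h7, h8, h9⟩ := h6
    rw [← t_eq r τ w a hw n] at h7 h8 h9
    have h10 : W r (ss w (n + 1)) (a (n + 1)) ⊆
        τ (lastMoves (fun i => W r (ss w i) (a i)) 2 n) := by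
      rintro x ⟨hx1, hx2⟩
      refine h9 x (sh_sub n _ h7 hx1) ?_
      intro hx3
      apply hx2
      rcases trichotomous_of r (a (n + 1)) (pk r (ss w n)
        (τ (lastMoves (fun i => W r (ss w i) (a i)) 2 n))).2 with h | h | h
      · exact absurd h (hb n)
      · rw [h]; exact hx3
      · exact _root_.trans hx3 h
    refine ⟨fun i hi => ?_, fun i hi => ?_⟩
    · rcases Nat.lt_or_ge i (n + 1) with h | h
      · exact h1 i (by omega)
      · have : i = n + 1 := by omega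
        subst this
        exact ⟨W_open r _ _, W_nonempty r hr _ (sh_lt n _ h7) _⟩
    · rcases Nat.lt_or_ge i n with h | h
      · exact h2 i h
      · have : i = n := by omega
        subst this
        exact h10

open Classical in
noncomputable def limPt (s : ℕ → Iv) : ℝ := if h : ∃ x, ∀ n, x ∈ ivl (s n) then h.choose else 0

theorem limPt_eq (w : ℕ → Iv × Iv) (x : ℝ) (hx : ∀ n, x ∈ ivl (ss w n)) : limPt (ss w) = x := by
  have h : ∃ x, ∀ n, x ∈ ivl (ss w n) := ⟨x, hx⟩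
  unfold limPt
  rw [dif_pos h]
  have h1 := h.choose_spec
  by_contra hne
  have h2 : 0 < |h.choose - x| := abs_pos.2 (sub_ne_zero.2 hne)
  obtain ⟨n, hn⟩ := exists_nat_gt (2 / |h.choose - x|)
  have h3 := sh_len n (w n).1 h.choose x (h1 (n + 1)) (hx (n + 1))
  have h4 : (0 : ℝ) < (n : ℝ) + 1 := by positivity
  rw [le_div_iff₀ h4] at h3
  rw [div_lt_iff₀ h2] at hn
  nlinarith

theorem no_two_tactic (hr : ∀ b : ℝ, #{x : ℝ | r x b} < 𝔠)
    (ν : @Measure ℝ ⊤) (hp : @IsProbabilityMeasure ℝ ⊤ ν) (hs : ∀ N : Set ℝ, #N < 𝔠 → ν N = 0) :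
    ¬ @HasWinningTactic ℝ (topo r) 2 := by
  rintro ⟨τ, hτ⟩
  obtain ⟨w, E, hE0, hE⟩ := @lemmaA (Iv × Iv) _ _ _ _ ℝ ⊤ (@DiscreteMeasurableSpace.mk ℝ ⊤ (fun _ => trivial)) ν hp (cc r τ)
  -- bounds
  let Bd : ℕ → ℝ → ℝ → ℝ := fun n x y => match n with
    | 0 => (pk r s0 (τ [W r s0 y])).2
    | n + 1 => (pk r (ss w (n + 1)) (τ [W r (ss w n) x, W r (ss w (n + 1)) y])).2
  have hnull : ∀ b : ℝ, ν {x | r x b} = 0 := fun b => hs _ (hr b)
  have hnull2 : ∀ b : ℝ, ν {x | ¬ r b x} = 0 := by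
    intro b
    refine @measure_mono_null ℝ _ _ _ ν _ ({x | r x b} ∪ {b}) ?_
      (@measure_union_null ℝ _ _ _ ν _ _ (hnull b) (hs _ ?_))
    · intro x hx
      rcases trichotomous_of r b x with h | h | h
      · exact absurd h hx
      · exact Or.inr h.symm
      · exact Or.inl h
    · rw [mk_singleton]
      exact one_lt_aleph0.trans aleph0_lt_continuum
  have hstart : ∃ y ∈ E 0, r (limPt (ss w)) y := by
    by_contra hcon
    push Not at hcon
    apply hE0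
    exact @measure_mono_null ℝ _ _ _ ν _ _ (fun y hy => hcon y hy) (hnull2 (limPt (ss w)))
  obtain ⟨y0, hy0, hy0'⟩ := hstart
  have hnext : ∀ p : {p : ℕ × ℝ × ℝ // p.2.2 ∈ E p.1}, ∃ q : {p : ℕ × ℝ × ℝ // p.2.2 ∈ E p.1},
      q.1.1 = p.1.1 + 1 ∧ q.1.2.1 = p.1.2.2 ∧
      cc r τ (pre w p.1.1) p.1.2.2 q.1.2.2 = w p.1.1 ∧
      ¬ r q.1.2.2 (Bd p.1.1 p.1.2.1 p.1.2.2) := by
    rintro ⟨⟨n, x, y⟩, hy⟩
    have h1 := hE n y hy
    have h2 : ∃ z, (z ∈ E (n + 1) ∧ cc r τ (pre w n) y z = w n) ∧ ¬ r z (Bd n x y) := by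
      by_contra hcon
      push Not at hcon
      apply h1
      exact @measure_mono_null ℝ _ _ _ ν _ _ (fun z hz => hcon z hz) (hnull (Bd n x y))
    obtain ⟨z, ⟨hz1, hz2⟩, hz3⟩ := h2
    exact ⟨⟨⟨n + 1, y, z⟩, hz1⟩, rfl, rfl, hz2, hz3⟩
  choose f hf1 hf2 hf3 hf4 using hnext
  let g : ℕ → {p : ℕ × ℝ × ℝ // p.2.2 ∈ E p.1} := fun n => f^[n] ⟨⟨0, 0, y0⟩, hy0⟩
  have hg : ∀ n, g (n + 1) = f (g n) := fun n => Function.iterate_succ_apply' f n _
  have hgn : ∀ n, (g n).1.1 = n := by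
    intro n
    induction n with
    | zero => rfl
    | succ n ih => rw [hg, hf1, ih]
  let a : ℕ → ℝ := fun n => (g n).1.2.2
  have ha : ∀ n, (g (n + 1)).1.2.1 = a n := by
    intro n
    rw [hg, hf2]
  have hw : ∀ n, cc r τ (pre w n) (a n) (a (n + 1)) = w n := by
    intro n
    have h := hf3 (g n)
    rw [← hg, hgn] at h
    exact h
  have hb : ∀ n, ¬ r (a (n + 1)) (pk r (ss w n)
      (τ (lastMoves (fun i => W r (ss w i) (a i)) 2 n))).2 := by
    intro n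
    have h := hf4 (g n)
    rw [← hg, hgn] at h
    cases n with
    | zero =>
      rw [last_one]
      exact h
    | succ n =>
      rw [last_two]
      rw [ha n] at h
      exact h
  have hgood := hτ (fun i => W r (ss w i) (a i))
    (fun n => τ (lastMoves (fun i => W r (ss w i) (a i)) 2 n)) (fun n => rfl)
  have hleg := legal r hr τ w a hw hgood hb
  obtain ⟨x, hx⟩ := hgood.2 (fun n => (hleg n).1 n le_rfl) (fun n => (hleg (n + 1)).2 n (by omega))
  rw [Set.mem_iInter] at hx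
  have hx' : limPt (ss w) = x := limPt_eq w x (fun n => (hx n).1)
  apply (hx 0).2
  rw [← hx']
  exact hy0'

end

end Pool.Agent.Helper185.Deb
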