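import Mathlib

/-!
# De Caux type spaces on `W × ℕ` from a ladder system `S`

`W` is a well order (later: of type `ω₁`).  `S α` is a ladder on the limit point `α`.
-/

namespace Pool.Agent.Helper185.Dow

open Set Topology

/-- `S` is a ladder on `α`: a cofinal subset of `Iio α` all of whose initial parts are finite
(so of order type `ω` for a limit `α`). -/
def IsLadder {W : Type} [LinearOrder W] (S : Set W) (α : W) : Prop :=
  (∀ β ∈ S, β < α) ∧ (∀ γ < α, ∃ β ∈ S, γ < β) ∧ ∀ γ < α, (S ∩ Set.Iio γ).Finite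

section Space

variable {W : Type} [LinearOrder W] [WellFoundedLT W]

/-- The big basic neighbourhood of the point `(α, n)`. -/
def Nb (S : W → Set W) : ℕ → W → Set (W × ℕ)
  | 0, α => {(α, 0)}
  | n + 1, α => {p | p = (α, n + 1) ∨
      (Order.IsSuccLimit α ∧ ∃ b ∈ S α, p ∈ Nb S n b ∧ ∀ b' ∈ S α, b' < b → b' < p.1)}

theorem mem_Nb_zero (S : W → Set W) (α : W) (p : W × ℕ) : p ∈ Nb S 0 α ↔ p = (α, 0) := by
  simp [Nb]

theorem mem_Nb_succ (S : W → Set W) (n : ℕ) (α : W) (p : W × ℕ) :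
    p ∈ Nb S (n + 1) α ↔ p = (α, n + 1) ∨
      (Order.IsSuccLimit α ∧ ∃ b ∈ S α, p ∈ Nb S n b ∧ ∀ b' ∈ S α, b' < b → b' < p.1) := by
  rfl

theorem self_mem_Nb (S : W → Set W) (n : ℕ) (α : W) : (α, n) ∈ Nb S n α := by
  cases n with
  | zero => simp [Nb]
  | succ n => left; rfl

variable {S : W → Set W} (hS : ∀ α, Order.IsSuccLimit α → IsLadder (S α) α)

include hS

theorem Nb_le (n : ℕ) : ∀ (α : W) (p : W × ℕ), p ∈ Nb S n α →
    p = (α, n) ∨ (p.1 < α ∧ p.2 < n ∧ Order.IsSuccLimit α) := by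
  induction n with
  | zero => intro α p hp; left; simpa [Nb] using hp
  | succ n ih =>
    intro α p hp
    rcases (mem_Nb_succ S n α p).1 hp with h | ⟨hl, b, hb, hpb, hmin⟩
    · exact Or.inl h
    · right
      have hbα := (hS α hl).1 b hb
      rcases ih b p hpb with h | ⟨h1, h2, _⟩
      · subst h; exact ⟨hbα, Nat.lt_succ_self n, hl⟩
      · exact ⟨h1.trans hbα, h2.trans (Nat.lt_succ_self n), hl⟩

theorem Nb_fst_le {n : ℕ} {α : W} {p : W × ℕ} (h : p ∈ Nb S n α) : p.1 ≤ α := by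
  rcases Nb_le hS n α p h with h | h
  · subst h; exact le_rfl
  · exact h.1.le

theorem Nb_snd_le {n : ℕ} {α : W} {p : W × ℕ} (h : p ∈ Nb S n α) : p.2 ≤ n := by
  rcases Nb_le hS n α p h with h | h
  · subst h; exact le_rfl
  · exact h.2.1.le

/-- finite initial part of a ladder has an upper bound below -/
theorem ladder_bound {α β : W} (hl : Order.IsSuccLimit α) (hβ : Order.IsSuccLimit β)
    (hβα : β < α) : ∃ δ < β, ∀ b ∈ S α, b < β → b ≤ δ := by
  have hfin : (S α ∩ Set.Iio β).Finite := (hS α hl).2.2 β hβα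
  rcases (S α ∩ Set.Iio β).eq_empty_or_nonempty with he | hne
  · have hmin : ¬ IsMin β := hβ.1
    rw [not_isMin_iff] at hmin
    obtain ⟨δ, hδ⟩ := hmin
    refine ⟨δ, hδ, fun b hb hbβ => ?_⟩
    have : b ∈ (∅ : Set W) := by rw [← he]; exact ⟨hb, hbβ⟩
    exact absurd this (Set.notMem_empty b)
  · obtain ⟨δ, hδ, hmax⟩ := Set.exists_max_image _ id hfin hne
    exact ⟨δ, hδ.2, fun b hb hbβ => hmax b ⟨hb, hbβ⟩⟩

/-- openness of the basic sets -/
theorem Nb_open (n : ℕ) : ∀ (α : W) (p : W × ℕ), p ∈ Nb S n α → Order.IsSuccLimit p.1 →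
    ∃ δ < p.1, ∀ q ∈ Nb S p.2 p.1, δ < q.1 → q ∈ Nb S n α := by
  induction n with
  | zero =>
    intro α p hp hlim
    have hp' : p = (α, 0) := by simpa [Nb] using hp
    have hmin : ¬ IsMin p.1 := hlim.1
    rw [not_isMin_iff] at hmin
    obtain ⟨δ, hδ⟩ := hmin
    refine ⟨δ, hδ, fun q hq _ => ?_⟩
    subst hp'; exact hq
  | succ n ih =>
    intro α p hp hlim
    rcases (mem_Nb_succ S n α p).1 hp with h | ⟨hl, b, hb, hpb, hmin⟩
    · have hmin : ¬ IsMin p.1 := hlim.1
      rw [not_isMin_iff] at hmin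
      obtain ⟨δ, hδ⟩ := hmin
      refine ⟨δ, hδ, fun q hq _ => ?_⟩
      subst h; exact hq
    · obtain ⟨δ₁, hδ₁, h1⟩ := ih b p hpb hlim
      have hpα : p.1 < α := lt_of_le_of_lt (Nb_fst_le hS hpb) ((hS α hl).1 b hb)
      obtain ⟨δ₂, hδ₂, h2⟩ := ladder_bound hS hl hlim hpα
      refine ⟨max δ₁ δ₂, max_lt hδ₁ hδ₂, fun q hq hδq => ?_⟩
      right
      refine ⟨hl, b, hb, h1 q hq (lt_of_le_of_lt (le_max_left _ _) hδq), fun b' hb' hb'b => ?_⟩
      exact lt_of_le_of_lt (h2 b' hb' (hmin b' hb' hb'b))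
        (lt_of_le_of_lt (le_max_right _ _) hδq)

/-- disjointness of the basic sets of different levels at the same point of `W` -/
theorem Nb_disj (m : ℕ) : ∀ (n : ℕ) (α : W), m ≠ n → ∀ p, p ∈ Nb S m α → p ∈ Nb S n α → False := by
  induction m with
  | zero =>
    intro n α hne p hp hq
    have hp' : p = (α, 0) := by simpa [Nb] using hp
    subst hp'
    rcases Nb_le hS n α _ hq with h | h
    · exact hne (congrArg Prod.snd h)
    · exact lt_irrefl _ h.1
  | succ m ih =>
    intro n α hne p hp hq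
    cases n with
    | zero =>
      have hq' : p = (α, 0) := by simpa [Nb] using hq
      subst hq'
      rcases Nb_le hS (m + 1) α _ hp with h | h
      · exact hne (congrArg Prod.snd h).symm
      · exact lt_irrefl _ h.1
    | succ n =>
      rcases (mem_Nb_succ S m α p).1 hp with h | ⟨hl, b, hb, hpb, hmin⟩
      · subst h
        rcases Nb_le hS (n + 1) α _ hq with h | h
        · exact hne (congrArg Prod.snd h)
        · exact lt_irrefl _ h.1
      · rcases (mem_Nb_succ S n α p).1 hq with h | ⟨_, b', hb', hpb', hmin'⟩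
        · subst h
          rcases Nb_le hS (m + 1) α _ hp with h | h
          · exact hne (congrArg Prod.snd h).symm
          · exact lt_irrefl _ h.1
        · have hbb : b = b' := by
            rcases lt_trichotomy b b' with h | h | h
            · exact absurd (hmin' b hb h) (not_lt.2 (Nb_fst_le hS hpb))
            · exact h
            · exact absurd (hmin b' hb' h) (not_lt.2 (Nb_fst_le hS hpb'))
          subst hbb
          exact ih n b (fun h => hne (by rw [h])) p hpb hpb'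

/-- closedness of the basic sets -/
theorem Nb_closed (n : ℕ) : ∀ (α : W) (p : W × ℕ), p ∉ Nb S n α → Order.IsSuccLimit p.1 →
    ∃ δ < p.1, ∀ q ∈ Nb S p.2 p.1, δ < q.1 → q ∉ Nb S n α := by
  induction n with
  | zero =>
    intro α p hp hlim
    rcases lt_trichotomy p.1 α with h | h | h
    · have hmin : ¬ IsMin p.1 := hlim.1
      rw [not_isMin_iff] at hmin
      obtain ⟨δ, hδ⟩ := hmin
      refine ⟨δ, hδ, fun q hq _ hqn => ?_⟩
      have hq' : q = (α, 0) := by simpa [Nb] using hqn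
      have := Nb_fst_le hS hq
      rw [hq'] at this
      exact absurd h (not_lt.2 this)
    · have hmin : ¬ IsMin p.1 := hlim.1
      rw [not_isMin_iff] at hmin
      obtain ⟨δ, hδ⟩ := hmin
      refine ⟨δ, hδ, fun q hq _ hqn => ?_⟩
      rw [h] at hq
      by_cases hp2 : p.2 = 0
      · apply hp
        rw [mem_Nb_zero]
        exact Prod.ext h hp2
      · exact Nb_disj hS p.2 0 α hp2 q hq hqn
    · refine ⟨α, h, fun q hq hδq hqn => ?_⟩
      exact absurd hδq (not_lt.2 (Nb_fst_le hS hqn))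
  | succ n ih =>
    intro α p hp hlim
    rcases lt_trichotomy p.1 α with h | h | h
    · by_cases hl : Order.IsSuccLimit α
      · -- find the right piece
        obtain ⟨b₀, hb₀, hb₀'⟩ := (hS α hl).2.1 p.1 h
        obtain ⟨b, hbmem, hbmin⟩ : ∃ b, (b ∈ S α ∧ p.1 ≤ b) ∧
            ∀ b', (b' ∈ S α ∧ p.1 ≤ b') → b ≤ b' := by
          obtain ⟨b, hb, hbm⟩ := WellFounded.has_min (wellFounded_lt (α := W))
            {b | b ∈ S α ∧ p.1 ≤ b} ⟨b₀, hb₀, hb₀'.le⟩
          exact ⟨b, hb, fun b' hb' => not_lt.1 (hbm b' hb')⟩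
        have hpb : p ∉ Nb S n b := by
          intro hpb
          apply hp
          right
          refine ⟨hl, b, hbmem.1, hpb, fun b' hb' hb'b => ?_⟩
          by_contra hcon
          exact absurd (hbmin b' ⟨hb', not_lt.1 hcon⟩) (not_le.2 hb'b)
        obtain ⟨δ₁, hδ₁, h1⟩ := ih b p hpb hlim
        obtain ⟨δ₂, hδ₂, h2⟩ := ladder_bound hS hl hlim h
        refine ⟨max δ₁ δ₂, max_lt hδ₁ hδ₂, fun q hq hδq hqn => ?_⟩
        have hq1 : q.1 ≤ p.1 := Nb_fst_le hS hq
        rcases (mem_Nb_succ S n α q).1 hqn with hq' | ⟨_, b', hb', hqb', hmin'⟩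
        · rw [hq'] at hq1
          exact absurd h (not_lt.2 hq1)
        · have hb'b : b' = b := by
            apply le_antisymm
            · by_contra hcon
              have := hmin' b hbmem.1 (not_le.1 hcon)
              exact absurd (lt_of_lt_of_le this hq1) (not_lt.2 hbmem.2)
            · apply hbmin b' ⟨hb', ?_⟩
              by_contra hcon
              have h3 := h2 b' hb' (not_le.1 hcon)
              have h4 := Nb_fst_le hS hqb'
              exact absurd (lt_of_le_of_lt (le_max_right δ₁ δ₂) hδq) (not_lt.2 (h4.trans h3))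
          subst hb'b
          exact h1 q hq (lt_of_le_of_lt (le_max_left _ _) hδq) hqb'
      · have hmin : ¬ IsMin p.1 := hlim.1
        rw [not_isMin_iff] at hmin
        obtain ⟨δ, hδ⟩ := hmin
        refine ⟨δ, hδ, fun q hq _ hqn => ?_⟩
        rcases Nb_le hS (n + 1) α q hqn with hq' | hq'
        · have := Nb_fst_le hS hq
          rw [hq'] at this
          exact absurd h (not_lt.2 this)
        · exact hl hq'.2.2
    · have hmin : ¬ IsMin p.1 := hlim.1
      rw [not_isMin_iff] at hmin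
      obtain ⟨δ, hδ⟩ := hmin
      refine ⟨δ, hδ, fun q hq _ hqn => ?_⟩
      rw [h] at hq
      by_cases hp2 : p.2 = n + 1
      · apply hp
        have : p = (α, n + 1) := Prod.ext h hp2
        rw [this]
        exact self_mem_Nb S _ _
      · exact Nb_disj hS p.2 (n + 1) α hp2 q hq hqn
    · refine ⟨α, h, fun q hq hδq hqn => ?_⟩
      exact absurd hδq (not_lt.2 (Nb_fst_le hS hqn))

end Space

variable {W : Type} [LinearOrder W] [WellFoundedLT W]

/-- open sets, as sets of pairs -/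
def OpenSet (S : W → Set W) (U : Set (W × ℕ)) : Prop :=
  ∀ p ∈ U, Order.IsSuccLimit p.1 → ∃ δ < p.1, ∀ q ∈ Nb S p.2 p.1, δ < q.1 → q ∈ U

/-- The topology on `W × ℕ`. -/
def topo (S : W → Set W) : TopologicalSpace (W × ℕ) where
  IsOpen U := OpenSet S U
  isOpen_univ := by
    intro p _ hlim
    have hmin : ¬ IsMin p.1 := hlim.1
    rw [not_isMin_iff] at hmin
    obtain ⟨δ, hδ⟩ := hmin
    exact ⟨δ, hδ, fun _ _ _ => trivial⟩
  isOpen_inter := by
    intro U V hU hV p hp hlim
    obtain ⟨δ₁, h1, h1'⟩ := hU p hp.1 hlim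
    obtain ⟨δ₂, h2, h2'⟩ := hV p hp.2 hlim
    exact ⟨max δ₁ δ₂, max_lt h1 h2, fun q hq hδ =>
      ⟨h1' q hq (lt_of_le_of_lt (le_max_left _ _) hδ),
       h2' q hq (lt_of_le_of_lt (le_max_right _ _) hδ)⟩⟩
  isOpen_sUnion := by
    intro s hs p hp hlim
    obtain ⟨U, hU, hpU⟩ := hp
    obtain ⟨δ, h, h'⟩ := hs U hU p hpU hlim
    exact ⟨δ, h, fun q hq hδ => ⟨U, hU, h' q hq hδ⟩⟩

theorem isOpen_iff (S : W → Set W) (U : Set (W × ℕ)) :
    IsOpen[topo S] U ↔ OpenSet S U := Iff.rfl

end Pool.Agent.Helper185.Dow
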