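import Pool.Agent.Helper185.Dow1

/-!
# The space is first-countable, locally countable, normal and not countably metacompact
-/

namespace Pool.Agent.Helper185.Dow

open Set Topology

/-- A Dowker witness: decreasing closed sets with empty intersection that cannot be expanded to
open sets with empty intersection. -/
def NotCtblyMetacompact (X : Type) [TopologicalSpace X] : Prop :=
  ∃ D : ℕ → Set X, (∀ n, IsClosed (D n)) ∧ (∀ n, D (n + 1) ⊆ D n) ∧ (⋂ n, D n) = ∅ ∧
    ∀ U : ℕ → Set X, (∀ n, IsOpen (U n)) → (∀ n, D n ⊆ U n) → (⋂ n, U n).Nonempty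

/-- Every point has a countable open neighbourhood. -/
def LocallyCountable (X : Type) [TopologicalSpace X] : Prop :=
  ∀ x : X, ∃ U : Set X, IsOpen U ∧ x ∈ U ∧ U.Countable

variable {W : Type} [LinearOrder W] [WellFoundedLT W]

/-- The guessing property used for normality and for the failure of countable metacompactness. -/
def PairGuess (S : W → Set W) : Prop :=
  ∀ A B : Set W, ¬ A.Countable → ¬ B.Countable → ∃ α, Order.IsSuccLimit α ∧
    (∀ γ < α, ∃ a ∈ A, a ∈ S α ∧ γ < a) ∧ (∀ γ < α, ∃ b ∈ B, b ∈ S α ∧ γ < b)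

variable {S : W → Set W} (hS : ∀ α, Order.IsSuccLimit α → IsLadder (S α) α)

/-- basic clopen sets -/
def Bs (S : W → Set W) (γ α : W) (n : ℕ) : Set (W × ℕ) := {q | q ∈ Nb S n α ∧ γ < q.1}

include hS

theorem Nb_isOpen (α : W) (n : ℕ) : IsOpen[topo S] (Nb S n α) := by
  intro p hp hlim
  exact Nb_open hS n α p hp hlim

theorem Bs_isOpen (γ α : W) (n : ℕ) : IsOpen[topo S] (Bs S γ α n) := by
  intro p hp hlim
  obtain ⟨δ, hδ, h⟩ := Nb_open hS n α p hp.1 hlim
  exact ⟨max δ γ, max_lt hδ hp.2, fun q hq hδq =>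
    ⟨h q hq (lt_of_le_of_lt (le_max_left _ _) hδq), lt_of_le_of_lt (le_max_right _ _) hδq⟩⟩

theorem Nb_isClosed (α : W) (n : ℕ) : IsClosed[topo S] (Nb S n α) := by
  rw [← @isOpen_compl_iff _ _ (topo S)]
  intro p hp hlim
  obtain ⟨δ, hδ, h⟩ := Nb_closed hS n α p hp hlim
  exact ⟨δ, hδ, fun q hq hδq => h q hq hδq⟩

theorem Iic_isOpen (γ : W) : IsOpen[topo S] {q : W × ℕ | q.1 ≤ γ} := by
  intro p hp hlim
  have hmin : ¬ IsMin p.1 := hlim.1
  rw [not_isMin_iff] at hmin
  obtain ⟨δ, hδ⟩ := hmin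
  exact ⟨δ, hδ, fun q hq _ => (Nb_fst_le hS hq).trans hp⟩

theorem Ioi_isOpen (γ : W) : IsOpen[topo S] {q : W × ℕ | γ < q.1} := by
  intro p hp _
  exact ⟨γ, hp, fun q _ hq => hq⟩

theorem Iic_isClosed (γ : W) : IsClosed[topo S] {q : W × ℕ | q.1 ≤ γ} := by
  rw [← @isOpen_compl_iff _ _ (topo S)]
  have : {q : W × ℕ | q.1 ≤ γ}ᶜ = {q : W × ℕ | γ < q.1} := by
    ext q; simp
  rw [this]
  exact Ioi_isOpen hS γ

theorem Bs_isClosed (γ α : W) (n : ℕ) : IsClosed[topo S] (Bs S γ α n) := by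
  have h1 := Nb_isClosed hS α n
  have h2 : IsClosed[topo S] {q : W × ℕ | γ < q.1} := by
    rw [← @isOpen_compl_iff _ _ (topo S)]
    have : {q : W × ℕ | γ < q.1}ᶜ = {q : W × ℕ | q.1 ≤ γ} := by
      ext q; simp
    rw [this]
    exact Iic_isOpen hS γ
  exact @IsClosed.inter _ _ _ (topo S) h1 h2

theorem level_isOpen (n : ℕ) : IsOpen[topo S] {q : W × ℕ | q.2 < n} := by
  intro p hp hlim
  have hmin : ¬ IsMin p.1 := hlim.1
  rw [not_isMin_iff] at hmin
  obtain ⟨δ, hδ⟩ := hmin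
  exact ⟨δ, hδ, fun q hq _ => lt_of_le_of_lt (Nb_snd_le hS hq) hp⟩

/-- A point that is not of limit height is isolated. -/
theorem singleton_isOpen (p : W × ℕ) (hp : ¬ Order.IsSuccLimit p.1) :
    IsOpen[topo S] {p} := by
  intro q hq hlim
  rw [Set.mem_singleton_iff] at hq
  subst hq
  exact absurd hlim hp

/-- neighbourhood bases -/
theorem mem_nhds_limit (p : W × ℕ) (hlim : Order.IsSuccLimit p.1) (U : Set (W × ℕ)) :
    U ∈ @nhds _ (topo S) p ↔ ∃ γ < p.1, Bs S γ p.1 p.2 ⊆ U := by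
  letI := topo S
  constructor
  · intro hU
    obtain ⟨V, hVU, hV, hpV⟩ := mem_nhds_iff.1 hU
    obtain ⟨δ, hδ, h⟩ := hV p hpV hlim
    exact ⟨δ, hδ, fun q hq => hVU (h q hq.1 hq.2)⟩
  · rintro ⟨γ, hγ, h⟩
    exact Filter.mem_of_superset ((Bs_isOpen hS γ p.1 p.2).mem_nhds
      ⟨self_mem_Nb S p.2 p.1, hγ⟩) h

theorem nhds_isolated (p : W × ℕ) (hp : ¬ Order.IsSuccLimit p.1) :
    @nhds _ (topo S) p = pure p := by
  letI := topo S
  apply le_antisymm _ (pure_le_nhds p)
  rw [Filter.le_pure_iff]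
  exact (singleton_isOpen hS p hp).mem_nhds rfl

theorem t1 : @T1Space _ (topo S) := by
  letI := topo S
  refine ⟨fun x => ?_⟩
  rw [← isOpen_compl_iff]
  intro p hp hlim
  have hpx : p ≠ x := hp
  rcases lt_or_ge x.1 p.1 with h | h
  · refine ⟨x.1, h, fun q _ hq hqx => ?_⟩
    rw [Set.mem_singleton_iff] at hqx
    rw [hqx] at hq
    exact lt_irrefl _ hq
  · have hmin : ¬ IsMin p.1 := hlim.1
    rw [not_isMin_iff] at hmin
    obtain ⟨δ, hδ⟩ := hmin
    refine ⟨δ, hδ, fun q hq _ hqx => ?_⟩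
    rw [Set.mem_singleton_iff] at hqx
    subst hqx
    rcases Nb_le hS _ _ _ hq with h' | h'
    · apply hpx
      rw [h']
    · exact absurd h'.1 (not_lt.2 h)

variable (hc : ∀ a : W, (Set.Iio a).Countable)
include hc

theorem firstCountable : @FirstCountableTopology _ (topo S) := by
  letI := topo S
  refine ⟨fun p => ?_⟩
  by_cases hlim : Order.IsSuccLimit p.1
  · have hb : (nhds p).HasBasis (fun γ : W => γ < p.1) (fun γ => Bs S γ p.1 p.2) :=
      ⟨fun U => mem_nhds_limit hS p hlim U⟩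
    exact Filter.HasCountableBasis.isCountablyGenerated ⟨hb, hc p.1⟩
  · rw [nhds_isolated hS p hlim]
    infer_instance

theorem locallyCountable : @LocallyCountable _ (topo S) := by
  intro p
  refine ⟨{q : W × ℕ | q.1 ≤ p.1}, Iic_isOpen hS p.1, le_rfl, ?_⟩
  have h1 : (Set.Iic p.1).Countable := by
    rw [← Set.Iio_insert]
    exact (hc p.1).insert _
  have : {q : W × ℕ | q.1 ≤ p.1} = (Set.Iic p.1) ×ˢ (Set.univ : Set ℕ) := by
    ext q; simp
  rw [this]
  exact h1.prod Set.countable_univ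

/-- Closed sets: if the `n`-th slice is uncountable, it is hit by limits at level `n + 1`. -/
theorem slice_limit {H : Set (W × ℕ)} (hH : IsClosed[topo S] H) {n : ℕ} {α : W}
    (hl : Order.IsSuccLimit α) (h : ∀ γ < α, ∃ a, (a, n) ∈ H ∧ a ∈ S α ∧ γ < a) :
    (α, n + 1) ∈ H := by
  by_contra hcon
  have hop : IsOpen[topo S] Hᶜ := (@isOpen_compl_iff _ _ (topo S)).2 hH
  obtain ⟨δ, hδ, h'⟩ := hop (α, n + 1) hcon hl
  obtain ⟨a, haH, haS, hδa⟩ := h δ hδ
  refine h' (a, n) ?_ hδa haH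
  right
  exact ⟨hl, a, haS, self_mem_Nb S n a, fun b' _ hb' => hb'⟩

theorem unbounded_of_not_countable {A : Set W} (hA : ¬ A.Countable) (γ : W) :
    ∃ a ∈ A, γ < a := by
  by_contra hcon
  push Not at hcon
  apply hA
  apply Set.Countable.mono (s₂ := Set.Iic γ) (fun a ha => hcon a ha)
  rw [← Set.Iio_insert]
  exact (hc γ).insert _

theorem bounded_of_countable (hW : ¬ (Set.univ : Set W).Countable) {A : Set W} (hA : A.Countable) :
    ∃ γ, ∀ a ∈ A, a ≤ γ := by
  by_contra hcon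
  push Not at hcon
  apply hW
  apply Set.Countable.mono (s₂ := ⋃ a ∈ A, Set.Iio a)
  · intro γ _
    obtain ⟨a, ha, hγ⟩ := hcon γ
    exact Set.mem_iUnion₂.2 ⟨a, ha, hγ⟩
  · exact hA.biUnion (fun a _ => hc a)

theorem tail_not_countable {A : Set W} (hA : ¬ A.Countable) (γ : W) :
    ¬ (A ∩ Set.Ioi γ).Countable := by
  intro h
  apply hA
  apply Set.Countable.mono (s₂ := (A ∩ Set.Ioi γ) ∪ Set.Iic γ)
  · intro a ha
    rcases lt_or_ge γ a with h' | h'
    · exact Or.inl ⟨ha, h'⟩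
    · exact Or.inr h'
  · apply h.union
    rw [← Set.Iio_insert]
    exact (hc γ).insert _

variable (hP : PairGuess S) (hW : ¬ (Set.univ : Set W).Countable)
include hP hW

theorem slice_succ {H : Set (W × ℕ)} (hH : IsClosed[topo S] H) {n : ℕ}
    (hn : ¬ {a : W | (a, n) ∈ H}.Countable) : ¬ {a : W | (a, n + 1) ∈ H}.Countable := by
  intro hcount
  obtain ⟨γ, hγ⟩ := bounded_of_countable hS hc hW hcount
  have hA := tail_not_countable hS hc hn γ
  obtain ⟨α, hl, h, _⟩ := hP _ _ hA hA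
  have hmem : (α, n + 1) ∈ H := by
    apply slice_limit hS hc hH hl
    intro δ hδ
    obtain ⟨a, ha, haS, hδa⟩ := h δ hδ
    exact ⟨a, ha.1, haS, hδa⟩
  have h1 := hγ α hmem
  have hmin : ¬ IsMin α := hl.1
  rw [not_isMin_iff] at hmin
  obtain ⟨δ, hδ⟩ := hmin
  obtain ⟨a, ha, haS, _⟩ := h δ hδ
  exact absurd (lt_of_lt_of_le ha.2 ((hS α hl).1 a haS).le) (not_lt.2 h1)

theorem slice_ge {H : Set (W × ℕ)} (hH : IsClosed[topo S] H) {n : ℕ}
    (hn : ¬ {a : W | (a, n) ∈ H}.Countable) : ∀ m, n ≤ m → ¬ {a : W | (a, m) ∈ H}.Countable := by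
  intro m hm
  induction m, hm using Nat.le_induction with
  | base => exact hn
  | succ m _ ih => exact slice_succ hS hc hP hW hH ih

omit hW in
theorem slice_meet {H K : Set (W × ℕ)} (hH : IsClosed[topo S] H) (hK : IsClosed[topo S] K) {n : ℕ}
    (h1 : ¬ {a : W | (a, n) ∈ H}.Countable) (h2 : ¬ {a : W | (a, n) ∈ K}.Countable) :
    (H ∩ K).Nonempty := by
  obtain ⟨α, hl, h, h'⟩ := hP _ _ h1 h2
  refine ⟨(α, n + 1), ?_, ?_⟩
  · apply slice_limit hS hc hH hl
    intro δ hδ
    obtain ⟨a, ha, haS, hδa⟩ := h δ hδ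
    exact ⟨a, ha, haS, hδa⟩
  · apply slice_limit hS hc hK hl
    intro δ hδ
    obtain ⟨a, ha, haS, hδa⟩ := h' δ hδ
    exact ⟨a, ha, haS, hδa⟩

omit hS hc hP hW [WellFoundedLT W] [LinearOrder W] in
theorem exists_slice {H : Set (W × ℕ)} (hH : ¬ H.Countable) :
    ∃ n, ¬ {a : W | (a, n) ∈ H}.Countable := by
  by_contra hcon
  push Not at hcon
  apply hH
  apply Set.Countable.mono (s₂ := ⋃ n : ℕ, (fun a : W => (a, n)) '' {a : W | (a, n) ∈ H})
  · intro p hp
    exact Set.mem_iUnion.2 ⟨p.2, p.1, hp, rfl⟩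
  · exact Set.countable_iUnion (fun n => (hcon n).image _)

/-- One of two disjoint closed sets is countable. -/
theorem countable_or {H K : Set (W × ℕ)} (hH : IsClosed[topo S] H) (hK : IsClosed[topo S] K)
    (hd : Disjoint H K) : H.Countable ∨ K.Countable := by
  by_contra hcon
  push Not at hcon
  obtain ⟨n, hn⟩ := exists_slice hcon.1
  obtain ⟨m, hm⟩ := exists_slice hcon.2
  have h1 := slice_ge hS hc hP hW hH hn (max n m) (le_max_left _ _)
  have h2 := slice_ge hS hc hP hW hK hm (max n m) (le_max_right _ _)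
  obtain ⟨x, hx⟩ := slice_meet hS hc hP hH hK h1 h2
  exact (Set.disjoint_left.1 hd) hx.1 hx.2

omit hP hW in
/-- Separation of a countable closed set from a disjoint closed set by a clopen set. -/
theorem separate_countable (hW : ¬ (Set.univ : Set W).Countable)
    {H K : Set (W × ℕ)} (hH : IsClosed[topo S] H) (hK : IsClosed[topo S] K)
    (hd : Disjoint H K) (hcount : H.Countable) :
    ∃ O : Set (W × ℕ), IsOpen[topo S] O ∧ IsClosed[topo S] O ∧ H ⊆ O ∧ Disjoint O K := by
  letI := topo S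
  obtain ⟨γ, hγ⟩ := bounded_of_countable hS hc hW (hcount.image Prod.fst)
  set G : Set (W × ℕ) := {q | q.1 ≤ γ} with hG
  have hGo : IsOpen G := Iic_isOpen hS γ
  have hGc : IsClosed G := Iic_isClosed hS γ
  have hHG : H ⊆ G := fun p hp => hγ p.1 ⟨p, hp, rfl⟩
  have hGcount : G.Countable := by
    have h1 : (Set.Iic γ).Countable := by
      rw [← Set.Iio_insert]
      exact (hc γ).insert _
    have : G = (Set.Iic γ) ×ˢ (Set.univ : Set ℕ) := by
      ext q; simp [hG]
    rw [this]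
    exact h1.prod Set.countable_univ
  -- clopen neighbourhoods missing `H` or `K`
  have hV : ∀ p : W × ℕ, ∃ V : Set (W × ℕ), IsClopen V ∧ p ∈ V ∧ (Disjoint V H ∨ Disjoint V K) := by
    intro p
    have key : ∀ F : Set (W × ℕ), IsClosed F → p ∉ F →
        ∃ V : Set (W × ℕ), IsClopen V ∧ p ∈ V ∧ Disjoint V F := by
      intro F hF hpF
      have hop : IsOpen Fᶜ := isOpen_compl_iff.2 hF
      by_cases hlim : Order.IsSuccLimit p.1
      · obtain ⟨δ, hδ, h⟩ := hop p hpF hlim
        refine ⟨Bs S δ p.1 p.2, ⟨Bs_isClosed hS δ p.1 p.2, Bs_isOpen hS δ p.1 p.2⟩,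
          ⟨self_mem_Nb S p.2 p.1, hδ⟩, ?_⟩
        rw [Set.disjoint_left]
        intro q hq hqF
        exact h q hq.1 hq.2 hqF
      · haveI : T1Space (W × ℕ) := t1 hS
        refine ⟨{p}, ⟨isClosed_singleton, singleton_isOpen hS p hlim⟩, rfl, ?_⟩
        rw [Set.disjoint_singleton_left]
        exact hpF
    by_cases hpH : p ∈ H
    · have hpK : p ∉ K := fun h => (Set.disjoint_left.1 hd) hpH h
      obtain ⟨V, h1, h2, h3⟩ := key K hK hpK
      exact ⟨V, h1, h2, Or.inr h3⟩
    · obtain ⟨V, h1, h2, h3⟩ := key H hH hpH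
      exact ⟨V, h1, h2, Or.inl h3⟩
  rcases G.eq_empty_or_nonempty with hGe | hGne
  · refine ⟨∅, isOpen_empty, isClosed_empty, ?_, ?_⟩
    · rw [← hGe]; exact hHG
    · exact Set.disjoint_left.2 (fun _ h => absurd h (Set.notMem_empty _))
  · obtain ⟨e, he⟩ := hGcount.exists_eq_range hGne
    choose V hVc hVm hVd using hV
    -- disjointification
    let Y : ℕ → Set (W × ℕ) := fun i => (V (e i) ∩ G) \ ⋃ j ∈ Finset.range i, V (e j)
    have hYclopen : ∀ i, IsClopen (Y i) := by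
      intro i
      have h1 : IsClopen (V (e i) ∩ G) := (hVc (e i)).inter ⟨hGc, hGo⟩
      have h2 : IsClopen (⋃ j ∈ Finset.range i, V (e j)) := by
        apply Set.Finite.isClopen_biUnion (Finset.finite_toSet _)
        intro j _
        exact hVc (e j)
      exact h1.diff h2
    have hcover : ∀ p ∈ G, ∃ i, p ∈ Y i := by
      intro p hp
      have hex : ∃ i, p ∈ V (e i) := by
        rw [he] at hp
        obtain ⟨i, hi⟩ := hp
        exact ⟨i, by rw [hi]; exact hVm p⟩
      classical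
      refine ⟨Nat.find hex, ⟨Nat.find_spec hex, hp⟩, ?_⟩
      intro hcon
      obtain ⟨j, hj, hpj⟩ := Set.mem_iUnion₂.1 hcon
      exact Nat.find_min hex (Finset.mem_range.1 hj) hpj
    have hdisj : ∀ i j p, p ∈ Y i → p ∈ Y j → i = j := by
      intro i j p hi hj
      rcases lt_trichotomy i j with h | h | h
      · exact absurd (Set.mem_iUnion₂.2 ⟨i, Finset.mem_range.2 h, hi.1.1⟩) hj.2
      · exact h
      · exact absurd (Set.mem_iUnion₂.2 ⟨j, Finset.mem_range.2 h, hj.1.1⟩) hi.2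
    let O : Set (W × ℕ) := ⋃ i ∈ {i | ¬ Disjoint (V (e i)) H}, Y i
    have hOo : IsOpen O := isOpen_biUnion (fun i _ => (hYclopen i).isOpen)
    have hOcompl : Oᶜ = Gᶜ ∪ ⋃ i ∈ {i | Disjoint (V (e i)) H}, Y i := by
      ext p
      constructor
      · intro hp
        by_cases hpG : p ∈ G
        · right
          obtain ⟨i, hi⟩ := hcover p hpG
          refine Set.mem_iUnion₂.2 ⟨i, ?_, hi⟩
          by_contra hcon
          exact hp (Set.mem_iUnion₂.2 ⟨i, hcon, hi⟩)
        · exact Or.inl hpG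
      · rintro (hp | hp) hpO
        · obtain ⟨i, _, hi⟩ := Set.mem_iUnion₂.1 hpO
          exact hp hi.1.2
        · obtain ⟨i, hi, hpi⟩ := Set.mem_iUnion₂.1 hp
          obtain ⟨j, hj, hpj⟩ := Set.mem_iUnion₂.1 hpO
          have := hdisj i j p hpi hpj
          subst this
          exact hj hi
    refine ⟨O, hOo, ?_, ?_, ?_⟩
    · rw [← isOpen_compl_iff, hOcompl]
      exact (isOpen_compl_iff.2 hGc).union (isOpen_biUnion (fun i _ => (hYclopen i).isOpen))
    · intro p hp
      obtain ⟨i, hi⟩ := hcover p (hHG hp)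
      refine Set.mem_iUnion₂.2 ⟨i, ?_, hi⟩
      intro hcon
      exact (Set.disjoint_left.1 hcon) hi.1.1 hp
    · rw [Set.disjoint_left]
      intro p hp hpK
      obtain ⟨i, hi, hpi⟩ := Set.mem_iUnion₂.1 hp
      rcases hVd (e i) with h | h
      · exact hi h
      · exact (Set.disjoint_left.1 h) hpi.1.1 hpK

theorem normal : @NormalSpace _ (topo S) := by
  letI := topo S
  refine ⟨fun H K hH hK hd => ?_⟩
  rcases countable_or hS hc hP hW hH hK hd with h | h
  · obtain ⟨O, h1, h2, h3, h4⟩ := separate_countable hS hc hW hH hK hd h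
    refine ⟨O, Oᶜ, h1, isOpen_compl_iff.2 h2, h3, ?_, disjoint_compl_right⟩
    intro p hp hpO
    exact (Set.disjoint_left.1 h4) hpO hp
  · obtain ⟨O, h1, h2, h3, h4⟩ := separate_countable hS hc hW hK hH hd.symm h
    refine ⟨Oᶜ, O, isOpen_compl_iff.2 h2, h1, ?_, h3, disjoint_compl_left⟩
    intro p hp hpO
    exact (Set.disjoint_left.1 h4) hpO hp

theorem notMeta : @NotCtblyMetacompact _ (topo S) := by
  letI := topo S
  refine ⟨fun n => {p | n ≤ p.2}, ?_, ?_, ?_, ?_⟩
  · intro n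
    rw [← isOpen_compl_iff]
    have : {p : W × ℕ | n ≤ p.2}ᶜ = {p | p.2 < n} := by ext p; simp
    rw [this]
    exact level_isOpen hS n
  · intro n p hp
    exact (Nat.le_succ n).trans hp
  · ext p
    simp only [Set.mem_iInter, Set.mem_empty_iff_false, iff_false, not_forall]
    exact ⟨p.2 + 1, by simp⟩
  · intro U hU hDU
    by_contra hcon
    rw [Set.not_nonempty_iff_eq_empty] at hcon
    have hF : ∀ n, (U n)ᶜ.Countable := by
      intro n
      by_contra hnc
      have hcl : IsClosed (U n)ᶜ := isClosed_compl_iff.2 (hU n)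
      obtain ⟨m, hm⟩ := exists_slice hnc
      have h1 := slice_ge hS hc hP hW hcl hm (max m n) (le_max_left _ _)
      apply h1
      have : {a : W | (a, max m n) ∈ (U n)ᶜ} = ∅ := by
        ext a
        simp only [Set.mem_compl_iff, Set.mem_empty_iff_false, iff_false, not_not]
        change (a, max m n) ∈ (U n)ᶜ → False
        intro h
        exact h (hDU n (le_max_right m n))
      rw [this]
      exact Set.countable_empty
    apply hW
    have huniv : (Set.univ : Set (W × ℕ)) = ⋃ n, (U n)ᶜ := by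
      rw [← Set.compl_iInter, hcon, Set.compl_empty]
    have h2 : (Set.univ : Set (W × ℕ)).Countable := by
      rw [huniv]
      exact Set.countable_iUnion hF
    have h3 := h2.image Prod.fst
    apply h3.mono
    intro a _
    exact ⟨(a, 0), trivial, rfl⟩

end Pool.Agent.Helper185.Dow
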