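import Pool.Agent.Helper185.Dow2

/-!
# Guessing principles on `ω₁` and the pair-guessing ladder system
-/

namespace Pool.Agent.Helper185.Dow

open Set Topology

/-- A well order of type `ω₁`. -/
abbrev Om1 : Type := (Cardinal.aleph 1).ord.ToType

/-- The club principle `♣`. -/
def ClubPrinciple : Prop :=
  ∃ S : Om1 → Set Om1, (∀ α, Order.IsSuccLimit α → IsLadder (S α) α) ∧
    ∀ A : Set Om1, ¬ A.Countable → ∃ α, Order.IsSuccLimit α ∧ S α ⊆ A

/-- Eventual dominance: `g ≤* f`. -/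
def EvDom (g f : ℕ → ℕ) : Prop := ∀ᶠ n in Filter.atTop, g n ≤ f n

/-- The parametrized diamond `♦(𝔟)` of Moore, Hrušák and Džamonja. -/
def DiamondB : Prop :=
  ∀ F : (δ : Om1) → (Set.Iio δ → Bool) → (ℕ → ℕ), (∀ δ, Measurable (F δ)) →
    ∃ g : Om1 → (ℕ → ℕ), ∀ f : Om1 → Bool,
      IsStationary {δ : Om1 | ¬ EvDom (g δ) (F δ (fun ξ => f ξ.1))}

/-- A ladder system that guesses pairs of uncountable sets. -/
def PairGuessing : Prop :=
  ∃ S : Om1 → Set Om1, (∀ α, Order.IsSuccLimit α → IsLadder (S α) α) ∧ PairGuess S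

theorem om1_Iio (a : Om1) : (Set.Iio a).Countable := by
  rw [← Cardinal.le_aleph0_iff_set_countable, ← Cardinal.lt_aleph_one_iff]
  exact Cardinal.mk_Iio_toType_ord_lt a

theorem om1_mk : Cardinal.mk Om1 = Cardinal.aleph 1 := Cardinal.mk_ord_toType _

theorem om1_not_countable : ¬ (Set.univ : Set Om1).Countable := by
  intro h
  rw [← Cardinal.le_aleph0_iff_set_countable, Cardinal.mk_univ, om1_mk] at h
  exact absurd h (not_le.2 Cardinal.aleph0_lt_aleph_one)

instance om1_nonempty : Nonempty Om1 := by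
  by_contra h
  rw [not_nonempty_iff] at h
  exact om1_not_countable (Set.countable_univ_iff.2 inferInstance)

theorem exists_gt {A : Set Om1} (hA : A.Countable) : ∃ γ, ∀ a ∈ A, a < γ := by
  by_contra hcon
  push Not at hcon
  apply om1_not_countable
  apply Set.Countable.mono (s₂ := ⋃ a ∈ A, Set.Iic a)
  · intro γ _
    obtain ⟨a, ha, hγ⟩ := hcon γ
    exact Set.mem_iUnion₂.2 ⟨a, ha, hγ⟩
  · refine hA.biUnion (fun a _ => ?_)
    rw [← Set.Iio_insert]
    exact (om1_Iio a).insert _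

theorem exists_mem_gt {A : Set Om1} (hA : ¬ A.Countable) (γ : Om1) : ∃ a ∈ A, γ < a := by
  by_contra hcon
  push Not at hcon
  apply hA
  apply Set.Countable.mono (s₂ := Set.Iic γ) (fun a ha => hcon a ha)
  rw [← Set.Iio_insert]
  exact (om1_Iio γ).insert _

/-- The points closed under a function form a club. -/
theorem closed_isClub (h : Om1 → Om1) (γ₀ : Om1) :
    IsClub {δ : Om1 | γ₀ < δ ∧ ∀ ξ < δ, h ξ < δ} := by
  constructor
  · intro t ht hne _ a ha
    obtain ⟨δ, hδ⟩ := hne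
    refine ⟨lt_of_lt_of_le (ht hδ).1 (ha.1 hδ), fun ξ hξ => ?_⟩
    obtain ⟨δ', hδ', hlt⟩ := (lt_isLUB_iff ha).1 hξ
    exact lt_of_lt_of_le ((ht hδ').2 ξ hlt) (ha.1 hδ')
  · intro x
    have hstep : ∀ y : Om1, ∃ z, y < z ∧ ∀ ξ ≤ y, h ξ < z := by
      intro y
      have hc : (insert y (h '' Set.Iic y)).Countable := by
        apply Set.Countable.insert
        apply Set.Countable.image
        rw [← Set.Iio_insert]
        exact (om1_Iio y).insert _
      obtain ⟨z, hz⟩ := exists_gt hc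
      exact ⟨z, hz y (Set.mem_insert _ _),
        fun ξ hξ => hz _ (Set.mem_insert_of_mem _ ⟨ξ, hξ, rfl⟩)⟩
    choose nx hnx1 hnx2 using hstep
    let g : ℕ → Om1 := fun n => Nat.rec (motive := fun _ => Om1) (max x γ₀) (fun _ y => nx y) n
    have hg : ∀ n, g (n + 1) = nx (g n) := fun n => rfl
    obtain ⟨b, hb⟩ := exists_gt (Set.countable_range g)
    obtain ⟨δ, hδ, hmin⟩ := WellFounded.has_min (wellFounded_lt (α := Om1))
      {b | ∀ n, g n < b} ⟨b, fun n => hb _ ⟨n, rfl⟩⟩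
    refine ⟨δ, ⟨lt_of_le_of_lt (le_max_right x γ₀) (hδ 0), fun ξ hξ => ?_⟩,
      (lt_of_le_of_lt (le_max_left x γ₀) (hδ 0)).le⟩
    have : ∃ n, ξ ≤ g n := by
      by_contra hcon
      push Not at hcon
      exact hmin ξ hcon hξ
    obtain ⟨n, hn⟩ := this
    exact (hnx2 (g n) ξ hn).trans (hδ (n + 1))

theorem closed_isLimit {h : Om1 → Om1} (hh : ∀ ξ, ξ < h ξ) {γ₀ δ : Om1}
    (hδ : γ₀ < δ ∧ ∀ ξ < δ, h ξ < δ) : Order.IsSuccLimit δ := by
  refine ⟨?_, ?_⟩
  · rw [not_isMin_iff]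
    exact ⟨γ₀, hδ.1⟩
  · intro a ha
    have h1 := hδ.2 a ha.lt
    exact ha.2 (hh a) h1

/-- `♣` gives a ladder system guessing pairs of uncountable sets. -/
theorem pairGuessing_of_club (hC : ClubPrinciple) : PairGuessing := by
  classical
  obtain ⟨S, hS, hguess⟩ := hC
  -- an injection of pairs
  have hinj : ∃ ψ : Om1 × Om1 → Om1, Function.Injective ψ := by
    have h1 : Cardinal.mk (Om1 × Om1) ≤ Cardinal.mk Om1 := by
      rw [Cardinal.mk_prod, Cardinal.lift_id, om1_mk,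
        Cardinal.mul_eq_self (Cardinal.aleph0_le_aleph 1)]
    obtain ⟨ψ⟩ := h1
    exact ⟨ψ, ψ.injective⟩
  obtain ⟨ψ, hψ⟩ := hinj
  let T : Om1 → Set Om1 := fun α => {a | ∃ b, ψ (a, b) ∈ S α ∨ ψ (b, a) ∈ S α}
  refine ⟨fun α => if IsLadder (T α) α then T α else S α, ?_, ?_⟩
  · intro α hα
    simp only
    by_cases h : IsLadder (T α) α
    · rw [if_pos h]; exact h
    · rw [if_neg h]; exact hS α hα
  · intro A B hA hB
    -- choose the pairs
    have hch : ∀ γ : Om1, ∃ p : Om1 × Om1, p.1 ∈ A ∧ p.2 ∈ B ∧ γ < p.1 ∧ γ < p.2 ∧ γ < ψ p := by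
      intro γ
      obtain ⟨a, haA, ha⟩ := exists_mem_gt hA γ
      have hB' : ¬ ((fun b => ψ (a, b)) '' (B ∩ Set.Ioi γ)).Countable := by
        intro hc
        have h1 : (B ∩ Set.Ioi γ).Countable :=
          Set.countable_of_injective_of_countable_image
            (fun x _ y _ hxy => (Prod.ext_iff.1 (hψ hxy)).2) hc
        apply hB
        apply Set.Countable.mono (s₂ := (B ∩ Set.Ioi γ) ∪ Set.Iic γ)
        · intro a ha
          rcases lt_or_ge γ a with h' | h'
          · exact Or.inl ⟨ha, h'⟩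
          · exact Or.inr h'
        · apply h1.union
          rw [← Set.Iio_insert]
          exact (om1_Iio γ).insert _
      obtain ⟨_, ⟨b, hb, rfl⟩, hb'⟩ := exists_mem_gt hB' γ
      exact ⟨(a, b), haA, hb.1, ha, hb.2, hb'⟩
    choose p hpA hpB hp1 hp2 hp3 using hch
    let h : Om1 → Om1 := fun γ => max (max (p γ).1 (p γ).2) (ψ (p γ))
    have hh : ∀ ξ, ξ < h ξ := fun ξ =>
      lt_of_lt_of_le (hp3 ξ) (le_max_right _ _)
    let C : Set Om1 := {δ | ∀ ξ < δ, h ξ < δ}
    have hCunb : ¬ C.Countable := by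
      intro hc
      obtain ⟨γ, hγ⟩ := exists_gt hc
      obtain ⟨δ, hδ, hγδ⟩ := (closed_isClub h γ).isCofinal γ
      exact absurd (hγ δ hδ.2) (not_lt.2 hγδ)
    let E : Set Om1 := (fun γ => ψ (p γ)) '' C
    have hmono : ∀ γ ∈ C, ∀ γ' ∈ C, γ < γ' → ψ (p γ) < ψ (p γ') := by
      intro γ _ γ' hγ' hlt
      exact (lt_of_le_of_lt (le_max_right _ _) (hγ' γ hlt)).trans (hp3 γ')
    have hE : ¬ E.Countable := by
      intro hc
      apply hCunb
      apply Set.countable_of_injective_of_countable_image _ hc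
      intro x hx y hy hxy
      rcases lt_trichotomy x y with h | h | h
      · exact absurd hxy (hmono x hx y hy h).ne
      · exact h
      · exact absurd hxy.symm (hmono y hy x hx h).ne
    obtain ⟨α, hα, hSE⟩ := hguess E hE
    have hSα := hS α hα
    -- decode elements of `S α`
    have hdec : ∀ s ∈ S α, ∃ γ ∈ C, s = ψ (p γ) := by
      intro s hs
      obtain ⟨γ, hγ, h⟩ := hSE hs
      exact ⟨γ, hγ, h.symm⟩
    -- if `s < s'` in `S α`, `s = ψ (p γ)`, `s' = ψ (p γ')`, then everything of `γ` is below `γ'`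
    have hsep : ∀ γ ∈ C, ∀ γ' ∈ C, ψ (p γ) < ψ (p γ') → h γ < γ' := by
      intro γ hγ γ' hγ' hlt
      apply hγ' γ
      by_contra hcon
      rcases (not_lt.1 hcon).lt_or_eq with h | h
      · exact absurd (hmono γ' hγ' γ hγ h) (not_lt.2 hlt.le)
      · rw [h] at hlt; exact lt_irrefl _ hlt
    -- next element
    have hnext : ∀ s ∈ S α, ∃ s' ∈ S α, s < s' := fun s hs => hSα.2.1 s (hSα.1 s hs)
    have hTmem : ∀ a ∈ T α, ∃ γ ∈ C, ψ (p γ) ∈ S α ∧ (a = (p γ).1 ∨ a = (p γ).2) := by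
      rintro a ⟨b, hb | hb⟩
      · obtain ⟨γ, hγ, he⟩ := hdec _ hb
        refine ⟨γ, hγ, he ▸ hb, Or.inl ?_⟩
        rw [← hψ he]
      · obtain ⟨γ, hγ, he⟩ := hdec _ hb
        refine ⟨γ, hγ, he ▸ hb, Or.inr ?_⟩
        rw [← hψ he]
    have h1mem : ∀ γ, ψ (p γ) ∈ S α → (p γ).1 ∈ T α := fun γ hγ => ⟨(p γ).2, Or.inl hγ⟩
    have h2mem : ∀ γ, ψ (p γ) ∈ S α → (p γ).2 ∈ T α := fun γ hγ => ⟨(p γ).1, Or.inr hγ⟩
    have hle : ∀ γ a, (a = (p γ).1 ∨ a = (p γ).2) → a ≤ h γ := by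
      rintro γ a (ha | ha)
      · rw [ha]; exact (le_max_left _ _).trans (le_max_left _ _)
      · rw [ha]; exact (le_max_right _ _).trans (le_max_left _ _)
    have hge : ∀ γ a, (a = (p γ).1 ∨ a = (p γ).2) → γ < a := by
      rintro γ a (ha | ha)
      · rw [ha]; exact hp1 γ
      · rw [ha]; exact hp2 γ
    have hcof : ∀ γ < α, ∃ δ ∈ C, γ < δ ∧ ψ (p δ) ∈ S α := by
      intro γ hγ
      obtain ⟨s, hs, hγs⟩ := hSα.2.1 γ hγ
      obtain ⟨s', hs', hss'⟩ := hnext s hs
      obtain ⟨γ₁, hγ₁, h1⟩ := hdec s hs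
      obtain ⟨γ₂, hγ₂, h2⟩ := hdec s' hs'
      subst h1; subst h2
      have h3 := hsep γ₁ hγ₁ γ₂ hγ₂ hss'
      refine ⟨γ₂, hγ₂, ?_, hs'⟩
      exact hγs.trans (lt_of_le_of_lt (le_max_right _ _) h3)
    have hTlad : IsLadder (T α) α := by
      refine ⟨?_, ?_, ?_⟩
      · intro a ha
        obtain ⟨γ, hγ, hs, hor⟩ := hTmem a ha
        obtain ⟨s', hs', hss'⟩ := hnext _ hs
        obtain ⟨γ', hγ', h1⟩ := hdec s' hs'
        subst h1
        have h2 := hsep γ hγ γ' hγ' hss'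
        have h3 := hSα.1 _ hs'
        exact (lt_of_le_of_lt (hle γ a hor) h2).trans ((hp3 γ').trans h3)
      · intro γ hγ
        obtain ⟨δ, hδ, hγδ, hs⟩ := hcof γ hγ
        exact ⟨(p δ).1, h1mem δ hs, hγδ.trans (hp1 δ)⟩
      · intro γ hγ
        obtain ⟨δ, hδ, hγδ, hs⟩ := hcof γ hγ
        obtain ⟨s', hs', hss'⟩ := hnext _ hs
        have hfin := hSα.2.2 s' (hSα.1 _ hs')
        have hsub : T α ∩ Set.Iio γ ⊆
            (fun s => (p (Function.invFun (fun γ => ψ (p γ)) s)).1) '' (S α ∩ Set.Iio s') ∪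
            (fun s => (p (Function.invFun (fun γ => ψ (p γ)) s)).2) '' (S α ∩ Set.Iio s') := by
          rintro a ⟨haT, haγ⟩
          obtain ⟨γ₁, hγ₁, hs₁, hor⟩ := hTmem a haT
          have hlt : ψ (p γ₁) < s' := by
            by_contra hcon
            have h4 : ψ (p δ) < ψ (p γ₁) := lt_of_lt_of_le hss' (not_lt.1 hcon)
            have h5 := hsep δ hδ γ₁ hγ₁ h4
            have h6 : δ < γ₁ := (hh δ).trans h5
            have h7 := hge γ₁ a hor
            exact absurd haγ (not_lt.2 ((hγδ.trans h6).trans h7).le)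
          have hinv : ψ (p (Function.invFun (fun γ => ψ (p γ)) (ψ (p γ₁)))) = ψ (p γ₁) :=
            Function.invFun_eq (f := fun γ => ψ (p γ)) ⟨γ₁, rfl⟩
          have hpe := hψ hinv
          rcases hor with ha | ha
          · left
            exact ⟨ψ (p γ₁), ⟨hs₁, hlt⟩, by simp only; rw [hpe, ha]⟩
          · right
            exact ⟨ψ (p γ₁), ⟨hs₁, hlt⟩, by simp only; rw [hpe, ha]⟩
        exact ((hfin.image _).union (hfin.image _)).subset hsub
    refine ⟨α, hα, ?_, ?_⟩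
    · intro γ hγ
      obtain ⟨δ, hδ, hγδ, hs⟩ := hcof γ hγ
      refine ⟨(p δ).1, hpA δ, ?_, hγδ.trans (hp1 δ)⟩
      simp only
      rw [if_pos hTlad]
      exact h1mem δ hs
    · intro γ hγ
      obtain ⟨δ, hδ, hγδ, hs⟩ := hcof γ hγ
      refine ⟨(p δ).2, hpB δ, ?_, hγδ.trans (hp2 δ)⟩
      simp only
      rw [if_pos hTlad]
      exact h2mem δ hs

/-- `♦(𝔟)` gives a ladder system guessing pairs of uncountable sets. -/
theorem pairGuessing_of_diamondB (hD : DiamondB) : PairGuessing := by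
  classical
  -- coding of pairs of subsets
  have hinj : ∃ φ : Om1 × Bool → Om1, Function.Injective φ := by
    have h1 : Cardinal.mk (Om1 × Bool) ≤ Cardinal.mk Om1 := by
      rw [Cardinal.mk_prod, Cardinal.lift_id, Cardinal.lift_id, om1_mk]
      apply Cardinal.mul_le_of_le (Cardinal.aleph0_le_aleph 1) le_rfl
      exact (Cardinal.mk_le_aleph0).trans (Cardinal.aleph0_le_aleph 1)
    obtain ⟨φ⟩ := h1
    exact ⟨φ, φ.injective⟩
  obtain ⟨φ, hφ⟩ := hinj
  -- enumerations of initial segments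
  have hen : ∀ δ : Om1, ∃ e : Om1 → ℕ, Set.InjOn e (Set.Iio δ) := by
    intro δ
    obtain ⟨e, he⟩ := Set.countable_iff_exists_injOn.1 (om1_Iio δ)
    exact ⟨e, he⟩
  choose e he using hen
  -- decoding
  let dec : (δ : Om1) → (Set.Iio δ → Bool) → Bool → Om1 → Prop := fun δ f b ξ =>
    ∃ h : φ (ξ, b) < δ, f ⟨φ (ξ, b), h⟩ = true
  -- the predicate defining `F`
  -- `above δ n ξ` : `ξ` is above all `η < δ` with `e δ η ≤ n`
  let above : Om1 → ℕ → Om1 → Prop := fun δ n ξ => ∀ η < δ, e δ η ≤ n → η ≤ ξ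
  let Pr : (δ : Om1) → (Set.Iio δ → Bool) → ℕ → ℕ → Prop := fun δ f n m =>
    ∀ b : Bool, ∃ ξ < δ, above δ n ξ ∧ e δ ξ ≤ m ∧ dec δ f b ξ
  let F : (δ : Om1) → (Set.Iio δ → Bool) → (ℕ → ℕ) := fun δ f n => sInf {m | Pr δ f n m}
  have hF : ∀ δ, Measurable (F δ) := by
    intro δ
    rw [measurable_pi_iff]
    intro n
    have hdec : ∀ b ξ, MeasurableSet {f : Set.Iio δ → Bool | dec δ f b ξ} := by
      intro b ξ
      by_cases h : φ (ξ, b) < δ
      · have : {f : Set.Iio δ → Bool | dec δ f b ξ} =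
            (fun f : Set.Iio δ → Bool => f ⟨φ (ξ, b), h⟩) ⁻¹' {true} := by
          ext f
          simp only [Set.mem_ofPred_eq, Set.mem_preimage, Set.mem_singleton_iff]
          constructor
          · rintro ⟨_, h'⟩; exact h'
          · intro h'; exact ⟨h, h'⟩
        rw [this]
        exact (measurable_pi_apply _) (measurableSet_singleton _)
      · have : {f : Set.Iio δ → Bool | dec δ f b ξ} = ∅ := by
          ext f
          simp only [Set.mem_ofPred_eq, Set.mem_empty_iff_false, iff_false]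
          rintro ⟨h', _⟩
          exact h h'
        rw [this]
        exact MeasurableSet.empty
    have hPr : ∀ m, MeasurableSet {f : Set.Iio δ → Bool | Pr δ f n m} := by
      intro m
      have : {f : Set.Iio δ → Bool | Pr δ f n m} =
          ⋂ b : Bool, ⋃ ξ ∈ {ξ | ξ ∈ Set.Iio δ ∧ above δ n ξ ∧ e δ ξ ≤ m},
            {f : Set.Iio δ → Bool | dec δ f b ξ} := by
        ext f
        simp only [Set.mem_ofPred_eq, Set.mem_iInter, Set.mem_iUnion, Pr, exists_prop, Set.mem_Iio]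
        constructor
        · intro h b
          obtain ⟨ξ, h1, h2, h3, h4⟩ := h b
          exact ⟨ξ, ⟨h1, h2, h3⟩, h4⟩
        · intro h b
          obtain ⟨ξ, ⟨h1, h2, h3⟩, h4⟩ := h b
          exact ⟨ξ, h1, h2, h3, h4⟩
      rw [this]
      refine MeasurableSet.iInter (fun b => ?_)
      refine MeasurableSet.biUnion ?_ (fun ξ _ => hdec b ξ)
      exact (om1_Iio δ).mono (fun ξ hξ => hξ.1)
    apply measurable_to_countable'
    intro k
    have : (fun f : Set.Iio δ → Bool => F δ f n) ⁻¹' {k} =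
        ({f | Pr δ f n k} ∩ ⋂ m ∈ {m | m < k}, {f | Pr δ f n m}ᶜ) ∪
        (if k = 0 then ⋂ m : ℕ, {f | Pr δ f n m}ᶜ else ∅) := by
      ext f
      simp only [Set.mem_preimage, Set.mem_singleton_iff, Set.mem_union, Set.mem_inter_iff,
        Set.mem_iInter, Set.mem_compl_iff, Set.mem_ofPred_eq, F]
      by_cases hne : {m | Pr δ f n m}.Nonempty
      · constructor
        · intro h
          left
          rw [← h]
          exact ⟨Nat.sInf_mem hne, fun m hm => Nat.notMem_of_lt_sInf hm⟩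
        · rintro (⟨h1, h2⟩ | h)
          · have h1' : k ∈ {m | Pr δ f n m} := h1
            apply le_antisymm (Nat.sInf_le h1')
            by_contra hcon
            exact h2 _ (not_le.1 hcon) (Nat.sInf_mem hne)
          · by_cases hk : k = 0
            · rw [if_pos hk] at h
              obtain ⟨m, hm⟩ := hne
              exact absurd hm (Set.mem_iInter.1 h m)
            · rw [if_neg hk] at h
              exact absurd h (Set.notMem_empty _)
      · rw [Set.not_nonempty_iff_eq_empty] at hne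
        constructor
        · intro h
          right
          rw [hne, Nat.sInf_empty] at h
          rw [if_pos h.symm]
          refine Set.mem_iInter.2 (fun m hm => ?_)
          have : m ∈ (∅ : Set ℕ) := by rw [← hne]; exact hm
          exact absurd this (Set.notMem_empty _)
        · rintro (⟨h1, _⟩ | h)
          · have : k ∈ (∅ : Set ℕ) := by rw [← hne]; exact h1
            exact absurd this (Set.notMem_empty _)
          · by_cases hk : k = 0
            · rw [hne, Nat.sInf_empty, hk]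
            · rw [if_neg hk] at h
              exact absurd h (Set.notMem_empty _)
    rw [this]
    apply MeasurableSet.union
    · apply (hPr k).inter
      exact MeasurableSet.biInter (Set.to_countable _) (fun m _ => (hPr m).compl)
    · split_ifs
      · exact MeasurableSet.iInter (fun m => (hPr m).compl)
      · exact MeasurableSet.empty
  obtain ⟨g, hg⟩ := hD F hF
  -- the ladders
  let L : Om1 → Set Om1 := fun δ => {ξ | ξ < δ ∧ ∃ n, above δ n ξ ∧ e δ ξ ≤ g δ n}
  -- a default ladder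
  let L' : Om1 → Set Om1 := fun δ => {ξ | ξ < δ ∧ ∃ n, above δ n ξ ∧ e δ ξ ≤ g δ n} ∪
    {ξ | ξ < δ ∧ above δ (e δ ξ) ξ}
  have hfinle : ∀ δ k, {ξ | ξ < δ ∧ e δ ξ ≤ k}.Finite := by
    intro δ k
    apply Set.Finite.of_finite_image (f := e δ)
    · exact (Set.finite_Iic k).subset (by rintro _ ⟨ξ, hξ, rfl⟩; exact hξ.2)
    · intro x hx y hy hxy
      exact he δ hx.1 hy.1 hxy
  have hL' : ∀ δ, Order.IsSuccLimit δ → IsLadder (L' δ) δ := by
    intro δ hδ
    refine ⟨?_, ?_, ?_⟩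
    · rintro ξ (hξ | hξ)
      · exact hξ.1
      · exact hξ.1
    · intro γ hγ
      -- records of `e δ` are cofinal
      have hne : {ξ | ξ < δ ∧ γ < ξ}.Nonempty := by
        by_contra hcon
        rw [Set.not_nonempty_iff_eq_empty] at hcon
        apply hδ.2 γ
        refine ⟨hγ, fun c hc hcδ => ?_⟩
        have : c ∈ (∅ : Set Om1) := by rw [← hcon]; exact ⟨hcδ, hc⟩
        exact absurd this (Set.notMem_empty _)
      -- take the one with the least `e`-value among those above everything with small value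
      obtain ⟨ξ₀, hξ₀⟩ := hne
      have hfin := hfinle δ (max (e δ ξ₀) (e δ γ))
      have hne' : {ξ | ξ < δ ∧ e δ ξ ≤ max (e δ ξ₀) (e δ γ)}.Nonempty :=
        ⟨ξ₀, hξ₀.1, le_max_left _ _⟩
      obtain ⟨ξ, hξ, hmax⟩ := Set.exists_max_image _ id hfin hne'
      refine ⟨ξ, Or.inr ⟨hξ.1, ?_⟩, lt_of_lt_of_le hξ₀.2 (hmax ξ₀ ⟨hξ₀.1, le_max_left _ _⟩)⟩
      intro η hη hle
      exact hmax η ⟨hη, hle.trans hξ.2⟩
    · intro γ hγ
      have key : ∀ n ξ, ξ < γ → above δ n ξ → n < e δ γ := by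
        intro n ξ hξ hab
        by_contra hcon
        exact absurd (hab γ hγ (not_lt.1 hcon)) (not_le.2 hξ)
      have hsub : L' δ ∩ Set.Iio γ ⊆
          {ξ | ξ < δ ∧ e δ ξ ≤ max (e δ γ) ((Finset.range (e δ γ)).sup (g δ))} := by
        rintro ξ ⟨hξ | hξ, hξγ⟩
        · obtain ⟨h1, n, hn, hle⟩ := hξ
          refine ⟨h1, hle.trans ?_⟩
          apply le_trans _ (le_max_right _ _)
          exact Finset.le_sup (f := g δ) (Finset.mem_range.2 (key n ξ hξγ hn))
        · exact ⟨hξ.1, (key _ ξ hξγ hξ.2).le.trans (le_max_left _ _)⟩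
      exact (hfinle δ _).subset hsub
  refine ⟨L', hL', ?_⟩
  intro A B hA hB
  have hnA : ∀ γ : Om1, ∃ a ∈ A, γ < a := exists_mem_gt hA
  have hnB : ∀ γ : Om1, ∃ b ∈ B, γ < b := exists_mem_gt hB
  choose nA hnA1 hnA2 using hnA
  choose nB hnB1 hnB2 using hnB
  let h : Om1 → Om1 := fun ξ => max (max (nA ξ) (nB ξ)) (max (φ (ξ, true)) (φ (ξ, false)))
  have hh : ∀ ξ, ξ < h ξ := fun ξ =>
    lt_of_lt_of_le (hnA2 ξ) ((le_max_left _ _).trans (le_max_left _ _))
  let f : Om1 → Bool := fun η => decide (∃ ξ, (φ (ξ, true) = η ∧ ξ ∈ A) ∨ (φ (ξ, false) = η ∧ ξ ∈ B))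
  have hfA : ∀ ξ, f (φ (ξ, true)) = true ↔ ξ ∈ A := by
    intro ξ
    simp only [f, decide_eq_true_eq]
    constructor
    · rintro ⟨ξ', ⟨h1, h2⟩ | ⟨h1, _⟩⟩
      · have := (Prod.ext_iff.1 (hφ h1)).1
        simp only at this
        rwa [this] at h2
      · have := (Prod.ext_iff.1 (hφ h1)).2
        simp at this
    · intro hξ
      exact ⟨ξ, Or.inl ⟨rfl, hξ⟩⟩
  have hfB : ∀ ξ, f (φ (ξ, false)) = true ↔ ξ ∈ B := by
    intro ξ
    simp only [f, decide_eq_true_eq]
    constructor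
    · rintro ⟨ξ', ⟨h1, _⟩ | ⟨h1, h2⟩⟩
      · have := (Prod.ext_iff.1 (hφ h1)).2
        simp at this
      · have := (Prod.ext_iff.1 (hφ h1)).1
        simp only at this
        rwa [this] at h2
    · intro hξ
      exact ⟨ξ, Or.inr ⟨rfl, hξ⟩⟩
  obtain ⟨γ₀⟩ := om1_nonempty
  obtain ⟨δ, hδg, hδc⟩ := hg f (closed_isClub h γ₀)
  have hlim : Order.IsSuccLimit δ := closed_isLimit hh hδc
  have hφδ : ∀ ξ < δ, ∀ b, φ (ξ, b) < δ := by
    intro ξ hξ b
    refine lt_of_le_of_lt ?_ (hδc.2 ξ hξ)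
    cases b
    · exact (le_max_right _ _).trans (le_max_right _ _)
    · exact (le_max_left _ _).trans (le_max_right _ _)
  have hinf : ∃ᶠ n in Filter.atTop, F δ (fun ξ => f ξ.1) n < g δ n := by
    intro hcon
    apply hδg
    filter_upwards [hcon] with n hn
    exact not_lt.1 hn
  -- for every `γ < δ` large `n` force the chosen points above `γ`
  have hmain : ∀ γ < δ, ∀ b : Bool, ∃ ξ, γ < ξ ∧ ξ ∈ L' δ ∧ dec δ (fun ξ => f ξ.1) b ξ := by
    intro γ hγ b
    have hγ' := hδc.2 γ hγ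
    obtain ⟨n, hn, hlt⟩ := (Filter.frequently_atTop.1 hinf) (e δ (h γ))
    -- the predicate is satisfiable
    have hsat : {m | Pr δ (fun ξ => f ξ.1) n m}.Nonempty := by
      have hex : ∀ b : Bool, ∃ ξ < δ, above δ n ξ ∧ dec δ (fun ξ => f ξ.1) b ξ := by
        intro b
        -- the maximum of the finite set of points with small value
        obtain ⟨μ, hμ, hmax⟩ := Set.exists_max_image {ξ | ξ < δ ∧ e δ ξ ≤ n} id (hfinle δ n)
          ⟨h γ, hγ', hn⟩
        have hc := hδc.2 μ hμ.1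
        cases b
        · refine ⟨nB μ, lt_of_le_of_lt ((le_max_right _ _).trans (le_max_left _ _)) hc, ?_, ?_⟩
          · intro η hη hle
            exact (hmax η ⟨hη, hle⟩).trans (hnB2 μ).le
          · refine ⟨hφδ _ (lt_of_le_of_lt ((le_max_right _ _).trans (le_max_left _ _)) hc) _, ?_⟩
            exact (hfB _).2 (hnB1 μ)
        · refine ⟨nA μ, lt_of_le_of_lt ((le_max_left _ _).trans (le_max_left _ _)) hc, ?_, ?_⟩
          · intro η hη hle
            exact (hmax η ⟨hη, hle⟩).trans (hnA2 μ).le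
          · refine ⟨hφδ _ (lt_of_le_of_lt ((le_max_left _ _).trans (le_max_left _ _)) hc) _, ?_⟩
            exact (hfA _).2 (hnA1 μ)
      obtain ⟨ξ₁, h11, h12, h13⟩ := hex true
      obtain ⟨ξ₂, h21, h22, h23⟩ := hex false
      refine ⟨max (e δ ξ₁) (e δ ξ₂), fun b => ?_⟩
      cases b
      · exact ⟨ξ₂, h21, h22, le_max_right _ _, h23⟩
      · exact ⟨ξ₁, h11, h12, le_max_left _ _, h13⟩
    have hmem := Nat.sInf_mem hsat
    obtain ⟨ξ, hξ, hab, hle, hd⟩ := hmem b
    refine ⟨ξ, ?_, Or.inl ⟨hξ, n, hab, hle.trans hlt.le⟩, hd⟩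
    exact lt_of_lt_of_le (hh γ) (hab (h γ) hγ' hn)
  refine ⟨δ, hlim, ?_, ?_⟩
  · intro γ hγ
    obtain ⟨ξ, h1, h2, ⟨_, h3⟩⟩ := hmain γ hγ true
    exact ⟨ξ, (hfA ξ).1 h3, h2, h1⟩
  · intro γ hγ
    obtain ⟨ξ, h1, h2, ⟨_, h3⟩⟩ := hmain γ hγ false
    exact ⟨ξ, (hfB ξ).1 h3, h2, h1⟩

end Pool.Agent.Helper185.Dow
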