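import Pool.Agent.Helper185.Dow3

/-!
# Dowker spaces, Lusin sets and the final theorems
-/

namespace Pool.Agent.Helper185.Dow

open Set Topology

/-- Countable paracompactness: every countable open cover has a locally finite open refinement. -/
def CountablyParacompact (X : Type) [TopologicalSpace X] : Prop :=
  ∀ U : ℕ → Set X, (∀ n, IsOpen (U n)) → (⋃ n, U n) = Set.univ →
    ∃ (ι : Type) (V : ι → Set X), (∀ i, IsOpen (V i)) ∧ (⋃ i, V i) = Set.univ ∧
      LocallyFinite V ∧ ∀ i, ∃ n, V i ⊆ U n

/-- Dowker spaces: normal `T₁` spaces that are not countably paracompact. -/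
def IsDowker (X : Type) [TopologicalSpace X] : Prop :=
  T1Space X ∧ NormalSpace X ∧ ¬ CountablyParacompact X

/-- There is a first-countable, locally countable Dowker space of size `ℵ₁`. -/
def SmallDowkerExists : Prop :=
  ∃ (X : Type) (_ : TopologicalSpace X), IsDowker X ∧ FirstCountableTopology X ∧
    LocallyCountable X ∧ Cardinal.mk X = Cardinal.aleph 1

/-- Lusin sets: uncountable sets of reals with countable meager parts. -/
def IsLusin (L : Set ℝ) : Prop :=
  ¬ L.Countable ∧ ∀ M : Set ℝ, IsMeagre M → (L ∩ M).Countable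

/-- The statement whose provability in ZFC is asked for in Q1. -/
def LusinIffDowker : Prop := (∃ L : Set ℝ, IsLusin L) ↔ SmallDowkerExists

/-- `non(M) > ℵ₁`: every set of reals of size at most `ℵ₁` is meager. -/
def NonMeagerLarge : Prop := ∀ A : Set ℝ, Cardinal.mk A ≤ Cardinal.aleph 1 → IsMeagre A

theorem not_countablyParacompact {X : Type} [TopologicalSpace X] (h : NotCtblyMetacompact X) :
    ¬ CountablyParacompact X := by
  intro hcp
  obtain ⟨D, hD, hanti, hempty, hexp⟩ := h
  obtain ⟨ι, V, hV, hcov, hlf, href⟩ := hcp (fun n => (D n)ᶜ) (fun n => (hD n).isOpen_compl) (by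
    rw [← Set.compl_iInter, hempty, Set.compl_empty])
  choose k hk using href
  have hanti' : ∀ m n, m ≤ n → D n ⊆ D m := by
    intro m n hmn
    induction n, hmn using Nat.le_induction with
    | base => exact subset_rfl
    | succ n _ ih => exact (hanti n).trans ih
  obtain ⟨x, hx⟩ := hexp (fun n => ⋃ i ∈ {i | n < k i}, V i)
    (fun n => isOpen_biUnion (fun i _ => hV i)) (by
      intro n x hx
      have hxu : x ∈ ⋃ i, V i := by rw [hcov]; trivial
      obtain ⟨i, hi⟩ := Set.mem_iUnion.1 hxu
      refine Set.mem_iUnion₂.2 ⟨i, ?_, hi⟩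
      change n < k i
      by_contra hcon
      exact hk i hi (hanti' _ _ (not_lt.1 hcon) hx))
  have hfin := hlf.point_finite x
  have hfin' : (k '' {i | x ∈ V i}).Finite := hfin.image k
  obtain ⟨M, hM⟩ := hfin'.bddAbove
  have hx' := Set.mem_iInter.1 hx M
  obtain ⟨i, hi, hxi⟩ := Set.mem_iUnion₂.1 hx'
  have h1 : k i ≤ M := hM ⟨i, hxi, rfl⟩
  have h2 : M < k i := hi
  omega

/-- A pair-guessing ladder system yields a first-countable locally countable Dowker space. -/
theorem dowker_of_pairGuessing (h : PairGuessing) : SmallDowkerExists := by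
  obtain ⟨S, hS, hP⟩ := h
  refine ⟨Om1 × ℕ, topo S, ⟨t1 hS, normal hS om1_Iio hP om1_not_countable, ?_⟩,
    firstCountable hS om1_Iio, locallyCountable hS om1_Iio, ?_⟩
  · exact @not_countablyParacompact _ (topo S) (notMeta hS om1_Iio hP om1_not_countable)
  · rw [Cardinal.mk_prod, Cardinal.lift_id, Cardinal.lift_id, om1_mk, Cardinal.mk_nat]
    exact Cardinal.mul_eq_left (Cardinal.aleph0_le_aleph 1) (Cardinal.aleph0_le_aleph 1)
      Cardinal.aleph0_ne_zero

theorem dowker_of_guess (h : ClubPrinciple ∨ DiamondB) : SmallDowkerExists := by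
  rcases h with h | h
  · exact dowker_of_pairGuessing (pairGuessing_of_club h)
  · exact dowker_of_pairGuessing (pairGuessing_of_diamondB h)

theorem no_lusin (h : NonMeagerLarge) : ¬ ∃ L : Set ℝ, IsLusin L := by
  rintro ⟨L, hL, hM⟩
  have h1 : Cardinal.aleph 1 ≤ Cardinal.mk L := by
    rw [← not_lt, Cardinal.lt_aleph_one_iff, Cardinal.le_aleph0_iff_set_countable]
    exact hL
  obtain ⟨L', hL', hc⟩ := Cardinal.le_mk_iff_exists_subset.1 h1
  have h2 := hM L' (h L' hc.le)
  rw [Set.inter_eq_right.2 hL'] at h2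
  rw [← Cardinal.le_aleph0_iff_set_countable, hc] at h2
  exact absurd h2 (not_le.2 Cardinal.aleph0_lt_aleph_one)

theorem main : ((ClubPrinciple ∨ DiamondB) → SmallDowkerExists) ∧
    ((ClubPrinciple ∨ DiamondB) ∧ NonMeagerLarge →
      SmallDowkerExists ∧ ¬ ∃ L : Set ℝ, IsLusin L) :=
  ⟨dowker_of_guess, fun h => ⟨dowker_of_guess h.1, no_lusin h.2⟩⟩

theorem refute (h : LusinIffDowker) : ¬ ((ClubPrinciple ∨ DiamondB) ∧ NonMeagerLarge) := by
  rintro ⟨h1, h2⟩
  exact no_lusin h2 (h.2 (dowker_of_guess h1))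

end Pool.Agent.Helper185.Dow
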