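import Mathlib

/-!
# A coherent sequence of finite-to-one functions on the countable ordinals
-/

namespace Pool.Agent.Helper185.Fat

open Set Topology

/-- A well order of type `ω₁`. -/
abbrev Om1 : Type := (Cardinal.aleph 1).ord.ToType

theorem om1_Iio (a : Om1) : (Set.Iio a).Countable := by
  rw [← Cardinal.le_aleph0_iff_set_countable, ← Cardinal.lt_aleph_one_iff]
  exact Cardinal.mk_Iio_toType_ord_lt a

theorem om1_mk : Cardinal.mk Om1 = Cardinal.aleph 1 := Cardinal.mk_ord_toType _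

theorem om1_not_countable : ¬ (Set.univ : Set Om1).Countable := by
  intro h
  rw [← Cardinal.le_aleph0_iff_set_countable, Cardinal.mk_univ, om1_mk] at h
  exact absurd h (not_le.2 Cardinal.aleph0_lt_aleph_one)

theorem om1_nonempty : Nonempty Om1 := by
  by_contra h
  rw [not_nonempty_iff] at h
  exact om1_not_countable (Set.countable_univ_iff.2 inferInstance)

theorem om1_Iic (a : Om1) : (Set.Iic a).Countable := by
  rw [← Set.Iio_insert]
  exact (om1_Iio a).insert _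

theorem exists_gt {A : Set Om1} (hA : A.Countable) : ∃ γ, ∀ a ∈ A, a < γ := by
  by_contra hcon
  push Not at hcon
  apply om1_not_countable
  apply Set.Countable.mono (s₂ := ⋃ a ∈ A, Set.Iic a)
  · intro γ _
    obtain ⟨a, ha, hγ⟩ := hcon γ
    exact Set.mem_iUnion₂.2 ⟨a, ha, hγ⟩
  · exact hA.biUnion (fun a _ => om1_Iic a)

/-- A least element of a nonempty set. -/
theorem exists_least {S : Set Om1} (h : S.Nonempty) : ∃ a ∈ S, ∀ b ∈ S, a ≤ b := by
  obtain ⟨a, ha, hmin⟩ := WellFounded.has_min (wellFounded_lt (α := Om1)) S h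
  exact ⟨a, ha, fun b hb => not_lt.1 (hmin b hb)⟩

/-- General recursion with a step condition. -/
theorem exists_rec {I Y : Type} [LinearOrder I] [WellFoundedLT I] [Nonempty Y]
    (P : (i : I) → ((j : I) → j < i → Y) → Y → Prop)
    (h : ∀ i g, (∀ j (hj : j < i), P j (fun k hk => g k (hk.trans hj)) (g j hj)) → ∃ y, P i g y) :
    ∃ x : I → Y, ∀ i, P i (fun j _ => x j) (x i) := by
  classical
  let step : (i : I) → ((j : I) → j < i → Y) → Y := fun i prev =>
    if h : ∃ q, P i prev q then h.choose else Classical.arbitrary Y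
  let x : I → Y := WellFounded.fix (wellFounded_lt (α := I)) step
  have hx : ∀ i, x i = step i (fun j _ => x j) := fun i =>
    WellFounded.fix_eq (wellFounded_lt (α := I)) step i
  refine ⟨x, ?_⟩
  intro i
  induction i using WellFoundedLT.induction with
  | ind i ih =>
    have hex : ∃ q, P i (fun j _ => x j) q := h i _ (fun j hj => ih j hj)
    rw [hx i]
    simp only [step]
    rw [dif_pos hex]
    exact hex.choose_spec

/-- A coherent sequence of finite-to-one functions. -/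
theorem exists_coherent : ∃ e : Om1 → Om1 → ℕ,
    (∀ α β, α < β → {ξ | ξ ≤ α ∧ e α ξ ≠ e β ξ}.Finite) ∧
    ∀ α n, {ξ | ξ ≤ α ∧ e α ξ ≤ n}.Finite := by
  classical
  obtain ⟨e, he⟩ := exists_rec (I := Om1) (Y := Om1 → ℕ)
    (fun i g y => (∀ α (hα : α < i), {ξ | ξ ≤ α ∧ g α hα ξ ≠ y ξ}.Finite) ∧
      ∀ n, {ξ | ξ ≤ i ∧ y ξ ≤ n}.Finite) (by
    intro i g hg
    by_cases hne : ∃ ξ, ξ < i
    · -- enumerate the smaller points
      obtain ⟨ξ₀, hξ₀⟩ := hne
      obtain ⟨ν, hν⟩ := (om1_Iio i).exists_eq_range ⟨ξ₀, hξ₀⟩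
      have hνlt : ∀ n, ν n < i := fun n => by
        have : ν n ∈ Set.Iio i := by rw [hν]; exact ⟨n, rfl⟩
        exact this
      have hνs : ∀ ξ, ξ < i → ∃ n, ν n = ξ := fun ξ hξ => by
        have : ξ ∈ Set.range ν := by rw [← hν]; exact hξ
        exact this
      have hex : ∀ ξ, ξ < i → ∃ n, ξ ≤ ν n := fun ξ hξ => by
        obtain ⟨n, hn⟩ := hνs ξ hξ
        exact ⟨n, hn.ge⟩
      let y : Om1 → ℕ := fun ξ => if h : ξ < i then
        max (g (ν (Nat.find (hex ξ h))) (hνlt _) ξ) (Nat.find (hex ξ h)) else 0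
      have hy : ∀ ξ (h : ξ < i), y ξ = max (g (ν (Nat.find (hex ξ h))) (hνlt _) ξ)
          (Nat.find (hex ξ h)) := fun ξ h => dif_pos h
      refine ⟨y, ?_, ?_⟩
      · intro α hα
        obtain ⟨N, hN⟩ := hνs α hα
        have hfin : (⋃ n ∈ Set.Iic N, ({ξ | ξ ≤ ν n ∧ ξ ≤ α ∧ g (ν n) (hνlt n) ξ ≠ g α hα ξ} ∪
            {ξ | ξ ≤ ν n ∧ g (ν n) (hνlt n) ξ ≤ n})).Finite := by
          refine (Set.finite_Iic N).biUnion (fun n _ => Set.Finite.union ?_ ?_)
          · rcases lt_trichotomy (ν n) α with h | h | h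
            · refine ((hg α hα).1 (ν n) h).subset ?_
              rintro ξ ⟨h1, _, h3⟩
              exact ⟨h1, h3⟩
            · refine Set.Finite.subset Set.finite_empty ?_
              rintro ξ ⟨_, _, h3⟩
              subst h
              exact absurd rfl h3
            · refine ((hg (ν n) (hνlt n)).1 α h).subset ?_
              rintro ξ ⟨_, h2, h3⟩
              exact ⟨h2, fun h4 => h3 h4.symm⟩
          · exact (hg (ν n) (hνlt n)).2 n
        refine hfin.subset ?_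
        rintro ξ ⟨hξα, hne⟩
        have hξi : ξ < i := lt_of_le_of_lt hξα hα
        have h1 : Nat.find (hex ξ hξi) ≤ N := Nat.find_min' _ (by rw [hN]; exact hξα)
        have h2 := Nat.find_spec (hex ξ hξi)
        refine Set.mem_iUnion₂.2 ⟨Nat.find (hex ξ hξi), h1, ?_⟩
        rw [hy ξ hξi] at hne
        by_cases hc : g (ν (Nat.find (hex ξ hξi))) (hνlt _) ξ ≤ Nat.find (hex ξ hξi)
        · exact Or.inr ⟨h2, hc⟩
        · left
          refine ⟨h2, hξα, fun h3 => hne ?_⟩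
          rw [max_eq_left (le_of_lt (not_le.1 hc))]
          exact h3.symm
      · intro n
        have hfin : (insert i (⋃ k ∈ Set.Iic n, {ξ | ξ ≤ ν k ∧ g (ν k) (hνlt k) ξ ≤ n})).Finite := by
          apply Set.Finite.insert
          exact (Set.finite_Iic n).biUnion (fun k _ => (hg (ν k) (hνlt k)).2 n)
        refine hfin.subset ?_
        rintro ξ ⟨hξ, hyn⟩
        rcases hξ.lt_or_eq with h | h
        · rw [hy ξ h] at hyn
          right
          refine Set.mem_iUnion₂.2 ⟨Nat.find (hex ξ h), (le_max_right _ _).trans hyn,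
            Nat.find_spec (hex ξ h), (le_max_left _ _).trans hyn⟩
        · left; exact h
    · push Not at hne
      refine ⟨fun _ => 0, fun α hα => absurd hα (not_lt.2 (hne α)), fun n => ?_⟩
      refine (Set.finite_singleton i).subset ?_
      rintro ξ ⟨hξ, _⟩
      exact le_antisymm hξ (hne ξ))
  exact ⟨e, fun α β h => (he β).1 α h, fun α n => (he α).2 n⟩

/-- The colouring of `ω₁ × ℕ` coded by `e`. -/
def col (e : Om1 → Om1 → ℕ) (α : Om1) (j : Om1 × ℕ) : Fin 3 :=
  if j.2 < e α j.1 then 0 else if j.2 = e α j.1 then 1 else 2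

theorem col_coherent {e : Om1 → Om1 → ℕ}
    (he : ∀ α β, α < β → {ξ | ξ ≤ α ∧ e α ξ ≠ e β ξ}.Finite) {α β : Om1} (h : α ≤ β) :
    {j : Om1 × ℕ | j.1 < α ∧ col e α j ≠ col e β j}.Finite := by
  classical
  rcases h.lt_or_eq with h | h
  · have h1 := he α β h
    have h2 : (⋃ ξ ∈ {ξ | ξ ≤ α ∧ e α ξ ≠ e β ξ},
        (fun m => (ξ, m)) '' (Set.Iic (max (e α ξ) (e β ξ)))).Finite :=
      h1.biUnion (fun ξ _ => (Set.finite_Iic _).image _)
    refine h2.subset ?_
    rintro ⟨ξ, m⟩ ⟨hξ, hne⟩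
    simp only at hξ
    have hne' : e α ξ ≠ e β ξ := by
      intro heq
      apply hne
      simp only [col]
      rw [heq]
    refine Set.mem_iUnion₂.2 ⟨ξ, ⟨hξ.le, hne'⟩, m, ?_, rfl⟩
    by_contra hcon
    simp only [Set.mem_Iic, not_le, max_lt_iff] at hcon
    apply hne
    simp only [col]
    rw [if_neg (by omega), if_neg (by omega), if_neg (by omega), if_neg (by omega)]
  · subst h
    refine Set.Finite.subset Set.finite_empty ?_
    rintro j ⟨_, h2⟩
    exact absurd rfl h2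

/-- Three different values at one place use all the colours. -/
theorem col_three {e : Om1 → Om1 → ℕ} {α β γ i : Om1} (h1 : e α i < e β i) (h2 : e β i < e γ i)
    (c : Fin 3) : c = col e α (i, e β i) ∨ c = col e β (i, e β i) ∨ c = col e γ (i, e β i) := by
  have ha : col e α (i, e β i) = 2 := by
    simp only [col]
    rw [if_neg (by omega), if_neg (by omega)]
  have hb : col e β (i, e β i) = 1 := by
    simp [col]
  have hc : col e γ (i, e β i) = 0 := by
    simp only [col]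
    rw [if_pos h2]
  rw [ha, hb, hc]
  fin_cases c
  · right; right; rfl
  · right; left; rfl
  · left; rfl

/-- A closure point of a function. -/
theorem exists_closed_gt (h : Om1 → Om1) (β : Om1) : ∃ δ, β < δ ∧ ∀ ξ < δ, h ξ < δ := by
  have hstep : ∀ y : Om1, ∃ z, y < z ∧ ∀ ξ ≤ y, h ξ < z := by
    intro y
    have hc : (insert y (h '' Set.Iic y)).Countable := ((om1_Iic y).image h).insert y
    obtain ⟨z, hz⟩ := exists_gt hc
    exact ⟨z, hz y (Set.mem_insert _ _),
      fun ξ hξ => hz _ (Set.mem_insert_of_mem _ ⟨ξ, hξ, rfl⟩)⟩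
  choose nx hnx1 hnx2 using hstep
  let g : ℕ → Om1 := fun n => Nat.rec (motive := fun _ => Om1) β (fun _ y => nx y) n
  have hg : ∀ n, g (n + 1) = nx (g n) := fun n => rfl
  obtain ⟨b, hb⟩ := exists_gt (Set.countable_range g)
  obtain ⟨δ, hδ, hmin⟩ := exists_least (S := {b | ∀ n, g n < b}) ⟨b, fun n => hb _ ⟨n, rfl⟩⟩
  refine ⟨δ, hδ 0, fun ξ hξ => ?_⟩
  have : ∃ n, ξ ≤ g n := by
    by_contra hcon
    push Not at hcon
    exact absurd (hmin ξ hcon) (not_le.2 hξ)
  obtain ⟨n, hn⟩ := this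
  exact (hnx2 (g n) ξ hn).trans (hδ (n + 1))

/-- A weak pressing down lemma. -/
theorem pressing {D : Type} (h : Om1 → Om1) (r : Om1 → Om1) (d : Om1 → D)
    (hr : ∀ δ, (∃ ξ, ξ < δ) → (∀ ξ < δ, h ξ < δ) → r δ < δ)
    (hd : ∀ ξ, {x | ∃ δ, r δ = ξ ∧ (∃ ξ', ξ' < δ) ∧ (∀ ξ' < δ, h ξ' < δ) ∧ d δ = x}.Countable) :
    ∃ ξ x, ∀ γ, ∃ δ, γ < δ ∧ (∀ ξ' < δ, h ξ' < δ) ∧ r δ = ξ ∧ d δ = x := by
  classical
  by_contra hcon
  push Not at hcon
  -- bounds
  choose b hb using hcon
  have hB : ∀ ξ, ∃ B, ∀ x ∈ {x | ∃ δ, r δ = ξ ∧ (∃ ξ', ξ' < δ) ∧ (∀ ξ' < δ, h ξ' < δ) ∧ d δ = x},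
      b ξ x < B := by
    intro ξ
    obtain ⟨B, hB⟩ := exists_gt ((hd ξ).image (b ξ))
    exact ⟨B, fun x hx => hB _ ⟨x, hx, rfl⟩⟩
  choose B hB using hB
  obtain ⟨β⟩ := om1_nonempty
  obtain ⟨δ, hβδ, hδ⟩ := exists_closed_gt (fun ξ => max (h ξ) (B ξ)) β
  have hδh : ∀ ξ < δ, h ξ < δ := fun ξ hξ => (le_max_left _ _).trans_lt (hδ ξ hξ)
  have hr' := hr δ ⟨β, hβδ⟩ hδh
  have h1 : b (r δ) (d δ) < B (r δ) := hB (r δ) (d δ) ⟨δ, rfl, ⟨β, hβδ⟩, hδh, rfl⟩
  have h2 : B (r δ) < δ := (le_max_right _ _).trans_lt (hδ (r δ) hr')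
  exact hb (r δ) (d δ) δ (h1.trans h2) hδh rfl rfl

end Pool.Agent.Helper185.Fat
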