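import Pool.Agent.Helper185.Fat1

/-!
# The fat tree space
-/

namespace Pool.Agent.Helper185.Fat

open Set Topology

/-- The points: functions on `α × ℕ` (extended by `0`) which agree with `E α` only finitely
often. -/
def Pt (E : Om1 → Om1 × ℕ → Fin 3) : Type :=
  {p : Om1 × (Om1 × ℕ → Fin 3) // (∃ ξ, ξ < p.1) ∧ (∀ j, p.1 ≤ j.1 → p.2 j = 0) ∧
    {j | j.1 < p.1 ∧ p.2 j = E p.1 j}.Finite}

variable {E : Om1 → Om1 × ℕ → Fin 3}

/-- The level of a point. -/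
def Pt.lev (p : Pt E) : Om1 := p.1.1

/-- The function of a point. -/
def Pt.val (p : Pt E) : Om1 × ℕ → Fin 3 := p.1.2

/-- The basic sets. -/
def Nb (E : Om1 → Om1 × ℕ → Fin 3) (δ ξ : Om1) (A : Finset ((Om1 × ℕ) × Fin 3)) : Set (Pt E) :=
  {p | ξ < p.lev ∧ p.lev ≤ δ ∧ (∀ a ∈ A, p.val a.1 = a.2) ∧
    ∀ j, (∀ a ∈ A, a.1 ≠ j) → j.1 < p.lev → p.val j ≠ E δ j}

/-- The graph of a function on a finite set. -/
noncomputable def gr (f : Om1 × ℕ → Fin 3) (G : Finset (Om1 × ℕ)) :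
    Finset ((Om1 × ℕ) × Fin 3) :=
  G.map ⟨fun j => (j, f j), fun _ _ h => (Prod.ext_iff.1 h).1⟩

theorem mem_gr {f : Om1 × ℕ → Fin 3} {G : Finset (Om1 × ℕ)} {a : (Om1 × ℕ) × Fin 3} :
    a ∈ gr f G ↔ a.1 ∈ G ∧ a.2 = f a.1 := by
  unfold gr
  rw [Finset.mem_map]
  constructor
  · rintro ⟨j, hj, rfl⟩; exact ⟨hj, rfl⟩
  · rintro ⟨h1, h2⟩; exact ⟨a.1, h1, Prod.ext rfl h2.symm⟩

theorem mem_Nb_gr {δ ξ : Om1} {f : Om1 × ℕ → Fin 3} {G : Finset (Om1 × ℕ)} {p : Pt E} :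
    p ∈ Nb E δ ξ (gr f G) ↔ ξ < p.lev ∧ p.lev ≤ δ ∧ (∀ j ∈ G, p.val j = f j) ∧
      ∀ j ∉ G, j.1 < p.lev → p.val j ≠ E δ j := by
  constructor
  · rintro ⟨h1, h2, h3, h4⟩
    refine ⟨h1, h2, fun j hj => h3 (j, f j) (mem_gr.2 ⟨hj, rfl⟩), fun j hj hl => h4 j ?_ hl⟩
    intro a ha haj
    exact hj (haj ▸ (mem_gr.1 ha).1)
  · rintro ⟨h1, h2, h3, h4⟩
    refine ⟨h1, h2, fun a ha => ?_, fun j hj hl => h4 j ?_ hl⟩
    · rw [(mem_gr.1 ha).2]; exact h3 _ (mem_gr.1 ha).1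
    · intro hjG
      exact hj (j, f j) (mem_gr.2 ⟨hjG, rfl⟩) rfl

/-- The base of the topology. -/
def baseSets (E : Om1 → Om1 × ℕ → Fin 3) : Set (Set (Pt E)) :=
  {N | ∃ δ ξ A, (∀ a ∈ A, a.1.1 ≤ ξ) ∧ N = Nb E δ ξ A}

/-- The topology. -/
@[reducible] def fatTop (E : Om1 → Om1 × ℕ → Fin 3) : TopologicalSpace (Pt E) :=
  TopologicalSpace.generateFrom (baseSets E)

/-- a bound below `β` for finitely many places below `β` -/
theorem exists_bound {β ξ₀ : Om1} (h : ξ₀ < β) (G : Finset (Om1 × ℕ)) (hG : ∀ j ∈ G, j.1 < β) :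
    ∃ ξ, ξ₀ ≤ ξ ∧ ξ < β ∧ ∀ j ∈ G, j.1 ≤ ξ := by
  classical
  induction G using Finset.induction_on with
  | empty => exact ⟨ξ₀, le_rfl, h, fun j hj => absurd hj (Finset.notMem_empty _)⟩
  | insert j G _ ih =>
    obtain ⟨ξ, h1, h2, h3⟩ := ih (fun j hj => hG j (Finset.mem_insert_of_mem hj))
    refine ⟨max ξ j.1, h1.trans (le_max_left _ _),
      max_lt h2 (hG j (Finset.mem_insert_self _ _)), fun k hk => ?_⟩
    rcases Finset.mem_insert.1 hk with rfl | hk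
    · exact le_max_right _ _
    · exact (h3 k hk).trans (le_max_left _ _)

section Coherent

variable (hE : ∀ α β, α ≤ β → {j : Om1 × ℕ | j.1 < α ∧ E α j ≠ E β j}.Finite)

include hE in
/-- Canonical neighbourhoods refine basic sets. -/
theorem refine_Nb {δ ξ : Om1} {A : Finset ((Om1 × ℕ) × Fin 3)} (hA : ∀ a ∈ A, a.1.1 ≤ ξ)
    {p : Pt E} (hp : p ∈ Nb E δ ξ A) :
    ∃ ξ₀ < p.lev, ∃ G₀ : Finset (Om1 × ℕ), (∀ j ∈ G₀, j.1 < p.lev) ∧
      ∀ ξ' G, ξ₀ ≤ ξ' → G₀ ⊆ G → Nb E p.lev ξ' (gr p.val G) ⊆ Nb E δ ξ A := by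
  classical
  obtain ⟨h1, h2, h3, h4⟩ := hp
  refine ⟨ξ, h1, A.image Prod.fst ∪ (hE p.lev δ h2).toFinset, ?_, ?_⟩
  · intro j hj
    rcases Finset.mem_union.1 hj with hj | hj
    · obtain ⟨a, ha, rfl⟩ := Finset.mem_image.1 hj
      exact (hA a ha).trans_lt h1
    · exact ((Set.Finite.mem_toFinset _).1 hj).1
  · intro ξ' G hξ' hG q hq
    obtain ⟨q1, q2, q3, q4⟩ := mem_Nb_gr.1 hq
    refine ⟨hξ'.trans_lt q1, q2.trans h2, fun a ha => ?_, fun j hj hl => ?_⟩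
    · rw [q3 a.1 (hG (Finset.mem_union_left _ (Finset.mem_image_of_mem _ ha)))]
      exact h3 a ha
    · by_cases hjG : j ∈ G
      · rw [q3 j hjG]; exact h4 j hj (hl.trans_le q2)
      · have h5 : E p.lev j = E δ j := by
          by_contra hne
          apply hjG
          apply hG
          apply Finset.mem_union_right
          rw [Set.Finite.mem_toFinset]
          exact ⟨hl.trans_le q2, hne⟩
        rw [← h5]
        exact q4 j hjG hl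

/-- Existence of canonical neighbourhoods. -/
theorem exists_canonical (p : Pt E) {ξ₀ : Om1} (hξ₀ : ξ₀ < p.lev) (G₀ : Finset (Om1 × ℕ))
    (hG₀ : ∀ j ∈ G₀, j.1 < p.lev) :
    ∃ ξ G, ξ₀ ≤ ξ ∧ ξ < p.lev ∧ G₀ ⊆ G ∧ (∀ j ∈ G, j.1 ≤ ξ) ∧ p ∈ Nb E p.lev ξ (gr p.val G) := by
  classical
  obtain ⟨_, _, hfin⟩ := p.2
  obtain ⟨ξ, h1, h2, h3⟩ := exists_bound hξ₀ (G₀ ∪ hfin.toFinset) (by
    intro j hj
    rcases Finset.mem_union.1 hj with hj | hj
    · exact hG₀ j hj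
    · exact ((Set.Finite.mem_toFinset _).1 hj).1)
  refine ⟨ξ, G₀ ∪ hfin.toFinset, h1, h2, Finset.subset_union_left, h3, mem_Nb_gr.2
    ⟨h2, le_rfl, fun j _ => rfl, fun j hj hl heq => hj ?_⟩⟩
  apply Finset.mem_union_right
  rw [Set.Finite.mem_toFinset]
  exact ⟨hl, heq⟩

theorem gr_base {δ ξ : Om1} {f : Om1 × ℕ → Fin 3} {G : Finset (Om1 × ℕ)}
    (h : ∀ j ∈ G, j.1 ≤ ξ) : Nb E δ ξ (gr f G) ∈ baseSets E :=
  ⟨δ, ξ, gr f G, fun a ha => h a.1 (mem_gr.1 ha).1, rfl⟩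

include hE in
theorem isBasis : @TopologicalSpace.IsTopologicalBasis (Pt E) (fatTop E) (baseSets E) := by
  classical
  let _ := fatTop E
  refine ⟨?_, ?_, rfl⟩
  · rintro _ ⟨δ₁, ξ₁, A₁, hA₁, rfl⟩ _ ⟨δ₂, ξ₂, A₂, hA₂, rfl⟩ p ⟨hp1, hp2⟩
    obtain ⟨ζ₁, hζ₁, G₁, hG₁, h₁⟩ := refine_Nb hE hA₁ hp1
    obtain ⟨ζ₂, hζ₂, G₂, hG₂, h₂⟩ := refine_Nb hE hA₂ hp2
    obtain ⟨ξ, G, a1, _, a3, a4, a5⟩ := exists_canonical p (max_lt hζ₁ hζ₂) (G₁ ∪ G₂) (by
      intro j hj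
      rcases Finset.mem_union.1 hj with hj | hj
      · exact hG₁ j hj
      · exact hG₂ j hj)
    exact ⟨_, gr_base a4, a5, Set.subset_inter
      (h₁ ξ G ((le_max_left _ _).trans a1) (Finset.subset_union_left.trans a3))
      (h₂ ξ G ((le_max_right _ _).trans a1) (Finset.subset_union_right.trans a3))⟩
  · rw [Set.eq_univ_iff_forall]
    intro p
    obtain ⟨ξ₀, hξ₀⟩ := p.2.1
    obtain ⟨ξ, G, _, _, _, a4, a5⟩ := exists_canonical p hξ₀ ∅
      (fun j hj => absurd hj (Finset.notMem_empty _))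
    exact ⟨_, gr_base a4, a5⟩

include hE in
theorem mem_nhds_fat {p : Pt E} {U : Set (Pt E)} (hU : U ∈ @nhds _ (fatTop E) p) :
    ∃ ξ₀ < p.lev, ∃ G₀ : Finset (Om1 × ℕ), (∀ j ∈ G₀, j.1 < p.lev) ∧
      ∀ ξ' G, ξ₀ ≤ ξ' → G₀ ⊆ G → Nb E p.lev ξ' (gr p.val G) ⊆ U := by
  let _ := fatTop E
  obtain ⟨_, ⟨δ, ξ, A, hA, rfl⟩, hp, hN⟩ := (isBasis hE).mem_nhds_iff.1 hU
  obtain ⟨ζ, hζ, G, hG, h⟩ := refine_Nb hE hA hp
  exact ⟨ζ, hζ, G, hG, fun ξ' G' h1 h2 => (h ξ' G' h1 h2).trans hN⟩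

include hE in
theorem isOpen_Nb {δ ξ : Om1} {A : Finset ((Om1 × ℕ) × Fin 3)} (hA : ∀ a ∈ A, a.1.1 ≤ ξ) :
    @IsOpen _ (fatTop E) (Nb E δ ξ A) := by
  let _ := fatTop E
  exact (isBasis hE).isOpen ⟨δ, ξ, A, hA, rfl⟩

/-- initial parts are open -/
theorem isOpen_lev_le (hE : ∀ α β, α ≤ β → {j : Om1 × ℕ | j.1 < α ∧ E α j ≠ E β j}.Finite)
    (γ : Om1) : @IsOpen _ (fatTop E) {p : Pt E | p.lev ≤ γ} := by
  let _ := fatTop E
  rw [isOpen_iff_mem_nhds]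
  intro p hp
  obtain ⟨ξ₀, hξ₀⟩ := p.2.1
  obtain ⟨ξ, G, _, _, _, a4, a5⟩ := exists_canonical p hξ₀ ∅
    (fun j hj => absurd hj (Finset.notMem_empty _))
  refine Filter.mem_of_superset ((isBasis hE).isOpen (gr_base a4) |>.mem_nhds a5) ?_
  intro q hq
  exact hq.2.1.trans hp

theorem isOpen_lt_lev (hE : ∀ α β, α ≤ β → {j : Om1 × ℕ | j.1 < α ∧ E α j ≠ E β j}.Finite)
    (γ : Om1) : @IsOpen _ (fatTop E) {p : Pt E | γ < p.lev} := by
  let _ := fatTop E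
  rw [isOpen_iff_mem_nhds]
  intro p hp
  obtain ⟨ξ, G, a1, _, _, a4, a5⟩ := exists_canonical p hp ∅
    (fun j hj => absurd hj (Finset.notMem_empty _))
  refine Filter.mem_of_superset ((isBasis hE).isOpen (gr_base a4) |>.mem_nhds a5) ?_
  intro q hq
  exact a1.trans_lt hq.1

include hE in
theorem t2 : @T2Space _ (fatTop E) := by
  classical
  let _ := fatTop E
  refine ⟨fun p q hne => ?_⟩
  rcases lt_trichotomy p.lev q.lev with h | h | h
  · exact ⟨_, _, isOpen_lev_le hE p.lev, isOpen_lt_lev hE p.lev,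
      (show p.lev ≤ p.lev from le_rfl), h,
      Set.disjoint_left.2 (fun r h1 h2 =>
        absurd (show r.lev ≤ p.lev from h1) (not_le.2 (show p.lev < r.lev from h2)))⟩
  · have hv : ∃ j, p.val j ≠ q.val j := by
      by_contra hcon
      push Not at hcon
      exact hne (Subtype.ext (Prod.ext h (funext hcon)))
    obtain ⟨j, hj⟩ := hv
    have hjl : j.1 < p.lev := by
      by_contra hcon
      push Not at hcon
      apply hj
      have h1 : p.val j = 0 := p.2.2.1 j hcon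
      have h2 : q.val j = 0 := q.2.2.1 j (show q.lev ≤ j.1 from h ▸ hcon)
      rw [h1, h2]
    obtain ⟨ξ₁, G₁, _, _, a3, a4, a5⟩ := exists_canonical p hjl {j}
      (fun k hk => by rw [Finset.mem_singleton.1 hk]; exact hjl)
    obtain ⟨ξ₂, G₂, _, _, b3, b4, b5⟩ := exists_canonical q (h ▸ hjl) {j}
      (fun k hk => by rw [Finset.mem_singleton.1 hk]; exact h ▸ hjl)
    refine ⟨_, _, (isBasis hE).isOpen (gr_base a4), (isBasis hE).isOpen (gr_base b4), a5, b5,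
      Set.disjoint_left.2 (fun r h1 h2 => ?_)⟩
    have h3 := (mem_Nb_gr.1 h1).2.2.1 j (a3 (Finset.mem_singleton_self j))
    have h4 := (mem_Nb_gr.1 h2).2.2.1 j (b3 (Finset.mem_singleton_self j))
    exact hj (h3.symm.trans h4)
  · exact ⟨_, _, isOpen_lt_lev hE q.lev, isOpen_lev_le hE q.lev, h,
      (show q.lev ≤ q.lev from le_rfl),
      Set.disjoint_left.2 (fun r h1 h2 =>
        absurd (show r.lev ≤ q.lev from h2) (not_le.2 (show q.lev < r.lev from h1)))⟩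

include hE in
/-- Basic sets are compact. -/
theorem isCompact_Nb {δ ξ : Om1} {A : Finset ((Om1 × ℕ) × Fin 3)} (hA : ∀ a ∈ A, a.1.1 ≤ ξ) :
    @IsCompact _ (fatTop E) (Nb E δ ξ A) := by
  classical
  let _ := fatTop E
  rw [isCompact_iff_ultrafilter_le_nhds]
  intro 𝒰 h𝒰
  have hN : Nb E δ ξ A ∈ 𝒰 := Filter.le_principal_iff.1 h𝒰
  obtain ⟨β, hβ, hmin⟩ := exists_least (S := {β | {q : Pt E | q.lev ≤ β} ∈ 𝒰}) ⟨δ,
    Filter.mem_of_superset hN (fun q hq => hq.2.1)⟩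
  have hlow : ∀ γ < β, {q : Pt E | γ < q.lev} ∈ 𝒰 := by
    intro γ hγ
    have h1 : {q : Pt E | q.lev ≤ γ} ∉ 𝒰 := fun h => absurd (hmin γ h) (not_le.2 hγ)
    rw [← Ultrafilter.compl_mem_iff_notMem] at h1
    refine Filter.mem_of_superset h1 (fun q hq => ?_)
    exact not_le.1 (show ¬ q.lev ≤ γ from hq)
  have hξβ : ξ < β := by
    by_contra hcon
    push Not at hcon
    have h1 : Nb E δ ξ A ∩ {q : Pt E | q.lev ≤ β} ∈ 𝒰 := Filter.inter_mem hN hβ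
    obtain ⟨q, hq1, hq2⟩ := Ultrafilter.nonempty_of_mem h1
    exact absurd (hq2.trans hcon) (not_le.2 hq1.1)
  have hβδ : β ≤ δ := hmin δ (Filter.mem_of_superset hN (fun q hq => hq.2.1))
  have hy : ∀ j, ∃ c, {q : Pt E | q.val j = c} ∈ 𝒰 := by
    intro j
    by_contra hcon
    push Not at hcon
    have h1 : ∀ᶠ q : Pt E in (𝒰 : Filter (Pt E)), ∀ c, q.val j ≠ c := by
      rw [Filter.eventually_all]
      intro c
      exact Ultrafilter.compl_mem_iff_notMem.2 (hcon c)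
    obtain ⟨q, hq⟩ := h1.exists
    exact hq _ rfl
  choose y hy using hy
  have hyE : ∀ j, (∀ a ∈ A, a.1 ≠ j) → j.1 < β → y j ≠ E δ j := by
    intro j hj hl
    obtain ⟨q, ⟨hq1, hq2⟩, hq3⟩ := Ultrafilter.nonempty_of_mem
      (Filter.inter_mem (Filter.inter_mem hN (hy j)) (hlow j.1 hl))
    have h1 := hq1.2.2.2 j hj hq3
    rw [← hq2]; exact h1
  let p : Pt E := ⟨(β, y), ⟨ξ, hξβ⟩, by
    intro j hj
    obtain ⟨q, hq1, hq2⟩ := Ultrafilter.nonempty_of_mem (Filter.inter_mem hβ (hy j))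
    have h1 : q.val j = 0 := q.2.2.1 j (le_trans hq1 hj)
    have h2 : q.val j = y j := hq2
    show y j = 0
    rw [← h2]; exact h1, by
    refine ((A.image Prod.fst).finite_toSet.union (hE β δ hβδ)).subset ?_
    rintro j ⟨hj1, hj2⟩
    by_cases hjA : ∀ a ∈ A, a.1 ≠ j
    · right
      refine ⟨hj1, fun heq => hyE j hjA hj1 ?_⟩
      rw [← heq]; exact hj2
    · left
      push Not at hjA
      obtain ⟨a, ha, rfl⟩ := hjA
      exact Finset.mem_coe.2 (Finset.mem_image_of_mem _ ha)⟩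
  have hplev : p.lev = β := rfl
  have hpval : p.val = y := rfl
  refine ⟨p, ⟨hξβ, hβδ, ?_, ?_⟩, ?_⟩
  · intro a ha
    obtain ⟨q, hq1, hq2⟩ := Ultrafilter.nonempty_of_mem (Filter.inter_mem hN (hy a.1))
    have h1 := hq1.2.2.1 a ha
    rw [hpval, ← hq2]; exact h1
  · intro j hj hl
    exact hyE j hj hl
  · intro U hU
    obtain ⟨ξ₀, hξ₀, G₀, hG₀, h⟩ := mem_nhds_fat hE hU
    let G : Finset (Om1 × ℕ) := G₀ ∪ (A.image Prod.fst ∪ (hE β δ hβδ).toFinset)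
    have hsub := h ξ₀ G le_rfl Finset.subset_union_left
    refine Filter.mem_of_superset ?_ hsub
    have hG : (⋂ j ∈ G, {q : Pt E | q.val j = y j}) ∈ (𝒰 : Filter (Pt E)) :=
      (Filter.biInter_finset_mem G).2 (fun j _ => hy j)
    refine Filter.mem_of_superset (Filter.inter_mem (Filter.inter_mem hN hβ)
      (Filter.inter_mem (hlow ξ₀ hξ₀) hG)) ?_
    rintro q ⟨⟨q1, q2⟩, q3, q4⟩
    refine mem_Nb_gr.2 ⟨q3, q2, fun j hj => Set.mem_iInter₂.1 q4 j hj, fun j hj hl => ?_⟩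
    have hjA : ∀ a ∈ A, a.1 ≠ j := by
      rintro a ha rfl
      exact hj (Finset.mem_union_right _ (Finset.mem_union_left _
        (Finset.mem_image_of_mem _ ha)))
    have hjE : E β j = E δ j := by
      by_contra hne
      apply hj
      refine Finset.mem_union_right _ (Finset.mem_union_right _ ?_)
      rw [Set.Finite.mem_toFinset]
      exact ⟨hl.trans_le q2, hne⟩
    rw [hplev, hjE]
    exact q1.2.2.2 j hjA hl

include hE in
theorem locallyCompact : @LocallyCompactSpace _ (fatTop E) := by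
  let _ := fatTop E
  haveI := t2 hE
  haveI : WeaklyLocallyCompactSpace (Pt E) := by
    refine ⟨fun p => ?_⟩
    obtain ⟨ξ₀, hξ₀⟩ := p.2.1
    obtain ⟨ξ, G, _, _, _, a4, a5⟩ := exists_canonical p hξ₀ ∅
      (fun j hj => absurd hj (Finset.notMem_empty _))
    exact ⟨_, isCompact_Nb hE (fun a ha => a4 a.1 (mem_gr.1 ha).1),
      ((isBasis hE).isOpen (gr_base a4)).mem_nhds a5⟩
  infer_instance

theorem countable_finsets {α : Type} {s : Set α} (hs : s.Countable) :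
    {A : Finset α | ∀ a ∈ A, a ∈ s}.Countable := by
  classical
  haveI := hs.to_subtype
  refine (Set.countable_range (fun B : Finset s => B.map (Function.Embedding.subtype _))).mono ?_
  intro A hA
  refine ⟨A.subtype (· ∈ s), ?_⟩
  simp only
  rw [Finset.subtype_map_of_mem hA]

/-- The basic sets with data below `γ`. -/
theorem countable_base (E : Om1 → Om1 × ℕ → Fin 3) (γ : Om1) :
    {N : Set (Pt E) | ∃ δ ξ A, δ ≤ γ ∧ ξ ≤ γ ∧ (∀ a ∈ A, a.1.1 ≤ ξ) ∧ N = Nb E δ ξ A}.Countable := by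
  have h1 : (Set.Iic γ ×ˢ (Set.Iic γ ×ˢ {A : Finset ((Om1 × ℕ) × Fin 3) |
      ∀ a ∈ A, a ∈ {a : (Om1 × ℕ) × Fin 3 | a.1.1 ≤ γ}})).Countable := by
    refine (om1_Iic γ).prod ((om1_Iic γ).prod (countable_finsets ?_))
    have h2 : ((Set.Iic γ ×ˢ (Set.univ : Set ℕ)) ×ˢ (Set.univ : Set (Fin 3))).Countable :=
      ((om1_Iic γ).prod Set.countable_univ).prod Set.countable_univ
    refine h2.mono ?_
    rintro a ha
    exact ⟨⟨ha, Set.mem_univ _⟩, Set.mem_univ _⟩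
  refine (h1.image (fun t => Nb E t.1 t.2.1 t.2.2)).mono ?_
  rintro _ ⟨δ, ξ, A, h2, h3, h4, rfl⟩
  exact ⟨(δ, ξ, A), ⟨h2, h3, fun a ha => (h4 a ha).trans h3⟩, rfl⟩

include hE in
theorem metrizable_Nb {δ ξ : Om1} {A : Finset ((Om1 × ℕ) × Fin 3)} (hA : ∀ a ∈ A, a.1.1 ≤ ξ) :
    @TopologicalSpace.MetrizableSpace (Nb E δ ξ A)
      (@instTopologicalSpaceSubtype _ _ (fatTop E)) := by
  let _ := fatTop E
  haveI := t2 hE
  haveI : CompactSpace (Nb E δ ξ A) := isCompact_iff_compactSpace.1 (isCompact_Nb hE hA)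
  have hb : TopologicalSpace.IsTopologicalBasis
      ((fun N : Set (Pt E) => (Subtype.val ⁻¹' N : Set (Nb E δ ξ A))) ''
        {N : Set (Pt E) | ∃ δ' ξ' A', δ' ≤ δ ∧ ξ' ≤ δ ∧ (∀ a ∈ A', a.1.1 ≤ ξ') ∧
          N = Nb E δ' ξ' A'}) := by
    apply TopologicalSpace.isTopologicalBasis_of_isOpen_of_nhds
    · rintro _ ⟨_, ⟨δ', ξ', A', _, _, h3, rfl⟩, rfl⟩
      exact (isOpen_Nb hE h3).preimage continuous_subtype_val
    · rintro ⟨p, hp⟩ U hpU hU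
      obtain ⟨V, hV, rfl⟩ := isOpen_induced_iff.1 hU
      obtain ⟨ξ₀, hξ₀, G₀, hG₀, h⟩ := mem_nhds_fat hE (hV.mem_nhds hpU)
      obtain ⟨ξ', G, a1, a2, a3, a4, a5⟩ := exists_canonical p hξ₀ G₀ hG₀
      refine ⟨_, ⟨_, ⟨p.lev, ξ', gr p.val G, hp.2.1, a2.le.trans hp.2.1,
        fun a ha => a4 a.1 (mem_gr.1 ha).1, rfl⟩, rfl⟩, a5, ?_⟩
      exact Set.preimage_mono (h ξ' G a1 a3)
  haveI : SecondCountableTopology (Nb E δ ξ A) :=
    hb.secondCountableTopology ((countable_base E δ).image _)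
  infer_instance

end Coherent

end Pool.Agent.Helper185.Fat
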