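import Pool.Agent.Helper185.Fat2

/-!
# The fat tree space is not quasi-developable
-/

namespace Pool.Agent.Helper185.Fat

open Set Topology

/-- The star of the point `x` in the family `𝒢`. -/
def starOf {X : Type} (𝒢 : Set (Set X)) (x : X) : Set X := ⋃₀ {G | G ∈ 𝒢 ∧ x ∈ G}

/-- `X` is quasi-developable. -/
def QuasiDevelopable (X : Type) [TopologicalSpace X] : Prop :=
  ∃ 𝒢 : ℕ → Set (Set X), (∀ n, ∀ G ∈ 𝒢 n, IsOpen G) ∧
    ∀ (x : X) (U : Set X), IsOpen U → x ∈ U →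
      ∃ n, x ∈ starOf (𝒢 n) x ∧ starOf (𝒢 n) x ⊆ U

/-- Functions that never agree with `E δ`. -/
def Good (E : Om1 → Om1 × ℕ → Fin 3) (δ : Om1) (z : Om1 × ℕ → Fin 3) : Prop :=
  (∀ j, δ ≤ j.1 → z j = 0) ∧ ∀ j, j.1 < δ → z j ≠ E δ j

theorem exists_good_pt {E : Om1 → Om1 × ℕ → Fin 3} {δ : Om1} (hδ : ∃ ξ, ξ < δ)
    {z : Om1 × ℕ → Fin 3} (hz : Good E δ z) : ∃ p : Pt E, p.lev = δ ∧ p.val = z := by
  refine ⟨⟨(δ, z), hδ, hz.1, ?_⟩, rfl, rfl⟩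
  refine Set.Finite.subset Set.finite_empty ?_
  rintro j ⟨h1, h2⟩
  exact absurd h2 (hz.2 j h1)

theorem exists_third (a b : Fin 3) : ∃ c : Fin 3, c ≠ a ∧ c ≠ b := by
  revert a b; decide

/-- A form of the Baire category theorem. -/
theorem exists_dense (E : Om1 → Om1 × ℕ → Fin 3) (δ : Om1)
    (P : ℕ → Set (Om1 × ℕ → Fin 3)) (hP : ∀ z, Good E δ z → ∃ n, z ∈ P n) :
    ∃ (n : ℕ) (F : Finset (Om1 × ℕ)) (z : Om1 × ℕ → Fin 3), Good E δ z ∧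
      ∀ z', Good E δ z' → (∀ j ∈ F, z' j = z j) → ∀ F' : Finset (Om1 × ℕ),
        ∃ w ∈ P n, Good E δ w ∧ ∀ j ∈ F', w j = z' j := by
  classical
  by_contra hcon
  push Not at hcon
  -- a starting point
  have hstart : ∃ z, Good E δ z := by
    refine ⟨fun j => if j.1 < δ then (exists_third (E δ j) 0).choose else 0, ?_, ?_⟩
    · intro j hj
      simp only
      rw [if_neg (not_lt.2 hj)]
    · intro j hj
      simp only
      rw [if_pos hj]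
      exact (exists_third (E δ j) 0).choose_spec.1
  obtain ⟨z₀, hz₀⟩ := hstart
  let St : Type := {s : Finset (Om1 × ℕ) × (Om1 × ℕ → Fin 3) // Good E δ s.2}
  have hstep : ∀ (n : ℕ) (s : St), ∃ t : St, s.1.1 ⊆ t.1.1 ∧ (∀ j ∈ s.1.1, t.1.2 j = s.1.2 j) ∧
      ∀ w ∈ P n, Good E δ w → ∃ j ∈ t.1.1, w j ≠ t.1.2 j := by
    rintro n ⟨⟨F, z⟩, hz⟩
    obtain ⟨z', hz', hag, F', hF'⟩ := hcon n F z hz
    refine ⟨⟨(F ∪ F', z'), hz'⟩, Finset.subset_union_left, hag, fun w hw hgw => ?_⟩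
    obtain ⟨j, hj, hne⟩ := hF' w hw hgw
    exact ⟨j, Finset.mem_union_right _ hj, hne⟩
  choose stp hs1 hs2 hs3 using hstep
  let sq : ℕ → St := fun n => Nat.rec (motive := fun _ => St) ⟨(∅, z₀), hz₀⟩
    (fun k s => stp k s) n
  have hsq : ∀ n, sq (n + 1) = stp n (sq n) := fun n => rfl
  have hmono : ∀ m n, m ≤ n → (sq m).1.1 ⊆ (sq n).1.1 ∧
      ∀ j ∈ (sq m).1.1, (sq n).1.2 j = (sq m).1.2 j := by
    intro m n hmn
    induction n, hmn using Nat.le_induction with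
    | base => exact ⟨Finset.Subset.refl _, fun j _ => rfl⟩
    | succ n _ ih =>
      rw [hsq]
      refine ⟨ih.1.trans (hs1 n (sq n)), fun j hj => ?_⟩
      rw [hs2 n (sq n) j (ih.1 hj)]
      exact ih.2 j hj
  let z : Om1 × ℕ → Fin 3 := fun j => if h : ∃ n, j ∈ (sq n).1.1 then
    (sq (Nat.find h)).1.2 j else z₀ j
  have hz : ∀ j, ∃ n, z j = (sq n).1.2 j := by
    intro j
    by_cases h : ∃ n, j ∈ (sq n).1.1
    · exact ⟨Nat.find h, dif_pos h⟩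
    · exact ⟨0, dif_neg h⟩
  have hzn : ∀ n, ∀ j ∈ (sq n).1.1, z j = (sq n).1.2 j := by
    intro n j hj
    have h : ∃ n, j ∈ (sq n).1.1 := ⟨n, hj⟩
    have h1 : z j = (sq (Nat.find h)).1.2 j := dif_pos h
    rw [h1]
    exact ((hmono _ _ (Nat.find_min' h hj)).2 j (Nat.find_spec h)).symm
  have hgz : Good E δ z := by
    constructor
    · intro j hj
      obtain ⟨n, hn⟩ := hz j
      rw [hn]
      exact (sq n).2.1 j hj
    · intro j hj
      obtain ⟨n, hn⟩ := hz j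
      rw [hn]
      exact (sq n).2.2 j hj
  obtain ⟨n, hn⟩ := hP z hgz
  obtain ⟨j, hj, hne⟩ := hs3 n (sq n) z hn hgz
  rw [← hsq] at hj hne
  exact hne (hzn (n + 1) j hj)

theorem not_quasiDevelopable {E : Om1 → Om1 × ℕ → Fin 3}
    (hE : ∀ α β, α ≤ β → {j : Om1 × ℕ | j.1 < α ∧ E α j ≠ E β j}.Finite) :
    ¬ @QuasiDevelopable (Pt E) (fatTop E) := by
  classical
  let _ := fatTop E
  rintro ⟨𝒢, h𝒢o, h𝒢⟩
  -- the data at a level
  let Q : Om1 → ℕ → (Om1 × ℕ → Fin 3) → Prop := fun δ n w =>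
    ∃ p : Pt E, p.lev = δ ∧ p.val = w ∧ p ∈ starOf (𝒢 n) p ∧ starOf (𝒢 n) p ⊆ {q | q.lev ≤ δ}
  let Φ : Om1 → Om1 → ℕ → Finset ((Om1 × ℕ) × Fin 3) → Prop := fun δ ξ n A =>
    ξ < δ ∧ (∀ a ∈ A, a.1.1 ≤ ξ) ∧ (∃ G ∈ 𝒢 n, ∃ p ∈ G, p.lev = δ ∧ Nb E δ ξ A ⊆ G) ∧
    (∃ z, Good E δ z ∧ ∀ a ∈ A, z a.1 = a.2) ∧
    ∀ z', Good E δ z' → (∀ a ∈ A, z' a.1 = a.2) → ∀ F' : Finset (Om1 × ℕ),
      ∃ w, Good E δ w ∧ (∀ j ∈ F', w j = z' j) ∧ Q δ n w
  have key : ∀ δ, ∃ ξ n A, (∃ ξ', ξ' < δ) → Φ δ ξ n A := by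
    intro δ
    by_cases hδ : ∃ ξ', ξ' < δ
    · obtain ⟨n, F, z, hz, hdense⟩ := exists_dense E δ (fun n => {w | Q δ n w}) (by
        intro z hz
        obtain ⟨p, hp1, hp2⟩ := exists_good_pt hδ hz
        obtain ⟨n, hn1, hn2⟩ := h𝒢 p {q | q.lev ≤ δ} (isOpen_lev_le hE δ) hp1.le
        exact ⟨n, p, hp1, hp2, hn1, hn2⟩)
      obtain ⟨w, ⟨p, hp1, hp2, hp3, hp4⟩, hgw, hwz⟩ := hdense z hz (fun j _ => rfl) F
      obtain ⟨G, ⟨hG, _⟩, hpG⟩ := hp3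
      obtain ⟨ξ₀, hξ₀, G₀, hG₀, hsub⟩ := mem_nhds_fat hE ((h𝒢o n G hG).mem_nhds hpG)
      obtain ⟨ξ, G', a1, a2, a3, a4, a5⟩ := exists_canonical p hξ₀
        (G₀ ∪ F.filter (fun j => j.1 < p.lev)) (by
          intro j hj
          rcases Finset.mem_union.1 hj with hj | hj
          · exact hG₀ j hj
          · exact (Finset.mem_filter.1 hj).2)
      have hNb := hsub ξ G' a1 (Finset.subset_union_left.trans a3)
      rw [hp1, hp2] at hNb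
      refine ⟨ξ, n, gr w G', fun _ => ⟨hp1 ▸ a2, fun a ha => a4 a.1 (mem_gr.1 ha).1,
        ⟨G, hG, p, hpG, hp1, hNb⟩, ⟨w, hgw, fun a ha => (mem_gr.1 ha).2.symm⟩, ?_⟩⟩
      intro z' hz' hz'A F'
      obtain ⟨w', hw'Q, hgw', hw'z'⟩ := hdense z' hz' (by
        intro j hj
        by_cases hjl : j.1 < p.lev
        · have hjG : j ∈ G' := a3 (Finset.mem_union_right _ (Finset.mem_filter.2 ⟨hj, hjl⟩))
          rw [hz'A (j, w j) (mem_gr.2 ⟨hjG, rfl⟩)]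
          exact hwz j hj
        · have hjl' : δ ≤ j.1 := by rw [← hp1]; exact not_lt.1 hjl
          rw [hz'.1 j hjl', hz.1 j hjl']) F'
      exact ⟨w', hgw', hw'z', hw'Q⟩
    · exact ⟨δ, 0, ∅, fun h => absurd h hδ⟩
  choose r n A hΦ using key
  obtain ⟨ξ, ⟨m, B⟩, hun⟩ := pressing (fun ξ => ξ) r (fun δ => (n δ, A δ))
    (fun δ h _ => (hΦ δ h).1) (by
      intro ξ
      have h1 : ((Set.univ : Set ℕ) ×ˢ {A : Finset ((Om1 × ℕ) × Fin 3) |
          ∀ a ∈ A, a ∈ {a : (Om1 × ℕ) × Fin 3 | a.1.1 ≤ ξ}}).Countable := by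
        refine Set.countable_univ.prod (countable_finsets ?_)
        have h2 : ((Set.Iic ξ ×ˢ (Set.univ : Set ℕ)) ×ˢ (Set.univ : Set (Fin 3))).Countable :=
          ((om1_Iic ξ).prod Set.countable_univ).prod Set.countable_univ
        refine h2.mono ?_
        rintro a ha
        exact ⟨⟨ha, Set.mem_univ _⟩, Set.mem_univ _⟩
      refine h1.mono ?_
      rintro _ ⟨δ, h2, h3, _, rfl⟩
      exact ⟨Set.mem_univ _, fun a ha => h2 ▸ (hΦ δ h3).2.1 a ha⟩)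
  obtain ⟨β, hξβ, _, hrβ, hdβ⟩ := hun ξ
  obtain ⟨δ, hβδ, _, hrδ, hdδ⟩ := hun β
  have hnβ : n β = m ∧ A β = B := Prod.ext_iff.1 hdβ
  have hnδ : n δ = m ∧ A δ = B := Prod.ext_iff.1 hdδ
  have hΦβ := hΦ β ⟨ξ, hξβ⟩
  have hΦδ := hΦ δ ⟨β, hβδ⟩
  rw [hrβ, hnβ.1, hnβ.2] at hΦβ
  rw [hrδ, hnδ.1, hnδ.2] at hΦδ
  obtain ⟨_, _, _, ⟨zβ, hzβ, hzβB⟩, hden⟩ := hΦβ
  obtain ⟨_, _, ⟨G, hG, p, hpG, hpδ, hNb⟩, _, _⟩ := hΦδ
  let z' : Om1 × ℕ → Fin 3 := fun j =>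
    if j ∈ B.image Prod.fst then zβ j else
      if j.1 < β then (exists_third (E β j) (E δ j)).choose else 0
  have hz'1 : ∀ j ∈ B.image Prod.fst, z' j = zβ j := fun j hj => if_pos hj
  have hz'2 : ∀ j ∉ B.image Prod.fst, j.1 < β →
      z' j = (exists_third (E β j) (E δ j)).choose := by
    intro j hj hl
    have h1 : z' j = if j.1 < β then (exists_third (E β j) (E δ j)).choose else 0 := if_neg hj
    rw [h1, if_pos hl]
  have hz'3 : ∀ j ∉ B.image Prod.fst, β ≤ j.1 → z' j = 0 := by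
    intro j hj hl
    have h1 : z' j = if j.1 < β then (exists_third (E β j) (E δ j)).choose else 0 := if_neg hj
    rw [h1, if_neg (not_lt.2 hl)]
  have hgood : Good E β z' := by
    constructor
    · intro j hj
      by_cases hjB : j ∈ B.image Prod.fst
      · rw [hz'1 j hjB]; exact hzβ.1 j hj
      · exact hz'3 j hjB hj
    · intro j hj
      by_cases hjB : j ∈ B.image Prod.fst
      · rw [hz'1 j hjB]; exact hzβ.2 j hj
      · rw [hz'2 j hjB hj]; exact (exists_third (E β j) (E δ j)).choose_spec.1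
  obtain ⟨w, hgw, hwz', q, hq1, hq2, hq3, hq4⟩ := hden z' hgood (by
    intro a ha
    rw [hz'1 a.1 (Finset.mem_image_of_mem _ ha)]
    exact hzβB a ha) (B.image Prod.fst ∪ (hE β δ hβδ.le).toFinset)
  have hqN : q ∈ Nb E δ ξ B := by
    refine ⟨by rw [hq1]; exact hξβ, by rw [hq1]; exact hβδ.le, ?_, ?_⟩
    · intro a ha
      have h1 : a.1 ∈ B.image Prod.fst := Finset.mem_image_of_mem _ ha
      rw [hq2, hwz' a.1 (Finset.mem_union_left _ h1), hz'1 a.1 h1]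
      exact hzβB a ha
    · intro j hj hl
      rw [hq1] at hl
      have hjB : j ∉ B.image Prod.fst := by
        intro h
        obtain ⟨a, ha, rfl⟩ := Finset.mem_image.1 h
        exact hj a ha rfl
      rw [hq2]
      by_cases heq : E β j = E δ j
      · rw [← heq]; exact hgw.2 j hl
      · have h1 : j ∈ B.image Prod.fst ∪ (hE β δ hβδ.le).toFinset := by
          apply Finset.mem_union_right
          rw [Set.Finite.mem_toFinset]
          exact ⟨hl, heq⟩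
        rw [hwz' j h1, hz'2 j hjB hl]
        exact (exists_third (E β j) (E δ j)).choose_spec.2
  have hpst : p ∈ starOf (𝒢 m) q := ⟨G, ⟨hG, hNb hqN⟩, hpG⟩
  have : p.lev ≤ β := hq4 hpst
  rw [hpδ] at this
  exact absurd this (not_le.2 hβδ)

end Pool.Agent.Helper185.Fat
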