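import Pool.Agent.Helper185.Fat3

/-!
# The fat tree space contains no perfect preimage of `ω₁`
-/

namespace Pool.Agent.Helper185.Fat

open Set Topology

/-- The order topology of `ω₁`. -/
@[reducible] noncomputable def om1Top : TopologicalSpace Om1 := Preorder.topology Om1

/-- Some subspace of `X` maps onto `ω₁` (with the order topology) by a continuous closed map all
of whose fibres are compact. -/
def ContainsPerfectPreimage (X : Type) [TopologicalSpace X] : Prop :=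
  ∃ (Z : Set X) (f : Z → Om1), Function.Surjective f ∧ @Continuous Z Om1 _ om1Top f ∧
    @IsClosedMap Z Om1 _ om1Top f ∧ ∀ a, IsCompact (f ⁻¹' {a})

theorem isCompact_Iic_om1 (δ : Om1) : @IsCompact _ om1Top (Set.Iic δ) := by
  let _ := om1Top
  haveI : OrderTopology Om1 := ⟨rfl⟩
  rw [isCompact_iff_ultrafilter_le_nhds]
  intro 𝒰 h𝒰
  have hN : Set.Iic δ ∈ 𝒰 := Filter.le_principal_iff.1 h𝒰
  obtain ⟨β, hβ, hmin⟩ := exists_least (S := {β | Set.Iic β ∈ 𝒰}) ⟨δ, hN⟩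
  refine ⟨β, hmin δ hN, ?_⟩
  rw [nhds_eq_order]
  refine le_inf ?_ ?_
  · refine le_iInf₂ (fun b hb => ?_)
    rw [Filter.le_principal_iff]
    have h1 : Set.Iic b ∉ 𝒰 := fun h => absurd (hmin b h) (not_le.2 hb)
    have h2 := Ultrafilter.compl_mem_iff_notMem.2 h1
    rw [Set.compl_Iic] at h2
    exact h2
  · refine le_iInf₂ (fun b hb => ?_)
    rw [Filter.le_principal_iff]
    refine Filter.mem_of_superset hβ ?_
    intro x hx
    exact lt_of_le_of_lt (Set.mem_Iic.1 hx) hb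

theorem isOpen_Iic_om1 (δ : Om1) : @IsOpen _ om1Top (Set.Iic δ) := by
  let _ := om1Top
  haveI : OrderTopology Om1 := ⟨rfl⟩
  obtain ⟨γ₀, hγ₀⟩ := exists_gt (om1_Iic δ)
  obtain ⟨γ, hγ, hmin⟩ := exists_least (S := {γ | δ < γ}) ⟨γ₀, hγ₀ δ (Set.mem_Iic.2 le_rfl)⟩
  have : Set.Iic δ = Set.Iio γ := by
    ext x
    constructor
    · intro hx; exact lt_of_le_of_lt (Set.mem_Iic.1 hx) (show δ < γ from hγ)
    · intro hx
      by_contra hcon
      exact absurd (hmin x (show δ < x from not_le.1 hcon)) (not_le.2 hx)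
  rw [this]
  exact isOpen_Iio

theorem no_perfect_preimage {e : Om1 → Om1 → ℕ}
    (he : ∀ α β, α < β → {ξ | ξ ≤ α ∧ e α ξ ≠ e β ξ}.Finite)
    (hfin : ∀ α n, {ξ | ξ ≤ α ∧ e α ξ ≤ n}.Finite) :
    ¬ @ContainsPerfectPreimage (Pt (col e)) (fatTop (col e)) := by
  classical
  have hE : ∀ α β, α ≤ β → {j : Om1 × ℕ | j.1 < α ∧ col e α j ≠ col e β j}.Finite :=
    fun α β h => col_coherent he h
  let _ := fatTop (col e)
  let _ := om1Top
  rintro ⟨Z, f, hsurj, hcont, hclosed, hfib⟩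
  have hproper : IsProperMap f := isProperMap_iff_isClosedMap_and_compact_fibers.2
    ⟨hcont, hclosed, hfib⟩
  have hcomp : ∀ δ, IsCompact (f ⁻¹' (Set.Iic δ)) := fun δ =>
    hproper.isCompact_preimage (isCompact_Iic_om1 δ)
  -- `f` is bounded on initial parts
  have hbound : ∀ γ, ∃ B, ∀ z : Z, z.1.lev ≤ γ → f z < B := by
    intro γ
    let bnd : Set (Pt (col e)) → Om1 := fun N =>
      if h : ∃ b, ∀ z : Z, z.1 ∈ N → f z ≤ b then h.choose else om1_nonempty.some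
    obtain ⟨B, hB⟩ := exists_gt ((countable_base (col e) γ).image bnd)
    refine ⟨B, fun z hz => ?_⟩
    have hopen : IsOpen (f ⁻¹' (Set.Iic (f z))) := (isOpen_Iic_om1 (f z)).preimage hcont
    obtain ⟨V, hV, hVf⟩ := isOpen_induced_iff.1 hopen
    have hzV : z.1 ∈ V := by
      have : z ∈ Subtype.val ⁻¹' V := by rw [hVf]; exact le_refl (f z)
      exact this
    obtain ⟨ξ₀, hξ₀, G₀, hG₀, hsub⟩ := mem_nhds_fat hE (hV.mem_nhds hzV)
    obtain ⟨ξ, G, a1, a2, a3, a4, a5⟩ := exists_canonical z.1 hξ₀ G₀ hG₀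
    have hN := hsub ξ G a1 a3
    have hex : ∃ b, ∀ z' : Z, z'.1 ∈ Nb (col e) z.1.lev ξ (gr z.1.val G) → f z' ≤ b := by
      refine ⟨f z, fun z' hz' => ?_⟩
      have h1 : z' ∈ Subtype.val ⁻¹' V := hN hz'
      rw [hVf] at h1
      exact h1
    have h1 : bnd (Nb (col e) z.1.lev ξ (gr z.1.val G)) = hex.choose := dif_pos hex
    have h2 : f z ≤ hex.choose := hex.choose_spec z a5
    have h3 : bnd (Nb (col e) z.1.lev ξ (gr z.1.val G)) < B := hB _ ⟨_, ⟨z.1.lev, ξ, gr z.1.val G,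
      hz, a2.le.trans hz, fun a ha => a4 a.1 (mem_gr.1 ha).1, rfl⟩, rfl⟩
    rw [h1] at h3
    exact h2.trans_lt h3
  choose B hB using hbound
  have hhigh : ∀ i, ∃ z : Z, i < z.1.lev := by
    intro i
    by_contra hcon
    push Not at hcon
    obtain ⟨z, hz⟩ := hsurj (B i)
    exact absurd hz (hB i z (hcon z)).ne
  choose zz hzz using hhigh
  let h : Om1 → Om1 := fun i => max (B i) (zz i).1.lev
  -- the data at closed levels
  have key : ∀ δ, ∃ ξ, ∃ F : Finset (Om1 × ℕ), (∃ ξ', ξ' < δ) → (∀ ξ' < δ, h ξ' < δ) →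
      ξ < δ ∧ (∀ j ∈ F, j.1 ≤ ξ) ∧ ∀ z : Z, ξ < z.1.lev → z.1.lev < δ →
        ∀ j ∉ F, j.1 < z.1.lev → z.1.val j ≠ col e δ j := by
    intro δ
    by_cases hδ : ∃ ξ', ξ' < δ
    · by_cases hcl : ∀ ξ' < δ, h ξ' < δ
      · obtain ⟨ξ₀, hξ₀⟩ := hδ
        have hR : ∀ w : Pt (col e), ∃ U ∈ 𝓝 w, ∃ ξ, ∃ F : Finset (Om1 × ℕ), ξ < δ ∧
            (∀ j ∈ F, j.1 < δ) ∧ ∀ q ∈ U, ξ < q.lev → q.lev < δ → ∀ j ∉ F, j.1 < q.lev →
              q.val j ≠ col e δ j := by
          intro w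
          rcases lt_trichotomy w.lev δ with hw | hw | hw
          · refine ⟨{q | q.lev ≤ w.lev}, (isOpen_lev_le hE w.lev).mem_nhds (le_refl w.lev), w.lev,
              ∅, hw, fun j hj => absurd hj (Finset.notMem_empty _), ?_⟩
            intro q hq hq' _ _ _ _
            exact absurd hq' (not_lt.2 hq)
          · obtain ⟨ξ, G, a1, a2, a3, a4, a5⟩ := exists_canonical w (ξ₀ := ξ₀) (hw ▸ hξ₀) ∅
              (fun j hj => absurd hj (Finset.notMem_empty _))
            refine ⟨_, ((isBasis hE).isOpen (gr_base a4)).mem_nhds a5, ξ, G, hw ▸ a2,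
              fun j hj => (a4 j hj).trans_lt (hw ▸ a2), ?_⟩
            intro q hq _ _ j hj hl
            have h1 := (mem_Nb_gr.1 hq).2.2.2 j hj hl
            rw [hw] at h1
            exact h1
          · refine ⟨{q | δ < q.lev}, (isOpen_lt_lev hE δ).mem_nhds hw, ξ₀, ∅, hξ₀,
              fun j hj => absurd hj (Finset.notMem_empty _), ?_⟩
            intro q hq _ hq' _ _ _
            exact absurd hq' (not_lt.2 (le_of_lt hq))
        choose U hU X F hX hF hUF using hR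
        have hQ : IsCompact (Subtype.val '' (f ⁻¹' (Set.Iic δ))) :=
          (hcomp δ).image continuous_subtype_val
        obtain ⟨t, _, ht⟩ := hQ.elim_nhds_subcover U (fun x _ => hU x)
        obtain ⟨ξ, _, b2, b3⟩ := exists_bound hξ₀
          ((t.image (fun w => ((X w, 0) : Om1 × ℕ))) ∪ t.biUnion F) (by
            intro j hj
            rcases Finset.mem_union.1 hj with hj | hj
            · obtain ⟨w, _, rfl⟩ := Finset.mem_image.1 hj
              exact hX w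
            · obtain ⟨w, _, hj⟩ := Finset.mem_biUnion.1 hj
              exact hF w j hj)
        refine ⟨ξ, t.biUnion F, fun _ _ => ⟨b2, fun j hj => b3 j (Finset.mem_union_right _ hj),
          ?_⟩⟩
        intro z hz1 hz2 j hj hl
        have hzQ : z.1 ∈ Subtype.val '' (f ⁻¹' (Set.Iic δ)) := by
          refine ⟨z, ?_, rfl⟩
          have h1 : f z < B z.1.lev := hB _ z le_rfl
          have h2 : B z.1.lev < δ := (le_max_left _ _).trans_lt (hcl _ hz2)
          exact (h1.trans h2).le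
        obtain ⟨w, hw, hzw⟩ := Set.mem_iUnion₂.1 (ht hzQ)
        refine hUF w z.1 hzw ?_ hz2 j (fun hjF => hj (Finset.mem_biUnion.2 ⟨w, hw, hjF⟩)) hl
        exact lt_of_le_of_lt (b3 (X w, 0) (Finset.mem_union_left _
          (Finset.mem_image_of_mem _ hw))) hz1
      · exact ⟨δ, ∅, fun _ h' => absurd h' hcl⟩
    · exact ⟨δ, ∅, fun h' => absurd h' hδ⟩
  choose r d hrd using key
  obtain ⟨ξ, F, hun⟩ := pressing h r d (fun δ h1 h2 => (hrd δ h1 h2).1) (by
    intro ξ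
    have h1 : {A : Finset (Om1 × ℕ) | ∀ a ∈ A, a ∈ {a : Om1 × ℕ | a.1 ≤ ξ}}.Countable := by
      refine countable_finsets ?_
      refine ((om1_Iic ξ).prod (Set.countable_univ (α := ℕ))).mono ?_
      rintro a ha
      exact ⟨ha, Set.mem_univ _⟩
    refine h1.mono ?_
    rintro _ ⟨δ, h2, h3, h4, rfl⟩ a ha
    have h5 := (hrd δ h3 h4).2.1 a ha
    rw [h2] at h5
    exact h5)
  -- the values of `e δ i` are bounded
  have hbdd : ∀ i, ξ ≤ i → (∀ m, (i, m) ∉ F) → ∃ M, ∀ δ, (∀ ξ' < δ, h ξ' < δ) → r δ = ξ →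
      d δ = F → i < δ → e δ i ≤ M := by
    intro i hi hiF
    by_contra hcon
    push Not at hcon
    obtain ⟨δ₁, c1, r1, d1, l1, _⟩ := hcon 0
    obtain ⟨δ₂, c2, r2, d2, l2, v2⟩ := hcon (e δ₁ i)
    obtain ⟨δ₃, c3, r3, d3, l3, v3⟩ := hcon (e δ₂ i)
    have hne : ∀ δ, (∀ ξ' < δ, h ξ' < δ) → r δ = ξ → d δ = F → i < δ → ∀ m,
        (zz i).1.val (i, m) ≠ col e δ (i, m) := by
      intro δ hc hr hd hl m
      have h1 := (hrd δ ⟨i, hl⟩ hc).2.2 (zz i)
      rw [hr, hd] at h1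
      refine h1 (hi.trans_lt (hzz i)) ((le_max_right _ _).trans_lt (hc i hl)) (i, m) (hiF m)
        (hzz i)
    rcases col_three v2 v3 ((zz i).1.val (i, e δ₂ i)) with h1 | h1 | h1
    · exact hne δ₁ c1 r1 d1 l1 _ h1
    · exact hne δ₂ c2 r2 d2 l2 _ h1
    · exact hne δ₃ c3 r3 d3 l3 _ h1
  -- uncountably many places with one bound
  have hI : ¬ {i : Om1 | ξ ≤ i ∧ ∀ m, (i, m) ∉ F}.Countable := by
    intro hc
    apply om1_not_countable
    refine ((hc.union (om1_Iio ξ)).union ((F.image Prod.fst).countable_toSet)).mono ?_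
    intro i _
    by_cases h1 : ξ ≤ i
    · by_cases h2 : ∀ m, (i, m) ∉ F
      · exact Or.inl (Or.inl ⟨h1, h2⟩)
      · push Not at h2
        obtain ⟨m, hm⟩ := h2
        exact Or.inr (Finset.mem_coe.2 (Finset.mem_image.2 ⟨(i, m), hm, rfl⟩))
    · exact Or.inl (Or.inr (not_le.1 h1))
  have hM : ∃ M, {i : Om1 | (ξ ≤ i ∧ ∀ m, (i, m) ∉ F) ∧ ∀ δ, (∀ ξ' < δ, h ξ' < δ) → r δ = ξ →
      d δ = F → i < δ → e δ i ≤ M}.Infinite := by
    by_contra hcon
    push Not at hcon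
    apply hI
    refine (Set.countable_iUnion (fun M => (hcon M).countable)).mono ?_
    rintro i ⟨h1, h2⟩
    obtain ⟨M, hM⟩ := hbdd i h1 h2
    exact Set.mem_iUnion.2 ⟨M, ⟨h1, h2⟩, hM⟩
  obtain ⟨M, hM⟩ := hM
  let g := hM.natEmbedding
  obtain ⟨γ, hγ⟩ := exists_gt (Set.countable_range (fun n => (g n : Om1)))
  obtain ⟨δ, hδ, c1, r1, d1⟩ := hun γ
  have hinf : (Set.range (fun n => (g n : Om1))).Infinite :=
    Set.infinite_range_of_injective (Subtype.val_injective.comp g.injective)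
  apply hinf
  refine (hfin δ M).subset ?_
  rintro _ ⟨n, rfl⟩
  have h1 : (g n : Om1) < δ := (hγ _ ⟨n, rfl⟩).trans hδ
  exact ⟨h1.le, (g n).2.2 δ c1 r1 d1 h1⟩

/-- Every point has a metrizable open neighbourhood. -/
def LocallyMetrizable (X : Type) [TopologicalSpace X] : Prop :=
  ∀ x : X, ∃ U : Set X, IsOpen U ∧ x ∈ U ∧ TopologicalSpace.MetrizableSpace U

/-- The weight of `X` is at most `ℵ₁`. -/
def WeightLeAleph1 (X : Type) [TopologicalSpace X] : Prop :=
  ∃ B : Set (Set X), TopologicalSpace.IsTopologicalBasis B ∧ Cardinal.mk B ≤ Cardinal.aleph 1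

theorem card_baseSets (E : Om1 → Om1 × ℕ → Fin 3) :
    Cardinal.mk (baseSets E) ≤ Cardinal.aleph 1 := by
  have h1 : baseSets E ⊆ Set.range
      (fun t : Om1 × Om1 × Finset ((Om1 × ℕ) × Fin 3) => Nb E t.1 t.2.1 t.2.2) := by
    rintro _ ⟨δ, ξ, A, _, rfl⟩
    exact ⟨(δ, ξ, A), rfl⟩
  refine (Cardinal.mk_le_mk_of_subset h1).trans (Cardinal.mk_range_le.trans ?_)
  have hω : Cardinal.aleph0 ≤ Cardinal.aleph 1 := Cardinal.aleph0_le_aleph 1
  haveI : Infinite Om1 := by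
    rw [← Cardinal.aleph0_le_mk_iff, om1_mk]; exact hω
  have h2 : Cardinal.mk (Finset ((Om1 × ℕ) × Fin 3)) ≤ Cardinal.aleph 1 := by
    haveI : Infinite ((Om1 × ℕ) × Fin 3) := inferInstance
    rw [Cardinal.mk_finset_of_infinite, Cardinal.mk_prod, Cardinal.mk_prod]
    simp only [Cardinal.lift_id, Cardinal.mk_nat, om1_mk, Cardinal.mk_fin]
    exact Cardinal.mul_le_of_le hω (Cardinal.mul_le_of_le hω le_rfl hω)
      ((Cardinal.natCast_le_aleph0 (n := 3)).trans hω)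
  rw [Cardinal.mk_prod, Cardinal.mk_prod]
  simp only [Cardinal.lift_id, om1_mk]
  exact Cardinal.mul_le_of_le hω le_rfl (Cardinal.mul_le_of_le hω le_rfl h2)

/-- The example. -/
theorem exists_fat : ∃ (X : Type) (_ : TopologicalSpace X), T2Space X ∧ LocallyCompactSpace X ∧
    LocallyMetrizable X ∧ WeightLeAleph1 X ∧ ¬ ContainsPerfectPreimage X ∧
    ¬ QuasiDevelopable X := by
  obtain ⟨e, he, hfin⟩ := exists_coherent
  have hE : ∀ α β, α ≤ β → {j : Om1 × ℕ | j.1 < α ∧ col e α j ≠ col e β j}.Finite :=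
    fun α β h => col_coherent he h
  refine ⟨Pt (col e), fatTop (col e), t2 hE, locallyCompact hE, ?_, ?_,
    no_perfect_preimage he hfin, not_quasiDevelopable hE⟩
  · let _ := fatTop (col e)
    intro p
    obtain ⟨ξ₀, hξ₀⟩ := p.2.1
    obtain ⟨ξ, G, _, _, _, a4, a5⟩ := exists_canonical p hξ₀ ∅
      (fun j hj => absurd hj (Finset.notMem_empty _))
    exact ⟨_, (isBasis hE).isOpen (gr_base a4), a5,
      metrizable_Nb hE (fun a ha => a4 a.1 (mem_gr.1 ha).1)⟩
  · let _ := fatTop (col e)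
    exact ⟨baseSets (col e), isBasis hE, card_baseSets (col e)⟩

end Pool.Agent.Helper185.Fat
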