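import Mathlib

/-!
# Forcing axioms for the club poset and for ccc posets: definitions
-/

namespace Pool.Agent.Helper185.Loc

open Set Topology

/-- A well order of type `ω₁`. -/
abbrev Om1 : Type := (Cardinal.aleph 1).ord.ToType

/-- `G` is a filter in the preordered set `(P, le)`. -/
def IsFilterIn {P : Type} (le : P → P → Prop) (G : Set P) : Prop :=
  G.Nonempty ∧ (∀ p ∈ G, ∀ q, le p q → q ∈ G) ∧ ∀ p ∈ G, ∀ q ∈ G, ∃ r ∈ G, le r p ∧ le r q

/-- The forcing axiom `FA_{ω₁}(P)`: for any `ω₁` many dense sets some filter meets them all. -/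
def FA {P : Type} (le : P → P → Prop) : Prop :=
  ∀ D : Om1 → Set P, (∀ i p, ∃ q ∈ D i, le q p) →
    ∃ G : Set P, IsFilterIn le G ∧ ∀ i, ∃ p ∈ D i, p ∈ G

/-- Every antichain is countable. -/
def CCC {P : Type} (le : P → P → Prop) : Prop :=
  ∀ A : Set P, (∀ p ∈ A, ∀ q ∈ A, p ≠ q → ¬ ∃ r, le r p ∧ le r q) → A.Countable

/-- Martin's axiom for `ω₁` dense sets, `MA_{ω₁}`. -/
def MartinAxiom : Prop :=
  ∀ (P : Type) (le : P → P → Prop), Nonempty P → (∀ p, le p p) →
    (∀ p q r, le p q → le q r → le p r) → CCC le → FA le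

/-- Conditions of Baumgartner's club poset: finite sets of pairwise disjoint closed intervals
`[a, b]` of `ω₁`. -/
def ClubCond : Type :=
  {p : Finset (Om1 × Om1) // (∀ x ∈ p, x.1 ≤ x.2) ∧
    ∀ x ∈ p, ∀ y ∈ p, x = y ∨ x.2 < y.1 ∨ y.2 < x.1}

/-- The order: more intervals is stronger. -/
def ClubLe (p q : ClubCond) : Prop := q.1 ⊆ p.1

/-- The forcing axiom for Baumgartner's club poset. -/
def ClubAxiom : Prop := FA ClubLe

theorem om1_Iio (a : Om1) : (Set.Iio a).Countable := by
  rw [← Cardinal.le_aleph0_iff_set_countable, ← Cardinal.lt_aleph_one_iff]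
  exact Cardinal.mk_Iio_toType_ord_lt a

theorem om1_mk : Cardinal.mk Om1 = Cardinal.aleph 1 := Cardinal.mk_ord_toType _

theorem om1_not_countable : ¬ (Set.univ : Set Om1).Countable := by
  intro h
  rw [← Cardinal.le_aleph0_iff_set_countable, Cardinal.mk_univ, om1_mk] at h
  exact absurd h (not_le.2 Cardinal.aleph0_lt_aleph_one)

theorem om1_nonempty : Nonempty Om1 := by
  by_contra h
  rw [not_nonempty_iff] at h
  exact om1_not_countable (Set.countable_univ_iff.2 inferInstance)

theorem exists_gt {A : Set Om1} (hA : A.Countable) : ∃ γ, ∀ a ∈ A, a < γ := by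
  by_contra hcon
  push Not at hcon
  apply om1_not_countable
  apply Set.Countable.mono (s₂ := ⋃ a ∈ A, Set.Iic a)
  · intro γ _
    obtain ⟨a, ha, hγ⟩ := hcon γ
    exact Set.mem_iUnion₂.2 ⟨a, ha, hγ⟩
  · refine hA.biUnion (fun a _ => ?_)
    rw [← Set.Iio_insert]
    exact (om1_Iio a).insert _

theorem om1_Iic (a : Om1) : (Set.Iic a).Countable := by
  rw [← Set.Iio_insert]
  exact (om1_Iio a).insert _

/-- A least element of a nonempty set. -/
theorem exists_least {S : Set Om1} (h : S.Nonempty) : ∃ a ∈ S, ∀ b ∈ S, a ≤ b := by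
  obtain ⟨a, ha, hmin⟩ := WellFounded.has_min (wellFounded_lt (α := Om1)) S h
  exact ⟨a, ha, fun b hb => not_lt.1 (hmin b hb)⟩

/-- Forcing axiom for index sets of size at most `ℵ₁`. -/
theorem FA_index {P : Type} {le : P → P → Prop} (hrefl : ∀ p, le p p) (hFA : FA le)
    {J : Type} (hJ : Cardinal.mk J ≤ Cardinal.aleph 1) (D : J → Set P)
    (hD : ∀ i p, ∃ q ∈ D i, le q p) :
    ∃ G : Set P, IsFilterIn le G ∧ ∀ i, ∃ p ∈ D i, p ∈ G := by
  rw [← om1_mk] at hJ
  obtain ⟨e⟩ := hJ
  obtain ⟨G, hG, hGD⟩ := hFA (fun i => {p | ∀ j, e j = i → p ∈ D j}) (by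
    intro i p
    by_cases h : ∃ j, e j = i
    · obtain ⟨j, hj⟩ := h
      obtain ⟨q, hq, hqp⟩ := hD j p
      refine ⟨q, fun j' hj' => ?_, hqp⟩
      have : j' = j := e.injective (hj'.trans hj.symm)
      rw [this]; exact hq
    · exact ⟨p, fun j hj => absurd ⟨j, hj⟩ h, hrefl p⟩)
  refine ⟨G, hG, fun i => ?_⟩
  obtain ⟨p, hp, hpG⟩ := hGD (e i)
  exact ⟨p, hp i rfl, hpG⟩

/-- The club obtained from the axiom: it misses infinitely many of the intervals
`[σ z n, a z n]` for every `z`. -/
theorem exists_club (hCA : ClubAxiom) {Z : Type} (hZ : Cardinal.mk Z ≤ Cardinal.aleph 1)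
    (lam : Z → Om1) (σ a : Z → ℕ → Om1)
    (hlim : ∀ z, ∀ β < lam z, ∃ β' < lam z, β < β')
    (hle : ∀ z n, σ z n ≤ a z n) (hlt : ∀ z n, a z n < lam z)
    (hconv : ∀ z, ∀ β < lam z, ∃ N, ∀ n ≥ N, β < σ z n) :
    ∃ C : Set Om1, (∀ β, ∃ c ∈ C, β < c) ∧
      (∀ δ, (∀ β < δ, ∃ c ∈ C, β < c ∧ c < δ) → (∃ β, β < δ) → δ ∈ C) ∧
      ∀ z k, ∃ n ≥ k, ∀ c ∈ C, ¬ (σ z n ≤ c ∧ c ≤ a z n) := by
  classical
  have hcard : Cardinal.mk ((Om1 ⊕ Om1) ⊕ (Z × ℕ)) ≤ Cardinal.aleph 1 := by
    rw [Cardinal.mk_sum, Cardinal.mk_sum, Cardinal.mk_prod]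
    simp only [Cardinal.lift_id, Cardinal.mk_nat, om1_mk, Cardinal.lift_add,
      Cardinal.lift_mul]
    rw [Cardinal.add_eq_self (Cardinal.aleph0_le_aleph 1)]
    apply Cardinal.add_le_of_le (Cardinal.aleph0_le_aleph 1) le_rfl
    exact Cardinal.mul_le_of_le (Cardinal.aleph0_le_aleph 1) hZ (Cardinal.aleph0_le_aleph 1)
  let D : (Om1 ⊕ Om1) ⊕ (Z × ℕ) → Set ClubCond := fun i =>
    match i with
    | Sum.inl (Sum.inl α) => {p | ∃ x ∈ p.1, x.1 ≤ α ∧ α ≤ x.2}
    | Sum.inl (Sum.inr α) => {p | ∃ x ∈ p.1, α < x.1}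
    | Sum.inr (z, k) => {p | (∃ x ∈ p.1, x.1 < lam z ∧ lam z ≤ x.2) ∨
        ∃ x ∈ p.1, ∃ n ≥ k, x.1 < σ z n ∧ a z n ≤ x.2}
  obtain ⟨G, ⟨hGne, hGup, hGdir⟩, hGD⟩ := FA_index (le := ClubLe)
    (fun p => Finset.Subset.refl _) hCA hcard D (by
      rintro ((α | α) | ⟨z, k⟩) p
      · by_cases h : ∃ x ∈ p.1, x.1 ≤ α ∧ α ≤ x.2
        · exact ⟨p, h, Finset.Subset.refl _⟩
        · push Not at h
          refine ⟨⟨insert (α, α) p.1, ?_, ?_⟩, ?_, ?_⟩
          · intro x hx
            rcases Finset.mem_insert.1 hx with rfl | hx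
            · exact le_rfl
            · exact p.2.1 x hx
          · intro x hx y hy
            rcases Finset.mem_insert.1 hx with rfl | hx
            · rcases Finset.mem_insert.1 hy with rfl | hy
              · exact Or.inl rfl
              · right
                rcases lt_or_ge α y.1 with h1 | h1
                · exact Or.inl h1
                · exact Or.inr (h y hy h1)
            · rcases Finset.mem_insert.1 hy with rfl | hy
              · right
                rcases lt_or_ge α x.1 with h1 | h1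
                · exact Or.inr h1
                · exact Or.inl (h x hx h1)
              · exact p.2.2 x hx y hy
          · exact ⟨(α, α), Finset.mem_insert_self _ _, le_rfl, le_rfl⟩
          · exact Finset.subset_insert _ _
      · obtain ⟨γ, hγ⟩ := exists_gt (A := insert α (Prod.snd '' (p.1 : Set (Om1 × Om1))))
          (((p.1.finite_toSet.image _).insert α).countable)
        have hγα : α < γ := hγ _ (Set.mem_insert _ _)
        have hγp : ∀ x ∈ p.1, x.2 < γ := fun x hx =>
          hγ _ (Set.mem_insert_of_mem _ ⟨x, hx, rfl⟩)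
        refine ⟨⟨insert (γ, γ) p.1, ?_, ?_⟩, ?_, ?_⟩
        · intro x hx
          rcases Finset.mem_insert.1 hx with rfl | hx
          · exact le_rfl
          · exact p.2.1 x hx
        · intro x hx y hy
          rcases Finset.mem_insert.1 hx with rfl | hx
          · rcases Finset.mem_insert.1 hy with rfl | hy
            · exact Or.inl rfl
            · exact Or.inr (Or.inr (hγp y hy))
          · rcases Finset.mem_insert.1 hy with rfl | hy
            · exact Or.inr (Or.inl (hγp x hx))
            · exact p.2.2 x hx y hy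
        · exact ⟨(γ, γ), Finset.mem_insert_self _ _, hγα⟩
        · exact Finset.subset_insert _ _
      · by_cases h : ∃ x ∈ p.1, x.1 < lam z ∧ lam z ≤ x.2
        · exact ⟨p, Or.inl h, Finset.Subset.refl _⟩
        · push Not at h
          -- a bound of the intervals to the left
          have hbd : ∃ μ < lam z, ∀ x ∈ p.1, x.1 < lam z → x.2 < μ := by
            have hne : ∃ μ, μ < lam z := ⟨a z 0, hlt z 0⟩
            obtain ⟨μ₀, hμ₀⟩ := hne
            have hgen : ∀ s : Finset (Om1 × Om1), (∀ x ∈ s, x.1 < lam z → x.2 < lam z) →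
                ∃ μ < lam z, ∀ x ∈ s, x.1 < lam z → x.2 < μ := by
              intro s
              induction s using Finset.induction_on with
              | empty => intro _; exact ⟨μ₀, hμ₀, fun x hx => absurd hx (Finset.notMem_empty _)⟩
              | insert y s hy ih =>
                intro hs
                obtain ⟨μ, hμ, hb⟩ := ih (fun x hx => hs x (Finset.mem_insert_of_mem hx))
                by_cases hyl : y.1 < lam z
                · have h2 := hs y (Finset.mem_insert_self _ _) hyl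
                  obtain ⟨β', hβ', hlt'⟩ := hlim z _ (max_lt h2 hμ)
                  refine ⟨β', hβ', fun x hx hxl => ?_⟩
                  rcases Finset.mem_insert.1 hx with rfl | hx
                  · exact lt_of_le_of_lt (le_max_left _ _) hlt'
                  · exact (hb x hx hxl).trans (lt_of_le_of_lt (le_max_right _ _) hlt')
                · refine ⟨μ, hμ, fun x hx hxl => ?_⟩
                  rcases Finset.mem_insert.1 hx with rfl | hx
                  · exact absurd hxl hyl
                  · exact hb x hx hxl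
            exact hgen p.1 h
          obtain ⟨μ, hμ, hb⟩ := hbd
          obtain ⟨N, hN⟩ := hconv z μ hμ
          set n := max N k with hn
          have h1 : μ < σ z n := hN n (le_max_left _ _)
          have h2 : a z n < lam z := hlt z n
          have h3 : μ ≤ a z n := h1.le.trans (hle z n)
          refine ⟨⟨insert (μ, a z n) p.1, ?_, ?_⟩, ?_, ?_⟩
          · intro x hx
            rcases Finset.mem_insert.1 hx with rfl | hx
            · exact h3
            · exact p.2.1 x hx
          · intro x hx y hy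
            rcases Finset.mem_insert.1 hx with rfl | hx
            · rcases Finset.mem_insert.1 hy with rfl | hy
              · exact Or.inl rfl
              · right
                rcases lt_or_ge y.1 (lam z) with h4 | h4
                · exact Or.inr (hb y hy h4)
                · exact Or.inl (h2.trans_le h4)
            · rcases Finset.mem_insert.1 hy with rfl | hy
              · right
                rcases lt_or_ge x.1 (lam z) with h4 | h4
                · exact Or.inl (hb x hx h4)
                · exact Or.inr (h2.trans_le h4)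
              · exact p.2.2 x hx y hy
          · right
            exact ⟨(μ, a z n), Finset.mem_insert_self _ _, n, le_max_right _ _, h1, le_rfl⟩
          · exact Finset.subset_insert _ _)
  -- compatibility of all intervals occurring in the filter
  have hcomp : ∀ p ∈ G, ∀ q ∈ G, ∀ x ∈ p.1, ∀ y ∈ q.1, x = y ∨ x.2 < y.1 ∨ y.2 < x.1 := by
    intro p hp q hq x hx y hy
    obtain ⟨r, _, hrp, hrq⟩ := hGdir p hp q hq
    exact r.2.2 x (hrp hx) y (hrq hy)
  have hleG : ∀ p ∈ G, ∀ x ∈ p.1, x.1 ≤ x.2 := fun p _ x hx => p.2.1 x hx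
  refine ⟨{c | ∃ p ∈ G, ∃ x ∈ p.1, x.1 = c}, ?_, ?_, ?_⟩
  · intro β
    obtain ⟨p, ⟨x, hx, hlt'⟩, hpG⟩ := hGD (Sum.inl (Sum.inr β))
    exact ⟨x.1, ⟨p, hpG, x, hx, rfl⟩, hlt'⟩
  · intro δ hδ _
    obtain ⟨p, ⟨x, hx, h1, h2⟩, hpG⟩ := hGD (Sum.inl (Sum.inl δ))
    rcases h1.lt_or_eq with h1 | h1
    · exfalso
      obtain ⟨c, ⟨q, hqG, y, hy, rfl⟩, hc1, hc2⟩ := hδ x.1 h1
      rcases hcomp p hpG q hqG x hx y hy with h | h | h
      · rw [h] at hc1; exact lt_irrefl _ hc1
      · exact absurd (hc2.trans_le h2) (not_lt.2 h.le)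
      · have := hleG q hqG y hy
        exact absurd (h.trans hc1) (not_lt.2 this)
    · exact ⟨p, hpG, x, hx, h1⟩
  · intro z k
    obtain ⟨p, hpD, hpG⟩ := hGD (Sum.inr (z, k))
    rcases hpD with ⟨x, hx, h1, h2⟩ | ⟨x, hx, n, hn, h1, h2⟩
    · obtain ⟨N, hN⟩ := hconv z x.1 h1
      refine ⟨max N k, le_max_right _ _, ?_⟩
      rintro c ⟨q, hqG, y, hy, rfl⟩ ⟨hc1, hc2⟩
      have h3 : x.1 < y.1 := (hN _ (le_max_left _ _)).trans_le hc1
      have h4 : y.1 < x.2 := (hc2.trans_lt (hlt z _)).trans_le h2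
      rcases hcomp p hpG q hqG x hx y hy with h | h | h
      · rw [h] at h3; exact lt_irrefl _ h3
      · exact absurd h4 (not_lt.2 h.le)
      · have := hleG q hqG y hy
        exact absurd (h.trans h3) (not_lt.2 this)
    · refine ⟨n, hn, ?_⟩
      rintro c ⟨q, hqG, y, hy, rfl⟩ ⟨hc1, hc2⟩
      have h3 : x.1 < y.1 := h1.trans_le hc1
      have h4 : y.1 ≤ x.2 := hc2.trans h2
      rcases hcomp p hpG q hqG x hx y hy with h | h | h
      · rw [h] at h3; exact lt_irrefl _ h3
      · exact absurd h4 (not_le.2 h)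
      · have := hleG q hqG y hy
        exact absurd (h.trans h3) (not_lt.2 this)

end Pool.Agent.Helper185.Loc
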