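import Pool.Agent.Helper185.Loc1

/-!
# Spaces with a `σ`-locally countable base: the `σ`-disjoint base
-/

namespace Pool.Agent.Helper185.Loc

open Set Topology

/-- Every point has a neighbourhood meeting only countably many members of `𝒰`. -/
def LocallyCountableFam {X : Type} [TopologicalSpace X] (𝒰 : Set (Set X)) : Prop :=
  ∀ x : X, ∃ V ∈ 𝓝 x, {U ∈ 𝒰 | (V ∩ U).Nonempty}.Countable

/-- `X` has a `σ`-locally countable base. -/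
def SigmaLocCountableBase (X : Type) [TopologicalSpace X] : Prop :=
  ∃ B : ℕ → Set (Set X), (∀ n, LocallyCountableFam (B n)) ∧
    TopologicalSpace.IsTopologicalBasis (⋃ n, B n)

/-- `X` has a `σ`-disjoint base. -/
def SigmaDisjointBase (X : Type) [TopologicalSpace X] : Prop :=
  ∃ D : ℕ → Set (Set X), (∀ n, ∀ U ∈ D n, ∀ V ∈ D n, U ≠ V → Disjoint U V) ∧
    TopologicalSpace.IsTopologicalBasis (⋃ n, D n)

section Construction

variable {X : Type} [TopologicalSpace X] (B : ℕ → Set (Set X)) (x : Om1 → X)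

/-- The first `α` points. -/
def XS (α : Om1) : Set X := x '' Set.Iio α

/-- The union of the members of `B m`, `m ≤ n`, that miss the first `α` points. -/
def GG (n : ℕ) (α : Om1) : Set X := ⋃₀ {U | (∃ m ≤ n, U ∈ B m) ∧ ∀ y ∈ U, y ∉ XS x α}

theorem XS_mono {α β : Om1} (h : α ≤ β) : XS x α ⊆ XS x β :=
  Set.image_mono (fun _ hy => lt_of_lt_of_le hy h)

theorem GG_anti (n : ℕ) {α β : Om1} (h : α ≤ β) : GG B x n β ⊆ GG B x n α := by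
  rintro y ⟨U, ⟨hU, hm⟩, hy⟩
  exact ⟨U, ⟨hU, fun z hz hz' => hm z hz (XS_mono x h hz')⟩, hy⟩

theorem GG_mono {n m : ℕ} (h : n ≤ m) (α : Om1) : GG B x n α ⊆ GG B x m α := by
  rintro y ⟨U, ⟨⟨k, hk, hU⟩, hm⟩, hy⟩
  exact ⟨U, ⟨⟨k, hk.trans h, hU⟩, hm⟩, hy⟩

variable {B x}
variable (hlc : ∀ n, LocallyCountableFam (B n))
  (hbase : TopologicalSpace.IsTopologicalBasis (⋃ n, B n))
  (hx : Function.Surjective x)

include hbase in
theorem isOpen_GG (n : ℕ) (α : Om1) : IsOpen (GG B x n α) := by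
  apply isOpen_sUnion
  rintro U ⟨⟨m, _, hU⟩, _⟩
  exact hbase.isOpen (Set.mem_iUnion.2 ⟨m, hU⟩)

include hlc in
theorem pointCountable (z : X) : {U | (∃ n, U ∈ B n) ∧ z ∈ U}.Countable := by
  have : {U | (∃ n, U ∈ B n) ∧ z ∈ U} = ⋃ n, {U | U ∈ B n ∧ z ∈ U} := by
    ext U
    simp only [Set.mem_ofPred_eq, Set.mem_iUnion]
    constructor
    · rintro ⟨⟨n, hn⟩, hz⟩; exact ⟨n, hn, hz⟩
    · rintro ⟨n, hn, hz⟩; exact ⟨⟨n, hn⟩, hz⟩
  rw [this]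
  refine Set.countable_iUnion (fun n => ?_)
  obtain ⟨V, hV, hc⟩ := hlc n z
  refine hc.mono ?_
  rintro U ⟨h1, h2⟩
  exact ⟨h1, z, mem_of_mem_nhds hV, h2⟩

include hlc hbase hx in
/-- (3): local countability in terms of `GG`. -/
theorem exists_nbhd (z : X) (n : ℕ) :
    ∃ V, (∃ m, V ∈ B m) ∧ z ∈ V ∧ ∃ γ, ∀ y ∈ V, y ∉ GG B x n γ := by
  choose V hV hc using fun m => hlc m z
  have hW : (⋂ m ∈ Set.Iic n, V m) ∈ 𝓝 z :=
    (Filter.biInter_mem (Set.finite_Iic n)).2 (fun m _ => hV m)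
  obtain ⟨U, hU, hzU, hUW⟩ := hbase.mem_nhds_iff.1 hW
  obtain ⟨m₀, hm₀⟩ := Set.mem_iUnion.1 hU
  refine ⟨U, ⟨m₀, hm₀⟩, hzU, ?_⟩
  -- the members met
  have hcount : (⋃ m ∈ Set.Iic n, {T ∈ B m | (V m ∩ T).Nonempty}).Countable :=
    (Set.finite_Iic n).countable.biUnion (fun m _ => hc m)
  classical
  let i : Set X → Om1 := fun T => if h : ∃ ξ, x ξ ∈ T then h.choose else om1_nonempty.some
  obtain ⟨γ, hγ⟩ := exists_gt (hcount.image i)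
  refine ⟨γ, ?_⟩
  rintro y hy ⟨T, ⟨⟨m, hm, hT⟩, hmiss⟩, hyT⟩
  have hmem : T ∈ ⋃ m ∈ Set.Iic n, {T ∈ B m | (V m ∩ T).Nonempty} := by
    refine Set.mem_iUnion₂.2 ⟨m, hm, hT, y, ?_, hyT⟩
    exact Set.mem_iInter₂.1 (hUW hy) m hm
  have h1 : i T < γ := hγ _ ⟨T, hmem, rfl⟩
  have hex : ∃ ξ, x ξ ∈ T := by
    obtain ⟨ξ, hξ⟩ := hx y
    exact ⟨ξ, by rw [hξ]; exact hyT⟩
  have h2 : i T = hex.choose := dif_pos hex
  have h3 : x (i T) ∈ T := by rw [h2]; exact hex.choose_spec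
  exact hmiss _ h3 ⟨i T, h1, rfl⟩

include hlc in
/-- (4): the function `h`. -/
theorem exists_h : ∃ h : Om1 → Om1, (∀ ξ, ξ < h ξ) ∧ ∀ ξ n, ∀ V, (∃ m, V ∈ B m) → x ξ ∈ V →
    (∃ γ, ∀ y ∈ V, y ∉ GG B x n γ) → ∀ y ∈ V, y ∉ GG B x n (h ξ) := by
  classical
  have key : ∀ ξ : Om1, ∃ δ, ξ < δ ∧ ∀ n, ∀ V, (∃ m, V ∈ B m) → x ξ ∈ V →
      (∃ γ, ∀ y ∈ V, y ∉ GG B x n γ) → ∀ y ∈ V, y ∉ GG B x n δ := by
    intro ξ
    let κ : Set X × ℕ → Om1 := fun p =>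
      if h : ∃ γ, ∀ y ∈ p.1, y ∉ GG B x p.2 γ then h.choose else om1_nonempty.some
    have hcount : (insert ξ (κ '' ({U | (∃ n, U ∈ B n) ∧ x ξ ∈ U} ×ˢ (Set.univ : Set ℕ)))).Countable := by
      apply Set.Countable.insert
      apply Set.Countable.image
      exact (pointCountable hlc (x ξ)).prod (Set.countable_univ)
    obtain ⟨δ, hδ⟩ := exists_gt hcount
    refine ⟨δ, hδ _ (Set.mem_insert _ _), ?_⟩
    intro n V hV hxV hex y hy hyG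
    have h1 : κ (V, n) < δ :=
      hδ _ (Set.mem_insert_of_mem _ ⟨(V, n), ⟨⟨hV, hxV⟩, Set.mem_univ _⟩, rfl⟩)
    have h2 : κ (V, n) = hex.choose := dif_pos hex
    have h3 := hex.choose_spec y hy
    rw [← h2] at h3
    exact h3 (GG_anti B x n h1.le hyG)
  choose h h1 h2 using key
  exact ⟨h, h1, h2⟩

include hlc hbase hx in
/-- (5) -/
theorem not_mem_closure {h : Om1 → Om1}
    (hh : ∀ ξ n, ∀ V, (∃ m, V ∈ B m) → x ξ ∈ V →
      (∃ γ, ∀ y ∈ V, y ∉ GG B x n γ) → ∀ y ∈ V, y ∉ GG B x n (h ξ))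
    {δ : Om1} (hδ : ∀ ξ < δ, h ξ < δ) {z : X} (hz : z ∈ closure (XS x δ)) (n : ℕ) :
    ∃ γ < δ, z ∉ closure (GG B x n γ) := by
  obtain ⟨V, hV, hzV, hex⟩ := exists_nbhd hlc hbase hx z n
  have hVo : IsOpen V := by
    obtain ⟨m, hm⟩ := hV
    exact hbase.isOpen (Set.mem_iUnion.2 ⟨m, hm⟩)
  obtain ⟨_, hyV, ⟨ξ, hξ, rfl⟩⟩ := mem_closure_iff.1 hz V hVo hzV
  refine ⟨h ξ, hδ ξ hξ, fun hcl => ?_⟩
  obtain ⟨y, hy1, hy2⟩ := mem_closure_iff.1 hcl V hVo hzV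
  exact hh ξ n V hV hyV hex y hy1 hy2

end Construction

end Pool.Agent.Helper185.Loc
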