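import Pool.Agent.Helper185.Loc2

/-!
# The `σ`-disjoint base
-/

namespace Pool.Agent.Helper185.Loc

open Set Topology

theorem exists_closed_gt (h : Om1 → Om1) (β : Om1) : ∃ δ, β < δ ∧ ∀ ξ < δ, h ξ < δ := by
  have hstep : ∀ y : Om1, ∃ z, y < z ∧ ∀ ξ ≤ y, h ξ < z := by
    intro y
    have hc : (insert y (h '' Set.Iic y)).Countable := ((om1_Iic y).image h).insert y
    obtain ⟨z, hz⟩ := exists_gt hc
    exact ⟨z, hz y (Set.mem_insert _ _),
      fun ξ hξ => hz _ (Set.mem_insert_of_mem _ ⟨ξ, hξ, rfl⟩)⟩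
  choose nx hnx1 hnx2 using hstep
  let g : ℕ → Om1 := fun n => Nat.rec (motive := fun _ => Om1) β (fun _ y => nx y) n
  have hg : ∀ n, g (n + 1) = nx (g n) := fun n => rfl
  obtain ⟨b, hb⟩ := exists_gt (Set.countable_range g)
  obtain ⟨δ, hδ, hmin⟩ := exists_least (S := {b | ∀ n, g n < b}) ⟨b, fun n => hb _ ⟨n, rfl⟩⟩
  refine ⟨δ, hδ 0, fun ξ hξ => ?_⟩
  have : ∃ n, ξ ≤ g n := by
    by_contra hcon
    push Not at hcon
    exact absurd (hmin ξ hcon) (not_le.2 hξ)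
  obtain ⟨n, hn⟩ := this
  exact (hnx2 (g n) ξ hn).trans (hδ (n + 1))

/-- The largest closed point below `τ`. -/
theorem exists_floor (h : Om1 → Om1) (τ : Om1) :
    ∃ s, (∀ ξ < s, h ξ < s) ∧ s ≤ τ ∧ ∀ γ, (∀ ξ < γ, h ξ < γ) → γ ≤ τ → γ ≤ s := by
  obtain ⟨s, hs, hmin⟩ := exists_least
    (S := {u | ∀ γ, (∀ ξ < γ, h ξ < γ) → γ ≤ τ → γ ≤ u}) ⟨τ, fun γ _ h => h⟩
  refine ⟨s, fun ξ hξ => ?_, hmin τ (fun γ _ h => h), hs⟩
  have : ¬ ∀ γ, (∀ ξ < γ, h ξ < γ) → γ ≤ τ → γ ≤ ξ := fun hc => absurd (hmin ξ hc) (not_le.2 hξ)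
  push Not at this
  obtain ⟨γ, hγ, hγτ, hξγ⟩ := this
  exact (hγ ξ hξγ).trans_le (hs γ hγ hγτ)

theorem sigmaDisjoint (hCA : ClubAxiom) {X : Type} [TopologicalSpace X]
    (hX : Cardinal.mk X = Cardinal.aleph 1) (hB : SigmaLocCountableBase X) :
    SigmaDisjointBase X := by
  classical
  obtain ⟨B, hlc, hbase⟩ := hB
  have hsurj : ∃ x : Om1 → X, Function.Surjective x := by
    rw [← om1_mk] at hX
    obtain ⟨e⟩ := Cardinal.eq.1 hX
    exact ⟨e.symm, e.symm.surjective⟩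
  obtain ⟨x, hx⟩ := hsurj
  obtain ⟨h, hh0, hh⟩ := exists_h (x := x) hlc
  -- membership in `GG` for points outside a closure
  have hstar : ∀ z β, z ∉ closure (XS x β) → ∃ N, ∀ n ≥ N, z ∈ GG B x n β := by
    intro z β hz
    obtain ⟨T, hT, hzT, hTs⟩ := hbase.exists_subset_of_mem_open
      (show z ∈ (closure (XS x β))ᶜ from hz) isClosed_closure.isOpen_compl
    obtain ⟨N, hN⟩ := Set.mem_iUnion.1 hT
    refine ⟨N, fun n hn => GG_mono B x hn β ⟨T, ⟨⟨N, le_rfl, hN⟩, ?_⟩, hzT⟩⟩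
    intro y hy hyX
    exact hTs hy (subset_closure hyX)
  -- a point in the closure of `XS β` is outside `GG`
  have hout : ∀ z β n, z ∈ closure (XS x β) → z ∉ GG B x n β := by
    rintro z β n hz ⟨U, ⟨⟨m, _, hU⟩, hmiss⟩, hzU⟩
    obtain ⟨y, hy1, hy2⟩ := mem_closure_iff.1 hz U (hbase.isOpen (Set.mem_iUnion.2 ⟨m, hU⟩)) hzU
    exact hmiss y hy1 hy2
  let Z : Type := {z : X // ∃ l, (∀ ξ < l, h ξ < l) ∧ z ∈ closure (XS x l) ∧
    ∀ β < l, z ∉ closure (XS x β)}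
  have hZcard : Cardinal.mk Z ≤ Cardinal.aleph 1 := by
    rw [← hX]; exact Cardinal.mk_subtype_le _
  choose lam hlam1 hlam2 hlam3 using fun z : Z => z.2
  have hσex : ∀ (z : Z) (n : ℕ), ∃ s, z.1 ∉ GG B x n s ∧ ∀ β < s, z.1 ∈ GG B x n β := by
    intro z n
    obtain ⟨s, hs, hmin⟩ := exists_least (S := {s | z.1 ∉ GG B x n s})
      ⟨lam z, hout z.1 (lam z) n (hlam2 z)⟩
    refine ⟨s, hs, fun β hβ => ?_⟩
    by_contra hcon
    exact absurd (hmin β hcon) (not_le.2 hβ)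
  have haex : ∀ (z : Z) (n : ℕ), ∃ s, s < lam z ∧ z.1 ∉ closure (GG B x n s) := by
    intro z n
    exact not_mem_closure hlc hbase hx hh (hlam1 z) (hlam2 z) n
  choose σ hσ1 hσ2 using hσex
  choose a ha1 ha2 using haex
  have hle : ∀ z n, σ z n ≤ a z n := by
    intro z n
    by_contra hcon
    push Not at hcon
    exact ha2 z n (subset_closure (hσ2 z n _ hcon))
  have hconv : ∀ z, ∀ β < lam z, ∃ N, ∀ n ≥ N, β < σ z n := by
    intro z β hβ
    obtain ⟨N, hN⟩ := hstar z.1 β (hlam3 z β hβ)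
    refine ⟨N, fun n hn => ?_⟩
    by_contra hcon
    push Not at hcon
    exact hσ1 z n (GG_anti B x n hcon (hN n hn))
  obtain ⟨C₁, hC₁u, hC₁c, hC₁⟩ := exists_club hCA hZcard lam σ a
    (fun z β hβ => ⟨h β, hlam1 z β hβ, hh0 β⟩) hle ha1 hconv
  choose nx hnx1 hnx2 using hC₁u
  let h' : Om1 → Om1 := fun ξ => max (h ξ) (nx ξ)
  have hC0 : ∀ δ, (∀ ξ < δ, h' ξ < δ) → ∀ ξ < δ, h ξ < δ := fun δ hδ ξ hξ =>
    (le_max_left _ _).trans_lt (hδ ξ hξ)
  have hC1 : ∀ δ, (∀ ξ < δ, h' ξ < δ) → (∃ β, β < δ) → δ ∈ C₁ := by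
    intro δ hδ hne
    refine hC₁c δ (fun β hβ => ⟨nx β, hnx1 β, hnx2 β, ?_⟩) hne
    exact (le_max_right _ _).trans_lt (hδ β hβ)
  -- next element
  have hnxt : ∀ β, ∃ δ, β < δ ∧ (∀ ξ < δ, h' ξ < δ) ∧
      ∀ γ, β < γ → (∀ ξ < γ, h' ξ < γ) → δ ≤ γ := by
    intro β
    obtain ⟨δ, hδ, hmin⟩ := exists_least (S := {δ | β < δ ∧ ∀ ξ < δ, h' ξ < δ})
      (exists_closed_gt h' β)
    exact ⟨δ, hδ.1, hδ.2, fun γ h1 h2 => hmin γ ⟨h1, h2⟩⟩
  choose nxt hnxt1 hnxt2 hnxt3 using hnxt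
  -- enumeration of the members meeting `XS γ`
  have hDex : ∀ γ : Om1, ∃ f : ℕ → Set X, (∀ i, IsOpen (f i)) ∧
      ∀ U, (∃ n, U ∈ B n) → (∃ y ∈ U, y ∈ XS x γ) → ∃ i, f i = U := by
    intro γ
    have hc : (insert ∅ {U | (∃ n, U ∈ B n) ∧ ∃ y ∈ U, y ∈ XS x γ}).Countable := by
      apply Set.Countable.insert
      apply Set.Countable.mono (s₂ := ⋃ ξ ∈ Set.Iio γ, {U | (∃ n, U ∈ B n) ∧ x ξ ∈ U})
      · rintro U ⟨hU, _, hy, ⟨ξ, hξ, rfl⟩⟩
        exact Set.mem_iUnion₂.2 ⟨ξ, hξ, hU, hy⟩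
      · exact (om1_Iio γ).biUnion (fun ξ _ => pointCountable hlc (x ξ))
    obtain ⟨f, hf⟩ := hc.exists_eq_range ⟨∅, Set.mem_insert _ _⟩
    refine ⟨f, fun i => ?_, fun U hU hy => ?_⟩
    · have : f i ∈ insert ∅ {U | (∃ n, U ∈ B n) ∧ ∃ y ∈ U, y ∈ XS x γ} := by
        rw [hf]; exact ⟨i, rfl⟩
      rcases this with h0 | ⟨⟨n, hn⟩, _⟩
      · rw [h0]; exact isOpen_empty
      · exact hbase.isOpen (Set.mem_iUnion.2 ⟨n, hn⟩)
    · have : U ∈ Set.range f := by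
        rw [← hf]; exact Set.mem_insert_of_mem _ ⟨hU, hy⟩
      exact this
  choose Dd hDo hDs using hDex
  let E : ℕ → ℕ → Om1 → Set X := fun n i β =>
    (GG B x n β \ closure (GG B x n (nxt β))) ∩ Dd (nxt β) i
  have hEo : ∀ n i β, IsOpen (E n i β) := fun n i β =>
    ((isOpen_GG hbase n β).sdiff isClosed_closure).inter (hDo _ _)
  refine ⟨fun k => {U | ∃ β, (∀ ξ < β, h' ξ < β) ∧ U = E k.unpair.1 k.unpair.2 β}, ?_, ?_⟩
  · -- disjointness
    have hdis : ∀ n i β γ, β < γ → (∀ ξ < γ, h' ξ < γ) → Disjoint (E n i β) (E n i γ) := by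
      intro n i β γ hβγ hγ
      rw [Set.disjoint_left]
      rintro y ⟨⟨_, hy1⟩, _⟩ ⟨⟨hy2, _⟩, _⟩
      exact hy1 (subset_closure (GG_anti B x n (hnxt3 β γ hβγ hγ) hy2))
    rintro k U ⟨β, hβ, rfl⟩ V ⟨γ, hγ, rfl⟩ hne
    rcases lt_trichotomy β γ with hlt | heq | hgt
    · exact hdis _ _ _ _ hlt hγ
    · exact absurd (by rw [heq]) hne
    · exact (hdis _ _ _ _ hgt hβ).symm
  · apply TopologicalSpace.isTopologicalBasis_of_isOpen_of_nhds
    · intro U hU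
      obtain ⟨k, β, _, rfl⟩ := Set.mem_iUnion.1 hU
      exact hEo _ _ _
    · intro z U hzU hU
      suffices hsuff : ∃ n β, (∀ ξ < β, h' ξ < β) ∧ z ∈ GG B x n β ∧
          z ∉ closure (GG B x n (nxt β)) ∧
          ∃ T, (∃ m, T ∈ B m) ∧ z ∈ T ∧ T ⊆ U ∧ ∃ y ∈ T, y ∈ XS x (nxt β) by
        obtain ⟨n, β, hβ, h1, h2, T, hT, hzT, hTU, hy⟩ := hsuff
        obtain ⟨i, hi⟩ := hDs (nxt β) T hT hy
        refine ⟨E n i β, ?_, ⟨⟨h1, h2⟩, by rw [hi]; exact hzT⟩, ?_⟩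
        · refine Set.mem_iUnion.2 ⟨Nat.pair n i, β, hβ, ?_⟩
          simp only [Nat.unpair_pair]
        · rintro y ⟨_, hy⟩
          rw [hi] at hy
          exact hTU hy
      -- the member of the base
      obtain ⟨T, hT, hzT, hTU⟩ := hbase.exists_subset_of_mem_open hzU hU
      have hT' := Set.mem_iUnion.1 hT
      have hTo : IsOpen T := hbase.isOpen hT
      -- rho
      obtain ⟨ξ₀, hξ₀⟩ := hx z
      obtain ⟨ρ, ⟨⟨hρne, hρC⟩, hρz⟩, hρmin⟩ := exists_least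
        (S := {γ | ((∃ β, β < γ) ∧ ∀ ξ < γ, h' ξ < γ) ∧ z ∈ closure (XS x γ)}) (by
          refine ⟨nxt ξ₀, ⟨⟨ξ₀, hnxt1 ξ₀⟩, hnxt2 ξ₀⟩, subset_closure ⟨ξ₀, hnxt1 ξ₀, hξ₀⟩⟩)
      have hρlow : ∀ β < ρ, (∀ ξ < β, h' ξ < β) → z ∉ closure (XS x β) := by
        intro β hβ hβC hz
        by_cases hne : ∃ ξ, ξ < β
        · exact absurd (hρmin β ⟨⟨hne, hβC⟩, hz⟩) (not_le.2 hβ)
        · have : XS x β = ∅ := by
            rw [Set.eq_empty_iff_forall_notMem]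
            rintro y ⟨ξ, hξ, _⟩
            exact hne ⟨ξ, hξ⟩
          rw [this, closure_empty] at hz
          exact hz
      by_cases hcase : ∃ β < ρ, (∀ ξ < β, h' ξ < β) ∧ nxt β = ρ
      · obtain ⟨β, hβρ, hβC, hβ⟩ := hcase
        obtain ⟨N, hN⟩ := hstar z β (hρlow β hβρ hβC)
        refine ⟨N, β, hβC, hN N le_rfl, ?_, T, hT', hzT, hTU, ?_⟩
        · obtain ⟨γ, hγ, hγz⟩ := not_mem_closure hlc hbase hx hh (hC0 ρ hρC) hρz N
          rw [hβ]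
          exact fun hc => hγz (closure_mono (GG_anti B x N hγ.le) hc)
        · rw [hβ]
          exact mem_closure_iff.1 hρz T hTo hzT
      · push Not at hcase
        have hlimρ : ∀ τ < ρ, ∃ γ < ρ, (∀ ξ < γ, h' ξ < γ) ∧ τ < γ := by
          intro τ hτ
          obtain ⟨s, hsC, hsτ, hsmax⟩ := exists_floor h' τ
          have h1 : τ < nxt s := by
            by_contra hcon
            push Not at hcon
            exact absurd (hsmax _ (hnxt2 s) hcon) (not_le.2 (hnxt1 s))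
          have hsρ : s < ρ := hsτ.trans_lt hτ
          have h2 : nxt s ≤ ρ := hnxt3 s ρ hsρ hρC
          exact ⟨nxt s, lt_of_le_of_ne h2 (hcase s hsρ hsC), hnxt2 s, h1⟩
        have hρlow' : ∀ β < ρ, z ∉ closure (XS x β) := by
          intro β hβ hz
          obtain ⟨γ, hγ, hγC, hβγ⟩ := hlimρ β hβ
          exact hρlow γ hγ hγC (closure_mono (XS_mono x hβγ.le) hz)
        let zz : Z := ⟨z, ρ, hC0 ρ hρC, hρz, hρlow'⟩
        have hlamρ : lam zz = ρ := by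
          apply le_antisymm
          · by_contra hcon
            push Not at hcon
            exact hlam3 zz ρ hcon hρz
          · by_contra hcon
            push Not at hcon
            exact hρlow' _ hcon (hlam2 zz)
        obtain ⟨_, hyT, ⟨ξ, hξ, rfl⟩⟩ := mem_closure_iff.1 hρz T hTo hzT
        obtain ⟨N, hN⟩ := hconv zz ξ (by rw [hlamρ]; exact hξ)
        obtain ⟨n, hn, hgood⟩ := hC₁ zz N
        have hξσ : ξ < σ zz n := hN n hn
        obtain ⟨s, hsC, hsτ, hsmax⟩ := exists_floor h' (σ zz n)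
        have hsne : s ≠ σ zz n := by
          intro heq
          refine hgood s (hC1 s hsC ⟨ξ, by rw [heq]; exact hξσ⟩) ⟨heq.ge, ?_⟩
          rw [heq]; exact hle zz n
        have hslt : s < σ zz n := lt_of_le_of_ne hsτ hsne
        have h1 : σ zz n < nxt s := by
          by_contra hcon
          push Not at hcon
          exact absurd (hsmax _ (hnxt2 s) hcon) (not_le.2 (hnxt1 s))
        have h2 : a zz n < nxt s := by
          by_contra hcon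
          push Not at hcon
          exact hgood (nxt s) (hC1 _ (hnxt2 s) ⟨s, hnxt1 s⟩) ⟨h1.le, hcon⟩
        refine ⟨n, s, hsC, hσ2 zz n s hslt, ?_, T, hT', hzT, hTU, x ξ, hyT, ξ, hξσ.trans h1, rfl⟩
        intro hc
        exact ha2 zz n (closure_mono (GG_anti B x n h2.le) hc)

end Pool.Agent.Helper185.Loc
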