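import Pool.Agent.Helper185.Loc3

/-!
# `MA_{ω₁}` and `σ`-disjoint bases: perfect and metacompact spaces
-/

namespace Pool.Agent.Helper185.Loc

open Set Topology

/-- Every closed set is a `G_δ`. -/
def ClosedGdelta (X : Type) [TopologicalSpace X] : Prop := ∀ F : Set X, IsClosed F → IsGδ F

/-- Every open cover has a point-finite open refinement. -/
def Metacompact (X : Type) [TopologicalSpace X] : Prop :=
  ∀ 𝒰 : Set (Set X), (∀ U ∈ 𝒰, IsOpen U) → ⋃₀ 𝒰 = univ →
    ∃ 𝒱 : Set (Set X), (∀ V ∈ 𝒱, IsOpen V) ∧ ⋃₀ 𝒱 = univ ∧ (∀ V ∈ 𝒱, ∃ U ∈ 𝒰, V ⊆ U) ∧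
      ∀ x, {V ∈ 𝒱 | x ∈ V}.Finite

/-- The combinatorial core of `Fn(I, 2)` being ccc. -/
theorem exists_compatible {K I : Type} [DecidableEq I] (N : ℕ) :
    ∀ (T : Set K) (a c : K → Finset I), ¬ T.Countable →
      (∀ k ∈ T, (a k).card + (c k).card ≤ N) → (∀ k ∈ T, Disjoint (a k) (c k)) →
      ∃ k ∈ T, ∃ l ∈ T, k ≠ l ∧ Disjoint (a k) (c l) ∧ Disjoint (a l) (c k) := by
  induction N with
  | zero =>
    intro T a c hT hcard _
    have hnt : T.Nontrivial := by
      by_contra hcon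
      rw [Set.not_nontrivial_iff] at hcon
      exact hT hcon.countable
    obtain ⟨k, hk, l, hl, hne⟩ := hnt
    have h1 : ∀ k ∈ T, a k = ∅ ∧ c k = ∅ := by
      intro k hk
      have := hcard k hk
      constructor
      · rw [← Finset.card_eq_zero]; omega
      · rw [← Finset.card_eq_zero]; omega
    refine ⟨k, hk, l, hl, hne, ?_, ?_⟩
    · rw [(h1 k hk).1]; exact Finset.disjoint_empty_left _
    · rw [(h1 l hl).1]; exact Finset.disjoint_empty_left _
  | succ N ih =>
    intro T a c hT hcard hdis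
    by_cases h : ∃ i, ¬ {k ∈ T | i ∈ a k ∨ i ∈ c k}.Countable
    · obtain ⟨i, hi⟩ := h
      have hsplit : {k ∈ T | i ∈ a k ∨ i ∈ c k} ⊆ {k ∈ T | i ∈ a k} ∪ {k ∈ T | i ∈ c k} := by
        rintro k ⟨hk, h | h⟩
        · exact Or.inl ⟨hk, h⟩
        · exact Or.inr ⟨hk, h⟩
      have hor : ¬ {k ∈ T | i ∈ a k}.Countable ∨ ¬ {k ∈ T | i ∈ c k}.Countable := by
        by_contra hcon
        push Not at hcon
        exact hi ((hcon.1.union hcon.2).mono hsplit)
      rcases hor with hA | hC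
      · obtain ⟨k, hk, l, hl, hne, h1, h2⟩ := ih {k ∈ T | i ∈ a k} (fun k => (a k).erase i) c hA
          (by
            rintro k ⟨hk, hik⟩
            have := hcard k hk
            have h3 := Finset.card_erase_of_mem hik
            have h4 := Finset.card_pos.2 ⟨i, hik⟩
            omega)
          (by
            rintro k ⟨hk, _⟩
            exact Finset.disjoint_of_subset_left (Finset.erase_subset _ _) (hdis k hk))
        refine ⟨k, hk.1, l, hl.1, hne, ?_, ?_⟩
        · rw [Finset.disjoint_left]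
          intro j hj hjc
          by_cases hji : j = i
          · subst hji
            exact Finset.disjoint_left.1 (hdis l hl.1) hl.2 hjc
          · exact Finset.disjoint_left.1 h1 (Finset.mem_erase.2 ⟨hji, hj⟩) hjc
        · rw [Finset.disjoint_left]
          intro j hj hjc
          by_cases hji : j = i
          · subst hji
            exact Finset.disjoint_left.1 (hdis k hk.1) hk.2 hjc
          · exact Finset.disjoint_left.1 h2 (Finset.mem_erase.2 ⟨hji, hj⟩) hjc
      · obtain ⟨k, hk, l, hl, hne, h1, h2⟩ := ih {k ∈ T | i ∈ c k} a (fun k => (c k).erase i) hC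
          (by
            rintro k ⟨hk, hik⟩
            have := hcard k hk
            have h3 := Finset.card_erase_of_mem hik
            have h4 := Finset.card_pos.2 ⟨i, hik⟩
            omega)
          (by
            rintro k ⟨hk, _⟩
            exact Finset.disjoint_of_subset_right (Finset.erase_subset _ _) (hdis k hk))
        refine ⟨k, hk.1, l, hl.1, hne, ?_, ?_⟩
        · rw [Finset.disjoint_left]
          intro j hj hjc
          by_cases hji : j = i
          · subst hji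
            exact Finset.disjoint_left.1 (hdis k hk.1) hj hk.2
          · exact Finset.disjoint_left.1 h1 hj (Finset.mem_erase.2 ⟨hji, hjc⟩)
        · rw [Finset.disjoint_left]
          intro j hj hjc
          by_cases hji : j = i
          · subst hji
            exact Finset.disjoint_left.1 (hdis l hl.1) hj hl.2
          · exact Finset.disjoint_left.1 h2 hj (Finset.mem_erase.2 ⟨hji, hjc⟩)
    · push Not at h
      have hne : T.Nonempty := by
        by_contra hcon
        rw [Set.not_nonempty_iff_eq_empty] at hcon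
        rw [hcon] at hT
        exact hT Set.countable_empty
      obtain ⟨k, hk⟩ := hne
      have hc : (insert k (⋃ i ∈ (((a k ∪ c k : Finset I)) : Set I),
          {l ∈ T | i ∈ a l ∨ i ∈ c l})).Countable := by
        apply Set.Countable.insert
        exact (Finset.countable_toSet _).biUnion (fun i _ => h i)
      have hex : ∃ l ∈ T, l ∉ insert k (⋃ i ∈ (((a k ∪ c k : Finset I)) : Set I),
          {l ∈ T | i ∈ a l ∨ i ∈ c l}) := by
        by_contra hcon
        push Not at hcon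
        exact hT (hc.mono hcon)
      obtain ⟨l, hl, hlnot⟩ := hex
      have hkl : k ≠ l := fun heq => hlnot (by rw [heq]; exact Set.mem_insert _ _)
      have hnot : ∀ i, (i ∈ a k ∨ i ∈ c k) → ¬ (i ∈ a l ∨ i ∈ c l) := by
        intro i hi hi'
        apply hlnot
        refine Set.mem_insert_of_mem _ (Set.mem_iUnion₂.2 ⟨i, ?_, hl, hi'⟩)
        rw [Finset.mem_coe, Finset.mem_union]
        exact hi
      refine ⟨k, hk, l, hl, hkl, ?_, ?_⟩
      · rw [Finset.disjoint_left]
        exact fun i h1 h2 => hnot i (Or.inl h1) (Or.inr h2)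
      · rw [Finset.disjoint_left]
        exact fun i h1 h2 => hnot i (Or.inr h2) (Or.inl h1)

section Perf

variable {X : Type} (D : ℕ → Set (Set X)) (F : Set X)

/-- Conditions deciding a sequence of open neighbourhoods of `F`. -/
def PCond : Type :=
  {q : Finset ((ℕ × Set X) × ℕ) × Finset (X × ℕ) //
    (∀ w ∈ q.1, w.1.2 ∈ D w.1.1) ∧ (∀ z ∈ q.2, z.1 ∉ F) ∧
      ∀ w ∈ q.1, ∀ z ∈ q.2, w.2 = z.2 → z.1 ∉ w.1.2}

/-- Extension of conditions. -/
def PLe (p q : PCond D F) : Prop := q.1.1 ⊆ p.1.1 ∧ q.1.2 ⊆ p.1.2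

theorem pcond_ccc (hD : ∀ n, ∀ U ∈ D n, ∀ V ∈ D n, U ≠ V → Disjoint U V) :
    CCC (PLe D F) := by
  classical
  intro A hA
  by_contra hAc
  -- bound for the levels and the sizes
  let bnd : PCond D F → ℕ := fun p => (p.1.1.sup (fun w => w.1.1))
  let sz : PCond D F → ℕ := fun p => p.1.1.card + p.1.2.card * (bnd p + 1)
  have hAU : A ⊆ ⋃ (J : ℕ), ⋃ (N : ℕ), {p ∈ A | bnd p = J ∧ sz p = N} := by
    intro p hp
    exact Set.mem_iUnion.2 ⟨bnd p, Set.mem_iUnion.2 ⟨sz p, hp, rfl, rfl⟩⟩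
  have hex : ∃ J N, ¬ {p ∈ A | bnd p = J ∧ sz p = N}.Countable := by
    by_contra hcon
    push Not at hcon
    exact hAc ((Set.countable_iUnion (fun J => Set.countable_iUnion (fun N => hcon J N))).mono hAU)
  obtain ⟨J, N, hJN⟩ := hex
  let e : ℕ → X → Set X := fun j y => if h : ∃ U ∈ D j, y ∈ U then h.choose else ∅
  have he : ∀ j y U, U ∈ D j → y ∈ U → e j y = U := by
    intro j y U hU hy
    have hexU : ∃ U ∈ D j, y ∈ U := ⟨U, hU, hy⟩
    have h1 : e j y = hexU.choose := dif_pos hexU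
    rw [h1]
    by_contra hne
    have h2 := hexU.choose_spec
    exact Set.disjoint_left.1 (hD j _ h2.1 _ hU hne) h2.2 hy
  let c : PCond D F → Finset ((ℕ × Set X) × ℕ) := fun p =>
    ((p.1.2 ×ˢ Finset.range (J + 1)).filter (fun t => t.1.1 ∈ e t.2 t.1.1)).image
      (fun t => ((t.2, e t.2 t.1.1), t.1.2))
  have hcmem : ∀ p w, w ∈ c p ↔ ∃ z ∈ p.1.2, ∃ j ≤ J, z.1 ∈ e j z.1 ∧ w = ((j, e j z.1), z.2) := by
    intro p w
    simp only [c, Finset.mem_image, Finset.mem_filter, Finset.mem_product, Finset.mem_range,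
      Prod.exists]
    constructor
    · rintro ⟨y, n, j, ⟨⟨h1, h2⟩, h3⟩, rfl⟩
      exact ⟨y, n, h1, j, by omega, h3, rfl⟩
    · rintro ⟨y, n, h1, j, h2, h3, rfl⟩
      exact ⟨y, n, j, ⟨⟨h1, by omega⟩, h3⟩, rfl⟩
  have key : ∀ p q : PCond D F, Disjoint p.1.1 (c q) → bnd p = J →
      ∀ w ∈ p.1.1, ∀ z ∈ q.1.2, w.2 = z.2 → z.1 ∉ w.1.2 := by
    intro p q hdis hb w hw z hz hwz hzw
    have hwD := p.2.1 w hw
    have hj : w.1.1 ≤ J := by
      rw [← hb]
      exact Finset.le_sup (f := fun w : (ℕ × Set X) × ℕ => w.1.1) hw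
    have h1 : e w.1.1 z.1 = w.1.2 := he _ _ _ hwD hzw
    refine Finset.disjoint_left.1 hdis hw ((hcmem q w).2 ⟨z, hz, w.1.1, hj, ?_, ?_⟩)
    · rw [h1]; exact hzw
    · rw [h1, ← hwz]
  obtain ⟨p, hp, q, hq, hpq, h1, h2⟩ := exists_compatible N
    {p ∈ A | bnd p = J ∧ sz p = N} (fun p => p.1.1) c hJN
    (by
      rintro p ⟨_, hb, hs⟩
      have h3 : (c p).card ≤ p.1.2.card * (J + 1) := by
        refine Finset.card_image_le.trans ((Finset.card_filter_le _ _).trans ?_)
        rw [Finset.card_product, Finset.card_range]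
      have h4 : sz p = p.1.1.card + p.1.2.card * (bnd p + 1) := rfl
      rw [hb] at h4
      omega)
    (by
      rintro p ⟨_, hb, _⟩
      rw [Finset.disjoint_left]
      intro w hw hwc
      obtain ⟨z, hz, j, _, hze, rfl⟩ := (hcmem p w).1 hwc
      exact p.2.2.2 _ hw z hz rfl hze)
  apply hA p hp.1 q hq.1 hpq
  refine ⟨⟨(p.1.1 ∪ q.1.1, p.1.2 ∪ q.1.2), ?_, ?_, ?_⟩, ?_, ?_⟩
  · intro w hw
    rcases Finset.mem_union.1 hw with hw | hw
    · exact p.2.1 w hw
    · exact q.2.1 w hw
  · intro z hz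
    rcases Finset.mem_union.1 hz with hz | hz
    · exact p.2.2.1 z hz
    · exact q.2.2.1 z hz
  · intro w hw z hz
    rcases Finset.mem_union.1 hw with hw | hw
    · rcases Finset.mem_union.1 hz with hz | hz
      · exact p.2.2.2 w hw z hz
      · exact key p q h1 hp.2.1 w hw z hz
    · rcases Finset.mem_union.1 hz with hz | hz
      · exact key q p h2 hq.2.1 w hw z hz
      · exact q.2.2.2 w hw z hz
  · exact ⟨Finset.subset_union_left, Finset.subset_union_left⟩
  · exact ⟨Finset.subset_union_right, Finset.subset_union_right⟩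

end Perf

theorem perfect_of_sigmaDisjoint (hMA : MartinAxiom) {X : Type} [TopologicalSpace X] [T1Space X]
    (hX : Cardinal.mk X ≤ Cardinal.aleph 1) (hB : SigmaDisjointBase X) : ClosedGdelta X := by
  classical
  obtain ⟨D, hD, hbase⟩ := hB
  intro F hF
  have hopen : ∀ j U, U ∈ D j → IsOpen U := fun j U hU => hbase.isOpen (Set.mem_iUnion.2 ⟨j, hU⟩)
  have hFA : FA (PLe D F) := hMA (PCond D F) (PLe D F)
    ⟨⟨(∅, ∅), fun w hw => absurd hw (Finset.notMem_empty _),
      fun z hz => absurd hz (Finset.notMem_empty _),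
      fun w hw => absurd hw (Finset.notMem_empty _)⟩⟩
    (fun p => ⟨Finset.Subset.refl _, Finset.Subset.refl _⟩)
    (fun p q r h1 h2 => ⟨h2.1.trans h1.1, h2.2.trans h1.2⟩) (pcond_ccc D F hD)
  have hcard : Cardinal.mk ((X × ℕ) ⊕ X) ≤ Cardinal.aleph 1 := by
    rw [Cardinal.mk_sum, Cardinal.mk_prod]
    simp only [Cardinal.lift_id, Cardinal.mk_nat]
    apply Cardinal.add_le_of_le (Cardinal.aleph0_le_aleph 1) _ hX
    exact Cardinal.mul_le_of_le (Cardinal.aleph0_le_aleph 1) hX (Cardinal.aleph0_le_aleph 1)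
  obtain ⟨G, ⟨_, _, hGdir⟩, hGD⟩ := FA_index (le := PLe D F)
    (fun p => ⟨Finset.Subset.refl _, Finset.Subset.refl _⟩) hFA hcard
    (fun i => match i with
      | Sum.inl (z, n) => {p | z ∈ F → ∃ w ∈ p.1.1, w.2 = n ∧ z ∈ w.1.2}
      | Sum.inr y => {p | y ∉ F → ∃ n, (y, n) ∈ p.1.2}) (by
      rintro (⟨z, n⟩ | y) p
      · by_cases hz : z ∈ F
        · -- a small member of the base around `z`
          have hfin : (((p.1.2.image Prod.fst : Finset X)) : Set X).Finite := Finset.finite_toSet _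
          have hzn : z ∈ (((p.1.2.image Prod.fst : Finset X)) : Set X)ᶜ := by
            intro hc
            rw [Finset.mem_coe, Finset.mem_image] at hc
            obtain ⟨t, ht, rfl⟩ := hc
            exact p.2.2.1 t ht hz
          obtain ⟨U, hU, hzU, hUs⟩ := hbase.exists_subset_of_mem_open hzn
            hfin.isClosed.isOpen_compl
          obtain ⟨j, hj⟩ := Set.mem_iUnion.1 hU
          refine ⟨⟨(insert ((j, U), n) p.1.1, p.1.2), ?_, p.2.2.1, ?_⟩, ?_, ?_⟩
          · intro w hw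
            rcases Finset.mem_insert.1 hw with rfl | hw
            · exact hj
            · exact p.2.1 w hw
          · intro w hw t ht
            rcases Finset.mem_insert.1 hw with rfl | hw
            · intro _ htU
              apply hUs htU
              rw [Finset.mem_coe, Finset.mem_image]
              exact ⟨t, ht, rfl⟩
            · exact p.2.2.2 w hw t ht
          · intro _
            exact ⟨((j, U), n), Finset.mem_insert_self _ _, rfl, hzU⟩
          · exact ⟨Finset.subset_insert _ _, Finset.Subset.refl _⟩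
        · exact ⟨p, fun h => absurd h hz, Finset.Subset.refl _, Finset.Subset.refl _⟩
      · by_cases hy : y ∈ F
        · exact ⟨p, fun h => absurd hy h, Finset.Subset.refl _, Finset.Subset.refl _⟩
        · let n := (p.1.1.sup (fun w => w.2)) + 1
          refine ⟨⟨(p.1.1, insert (y, n) p.1.2), p.2.1, ?_, ?_⟩, ?_, ?_⟩
          · intro z hz
            rcases Finset.mem_insert.1 hz with rfl | hz
            · exact hy
            · exact p.2.2.1 z hz
          · intro w hw z hz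
            rcases Finset.mem_insert.1 hz with rfl | hz
            · intro heq
              exfalso
              have h5 : w.2 ≤ p.1.1.sup (fun w => w.2) :=
                Finset.le_sup (f := fun w : (ℕ × Set X) × ℕ => w.2) hw
              have h6 : w.2 = p.1.1.sup (fun w => w.2) + 1 := heq
              omega
            · exact p.2.2.2 w hw z hz
          · intro _
            exact ⟨n, Finset.mem_insert_self _ _⟩
          · exact ⟨Finset.Subset.refl _, Finset.subset_insert _ _⟩)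
  let O : ℕ → Set X := fun n => {z | ∃ p ∈ G, ∃ w ∈ p.1.1, w.2 = n ∧ z ∈ w.1.2}
  have hO : ∀ n, IsOpen (O n) := by
    intro n
    rw [isOpen_iff_forall_mem_open]
    rintro z ⟨p, hp, w, hw, hwn, hz⟩
    refine ⟨w.1.2, fun y hy => ⟨p, hp, w, hw, hwn, hy⟩, hopen _ _ (p.2.1 w hw), hz⟩
  have hFO : F = ⋂ n, O n := by
    ext z
    constructor
    · intro hz
      rw [Set.mem_iInter]
      intro n
      obtain ⟨p, hpD, hpG⟩ := hGD (Sum.inl (z, n))
      obtain ⟨w, hw, hwn, hzw⟩ := hpD hz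
      exact ⟨p, hpG, w, hw, hwn, hzw⟩
    · intro hz
      by_contra hzF
      obtain ⟨p, hpD, hpG⟩ := hGD (Sum.inr z)
      obtain ⟨n, hn⟩ := hpD hzF
      obtain ⟨q, hqG, w, hw, hwn, hzw⟩ := Set.mem_iInter.1 hz n
      obtain ⟨r, _, hrp, hrq⟩ := hGdir p hpG q hqG
      exact r.2.2.2 w (hrq.1 hw) (z, n) (hrp.2 hn) hwn hzw
  rw [hFO]
  exact IsGδ.iInter (fun n => (hO n).isGδ)

theorem metacompact_of_perfect {X : Type} [TopologicalSpace X] (hP : ClosedGdelta X)
    (hB : SigmaDisjointBase X) : Metacompact X := by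
  classical
  obtain ⟨D, hD, hbase⟩ := hB
  intro 𝒰 hUo hUc
  have hopen : ∀ j U, U ∈ D j → IsOpen U := fun j U hU => hbase.isOpen (Set.mem_iUnion.2 ⟨j, hU⟩)
  let O : ℕ → Set X := fun j => ⋃₀ {V | V ∈ D j ∧ ∃ U ∈ 𝒰, V ⊆ U}
  have hO : ∀ j, IsOpen (O j) := fun j => isOpen_sUnion (fun V hV => hopen j V hV.1)
  have hOc : ∀ x, ∃ j, x ∈ O j := by
    intro x
    have hx : x ∈ ⋃₀ 𝒰 := by rw [hUc]; exact Set.mem_univ _
    obtain ⟨U, hU, hxU⟩ := hx
    obtain ⟨V, hV, hxV, hVU⟩ := hbase.exists_subset_of_mem_open hxU (hUo U hU)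
    obtain ⟨j, hj⟩ := Set.mem_iUnion.1 hV
    exact ⟨j, V, ⟨hj, U, hU, hVU⟩, hxV⟩
  -- decreasing open sets around the complement
  have hW : ∀ i, ∃ W : ℕ → Set X, (∀ m, IsOpen (W m)) ∧ (∀ m, (O i)ᶜ ⊆ W m) ∧
      ∀ x ∈ O i, ∃ m₀, ∀ m ≥ m₀, x ∉ W m := by
    intro i
    have hG := hP (O i)ᶜ (hO i).isClosed_compl
    rw [isGδ_iff_eq_iInter_nat] at hG
    obtain ⟨f, hf, hfe⟩ := hG
    refine ⟨fun m => ⋂ k ∈ Set.Iic m, f k, fun m => ?_, fun m => ?_, fun x hx => ?_⟩
    · exact (Set.finite_Iic m).isOpen_biInter (fun k _ => hf k)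
    · rw [hfe]
      exact fun y hy => Set.mem_iInter₂.2 (fun k _ => Set.mem_iInter.1 hy k)
    · have : x ∉ ⋂ n, f n := by rw [← hfe]; exact fun h => h hx
      rw [Set.mem_iInter] at this
      push Not at this
      obtain ⟨k, hk⟩ := this
      exact ⟨k, fun m hm hmem => hk (Set.mem_iInter₂.1 hmem k hm)⟩
  choose W hW1 hW2 hW3 using hW
  let O' : ℕ → Set X := fun j => O j ∩ ⋂ i ∈ Set.Iio j, W i j
  have hO' : ∀ j, IsOpen (O' j) := fun j =>
    (hO j).inter ((Set.finite_Iio j).isOpen_biInter (fun i _ => hW1 i j))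
  have hfin : ∀ x, ∃ m, ∀ j, x ∈ O' j → j ≤ m := by
    intro x
    obtain ⟨i, hi⟩ := hOc x
    obtain ⟨m₀, hm₀⟩ := hW3 i x hi
    refine ⟨max i m₀, fun j hj => ?_⟩
    by_contra hcon
    push Not at hcon
    have h1 := Set.mem_iInter₂.1 hj.2 i (show i < j from (le_max_left _ _).trans_lt hcon)
    exact hm₀ j ((le_max_right _ _).trans hcon.le) h1
  have hcov : ∀ x, ∃ j, x ∈ O' j := by
    intro x
    have hex := hOc x
    refine ⟨Nat.find hex, Nat.find_spec hex, ?_⟩
    refine Set.mem_iInter₂.2 (fun i hi => ?_)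
    exact hW2 i _ (Nat.find_min hex hi)
  refine ⟨{V | ∃ j, ∃ T ∈ D j, (∃ U ∈ 𝒰, T ⊆ U) ∧ V = T ∩ O' j}, ?_, ?_, ?_, ?_⟩
  · rintro V ⟨j, T, hT, _, rfl⟩
    exact (hopen j T hT).inter (hO' j)
  · rw [Set.eq_univ_iff_forall]
    intro x
    obtain ⟨j, hj⟩ := hcov x
    obtain ⟨T, ⟨hT, hTU⟩, hxT⟩ := hj.1
    exact ⟨T ∩ O' j, ⟨j, T, hT, hTU, rfl⟩, hxT, hj⟩
  · rintro V ⟨j, T, _, ⟨U, hU, hTU⟩, rfl⟩
    exact ⟨U, hU, Set.inter_subset_left.trans hTU⟩
  · intro x
    obtain ⟨m, hm⟩ := hfin x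
    let e : ℕ → Set X := fun j => if h : ∃ T ∈ D j, x ∈ T then h.choose else ∅
    have he : ∀ j T, T ∈ D j → x ∈ T → e j = T := by
      intro j T hT hxT
      have hexT : ∃ T ∈ D j, x ∈ T := ⟨T, hT, hxT⟩
      have h1 : e j = hexT.choose := dif_pos hexT
      rw [h1]
      by_contra hne
      have h2 := hexT.choose_spec
      exact Set.disjoint_left.1 (hD j _ h2.1 _ hT hne) h2.2 hxT
    refine ((Set.finite_Iic m).image (fun j => e j ∩ O' j)).subset ?_
    rintro V ⟨⟨j, T, hT, _, rfl⟩, hxT, hxO⟩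
    refine ⟨j, hm j hxO, ?_⟩
    simp only
    rw [he j T hT hxT]

/-- `MA_{ω₁}` and the forcing axiom for the club poset: spaces of size `ℵ₁` with a `σ`-locally
countable base are perfect and metacompact. -/
theorem perfect_and_metacompact (hMA : MartinAxiom) (hCA : ClubAxiom) {X : Type}
    [TopologicalSpace X] [T1Space X] (hX : Cardinal.mk X = Cardinal.aleph 1)
    (hB : SigmaLocCountableBase X) : ClosedGdelta X ∧ Metacompact X := by
  have h1 := sigmaDisjoint hCA hX hB
  have h2 := perfect_of_sigmaDisjoint hMA hX.le h1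
  exact ⟨h2, metacompact_of_perfect h2 h1⟩

end Pool.Agent.Helper185.Loc
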