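import Mathlib

/-!
# Gluing planes along a descending system

The maps placing the pieces, the descending systems and the glued space.
-/

namespace Pool.Agent.Helper185.Man

open Set Topology Relation

/-- A homeomorphism of the line onto `(-1,1)`. -/
noncomputable def phi (u : ℝ) : ℝ := u / (1 + |u|)

/-- Its inverse. -/
noncomputable def psi (v : ℝ) : ℝ := v / (1 - |v|)

theorem continuous_phi : Continuous phi := by
  unfold phi
  refine continuous_id.div (continuous_const.add continuous_abs) (fun x => ?_)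
  have := abs_nonneg x
  positivity

theorem abs_phi (u : ℝ) : |phi u| = |u| / (1 + |u|) := by
  have h := abs_nonneg u
  unfold phi
  rw [abs_div, abs_of_pos (show (0:ℝ) < 1 + |u| by linarith)]

theorem abs_phi_lt (u : ℝ) : |phi u| < 1 := by
  have h := abs_nonneg u
  rw [abs_phi, div_lt_one (by linarith)]
  linarith

theorem psi_phi (u : ℝ) : psi (phi u) = u := by
  have h := abs_nonneg u
  unfold psi
  rw [abs_phi]
  unfold phi
  have h1 : (1 + |u|) ≠ 0 := by linarith
  have h2 : 1 - |u| / (1 + |u|) = 1 / (1 + |u|) := by field_simp; ring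
  rw [h2]
  field_simp

theorem phi_psi {v : ℝ} (hv : |v| < 1) : phi (psi v) = v := by
  have h1 : 0 < 1 - |v| := by linarith
  unfold phi psi
  rw [abs_div, abs_of_pos h1]
  have h2 : 1 + |v| / (1 - |v|) = 1 / (1 - |v|) := by field_simp; ring
  rw [h2]
  field_simp

theorem phi_lip (u v : ℝ) : |phi u - phi v| ≤ 2 * |u - v| := by
  have hu := abs_nonneg u
  have hv := abs_nonneg v
  have h1 : phi u - phi v = (u - v + (|v| * (u - v) + v * (|v| - |u|))) / ((1 + |u|) * (1 + |v|)) := by
    unfold phi
    rw [div_sub_div _ _ (by linarith) (by linarith)]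
    congr 1
    ring
  have h2 : |(|v| - |u|)| ≤ |u - v| := by
    have := abs_abs_sub_abs_le v u
    rw [abs_sub_comm v u] at this
    exact this
  have h3 : |u - v + (|v| * (u - v) + v * (|v| - |u|))| ≤ (1 + 2 * |v|) * |u - v| := by
    calc |u - v + (|v| * (u - v) + v * (|v| - |u|))|
        ≤ |u - v| + |(|v| * (u - v) + v * (|v| - |u|))| := abs_add_le _ _
      _ ≤ |u - v| + (|(|v| * (u - v))| + |v * (|v| - |u|)|) := by
          gcongr
          exact abs_add_le _ _
      _ = |u - v| + (|v| * |u - v| + |v| * |(|v| - |u|)|) := by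
          rw [abs_mul, abs_mul, abs_abs]
      _ ≤ |u - v| + (|v| * |u - v| + |v| * |u - v|) := by
          gcongr
      _ = (1 + 2 * |v|) * |u - v| := by ring
  rw [h1, abs_div, abs_of_pos (show (0:ℝ) < (1 + |u|) * (1 + |v|) by positivity),
    div_le_iff₀ (by positivity)]
  refine h3.trans ?_
  have h4 := abs_nonneg (u - v)
  nlinarith [mul_nonneg hu h4, mul_nonneg hv h4, mul_nonneg (mul_nonneg hu hv) h4]

/-- The centre of the `j`-th piece. -/
noncomputable def cen (j : ℕ) : ℝ := (1 / 2) ^ (j + 1)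

/-- Half the width of the `j`-th piece. -/
noncomputable def wid (j : ℕ) : ℝ := (1 / 2) ^ (j + 3)

theorem wid_pos (j : ℕ) : 0 < wid j := by unfold wid; positivity

theorem cen_eq (j : ℕ) : cen j = 4 * wid j := by
  unfold cen wid
  ring

theorem wid_le (j : ℕ) : wid j ≤ 1 / 8 := by
  unfold wid
  calc ((1:ℝ) / 2) ^ (j + 3) ≤ (1 / 2) ^ 3 := by
        apply pow_le_pow_of_le_one <;> norm_num
    _ = 1 / 8 := by norm_num

theorem wid_half {i j : ℕ} (h : i < j) : 2 * wid j ≤ wid i := by
  unfold wid
  have h1 : ((1:ℝ) / 2) ^ (j + 3) ≤ (1 / 2) ^ (i + 1 + 3) := by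
    apply pow_le_pow_of_le_one
    · norm_num
    · norm_num
    · omega
  have h2 : ((1:ℝ) / 2) ^ (i + 1 + 3) = (1 / 2) ^ (i + 3) / 2 := by
    rw [show i + 1 + 3 = (i + 3) + 1 by ring, pow_succ]; ring
  rw [h2] at h1
  linarith

/-- The map placing the `j`-th piece. -/
noncomputable def A (j : ℕ) (u : ℝ) : ℝ := cen j + wid j * phi u

theorem continuous_A (j : ℕ) : Continuous (A j) :=
  continuous_const.add (continuous_const.mul continuous_phi)

theorem A_mem (j : ℕ) (u : ℝ) : |A j u - cen j| < wid j := by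
  unfold A
  rw [add_sub_cancel_left, abs_mul, abs_of_pos (wid_pos j)]
  have := abs_phi_lt u
  nlinarith [wid_pos j]

theorem A_injective (j : ℕ) : Function.Injective (A j) := by
  intro u v h
  unfold A at h
  have h1 : phi u = phi v := by
    have h2 : wid j * phi u = wid j * phi v := by linarith
    exact mul_left_cancel₀ (wid_pos j).ne' h2
  rw [← psi_phi u, ← psi_phi v, h1]

theorem A_abs (j : ℕ) (u : ℝ) : |A j u| < 1 := by
  have h1 := A_mem j u
  rw [abs_lt] at h1 ⊢
  have h2 := cen_eq j
  have h3 := wid_le j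
  have h4 := wid_pos j
  constructor <;> linarith [h1.1, h1.2]

theorem A_disjoint {i j : ℕ} (h : i ≠ j) (u v : ℝ) : A i u ≠ A j v := by
  have key : ∀ {i j : ℕ}, i < j → ∀ u v, A i u ≠ A j v := by
    intro i j h u v heq
    have h1 := A_mem i u
    have h2 := A_mem j v
    rw [← heq] at h2
    rw [abs_lt] at h1 h2
    have h3 := wid_half h
    have h4 := wid_pos i
    have h5 := wid_pos j
    rw [cen_eq] at h1 h2
    linarith [h1.1, h2.2]
  rcases lt_or_gt_of_ne h with h | h
  · exact key h u v
  · exact fun heq => key h v u heq.symm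

theorem A_lip (j : ℕ) (u v : ℝ) : |A j u - A j v| ≤ 1 / 4 * |u - v| := by
  unfold A
  rw [add_sub_add_left_eq_sub, ← mul_sub, abs_mul, abs_of_pos (wid_pos j)]
  have h1 := phi_lip u v
  have h2 := wid_le j
  have h3 := abs_nonneg (phi u - phi v)
  have h4 := wid_pos j
  nlinarith [abs_nonneg (u - v)]

theorem A_range (j : ℕ) {y : ℝ} (h : |y - cen j| < wid j) : A j (psi ((y - cen j) / wid j)) = y := by
  have h0 := wid_pos j
  unfold A
  rw [phi_psi]
  · field_simp; ring
  · rw [abs_div, abs_of_pos h0, div_lt_one h0]; exact h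

theorem isOpenMap_A (j : ℕ) : IsOpenMap (A j) := by
  intro U hU
  have h0 := wid_pos j
  have h1 : A j '' U = {y | |y - cen j| < wid j} ∩ (fun y => psi ((y - cen j) / wid j)) ⁻¹' U := by
    ext y
    constructor
    · rintro ⟨u, hu, rfl⟩
      refine ⟨A_mem j u, ?_⟩
      simp only [Set.mem_preimage]
      have : (A j u - cen j) / wid j = phi u := by
        unfold A; field_simp; ring
      rw [this, psi_phi]; exact hu
    · rintro ⟨h1, h2⟩
      exact ⟨_, h2, A_range j h1⟩
  rw [h1]
  apply ContinuousOn.isOpen_inter_preimage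
  · unfold psi
    apply ContinuousOn.div
    · fun_prop
    · fun_prop
    · intro y hy
      have hy' : |y - cen j| < wid j := hy
      rw [abs_div, abs_of_pos h0]
      have : |y - cen j| / wid j < 1 := by rw [div_lt_one h0]; exact hy'
      linarith
  · exact isOpen_lt (by fun_prop) (by fun_prop)
  · exact hU

/-- The shear. -/
noncomputable def theta (u : ℝ) : ℝ := max (|u| - 1) 0

theorem continuous_theta : Continuous theta := by unfold theta; fun_prop

theorem theta_zero {u : ℝ} (h : |u| ≤ 1) : theta u = 0 := by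
  unfold theta; rw [max_eq_right (by linarith)]

theorem theta_ge (u : ℝ) : |u| - 1 ≤ theta u := le_max_left _ _

/-- A descending system of nodes and points. -/
structure Sys where
  /-- nodes -/
  N : Type
  /-- points -/
  X : Type
  /-- the relation between a node and its children -/
  C : N → N → Prop
  /-- the grade -/
  g : N → ℕ
  /-- the relation between points and nodes -/
  mem : X → N → Prop
  C_fin : ∀ ν, {ν' | C ν ν'}.Finite
  C_g : ∀ ν ν', C ν ν' → g ν < g ν'
  mem_up : ∀ x ν ν', C ν ν' → mem x ν' → mem x ν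
  mem_down : ∀ x ν, mem x ν → ∃ ν', C ν ν' ∧ mem x ν'
  mem_ex : ∀ x, ∃ ν, mem x ν
  disj : ∀ ν a b, C ν a → C ν b → a ≠ b → ∀ κ, ReflTransGen C a κ → ReflTransGen C b κ → False
  disjX : ∀ x ν a b, C ν a → C ν b → mem x a → mem x b → a = b
  limit : ∀ f : ℕ → N, (∀ n, C (f n) (f (n + 1))) → ∃ x, ∀ n, mem x (f n)
  merge : ∀ x ν μ, mem x ν → mem x μ →
    ∃ κ, ReflTransGen C ν κ ∧ ReflTransGen C μ κ ∧ mem x κ
  sep : ∀ x ν μ, mem x ν → ¬ mem x μ →
    ∃ κ, ReflTransGen C ν κ ∧ mem x κ ∧ ∀ τ, ReflTransGen C κ τ → ReflTransGen C μ τ → False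
  bdd : ∀ x x', x ≠ x' → ∃ n, ∀ ν, mem x ν → mem x' ν → g ν ≤ n

end Pool.Agent.Helper185.Man
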