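import Pool.Agent.Helper185.Man1

/-!
# The glued space
-/

namespace Pool.Agent.Helper185.Man

open Set Topology Relation

variable (S : Sys)

theorem exists_idx (ν : S.N) : ∃ f : S.N → ℕ, Set.InjOn f {ν' | S.C ν ν'} :=
  Set.countable_iff_exists_injOn.1 (S.C_fin ν).countable

/-- The position of the child `ν'` in `ν`. -/
noncomputable def idx (ν ν' : S.N) : ℕ := (exists_idx S ν).choose ν'

theorem idx_inj {ν a b : S.N} (ha : S.C ν a) (hb : S.C ν b) (h : idx S ν a = idx S ν b) : a = b :=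
  (exists_idx S ν).choose_spec ha hb h

/-- The disjoint union of the planes. -/
abbrev Pre : Type := Σ _ : S.N, ℝ × ℝ

/-- The embedding of the child plane `ν'` into the plane `ν`. -/
noncomputable def Phi (r : S.N → ℝ) (ν ν' : S.N) (p : ℝ × ℝ) : ℝ × ℝ :=
  (A (idx S ν ν') p.1, p.2 - r ν * theta p.1)

/-- One step of the gluing. -/
def Step (r : S.N → ℝ) (a b : Pre S) : Prop := S.C a.1 b.1 ∧ a.2 = Phi S r a.1 b.1 b.2

variable {S} {r : S.N → ℝ}

theorem Phi_injective (ν ν' : S.N) : Function.Injective (Phi S r ν ν') := by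
  rintro ⟨u, t⟩ ⟨v, s⟩ h
  have h1 : A (idx S ν ν') u = A (idx S ν ν') v := congrArg Prod.fst h
  have h2 : t - r ν * theta u = s - r ν * theta v := congrArg Prod.snd h
  have h3 := A_injective _ h1
  subst h3
  have h4 : t = s := by linarith
  rw [h4]

theorem continuous_Phi (ν ν' : S.N) : Continuous (Phi S r ν ν') := by
  unfold Phi
  refine ((continuous_A _).comp continuous_fst).prodMk ?_
  exact continuous_snd.sub (continuous_const.mul (continuous_theta.comp continuous_fst))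

theorem isOpenMap_Phi (ν ν' : S.N) : IsOpenMap (Phi S r ν ν') := by
  let sh : ℝ × ℝ ≃ₜ ℝ × ℝ :=
    { toFun := fun p => (p.1, p.2 - r ν * theta p.1)
      invFun := fun p => (p.1, p.2 + r ν * theta p.1)
      left_inv := by intro p; simp
      right_inv := by intro p; simp
      continuous_toFun := by
        exact continuous_fst.prodMk (continuous_snd.sub
          (continuous_const.mul (continuous_theta.comp continuous_fst)))
      continuous_invFun := by
        exact continuous_fst.prodMk (continuous_snd.add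
          (continuous_const.mul (continuous_theta.comp continuous_fst))) }
  have h : Phi S r ν ν' = (Prod.map (A (idx S ν ν')) id) ∘ sh := by
    funext p; rfl
  rw [h]
  exact ((isOpenMap_A _).prodMap IsOpenMap.id).comp sh.isOpenMap

theorem step_det {a b c : Pre S} (hb : Step S r a b) (hc : Step S r a c) : b = c := by
  obtain ⟨ν, p⟩ := a
  obtain ⟨κ, q⟩ := b
  obtain ⟨μ, s⟩ := c
  obtain ⟨h1, h2⟩ := hb
  obtain ⟨h3, h4⟩ := hc
  simp only at h1 h2 h3 h4
  by_cases h : idx S ν κ = idx S ν μ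
  · have := idx_inj S h1 h3 h
    subst this
    rw [h2] at h4
    rw [Phi_injective _ _ h4]
  · exfalso
    rw [h2] at h4
    exact A_disjoint h _ _ (congrArg Prod.fst h4)

theorem reach_total {a b c : Pre S} (hb : ReflTransGen (Step S r) a b)
    (hc : ReflTransGen (Step S r) a c) :
    ReflTransGen (Step S r) b c ∨ ReflTransGen (Step S r) c b :=
  ReflTransGen.total_of_right_unique (fun _ _ _ => step_det) hb hc

theorem reach_C {a b : Pre S} (h : ReflTransGen (Step S r) a b) : ReflTransGen S.C a.1 b.1 := by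
  induction h with
  | refl => exact ReflTransGen.refl
  | tail _ h2 ih => exact ih.tail h2.1

theorem g_le {a b : S.N} (h : ReflTransGen S.C a b) : S.g a ≤ S.g b := by
  induction h with
  | refl => exact le_rfl
  | tail _ h2 ih => exact ih.trans (S.C_g _ _ h2).le

theorem mem_up' {x : S.X} {a b : S.N} (h : ReflTransGen S.C a b) (hx : S.mem x b) : S.mem x a := by
  induction h with
  | refl => exact hx
  | tail _ h2 ih => exact ih (S.mem_up _ _ _ h2 hx)

/-- Two points with a common descendant and the same node are equal. -/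
theorem reach_inj {a c : Pre S} (h : ReflTransGen (Step S r) a c) :
    ∀ b : Pre S, b.1 = a.1 → ReflTransGen (Step S r) b c → b = a := by
  induction h using ReflTransGen.head_induction_on with
  | refl =>
    intro b hb h
    rcases h.cases_head with h | ⟨d, h1, h2⟩
    · exact h
    · exfalso
      have h3 := S.C_g _ _ h1.1
      have h4 := g_le (reach_C h2)
      rw [hb] at h3
      omega
  | head h1 h2 ih =>
    rename_i a a'
    intro b hb h
    rcases h.cases_head with h | ⟨d, h3, h4⟩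
    · exfalso
      have h5 := S.C_g _ _ h1.1
      have h6 := g_le (reach_C h2)
      rw [← h, hb] at h6
      omega
    · have hd : d.1 = a'.1 := by
        by_contra hne
        have h5 : S.C a.1 d.1 := hb ▸ h3.1
        exact S.disj a.1 d.1 a'.1 h5 h1.1 hne c.1 (reach_C h4) (reach_C h2)
      have h5 := ih d hd h4
      subst h5
      obtain ⟨ν, p⟩ := a
      obtain ⟨μ, q⟩ := b
      simp only at hb
      subst hb
      have h6 := h1.2
      have h7 := h3.2
      simp only at h6 h7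
      rw [h6, h7]

variable (S r)

/-- The gluing relation. -/
def gl (a b : Pre S) : Prop := ∃ c, ReflTransGen (Step S r) a c ∧ ReflTransGen (Step S r) b c

theorem gl_equiv : Equivalence (gl S r) := by
  refine ⟨fun a => ⟨a, ReflTransGen.refl, ReflTransGen.refl⟩, ?_, ?_⟩
  · rintro a b ⟨c, h1, h2⟩; exact ⟨c, h2, h1⟩
  · rintro a b d ⟨c, h1, h2⟩ ⟨e, h3, h4⟩
    rcases reach_total h2 h3 with h | h
    · exact ⟨e, h1.trans h, h4⟩
    · exact ⟨c, h1, h4.trans h⟩

/-- The setoid of the gluing. -/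
@[reducible] def glSetoid : Setoid (Pre S) := ⟨gl S r, gl_equiv S r⟩

/-- The glued space. -/
def Mf : Type := Quotient (glSetoid S r)

instance : TopologicalSpace (Mf S r) := inferInstanceAs (TopologicalSpace (Quotient (glSetoid S r)))

/-- The quotient map. -/
def mk (a : Pre S) : Mf S r := Quotient.mk (glSetoid S r) a

variable {S r}

theorem mk_eq {a b : Pre S} : mk S r a = mk S r b ↔ gl S r a b := by
  unfold mk
  exact Quotient.eq (r := glSetoid S r)

theorem mk_surj (m : Mf S r) : ∃ a, mk S r a = m := Quotient.exists_rep m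

theorem mk_step {a b : Pre S} (h : Step S r a b) : mk S r a = mk S r b :=
  mk_eq.2 ⟨b, ReflTransGen.single h, ReflTransGen.refl⟩

theorem mk_reach {a b : Pre S} (h : ReflTransGen (Step S r) a b) : mk S r a = mk S r b :=
  mk_eq.2 ⟨b, h, ReflTransGen.refl⟩

theorem continuous_mk : Continuous (mk S r) := continuous_quotient_mk'

theorem isOpen_iff_mk {U : Set (Mf S r)} : IsOpen U ↔ IsOpen (mk S r ⁻¹' U) :=
  (isQuotientMap_quotient_mk' (s := glSetoid S r)).isOpen_preimage.symm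

theorem isOpen_fwd1 {U : Set (Pre S)} (hU : IsOpen U) : IsOpen {c | ∃ a ∈ U, Step S r a c} := by
  rw [isOpen_sigma_iff]
  intro κ
  change IsOpen ((fun p : ℝ × ℝ => (⟨κ, p⟩ : Pre S)) ⁻¹' {c | ∃ a ∈ U, Step S r a c})
  have h : ((fun p : ℝ × ℝ => (⟨κ, p⟩ : Pre S)) ⁻¹' {c | ∃ a ∈ U, Step S r a c}) =
      ⋃ ν ∈ {ν | S.C ν κ}, (Phi S r ν κ) ⁻¹' ((fun p : ℝ × ℝ => (⟨ν, p⟩ : Pre S)) ⁻¹' U) := by
    ext p
    constructor
    · rintro ⟨⟨ν, q⟩, ha, h1, h2⟩
      refine Set.mem_iUnion₂.2 ⟨ν, h1, ?_⟩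
      simp only [Set.mem_preimage]
      simp only at h2
      rw [← h2]; exact ha
    · intro h
      obtain ⟨ν, h1, h2⟩ := Set.mem_iUnion₂.1 h
      exact ⟨⟨ν, Phi S r ν κ p⟩, h2, h1, rfl⟩
  rw [h]
  exact isOpen_biUnion (fun ν _ => (isOpen_sigma_iff.1 hU ν).preimage (continuous_Phi ν κ))

theorem isOpen_bwd1 {V : Set (Pre S)} (hV : IsOpen V) : IsOpen {b | ∃ c ∈ V, Step S r b c} := by
  rw [isOpen_sigma_iff]
  intro ν
  change IsOpen ((fun p : ℝ × ℝ => (⟨ν, p⟩ : Pre S)) ⁻¹' {b | ∃ c ∈ V, Step S r b c})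
  have h : ((fun p : ℝ × ℝ => (⟨ν, p⟩ : Pre S)) ⁻¹' {b | ∃ c ∈ V, Step S r b c}) =
      ⋃ κ ∈ {κ | S.C ν κ}, (Phi S r ν κ) '' ((fun p : ℝ × ℝ => (⟨κ, p⟩ : Pre S)) ⁻¹' V) := by
    ext p
    constructor
    · rintro ⟨⟨κ, q⟩, ha, h1, h2⟩
      exact Set.mem_iUnion₂.2 ⟨κ, h1, q, ha, h2.symm⟩
    · intro h
      obtain ⟨κ, h1, q, h2, h3⟩ := Set.mem_iUnion₂.1 h
      exact ⟨⟨κ, q⟩, h2, h1, h3.symm⟩
  rw [h]
  exact isOpen_biUnion (fun κ _ => isOpenMap_Phi ν κ _ (isOpen_sigma_iff.1 hV κ))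

theorem isOpen_fwd {U : Set (Pre S)} (hU : IsOpen U) :
    IsOpen {c | ∃ a ∈ U, ReflTransGen (Step S r) a c} := by
  rw [isOpen_iff_mem_nhds]
  rintro c ⟨a, ha, h⟩
  induction h with
  | refl =>
    exact Filter.mem_of_superset (hU.mem_nhds ha) (fun x hx => ⟨x, hx, ReflTransGen.refl⟩)
  | tail _ h2 ih =>
    obtain ⟨W, hW, hWo, hbW⟩ := mem_nhds_iff.1 ih
    refine Filter.mem_of_superset ((isOpen_fwd1 hWo).mem_nhds ⟨_, hbW, h2⟩) ?_
    rintro x ⟨w, hw, hwx⟩
    obtain ⟨a', ha', h'⟩ := hW hw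
    exact ⟨a', ha', h'.tail hwx⟩

theorem isOpen_bwd {V : Set (Pre S)} (hV : IsOpen V) :
    IsOpen {b | ∃ c ∈ V, ReflTransGen (Step S r) b c} := by
  rw [isOpen_iff_mem_nhds]
  rintro b ⟨c, hc, h⟩
  induction h using ReflTransGen.head_induction_on with
  | refl =>
    exact Filter.mem_of_superset (hV.mem_nhds hc) (fun x hx => ⟨x, hx, ReflTransGen.refl⟩)
  | head h1 _ ih =>
    obtain ⟨W, hW, hWo, hbW⟩ := mem_nhds_iff.1 ih
    refine Filter.mem_of_superset ((isOpen_bwd1 hWo).mem_nhds ⟨_, hbW, h1⟩) ?_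
    rintro x ⟨w, hw, hwx⟩
    obtain ⟨a', ha', h'⟩ := hW hw
    exact ⟨a', ha', h'.head hwx⟩

theorem isOpenMap_mk : IsOpenMap (mk S r) := by
  intro U hU
  rw [isOpen_iff_mk]
  have h : mk S r ⁻¹' (mk S r '' U) =
      {b | ∃ c ∈ {c | ∃ a ∈ U, ReflTransGen (Step S r) a c}, ReflTransGen (Step S r) b c} := by
    ext b
    constructor
    · rintro ⟨a, ha, h⟩
      obtain ⟨c, h1, h2⟩ := mk_eq.1 h
      exact ⟨c, ⟨a, ha, h1⟩, h2⟩
    · rintro ⟨c, ⟨a, ha, h1⟩, h2⟩
      exact ⟨a, ha, mk_eq.2 ⟨c, h1, h2⟩⟩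
  rw [h]
  exact isOpen_bwd (isOpen_fwd hU)

variable (S r)

/-- The chart of a node. -/
def chart (ν : S.N) (p : ℝ × ℝ) : Mf S r := mk S r ⟨ν, p⟩

/-- The domain of the chart. -/
def D (ν : S.N) : Set (Mf S r) := Set.range (chart S r ν)

variable {S r}

theorem chart_injective (ν : S.N) : Function.Injective (chart S r ν) := by
  intro p q h
  obtain ⟨c, h1, h2⟩ := mk_eq.1 h
  have := reach_inj h2 ⟨ν, p⟩ rfl h1
  simpa using this

theorem isOpenEmbedding_chart (ν : S.N) : IsOpenEmbedding (chart S r ν) := by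
  refine IsOpenEmbedding.of_continuous_injective_isOpenMap ?_ (chart_injective ν) ?_
  · exact continuous_mk.comp continuous_sigmaMk
  · exact isOpenMap_mk.comp isOpenMap_sigmaMk

theorem isOpen_D (ν : S.N) : IsOpen (D S r ν) := (isOpenEmbedding_chart ν).isOpen_range

theorem mem_D {a : Pre S} : mk S r a ∈ D S r a.1 := ⟨a.2, rfl⟩

theorem D_anti {ν κ : S.N} (h : ReflTransGen S.C ν κ) : D S r κ ⊆ D S r ν := by
  induction h with
  | refl => exact Set.Subset.refl _
  | tail _ h2 ih =>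
    refine Set.Subset.trans ?_ ih
    rintro _ ⟨p, rfl⟩
    rename_i b c _
    have : Step S r ⟨b, Phi S r b c p⟩ ⟨c, p⟩ := ⟨h2, rfl⟩
    exact ⟨Phi S r b c p, mk_step this⟩

/-- Points in a common chart can be separated. -/
theorem sep_chart {m m' : Mf S r} {ν : S.N} (h : m ∈ D S r ν) (h' : m' ∈ D S r ν) (hne : m ≠ m') :
    ∃ U V : Set (Mf S r), IsOpen U ∧ IsOpen V ∧ m ∈ U ∧ m' ∈ V ∧ Disjoint U V := by
  obtain ⟨p, rfl⟩ := h
  obtain ⟨q, rfl⟩ := h'
  have hpq : p ≠ q := fun h => hne (by rw [h])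
  obtain ⟨U, V, hU, hV, hp, hq, hd⟩ := t2_separation hpq
  refine ⟨chart S r ν '' U, chart S r ν '' V, (isOpenEmbedding_chart ν).isOpenMap _ hU,
    (isOpenEmbedding_chart ν).isOpenMap _ hV, ⟨p, hp, rfl⟩, ⟨q, hq, rfl⟩, ?_⟩
  exact (Set.disjoint_image_iff (chart_injective ν)).2 hd

/-- A terminal point of a plane. -/
def Term (a : Pre S) : Prop := ∀ ν', S.C a.1 ν' → a.2.1 ∉ Set.range (A (idx S a.1 ν'))

theorem term_iff {a : Pre S} : Term a ↔ ∀ b, ¬ Step S r a b := by
  constructor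
  · rintro h b ⟨h1, h2⟩
    exact h b.1 h1 ⟨b.2.1, by rw [h2]; rfl⟩
  · intro h ν' h1 ⟨u, hu⟩
    apply h ⟨ν', (u, a.2.2 + r a.1 * theta u)⟩
    refine ⟨h1, ?_⟩
    obtain ⟨ν, p, q⟩ := a
    simp only [Phi]
    simp only at hu
    rw [← hu]
    simp

theorem term_reach {a b : Pre S} (ha : Term a) (h : ReflTransGen (Step S r) a b) : b = a := by
  rcases h.cases_head with h | ⟨d, h1, _⟩
  · exact h.symm
  · exact absurd h1 (term_iff.1 ha d)

/-- Representatives of a terminal point reach it. -/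
theorem reach_term {a b : Pre S} (ha : Term a) (h : mk S r a = mk S r b) :
    ReflTransGen (Step S r) b a := by
  obtain ⟨c, h1, h2⟩ := mk_eq.1 h
  rw [term_reach ha h1] at h2
  exact h2

theorem term_unique {a b : Pre S} (ha : Term a) (hb : Term b) (h : mk S r a = mk S r b) : a = b :=
  term_reach hb (reach_term ha h)

theorem term_D {a : Pre S} (ha : Term a) {ν : S.N} (h : mk S r a ∈ D S r ν) :
    ReflTransGen S.C ν a.1 := by
  obtain ⟨p, hp⟩ := h
  exact reach_C (reach_term ha hp.symm)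

/-- Large first coordinate means terminal. -/
theorem term_of_gt {a : Pre S} (h : 1 ≤ |a.2.1|) : Term a := by
  rintro ν' _ ⟨u, hu⟩
  have := A_abs (idx S a.1 ν') u
  rw [hu] at this
  linarith

theorem step_abs {a b : Pre S} (h : Step S r a b) : |a.2.1| < 1 := by
  rw [h.2]; exact A_abs _ _

end Pool.Agent.Helper185.Man
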