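import Pool.Agent.Helper185.Man2

/-!
# The glued space: points of the system, the Hausdorff property
-/

namespace Pool.Agent.Helper185.Man

open Set Topology Relation

section points

variable (S : Sys)

open Classical in
/-- The child containing the point. -/
noncomputable def nx (x : S.X) (ν : S.N) : S.N := if h : S.mem x ν then (S.mem_down x ν h).choose else ν

variable {S}

theorem nx_spec {x : S.X} {ν : S.N} (h : S.mem x ν) : S.C ν (nx S x ν) ∧ S.mem x (nx S x ν) := by
  unfold nx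
  rw [dif_pos h]
  exact (S.mem_down x ν h).choose_spec

theorem nx_eq {x : S.X} {ν ν' : S.N} (h : S.C ν ν') (hx : S.mem x ν') : nx S x ν = ν' :=
  S.disjX x ν _ _ (nx_spec (S.mem_up _ _ _ h hx)).1 h (nx_spec (S.mem_up _ _ _ h hx)).2 hx

variable (S)

/-- Approximations of the coordinate. -/
noncomputable def Bn (x : S.X) : ℕ → S.N → ℝ
  | 0, _ => 0
  | n + 1, ν => A (idx S ν (nx S x ν)) (Bn x n (nx S x ν))

variable {S}

theorem Bn_dist (x : S.X) (n : ℕ) : ∀ ν, |Bn S x n ν - Bn S x (n + 1) ν| ≤ 1 * (1 / 4) ^ n := by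
  induction n with
  | zero =>
    intro ν
    have h : |Bn S x 0 ν - Bn S x 1 ν| = |A (idx S ν (nx S x ν)) 0| := by
      simp [Bn]
    rw [h]
    have := A_abs (idx S ν (nx S x ν)) 0
    simp
    linarith
  | succ n ih =>
    intro ν
    have h1 := A_lip (idx S ν (nx S x ν)) (Bn S x n (nx S x ν)) (Bn S x (n + 1) (nx S x ν))
    have h2 := ih (nx S x ν)
    have h3 : |Bn S x (n + 1) ν - Bn S x (n + 1 + 1) ν| =
        |A (idx S ν (nx S x ν)) (Bn S x n (nx S x ν)) -
          A (idx S ν (nx S x ν)) (Bn S x (n + 1) (nx S x ν))| := rfl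
    rw [h3, pow_succ]
    linarith

theorem cauchy_Bn (x : S.X) (ν : S.N) : CauchySeq (fun n => Bn S x n ν) := by
  refine cauchySeq_of_le_geometric (1 / 4) 1 (by norm_num) (fun n => ?_)
  rw [Real.dist_eq]
  exact Bn_dist x n ν

/-- The first coordinate of the point `x` in the plane `ν`. -/
noncomputable def crd (S : Sys) (x : S.X) (ν : S.N) : ℝ :=
  (cauchySeq_tendsto_of_complete (cauchy_Bn x ν)).choose

theorem tendsto_crd (x : S.X) (ν : S.N) :
    Filter.Tendsto (fun n => Bn S x n ν) Filter.atTop (𝓝 (crd S x ν)) :=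
  (cauchySeq_tendsto_of_complete (cauchy_Bn x ν)).choose_spec

theorem crd_eq (x : S.X) (ν : S.N) : crd S x ν = A (idx S ν (nx S x ν)) (crd S x (nx S x ν)) := by
  refine tendsto_nhds_unique (f := fun n => Bn S x (n + 1) ν) (l := Filter.atTop) ?_ ?_
  · exact (tendsto_crd x ν).comp (Filter.tendsto_add_atTop_nat 1)
  · exact ((continuous_A _).tendsto _).comp (tendsto_crd x (nx S x ν))

theorem crd_abs (x : S.X) (ν : S.N) : |crd S x ν| < 1 := by
  rw [crd_eq]; exact A_abs _ _

variable {r : S.N → ℝ}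

theorem step_crd {x : S.X} {ν ν' : S.N} (t : ℝ) (h : S.C ν ν') (hx : S.mem x ν') :
    Step S r ⟨ν, (crd S x ν, t)⟩ ⟨ν', (crd S x ν', t)⟩ := by
  refine ⟨h, ?_⟩
  simp only [Phi]
  have h1 := crd_eq x ν
  rw [nx_eq h hx] at h1
  rw [← h1, theta_zero (crd_abs x ν').le]
  simp

theorem reach_crd {x : S.X} {ν κ : S.N} (t : ℝ) (h : ReflTransGen S.C ν κ) (hx : S.mem x κ) :
    ReflTransGen (Step S r) ⟨ν, (crd S x ν, t)⟩ ⟨κ, (crd S x κ, t)⟩ := by
  induction h using ReflTransGen.head_induction_on with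
  | refl => exact ReflTransGen.refl
  | head h1 h2 ih => exact ReflTransGen.head (step_crd t h1 (mem_up' h2 hx)) ih

theorem reach_crd_inv {x : S.X} {a c : Pre S} (h : ReflTransGen (Step S r) a c)
    (hx : S.mem x a.1) {t : ℝ} (ha : a.2 = (crd S x a.1, t)) :
    S.mem x c.1 ∧ c.2 = (crd S x c.1, t) := by
  induction h with
  | refl => exact ⟨hx, ha⟩
  | tail _ h2 ih =>
    rename_i b c _
    obtain ⟨h3, h4⟩ := ih
    obtain ⟨h5, h6⟩ := nx_spec h3
    have h7 : Step S r b ⟨nx S x b.1, (crd S x (nx S x b.1), t)⟩ := by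
      have := step_crd (r := r) t h5 h6
      obtain ⟨ν, p⟩ := b
      simp only at h4
      rw [h4]
      exact this
    have h8 := step_det h2 h7
    rw [h8]
    exact ⟨h6, rfl⟩

variable (r)

/-- The point of the manifold given by `x` and the height `t`. -/
noncomputable def pt (x : S.X) (t : ℝ) : Mf S r :=
  mk S r ⟨(S.mem_ex x).choose, (crd S x (S.mem_ex x).choose, t)⟩

variable {r}

theorem pt_eq {x : S.X} {ν : S.N} (hx : S.mem x ν) (t : ℝ) :
    pt r x t = mk S r ⟨ν, (crd S x ν, t)⟩ := by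
  obtain ⟨κ, h1, h2, h3⟩ := S.merge x _ _ (S.mem_ex x).choose_spec hx
  exact mk_eq.2 ⟨_, reach_crd t h1 h3, reach_crd t h2 h3⟩

theorem pt_mem_D {x : S.X} {t : ℝ} {ν : S.N} : pt r x t ∈ D S r ν ↔ S.mem x ν := by
  constructor
  · rintro ⟨p, hp⟩
    obtain ⟨c, h1, h2⟩ := mk_eq.1 hp
    have h3 := reach_crd_inv h2 (S.mem_ex x).choose_spec rfl
    exact mem_up' (reach_C h1) h3.1
  · intro h
    rw [pt_eq h]
    exact ⟨_, rfl⟩

/-- Two points of the system with the same history are close. -/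
theorem crd_close (n : ℕ) : ∀ (x x' : S.X) (ν : S.N), S.mem x ν →
    S.mem x' ((nx S x)^[n] ν) → |crd S x ν - crd S x' ν| ≤ 2 * (1 / 4) ^ n := by
  induction n with
  | zero =>
    intro x x' ν _ _
    have h1 := crd_abs x ν
    have h2 := crd_abs x' ν
    rw [abs_lt] at h1 h2
    rw [abs_le]
    constructor <;> norm_num <;> linarith [h1.1, h1.2, h2.1, h2.2]
  | succ n ih =>
    intro x x' ν hx hx'
    rw [Function.iterate_succ_apply] at hx'
    obtain ⟨h1, h2⟩ := nx_spec hx
    have h3 := ih x x' (nx S x ν) h2 hx'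
    have h4 : ∀ (m : ℕ) (μ : S.N), S.mem x μ → ReflTransGen S.C μ ((nx S x)^[m] μ) := by
      intro m
      induction m with
      | zero => intro μ _; exact ReflTransGen.refl
      | succ m ihm =>
        intro μ hμ
        rw [Function.iterate_succ_apply]
        obtain ⟨h5, h6⟩ := nx_spec hμ
        exact ReflTransGen.head h5 (ihm _ h6)
    have h5 : S.mem x' (nx S x ν) := mem_up' (h4 n _ h2) hx'
    have h6 : nx S x' ν = nx S x ν := nx_eq h1 h5
    rw [crd_eq x ν, crd_eq x' ν, h6, pow_succ]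
    have h7 := A_lip (idx S ν (nx S x ν)) (crd S x (nx S x ν)) (crd S x' (nx S x ν))
    linarith

theorem iter_reach (m : ℕ) : ∀ (x : S.X) (μ : S.N), S.mem x μ →
    ReflTransGen S.C μ ((nx S x)^[m] μ) ∧ S.mem x ((nx S x)^[m] μ) := by
  induction m with
  | zero => intro x μ h; exact ⟨ReflTransGen.refl, h⟩
  | succ m ihm =>
    intro x μ hμ
    rw [Function.iterate_succ_apply]
    obtain ⟨h5, h6⟩ := nx_spec hμ
    exact ⟨ReflTransGen.head h5 (ihm x _ h6).1, (ihm x _ h6).2⟩

theorem iter_g (m : ℕ) : ∀ (x : S.X) (μ : S.N), S.mem x μ → m ≤ S.g ((nx S x)^[m] μ) := by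
  induction m with
  | zero => intro x μ _; exact Nat.zero_le _
  | succ m ihm =>
    intro x μ hμ
    rw [Function.iterate_succ_apply']
    have h1 := (iter_reach m x μ hμ).2
    have h2 := S.C_g _ _ (nx_spec h1).1
    have h3 := ihm x μ hμ
    omega

/-- Neighbourhoods of the points of the system. -/
theorem pt_nhds {x : S.X} {t : ℝ} {W : Set (Mf S r)} (hW : IsOpen W) (h : pt r x t ∈ W) {ν : S.N}
    (hx : S.mem x ν) :
    ∃ κ, ReflTransGen S.C ν κ ∧ S.mem x κ ∧ ∀ x', S.mem x' κ → pt r x' t ∈ W := by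
  rw [pt_eq hx] at h
  have h1 : IsOpen (chart S r ν ⁻¹' W) := hW.preimage (isOpenEmbedding_chart ν).continuous
  obtain ⟨ε, hε, hball⟩ := Metric.isOpen_iff.1 h1 (crd S x ν, t) h
  obtain ⟨n, hn⟩ := exists_pow_lt_of_lt_one (show 0 < ε / 2 by linarith)
    (show (1 / 4 : ℝ) < 1 by norm_num)
  refine ⟨(nx S x)^[n] ν, (iter_reach n x ν hx).1, (iter_reach n x ν hx).2, ?_⟩
  intro x' hx'
  have hx'ν : S.mem x' ν := mem_up' (iter_reach n x ν hx).1 hx'
  rw [pt_eq hx'ν]
  apply hball
  rw [Metric.mem_ball, Prod.dist_eq, dist_self, max_eq_left dist_nonneg, Real.dist_eq,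
    abs_sub_comm]
  have := crd_close n x x' ν hx hx'
  linarith

/-- Infinite histories give points of the system. -/
theorem infinite_pt (f : ℕ → Pre S) (hf : ∀ n, Step S r (f n) (f (n + 1))) :
    ∃ x, S.mem x (f 0).1 ∧ (f 0).2 = (crd S x (f 0).1, (f 0).2.2) := by
  obtain ⟨x, hx⟩ := S.limit (fun n => (f n).1) (fun n => (hf n).1)
  refine ⟨x, hx 0, ?_⟩
  have key : ∀ n k, |(f k).2.1 - crd S x (f k).1| ≤ 2 * (1 / 4) ^ n := by
    intro n
    induction n with
    | zero =>
      intro k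
      have h1 := crd_abs x (f k).1
      have h2 := step_abs (hf k)
      rw [abs_lt] at h1 h2
      rw [abs_le]
      constructor <;> norm_num <;> linarith [h1.1, h1.2, h2.1, h2.2]
    | succ n ih =>
      intro k
      have h1 := ih (k + 1)
      have h2 : nx S x (f k).1 = (f (k + 1)).1 := nx_eq (hf k).1 (hx (k + 1))
      have h3 : (f k).2.1 = A (idx S (f k).1 (f (k + 1)).1) (f (k + 1)).2.1 :=
        congrArg Prod.fst (hf k).2
      rw [h3, crd_eq x (f k).1, h2, pow_succ]
      have h7 := A_lip (idx S (f k).1 (f (k + 1)).1) (f (k + 1)).2.1 (crd S x (f (k + 1)).1)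
      linarith
  have h0 : (f 0).2.1 = crd S x (f 0).1 := by
    by_contra hne
    have hpos : 0 < |(f 0).2.1 - crd S x (f 0).1| := abs_pos.2 (sub_ne_zero.2 hne)
    obtain ⟨n, hn⟩ := exists_pow_lt_of_lt_one (show 0 < |(f 0).2.1 - crd S x (f 0).1| / 2 by
      linarith) (show (1 / 4 : ℝ) < 1 by norm_num)
    have := key n 0
    linarith
  exact Prod.ext h0 rfl

/-- Every point is terminal or a point of the system. -/
theorem term_or_pt (m : Mf S r) : (∃ a : Pre S, Term a ∧ mk S r a = m) ∨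
    ∃ x t, m = pt r x t := by
  classical
  obtain ⟨b, hb⟩ := mk_surj m
  by_cases h : ∃ a, ReflTransGen (Step S r) b a ∧ Term a
  · obtain ⟨a, h1, h2⟩ := h
    exact Or.inl ⟨a, h2, by rw [← hb]; exact (mk_reach h1).symm⟩
  · right
    push Not at h
    let St := {a : Pre S // ReflTransGen (Step S r) b a}
    have hs : ∀ a : St, ∃ a' : St, Step S r a.1 a'.1 := by
      rintro ⟨a, ha⟩
      have h1 := h a ha
      rw [term_iff (r := r)] at h1
      push Not at h1
      obtain ⟨c, hc⟩ := h1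
      exact ⟨⟨c, ha.tail hc⟩, hc⟩
    choose nxt hnxt using hs
    let f : ℕ → St := fun n => Nat.rec (motive := fun _ => St) ⟨b, ReflTransGen.refl⟩
      (fun _ s => nxt s) n
    obtain ⟨x, h1, h2⟩ := infinite_pt (r := r) (fun n => (f n).1) (fun n => hnxt (f n))
    have h3 : (f 0).1 = b := rfl
    simp only [h3] at h1 h2
    refine ⟨x, b.2.2, ?_⟩
    rw [pt_eq h1, ← hb]
    congr 1
    obtain ⟨ν, p⟩ := b
    simp only at h2
    simp only
    rw [← h2]

theorem pt_not_term {x : S.X} {t : ℝ} {a : Pre S} (ha : Term a) : mk S r a ≠ pt r x t := by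
  intro h
  have h1 := reach_term ha h
  obtain ⟨h2, h3⟩ := reach_crd_inv h1 (S.mem_ex x).choose_spec rfl
  obtain ⟨h4, h5⟩ := nx_spec h2
  have h6 := step_crd (r := r) t h4 h5
  rw [term_iff (r := r)] at ha
  obtain ⟨ν, p⟩ := a
  simp only at h3
  rw [← h3] at h6
  exact ha _ h6

theorem pt_height {x : S.X} {t : ℝ} {ν : S.N} {p : ℝ × ℝ} (h : pt r x t = chart S r ν p) :
    S.mem x ν ∧ p = (crd S x ν, t) := by
  have h1 : S.mem x ν := pt_mem_D.1 (show pt r x t ∈ D S r ν from ⟨p, h.symm⟩)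
  refine ⟨h1, ?_⟩
  rw [pt_eq h1] at h
  exact (chart_injective ν h).symm

end points

end Pool.Agent.Helper185.Man
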