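import Pool.Agent.Helper185.Man3

/-!
# The glued space: separation, the diagonal, connectedness
-/

namespace Pool.Agent.Helper185.Man

open Set Topology Relation

variable {S : Sys} {r : S.N → ℝ}

/-- Small neighbourhoods of a terminal point, in coordinates. -/
def Us (S : Sys) (κ : S.N) (p : ℝ × ℝ) (ε R : ℝ) : Set (ℝ × ℝ) :=
  {q | dist q p < ε ∧ ∀ ν', S.C κ ν' → q.1 ∉ A (idx S κ ν') '' Set.Icc (-R) R}

theorem isOpen_Us (κ : S.N) (p : ℝ × ℝ) (ε R : ℝ) : IsOpen (Us S κ p ε R) := by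
  have h : Us S κ p ε R = Metric.ball p ε ∩
      ⋂ ν' ∈ {ν' | S.C κ ν'}, (Prod.fst ⁻¹' (A (idx S κ ν') '' Set.Icc (-R) R)ᶜ) := by
    ext q
    simp only [Us, Set.mem_ofPred_eq, Set.mem_inter_iff, Metric.mem_ball, Set.mem_iInter,
      Set.mem_preimage, Set.mem_compl_iff]
  rw [h]
  refine Metric.isOpen_ball.inter ?_
  refine (S.C_fin κ).isOpen_biInter (fun ν' _ => ?_)
  refine IsOpen.preimage continuous_fst ?_
  exact ((isCompact_Icc).image (continuous_A _)).isClosed.isOpen_compl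

theorem self_mem_Us {a : Pre S} (ha : Term a) {ε R : ℝ} (hε : 0 < ε) : a.2 ∈ Us S a.1 a.2 ε R := by
  refine ⟨by rw [dist_self]; exact hε, fun ν' h => ?_⟩
  rintro ⟨u, _, hu⟩
  exact ha ν' h ⟨u, hu⟩

theorem Us_cases {κ : S.N} {p : ℝ × ℝ} {ε R : ℝ} (hR : 1 ≤ R) {q : ℝ × ℝ} (hq : q ∈ Us S κ p ε R) :
    Term (⟨κ, q⟩ : Pre S) ∨ ∃ b : Pre S, Step S r ⟨κ, q⟩ b ∧ R < |b.2.1| ∧ Term b := by
  by_cases h : Term (⟨κ, q⟩ : Pre S)
  · exact Or.inl h
  · right
    rw [term_iff (r := r)] at h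
    push Not at h
    obtain ⟨b, hb⟩ := h
    have h1 : R < |b.2.1| := by
      by_contra hcon
      push Not at hcon
      apply hq.2 b.1 hb.1
      refine ⟨b.2.1, abs_le.1 hcon, ?_⟩
      have h2 := hb.2
      simp only at h2
      rw [h2]; rfl
    exact ⟨b, hb, h1, term_of_gt (hR.trans h1.le)⟩

theorem t2 (hr : Function.Injective r) : T2Space (Mf S r) := by
  -- two terminal points
  have hTT : ∀ a b : Pre S, Term a → Term b → mk S r a ≠ mk S r b →
      ∃ U V : Set (Mf S r), IsOpen U ∧ IsOpen V ∧ mk S r a ∈ U ∧ mk S r b ∈ V ∧ Disjoint U V := by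
    intro a b ha hb hne
    by_cases h1 : mk S r a ∈ D S r b.1
    · exact sep_chart h1 mem_D hne
    by_cases h2 : mk S r b ∈ D S r a.1
    · exact sep_chart mem_D h2 hne
    have hab : a.1 ≠ b.1 := fun h => h1 (h ▸ mem_D)
    have hrab : 0 < |r a.1 - r b.1| := abs_pos.2 (sub_ne_zero.2 (fun h => hab (hr h)))
    set R : ℝ := 1 + (|a.2.2| + |b.2.2| + 2) / |r a.1 - r b.1| with hR
    have hR1 : 1 ≤ R := by
      rw [hR]
      have : 0 ≤ (|a.2.2| + |b.2.2| + 2) / |r a.1 - r b.1| := by positivity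
      linarith
    refine ⟨chart S r a.1 '' Us S a.1 a.2 1 R, chart S r b.1 '' Us S b.1 b.2 1 R,
      (isOpenEmbedding_chart _).isOpenMap _ (isOpen_Us _ _ _ _),
      (isOpenEmbedding_chart _).isOpenMap _ (isOpen_Us _ _ _ _),
      ⟨a.2, self_mem_Us ha one_pos, rfl⟩, ⟨b.2, self_mem_Us hb one_pos, rfl⟩, ?_⟩
    rw [Set.disjoint_left]
    rintro c ⟨q, hq, rfl⟩ ⟨q', hq', hc⟩
    rcases Us_cases (r := r) hR1 hq with h3 | ⟨s, h3, h4, h5⟩
    · have h6 := reach_C (reach_term h3 hc.symm)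
      exact h1 (D_anti h6 (show mk S r a ∈ D S r a.1 from mem_D))
    rcases Us_cases (r := r) hR1 hq' with h6 | ⟨s', h6, h7, h8⟩
    · have h9 := reach_C (reach_term h6 hc)
      exact h2 (D_anti h9 (show mk S r b ∈ D S r b.1 from mem_D))
    have h9 : mk S r s = mk S r s' := by
      rw [← mk_step h3, ← mk_step h6]; exact hc.symm
    have h10 := term_unique h5 h8 h9
    subst h10
    have e1 : q.2 = s.2.2 - r a.1 * theta s.2.1 := congrArg Prod.snd h3.2
    have e2 : q'.2 = s.2.2 - r b.1 * theta s.2.1 := congrArg Prod.snd h6.2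
    have d1 : |q.2 - a.2.2| < 1 := by
      have := hq.1
      rw [Prod.dist_eq] at this
      exact lt_of_le_of_lt (le_max_right _ _) this
    have d2 : |q'.2 - b.2.2| < 1 := by
      have := hq'.1
      rw [Prod.dist_eq] at this
      exact lt_of_le_of_lt (le_max_right _ _) this
    have e3 : (r a.1 - r b.1) * theta s.2.1 = q'.2 - q.2 := by rw [e1, e2]; ring
    have e4 : |r a.1 - r b.1| * theta s.2.1 ≤ |a.2.2| + |b.2.2| + 2 := by
      have h11 : 0 ≤ theta s.2.1 := le_max_right _ _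
      rw [← abs_of_nonneg h11, ← abs_mul, e3]
      have h12 : q'.2 - q.2 = (q'.2 - b.2.2) - (q.2 - a.2.2) + (b.2.2 - a.2.2) := by ring
      rw [h12]
      have h13 : |b.2.2 - a.2.2| ≤ |b.2.2| + |a.2.2| := abs_sub _ _
      have h14 : |(q'.2 - b.2.2) - (q.2 - a.2.2)| ≤ |q'.2 - b.2.2| + |q.2 - a.2.2| := abs_sub _ _
      have h15 := abs_add_le ((q'.2 - b.2.2) - (q.2 - a.2.2)) (b.2.2 - a.2.2)
      linarith
    have e5 : R - 1 < theta s.2.1 := lt_of_lt_of_le (by linarith) (theta_ge s.2.1)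
    have e6 : |r a.1 - r b.1| * (R - 1) = |a.2.2| + |b.2.2| + 2 := by
      rw [hR]; field_simp; ring
    have e7 : |r a.1 - r b.1| * (R - 1) < |r a.1 - r b.1| * theta s.2.1 :=
      mul_lt_mul_of_pos_left e5 hrab
    linarith
  -- a terminal point and a point of the system
  have hTI : ∀ (a : Pre S) (x : S.X) (t : ℝ), Term a →
      ∃ U V : Set (Mf S r), IsOpen U ∧ IsOpen V ∧ mk S r a ∈ U ∧ pt r x t ∈ V ∧ Disjoint U V := by
    intro a x t ha
    have hn : ∃ n, S.g a.1 < n ∧ ∀ ν', S.C a.1 ν' → S.g ν' < n := by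
      obtain ⟨n, hn⟩ := ((S.C_fin a.1).image S.g).bddAbove
      refine ⟨max n (S.g a.1) + 1, ?_, ?_⟩
      · have := le_max_right n (S.g a.1); omega
      · intro ν' h
        have h1 := hn ⟨ν', h, rfl⟩
        have := le_max_left n (S.g a.1)
        omega
    obtain ⟨n, hn1, hn2⟩ := hn
    obtain ⟨ν, hν⟩ := S.mem_ex x
    refine ⟨chart S r a.1 '' Us S a.1 a.2 1 1, D S r ((nx S x)^[n] ν),
      (isOpenEmbedding_chart _).isOpenMap _ (isOpen_Us _ _ _ _), isOpen_D _,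
      ⟨a.2, self_mem_Us ha one_pos, rfl⟩, pt_mem_D.2 (iter_reach n x ν hν).2, ?_⟩
    rw [Set.disjoint_left]
    rintro c ⟨q, hq, rfl⟩ hc
    have hg := iter_g n x ν hν
    rcases Us_cases (r := r) le_rfl hq with h3 | ⟨s, h3, h4, h5⟩
    · have h6 := g_le (term_D (r := r) h3 hc)
      simp only at h6
      omega
    · have h7 : mk S r s ∈ D S r ((nx S x)^[n] ν) := by rw [← mk_step h3]; exact hc
      have h6 := g_le (term_D h5 h7)
      have h8 := hn2 s.1 h3.1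
      omega
  refine ⟨fun m m' hne => ?_⟩
  rcases term_or_pt m with ⟨a, ha, rfl⟩ | ⟨x, t, rfl⟩
  · rcases term_or_pt m' with ⟨b, hb, rfl⟩ | ⟨y, s, rfl⟩
    · obtain ⟨U, V, h1, h2, h3, h4, h5⟩ := hTT a b ha hb hne
      exact ⟨U, V, h1, h2, h3, h4, h5⟩
    · obtain ⟨U, V, h1, h2, h3, h4, h5⟩ := hTI a y s ha
      exact ⟨U, V, h1, h2, h3, h4, h5⟩
  · rcases term_or_pt m' with ⟨b, hb, rfl⟩ | ⟨y, s, rfl⟩
    · obtain ⟨U, V, h1, h2, h3, h4, h5⟩ := hTI b x t hb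
      exact ⟨V, U, h2, h1, h4, h3, h5.symm⟩
    · obtain ⟨ν, hν⟩ := S.mem_ex x
      obtain ⟨μ, hμ⟩ := S.mem_ex y
      by_cases hxμ : S.mem x μ
      · obtain ⟨U, V, h1, h2, h3, h4, h5⟩ := sep_chart (pt_mem_D.2 hxμ) (pt_mem_D.2 hμ) hne
        exact ⟨U, V, h1, h2, h3, h4, h5⟩
      · obtain ⟨κ, h1, h2, h3⟩ := S.sep x ν μ hν hxμ
        refine ⟨D S r κ, D S r μ, isOpen_D _, isOpen_D _, pt_mem_D.2 h2, pt_mem_D.2 hμ, ?_⟩
        rw [Set.disjoint_left]
        intro c hc1 hc2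
        rcases term_or_pt c with ⟨a, ha, rfl⟩ | ⟨z, w, rfl⟩
        · exact h3 a.1 (term_D ha hc1) (term_D ha hc2)
        · obtain ⟨τ, h4, h5, _⟩ := S.merge z κ μ (pt_mem_D.1 hc1) (pt_mem_D.1 hc2)
          exact h3 τ h4 h5

variable (S r)

/-- The `n`-th cover. -/
def Cov (n : ℕ) : Set (Set (Mf S r)) :=
  {U | ∃ ν c, n ≤ S.g ν ∧ U = chart S r ν '' {q | |q.2 - c| < 1 / ((n : ℝ) + 1)}} ∪
    {U | ∃ κ p, U = chart S r κ '' Us S κ p (1 / ((n : ℝ) + 1)) (n + 1)}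

variable {S r}

theorem isOpen_Cov {n : ℕ} {U : Set (Mf S r)} (hU : U ∈ Cov S r n) : IsOpen U := by
  rcases hU with ⟨ν, c, _, rfl⟩ | ⟨κ, p, rfl⟩
  · refine (isOpenEmbedding_chart _).isOpenMap _ ?_
    exact isOpen_lt (by fun_prop) continuous_const
  · exact (isOpenEmbedding_chart _).isOpenMap _ (isOpen_Us _ _ _ _)

theorem Cov_term {n : ℕ} {U : Set (Mf S r)} (hU : U ∈ Cov S r n) {a : Pre S} (ha : Term a)
    (hg : S.g a.1 < n) (hn : |a.2.1| ≤ n) (haU : mk S r a ∈ U) :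
    ∃ p, U = chart S r a.1 '' Us S a.1 p (1 / ((n : ℝ) + 1)) (n + 1) ∧
      dist a.2 p < 1 / ((n : ℝ) + 1) := by
  rcases hU with ⟨ν, c, h1, rfl⟩ | ⟨κ, p, rfl⟩
  · obtain ⟨q, _, hq⟩ := haU
    have h2 := g_le (term_D ha (show mk S r a ∈ D S r ν from ⟨q, hq⟩))
    omega
  · obtain ⟨q, hq, hqa⟩ := haU
    rcases Us_cases (r := r) (by linarith [(Nat.cast_nonneg n : (0:ℝ) ≤ n)]) hq with
      h3 | ⟨s, h3, h4, h5⟩
    · have h6 := term_unique ha h3 hqa.symm
      subst h6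
      exact ⟨p, rfl, hq.1⟩
    · exfalso
      have h6 : mk S r a = mk S r s := by rw [← mk_step h3]; exact hqa.symm
      have h7 := term_unique ha h5 h6
      subst h7
      linarith

theorem Cov_pt {n : ℕ} {U : Set (Mf S r)} (hU : U ∈ Cov S r n) {x : S.X} {t : ℝ}
    (hx : pt r x t ∈ U) :
    ∃ ν c, n ≤ S.g ν ∧ U = chart S r ν '' {q | |q.2 - c| < 1 / ((n : ℝ) + 1)} ∧ S.mem x ν ∧
      |t - c| < 1 / ((n : ℝ) + 1) := by
  rcases hU with ⟨ν, c, h1, rfl⟩ | ⟨κ, p, rfl⟩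
  · obtain ⟨q, hq, hqx⟩ := hx
    obtain ⟨h2, h3⟩ := pt_height hqx.symm
    rw [h3] at hq
    exact ⟨ν, c, h1, rfl, h2, hq⟩
  · exfalso
    obtain ⟨q, hq, hqx⟩ := hx
    rcases Us_cases (r := r) (by linarith [(Nat.cast_nonneg n : (0:ℝ) ≤ n)]) hq with
      h3 | ⟨s, h3, h4, h5⟩
    · exact pt_not_term h3 hqx
    · refine pt_not_term (r := r) (x := x) (t := t) h5 ?_
      rw [← mk_step h3]; exact hqx

theorem exists_Cov (n : ℕ) (m : Mf S r) : ∃ U ∈ Cov S r n, m ∈ U := by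
  have hpos : (0:ℝ) < 1 / ((n : ℝ) + 1) := by positivity
  rcases term_or_pt m with ⟨a, ha, rfl⟩ | ⟨x, t, rfl⟩
  · exact ⟨_, Or.inr ⟨a.1, a.2, rfl⟩, a.2, self_mem_Us ha hpos, rfl⟩
  · obtain ⟨ν, hν⟩ := S.mem_ex x
    refine ⟨_, Or.inl ⟨(nx S x)^[n] ν, t, iter_g n x ν hν, rfl⟩,
      (crd S x ((nx S x)^[n] ν), t), ?_, (pt_eq (iter_reach n x ν hν).2 t).symm⟩
    show |t - t| < _
    rw [sub_self, abs_zero]; exact hpos

theorem exists_big {d : ℝ} (hd : 0 < d) (k : ℕ) (u v : ℝ) :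
    ∃ n : ℕ, k < n ∧ u ≤ n ∧ v ≤ n ∧ 2 / ((n : ℝ) + 1) < d := by
  obtain ⟨n1, h1⟩ := exists_nat_gt u
  obtain ⟨n2, h2⟩ := exists_nat_gt v
  obtain ⟨n3, h3⟩ := exists_nat_gt (2 / d)
  refine ⟨(k + 1) + n1 + n2 + n3, by omega, ?_, ?_, ?_⟩
  · push_cast
    have := (Nat.cast_nonneg n1 : (0:ℝ) ≤ n1)
    have := (Nat.cast_nonneg n2 : (0:ℝ) ≤ n2)
    have := (Nat.cast_nonneg n3 : (0:ℝ) ≤ n3)
    have := (Nat.cast_nonneg k : (0:ℝ) ≤ k)
    linarith
  · push_cast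
    have := (Nat.cast_nonneg n1 : (0:ℝ) ≤ n1)
    have := (Nat.cast_nonneg n2 : (0:ℝ) ≤ n2)
    have := (Nat.cast_nonneg n3 : (0:ℝ) ≤ n3)
    have := (Nat.cast_nonneg k : (0:ℝ) ≤ k)
    linarith
  · push_cast
    have e1 := (Nat.cast_nonneg n1 : (0:ℝ) ≤ n1)
    have e2 := (Nat.cast_nonneg n2 : (0:ℝ) ≤ n2)
    have e3 := (Nat.cast_nonneg n3 : (0:ℝ) ≤ n3)
    have e4 := (Nat.cast_nonneg k : (0:ℝ) ≤ k)
    rw [div_lt_iff₀ (by linarith)]
    rw [div_lt_iff₀ hd] at h3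
    nlinarith

theorem diag_term {a : Pre S} (ha : Term a) {m' : Mf S r}
    (h : ∀ n, ∃ U ∈ Cov S r n, mk S r a ∈ U ∧ m' ∈ U) : mk S r a = m' := by
  by_contra hne
  rcases term_or_pt m' with ⟨b, hb, rfl⟩ | ⟨y, s, rfl⟩
  · have hn : ∃ n : ℕ, S.g a.1 < n ∧ |a.2.1| ≤ n ∧ |b.2.1| ≤ n ∧
        (a.2 ≠ b.2 → 2 / ((n : ℝ) + 1) < dist a.2 b.2) := by
      by_cases hab : a.2 = b.2
      · obtain ⟨n, h1, h2, h3, _⟩ := exists_big one_pos (S.g a.1) |a.2.1| |b.2.1|
        exact ⟨n, h1, h2, h3, fun h => absurd hab h⟩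
      · obtain ⟨n, h1, h2, h3, h4⟩ := exists_big (dist_pos.2 hab) (S.g a.1) |a.2.1| |b.2.1|
        exact ⟨n, h1, h2, h3, fun _ => h4⟩
    obtain ⟨n, h1, h2, h3, h4⟩ := hn
    obtain ⟨U, hU, haU, hbU⟩ := h n
    obtain ⟨p, rfl, hp⟩ := Cov_term hU ha h1 h2 haU
    obtain ⟨q, hq, hqb⟩ := hbU
    rcases Us_cases (r := r) (by linarith [(Nat.cast_nonneg n : (0:ℝ) ≤ n)]) hq with
      h5 | ⟨s, h5, h6, h7⟩
    · have h8 := term_unique hb h5 hqb.symm
      have h9 : b.2 = q := by rw [h8]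
      have h10 : a.2 ≠ b.2 := by
        intro heq
        apply hne
        have : a = b := by
          rw [h8]
          obtain ⟨ν, p⟩ := a
          simp only at heq
          rw [heq, h9]
        rw [this]
      have h11 := h4 h10
      have h12 := hq.1
      rw [← h9] at h12
      have h13 := dist_triangle_right a.2 b.2 p
      have h14 : 2 / ((n : ℝ) + 1) = 1 / ((n : ℝ) + 1) + 1 / ((n : ℝ) + 1) := by ring
      linarith
    · have h8 : mk S r b = mk S r s := by rw [← mk_step h5]; exact hqb.symm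
      have h9 := term_unique hb h7 h8
      subst h9
      linarith
  · obtain ⟨n, h1, h2, _, _⟩ := exists_big one_pos (S.g a.1) |a.2.1| 0
    obtain ⟨U, hU, haU, hbU⟩ := h n
    obtain ⟨p, rfl, hp⟩ := Cov_term hU ha h1 h2 haU
    obtain ⟨q, hq, hqb⟩ := hbU
    rcases Us_cases (r := r) (by linarith [(Nat.cast_nonneg n : (0:ℝ) ≤ n)]) hq with
      h5 | ⟨s', h5, h6, h7⟩
    · exact pt_not_term h5 hqb
    · refine pt_not_term (r := r) (x := y) (t := s) h7 ?_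
      rw [← mk_step h5]; exact hqb

theorem isGdelta_diagonal : IsGδ (Set.diagonal (Mf S r)) := by
  rw [isGδ_iff_eq_iInter_nat]
  refine ⟨fun n => ⋃ U ∈ Cov S r n, U ×ˢ U, fun n => ?_, ?_⟩
  · exact isOpen_biUnion (fun U hU => (isOpen_Cov hU).prod (isOpen_Cov hU))
  · ext ⟨m, m'⟩
    simp only [Set.mem_diagonal_iff, Set.mem_iInter, Set.mem_iUnion, Set.mem_prod, exists_prop]
    constructor
    · rintro rfl n
      obtain ⟨U, hU, hm⟩ := exists_Cov n m
      exact ⟨U, hU, hm, hm⟩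
    · intro h
      rcases term_or_pt m with ⟨a, ha, rfl⟩ | ⟨x, t, rfl⟩
      · exact diag_term ha h
      · rcases term_or_pt m' with ⟨b, hb, rfl⟩ | ⟨y, s, rfl⟩
        · refine (diag_term hb (fun n => ?_)).symm
          obtain ⟨U, hU, h1, h2⟩ := h n
          exact ⟨U, hU, h2, h1⟩
        · by_cases hts : t = s
          · subst hts
            by_cases hxy : x = y
            · rw [hxy]
            · exfalso
              obtain ⟨n, hn⟩ := S.bdd x y hxy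
              obtain ⟨U, hU, h1, h2⟩ := h (n + 1)
              obtain ⟨ν, c, h3, rfl, h4, _⟩ := Cov_pt hU h1
              obtain ⟨q, _, hq⟩ := h2
              have h5 := (pt_height hq.symm).1
              have := hn ν h4 h5
              omega
          · exfalso
            obtain ⟨n, _, _, _, hn⟩ := exists_big (abs_pos.2 (sub_ne_zero.2 hts)) 0 0 0
            obtain ⟨U, hU, h1, h2⟩ := h n
            obtain ⟨ν, c, h3, rfl, h4, h5⟩ := Cov_pt hU h1
            obtain ⟨q, hq', hq⟩ := h2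
            obtain ⟨_, h6⟩ := pt_height hq.symm
            rw [h6] at hq'
            have h7 : |s - c| < 1 / ((n : ℝ) + 1) := hq'
            have h8 : t - s = (t - c) - (s - c) := by ring
            have h9 := abs_sub (t - c) (s - c)
            rw [← h8] at h9
            have h14 : 2 / ((n : ℝ) + 1) = 1 / ((n : ℝ) + 1) + 1 / ((n : ℝ) + 1) := by ring
            linarith

/-- The domain of a chart is homeomorphic to the plane. -/
theorem D_homeo (ν : S.N) : Nonempty (D S r ν ≃ₜ EuclideanSpace ℝ (Fin 2)) := by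
  refine ⟨((isOpenEmbedding_chart ν).toIsEmbedding.toHomeomorph.symm).trans ?_⟩
  exact (Homeomorph.finTwoArrow (X := ℝ)).symm.trans
    (EuclideanSpace.equiv (Fin 2) ℝ).toHomeomorph.symm

theorem connected (h : ∀ ν μ : S.N, EqvGen S.C ν μ) (hne : Nonempty S.N) :
    ConnectedSpace (Mf S r) := by
  have hD : ∀ ν : S.N, IsPreconnected (D S r ν) := fun ν =>
    isPreconnected_range (isOpenEmbedding_chart ν).continuous
  have key : ∀ ν μ : S.N, EqvGen S.C ν μ → ∀ m ∈ D S r ν, ∀ m' ∈ D S r μ,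
      connectedComponent m = connectedComponent m' := by
    intro ν μ hνμ
    induction hνμ with
    | rel a b hab =>
      intro m hm m' hm'
      exact (connectedComponent_eq ((hD a).subset_connectedComponent hm
        (D_anti (ReflTransGen.single hab) hm')))
    | refl a =>
      intro m hm m' hm'
      exact (connectedComponent_eq ((hD a).subset_connectedComponent hm hm'))
    | symm a b _ ih =>
      intro m hm m' hm'
      exact (ih m' hm' m hm).symm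
    | trans a b c _ _ ih1 ih2 =>
      intro m hm m' hm'
      have hb : chart S r b (0, 0) ∈ D S r b := ⟨_, rfl⟩
      exact (ih1 m hm _ hb).trans (ih2 _ hb m' hm')
  obtain ⟨ν⟩ := hne
  rw [connectedSpace_iff_connectedComponent]
  refine ⟨chart S r ν (0, 0), ?_⟩
  rw [Set.eq_univ_iff_forall]
  intro m
  obtain ⟨⟨μ, p⟩, rfl⟩ := mk_surj m
  rw [key ν μ (h ν μ) _ ⟨_, rfl⟩ (mk S r ⟨μ, p⟩) ⟨p, rfl⟩]
  exact mem_connectedComponent

end Pool.Agent.Helper185.Man
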