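import Pool.Agent.Helper185.Fat1
import Pool.Agent.Helper185.Man1

/-!
# A ladder of finite sets on the countable ordinals
-/

namespace Pool.Agent.Helper185.Man

open Set Topology Relation
open Pool.Agent.Helper185.Fat (Om1 om1_Iio om1_mk om1_nonempty exists_gt exists_least exists_rec
  pressing om1_Iic)

/-- The conditions on the ladder at `i`. -/
def LadAt (G : Om1 → ℕ → Finset Om1) (i : Om1) (y : ℕ → Finset Om1) : Prop :=
  (∀ n, ∀ k ∈ y n, k < i) ∧ (∀ n, y n ⊆ y (n + 1)) ∧ (∀ k < i, ∃ n, k ∈ y n) ∧
    ∀ n, ∀ k ∈ y n, ∀ l, l ∈ G k n ↔ l ∈ y n ∧ l < k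

theorem mono_of {y : ℕ → Finset Om1} (h : ∀ n, y n ⊆ y (n + 1)) {m n : ℕ} (hmn : m ≤ n) :
    y m ⊆ y n := by
  induction n, hmn using Nat.le_induction with
  | base => exact Finset.Subset.refl _
  | succ n _ ih => exact ih.trans (h n)

theorem lad_step (G : Om1 → ℕ → Finset Om1) (i : Om1) (hG : ∀ j < i, LadAt G j (G j)) :
    ∃ y, LadAt G i y := by
  classical
  by_cases hne : ∃ ξ, ξ < i
  · obtain ⟨ξ₀, hξ₀⟩ := hne
    obtain ⟨ν, hν⟩ := (om1_Iio i).exists_eq_range ⟨ξ₀, hξ₀⟩
    have hνlt : ∀ n, ν n < i := fun n => by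
      have : ν n ∈ Set.Iio i := by rw [hν]; exact ⟨n, rfl⟩
      exact this
    have hνs : ∀ ξ, ξ < i → ∃ n, ν n = ξ := fun ξ hξ => by
      have : ξ ∈ Set.range ν := by rw [← hν]; exact hξ
      exact this
    -- a weakly increasing cofinal sequence
    let a : ℕ → Om1 := fun n => Nat.rec (motive := fun _ => Om1) (ν 0)
      (fun k b => max b (ν (k + 1))) n
    have ha1 : ∀ n, a (n + 1) = max (a n) (ν (n + 1)) := fun n => rfl
    have halt : ∀ n, a n < i := by
      intro n
      induction n with
      | zero => exact hνlt 0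
      | succ n ih => rw [ha1]; exact max_lt ih (hνlt _)
    have hale : ∀ n, a n ≤ a (n + 1) := fun n => by rw [ha1]; exact le_max_left _ _
    have hνa : ∀ n, ν n ≤ a n := by
      intro n
      cases n with
      | zero => exact le_rfl
      | succ n => rw [ha1]; exact le_max_right _ _
    -- the stages
    have hstp : ∀ n k : ℕ, ∃ k' : ℕ, ((a k = a (k + 1) ∨ a k ∈ G (a (k + 1)) (n + 1)) → k' = k + 1) ∧
        (¬ (a k = a (k + 1) ∨ a k ∈ G (a (k + 1)) (n + 1)) → k' = k) := by
      intro n k
      rcases Classical.em (a k = a (k + 1) ∨ a k ∈ G (a (k + 1)) (n + 1)) with h | h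
      · exact ⟨k + 1, fun _ => rfl, fun h' => absurd h h'⟩
      · exact ⟨k, fun h' => absurd h' h, fun _ => rfl⟩
    choose stp hstp1 hstp2 using hstp
    let s : ℕ → ℕ := fun n => Nat.rec (motive := fun _ => ℕ) 0 stp n
    have hs : ∀ n, s (n + 1) = stp n (s n) := fun n => rfl
    have hsmono : ∀ n, s n ≤ s (n + 1) := by
      intro n
      rw [hs]
      rcases Classical.em (a (s n) = a (s n + 1) ∨ a (s n) ∈ G (a (s n + 1)) (n + 1)) with h | h
      · rw [hstp1 n (s n) h]; omega
      · rw [hstp2 n (s n) h]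
    have hsle : ∀ m n, m ≤ n → s m ≤ s n := fun m n h => monotone_nat_of_le_succ hsmono h
    have hsunb : ∀ k, ∃ n, k ≤ s n := by
      intro k
      induction k with
      | zero => exact ⟨0, Nat.zero_le _⟩
      | succ k ih =>
        obtain ⟨n, hn⟩ := ih
        by_contra hcon
        push Not at hcon
        have hk : ∀ m, n ≤ m → s m = k := by
          intro m hm
          have h1 := hsle n m hm
          have h2 := hcon m
          omega
        have h1 : ∃ m, n ≤ m ∧ (a k = a (k + 1) ∨ a k ∈ G (a (k + 1)) (m + 1)) := by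
          rcases (hale k).lt_or_eq with h | h
          · obtain ⟨m, hm⟩ := (hG _ (halt (k + 1))).2.2.1 (a k) h
            refine ⟨max n m, le_max_left _ _, Or.inr ?_⟩
            exact mono_of (hG _ (halt (k + 1))).2.1 ((le_max_right n m).trans (Nat.le_succ _)) hm
          · exact ⟨n, le_rfl, Or.inl h⟩
        obtain ⟨m, hm, hm'⟩ := h1
        have h2 := hs m
        rw [hk m hm, hstp1 m k hm', hk (m + 1) (hm.trans (Nat.le_succ _))] at h2
        omega
    let I : ℕ → Om1 := fun n => a (s n)
    have hI : ∀ n, I (n + 1) = I n ∨ I n ∈ G (I (n + 1)) (n + 1) := by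
      intro n
      simp only [I]
      rcases Classical.em (a (s n) = a (s n + 1) ∨ a (s n) ∈ G (a (s n + 1)) (n + 1)) with h | h
      · rw [hs, hstp1 n (s n) h]
        rcases h with h | h
        · exact Or.inl h.symm
        · exact Or.inr h
      · rw [hs, hstp2 n (s n) h]; exact Or.inl rfl
    have hIlt : ∀ n, I n < i := fun n => halt _
    have hlast : ∀ n, ∀ k ∈ insert (I n) (G (I n) n), ∀ l,
        l ∈ G k n ↔ l ∈ insert (I n) (G (I n) n) ∧ l < k := by
      intro n k hk l
      have hgood := hG (I n) (hIlt n)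
      rcases Finset.mem_insert.1 hk with h | h
      · subst h
        constructor
        · intro hl
          exact ⟨Finset.mem_insert_of_mem hl, hgood.1 n l hl⟩
        · rintro ⟨h1, h2⟩
          rcases Finset.mem_insert.1 h1 with h3 | h3
          · exact absurd h2 (h3 ▸ lt_irrefl _)
          · exact h3
      · rw [hgood.2.2.2 n k h l]
        constructor
        · rintro ⟨h1, h2⟩; exact ⟨Finset.mem_insert_of_mem h1, h2⟩
        · rintro ⟨h1, h2⟩
          rcases Finset.mem_insert.1 h1 with h3 | h3
          · exfalso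
            have := hgood.1 n k h
            rw [h3] at h2
            exact absurd h2 (not_lt.2 this.le)
          · exact ⟨h3, h2⟩
    have hmono : ∀ n, insert (I n) (G (I n) n) ⊆ insert (I (n + 1)) (G (I (n + 1)) (n + 1)) := by
      intro n l hl
      rcases hI n with h | h
      · rw [h]
        rcases Finset.mem_insert.1 hl with h1 | h1
        · rw [h1]; exact Finset.mem_insert_self _ _
        · exact Finset.mem_insert_of_mem ((hG (I n) (hIlt n)).2.1 n h1)
      · apply Finset.mem_insert_of_mem
        rcases Finset.mem_insert.1 hl with h1 | h1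
        · rw [h1]; exact h
        · have h2 := (hG (I n) (hIlt n)).2.1 n h1
          exact (((hG (I (n + 1)) (hIlt (n + 1))).2.2.2 (n + 1) (I n) h l).1 h2).1
    refine ⟨fun n => insert (I n) (G (I n) n), ?_, hmono, ?_, hlast⟩
    · intro n k hk
      rcases Finset.mem_insert.1 hk with h | h
      · rw [h]; exact hIlt n
      · exact ((hG (I n) (hIlt n)).1 n k h).trans (hIlt n)
    · intro j hj
      obtain ⟨k, hk⟩ := hνs j hj
      obtain ⟨n, hn⟩ := hsunb k
      have hamono : ∀ p q, p ≤ q → a p ≤ a q := fun p q h => monotone_nat_of_le_succ hale h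
      have h1 : j ≤ I n := by
        rw [← hk]; exact (hνa k).trans (hamono _ _ hn)
      rcases h1.lt_or_eq with h1 | h1
      · obtain ⟨m, hm⟩ := (hG (I n) (hIlt n)).2.2.1 j h1
        refine ⟨max n m, ?_⟩
        have h2 : I n ∈ insert (I (max n m)) (G (I (max n m)) (max n m)) :=
          mono_of (y := fun n => insert (I n) (G (I n) n)) hmono (le_max_left n m)
            (Finset.mem_insert_self _ _)
        have h3 : j ∈ G (I n) (max n m) :=
          mono_of (hG (I n) (hIlt n)).2.1 (le_max_right n m) hm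
        exact ((hlast (max n m) (I n) h2 j).1 h3).1
      · exact ⟨n, by rw [h1]; exact Finset.mem_insert_self _ _⟩
  · push Not at hne
    refine ⟨fun _ => ∅, ?_, ?_, ?_, ?_⟩
    · intro n k hk; exact absurd hk (Finset.notMem_empty _)
    · intro n; exact Finset.Subset.refl _
    · intro k hk; exact absurd hk (not_lt.2 (hne k))
    · intro n k hk; exact absurd hk (Finset.notMem_empty _)

/-- The ladder. -/
theorem exists_lad : ∃ P : Om1 → ℕ → Finset Om1, ∀ i, LadAt P i (P i) := by
  classical
  obtain ⟨P, hP⟩ := exists_rec (I := Om1) (Y := ℕ → Finset Om1)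
    (fun i g y => LadAt (fun j n => if h : j < i then g j h n else ∅) i y) (by
      intro i g hg
      apply lad_step
      intro j hj
      have h1 := hg j hj
      simp only [LadAt] at h1 ⊢
      refine ⟨?_, ?_, ?_, ?_⟩
      · intro n k hk; rw [dif_pos hj] at hk; exact h1.1 n k hk
      · intro n; rw [dif_pos hj, dif_pos hj]; exact h1.2.1 n
      · intro k hk
        obtain ⟨n, hn⟩ := h1.2.2.1 k hk
        exact ⟨n, by rw [dif_pos hj]; exact hn⟩
      · intro n k hk l
        rw [dif_pos hj] at hk
        have hkj := h1.1 n k hk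
        have h2 := h1.2.2.2 n k hk l
        rw [dif_pos hkj] at h2
        rw [dif_pos (hkj.trans hj), dif_pos hj]
        exact h2)
  refine ⟨P, fun i => ?_⟩
  have h1 := hP i
  simp only [LadAt] at h1 ⊢
  refine ⟨h1.1, h1.2.1, h1.2.2.1, ?_⟩
  intro n k hk l
  have h2 := h1.2.2.2 n k hk l
  rw [dif_pos (h1.1 n k hk)] at h2
  exact h2

end Pool.Agent.Helper185.Man
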