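import Pool.Agent.Helper185.Man5

/-!
# The system of nodes and points on the ladder
-/

namespace Pool.Agent.Helper185.Man

open Set Topology Relation
open Pool.Agent.Helper185.Fat (Om1 om1_Iio om1_mk om1_nonempty exists_gt exists_least exists_rec
  pressing om1_Iic)

/-- The least stage at which `j` appears in the ladder of `a`. -/
noncomputable def rho (P : Om1 → ℕ → Finset Om1) (j a : Om1) : ℕ := sInf {n | j ∈ P a n}

section rho

variable {P : Om1 → ℕ → Finset Om1} (hP : ∀ i, LadAt P i (P i))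

include hP

theorem P_lt {a j : Om1} {n : ℕ} (h : j ∈ P a n) : j < a := (hP a).1 n j h

theorem P_mono {a : Om1} {m n : ℕ} (h : m ≤ n) : P a m ⊆ P a n := mono_of (hP a).2.1 h

theorem P_cut {a i : Om1} {n : ℕ} (h : i ∈ P a n) (l : Om1) : l ∈ P i n ↔ l ∈ P a n ∧ l < i :=
  (hP a).2.2.2 n i h l

theorem rho_mem {j a : Om1} (h : j < a) : j ∈ P a (rho P j a) :=
  Nat.sInf_mem (s := {n | j ∈ P a n}) ((hP a).2.2.1 j h)

omit hP in
theorem rho_le {j a : Om1} {n : ℕ} (h : j ∈ P a n) : rho P j a ≤ n :=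
  Nat.sInf_le (s := {n | j ∈ P a n}) h

theorem mem_of_rho_le {j a : Om1} (h : j < a) {n : ℕ} (hn : rho P j a ≤ n) : j ∈ P a n :=
  P_mono hP hn (rho_mem hP h)

theorem rho_gt {j a : Om1} (h : j < a) {n : ℕ} (hn : j ∉ P a n) : n < rho P j a := by
  by_contra hcon
  exact hn (mem_of_rho_le hP h (not_lt.1 hcon))

theorem rho_eq {j a a' : Om1} {M : ℕ} (h : ∀ n, M ≤ n → (j ∈ P a' n ↔ j ∈ P a n))
    (hj : j ∉ P a' M) (h1 : j < a') (h2 : j < a) : rho P j a' = rho P j a := by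
  have h3 := rho_gt hP h1 hj
  have h4 : j ∉ P a M := fun h4 => hj ((h M le_rfl).2 h4)
  have h5 := rho_gt hP h2 h4
  apply le_antisymm
  · exact rho_le ((h _ h5.le).2 (rho_mem hP h2))
  · exact rho_le ((h _ h3.le).1 (rho_mem hP h1))

end rho

/-- A nonempty set with at most two elements. -/
def IsPair (s : Set ℕ) : Prop := ∃ p q, s = {p, q}

theorem pair_sub {s t : Set ℕ} (hs : IsPair s) (h : t ⊆ s) (hne : t.Nonempty) : IsPair t := by
  obtain ⟨p, q, rfl⟩ := hs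
  obtain ⟨a, ha⟩ := hne
  by_cases hp : p ∈ t
  · by_cases hq : q ∈ t
    · refine ⟨p, q, Set.Subset.antisymm h ?_⟩
      rintro x (rfl | hx)
      · exact hp
      · rw [Set.mem_singleton_iff] at hx; rw [hx]; exact hq
    · refine ⟨p, p, ?_⟩
      ext x
      constructor
      · intro hx
        rcases h hx with h1 | h1
        · left; exact h1
        · rw [Set.mem_singleton_iff] at h1; rw [h1] at hx; exact absurd hx hq
      · rintro (h1 | h1)
        · rw [h1]; exact hp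
        · rw [Set.mem_singleton_iff] at h1; rw [h1]; exact hp
  · refine ⟨q, q, ?_⟩
    have haq : a = q := by
      rcases h ha with h1 | h1
      · rw [h1] at ha; exact absurd ha hp
      · exact h1
    ext x
    constructor
    · intro hx
      rcases h hx with h1 | h1
      · rw [h1] at hx; exact absurd hx hp
      · left; exact h1
    · rintro (h1 | h1)
      · rw [h1, ← haq]; exact ha
      · rw [Set.mem_singleton_iff] at h1; rw [h1, ← haq]; exact ha

theorem IsPair.nonempty {s : Set ℕ} (h : IsPair s) : s.Nonempty := by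
  obtain ⟨p, q, rfl⟩ := h; exact ⟨p, Or.inl rfl⟩

theorem IsPair.bdd {s : Set ℕ} (h : IsPair s) : ∃ n, ∀ k ∈ s, k ≤ n := by
  obtain ⟨p, q, rfl⟩ := h
  refine ⟨max p q, ?_⟩
  rintro k (h | h)
  · rw [h]; exact le_max_left _ _
  · rw [Set.mem_singleton_iff] at h; rw [h]; exact le_max_right _ _

/-- The union of an increasing sequence of pairs is a pair. -/
theorem pair_union {s : ℕ → Set ℕ} (h : ∀ n, IsPair (s n)) (hm : ∀ m n, m ≤ n → s m ⊆ s n) :
    IsPair (⋃ n, s n) := by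
  obtain ⟨p, hp⟩ := (h 0).nonempty
  by_cases hq : ∃ n q, q ∈ s n ∧ q ≠ p
  · obtain ⟨n, q, hq, hne⟩ := hq
    refine ⟨p, q, ?_⟩
    ext x
    constructor
    · intro hx
      obtain ⟨m, hm'⟩ := Set.mem_iUnion.1 hx
      have h1 : p ∈ s (max m n) := hm 0 _ (Nat.zero_le _) hp
      have h2 : q ∈ s (max m n) := hm n _ (le_max_right _ _) hq
      have h3 : x ∈ s (max m n) := hm m _ (le_max_left _ _) hm'
      obtain ⟨a, b, hab⟩ := h (max m n)
      rw [hab] at h1 h2 h3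
      simp only [Set.mem_insert_iff, Set.mem_singleton_iff] at h1 h2 h3 ⊢
      rcases h1 with h1 | h1 <;> rcases h2 with h2 | h2 <;> rcases h3 with h3 | h3
      · exact absurd (h2.trans h1.symm) hne
      · exact absurd (h2.trans h1.symm) hne
      · left; rw [h3, h1]
      · right; rw [h3, h2]
      · right; rw [h3, h2]
      · left; rw [h3, h1]
      · exact absurd (h2.trans h1.symm) hne
      · exact absurd (h2.trans h1.symm) hne
    · rintro (h1 | h1)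
      · rw [h1]; exact Set.mem_iUnion.2 ⟨0, hp⟩
      · rw [Set.mem_singleton_iff] at h1; rw [h1]; exact Set.mem_iUnion.2 ⟨n, hq⟩
  · push Not at hq
    refine ⟨p, p, ?_⟩
    ext x
    constructor
    · intro hx
      obtain ⟨m, hm'⟩ := Set.mem_iUnion.1 hx
      left; exact hq m x hm'
    · rintro (h1 | h1)
      · rw [h1]; exact Set.mem_iUnion.2 ⟨0, hp⟩
      · rw [Set.mem_singleton_iff] at h1; rw [h1]; exact Set.mem_iUnion.2 ⟨0, hp⟩

/-- The points. -/
structure Pnt (P : Om1 → ℕ → Finset Om1) where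
  b : Om1
  y : Om1 → Set ℕ
  y_out : ∀ j, b ≤ j → y j = ∅
  y_pair : ∀ j < b, IsPair (y j)
  y_fin : ∃ m, ∀ j < b, j ∉ P b m → rho P j b ∈ y j

/-- The nodes. -/
structure Nod (P : Om1 → ℕ → Finset Om1) where
  a : Om1
  m : ℕ
  s : Finset (Om1 × ℕ)
  s_sub : ∀ j k, (j, k) ∈ s → j ∈ P a m ∧ k ≤ m
  s_pair : ∀ j ∈ P a m, IsPair {k | (j, k) ∈ s}

/-- The point belongs to the node. -/
def Mem (P : Om1 → ℕ → Finset Om1) (x : Pnt P) (ν : Nod P) : Prop :=
  x.b ≤ ν.a ∧ (∀ j ∈ P ν.a ν.m, j < x.b) ∧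
    (∀ j ∈ P ν.a ν.m, ∀ k ≤ ν.m, (k ∈ x.y j ↔ (j, k) ∈ ν.s)) ∧
    ∀ j < x.b, j ∉ P ν.a ν.m → rho P j ν.a ∈ x.y j

/-- The children of a node. -/
def Chd (P : Om1 → ℕ → Finset Om1) (ν ν' : Nod P) : Prop :=
  ν'.m = ν.m + 1 ∧ (ν'.a = ν.a ∨ (ν'.a ∈ P ν.a (ν.m + 1) ∧ ∀ j ∈ P ν.a ν.m, j < ν'.a)) ∧
    (∀ j ∈ P ν.a ν.m, ∀ k ≤ ν.m, ((j, k) ∈ ν'.s ↔ (j, k) ∈ ν.s)) ∧
    ∀ j ∈ P ν'.a (ν.m + 1), j ∉ P ν.a ν.m → (j, ν.m + 1) ∈ ν'.s

section sys

variable {P : Om1 → ℕ → Finset Om1} (hP : ∀ i, LadAt P i (P i))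

theorem nod_ext {x : Pnt P} {ν μ : Nod P} (h1 : Mem P x ν) (h2 : Mem P x μ) (ha : ν.a = μ.a)
    (hm : ν.m = μ.m) : ν = μ := by
  obtain ⟨a, m, s, s1, s2⟩ := ν
  obtain ⟨a', m', s', s1', s2'⟩ := μ
  simp only at ha hm
  subst ha hm
  have : s = s' := by
    ext ⟨j, k⟩
    constructor
    · intro h
      obtain ⟨h3, h4⟩ := s1 j k h
      exact (h2.2.2.1 j h3 k h4).1 ((h1.2.2.1 j h3 k h4).2 h)
    · intro h
      obtain ⟨h3, h4⟩ := s1' j k h
      exact (h1.2.2.1 j h3 k h4).1 ((h2.2.2.1 j h3 k h4).2 h)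
  subst this
  rfl

include hP

theorem chd_le {ν ν' : Nod P} (h : Chd P ν ν') : ν'.a ≤ ν.a := by
  rcases h.2.1 with h1 | h1
  · exact h1.le
  · exact (P_lt hP h1.1).le

theorem chd_P {ν ν' : Nod P} (h : Chd P ν ν') {n : ℕ} (hn : ν.m + 1 ≤ n) (l : Om1) :
    l ∈ P ν'.a n ↔ l ∈ P ν.a n ∧ l < ν'.a := by
  rcases h.2.1 with h1 | h1
  · rw [h1]
    exact ⟨fun h2 => ⟨h2, P_lt hP h2⟩, fun h2 => h2.1⟩
  · exact P_cut hP (P_mono hP hn h1.1) l

theorem chd_lt {ν ν' : Nod P} (h : Chd P ν ν') : ∀ j ∈ P ν.a ν.m, j < ν'.a := by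
  rcases h.2.1 with h1 | h1
  · rw [h1]; exact fun j hj => P_lt hP hj
  · exact h1.2

theorem chd_rho {ν ν' : Nod P} (h : Chd P ν ν') {j : Om1} (hj : j < ν'.a)
    (hj' : j ∉ P ν'.a (ν.m + 1)) : rho P j ν'.a = rho P j ν.a := by
  refine rho_eq hP (M := ν.m + 1) (fun n hn => ?_) hj' hj (hj.trans_le (chd_le hP h))
  rw [chd_P hP h hn j]
  exact ⟨fun h1 => h1.1, fun h1 => ⟨h1, hj⟩⟩

theorem mem_up_P {x : Pnt P} {ν ν' : Nod P} (h : Chd P ν ν') (hx : Mem P x ν') : Mem P x ν := by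
  have hsub : ∀ j ∈ P ν.a ν.m, j ∈ P ν'.a ν'.m := by
    intro j hj
    rw [h.1, chd_P hP h le_rfl]
    exact ⟨P_mono hP (Nat.le_succ _) hj, chd_lt hP h j hj⟩
  refine ⟨hx.1.trans (chd_le hP h), fun j hj => hx.2.1 j (hsub j hj), ?_, ?_⟩
  · intro j hj k hk
    rw [hx.2.2.1 j (hsub j hj) k (by rw [h.1]; omega)]
    exact h.2.2.1 j hj k hk
  · intro j hj hjP
    have hja : j < ν'.a := hj.trans_le hx.1
    by_cases h1 : j ∈ P ν'.a (ν.m + 1)
    · have h2 := (chd_P hP h le_rfl j).1 h1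
      have h3 : rho P j ν.a = ν.m + 1 := by
        have h4 := rho_gt hP (hja.trans_le (chd_le hP h)) hjP
        have h5 := rho_le h2.1
        omega
      rw [h3]
      have h6 := h.2.2.2 j h1 hjP
      rw [← h.1] at h1 h6 ⊢
      exact (hx.2.2.1 j h1 _ le_rfl).2 h6
    · rw [← chd_rho hP h hja h1]
      exact hx.2.2.2 j hj (by rw [h.1]; exact h1)

omit hP in
/-- The node cut out by a point. -/
theorem exists_nod (x : Pnt P) (a : Om1) (m : ℕ) (h : ∀ j ∈ P a m, j < x.b ∧ ∃ k ≤ m, k ∈ x.y j) :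
    ∃ ν : Nod P, ν.a = a ∧ ν.m = m ∧ ∀ j k, (j, k) ∈ ν.s ↔ j ∈ P a m ∧ k ≤ m ∧ k ∈ x.y j := by
  classical
  have hs : ∀ j k, (j, k) ∈ ((P a m) ×ˢ (Finset.range (m + 1))).filter (fun c => c.2 ∈ x.y c.1) ↔
      j ∈ P a m ∧ k ≤ m ∧ k ∈ x.y j := by
    intro j k
    rw [Finset.mem_filter, Finset.mem_product, Finset.mem_range]
    simp only
    constructor
    · rintro ⟨⟨h1, h2⟩, h3⟩; exact ⟨h1, by omega, h3⟩
    · rintro ⟨h1, h2, h3⟩; exact ⟨⟨h1, by omega⟩, h3⟩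
  refine ⟨⟨a, m, ((P a m) ×ˢ (Finset.range (m + 1))).filter (fun c => c.2 ∈ x.y c.1), ?_, ?_⟩,
    rfl, rfl, hs⟩
  · intro j k hjk
    exact ⟨((hs j k).1 hjk).1, ((hs j k).1 hjk).2.1⟩
  · intro j hj
    obtain ⟨h1, k, hk, hky⟩ := h j hj
    refine pair_sub (x.y_pair j h1) ?_ ⟨k, (hs j k).2 ⟨hj, hk, hky⟩⟩
    intro l hl
    exact ((hs j l).1 hl).2.2

theorem mem_down_P {x : Pnt P} {ν : Nod P} (hx : Mem P x ν) : ∃ ν', Chd P ν ν' ∧ Mem P x ν' := by
  obtain ⟨a', ⟨ha1, ha2⟩, hmin⟩ := exists_least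
    (S := {i | x.b ≤ i ∧ (i = ν.a ∨ i ∈ P ν.a (ν.m + 1))}) ⟨ν.a, hx.1, Or.inl rfl⟩
  have hlt : ∀ j ∈ P ν.a (ν.m + 1), j < a' → j < x.b := by
    intro j hj hja
    by_contra hcon
    exact absurd (hmin j ⟨not_lt.1 hcon, Or.inr hj⟩) (not_le.2 hja)
  have ha'le : a' ≤ ν.a := by
    rcases ha2 with h | h
    · exact h.le
    · exact (P_lt hP h).le
  have hcut : ∀ n, ν.m + 1 ≤ n → ∀ l, l ∈ P a' n ↔ l ∈ P ν.a n ∧ l < a' := by
    intro n hn l
    rcases ha2 with h | h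
    · rw [h]; exact ⟨fun h2 => ⟨h2, P_lt hP h2⟩, fun h2 => h2.1⟩
    · exact P_cut hP (P_mono hP hn h) l
  have hmlt : ∀ j ∈ P ν.a ν.m, j < a' := fun j hj => (hx.2.1 j hj).trans_le ha1
  obtain ⟨ν', e1, e2, e3⟩ := exists_nod x a' (ν.m + 1) (by
    intro j hj
    obtain ⟨h1, h2⟩ := (hcut _ le_rfl j).1 hj
    refine ⟨hlt j h1 h2, ?_⟩
    by_cases h3 : j ∈ P ν.a ν.m
    · obtain ⟨k, hk⟩ := (ν.s_pair j h3).nonempty
      have h4 := (ν.s_sub j k hk).2
      exact ⟨k, h4.trans (Nat.le_succ _), (hx.2.2.1 j h3 k h4).2 hk⟩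
    · exact ⟨rho P j ν.a, rho_le h1, hx.2.2.2 j (hlt j h1 h2) h3⟩)
  have hC : Chd P ν ν' := by
    refine ⟨e2, ?_, ?_, ?_⟩
    · rcases ha2 with h | h
      · left; rw [e1, h]
      · right; rw [e1]; exact ⟨h, hmlt⟩
    · intro j hj k hk
      rw [e3, ← hx.2.2.1 j hj k hk]
      constructor
      · intro h; exact h.2.2
      · intro h
        exact ⟨(hcut _ le_rfl j).2 ⟨P_mono hP (Nat.le_succ _) hj, hmlt j hj⟩,
          hk.trans (Nat.le_succ _), h⟩
    · intro j hj hjP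
      rw [e1] at hj
      obtain ⟨h1, h2⟩ := (hcut _ le_rfl j).1 hj
      rw [e3]
      refine ⟨hj, le_rfl, ?_⟩
      have h3 := hx.2.2.2 j (hlt j h1 h2) hjP
      have h4 : rho P j ν.a = ν.m + 1 := by
        have h4 := rho_gt hP (h2.trans_le ha'le) hjP
        have h5 := rho_le h1
        omega
      rw [h4] at h3; exact h3
  refine ⟨ν', hC, ?_, ?_, ?_, ?_⟩
  · rw [e1]; exact ha1
  · intro j hj
    rw [e1, e2] at hj
    obtain ⟨h1, h2⟩ := (hcut _ le_rfl j).1 hj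
    exact hlt j h1 h2
  · intro j hj k hk
    rw [e3]
    rw [e1, e2] at hj
    rw [e2] at hk
    exact ⟨fun h => ⟨hj, hk, h⟩, fun h => h.2.2⟩
  · intro j hj hjP
    rw [e2] at hjP
    have h1 : j < ν'.a := hj.trans_le (by rw [e1]; exact ha1)
    rw [chd_rho hP hC h1 hjP]
    apply hx.2.2.2 j hj
    intro h2
    apply hjP
    rw [chd_P hP hC le_rfl]
    exact ⟨P_mono hP (Nat.le_succ _) h2, h1⟩

theorem disjX_P {x : Pnt P} {ν κ μ : Nod P} (h1 : Chd P ν κ) (h2 : Chd P ν μ) (hκ : Mem P x κ)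
    (hμ : Mem P x μ) : κ = μ := by
  have key : ∀ κ μ : Nod P, Chd P ν κ → Chd P ν μ → Mem P x κ → Mem P x μ → ¬ κ.a < μ.a := by
    intro κ μ h1 h2 hκ hμ hlt
    have h3 : κ.a ∈ P ν.a (ν.m + 1) := by
      rcases h1.2.1 with h | h
      · exfalso
        rw [h] at hlt
        exact absurd (chd_le hP h2) (not_le.2 hlt)
      · exact h.1
    have h4 : κ.a ∈ P μ.a μ.m := by
      rw [h2.1, chd_P hP h2 le_rfl]
      exact ⟨h3, hlt⟩
    exact absurd (hμ.2.1 _ h4) (not_lt.2 hκ.1)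
  have ha : κ.a = μ.a := le_antisymm (not_lt.1 (key μ κ h2 h1 hμ hκ)) (not_lt.1 (key κ μ h1 h2 hκ hμ))
  exact nod_ext hκ hμ ha (h1.1.trans h2.1.symm)

theorem nonempty_P (ν : Nod P) : ∃ x : Pnt P, Mem P x ν := by
  classical
  let y : Om1 → Set ℕ := fun j => if j ∈ P ν.a ν.m then {k | (j, k) ∈ ν.s} else
    (if j < ν.a then {rho P j ν.a} else ∅)
  have y1 : ∀ j ∈ P ν.a ν.m, y j = {k | (j, k) ∈ ν.s} := fun j hj => if_pos hj
  have y2 : ∀ j ∉ P ν.a ν.m, j < ν.a → y j = {rho P j ν.a} := fun j hj hl => by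
    simp only [y]; rw [if_neg hj, if_pos hl]
  have y3 : ∀ j, ν.a ≤ j → y j = ∅ := fun j hl => by
    have hj : j ∉ P ν.a ν.m := fun h => absurd (P_lt hP h) (not_lt.2 hl)
    simp only [y]; rw [if_neg hj, if_neg (not_lt.2 hl)]
  refine ⟨⟨ν.a, y, y3, ?_, ν.m, ?_⟩, le_rfl, fun j hj => P_lt hP hj, ?_, ?_⟩
  · intro j hj
    by_cases h : j ∈ P ν.a ν.m
    · rw [y1 j h]; exact ν.s_pair j h
    · rw [y2 j h hj]; exact ⟨rho P j ν.a, rho P j ν.a, by simp⟩
  · intro j hj h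
    rw [y2 j h hj]; rfl
  · intro j hj k _
    simp only
    rw [y1 j hj]; rfl
  · intro j hj h
    simp only
    rw [y2 j h hj]; rfl

theorem mem_up_P' {x : Pnt P} {ν κ : Nod P} (h : ReflTransGen (Chd P) ν κ) (hx : Mem P x κ) :
    Mem P x ν := by
  induction h with
  | refl => exact hx
  | tail _ h2 ih => exact ih (mem_up_P hP h2 hx)

/-- Every point has a canonical node at every late stage. -/
theorem can_down {x : Pnt P} {ν : Nod P} (hx : Mem P x ν) (ha : ν.a = x.b) (n : ℕ) :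
    ∃ κ, ReflTransGen (Chd P) ν κ ∧ Mem P x κ ∧ κ.a = x.b ∧ κ.m = ν.m + n := by
  induction n with
  | zero => exact ⟨ν, ReflTransGen.refl, hx, ha, rfl⟩
  | succ n ih =>
    obtain ⟨κ, h1, h2, h3, h4⟩ := ih
    obtain ⟨κ', h5, h6⟩ := mem_down_P hP h2
    refine ⟨κ', h1.tail h5, h6, ?_, ?_⟩
    · apply le_antisymm
      · rw [← h3]; exact chd_le hP h5
      · exact h6.1
    · rw [h5.1, h4]; ring

theorem down_can {x : Pnt P} : ∀ (a : Om1) (ν : Nod P), ν.a = a → Mem P x ν →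
    ∃ κ, ReflTransGen (Chd P) ν κ ∧ Mem P x κ ∧ κ.a = x.b := by
  intro a
  induction a using WellFoundedLT.induction with
  | ind a ih =>
    have inner : ∀ (d : ℕ) (ν : Nod P), ν.a = a → Mem P x ν → rho P x.b a ≤ ν.m + d →
        ∃ κ, ReflTransGen (Chd P) ν κ ∧ Mem P x κ ∧ κ.a = x.b := by
      intro d
      induction d with
      | zero =>
        intro ν hν hx hd
        rcases hx.1.lt_or_eq with h | h
        · exfalso
          rw [hν] at h
          have h1 := mem_of_rho_le hP h hd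
          rw [← hν] at h1
          exact lt_irrefl _ (hx.2.1 _ h1)
        · exact ⟨ν, ReflTransGen.refl, hx, h.symm⟩
      | succ d ihd =>
        intro ν hν hx hd
        obtain ⟨ν', h1, h2⟩ := mem_down_P hP hx
        rcases (chd_le hP h1).lt_or_eq with h | h
        · obtain ⟨κ, h3, h4, h5⟩ := ih ν'.a (by rw [← hν]; exact h) ν' rfl h2
          exact ⟨κ, ReflTransGen.head h1 h3, h4, h5⟩
        · obtain ⟨κ, h3, h4, h5⟩ := ihd ν' (h.trans hν) h2 (by rw [h1.1]; omega)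
          exact ⟨κ, ReflTransGen.head h1 h3, h4, h5⟩
    intro ν hν hx
    exact inner (rho P x.b a) ν hν hx (by omega)

/-- Canonical descendants at all late stages. -/
theorem exists_can {x : Pnt P} {ν : Nod P} (hx : Mem P x ν) :
    ∃ M, ∀ m, M ≤ m → ∃ κ, ReflTransGen (Chd P) ν κ ∧ Mem P x κ ∧ κ.a = x.b ∧ κ.m = m := by
  obtain ⟨κ, h1, h2, h3⟩ := down_can hP ν.a ν rfl hx
  refine ⟨κ.m, fun m hm => ?_⟩
  obtain ⟨κ', h4, h5, h6, h7⟩ := can_down hP h2 h3 (m - κ.m)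
  exact ⟨κ', h1.trans h4, h5, h6, by rw [h7]; omega⟩

theorem merge_P {x : Pnt P} {ν μ : Nod P} (h1 : Mem P x ν) (h2 : Mem P x μ) :
    ∃ κ, ReflTransGen (Chd P) ν κ ∧ ReflTransGen (Chd P) μ κ ∧ Mem P x κ := by
  obtain ⟨M1, hM1⟩ := exists_can hP h1
  obtain ⟨M2, hM2⟩ := exists_can hP h2
  obtain ⟨κ, a1, a2, a3, a4⟩ := hM1 (max M1 M2) (le_max_left _ _)
  obtain ⟨κ', b1, b2, b3, b4⟩ := hM2 (max M1 M2) (le_max_right _ _)
  have : κ = κ' := nod_ext a2 b2 (a3.trans b3.symm) (a4.trans b4.symm)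
  subst this
  exact ⟨κ, a1, b1, a2⟩

theorem sep_P {x : Pnt P} {ν μ : Nod P} (h1 : Mem P x ν) (h2 : ¬ Mem P x μ) :
    ∃ κ, ReflTransGen (Chd P) ν κ ∧ Mem P x κ ∧
      ∀ τ, ReflTransGen (Chd P) κ τ → ReflTransGen (Chd P) μ τ → False := by
  by_contra hcon
  push Not at hcon
  apply h2
  obtain ⟨M, hM⟩ := exists_can hP h1
  have key : ∀ n, ∃ κ z, n ≤ κ.m ∧ κ.a = x.b ∧ Mem P x κ ∧ Mem P z κ ∧ Mem P z μ := by
    intro n
    obtain ⟨κ, a1, a2, a3, a4⟩ := hM (max M n) (le_max_left _ _)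
    obtain ⟨τ, a5, a6, _⟩ := hcon κ a1 a2
    obtain ⟨z, hz⟩ := nonempty_P hP τ
    exact ⟨κ, z, by rw [a4]; exact le_max_right _ _, a3, a2, mem_up_P' hP a5 hz,
      mem_up_P' hP a6 hz⟩
  have hlt : ∀ j ∈ P μ.a μ.m, j < x.b := by
    intro j hj
    obtain ⟨κ, z, _, b2, _, b4, b5⟩ := key 0
    rw [← b2]
    exact (b5.2.1 j hj).trans_le b4.1
  refine ⟨?_, hlt, ?_, ?_⟩
  · by_contra h
    have h := not_le.1 h
    obtain ⟨κ, z, b1, b2, b3, b4, b5⟩ := key (rho P μ.a x.b)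
    have h3 : μ.a ∈ P κ.a κ.m := by rw [b2]; exact mem_of_rho_le hP h b1
    exact absurd (b4.2.1 _ h3) (not_lt.2 b5.1)
  · intro j hj k hk
    obtain ⟨κ, z, b1, b2, b3, b4, b5⟩ := key (max k (rho P j x.b))
    have h3 : j ∈ P κ.a κ.m := by
      rw [b2]; exact mem_of_rho_le hP (hlt j hj) ((le_max_right _ _).trans b1)
    rw [b3.2.2.1 j h3 k ((le_max_left _ _).trans b1), ← b4.2.2.1 j h3 k ((le_max_left _ _).trans b1)]
    exact b5.2.2.1 j hj k hk
  · intro j hj hjP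
    obtain ⟨κ, z, b1, b2, b3, b4, b5⟩ := key (max (rho P j μ.a) (rho P j x.b))
    have h3 : j ∈ P κ.a κ.m := by
      rw [b2]; exact mem_of_rho_le hP hj ((le_max_right _ _).trans b1)
    rw [b3.2.2.1 j h3 _ ((le_max_left _ _).trans b1), ← b4.2.2.1 j h3 _ ((le_max_left _ _).trans b1)]
    exact b5.2.2.2 j (b4.2.1 j h3) hjP

omit hP in
theorem pnt_ext {x x' : Pnt P} (h1 : x.b = x'.b) (h2 : ∀ j, x.y j = x'.y j) : x = x' := by
  obtain ⟨b, y, _, _, _⟩ := x
  obtain ⟨b', y', _, _, _⟩ := x'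
  simp only at h1 h2
  have : y = y' := funext h2
  subst h1 this
  rfl

theorem bdd_P {x x' : Pnt P} (hne : x ≠ x') : ∃ n, ∀ ν : Nod P, Mem P x ν → Mem P x' ν → ν.m ≤ n := by
  -- a common coordinate
  have key1 : ∀ x x' : Pnt P, ∀ j, j < x.b → j < x'.b → x.y j ≠ x'.y j →
      ∃ n, ∀ ν : Nod P, Mem P x ν → Mem P x' ν → ν.m ≤ n := by
    intro x x' j h1 h2 h3
    obtain ⟨n, hn⟩ := (x.y_pair j h1).bdd
    obtain ⟨n', hn'⟩ := (x'.y_pair j h2).bdd
    refine ⟨max n n', fun ν hx hx' => ?_⟩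
    by_contra hcon
    have hcon := not_le.1 hcon
    by_cases hj : j ∈ P ν.a ν.m
    · apply h3
      ext k
      constructor
      · intro hk
        have h4 : k ≤ ν.m := (hn k hk).trans ((le_max_left _ _).trans hcon.le)
        exact (hx'.2.2.1 j hj k h4).2 ((hx.2.2.1 j hj k h4).1 hk)
      · intro hk
        have h4 : k ≤ ν.m := (hn' k hk).trans ((le_max_right _ _).trans hcon.le)
        exact (hx.2.2.1 j hj k h4).2 ((hx'.2.2.1 j hj k h4).1 hk)
    · have h4 := hn _ (hx.2.2.2 j h1 hj)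
      have h5 := rho_gt hP (h1.trans_le hx.1) hj
      have := le_max_left n n'
      omega
  have key2 : ∀ x x' : Pnt P, x.b < x'.b →
      ∃ n, ∀ ν : Nod P, Mem P x ν → Mem P x' ν → ν.m ≤ n := by
    intro x x' h1
    obtain ⟨n, hn⟩ := (x'.y_pair x.b h1).bdd
    refine ⟨n, fun ν hx hx' => ?_⟩
    by_contra hcon
    have hcon := not_le.1 hcon
    by_cases hj : x.b ∈ P ν.a ν.m
    · exact lt_irrefl _ (hx.2.1 _ hj)
    · have h4 := hn _ (hx'.2.2.2 x.b h1 hj)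
      have h5 := rho_gt hP (h1.trans_le hx'.1) hj
      omega
  rcases lt_trichotomy x.b x'.b with h | h | h
  · exact key2 x x' h
  · by_cases h2 : ∃ j, j < x.b ∧ x.y j ≠ x'.y j
    · obtain ⟨j, h3, h4⟩ := h2
      exact key1 x x' j h3 (h ▸ h3) h4
    · exfalso
      push Not at h2
      apply hne
      refine pnt_ext h (fun j => ?_)
      rcases lt_or_ge j x.b with h3 | h3
      · exact h2 j h3
      · rw [x.y_out j h3, x'.y_out j (h ▸ h3)]
  · obtain ⟨n, hn⟩ := key2 x' x h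
    exact ⟨n, fun ν a b => hn ν b a⟩

theorem fin_P (ν : Nod P) : {ν' | Chd P ν ν'}.Finite := by
  classical
  refine Set.Finite.of_finite_image (f := fun ν' : Nod P => (ν'.a, ν'.s)) ?_ ?_
  · refine (((insert ν.a (P ν.a (ν.m + 1)) : Finset Om1) ×ˢ
      ((P ν.a (ν.m + 1)) ×ˢ (Finset.range (ν.m + 2))).powerset).finite_toSet).subset ?_
    rintro _ ⟨ν', h, rfl⟩
    rw [Finset.mem_coe, Finset.mem_product]
    refine ⟨?_, ?_⟩
    · rcases h.2.1 with h2 | h2
      · simp only; rw [h2]; exact Finset.mem_insert_self _ _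
      · exact Finset.mem_insert_of_mem h2.1
    · rw [Finset.mem_powerset]
      rintro ⟨j, k⟩ hjk
      obtain ⟨h3, h4⟩ := ν'.s_sub j k hjk
      rw [h.1] at h3 h4
      rw [Finset.mem_product, Finset.mem_range]
      exact ⟨((chd_P hP h le_rfl j).1 h3).1, by simp only; omega⟩
  · rintro ⟨a, m, s, s1, s2⟩ h2 ⟨a', m', s', s1', s2'⟩ h3 heq
    have e1 : a = a' := congrArg Prod.fst heq
    have e2 : s = s' := congrArg Prod.snd heq
    have e3 : m = m' := (show m = ν.m + 1 from h2.1).trans (show m' = ν.m + 1 from h3.1).symm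
    subst e1 e2 e3
    rfl

theorem limit_P (f : ℕ → Nod P) (hf : ∀ n, Chd P (f n) (f (n + 1))) :
    ∃ x : Pnt P, ∀ n, Mem P x (f n) := by
  have hanti : ∀ n, (f (n + 1)).a ≤ (f n).a := fun n => chd_le hP (hf n)
  have hant : ∀ m n, m ≤ n → (f n).a ≤ (f m).a := fun m n h =>
    antitone_nat_of_succ_le (f := fun n => (f n).a) hanti h
  have hm : ∀ n, (f n).m = (f 0).m + n := by
    intro n
    induction n with
    | zero => rfl
    | succ n ih => rw [(hf n).1, ih]; ring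
  obtain ⟨b, ⟨n0, hn0⟩, hmin⟩ := exists_least (S := Set.range (fun n => (f n).a)) ⟨_, 0, rfl⟩
  simp only at hn0
  have hb : ∀ n, n0 ≤ n → (f n).a = b := by
    intro n hn
    apply le_antisymm
    · rw [← hn0]; exact hant _ _ hn
    · exact hmin _ ⟨n, rfl⟩
  -- coherence
  have hcoh : ∀ n, n0 ≤ n → ∀ d, ∀ j ∈ P b (f n).m, ∀ k ≤ (f n).m,
      ((j, k) ∈ (f (n + d)).s ↔ (j, k) ∈ (f n).s) := by
    intro n hn d
    induction d with
    | zero => intro j _ k _; rfl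
    | succ d ih =>
      intro j hj k hk
      rw [← ih j hj k hk]
      refine (hf (n + d)).2.2.1 j ?_ k ?_
      · rw [hb (n + d) (by omega)]
        refine P_mono hP ?_ hj
        rw [hm, hm (n + d)]; omega
      · rw [hm] at hk ⊢; omega
  let y : Om1 → Set ℕ := fun j => {k | ∃ n, n0 ≤ n ∧ (j, k) ∈ (f n).s}
  have hy : ∀ n, n0 ≤ n → ∀ j ∈ P b (f n).m, ∀ k ≤ (f n).m, (k ∈ y j ↔ (j, k) ∈ (f n).s) := by
    intro n hn j hj k hk
    constructor
    · rintro ⟨n', hn', h⟩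
      rcases le_total n n' with h1 | h1
      · have h2 := hcoh n hn (n' - n) j hj k hk
        rw [Nat.add_sub_cancel' h1] at h2
        exact h2.1 h
      · obtain ⟨h3, h4⟩ := (f n').s_sub j k h
        rw [hb n' hn'] at h3
        have h2 := hcoh n' hn' (n - n') j h3 k h4
        rw [Nat.add_sub_cancel' h1] at h2
        exact h2.2 h
    · intro h; exact ⟨n, hn, h⟩
  have hrho : ∀ j < b, j ∉ P b (f n0).m → rho P j b ∈ y j := by
    intro j hj hjP
    have h1 := rho_gt hP hj hjP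
    rw [hm] at h1
    -- the stage at which `j` appears
    set n := rho P j b - 1 - (f 0).m with hn
    have h2 : n0 ≤ n := by omega
    have h3 : (f n).m + 1 = rho P j b := by rw [hm]; omega
    have h4 : j ∉ P b (f n).m := by
      intro h
      have := rho_le h
      omega
    have h5 := (hf n).2.2.2 j (by
      rw [hb (n + 1) (by omega), h3]; exact rho_mem hP hj) (by rw [hb n h2]; exact h4)
    rw [h3] at h5
    exact ⟨n + 1, by omega, h5⟩
  have hpair : ∀ j < b, IsPair (y j) := by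
    intro j hj
    -- a stage after which `j` is present
    let N := n0 + rho P j b
    have hN : ∀ d, j ∈ P b (f (N + d)).m := by
      intro d
      refine mem_of_rho_le hP hj ?_
      rw [hm]
      simp only [N]
      omega
    have h1 : y j = ⋃ d, {k | (j, k) ∈ (f (N + d)).s} := by
      ext k
      constructor
      · rintro ⟨n, hn, h⟩
        rw [Set.mem_iUnion]
        refine ⟨n, ?_⟩
        obtain ⟨h3, h4⟩ := (f n).s_sub j k h
        rw [hb n hn] at h3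
        have h2 := hcoh n hn N j h3 k h4
        rw [show N + n = n + N by ring]
        exact h2.2 h
      · intro h
        obtain ⟨d, hd⟩ := Set.mem_iUnion.1 h
        exact ⟨N + d, by simp only [N]; omega, hd⟩
    rw [h1]
    apply pair_union
    · intro d
      apply (f (N + d)).s_pair j
      rw [hb (N + d) (by simp only [N]; omega)]
      exact hN d
    · intro d e hde k hk
      have h3 : (j, k) ∈ (f (N + d)).s := hk
      have h2 := hcoh (N + d) (by simp only [N]; omega) (e - d) j (hN d) k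
        ((f (N + d)).s_sub j k h3).2
      rw [show N + d + (e - d) = N + e by omega] at h2
      exact h2.2 h3
  have hout : ∀ j, b ≤ j → y j = ∅ := by
    intro j hj
    rw [Set.eq_empty_iff_forall_notMem]
    rintro k ⟨n, hn, h⟩
    obtain ⟨h3, _⟩ := (f n).s_sub j k h
    rw [hb n hn] at h3
    exact absurd (P_lt hP h3) (not_lt.2 hj)
  let x : Pnt P := ⟨b, y, hout, hpair, (f n0).m, hrho⟩
  have hx : ∀ n, n0 ≤ n → Mem P x (f n) := by
    intro n hn
    refine ⟨(hb n hn).ge, ?_, ?_, ?_⟩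
    · intro j hj
      have := P_lt hP hj
      rw [hb n hn] at this
      exact this
    · intro j hj k hk
      rw [hb n hn] at hj
      exact hy n hn j hj k hk
    · intro j hj hjP
      rw [hb n hn] at hjP ⊢
      refine hrho j hj (fun h => hjP (P_mono hP ?_ h))
      rw [hm, hm n]; omega
  refine ⟨x, fun n => ?_⟩
  rcases le_total n0 n with h | h
  · exact hx n h
  · refine mem_up_P' hP ?_ (hx n0 le_rfl)
    have : ∀ d, ReflTransGen (Chd P) (f n) (f (n + d)) := by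
      intro d
      induction d with
      | zero => exact ReflTransGen.refl
      | succ d ih => exact ih.tail (hf (n + d))
    have h2 := this (n0 - n)
    rw [Nat.add_sub_cancel' h] at h2
    exact h2

theorem mem_ex_P (x : Pnt P) : ∃ M, ∀ m, M ≤ m → ∃ ν : Nod P, Mem P x ν ∧ ν.a = x.b ∧ ν.m = m := by
  obtain ⟨m0, hm0⟩ := x.y_fin
  have h1 : ∀ j ∈ P x.b m0, ∃ k, k ∈ x.y j := fun j hj => (x.y_pair j (P_lt hP hj)).nonempty
  have h2 : ∃ M, m0 ≤ M ∧ ∀ j ∈ P x.b m0, ∃ k ≤ M, k ∈ x.y j := by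
    classical
    have : ∀ F : Finset Om1, (∀ j ∈ F, ∃ k, k ∈ x.y j) →
        ∃ M, m0 ≤ M ∧ ∀ j ∈ F, ∃ k ≤ M, k ∈ x.y j := by
      intro F
      induction F using Finset.induction_on with
      | empty => intro _; exact ⟨m0, le_rfl, fun j hj => absurd hj (Finset.notMem_empty _)⟩
      | insert j F _ ih =>
        intro h
        obtain ⟨M, hM1, hM2⟩ := ih (fun j hj => h j (Finset.mem_insert_of_mem hj))
        obtain ⟨k, hk⟩ := h j (Finset.mem_insert_self _ _)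
        refine ⟨max M k, hM1.trans (le_max_left _ _), ?_⟩
        intro l hl
        rcases Finset.mem_insert.1 hl with h1 | h1
        · exact ⟨k, le_max_right _ _, h1 ▸ hk⟩
        · obtain ⟨k', h2, h3⟩ := hM2 l h1
          exact ⟨k', h2.trans (le_max_left _ _), h3⟩
    exact this _ h1
  obtain ⟨M, hM1, hM2⟩ := h2
  refine ⟨M, fun m hm => ?_⟩
  obtain ⟨ν, e1, e2, e3⟩ := exists_nod x x.b m (by
    intro j hj
    refine ⟨P_lt hP hj, ?_⟩
    by_cases h : j ∈ P x.b m0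
    · obtain ⟨k, h3, h4⟩ := hM2 j h
      exact ⟨k, h3.trans hm, h4⟩
    · exact ⟨_, rho_le hj, hm0 j (P_lt hP hj) h⟩)
  refine ⟨ν, ⟨e1.ge, ?_, ?_, ?_⟩, e1, e2⟩
  · intro j hj
    have := P_lt hP hj
    rw [e1] at this
    exact this
  · intro j hj k hk
    rw [e1, e2] at hj
    rw [e2] at hk
    rw [e3]
    exact ⟨fun h => ⟨hj, hk, h⟩, fun h => h.2.2⟩
  · intro j hj hjP
    rw [e1, e2] at hjP
    rw [e1]
    exact hm0 j hj (fun h => hjP (P_mono hP (hM1.trans hm) h))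

end sys

/-- The system. -/
def sysP (P : Om1 → ℕ → Finset Om1) (hP : ∀ i, LadAt P i (P i)) : Sys where
  N := Nod P
  X := Pnt P
  C := Chd P
  g := fun ν => ν.m
  mem := Mem P
  C_fin := fin_P hP
  C_g := fun ν ν' h => by rw [h.1]; exact Nat.lt_succ_self _
  mem_up := fun _ _ _ h1 h2 => mem_up_P hP h1 h2
  mem_down := fun _ _ h => mem_down_P hP h
  mem_ex := fun x => by
    obtain ⟨M, hM⟩ := mem_ex_P hP x
    obtain ⟨ν, h, _⟩ := hM M le_rfl
    exact ⟨ν, h⟩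
  disj := fun ν a b h1 h2 hne κ h3 h4 => by
    obtain ⟨x, hx⟩ := nonempty_P hP κ
    exact hne (disjX_P hP h1 h2 (mem_up_P' hP h3 hx) (mem_up_P' hP h4 hx))
  disjX := fun _ _ _ _ h1 h2 h3 h4 => disjX_P hP h1 h2 h3 h4
  limit := fun f hf => limit_P hP f hf
  merge := fun _ _ _ h1 h2 => merge_P hP h1 h2
  sep := fun _ _ _ h1 h2 => sep_P hP h1 h2
  bdd := fun _ _ h => bdd_P hP h

end Pool.Agent.Helper185.Man
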