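import Pool.Agent.Helper185.Man4
import Pool.Agent.Helper185.Man6
import Pool.Agent.Helper185.Fat3

/-!
# Making the system connected, and the failure of quasi-developability
-/

namespace Pool.Agent.Helper185.Man

open Set Topology Relation
open Pool.Agent.Helper185.Fat (Om1 om1_Iio om1_mk om1_nonempty exists_gt exists_least exists_rec
  pressing om1_Iic exists_bound countable_finsets starOf QuasiDevelopable)

/-- Nodes with bridges. -/
inductive EN (N : Type) : Type
  | base (ν : N) : EN N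
  | br (ν : N) : EN N
  | o : EN N

/-- The child relation with bridges. -/
inductive EC {N : Type} (C : N → N → Prop) : EN N → EN N → Prop
  | base {ν ν' : N} (h : C ν ν') : EC C (EN.base ν) (EN.base ν')
  | br (ν : N) : EC C (EN.br ν) (EN.base ν)
  | o (ν : N) : EC C (EN.br ν) EN.o

/-- The grade with bridges. -/
def eg {N : Type} (g : N → ℕ) : EN N → ℕ
  | EN.base ν => g ν + 1
  | EN.br _ => 0
  | EN.o => 1

/-- Membership with bridges. -/
def em {N X : Type} (mem : X → N → Prop) (x : X) : EN N → Prop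
  | EN.base ν => mem x ν
  | EN.br ν => mem x ν
  | EN.o => False

theorem reach_base {N : Type} {C : N → N → Prop} {ν : N} {κ : EN N}
    (h : ReflTransGen (EC C) (EN.base ν) κ) : ∃ κ', κ = EN.base κ' ∧ ReflTransGen C ν κ' := by
  induction h with
  | refl => exact ⟨ν, rfl, ReflTransGen.refl⟩
  | tail _ h2 ih =>
    obtain ⟨κ', rfl, h3⟩ := ih
    cases h2 with
    | base h => exact ⟨_, rfl, h3.tail h⟩

theorem base_reach {N : Type} {C : N → N → Prop} {ν κ : N} (h : ReflTransGen C ν κ) :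
    ReflTransGen (EC C) (EN.base ν) (EN.base κ) := by
  induction h with
  | refl => exact ReflTransGen.refl
  | tail _ h2 ih => exact ih.tail (EC.base h2)

theorem reach_o {N : Type} {C : N → N → Prop} {κ : EN N}
    (h : ReflTransGen (EC C) EN.o κ) : κ = EN.o := by
  rcases h.cases_head with h | ⟨d, h1, _⟩
  · exact h.symm
  · cases h1

theorem em_base {N X : Type} {mem : X → N → Prop} {C : N → N → Prop} {x : X} {ν : EN N}
    (h : em mem x ν) : ∃ ν', mem x ν' ∧ ReflTransGen (EC C) ν (EN.base ν') := by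
  cases ν with
  | base ν => exact ⟨ν, h, ReflTransGen.refl⟩
  | br ν => exact ⟨ν, h, ReflTransGen.single (EC.br ν)⟩
  | o => exact absurd h (fun h => h)

/-- The system with bridges. -/
def ext (S : Sys) : Sys where
  N := EN S.N
  X := S.X
  C := EC S.C
  g := eg S.g
  mem := em S.mem
  C_fin := by
    intro ν
    cases ν with
    | base ν =>
      refine ((S.C_fin ν).image EN.base).subset ?_
      rintro κ hκ
      cases hκ with
      | base h => exact ⟨_, h, rfl⟩
    | br ν =>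
      refine (Set.toFinite {EN.base ν, EN.o}).subset ?_
      rintro κ hκ
      cases hκ with
      | br => exact Or.inl rfl
      | o => exact Or.inr rfl
    | o =>
      refine Set.finite_empty.subset ?_
      rintro κ hκ
      cases hκ
  C_g := by
    intro ν ν' h
    cases h with
    | base h => exact Nat.succ_lt_succ (S.C_g _ _ h)
    | br => exact Nat.succ_pos _
    | o => exact Nat.one_pos
  mem_up := by
    intro x ν ν' h hx
    cases h with
    | base h => exact S.mem_up _ _ _ h hx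
    | br => exact hx
    | o => exact absurd hx (fun h => h)
  mem_down := by
    intro x ν hx
    cases ν with
    | base ν =>
      obtain ⟨ν', h1, h2⟩ := S.mem_down x ν hx
      exact ⟨EN.base ν', EC.base h1, h2⟩
    | br ν => exact ⟨EN.base ν, EC.br ν, hx⟩
    | o => exact absurd hx (fun h => h)
  mem_ex := by
    intro x
    obtain ⟨ν, hν⟩ := S.mem_ex x
    exact ⟨EN.base ν, hν⟩
  disj := by
    intro ν a b ha hb hne κ h1 h2
    cases ha with
    | base h =>
      cases hb with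
      | base h' =>
        obtain ⟨κ', e1, e2⟩ := reach_base h1
        obtain ⟨κ'', e3, e4⟩ := reach_base h2
        rw [e1] at e3
        cases e3
        exact S.disj _ _ _ h h' (fun h => hne (by rw [h])) _ e2 e4
    | br =>
      cases hb with
      | br => exact hne rfl
      | o =>
        obtain ⟨κ', e1, e2⟩ := reach_base h1
        have := reach_o h2
        rw [e1] at this
        cases this
    | o =>
      cases hb with
      | br =>
        obtain ⟨κ', e1, e2⟩ := reach_base h2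
        have := reach_o h1
        rw [e1] at this
        cases this
      | o => exact hne rfl
  disjX := by
    intro x ν a b ha hb h1 h2
    cases ha with
    | base h =>
      cases hb with
      | base h' => rw [S.disjX x _ _ _ h h' h1 h2]
    | br =>
      cases hb with
      | br => rfl
      | o => exact absurd h2 (fun h => h)
    | o => exact absurd h1 (fun h => h)
  limit := by
    intro f hf
    have h1 : ∀ n, ∃ ν, f (n + 1) = EN.base ν := by
      intro n
      have h2 := hf n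
      have h3 := hf (n + 1)
      generalize f (n + 1 + 1) = c at h3
      generalize f (n + 1) = b at h2 h3
      generalize f n = e at h2
      cases h3 with
      | base h => exact ⟨_, rfl⟩
      | br ν => cases h2
      | o ν => cases h2
    choose ν hν using h1
    have h4 : ∀ n, S.C (ν n) (ν (n + 1)) := by
      intro n
      have h5 := hf (n + 1)
      rw [hν n, hν (n + 1)] at h5
      cases h5 with
      | base h => exact h
    obtain ⟨x, hx⟩ := S.limit ν h4
    refine ⟨x, fun n => ?_⟩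
    cases n with
    | zero =>
      have h5 := hf 0
      rw [hν 0] at h5
      have h6 := hx 0
      generalize f 0 = b at h5
      cases h5 with
      | base h => exact S.mem_up _ _ _ h h6
      | br => exact h6
    | succ n => rw [hν n]; exact hx n
  merge := by
    intro x ν μ h1 h2
    obtain ⟨ν', a1, a2⟩ := em_base (C := S.C) h1
    obtain ⟨μ', b1, b2⟩ := em_base (C := S.C) h2
    obtain ⟨κ, c1, c2, c3⟩ := S.merge x ν' μ' a1 b1
    exact ⟨EN.base κ, a2.trans (base_reach c1), b2.trans (base_reach c2), c3⟩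
  sep := by
    intro x ν μ h1 h2
    obtain ⟨ν', a1, a2⟩ := em_base (C := S.C) h1
    cases μ with
    | base μ =>
      obtain ⟨κ, c1, c2, c3⟩ := S.sep x ν' μ a1 h2
      refine ⟨EN.base κ, a2.trans (base_reach c1), c2, ?_⟩
      intro τ h3 h4
      obtain ⟨τ', rfl, e2⟩ := reach_base h3
      obtain ⟨τ'', e3, e4⟩ := reach_base h4
      cases e3
      exact c3 _ e2 e4
    | br μ =>
      obtain ⟨κ, c1, c2, c3⟩ := S.sep x ν' μ a1 h2
      refine ⟨EN.base κ, a2.trans (base_reach c1), c2, ?_⟩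
      intro τ h3 h4
      obtain ⟨τ', rfl, e2⟩ := reach_base h3
      rcases h4.cases_head with h5 | ⟨d, h5, h6⟩
      · cases h5
      · cases h5 with
        | br =>
          obtain ⟨τ'', e3, e4⟩ := reach_base h6
          cases e3
          exact c3 _ e2 e4
        | o =>
          have := reach_o h6
          cases this
    | o =>
      refine ⟨EN.base ν', a2, a1, ?_⟩
      intro τ h3 h4
      obtain ⟨τ', rfl, e2⟩ := reach_base h3
      have := reach_o h4
      cases this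
  bdd := by
    intro x x' hne
    obtain ⟨n, hn⟩ := S.bdd x x' hne
    refine ⟨n + 1, fun ν h1 h2 => ?_⟩
    cases ν with
    | base ν => exact Nat.succ_le_succ (hn ν h1 h2)
    | br ν => exact Nat.zero_le _
    | o => exact absurd h1 (fun h => h)

theorem ext_conn (S : Sys) (ν μ : (ext S).N) : EqvGen (ext S).C ν μ := by
  have key : ∀ ν : EN S.N, EqvGen (EC S.C) ν EN.o := by
    intro ν
    cases ν with
    | base ν =>
      exact EqvGen.trans _ _ _ (EqvGen.symm _ _ (EqvGen.rel _ _ (EC.br ν)))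
        (EqvGen.rel _ _ (EC.o ν))
    | br ν => exact EqvGen.rel _ _ (EC.o ν)
    | o => exact EqvGen.refl _
  exact EqvGen.trans _ _ _ (key ν) (EqvGen.symm _ _ (key μ))

/-- A form of the Baire category theorem. -/
theorem exists_dense' (Q : ℕ → Set (Om1 → ℕ)) (hQ : ∀ z, ∃ n, z ∈ Q n) :
    ∃ (n : ℕ) (F : Finset Om1) (z : Om1 → ℕ),
      ∀ z' : Om1 → ℕ, (∀ j ∈ F, z' j = z j) → ∀ F' : Finset Om1,
        ∃ w ∈ Q n, ∀ j ∈ F', w j = z' j := by
  classical
  by_contra hcon
  push Not at hcon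
  let St : Type := Finset Om1 × (Om1 → ℕ)
  have hstep : ∀ (n : ℕ) (s : St), ∃ t : St, s.1 ⊆ t.1 ∧ (∀ j ∈ s.1, t.2 j = s.2 j) ∧
      ∀ w ∈ Q n, ∃ j ∈ t.1, w j ≠ t.2 j := by
    rintro n ⟨F, z⟩
    obtain ⟨z', hag, F', hF'⟩ := hcon n F z
    refine ⟨(F ∪ F', z'), Finset.subset_union_left, hag, fun w hw => ?_⟩
    obtain ⟨j, hj, hne⟩ := hF' w hw
    exact ⟨j, Finset.mem_union_right _ hj, hne⟩
  choose stp hs1 hs2 hs3 using hstep
  let sq : ℕ → St := fun n => Nat.rec (motive := fun _ => St) (∅, fun _ => 0)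
    (fun k s => stp k s) n
  have hsq : ∀ n, sq (n + 1) = stp n (sq n) := fun n => rfl
  have hmono : ∀ m n, m ≤ n → (sq m).1 ⊆ (sq n).1 ∧ ∀ j ∈ (sq m).1, (sq n).2 j = (sq m).2 j := by
    intro m n hmn
    induction n, hmn using Nat.le_induction with
    | base => exact ⟨Finset.Subset.refl _, fun j _ => rfl⟩
    | succ n _ ih =>
      rw [hsq]
      refine ⟨ih.1.trans (hs1 n (sq n)), fun j hj => ?_⟩
      rw [hs2 n (sq n) j (ih.1 hj)]
      exact ih.2 j hj
  let z : Om1 → ℕ := fun j => if h : ∃ n, j ∈ (sq n).1 then (sq (Nat.find h)).2 j else 0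
  have hzn : ∀ n, ∀ j ∈ (sq n).1, z j = (sq n).2 j := by
    intro n j hj
    have h : ∃ n, j ∈ (sq n).1 := ⟨n, hj⟩
    have h1 : z j = (sq (Nat.find h)).2 j := dif_pos h
    rw [h1]
    exact ((hmono _ _ (Nat.find_min' h hj)).2 j (Nat.find_spec h)).symm
  obtain ⟨n, hn⟩ := hQ z
  obtain ⟨j, hj, hne⟩ := hs3 n (sq n) z hn
  rw [← hsq] at hj hne
  exact hne (hzn (n + 1) j hj)

section nq

variable {P : Om1 → ℕ → Finset Om1} (hP : ∀ i, LadAt P i (P i))

/-- The good points at the level `a`. -/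
noncomputable def xf (P : Om1 → ℕ → Finset Om1) (a : Om1) (f : Om1 → ℕ) : Pnt P where
  b := a
  y := fun j => {k | j < a ∧ (k = rho P j a ∨ k = f j)}
  y_out := by
    intro j hj
    ext k
    simp only [Set.mem_ofPred_eq, Set.mem_empty_iff_false, iff_false, not_and]
    intro h
    exact absurd h (not_lt.2 hj)
  y_pair := by
    intro j hj
    refine ⟨rho P j a, f j, ?_⟩
    ext k
    simp only [Set.mem_ofPred_eq, Set.mem_insert_iff, Set.mem_singleton_iff]
    exact ⟨fun h => h.2, fun h => ⟨hj, h⟩⟩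
  y_fin := ⟨0, fun j hj _ => ⟨hj, Or.inl rfl⟩⟩

theorem mem_xf {a : Om1} {f : Om1 → ℕ} {j : Om1} {k : ℕ} :
    k ∈ (xf P a f).y j ↔ j < a ∧ (k = rho P j a ∨ k = f j) := Iff.rfl

include hP

theorem not_qd (r : (ext (sysP P hP)).N → ℝ) :
    ¬ QuasiDevelopable (Mf (ext (sysP P hP)) r) := by
  classical
  rintro ⟨𝒢, h𝒢o, h𝒢⟩
  -- the part below a level
  let Mle : Om1 → Set (Mf (ext (sysP P hP)) r) := fun a =>
    ⋃ ν ∈ {ν : Nod P | ν.a ≤ a}, D (ext (sysP P hP)) r (EN.base ν)
  have hMo : ∀ a, IsOpen (Mle a) := fun a => isOpen_biUnion (fun ν _ => isOpen_D _)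
  have hMp : ∀ a (x : Pnt P), pt (S := ext (sysP P hP)) r x 0 ∈ Mle a ↔ x.b ≤ a := by
    intro a x
    constructor
    · intro h
      obtain ⟨ν, h1, h2⟩ := Set.mem_iUnion₂.1 h
      have h3 : Mem P x ν := (pt_mem_D (S := ext (sysP P hP)) (ν := EN.base ν)).1 h2
      exact h3.1.trans h1
    · intro h
      obtain ⟨M, hM⟩ := mem_ex_P hP x
      obtain ⟨ν, h1, h2, _⟩ := hM M le_rfl
      refine Set.mem_iUnion₂.2 ⟨ν, ?_, ?_⟩
      · show ν.a ≤ a
        rw [h2]; exact h
      · exact (pt_mem_D (S := ext (sysP P hP)) (ν := EN.base ν)).2 h1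
  -- the good functions
  let Q : Om1 → ℕ → Set (Om1 → ℕ) := fun a n =>
    {f | (∃ G ∈ 𝒢 n, pt (S := ext (sysP P hP)) r (xf P a f) 0 ∈ G) ∧
      ∀ G ∈ 𝒢 n, pt (S := ext (sysP P hP)) r (xf P a f) 0 ∈ G → G ⊆ Mle a}
  have hQ : ∀ a z, ∃ n, z ∈ Q a n := by
    intro a z
    obtain ⟨n, hn1, hn2⟩ := h𝒢 (pt (S := ext (sysP P hP)) r (xf P a z) 0) (Mle a) (hMo a)
      ((hMp a _).2 le_rfl)
    obtain ⟨G, ⟨hG1, hG2⟩, _⟩ := hn1
    refine ⟨n, ⟨G, hG1, hG2⟩, fun G' hG'1 hG'2 => ?_⟩
    intro p hp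
    exact hn2 ⟨G', ⟨hG'1, hG'2⟩, hp⟩
  -- the data at a level
  let Φ : Om1 → ℕ → ℕ → (Om1 → ℕ) → Prop := fun a n m w =>
    (∀ z' : Om1 → ℕ, (∀ j ∈ P a m, z' j = w j) → ∀ F' : Finset Om1, (∀ j ∈ F', j < a) →
      ∃ w' ∈ Q a n, ∀ j ∈ F', w' j = z' j) ∧
    ∃ G ∈ 𝒢 n, pt (S := ext (sysP P hP)) r (xf P a w) 0 ∈ G ∧
      ∃ κ : Nod P, κ.a = a ∧ κ.m = m ∧ Mem P (xf P a w) κ ∧
        ∀ x' : Pnt P, Mem P x' κ → pt (S := ext (sysP P hP)) r x' 0 ∈ G
  have key : ∀ a, ∃ n m w, Φ a n m w := by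
    intro a
    obtain ⟨n, F, z, hz⟩ := exists_dense' (Q a) (hQ a)
    obtain ⟨w, hwQ, hwz⟩ := hz z (fun _ _ => rfl) F
    obtain ⟨⟨G, hG, hwG⟩, hw2⟩ := hwQ
    obtain ⟨M0, hM0⟩ := mem_ex_P hP (xf P a w)
    obtain ⟨ν, hν, hνa, _⟩ := hM0 M0 le_rfl
    obtain ⟨κ, h1, h2, h3⟩ := pt_nhds (S := ext (sysP P hP)) (r := r) (ν := EN.base ν)
      (h𝒢o n G hG) hwG hν
    obtain ⟨κ', rfl, h4⟩ := reach_base h1
    obtain ⟨M, hM⟩ := exists_can hP (show Mem P (xf P a w) κ' from h2)
    -- a stage containing the relevant part of `F`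
    let m := max M ((F.filter (fun j => j < a)).sup (fun j => rho P j a))
    obtain ⟨κ, a1, a2, a3, a4⟩ := hM m (le_max_left _ _)
    refine ⟨n, m, w, ?_, G, hG, hwG, κ, a3, a4, a2, ?_⟩
    · intro z' hz' F' hF'
      -- modify `z'` above `a`
      obtain ⟨w', hw'Q, hw'⟩ := hz (fun j => if j < a then z' j else z j) (by
        intro j hj
        by_cases hja : j < a
        · rw [if_pos hja]
          have hjP : j ∈ P a m := by
            refine mem_of_rho_le hP hja (le_trans ?_ (le_max_right _ _))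
            exact Finset.le_sup (f := fun j => rho P j a) (Finset.mem_filter.2 ⟨hj, hja⟩)
          rw [hz' j hjP, hwz j hj]
        · rw [if_neg hja]) F'
      refine ⟨w', hw'Q, fun j hj => ?_⟩
      rw [hw' j hj, if_pos (hF' j hj)]
    · intro x' hx'
      exact h3 x' (mem_up_P' hP a1 hx')
  choose n m w hΦ using key
  -- pressing down
  have hreg : ∀ a, ∃ ξ, (∃ ξ', ξ' < a) → ξ < a ∧ ∀ j ∈ P a (m a), j ≤ ξ := by
    intro a
    by_cases ha : ∃ ξ', ξ' < a
    · obtain ⟨ξ₀, hξ₀⟩ := ha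
      obtain ⟨ξ, _, h2, h3⟩ := exists_bound hξ₀ ((P a (m a)).image (fun j => ((j, 0) : Om1 × ℕ))) (by
        intro j hj
        obtain ⟨i, hi, rfl⟩ := Finset.mem_image.1 hj
        exact P_lt hP hi)
      exact ⟨ξ, fun _ => ⟨h2, fun j hj => h3 (j, 0) (Finset.mem_image_of_mem _ hj)⟩⟩
    · exact ⟨a, fun h => absurd h ha⟩
  choose rr hrr using hreg
  let dd : Om1 → (ℕ × ℕ) × Finset (Om1 × (ℕ × ℕ)) := fun a =>
    ((n a, m a), (P a (m a)).image (fun j => (j, (rho P j a, w a j))))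
  obtain ⟨ξ, ⟨⟨n₀, m₀⟩, B⟩, hun⟩ := pressing (fun ξ => ξ) rr dd (fun δ h _ => (hrr δ h).1) (by
    intro ξ
    have h1 : ((Set.univ : Set (ℕ × ℕ)) ×ˢ {A : Finset (Om1 × (ℕ × ℕ)) |
        ∀ a ∈ A, a ∈ {a : Om1 × (ℕ × ℕ) | a.1 ≤ ξ}}).Countable := by
      refine Set.countable_univ.prod (countable_finsets ?_)
      have h2 : (Set.Iic ξ ×ˢ (Set.univ : Set (ℕ × ℕ))).Countable :=
        (om1_Iic ξ).prod Set.countable_univ
      refine h2.mono ?_
      rintro a ha
      exact ⟨ha, Set.mem_univ _⟩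
    refine h1.mono ?_
    rintro _ ⟨δ, h2, h3, _, rfl⟩
    refine ⟨Set.mem_univ _, fun a ha => ?_⟩
    obtain ⟨j, hj, rfl⟩ := Finset.mem_image.1 ha
    show j ≤ ξ
    rw [← h2]
    exact (hrr δ h3).2 j hj)
  obtain ⟨β, hξβ, _, hrβ, hdβ⟩ := hun ξ
  obtain ⟨δ, hβδ, _, hrδ, hdδ⟩ := hun β
  have hβ1 : n β = n₀ ∧ m β = m₀ := Prod.ext_iff.1 (Prod.ext_iff.1 hdβ).1
  have hβ2 : (P β (m β)).image (fun j => (j, (rho P j β, w β j))) = B := (Prod.ext_iff.1 hdβ).2
  have hδ1 : n δ = n₀ ∧ m δ = m₀ := Prod.ext_iff.1 (Prod.ext_iff.1 hdδ).1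
  have hδ2 : (P δ (m δ)).image (fun j => (j, (rho P j δ, w δ j))) = B := (Prod.ext_iff.1 hdδ).2
  -- the data agree
  have hag1 : ∀ j ∈ P δ (m δ), j ∈ P β (m β) ∧ rho P j β = rho P j δ ∧ w β j = w δ j := by
    intro j hj
    have h1 : (j, (rho P j δ, w δ j)) ∈ B := by
      rw [← hδ2]; exact Finset.mem_image_of_mem _ hj
    rw [← hβ2] at h1
    obtain ⟨i, hi, heq⟩ := Finset.mem_image.1 h1
    have e1 : i = j := congrArg Prod.fst heq
    subst e1
    exact ⟨hi, congrArg (fun c => c.2.1) heq, congrArg (fun c => c.2.2) heq⟩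
  have hag2 : ∀ j ∈ P β (m β), j ∈ P δ (m δ) := by
    intro j hj
    have h1 : (j, (rho P j β, w β j)) ∈ B := by
      rw [← hβ2]; exact Finset.mem_image_of_mem _ hj
    rw [← hδ2] at h1
    obtain ⟨i, hi, heq⟩ := Finset.mem_image.1 h1
    have e1 : i = j := congrArg Prod.fst heq
    subst e1
    exact hi
  obtain ⟨hden, _⟩ := hΦ β
  obtain ⟨_, G, hG, hpG, κ, hκa, hκm, hκ, hκG⟩ := hΦ δ
  obtain ⟨w', hw'Q, hw'⟩ := hden (fun j => if j ∈ P β (m β) then w β j else rho P j δ)
    (fun j hj => if_pos hj) (P β (m β) ∪ P β (rho P β δ)) (by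
      intro j hj
      rcases Finset.mem_union.1 hj with h | h
      · exact P_lt hP h
      · exact P_lt hP h)
  have hmem : Mem P (xf P β w') κ := by
    refine ⟨by rw [hκa]; exact hβδ.le, ?_, ?_, ?_⟩
    · intro j hj
      rw [hκa, hκm] at hj
      exact P_lt hP (hag1 j hj).1
    · intro j hj k hk
      rw [← hκ.2.2.1 j hj k hk, mem_xf, mem_xf]
      rw [hκa, hκm] at hj
      obtain ⟨h1, h2, h3⟩ := hag1 j hj
      have h4 : w' j = w δ j := by
        rw [hw' j (Finset.mem_union_left _ h1), if_pos h1, h3]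
      rw [h2, h4]
      constructor
      · rintro ⟨_, h⟩; exact ⟨P_lt hP hj, h⟩
      · rintro ⟨_, h⟩; exact ⟨P_lt hP h1, h⟩
    · intro j hj hjP
      rw [hκa, hκm] at hjP
      rw [hκa, mem_xf]
      have hj' : j < β := hj
      refine ⟨hj', ?_⟩
      by_cases h : j ∈ P β (rho P β δ)
      · right
        have h1 : j ∉ P β (m β) := fun h1 => hjP (hag2 j h1)
        rw [hw' j (Finset.mem_union_right _ h), if_neg h1]
      · left
        refine (rho_eq hP (M := rho P β δ) (fun l hl => ?_) h hj' (hj'.trans hβδ)).symm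
        rw [P_cut hP (P_mono hP hl (rho_mem hP hβδ))]
        exact ⟨fun h1 => h1.1, fun h1 => ⟨h1, hj'⟩⟩
  have h1 : pt (S := ext (sysP P hP)) r (xf P β w') 0 ∈ G := hκG _ hmem
  have h2 : G ⊆ Mle β := hw'Q.2 G (by rw [hβ1.1, ← hδ1.1]; exact hG) h1
  have h3 := (hMp β _).1 (h2 hpG)
  exact absurd h3 (not_le.2 hβδ)

end nq

end Pool.Agent.Helper185.Man
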