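import Pool.Agent.Helper185.Man7

/-!
# The manifold
-/

namespace Pool.Agent.Helper185.Man

open Set Topology Relation
open Pool.Agent.Helper185.Fat (Om1 om1_Iio om1_mk starOf QuasiDevelopable)

/-- `M` is a manifold of dimension `n`: a connected Hausdorff space in which every point has an
open neighbourhood homeomorphic to `ℝⁿ`. -/
def IsMfd (M : Type) [TopologicalSpace M] (n : ℕ) : Prop :=
  ConnectedSpace M ∧ T2Space M ∧
    ∀ x : M, ∃ U : Set M, IsOpen U ∧ x ∈ U ∧ Nonempty (U ≃ₜ EuclideanSpace ℝ (Fin n))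

/-- `M` is covered by at most `ℵ₁` open sets homeomorphic to `ℝⁿ`. -/
def MfdWeightLeAleph1 (M : Type) [TopologicalSpace M] (n : ℕ) : Prop :=
  ∃ 𝒰 : Set (Set M), Cardinal.mk 𝒰 ≤ Cardinal.aleph 1 ∧
    (∀ U ∈ 𝒰, IsOpen U ∧ Nonempty (U ≃ₜ EuclideanSpace ℝ (Fin n))) ∧ ⋃₀ 𝒰 = Set.univ

/-- The diagonal is a countable intersection of open subsets of `M × M`. -/
def HasGdeltaDiagonal (M : Type) [TopologicalSpace M] : Prop :=
  ∃ W : ℕ → Set (M × M), (∀ n, IsOpen (W n)) ∧ ⋂ n, W n = {p | p.1 = p.2}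

theorem card_nod (P : Om1 → ℕ → Finset Om1) : Cardinal.mk (Nod P) ≤ Cardinal.aleph 1 := by
  have hinj : Function.Injective (fun ν : Nod P => (ν.a, ν.m, ν.s)) := by
    rintro ⟨a, m, s, _, _⟩ ⟨a', m', s', _, _⟩ h
    simp only [Prod.mk.injEq] at h
    obtain ⟨rfl, rfl, rfl⟩ := h
    rfl
  refine (Cardinal.mk_le_of_injective hinj).trans ?_
  have hω : Cardinal.aleph0 ≤ Cardinal.aleph 1 := Cardinal.aleph0_le_aleph 1
  haveI : Infinite Om1 := by
    rw [← Cardinal.aleph0_le_mk_iff, om1_mk]; exact hω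
  have h2 : Cardinal.mk (Finset (Om1 × ℕ)) ≤ Cardinal.aleph 1 := by
    haveI : Infinite (Om1 × ℕ) := inferInstance
    rw [Cardinal.mk_finset_of_infinite, Cardinal.mk_prod]
    simp only [Cardinal.lift_id, Cardinal.mk_nat, om1_mk]
    exact Cardinal.mul_le_of_le hω le_rfl hω
  rw [Cardinal.mk_prod, Cardinal.mk_prod]
  simp only [Cardinal.lift_id, om1_mk, Cardinal.mk_nat]
  exact Cardinal.mul_le_of_le hω le_rfl (Cardinal.mul_le_of_le hω hω h2)

theorem card_EN {N : Type} (h : Cardinal.mk N ≤ Cardinal.aleph 1) :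
    Cardinal.mk (EN N) ≤ Cardinal.aleph 1 := by
  have hinj : Function.Injective (fun e : EN N => match e with
      | EN.base ν => (Sum.inl ν : N ⊕ (N ⊕ Unit))
      | EN.br ν => Sum.inr (Sum.inl ν)
      | EN.o => Sum.inr (Sum.inr ())) := by
    intro a b hab
    cases a <;> cases b <;> simp_all
  refine (Cardinal.mk_le_of_injective hinj).trans ?_
  have hω : Cardinal.aleph0 ≤ Cardinal.aleph 1 := Cardinal.aleph0_le_aleph 1
  have h1 : Cardinal.mk Unit ≤ Cardinal.aleph 1 := by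
    rw [Cardinal.mk_unit]
    exact Cardinal.one_le_aleph0.trans hω
  rw [Cardinal.mk_sum, Cardinal.mk_sum]
  simp only [Cardinal.lift_id]
  exact Cardinal.add_le_of_le hω h (Cardinal.add_le_of_le hω h h1)

/-- The example. -/
theorem exists_mfd : ∃ (M : Type) (_ : TopologicalSpace M), IsMfd M 2 ∧ MfdWeightLeAleph1 M 2 ∧
    HasGdeltaDiagonal M ∧ ¬ QuasiDevelopable M := by
  obtain ⟨P, hP⟩ := exists_lad
  have hcard : Cardinal.mk (ext (sysP P hP)).N ≤ Cardinal.aleph 1 := card_EN (card_nod P)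
  have hr : Nonempty ((ext (sysP P hP)).N ↪ ℝ) := by
    rw [← Cardinal.le_def, Cardinal.mk_real]
    exact hcard.trans Cardinal.aleph_one_le_continuum
  obtain ⟨r⟩ := hr
  have hcov : ∀ x : Mf (ext (sysP P hP)) r, ∃ ν, x ∈ D (ext (sysP P hP)) r ν := by
    intro x
    obtain ⟨a, rfl⟩ := mk_surj x
    exact ⟨a.1, mem_D⟩
  refine ⟨Mf (ext (sysP P hP)) r, inferInstance, ⟨?_, t2 r.injective, ?_⟩, ?_, ?_, not_qd hP r⟩
  · exact connected (ext_conn _) ⟨EN.o⟩
  · intro x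
    obtain ⟨ν, hν⟩ := hcov x
    exact ⟨_, isOpen_D ν, hν, D_homeo ν⟩
  · refine ⟨Set.range (D (ext (sysP P hP)) r), Cardinal.mk_range_le.trans hcard, ?_, ?_⟩
    · rintro _ ⟨ν, rfl⟩
      exact ⟨isOpen_D ν, D_homeo ν⟩
    · rw [Set.eq_univ_iff_forall]
      intro x
      obtain ⟨ν, hν⟩ := hcov x
      exact ⟨_, ⟨ν, rfl⟩, hν⟩
  · obtain ⟨W, h1, h2⟩ := isGδ_iff_eq_iInter_nat.1
      (isGdelta_diagonal (S := ext (sysP P hP)) (r := r))
    refine ⟨W, h1, ?_⟩
    rw [← h2]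
    rfl

end Pool.Agent.Helper185.Man
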