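import Pool.Agent.Helper185.PolDefs

/-!
The polarized relation holds for sigma-compact spaces.
-/

namespace Pool.Agent.Helper185.Pol

open Set Filter Pool.Agent.Helper185.Sel MeasureTheory

section

variable {X : Type*}

/-- an ultrafilter all of whose members are omega-covers -/
theorem exists_ultra {U : Set (Set X)} (hω : ∀ F : Set X, F.Finite → ∃ u ∈ U, F ⊆ u) :
    ∃ 𝒰 : Ultrafilter U, ∀ F : Set X, F.Finite → ∀ᶠ u in (𝒰 : Filter U), F ⊆ u.1 := by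
  classical
  let f : Filter U := ⨅ F : Finset X, 𝓟 {u : U | (F : Set X) ⊆ u.1}
  have hne : f.NeBot := by
    apply Filter.iInf_neBot_of_directed'
    · intro F F'
      refine ⟨F ∪ F', ?_, ?_⟩
      · apply Filter.principal_mono.2
        intro u hu
        exact (Finset.coe_subset.2 Finset.subset_union_left).trans hu
      · apply Filter.principal_mono.2
        intro u hu
        exact (Finset.coe_subset.2 Finset.subset_union_right).trans hu
    · intro F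
      rw [Filter.principal_neBot_iff]
      obtain ⟨u, hu, hF⟩ := hω F F.finite_toSet
      exact ⟨⟨u, hu⟩, hF⟩
  refine ⟨Ultrafilter.of f, fun F hF => ?_⟩
  have h1 : {u : U | (hF.toFinset : Set X) ⊆ u.1} ∈ f :=
    Filter.mem_iInf_of_mem hF.toFinset (Filter.mem_principal_self _)
  have h2 := Ultrafilter.of_le f h1
  filter_upwards [h2] with u hu
  have h3 : (hF.toFinset : Set X) ⊆ u.1 := hu
  rwa [Set.Finite.coe_toFinset] at h3

theorem ultra_color {α : Type*} (𝒰 : Ultrafilter α) {k : ℕ} (g : α → Fin k) :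
    ∃ c, ∀ᶠ u in (𝒰 : Filter α), g u = c := by
  by_contra hcon
  push Not at hcon
  have h2 := (Filter.eventually_all).2 hcon
  obtain ⟨u, hu⟩ := h2.exists
  exact hu (g u) rfl

/-- abstract form: a sequence of catching requirements -/
theorem polar_of_catch {C : ℕ → Set X → Prop} {U₁ U₂ : Set (Set X)}
    (h1 : ∀ F : Set X, F.Finite → ∃ u ∈ U₁, F ⊆ u) (h2 : ∀ F : Set X, F.Finite → ∃ u ∈ U₂, F ⊆ u)
    (hc1 : ∀ n, ∀ K : Set U₁, (∀ F : Set X, F.Finite → ∃ u ∈ K, F ⊆ u.1) →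
      ∃ A : Finset U₁, (A : Set U₁) ⊆ K ∧ ∀ F : Set X, C n F → ∃ u ∈ A, F ⊆ u.1)
    (hc2 : ∀ n, ∀ K : Set U₂, (∀ F : Set X, F.Finite → ∃ u ∈ K, F ⊆ u.1) →
      ∃ A : Finset U₂, (A : Set U₂) ⊆ K ∧ ∀ F : Set X, C n F → ∃ u ∈ A, F ⊆ u.1)
    {k : ℕ} (f : U₁ × U₂ → Fin k) :
    ∃ (V₁ : Set U₁) (V₂ : Set U₂) (c₁ c₂ : Fin k),
      (∀ n, ∀ F : Set X, C n F → ∃ u ∈ V₁, F ⊆ u.1) ∧
      (∀ n, ∀ F : Set X, C n F → ∃ u ∈ V₂, F ⊆ u.1) ∧
      ∀ u ∈ V₁, ∀ v ∈ V₂, f (u, v) = c₁ ∨ f (u, v) = c₂ := by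
  classical
  obtain ⟨𝒰, h𝒰⟩ := exists_ultra h1
  obtain ⟨𝒱, h𝒱⟩ := exists_ultra h2
  choose g1 hg1 using fun v : U₂ => ultra_color 𝒰 (fun u => f (u, v))
  choose g2 hg2 using fun u : U₁ => ultra_color 𝒱 (fun v => f (u, v))
  obtain ⟨c1, hc1'⟩ := ultra_color 𝒱 g1
  obtain ⟨c2, hc2'⟩ := ultra_color 𝒰 g2
  have hα : ∀ (n : ℕ) (A : Finset U₁) (B : Finset U₂), ∃ A' : Finset U₁,
      (∀ b ∈ B, g1 b = c1) → (∀ a ∈ A', g2 a = c2) ∧ (∀ a ∈ A', ∀ b ∈ B, f (a, b) = c1) ∧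
        ∀ F : Set X, C n F → ∃ u ∈ A', F ⊆ u.1 := by
    intro n A B
    by_cases hB : ∀ b ∈ B, g1 b = c1
    · have h3 : ∀ᶠ u in (𝒰 : Filter U₁), ∀ b ∈ B, f (u, b) = c1 := by
        rw [Filter.eventually_all_finset]
        intro b hb
        have h4 := hg1 b
        rw [hB b hb] at h4
        exact h4
      obtain ⟨A', hA', hA'2⟩ := hc1 n {u | g2 u = c2 ∧ ∀ b ∈ B, f (u, b) = c1} (by
        intro F hF
        obtain ⟨u, hu⟩ := ((h𝒰 F hF).and (hc2'.and h3)).exists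
        exact ⟨u, hu.2, hu.1⟩)
      exact ⟨A', fun _ => ⟨fun a ha => (hA' ha).1, fun a ha => (hA' ha).2, hA'2⟩⟩
    · exact ⟨∅, fun h => absurd h hB⟩
  have hβ : ∀ (n : ℕ) (A : Finset U₁), ∃ B' : Finset U₂,
      (∀ a ∈ A, g2 a = c2) → (∀ b ∈ B', g1 b = c1) ∧ (∀ a ∈ A, ∀ b ∈ B', f (a, b) = c2) ∧
        ∀ F : Set X, C n F → ∃ u ∈ B', F ⊆ u.1 := by
    intro n A
    by_cases hA : ∀ a ∈ A, g2 a = c2
    · have h3 : ∀ᶠ v in (𝒱 : Filter U₂), ∀ a ∈ A, f (a, v) = c2 := by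
        rw [Filter.eventually_all_finset]
        intro a ha
        have h4 := hg2 a
        rw [hA a ha] at h4
        exact h4
      obtain ⟨B', hB', hB'2⟩ := hc2 n {v | g1 v = c1 ∧ ∀ a ∈ A, f (a, v) = c2} (by
        intro F hF
        obtain ⟨u, hu⟩ := ((h𝒱 F hF).and (hc1'.and h3)).exists
        exact ⟨u, hu.2, hu.1⟩)
      exact ⟨B', fun _ => ⟨fun a ha => (hB' ha).1, fun a ha b hb => (hB' hb).2 a ha, hB'2⟩⟩
    · exact ⟨∅, fun h => absurd h hA⟩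
  choose α hα using hα
  choose β hβ using hβ
  let st : ℕ → Finset U₁ × Finset U₂ := fun n => Nat.rec (∅, ∅)
    (fun n s => (s.1 ∪ α n s.1 s.2, s.2 ∪ β n (s.1 ∪ α n s.1 s.2))) n
  have hst : ∀ n, st (n + 1) = ((st n).1 ∪ α n (st n).1 (st n).2,
    (st n).2 ∪ β n ((st n).1 ∪ α n (st n).1 (st n).2)) := fun n => rfl
  have hinv : ∀ n, (∀ a ∈ (st n).1, g2 a = c2) ∧ ∀ b ∈ (st n).2, g1 b = c1 := by
    intro n
    induction n with
    | zero =>
      refine ⟨fun a ha => ?_, fun a ha => ?_⟩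
      · exact absurd ha (Finset.notMem_empty a)
      · exact absurd ha (Finset.notMem_empty a)
    | succ n ih =>
      have h3 := hα n (st n).1 (st n).2 ih.2
      have h4 : ∀ a ∈ (st n).1 ∪ α n (st n).1 (st n).2, g2 a = c2 := by
        intro a ha
        rcases Finset.mem_union.1 ha with h5 | h5
        · exact ih.1 a h5
        · exact h3.1 a h5
      have h6 := hβ n _ h4
      rw [hst]
      refine ⟨h4, fun b hb => ?_⟩
      rcases Finset.mem_union.1 hb with h5 | h5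
      · exact ih.2 b h5
      · exact h6.1 b h5
  let A : ℕ → Finset U₁ := fun n => α n (st n).1 (st n).2
  let B : ℕ → Finset U₂ := fun n => β n ((st n).1 ∪ α n (st n).1 (st n).2)
  have hA1 : ∀ m n, m < n → A m ⊆ (st n).1 := by
    intro m n hmn
    induction n, hmn using Nat.le_induction with
    | base => rw [hst]; exact Finset.subset_union_right
    | succ n _ ih => rw [hst]; exact ih.trans Finset.subset_union_left
  have hB1 : ∀ m n, m < n → B m ⊆ (st n).2 := by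
    intro m n hmn
    induction n, hmn using Nat.le_induction with
    | base => rw [hst]; exact Finset.subset_union_right
    | succ n _ ih => rw [hst]; exact ih.trans Finset.subset_union_left
  have hAn := fun n => hα n (st n).1 (st n).2 (hinv n).2
  have hBn := fun n => hβ n ((st n).1 ∪ α n (st n).1 (st n).2) (hinv (n + 1)).1
  refine ⟨{u | ∃ n, u ∈ A n}, {v | ∃ n, v ∈ B n}, c1, c2, ?_, ?_, ?_⟩
  · intro n F hF
    obtain ⟨u, hu, hFu⟩ := (hAn n).2.2 F hF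
    exact ⟨u, ⟨n, hu⟩, hFu⟩
  · intro n F hF
    obtain ⟨u, hu, hFu⟩ := (hBn n).2.2 F hF
    exact ⟨u, ⟨n, hu⟩, hFu⟩
  · rintro u ⟨i, hu⟩ v ⟨j, hv⟩
    rcases lt_or_ge j i with h | h
    · left
      exact (hAn i).2.1 u hu v (hB1 j i h hv)
    · right
      apply (hBn j).2.1 u ?_ v hv
      rcases eq_or_lt_of_le h with h5 | h5
      · subst h5
        exact Finset.mem_union_right _ hu
      · exact Finset.mem_union_left _ (hA1 i j h5 hu)

variable [TopologicalSpace X]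

theorem compact_catch {U : Set (Set X)} (hU : ∀ u ∈ U, IsOpen u) {C : Set X} (hC : IsCompact C)
    (k : ℕ) (K : Set U) (hK : ∀ F : Set X, F.Finite → ∃ u ∈ K, F ⊆ u.1) :
    ∃ A : Finset U, (A : Set U) ⊆ K ∧ ∀ x : Fin k → X, (∀ i, x i ∈ C) → ∃ u ∈ A, ∀ i, x i ∈ u.1 := by
  classical
  have h1 : IsCompact (Set.pi univ (fun _ : Fin k => C)) := isCompact_univ_pi (fun _ => hC)
  obtain ⟨b', hb1, hb2, hb3⟩ := h1.elim_finite_subcover_image (b := K)
    (c := fun u => {x : Fin k → X | ∀ i, x i ∈ u.1}) (by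
      intro u _
      have : {x : Fin k → X | ∀ i, x i ∈ u.1} = Set.univ.pi fun _ => u.1 := by
        ext x; simp [Set.mem_pi]
      rw [this]
      exact isOpen_set_pi finite_univ fun _ _ => hU u.1 u.2) (by
      intro x _
      obtain ⟨u, hu, hFu⟩ := hK (range x) (finite_range x)
      exact mem_biUnion hu (fun i => hFu (mem_range_self i)))
  refine ⟨hb2.toFinset, by rw [Set.Finite.coe_toFinset]; exact hb1, ?_⟩
  intro x hx
  have h2 := hb3 (show x ∈ Set.pi univ (fun _ : Fin k => C) from fun i _ => hx i)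
  obtain ⟨u, hu, hxu⟩ := mem_iUnion₂.1 h2
  exact ⟨u, hb2.mem_toFinset.2 hu, hxu⟩

theorem polar_sigmaCompact [SigmaCompactSpace X] (k : ℕ) : Polar (OmegaOf (OpenFam X)) k := by
  classical
  intro U₁ hU₁ U₂ hU₂ f
  let C : ℕ → Set X → Prop := fun n F =>
    ∃ m, m ≤ n ∧ ∃ x : Fin m → X, (∀ i, x i ∈ compactCovering X n) ∧ F = range x
  have hcatch : ∀ U ∈ OmegaOf (OpenFam X), ∀ n, ∀ K : Set U,
      (∀ F : Set X, F.Finite → ∃ u ∈ K, F ⊆ u.1) →
      ∃ A : Finset U, (A : Set U) ⊆ K ∧ ∀ F : Set X, C n F → ∃ u ∈ A, F ⊆ u.1 := by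
    intro U hU n K hK
    choose A hA1 hA2 using fun m => compact_catch hU.1 (isCompact_compactCovering X n) m K hK
    refine ⟨(Finset.range (n + 1)).biUnion A, ?_, ?_⟩
    · intro u hu
      simp only [Finset.coe_biUnion, mem_iUnion] at hu
      obtain ⟨m, _, hu⟩ := hu
      exact hA1 m hu
    · rintro F ⟨m, hm, x, hx, rfl⟩
      obtain ⟨u, hu, hxu⟩ := hA2 m x hx
      refine ⟨u, Finset.mem_biUnion.2 ⟨m, Finset.mem_range.2 (by omega), hu⟩, ?_⟩
      rintro _ ⟨i, rfl⟩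
      exact hxu i
  obtain ⟨V₁, V₂, c₁, c₂, h1, h2, h3⟩ := polar_of_catch hU₁.2.2 hU₂.2.2 (hcatch U₁ hU₁)
    (hcatch U₂ hU₂) f
  have hfin : ∀ F : Set X, F.Finite → ∃ n, C n F := by
    intro F hF
    obtain ⟨n, hn⟩ : ∃ n, F ⊆ compactCovering X n := by
      induction F, hF using Set.Finite.induction_on with
      | empty => exact ⟨0, empty_subset _⟩
      | @insert a S haS hS ih =>
        obtain ⟨n, hn⟩ := ih
        obtain ⟨n', hn'⟩ := exists_mem_compactCovering a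
        refine ⟨max n n', insert_subset ?_ ?_⟩
        · exact compactCovering_subset X (le_max_right n n') hn'
        · exact hn.trans (compactCovering_subset X (le_max_left n n'))
    obtain ⟨m, e⟩ := hF.exists_equiv_fin
    refine ⟨max m n, m, le_max_left m n, fun i => (e.some.symm i).1, fun i => ?_, ?_⟩
    · exact compactCovering_subset X (le_max_right m n) (hn (e.some.symm i).2)
    · ext y
      constructor
      · intro hy
        exact ⟨e.some ⟨y, hy⟩, by simp⟩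
      · rintro ⟨i, rfl⟩
        exact (e.some.symm i).2
  have hmem : ∀ U ∈ OmegaOf (OpenFam X), ∀ V : Set U,
      (∀ n, ∀ F : Set X, C n F → ∃ u ∈ V, F ⊆ u.1) → Subtype.val '' V ∈ OmegaOf (OpenFam X) := by
    intro U hU V hV
    have hω : ∀ F : Set X, F.Finite → ∃ u ∈ Subtype.val '' V, F ⊆ u := by
      intro F hF
      obtain ⟨n, hn⟩ := hfin F hF
      obtain ⟨u, hu, hFu⟩ := hV n F hn
      exact ⟨u.1, ⟨u, hu, rfl⟩, hFu⟩
    refine ⟨?_, ⟨?_, ?_⟩, hω⟩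
    · rintro _ ⟨u, _, rfl⟩
      exact hU.1 u.1 u.2
    · rw [eq_univ_iff_forall]
      intro x
      obtain ⟨u, hu, hx⟩ := hω {x} (finite_singleton x)
      exact ⟨u, hu, hx rfl⟩
    · rintro ⟨u, _, hu⟩
      exact hU.2.1.2 (hu ▸ u.2)
  refine ⟨V₁, V₂, hmem U₁ hU₁ V₁ h1, hmem U₂ hU₂ V₂ h2, ?_⟩
  have hsub : f '' (V₁ ×ˢ V₂) ⊆ ({c₁, c₂} : Set (Fin k)) := by
    rintro _ ⟨⟨u, v⟩, ⟨hu, hv⟩, rfl⟩
    exact h3 u hu v hv
  calc (f '' (V₁ ×ˢ V₂)).ncard ≤ ({c₁, c₂} : Set (Fin k)).ncard :=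
        Set.ncard_le_ncard hsub (Set.toFinite _)
    _ ≤ 2 := Set.ncard_insert_le _ _ |>.trans (by rw [Set.ncard_singleton])
    _ < 3 := by norm_num

end

/-- the unit interval fails `S₁(Ω, Ω)` -/
theorem not_s1_Icc : ¬ S1 (OmegaOf (OpenFam (Icc (0 : ℝ) 1))) (OmegaOf (OpenFam (Icc (0 : ℝ) 1))) := by
  intro h
  obtain ⟨ε, hε, hsum⟩ := ENNReal.exists_pos_sum_of_countable' (ε := 1) one_ne_zero ℕ
  let U : ℕ → Set (Set (Icc (0 : ℝ) 1)) := fun n =>
    {u | ∃ O : Set ℝ, IsOpen O ∧ volume O < ε n ∧ u = Subtype.val ⁻¹' O}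
  have hω : ∀ n, ∀ F : Set (Icc (0 : ℝ) 1), F.Finite → ∃ u ∈ U n, F ⊆ u := by
    intro n F hF
    have h1 : volume (Subtype.val '' F : Set ℝ) = 0 := (hF.image _).measure_zero _
    obtain ⟨O, hO1, hO2, hO3⟩ := Set.exists_isOpen_lt_of_lt (Subtype.val '' F : Set ℝ) (ε n)
      (by rw [h1]; exact hε n)
    exact ⟨_, ⟨O, hO2, hO3, rfl⟩, fun x hx => hO1 ⟨x, hx, rfl⟩⟩
  have hlt : ∀ n, ε n < 1 := fun n => (ENNReal.le_tsum n).trans_lt hsum
  have hU : ∀ n, U n ∈ OmegaOf (OpenFam (Icc (0 : ℝ) 1)) := by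
    intro n
    refine ⟨?_, ⟨?_, ?_⟩, hω n⟩
    · rintro _ ⟨O, hO, _, rfl⟩
      exact hO.preimage continuous_subtype_val
    · rw [eq_univ_iff_forall]
      intro x
      obtain ⟨u, hu, hx⟩ := hω n {x} (finite_singleton x)
      exact ⟨u, hu, hx rfl⟩
    · rintro ⟨O, _, hO2, hO3⟩
      have h1 : Icc (0 : ℝ) 1 ⊆ O := by
        intro x hx
        have h2 : (⟨x, hx⟩ : Icc (0 : ℝ) 1) ∈ (univ : Set (Icc (0 : ℝ) 1)) := trivial
        rw [hO3] at h2
        exact h2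
      have h3 := measure_mono (μ := volume) h1
      rw [Real.volume_Icc] at h3
      simp only [sub_zero, ENNReal.ofReal_one] at h3
      exact absurd (h3.trans_lt (hO2.trans (hlt n))) (lt_irrefl _)
  obtain ⟨V, hV, hVΩ⟩ := h U hU
  choose O hO1 hO2 hO3 using hV
  have h1 : Icc (0 : ℝ) 1 ⊆ ⋃ n, O n := by
    intro x hx
    have h2 : (⟨x, hx⟩ : Icc (0 : ℝ) 1) ∈ ⋃₀ range V := by rw [hVΩ.2.1.1]; trivial
    obtain ⟨_, ⟨n, rfl⟩, hn⟩ := h2
    rw [hO3 n] at hn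
    exact mem_iUnion.2 ⟨n, hn⟩
  have h3 : volume (Icc (0 : ℝ) 1) < 1 :=
    calc volume (Icc (0 : ℝ) 1) ≤ volume (⋃ n, O n) := measure_mono h1
      _ ≤ ∑' n, volume (O n) := measure_iUnion_le _
      _ ≤ ∑' n, ε n := ENNReal.tsum_le_tsum (fun n => (hO2 n).le)
      _ < 1 := hsum
  rw [Real.volume_Icc] at h3
  simp at h3

end Pool.Agent.Helper185.Pol
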