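import Pool.Agent.Helper185.SelDefs

/-!
The polarized partition relation for classes of covers.
-/

namespace Pool.Agent.Helper185.Sel

open Set

/-- The polarized relation with `k` colours and fewer than three colours attained: for all `U₁`,
`U₂` in the class `C` and every colouring `f` of the pairs from `U₁ × U₂` with `k` colours there
are `V₁ ⊆ U₁` and `V₂ ⊆ U₂` in `C` such that `f` attains fewer than three colours on the pairs
from `V₁ × V₂`. -/
def Polar {X : Type*} (C : Set (Set (Set X))) (k : ℕ) : Prop :=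
  ∀ U₁ ∈ C, ∀ U₂ ∈ C, ∀ f : U₁ × U₂ → Fin k,
    ∃ V₁ : Set U₁, ∃ V₂ : Set U₂, Subtype.val '' V₁ ∈ C ∧ Subtype.val '' V₂ ∈ C ∧
      (f '' (V₁ ×ˢ V₂)).ncard < 3

end Pool.Agent.Helper185.Sel
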