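import Pool.Agent.Helper185.PolDefs

/-!
The dominating number, the ultrafilter number and the critical cardinality of the polarized
relation.
-/

namespace Pool.Agent.Helper185.Pol

open Set Filter Pool.Agent.Helper185.Sel

/-- the dominating number: the least cardinality of a family `D` of functions such that every
function is eventually dominated by a member of `D` -/
noncomputable def dNumber : Cardinal.{0} :=
  sInf {κ | ∃ D : Set (ℕ → ℕ), Cardinal.mk D = κ ∧ ∀ f : ℕ → ℕ, ∃ g ∈ D, ∀ᶠ n in atTop, f n ≤ g n}

/-- the ultrafilter number: the least cardinality of a base of a nonprincipal ultrafilter -/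
noncomputable def uNumber : Cardinal.{0} :=
  sInf {κ | ∃ (p : Ultrafilter ℕ) (B : Set (Set ℕ)), Cardinal.mk B = κ ∧
    (p : Filter ℕ) ≤ cofinite ∧ (∀ b ∈ B, b ∈ p) ∧ ∀ A ∈ p, ∃ b ∈ B, b ⊆ A}

/-- the property `P` for a set of reals -/
def PropP (X : Set ℝ) : Prop := ∀ k : ℕ, 1 ≤ k → Polar (OmegaOf (OpenFam X)) k

/-- the least cardinality of a set of reals that fails `P` -/
noncomputable def nonP : Cardinal.{0} := sInf {κ | ∃ X : Set ℝ, Cardinal.mk X = κ ∧ ¬ PropP X}

end Pool.Agent.Helper185.Pol
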