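import Pool.Agent.Helper185.PolDefs2
import Pool.Agent.Helper185.PolCompact
import Pool.Agent.Helper185.SilverReal
import Pool.Agent.Helper185.SierpBase

/-!
The critical cardinality of the polarized relation.
-/

namespace Pool.Agent.Helper185.Pol

open Set Filter Pool.Agent.Helper185.Sel

theorem not_dominating {ι : Type} (h : Cardinal.mk ι < dNumber) (G : ι → ℕ → ℕ) :
    ∃ φ : ℕ → ℕ, ∀ i, ¬ ∀ᶠ n in atTop, φ n ≤ G i n := by
  by_contra hcon
  push Not at hcon
  have h1 : dNumber ≤ Cardinal.mk (range G) := by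
    apply csInf_le'
    refine ⟨range G, rfl, fun f => ?_⟩
    obtain ⟨i, hi⟩ := hcon f
    exact ⟨G i, mem_range_self i, hi⟩
  exact absurd (h1.trans Cardinal.mk_range_le) (not_le.2 h)

theorem exists_splitting {ι : Type} (h : Cardinal.mk ι < uNumber) (D : ι → Set ℕ) [Nonempty ι]
    (hinf : ∀ i, (D i).Infinite) (hdir : ∀ i j, ∃ k, D k ⊆ D i ∩ D j) :
    ∃ Z : Set ℕ, ∀ i, (Z ∩ D i).Nonempty ∧ (Zᶜ ∩ D i).Nonempty := by
  by_contra hcon
  push Not at hcon
  let 𝓕 : Filter ℕ :=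
    { sets := {A | ∃ i, D i ⊆ A}
      univ_sets := ⟨Classical.arbitrary ι, subset_univ _⟩
      sets_of_superset := by
        rintro A B ⟨i, hi⟩ hAB
        exact ⟨i, hi.trans hAB⟩
      inter_sets := by
        rintro A B ⟨i, hi⟩ ⟨j, hj⟩
        obtain ⟨k, hk⟩ := hdir i j
        exact ⟨k, hk.trans (inter_subset_inter hi hj)⟩ }
  have hmem : ∀ A : Set ℕ, A ∈ 𝓕 ↔ ∃ i, D i ⊆ A := fun A => Iff.rfl
  have hdec : ∀ Z : Set ℕ, (∃ i, D i ⊆ Zᶜ) ∨ ∃ i, D i ⊆ Z := by
    intro Z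
    obtain ⟨i, hi⟩ := hcon Z
    by_cases h1 : (Z ∩ D i).Nonempty
    · right
      refine ⟨i, fun n hn => ?_⟩
      by_contra h2
      have h3 : n ∈ Zᶜ ∩ D i := ⟨h2, hn⟩
      rw [hi h1] at h3
      exact h3
    · left
      refine ⟨i, fun n hn h2 => h1 ⟨n, h2, hn⟩⟩
  let p : Ultrafilter ℕ := Ultrafilter.ofComplNotMemIff 𝓕 (by
    intro s
    constructor
    · intro h1
      rcases hdec s with h2 | h2
      · exact absurd h2 h1
      · exact h2
    · rintro ⟨i, hi⟩ ⟨j, hj⟩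
      obtain ⟨k, hk⟩ := hdir i j
      obtain ⟨n, hn⟩ := (hinf k).nonempty
      exact hj (hk hn).2 (hi (hk hn).1))
  have hp : ∀ A : Set ℕ, A ∈ p ↔ ∃ i, D i ⊆ A := fun A => Iff.rfl
  have h1 : uNumber ≤ Cardinal.mk (range D) := by
    apply csInf_le'
    refine ⟨p, range D, rfl, ?_, ?_, ?_⟩
    · intro A hA
      rw [mem_cofinite] at hA
      change A ∈ p
      by_contra hnot
      have h2 : Aᶜ ∈ p := Ultrafilter.compl_mem_iff_notMem.2 hnot
      rw [hp] at h2
      obtain ⟨i, hi⟩ := h2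
      exact hinf i (hA.subset hi)
    · rintro _ ⟨i, rfl⟩
      exact (hp _).2 ⟨i, subset_rfl⟩
    · intro A hA
      obtain ⟨i, hi⟩ := (hp A).1 hA
      exact ⟨D i, mem_range_self i, hi⟩
  exact absurd (h1.trans Cardinal.mk_range_le) (not_le.2 h)

/-- a fast sequence of moves -/
theorem exists_moves {ι : Type} (h : Cardinal.mk ι < dNumber) (g : ι → List ℕ → ℕ) :
    ∃ (l : ℕ → List ℕ) (m : ℕ → ℕ), (∀ k, l (k + 1) = m k :: l k) ∧
      ∀ i, {k | g i (l k) ≤ m k}.Infinite := by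
  classical
  -- bounds
  let H : ι → ℕ → ℕ := fun i n => (Finset.range (n + 1)).sup
    (fun j => match (Encodable.decode j : Option (List ℕ)) with
      | some l => g i l
      | none => 0)
  have hH1 : ∀ i n (l : List ℕ), Encodable.encode l ≤ n → g i l ≤ H i n := by
    intro i n l hl
    have h1 := Finset.le_sup (f := fun j => match (Encodable.decode j : Option (List ℕ)) with
      | some l => g i l
      | none => 0) (Finset.mem_range.2 (Nat.lt_succ_of_le hl))
    simp only [Encodable.encodek] at h1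
    exact h1
  have hH2 : ∀ i, Monotone (H i) := by
    intro i a b hab
    apply Finset.sup_mono
    intro x hx
    rw [Finset.mem_range] at hx ⊢
    omega
  let E : ℕ → ℕ := fun x => (Finset.range (x + 1)).sup (fun n => (Finset.range (x + 1)).sup
    (fun j => match (Encodable.decode j : Option (List ℕ)) with
      | some l => Encodable.encode (n :: l)
      | none => 0))
  have hE1 : ∀ x n (l : List ℕ), n ≤ x → Encodable.encode l ≤ x → Encodable.encode (n :: l) ≤ E x := by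
    intro x n l hn hl
    have h1 := Finset.le_sup (f := fun j => match (Encodable.decode j : Option (List ℕ)) with
      | some l => Encodable.encode (n :: l)
      | none => 0) (Finset.mem_range.2 (Nat.lt_succ_of_le hl))
    simp only [Encodable.encodek] at h1
    refine h1.trans ?_
    exact Finset.le_sup (f := fun n => (Finset.range (x + 1)).sup
      (fun j => match (Encodable.decode j : Option (List ℕ)) with
        | some l => Encodable.encode (n :: l)
        | none => 0)) (Finset.mem_range.2 (Nat.lt_succ_of_le hn))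
  have hE2 : Monotone E := by
    intro a b hab
    apply Finset.sup_le
    intro n hn
    rw [Finset.mem_range] at hn
    refine le_trans (Finset.sup_mono (s₂ := Finset.range (b + 1)) ?_) (Finset.le_sup
      (f := fun n => (Finset.range (b + 1)).sup
        (fun j => match (Encodable.decode j : Option (List ℕ)) with
          | some l => Encodable.encode (n :: l)
          | none => 0)) (Finset.mem_range.2 (by omega)))
    intro x hx
    rw [Finset.mem_range] at hx ⊢
    omega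
  obtain ⟨φ0, hφ0⟩ := not_dominating h (fun i n => H i (max (H i n) (E (H i n)) ) )
  let φ : ℕ → ℕ := fun n => n + ∑ j ∈ Finset.range (n + 1), φ0 j
  have hφ1 : ∀ n, φ0 n ≤ φ n := fun n => by
    have h1 : φ0 n ≤ ∑ j ∈ Finset.range (n + 1), φ0 j :=
      Finset.single_le_sum (f := φ0) (fun _ _ => Nat.zero_le _)
        (Finset.mem_range.2 (Nat.lt_succ_self n))
    exact h1.trans (Nat.le_add_left _ _)
  have hφ2 : ∀ n, n ≤ φ n := fun n => Nat.le_add_right _ _
  have hφ3 : Monotone φ := by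
    intro a b hab
    have h1 : ∑ j ∈ Finset.range (a + 1), φ0 j ≤ ∑ j ∈ Finset.range (b + 1), φ0 j :=
      Finset.sum_le_sum_of_subset (by
        intro x hx
        rw [Finset.mem_range] at hx ⊢
        omega)
    change a + _ ≤ b + _
    omega
  -- the moves: state is (last bound, list)
  let st : ℕ → ℕ × List ℕ := fun k => Nat.rec (0, [])
    (fun _ s => (φ (max s.1 (Encodable.encode s.2)),
      φ (max s.1 (Encodable.encode s.2)) :: s.2)) k
  let M : ℕ → ℕ := fun k => max (st k).1 (Encodable.encode (st k).2)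
  have hst : ∀ k, st (k + 1) = (φ (M k), φ (M k) :: (st k).2) := fun k => rfl
  refine ⟨fun k => (st k).2, fun k => φ (M k), fun k => rfl, ?_⟩
  intro i hfin
  obtain ⟨N, hN⟩ := hfin.bddAbove
  have hlt : ∀ k, N < k → φ (M k) < g i (st k).2 := by
    intro k hk
    by_contra hcon
    have h1 : k ≤ N := hN (show g i (st k).2 ≤ φ (M k) from not_lt.1 hcon)
    omega
  have hlt2 : ∀ k, N < k → φ (M k) < H i (M k) := fun k hk =>
    (hlt k hk).trans_le (hH1 i _ _ (le_max_right _ _))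
  have hMs : ∀ k, M (k + 1) ≤ max (φ (M k)) (E (φ (M k))) := by
    intro k
    apply max_le
    · exact le_max_left _ _
    · refine le_trans ?_ (le_max_right _ _)
      apply hE1
      · exact le_rfl
      · exact (le_max_right _ _).trans (hφ2 (M k))
  have hMlt : ∀ k, M k < M (k + 1) := by
    intro k
    have h3 : M k ≤ φ (M k) := hφ2 _
    have h8 : φ (M k) < Encodable.encode (φ (M k) :: (st k).2) := by
      rw [Encodable.encode_list_cons]
      exact Nat.lt_succ_of_le (Nat.left_le_pair _ _)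
    have h6 : Encodable.encode (φ (M k) :: (st k).2) ≤ M (k + 1) := le_max_right _ _
    omega
  have hM : StrictMono M := strictMono_nat_of_lt_succ hMlt
  apply hφ0 i
  rw [eventually_atTop]
  refine ⟨M (N + 1), fun m hm => ?_⟩
  -- locate m
  have hloc : ∃ k, N < k ∧ M k ≤ m ∧ m < M (k + 1) := by
    by_contra hcon
    push Not at hcon
    have h1 : ∀ k, N < k → M k ≤ m := by
      intro k hk
      induction k, hk using Nat.le_induction with
      | base => exact hm
      | succ k hk ih => exact hcon k hk ih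
    have h2 := h1 (N + 1 + m) (by omega)
    have h3 := hM.le_apply (x := N + 1 + m)
    omega
  obtain ⟨k, hk, hk1, hk2⟩ := hloc
  calc φ0 m ≤ φ m := hφ1 m
    _ ≤ φ (M (k + 1)) := hφ3 hk2.le
    _ ≤ H i (M (k + 1)) := (hlt2 (k + 1) (by omega)).le
    _ ≤ H i (max (φ (M k)) (E (φ (M k)))) := hH2 i (hMs k)
    _ ≤ H i (max (H i m) (E (H i m))) := by
        apply hH2 i
        have h4 : φ (M k) ≤ H i m := (hlt2 k hk).le.trans (hH2 i hk1)
        exact max_le_max h4 (hE2 h4)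

section

variable {X : Type} [TopologicalSpace X]

/-- spaces of small cardinality satisfy the polarized relation -/
theorem polar_small [SecondCountableTopology X] (hd : Cardinal.mk X < dNumber)
    (hu : Cardinal.mk X < uNumber) (k : ℕ) : Polar (OmegaOf (OpenFam X)) k := by
  classical
  intro U₁ hU₁ U₂ hU₂ f
  have hXinf : Infinite X := by
    by_contra hcon
    rw [not_infinite_iff_finite] at hcon
    obtain ⟨u, hu, hF⟩ := hU₁.2.2 univ finite_univ
    exact hU₁.2.1.2 (univ_subset_iff.1 hF ▸ hu)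
  have hcard : Cardinal.mk (Finset X) = Cardinal.mk X := Cardinal.mk_finset_of_infinite X
  obtain ⟨𝒰, h𝒰⟩ := exists_ultra hU₁.2.2
  obtain ⟨𝒱, h𝒱⟩ := exists_ultra hU₂.2.2
  choose g1 hg1 using fun v : U₂ => ultra_color 𝒰 (fun u => f (u, v))
  choose g2 hg2 using fun u : U₁ => ultra_color 𝒱 (fun v => f (u, v))
  obtain ⟨c1, hc1⟩ := ultra_color 𝒱 g1
  obtain ⟨c2, hc2⟩ := ultra_color 𝒰 g2
  -- countable omega-subcovers
  have henum : ∀ U ∈ OmegaOf (OpenFam X), ∀ K : Set U,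
      (∀ F : Set X, F.Finite → ∃ u ∈ K, F ⊆ u.1) →
      ∃ a : ℕ → U, (∀ i, a i ∈ K) ∧ ∀ F : Set X, F.Finite → ∃ i, F ⊆ (a i).1 := by
    intro U hU K hK
    obtain ⟨V, hVK, hVc, hVω⟩ := Sierp.exists_countable_omega (U := Subtype.val '' K) (by
      rintro _ ⟨u, _, rfl⟩
      exact hU.1 u.1 u.2) (by
      intro F hF
      obtain ⟨u, hu, hFu⟩ := hK F hF
      exact ⟨u.1, ⟨u, hu, rfl⟩, hFu⟩)
    obtain ⟨v, hv, -⟩ := hVω ∅ finite_empty
    obtain ⟨e, he⟩ := hVc.exists_eq_range ⟨v, hv⟩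
    have h1 : ∀ i, ∃ u : U, u ∈ K ∧ u.1 = e i := by
      intro i
      obtain ⟨u, hu, hue⟩ := hVK (show e i ∈ V by rw [he]; exact mem_range_self i)
      exact ⟨u, hu, hue⟩
    choose a ha1 ha2 using h1
    refine ⟨a, ha1, fun F hF => ?_⟩
    obtain ⟨u, hu, hFu⟩ := hVω F hF
    rw [he] at hu
    obtain ⟨i, rfl⟩ := hu
    exact ⟨i, by rw [ha2]; exact hFu⟩
  let Good : Finset U₁ × Finset U₂ → Prop := fun s =>
    (∀ a ∈ s.1, g2 a = c2) ∧ ∀ b ∈ s.2, g1 b = c1
  have hK : ∀ s : Finset U₁ × Finset U₂, ∃ (a : ℕ → U₁) (b : ℕ → U₂), Good s →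
      (∀ i, g2 (a i) = c2 ∧ ∀ v ∈ s.2, f (a i, v) = c1) ∧
      (∀ i, g1 (b i) = c1 ∧ ∀ u ∈ s.1, f (u, b i) = c2) ∧
      (∀ F : Set X, F.Finite → ∃ i, F ⊆ (a i).1) ∧ ∀ F : Set X, F.Finite → ∃ i, F ⊆ (b i).1 := by
    intro s
    by_cases hs : Good s
    · have h3 : ∀ᶠ u in (𝒰 : Filter U₁), ∀ b ∈ s.2, f (u, b) = c1 := by
        rw [Filter.eventually_all_finset]
        intro b hb
        have h4 := hg1 b
        rw [hs.2 b hb] at h4
        exact h4
      have h4 : ∀ᶠ v in (𝒱 : Filter U₂), ∀ a ∈ s.1, f (a, v) = c2 := by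
        rw [Filter.eventually_all_finset]
        intro a ha
        have h4 := hg2 a
        rw [hs.1 a ha] at h4
        exact h4
      obtain ⟨a, ha1, ha2⟩ := henum U₁ hU₁ {u | g2 u = c2 ∧ ∀ v ∈ s.2, f (u, v) = c1} (by
        intro F hF
        obtain ⟨u, hu⟩ := ((h𝒰 F hF).and (hc2.and h3)).exists
        exact ⟨u, hu.2, hu.1⟩)
      obtain ⟨b, hb1, hb2⟩ := henum U₂ hU₂ {v | g1 v = c1 ∧ ∀ u ∈ s.1, f (u, v) = c2} (by
        intro F hF
        obtain ⟨u, hu⟩ := ((h𝒱 F hF).and (hc1.and h4)).exists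
        exact ⟨u, hu.2, hu.1⟩)
      exact ⟨a, b, fun _ => ⟨ha1, hb1, ha2, hb2⟩⟩
    · obtain ⟨u, hu, -⟩ := hU₁.2.2 ∅ finite_empty
      obtain ⟨v, hv, -⟩ := hU₂.2.2 ∅ finite_empty
      exact ⟨fun _ => ⟨u, hu⟩, fun _ => ⟨v, hv⟩, fun h => absurd h hs⟩
  choose a b hab using hK
  -- the states
  let step : ℕ → Finset U₁ × Finset U₂ → Finset U₁ × Finset U₂ := fun m s =>
    (s.1 ∪ (Finset.range (m + 1)).image (a s), s.2 ∪ (Finset.range (m + 1)).image (b s))
  let S : List ℕ → Finset U₁ × Finset U₂ := fun l => l.foldr step (∅, ∅)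
  have hS : ∀ m l, S (m :: l) = step m (S l) := fun m l => rfl
  have hgood : ∀ l, Good (S l) := by
    intro l
    induction l with
    | nil =>
      refine ⟨fun a ha => ?_, fun a ha => ?_⟩
      · exact absurd ha (Finset.notMem_empty a)
      · exact absurd ha (Finset.notMem_empty a)
    | cons m l ih =>
      obtain ⟨h1, h2, -, -⟩ := hab (S l) ih
      rw [hS]
      refine ⟨fun x hx => ?_, fun x hx => ?_⟩
      · rcases Finset.mem_union.1 hx with h3 | h3
        · exact ih.1 x h3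
        · obtain ⟨i, _, rfl⟩ := Finset.mem_image.1 h3
          exact (h1 i).1
      · rcases Finset.mem_union.1 hx with h3 | h3
        · exact ih.2 x h3
        · obtain ⟨i, _, rfl⟩ := Finset.mem_image.1 h3
          exact (h2 i).1
  have hg : ∀ (F : Finset X) (l : List ℕ), ∃ m : ℕ, (∃ i ≤ m, (F : Set X) ⊆ (a (S l) i).1) ∧
      ∃ j ≤ m, (F : Set X) ⊆ (b (S l) j).1 := by
    intro F l
    obtain ⟨-, -, h3, h4⟩ := hab (S l) (hgood l)
    obtain ⟨i, hi⟩ := h3 F F.finite_toSet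
    obtain ⟨j, hj⟩ := h4 F F.finite_toSet
    exact ⟨max i j, ⟨i, le_max_left _ _, hi⟩, j, le_max_right _ _, hj⟩
  choose g hg3 hg4 using hg
  obtain ⟨l, m, hlm, hinf⟩ := exists_moves (ι := Finset X) (by rw [hcard]; exact hd) g
  let D : Finset X → Set ℕ := fun F => {n | (∃ i ≤ m n, (F : Set X) ⊆ (a (S (l n)) i).1) ∧
    ∃ j ≤ m n, (F : Set X) ⊆ (b (S (l n)) j).1}
  have hDinf : ∀ F, (D F).Infinite := by
    intro F
    apply (hinf F).mono
    intro n hn
    have hn' : g F (l n) ≤ m n := hn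
    obtain ⟨i, hi, hFi⟩ := hg3 F (l n)
    obtain ⟨j, hj, hFj⟩ := hg4 F (l n)
    exact ⟨⟨i, hi.trans hn', hFi⟩, j, hj.trans hn', hFj⟩
  have hDmono : ∀ F F' : Finset X, F ⊆ F' → D F' ⊆ D F := by
    rintro F F' h n ⟨⟨i, hi, h1⟩, j, hj, h2⟩
    exact ⟨⟨i, hi, (Finset.coe_subset.2 h).trans h1⟩, j, hj, (Finset.coe_subset.2 h).trans h2⟩
  obtain ⟨Z, hZ⟩ := exists_splitting (ι := Finset X) (by rw [hcard]; exact hu) D hDinf (by
    intro F F'
    exact ⟨F ∪ F', subset_inter (hDmono _ _ Finset.subset_union_left)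
      (hDmono _ _ Finset.subset_union_right)⟩)
  have hmono : ∀ n n', n ≤ n' → (S (l n)).1 ⊆ (S (l n')).1 ∧ (S (l n)).2 ⊆ (S (l n')).2 := by
    intro n n' hnn
    induction n', hnn using Nat.le_induction with
    | base => exact ⟨Finset.Subset.refl _, Finset.Subset.refl _⟩
    | succ n' _ ih =>
      rw [hlm, hS]
      exact ⟨ih.1.trans Finset.subset_union_left, ih.2.trans Finset.subset_union_left⟩
  have hmemA : ∀ n n' i, n < n' → i ≤ m n → a (S (l n)) i ∈ (S (l n')).1 := by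
    intro n n' i hnn hi
    apply (hmono (n + 1) n' hnn).1
    rw [hlm, hS]
    exact Finset.mem_union_right _
      (Finset.mem_image_of_mem _ (Finset.mem_range.2 (Nat.lt_succ_of_le hi)))
  have hmemB : ∀ n n' i, n < n' → i ≤ m n → b (S (l n)) i ∈ (S (l n')).2 := by
    intro n n' i hnn hi
    apply (hmono (n + 1) n' hnn).2
    rw [hlm, hS]
    exact Finset.mem_union_right _
      (Finset.mem_image_of_mem _ (Finset.mem_range.2 (Nat.lt_succ_of_le hi)))
  let V₁ : Set U₁ := {u | ∃ n ∈ Z, ∃ i ≤ m n, u = a (S (l n)) i}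
  let V₂ : Set U₂ := {v | ∃ n ∈ Zᶜ, ∃ j ≤ m n, v = b (S (l n)) j}
  have hmem : ∀ U ∈ OmegaOf (OpenFam X), ∀ V : Set U,
      (∀ F : Finset X, ∃ u ∈ V, (F : Set X) ⊆ u.1) → Subtype.val '' V ∈ OmegaOf (OpenFam X) := by
    intro U hU V hV
    have hω : ∀ F : Set X, F.Finite → ∃ u ∈ Subtype.val '' V, F ⊆ u := by
      intro F hF
      obtain ⟨u, hu, hFu⟩ := hV hF.toFinset
      rw [Set.Finite.coe_toFinset] at hFu
      exact ⟨u.1, ⟨u, hu, rfl⟩, hFu⟩
    refine ⟨?_, ⟨?_, ?_⟩, hω⟩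
    · rintro _ ⟨u, _, rfl⟩
      exact hU.1 u.1 u.2
    · rw [eq_univ_iff_forall]
      intro x
      obtain ⟨u, hu, hx⟩ := hω {x} (finite_singleton x)
      exact ⟨u, hu, hx rfl⟩
    · rintro ⟨u, _, hu⟩
      exact hU.2.1.2 (hu ▸ u.2)
  refine ⟨V₁, V₂, hmem U₁ hU₁ V₁ ?_, hmem U₂ hU₂ V₂ ?_, ?_⟩
  · intro F
    obtain ⟨n, hnZ, ⟨i, hi, hFi⟩, -⟩ := (hZ F).1
    exact ⟨_, ⟨n, hnZ, i, hi, rfl⟩, hFi⟩
  · intro F
    obtain ⟨n, hnZ, -, j, hj, hFj⟩ := (hZ F).2
    exact ⟨_, ⟨n, hnZ, j, hj, rfl⟩, hFj⟩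
  have hsub : f '' (V₁ ×ˢ V₂) ⊆ ({c1, c2} : Set (Fin k)) := by
    rintro _ ⟨⟨u, v⟩, ⟨⟨n, hn, i, hi, hu⟩, ⟨n', hn', j, hj, hv⟩⟩, rfl⟩
    simp only at hu hv
    subst hu
    subst hv
    obtain ⟨h1, -, -, -⟩ := hab (S (l n)) (hgood _)
    obtain ⟨-, h2, -, -⟩ := hab (S (l n')) (hgood _)
    rcases lt_trichotomy n n' with h | h | h
    · right
      exact (h2 j).2 _ (hmemA n n' i h hi)
    · subst h
      exact absurd hn hn'
    · left
      exact (h1 i).2 _ (hmemB n' n j h hj)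
  calc (f '' (V₁ ×ˢ V₂)).ncard ≤ ({c1, c2} : Set (Fin k)).ncard :=
        Set.ncard_le_ncard hsub (Set.toFinite _)
    _ ≤ 2 := Set.ncard_insert_le _ _ |>.trans (by rw [Set.ncard_singleton])
    _ < 3 := by norm_num

end

end Pool.Agent.Helper185.Pol
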