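import Pool.Agent.Helper185.PolNon

/-!
Upper bounds for the critical cardinality of the polarized relation.
-/

namespace Pool.Agent.Helper185.Pol

open Set Filter Pool.Agent.Helper185.Sel Pool.Agent.Helper185.Silver

section

variable {X : Type} [TopologicalSpace X]

theorem omega_of {U : Set (Set X)} (h1 : ∀ u ∈ U, IsOpen u) (h2 : univ ∉ U)
    (h3 : ∀ F : Set X, F.Finite → ∃ u ∈ U, F ⊆ u) : U ∈ OmegaOf (OpenFam X) := by
  refine ⟨h1, ⟨?_, h2⟩, h3⟩
  rw [eq_univ_iff_forall]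
  intro x
  obtain ⟨u, hu, hx⟩ := h3 {x} (finite_singleton x)
  exact ⟨u, hu, hx rfl⟩

theorem not_polar_ultra {b : X → Set ℕ} (hb : ∀ n, IsOpen {x | n ∈ b x}) {p : Ultrafilter ℕ}
    (hp : (p : Filter ℕ) ≤ cofinite) (hbp : ∀ x, b x ∈ p) (hbase : ∀ A ∈ p, ∃ x, b x ⊆ A) :
    ¬ Polar (OmegaOf (OpenFam X)) 3 := by
  classical
  intro h
  let C : ℕ → Set X := fun n => {x | n ∈ b x}
  have hU : range C ∈ OmegaOf (OpenFam X) := by
    apply omega_of
    · rintro _ ⟨n, rfl⟩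
      exact hb n
    · rintro ⟨n, hn⟩
      have h1 : ({n} : Set ℕ)ᶜ ∈ p := hp (by rw [mem_cofinite, compl_compl]; exact finite_singleton n)
      obtain ⟨x, hx⟩ := hbase _ h1
      have h2 : x ∈ C n := by rw [hn]; trivial
      exact hx h2 rfl
    · intro F hF
      have h1 : (⋂ x ∈ F, b x) ∈ p := (Filter.biInter_mem hF).2 (fun x _ => hbp x)
      obtain ⟨n, hn⟩ := (p.neBot.nonempty_of_mem h1)
      refine ⟨C n, mem_range_self n, fun x hx => ?_⟩
      exact mem_iInter₂.1 hn x hx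
  choose ν hν using fun u : range C => u.2
  let f : range C × range C → Fin 3 := fun w =>
    if ν w.1 = ν w.2 then 0 else if ν w.1 < ν w.2 then 1 else 2
  obtain ⟨V₁, V₂, hV₁, hV₂, hcard⟩ := h _ hU _ hU f
  have hI : ∀ V : Set (range C), Subtype.val '' V ∈ OmegaOf (OpenFam X) → ν '' V ∈ p := by
    intro V hV
    by_contra hnot
    have h1 : (ν '' V)ᶜ ∈ p := Ultrafilter.compl_mem_iff_notMem.2 hnot
    obtain ⟨x, hx⟩ := hbase _ h1
    obtain ⟨_, ⟨u, hu, rfl⟩, hxu⟩ := hV.2.2 {x} (finite_singleton x)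
    have h2 : x ∈ u.1 := hxu rfl
    rw [← hν u] at h2
    exact hx h2 ⟨u, hu, rfl⟩
  have hI12 : ν '' V₁ ∩ ν '' V₂ ∈ p := Filter.inter_mem (hI V₁ hV₁) (hI V₂ hV₂)
  have hinf : (ν '' V₁ ∩ ν '' V₂).Infinite := by
    intro hfin
    have h1 : (ν '' V₁ ∩ ν '' V₂)ᶜ ∈ p := hp (by rw [mem_cofinite, compl_compl]; exact hfin)
    exact Ultrafilter.compl_notMem_iff.2 hI12 h1
  obtain ⟨n, ⟨⟨u₁, hu₁, hn1⟩, ⟨v₁, hv₁, hn2⟩⟩⟩ := hinf.nonempty
  obtain ⟨n', ⟨⟨⟨u₂, hu₂, hn3⟩, ⟨v₂, hv₂, hn4⟩⟩, hlt⟩⟩ := hinf.exists_gt n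
  have h0 : (0 : Fin 3) ∈ f '' (V₁ ×ˢ V₂) := ⟨(u₁, v₁), ⟨hu₁, hv₁⟩, by
    change (if ν u₁ = ν v₁ then _ else _) = _
    rw [if_pos (by rw [hn1, hn2])]⟩
  have h1 : (1 : Fin 3) ∈ f '' (V₁ ×ˢ V₂) := ⟨(u₁, v₂), ⟨hu₁, hv₂⟩, by
    change (if ν u₁ = ν v₂ then (0 : Fin 3) else if ν u₁ < ν v₂ then 1 else 2) = 1
    rw [if_neg (by omega), if_pos (by omega)]⟩
  have h2 : (2 : Fin 3) ∈ f '' (V₁ ×ˢ V₂) := ⟨(u₂, v₁), ⟨hu₂, hv₁⟩, by
    change (if ν u₂ = ν v₁ then (0 : Fin 3) else if ν u₂ < ν v₁ then 1 else 2) = 2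
    rw [if_neg (by omega), if_neg (by omega)]⟩
  have h3 : f '' (V₁ ×ˢ V₂) = univ := by
    rw [eq_univ_iff_forall]
    intro c
    fin_cases c
    · exact h0
    · exact h1
    · exact h2
  rw [h3, Set.ncard_univ, Nat.card_eq_fintype_card, Fintype.card_fin] at hcard
  omega

theorem not_polar_dominating [T1Space X] {G : X → ℕ → ℕ} (hG : ∀ n m, IsOpen {x | G x n ≤ m})
    (hdom : ∀ f : ℕ → ℕ, ∃ x, ∀ᶠ n in atTop, f n ≤ G x n) :
    ¬ Polar (OmegaOf (OpenFam X)) 5 := by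
  classical
  intro h
  have hXinf : Infinite X := by
    by_contra hcon
    rw [not_infinite_iff_finite] at hcon
    have := Fintype.ofFinite X
    obtain ⟨x, hx⟩ := hdom (fun n => 1 + ∑ x, G x n)
    obtain ⟨n, hn⟩ := hx.exists
    have h1 : G x n ≤ ∑ x, G x n :=
      Finset.single_le_sum (f := fun x => G x n) (fun _ _ => Nat.zero_le _) (Finset.mem_univ x)
    omega
  let y : ℕ → X := Infinite.natEmbedding X
  have hy : Function.Injective y := (Infinite.natEmbedding X).injective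
  let O : ℕ × ℕ → Set X := fun r => {x | G x r.1 ≤ r.2} \ {y r.1}
  have hU : range O ∈ OmegaOf (OpenFam X) := by
    apply omega_of
    · rintro _ ⟨⟨n, m⟩, rfl⟩
      exact (hG n m).sdiff isClosed_singleton
    · rintro ⟨⟨n, m⟩, hn⟩
      have h1 : y n ∈ O (n, m) := by rw [hn]; trivial
      exact h1.2 rfl
    · intro F hF
      have h1 : ∃ n, y n ∉ F := by
        by_contra hcon
        push Not at hcon
        exact infinite_range_of_injective hy (hF.subset (by rintro _ ⟨n, rfl⟩; exact hcon n))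
      obtain ⟨n, hn⟩ := h1
      refine ⟨O (n, ∑ x ∈ hF.toFinset, G x n), mem_range_self _, fun x hx => ⟨?_, ?_⟩⟩
      · exact Finset.single_le_sum (f := fun x => G x n) (fun _ _ => Nat.zero_le _)
          (hF.mem_toFinset.2 hx)
      · rintro rfl
        exact hn hx
  choose ν hν using fun u : range O => u.2
  let f : range O × range O → Fin 5 := fun w =>
    if (ν w.1).1 = (ν w.2).1 then 0
    else if (ν w.1).1 < (ν w.2).1 then (if (ν w.1).2 ≤ (ν w.2).1 then 1 else 2)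
    else (if (ν w.2).2 ≤ (ν w.1).1 then 3 else 4)
  obtain ⟨V₁, V₂, hV₁, hV₂, hcard⟩ := h _ hU _ hU f
  have hcol : ∀ V : Set (range O), Subtype.val '' V ∈ OmegaOf (OpenFam X) →
      ∀ (N : ℕ) (S : Set X), S.Finite → ∃ u ∈ V, N < (ν u).1 ∧ S ⊆ u.1 := by
    intro V hV N S hS
    obtain ⟨_, ⟨u, hu, rfl⟩, hF⟩ := hV.2.2 (S ∪ y '' {i | i ≤ N}) (hS.union
      ((finite_le_nat N).image y))
    refine ⟨u, hu, ?_, subset_union_left.trans hF⟩
    by_contra hcon
    have h1 : y (ν u).1 ∈ u.1 := hF (Or.inr ⟨_, not_lt.1 hcon, rfl⟩)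
    have h2 : u.1 = O (ν u) := (hν u).symm
    rw [h2] at h1
    exact h1.2 rfl
  obtain ⟨u0, hu0, -⟩ := hcol V₁ hV₁ 0 ∅ finite_empty
  obtain ⟨v0, hv0, hv0n, -⟩ := hcol V₂ hV₂ (max (ν u0).1 (ν u0).2) ∅ finite_empty
  obtain ⟨u1, hu1, hu1n, -⟩ := hcol V₁ hV₁ (max (ν v0).1 (ν v0).2) ∅ finite_empty
  have hc1 : (1 : Fin 5) ∈ f '' (V₁ ×ˢ V₂) := ⟨(u0, v0), ⟨hu0, hv0⟩, by
    have h1 := lt_of_le_of_lt (le_max_left _ _) hv0n
    have h2 := lt_of_le_of_lt (le_max_right _ _) hv0n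
    change (if (ν u0).1 = (ν v0).1 then _ else _) = _
    rw [if_neg (by omega), if_pos h1, if_pos h2.le]⟩
  have hc3 : (3 : Fin 5) ∈ f '' (V₁ ×ˢ V₂) := ⟨(u1, v0), ⟨hu1, hv0⟩, by
    have h1 := lt_of_le_of_lt (le_max_left _ _) hu1n
    have h2 := lt_of_le_of_lt (le_max_right _ _) hu1n
    change (if (ν u1).1 = (ν v0).1 then (0 : Fin 5)
      else if (ν u1).1 < (ν v0).1 then (if (ν u1).2 ≤ (ν v0).1 then 1 else 2)
      else (if (ν v0).2 ≤ (ν u1).1 then 3 else 4)) = 3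
    rw [if_neg (by omega), if_neg (by omega), if_pos h2.le]⟩
  have hno2 : ∀ u ∈ V₁, ∀ v ∈ V₂, (ν u).1 < (ν v).1 → (ν u).2 ≤ (ν v).1 := by
    intro u hu v hv huv
    by_contra hcon
    have hc2 : (2 : Fin 5) ∈ f '' (V₁ ×ˢ V₂) := ⟨(u, v), ⟨hu, hv⟩, by
      change (if (ν u).1 = (ν v).1 then _ else _) = _
      rw [if_neg (by omega), if_pos huv, if_neg hcon]⟩
    have hsub : ({1, 2, 3} : Set (Fin 5)) ⊆ f '' (V₁ ×ˢ V₂) := by
      rintro c (rfl | rfl | rfl)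
      · exact hc1
      · exact hc2
      · exact hc3
    have h1 := Set.ncard_le_ncard hsub (Set.toFinite _)
    have h2 : ({1, 2, 3} : Set (Fin 5)).ncard = 3 := by
      rw [Set.ncard_eq_toFinset_card']
      rfl
    omega
  choose v hv1 hv2 using fun n => hcol V₂ hV₂ n ∅ finite_empty
  obtain ⟨x, hx⟩ := hdom (fun n => (ν (v n)).1 + 1)
  obtain ⟨N, hN⟩ := eventually_atTop.1 hx
  obtain ⟨u, hu, hun, hxu⟩ := hcol V₁ hV₁ N {x} (finite_singleton x)
  have h1 : x ∈ u.1 := hxu rfl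
  have h2 : u.1 = O (ν u) := (hν u).symm
  rw [h2] at h1
  have h3 : G x (ν u).1 ≤ (ν u).2 := h1.1
  have h4 := hN (ν u).1 hun.le
  have h5 := hno2 u hu (v (ν u).1) (hv1 _) (hv2 _).1
  omega

end

theorem exists_u : ∃ X : Set ℝ, Cardinal.mk X = uNumber ∧ ¬ PropP X := by
  classical
  have hne : {κ : Cardinal.{0} | ∃ (p : Ultrafilter ℕ) (B : Set (Set ℕ)), Cardinal.mk B = κ ∧
    (p : Filter ℕ) ≤ cofinite ∧ (∀ b ∈ B, b ∈ p) ∧ ∀ A ∈ p, ∃ b ∈ B, b ⊆ A}.Nonempty :=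
    ⟨_, hyperfilter ℕ, {A | A ∈ hyperfilter ℕ}, rfl, Filter.hyperfilter_le_cofinite, fun _ h => h,
      fun A hA => ⟨A, hA, subset_rfl⟩⟩
  obtain ⟨p, B, hB, hp, hBp, hbase⟩ := csInf_mem hne
  obtain ⟨g, hg⟩ := exists_embedding_Z
  let χ : Set ℕ → Z := fun A n => decide (n ∈ A)
  have hχ : Function.Injective χ := by
    intro A A' h
    ext n
    have h1 := congrFun h n
    simp only [χ, decide_eq_decide] at h1
    exact h1
  obtain ⟨e⟩ := homeo_image hg (χ '' B)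
  refine ⟨g '' (χ '' B), ?_, ?_⟩
  · rw [Cardinal.mk_image_eq hg.injective, Cardinal.mk_image_eq hχ]
    exact hB
  · intro h
    apply not_polar_ultra (X := (g '' (χ '' B) : Set ℝ))
      (b := fun x => {n | (e.symm x : Z) n = true}) (p := p) ?_ hp ?_ ?_ (h 3 (by norm_num))
    · intro n
      have h1 : Continuous (fun x : (g '' (χ '' B) : Set ℝ) => (e.symm x : Z) n) :=
        (continuous_apply n).comp (continuous_subtype_val.comp e.symm.continuous)
      exact (isOpen_discrete ({true} : Set Bool)).preimage h1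
    · intro x
      obtain ⟨A, hA, hAx⟩ := (e.symm x).2
      have h1 : {n | (e.symm x : Z) n = true} = A := by
        ext n
        rw [← hAx]
        simp [χ]
      rw [h1]
      exact hBp A hA
    · intro A hA
      obtain ⟨b, hb, hbA⟩ := hbase A hA
      refine ⟨e ⟨χ b, b, hb, rfl⟩, ?_⟩
      intro n hn
      apply hbA
      have h1 : (e.symm (e ⟨χ b, b, hb, rfl⟩) : Z) n = true := hn
      rw [Homeomorph.symm_apply_apply] at h1
      simpa [χ] using h1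

theorem exists_d : ∃ X : Set ℝ, Cardinal.mk X = dNumber ∧ ¬ PropP X := by
  classical
  have hne : {κ : Cardinal.{0} | ∃ D : Set (ℕ → ℕ), Cardinal.mk D = κ ∧
      ∀ f : ℕ → ℕ, ∃ g ∈ D, ∀ᶠ n in atTop, f n ≤ g n}.Nonempty :=
    ⟨_, univ, rfl, fun f => ⟨f, trivial, Eventually.of_forall (fun _ => le_rfl)⟩⟩
  obtain ⟨D, hD, hdom⟩ := csInf_mem hne
  obtain ⟨g, hg⟩ := exists_embedding_Z
  let χ : (ℕ → ℕ) → Z := fun f k => decide (f (Nat.unpair k).1 = (Nat.unpair k).2)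
  have hχv : ∀ f n j, χ f (Nat.pair n j) = true ↔ f n = j := by
    intro f n j
    simp [χ]
  have hχ : Function.Injective χ := by
    intro f f' h
    funext n
    have h1 := (hχv f n (f n)).2 rfl
    rw [h, hχv] at h1
    exact h1.symm
  obtain ⟨e⟩ := homeo_image hg (χ '' D)
  refine ⟨g '' (χ '' D), ?_, ?_⟩
  · rw [Cardinal.mk_image_eq hg.injective, Cardinal.mk_image_eq hχ]
    exact hD
  · intro h
    choose G hG1 hG2 using fun x : (g '' (χ '' D) : Set ℝ) => (e.symm x).2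
    apply not_polar_dominating (X := (g '' (χ '' D) : Set ℝ)) (G := G) ?_ ?_ (h 5 (by norm_num))
    · intro n m
      have h1 : {x : (g '' (χ '' D) : Set ℝ) | G x n ≤ m} =
          ⋃ j ∈ {j | j ≤ m}, {x | (e.symm x : Z) (Nat.pair n j) = true} := by
        ext x
        simp only [mem_ofPred_eq, mem_iUnion, exists_prop]
        constructor
        · intro h2
          refine ⟨G x n, h2, ?_⟩
          rw [← hG2 x, hχv]
        · rintro ⟨j, hj, h2⟩
          rw [← hG2 x, hχv] at h2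
          omega
      rw [h1]
      apply isOpen_biUnion
      intro j _
      have h2 : Continuous (fun x : (g '' (χ '' D) : Set ℝ) => (e.symm x : Z) (Nat.pair n j)) :=
        (continuous_apply _).comp (continuous_subtype_val.comp e.symm.continuous)
      exact (isOpen_discrete ({true} : Set Bool)).preimage h2
    · intro f
      obtain ⟨d, hd, hfd⟩ := hdom f
      refine ⟨e ⟨χ d, d, hd, rfl⟩, ?_⟩
      have h1 : G (e ⟨χ d, d, hd, rfl⟩) = d := by
        apply hχ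
        rw [hG2]
        rw [Homeomorph.symm_apply_apply]
      rw [h1]
      exact hfd

theorem nonP_eq : nonP = min dNumber uNumber := by
  obtain ⟨Xd, hd, hPd⟩ := exists_d
  obtain ⟨Xu, hu, hPu⟩ := exists_u
  apply le_antisymm
  · apply le_min
    · exact csInf_le' ⟨Xd, hd, hPd⟩
    · exact csInf_le' ⟨Xu, hu, hPu⟩
  · refine le_csInf (s := {κ | ∃ X : Set ℝ, Cardinal.mk X = κ ∧ ¬ PropP X})
      ⟨_, Xd, hd, hPd⟩ ?_
    rintro κ ⟨X, rfl, hX⟩
    by_contra hcon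
    apply hX
    intro k _
    rw [not_le, lt_min_iff] at hcon
    exact polar_small hcon.1 hcon.2 k

end Pool.Agent.Helper185.Pol
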