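import Pool.Agent.Helper185.SelCH

namespace Pool.Agent.Helper185.CH

set_option linter.unusedSectionVars false

open Set Filter Sel

section

variable {I : Type} [LinearOrder I] [WellFoundedLT I]

/-- the constructed set -/
def XSet (z : I → K) (b : I → ℕ → ℕ) : Set K :=
  FIN ∪ {x | ∃ i : I, x = restr (z i) (range (b i))}

theorem before_subset (z : I → K) (b : I → ℕ → ℕ) (i : I) :
    before z i (fun j _ => b j) ⊆ XSet z b := by
  rintro x (hx | ⟨j, _, hx⟩)
  · exact Or.inl hx
  · exact Or.inr ⟨j, hx⟩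

/-- the gamma-property for one sequence of tasks -/
theorem selection_of_task (z : I → K) (u : I → ℕ → ℕ → Set K) (b : I → ℕ → ℕ)
    (hb : ∀ i, Req z u i (fun j _ => b j) (b i)) (i : I) (hopen : ∀ n m, IsOpen (u i n m))
    (hω : ∀ n, ∀ F : Set K, F.Finite → F ⊆ XSet z b → ∃ m, F ⊆ u i n m) :
    ∃ f : ℕ → ℕ, ∀ x ∈ XSet z b, {k | x ∉ u i k (f k)}.Finite := by
  obtain ⟨hmono, hchain, htask⟩ := hb i
  obtain ⟨f, hf1, hf2⟩ := htask hopen
    (fun n F hF hFX => hω n F hF (hFX.trans (before_subset z b i)))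
  refine ⟨f, ?_⟩
  have hlate : ∀ j, i ≤ j → {k | restr (z j) (range (b j)) ∉ u i k (f k)}.Finite := by
    intro j hij
    have hfin : (range (b j) \ range (b i)).Finite := by
      rcases eq_or_lt_of_le hij with h | h
      · subst h
        rw [sdiff_self]
        exact finite_empty
      · exact (hb j).2.1 i h
    obtain ⟨M, hM⟩ := hfin.bddAbove
    apply (finite_lt_nat (M + 1)).subset
    intro k hk
    by_contra hkM
    apply hk
    apply hf2
    intro n hn1 hn2
    have hni : n ∉ range (b i) := by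
      rintro ⟨l, rfl⟩
      have h1 := hmono.lt_iff_lt.1 hn1
      have h2 := hmono.lt_iff_lt.1 hn2
      omega
    have hnj : n ∉ range (b j) := by
      intro hnj
      have h1 := hM ⟨hnj, hni⟩
      have h2 := hmono.le_apply (x := k)
      have h3 : M + 1 ≤ k := le_of_not_gt (fun h => hkM h)
      omega
    simp only [restr, if_neg hnj]
  rintro x (hx | ⟨j, rfl⟩)
  · exact hf1 x (Or.inl hx)
  · rcases lt_or_ge j i with h | h
    · exact hf1 _ (Or.inr ⟨j, h, rfl⟩)
    · exact hlate j h

/-- countable omega-refinement of an open omega-cover by open sets of the ambient space -/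
theorem exists_refinement {X : Set K} {U : Set (Set X)} (hU : U ∈ OmegaOf (OpenFam X)) :
    ∃ w : ℕ → Set K, (∀ m, IsOpen (w m)) ∧ (∀ m, ∃ v ∈ U, ∀ x : X, (x : K) ∈ w m → x ∈ v) ∧
      ∀ F : Set K, F.Finite → F ⊆ X → ∃ m, F ⊆ w m := by
  classical
  let Bs := TopologicalSpace.countableBasis K
  let S : Set (Set K) := {W | (∃ s : Set (Set K), s.Finite ∧ s ⊆ Bs ∧ W = ⋃₀ s) ∧
    ∃ v ∈ U, ∀ x : X, (x : K) ∈ W → x ∈ v}
  have hS : S.Countable := by
    have h1 : {s : Set (Set K) | s.Finite ∧ s ⊆ Bs}.Countable :=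
      Set.countable_ofPred_finite_subset (TopologicalSpace.countable_countableBasis K)
    apply (h1.image (fun s => ⋃₀ s)).mono
    rintro W ⟨⟨s, hs1, hs2, rfl⟩, -⟩
    exact ⟨s, ⟨hs1, hs2⟩, rfl⟩
  have hcov : ∀ F : Set K, F.Finite → F ⊆ X → ∃ W ∈ S, F ⊆ W := by
    intro F hF hFX
    obtain ⟨v, hv, hFv⟩ := hU.2.2 (Subtype.val ⁻¹' F) (hF.preimage Subtype.val_injective.injOn)
    obtain ⟨O, hO, hOv⟩ := isOpen_induced_iff.1 (hU.1 v hv)
    have hFO : F ⊆ O := by
      intro x hx
      have : (⟨x, hFX hx⟩ : X) ∈ v := hFv hx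
      rw [← hOv] at this
      exact this
    have hbas : ∀ x, ∃ c, x ∈ F → (c ∈ Bs ∧ x ∈ c ∧ c ⊆ O) := by
      intro x
      by_cases hx : x ∈ F
      · obtain ⟨c, hc, hxc, hcO⟩ :=
          (TopologicalSpace.isBasis_countableBasis K).exists_subset_of_mem_open (hFO hx) hO
        exact ⟨c, fun _ => ⟨hc, hxc, hcO⟩⟩
      · exact ⟨∅, fun h => absurd h hx⟩
    choose c hc using hbas
    refine ⟨⋃₀ (c '' F), ⟨⟨c '' F, hF.image c, ?_, rfl⟩, v, hv, ?_⟩, ?_⟩
    · rintro _ ⟨x, hx, rfl⟩
      exact (hc x hx).1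
    · rintro x ⟨_, ⟨y, hy, rfl⟩, hxy⟩
      rw [← hOv]
      exact (hc y hy).2.2 hxy
    · intro x hx
      exact ⟨c x, ⟨x, hx, rfl⟩, (hc x hx).2.1⟩
  have hne : S.Nonempty := by
    obtain ⟨W, hW, -⟩ := hcov ∅ finite_empty (empty_subset _)
    exact ⟨W, hW⟩
  obtain ⟨w, hw⟩ := hS.exists_eq_range hne
  have hwS : ∀ m, w m ∈ S := fun m => by rw [hw]; exact mem_range_self m
  refine ⟨w, ?_, fun m => (hwS m).2, ?_⟩
  · intro m
    obtain ⟨⟨s, _, hs, hws⟩, -⟩ := hwS m
    rw [hws]
    exact isOpen_sUnion (fun t ht => TopologicalSpace.isOpen_of_mem_countableBasis (hs ht))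
  · intro F hF hFX
    obtain ⟨W, hW, hFW⟩ := hcov F hF hFX
    rw [hw] at hW
    obtain ⟨m, rfl⟩ := hW
    exact ⟨m, hFW⟩

/-- the constructed set is a gamma-set if all tasks are enumerated -/
theorem gamma_of_tower (z : I → K) (u : I → ℕ → ℕ → Set K) (b : I → ℕ → ℕ)
    (hb : ∀ i, Req z u i (fun j _ => b j) (b i))
    (hall : ∀ w : ℕ → ℕ → Set K, (∀ n m, IsOpen (w n m)) → ∃ i, u i = w) :
    S1 (OmegaOf (OpenFam (XSet z b))) (GammaOf (OpenFam (XSet z b))) := by
  intro U hU
  have := fun n => exists_refinement (hU n)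
  choose w hwo hwU hwω using this
  obtain ⟨i, hi⟩ := hall w hwo
  obtain ⟨f, hf⟩ := selection_of_task z u b hb i (by rw [hi]; exact hwo) (by rw [hi]; exact hwω)
  rw [hi] at hf
  have hv := fun k => hwU k (f k)
  choose V hV hVw using hv
  refine ⟨V, hV, range_gamma (adm_open _) (fun n => (hU n).1) (fun n => (hU n).2.1.2) hV ?_⟩
  intro x
  apply (hf x x.2).subset
  intro k hk hx
  exact hk (hVw k x hx)

theorem single_mem_FIN (n : ℕ) (s : Fin (n + 2)) : (Function.update (0 : K) n s) ∈ FIN := by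
  refine mem_iUnion.2 ⟨n, ?_⟩
  intro m hm
  rw [Function.update_of_ne (by omega)]
  rfl

/-- the constructed set is not a strong gamma-set -/
theorem not_strong_of_tower (z : I → K) (b : I → ℕ → ℕ) (hb : ∀ i, StrictMono (b i))
    (hall : ∀ w : K, ∃ i, z i = w) :
    ¬ S1seq (NCovOf (OpenFam (XSet z b))) (GammaOf (OpenFam (XSet z b))) := by
  classical
  intro h
  let X := XSet z b
  let C : (n : ℕ) → Fin (n + 2) → Set X := fun n s => {x | (x : K) n ≠ s}
  have hsingle : ∀ (n : ℕ) (s : Fin (n + 2)), ∃ x : X, (x : K) = Function.update (0 : K) n s :=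
    fun n s => ⟨⟨_, Or.inl (single_mem_FIN n s)⟩, rfl⟩
  have hcov : ∀ n, range (C n) ∈ NCovOf (OpenFam X) n := by
    intro n
    have hkey : ∀ F : Finset X, F.card ≤ n + 1 → ∃ s, (F : Set X) ⊆ C n s := by
      intro F hF
      have : ∃ s : Fin (n + 2), s ∉ F.image (fun x : X => (x : K) n) := by
        by_contra hcon
        push Not at hcon
        have h1 : (Finset.univ : Finset (Fin (n + 2))) ⊆ F.image (fun x : X => (x : K) n) :=
          fun s _ => hcon s
        have h2 := Finset.card_le_card h1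
        have h3 := Finset.card_image_le (s := F) (f := fun x : X => (x : K) n)
        rw [Finset.card_univ, Fintype.card_fin] at h2
        omega
      obtain ⟨s, hs⟩ := this
      refine ⟨s, fun x hx hxs => hs ?_⟩
      exact Finset.mem_image.2 ⟨x, Finset.mem_coe.1 hx, hxs⟩
    refine ⟨?_, ⟨?_, ?_⟩, ?_⟩
    · rintro _ ⟨s, rfl⟩
      have : C n s = (fun x : X => (x : K) n) ⁻¹' {s}ᶜ := rfl
      rw [this]
      apply IsOpen.preimage
      · exact (continuous_apply n).comp continuous_subtype_val
      · exact isOpen_discrete _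
    · rw [eq_univ_iff_forall]
      intro x
      obtain ⟨s, hs⟩ := hkey {x} (by simp)
      exact ⟨_, ⟨s, rfl⟩, hs (by simp)⟩
    · rintro ⟨s, hs⟩
      obtain ⟨x, hx⟩ := hsingle n s
      have : x ∈ C n s := by rw [hs]; trivial
      apply this
      rw [hx, Function.update_self]
    · intro F hF
      obtain ⟨s, hs⟩ := hkey F (by omega)
      exact ⟨_, ⟨s, rfl⟩, hs⟩
  obtain ⟨V, hV, hVG⟩ := h (fun n => range (C n)) hcov
  choose s hs using hV
  have hinj : Function.Injective V := by
    intro n m hnm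
    by_contra hne
    -- a point equal to s n at n and different from s m at m
    obtain ⟨t, ht⟩ : ∃ t : Fin (m + 2), t ≠ s m := exists_ne _
    let x : K := Function.update (Function.update (0 : K) n (s n)) m t
    have hx : x ∈ FIN := by
      refine mem_iUnion.2 ⟨max n m, ?_⟩
      intro l hl
      have h1 : l ≠ m := by have := le_max_right n m; omega
      have h2 : l ≠ n := by have := le_max_left n m; omega
      simp only [x]
      rw [Function.update_of_ne h1, Function.update_of_ne h2]
      rfl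
    have h1 : (⟨x, Or.inl hx⟩ : X) ∉ V n := by
      rw [← hs n]
      intro hc
      apply hc
      change x n = s n
      simp only [x]
      rw [Function.update_of_ne hne, Function.update_self]
    have h2 : (⟨x, Or.inl hx⟩ : X) ∈ V m := by
      rw [← hs m]
      change x m ≠ s m
      simp only [x]
      rw [Function.update_self]
      exact ht
    exact h1 (hnm ▸ h2)
  obtain ⟨i, hi⟩ := hall (fun n => s n)
  let x : X := ⟨restr (z i) (range (b i)), Or.inr ⟨i, rfl⟩⟩
  apply (infinite_range_of_injective (hinj.comp (hb i).injective))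
  apply (hVG.2.2.2 x).subset
  rintro _ ⟨k, rfl⟩
  refine ⟨mem_range_self _, ?_⟩
  change x ∉ V (b i k)
  rw [← hs (b i k)]
  intro hc
  apply hc
  change restr (z i) (range (b i)) (b i k) = s (b i k)
  simp only [restr]
  rw [if_pos (mem_range_self k), hi]

end

theorem mk_open_le : Cardinal.mk {s : Set K // IsOpen s} ≤ Cardinal.continuum := by
  let Bs := TopologicalSpace.countableBasis K
  let φ : {s : Set K // IsOpen s} → Set Bs := fun s => {c | (c : Set K) ⊆ s.1}
  have hφ : Function.Injective φ := by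
    have key : ∀ s t : {s : Set K // IsOpen s}, φ s = φ t → s.1 ⊆ t.1 := by
      intro s t hst x hx
      obtain ⟨c, hc, hxc, hcs⟩ :=
        (TopologicalSpace.isBasis_countableBasis K).exists_subset_of_mem_open hx s.2
      have h1 : (⟨c, hc⟩ : Bs) ∈ φ s := hcs
      rw [hst] at h1
      exact h1 hxc
    intro s t hst
    exact Subtype.ext (Subset.antisymm (key s t hst) (key t s hst.symm))
  have h1 := Cardinal.mk_le_of_injective hφ
  have h2 : Cardinal.mk (Set Bs) ≤ Cardinal.continuum := by
    rw [Cardinal.mk_set, ← Cardinal.two_power_aleph0]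
    apply Cardinal.power_le_power_left two_ne_zero
    exact Cardinal.le_aleph0_iff_set_countable.2 (TopologicalSpace.countable_countableBasis K)
  exact h1.trans h2

theorem mk_K_le : Cardinal.mk K ≤ Cardinal.continuum := by
  have hφ : Function.Injective (fun (x : K) (n : ℕ) => (x n : ℕ)) := by
    intro x y hxy
    funext n
    exact Fin.ext (congrFun hxy n)
  have h1 := Cardinal.mk_le_of_injective hφ
  have h2 : Cardinal.mk (ℕ → ℕ) = Cardinal.continuum := by simp
  exact h1.trans h2.le

theorem mk_task_le : Cardinal.mk (K × (ℕ → ℕ → {s : Set K // IsOpen s})) ≤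
    Cardinal.continuum := by
  rw [Cardinal.mk_prod, Cardinal.lift_id, Cardinal.lift_id]
  have h1 : Cardinal.mk (ℕ → ℕ → {s : Set K // IsOpen s}) ≤ Cardinal.continuum := by
    have h2 : Cardinal.mk (ℕ → {s : Set K // IsOpen s}) ≤ Cardinal.continuum := by
      rw [← Cardinal.power_def, Cardinal.mk_nat]
      calc Cardinal.mk {s : Set K // IsOpen s} ^ Cardinal.aleph0
          ≤ Cardinal.continuum ^ Cardinal.aleph0 := Cardinal.power_le_power_right mk_open_le
        _ = Cardinal.continuum := Cardinal.continuum_power_aleph0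
    rw [← Cardinal.power_def, Cardinal.mk_nat]
    calc Cardinal.mk (ℕ → {s : Set K // IsOpen s}) ^ Cardinal.aleph0
        ≤ Cardinal.continuum ^ Cardinal.aleph0 := Cardinal.power_le_power_right h2
      _ = Cardinal.continuum := Cardinal.continuum_power_aleph0
  calc Cardinal.mk K * Cardinal.mk (ℕ → ℕ → {s : Set K // IsOpen s})
      ≤ Cardinal.continuum * Cardinal.continuum := mul_le_mul' mk_K_le h1
    _ = Cardinal.continuum := Cardinal.continuum_mul_self

/-- Under the continuum hypothesis there is a well-order enumerating all tasks. -/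
theorem exists_enumeration (hCH : Cardinal.aleph 1 = Cardinal.continuum.{0}) :
    ∃ (I : Type) (_ : LinearOrder I) (_ : WellFoundedLT I), (∀ i : I, (Iio i).Countable) ∧
      ∃ (z : I → K) (u : I → ℕ → ℕ → Set K),
        ∀ (x : K) (w : ℕ → ℕ → Set K), (∀ n m, IsOpen (w n m)) → ∃ i, z i = x ∧ u i = w := by
  classical
  let I : Type := (Cardinal.aleph 1).ord.ToType
  refine ⟨I, inferInstance, inferInstance, ?_, ?_⟩
  · intro i
    rw [← Cardinal.le_aleph0_iff_set_countable, ← Cardinal.lt_aleph_one_iff]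
    exact Cardinal.mk_Iio_toType_ord_lt i
  · let T : Type := K × (ℕ → ℕ → {s : Set K // IsOpen s})
    have hT : Cardinal.mk T ≤ Cardinal.mk I := by
      have hI : Cardinal.mk I = Cardinal.continuum := by
        rw [← hCH]
        exact Cardinal.mk_ord_toType _
      rw [hI]
      exact mk_task_le
    obtain ⟨g⟩ := (Cardinal.le_def T I).1 hT
    have : Nonempty T := ⟨(0, fun _ _ => ⟨univ, isOpen_univ⟩)⟩
    have hsurj : Function.Surjective (Function.invFun g) := Function.invFun_surjective g.injective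
    refine ⟨fun i => (Function.invFun g i).1, fun i n m => ((Function.invFun g i).2 n m).1, ?_⟩
    intro x w hw
    obtain ⟨i, hi⟩ := hsurj (x, fun n m => ⟨w n m, hw n m⟩)
    refine ⟨i, ?_, ?_⟩
    · change (Function.invFun g i).1 = x
      rw [hi]
    · change (fun n m => ((Function.invFun g i).2 n m).1) = w
      rw [hi]

/-- Under the continuum hypothesis some subset of `K` is a gamma-set but not a strong
gamma-set. -/
theorem exists_gamma_not_strong_K (hCH : Cardinal.aleph 1 = Cardinal.continuum.{0}) :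
    ∃ X : Set K, S1 (OmegaOf (OpenFam X)) (GammaOf (OpenFam X)) ∧
      ¬ S1seq (NCovOf (OpenFam X)) (GammaOf (OpenFam X)) := by
  obtain ⟨I, _, _, hI, z, u, hzu⟩ := exists_enumeration hCH
  obtain ⟨b, hb⟩ := exists_tower hI z u
  refine ⟨XSet z b, gamma_of_tower z u b hb ?_, not_strong_of_tower z b (fun i => (hb i).1) ?_⟩
  · intro w hw
    obtain ⟨i, _, hi⟩ := hzu 0 w hw
    exact ⟨i, hi⟩
  · intro x
    obtain ⟨i, hi, _⟩ := hzu x (fun _ _ => univ) (fun _ _ => isOpen_univ)
    exact ⟨i, hi⟩

end Pool.Agent.Helper185.CH
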