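import Pool.Agent.Helper185.SelCH2

namespace Pool.Agent.Helper185.CH

set_option linter.unusedSectionVars false

open Set Filter Sel

theorem exists_embedding_K : ∃ g : K → ℝ, Topology.IsEmbedding g := by
  classical
  let f : K → (ℕ → ℕ → Bool) := fun x n k => decide ((x n : ℕ) = k)
  have hf : Continuous f := by
    apply continuous_pi
    intro n
    apply continuous_pi
    intro k
    have h1 : Continuous (fun x : K => x n) := continuous_apply n
    have h2 : Continuous (fun a : Fin (n + 2) => decide ((a : ℕ) = k)) :=
      continuous_of_discreteTopology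
    exact h2.comp h1
  have hinj : Function.Injective f := by
    intro x y hxy
    funext n
    have h1 := congrFun (congrFun hxy n) (x n : ℕ)
    simp only [f, decide_true] at h1
    have h2 : (y n : ℕ) = (x n : ℕ) := by simpa using h1.symm
    exact Fin.ext h2.symm
  have he : Topology.IsEmbedding f := (hf.isClosedEmbedding hinj).isEmbedding
  refine ⟨fun x => ((cantorSetHomeomorphNatToBool.symm
    (cantorSpaceHomeomorphNatToCantorSpace.symm (f x)) : cantorSet) : ℝ), ?_⟩
  exact Topology.IsEmbedding.subtypeVal.comp
    (cantorSetHomeomorphNatToBool.symm.isEmbedding.comp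
      (cantorSpaceHomeomorphNatToCantorSpace.symm.isEmbedding.comp he))

/-- Under the continuum hypothesis some set of reals is a gamma-set but not a strong
gamma-set. -/
theorem exists_gamma_not_strong (hCH : Cardinal.aleph 1 = Cardinal.continuum.{0}) :
    ∃ A : Set ℝ, S1 (OmegaOf (OpenFam A)) (GammaOf (OpenFam A)) ∧
      ¬ S1seq (NCovOf (OpenFam A)) (GammaOf (OpenFam A)) := by
  obtain ⟨X, hX1, hX2⟩ := exists_gamma_not_strong_K hCH
  obtain ⟨g, hg⟩ := exists_embedding_K
  have hgX : Topology.IsEmbedding (fun x : X => g x) := hg.comp Topology.IsEmbedding.subtypeVal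
  let e : X ≃ₜ range (fun x : X => g x) := hgX.toHomeomorph
  refine ⟨range (fun x : X => g x), ?_, fun h => hX2 ?_⟩
  · exact s1_transport e (fun U hU => pull_omega e hU) (fun U hU => pull_gamma e.symm hU) hX1
  · exact s1seq_transport e.symm (fun n U hU => pull_ncov e.symm hU)
      (fun U hU => pull_gamma e hU) h

/-- Under the continuum hypothesis some set of reals satisfies `S₁(Ω, T)` but not
`S₁((O_n)_n, T)`. -/
theorem exists_omega_tau_not_strong (hCH : Cardinal.aleph 1 = Cardinal.continuum.{0}) :
    ∃ A : Set ℝ, S1 (OmegaOf (OpenFam A)) (TauOf (OpenFam A)) ∧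
      ¬ S1seq (NCovOf (OpenFam A)) (TauOf (OpenFam A)) :=
  strict_iff.2 (exists_gamma_not_strong hCH)

end Pool.Agent.Helper185.CH
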