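import Pool.Agent.Helper185.SelMore

namespace Pool.Agent.Helper185.Sel

set_option linter.unusedSectionVars false

open Set

/-- the open subset of `X` attached to a subset `u` of `Y` and a set `D` of reals -/
def lift {X Y : Set ℝ} (D : Set ℝ) (u : Set Y) : Set X :=
  {x | (x : ℝ) ∉ D ∨ ∃ h : (x : ℝ) ∈ Y, (⟨x, h⟩ : Y) ∈ u}

theorem lift_gamma {X Y D : Set ℝ} (hDY : D ⊆ Y) (hDX : D ⊆ X)
    (hD : IsClosed {x : X | (x : ℝ) ∈ D}) {U : Set (Set Y)} (hU : U ∈ GammaOf (OpenFam Y))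
    (hne : ∀ u ∈ U, ∃ y : Y, (y : ℝ) ∈ D ∧ y ∉ u) :
    (lift D '' U : Set (Set X)) ∈ GammaOf (OpenFam X) := by
  refine gamma_of_seq ?_ ?_ ?_ ?_
  · rintro _ ⟨u, hu, rfl⟩
    obtain ⟨O, hO, hOu⟩ := isOpen_induced_iff.1 (hU.1 u hu)
    have : (lift D u : Set X) = {x : X | (x : ℝ) ∈ D}ᶜ ∪ (Subtype.val ⁻¹' O) := by
      ext x
      simp only [lift, mem_ofPred_eq, mem_union, mem_compl_iff, mem_preimage]
      constructor
      · rintro (h | ⟨h, hxu⟩)
        · exact Or.inl h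
        · right
          rw [← hOu] at hxu
          exact hxu
      · rintro (h | h)
        · exact Or.inl h
        · by_cases hxD : (x : ℝ) ∈ D
          · right
            refine ⟨hDY hxD, ?_⟩
            rw [← hOu]
            exact h
          · exact Or.inl hxD
    rw [this]
    exact hD.isOpen_compl.union (hO.preimage continuous_subtype_val)
  · rintro ⟨u, hu, huniv⟩
    obtain ⟨y, hyD, hyu⟩ := hne u hu
    have : (⟨y, hDX hyD⟩ : X) ∈ (lift D u : Set X) := by rw [huniv]; trivial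
    rcases this with h | ⟨h, hyu'⟩
    · exact h hyD
    · exact hyu hyu'
  · apply infinite_image_of_witness hU.2.2.1 hU.2.2.2
    rintro w ⟨u0, hu0, rfl⟩
    obtain ⟨y, hyD, hyu⟩ := hne u0 hu0
    refine ⟨y, fun u _ huw hyu' => ?_⟩
    have h1 : (⟨y, hDX hyD⟩ : X) ∈ (lift D u : Set X) := Or.inr ⟨y.2, hyu'⟩
    rw [huw] at h1
    rcases h1 with h | ⟨h, hyu''⟩
    · exact h hyD
    · exact hyu hyu''
  · intro x
    by_cases hxD : (x : ℝ) ∈ D
    · apply ((hU.2.2.2 ⟨x, hDY hxD⟩).image (lift D)).subset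
      rintro _ ⟨⟨u, hu, rfl⟩, hx⟩
      refine ⟨u, ⟨hu, fun h => hx ?_⟩, rfl⟩
      exact Or.inr ⟨hDY hxD, h⟩
    · have : {w | w ∈ (lift D '' U : Set (Set X)) ∧ x ∉ w} = ∅ := by
        rw [eq_empty_iff_forall_notMem]
        rintro _ ⟨⟨u, hu, rfl⟩, hx⟩
        exact hx (Or.inl hxD)
      rw [this]; exact finite_empty

theorem closed_accum {X : Set ℝ} {K : ℕ → Set ℝ} (hK : ∀ k, IsClosed (K k)) (k : ℕ) :
    IsClosed {x : X | (x : ℝ) ∈ X ∩ ⋃ i ∈ {i | i ≤ k}, K i} := by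
  have : {x : X | (x : ℝ) ∈ X ∩ ⋃ i ∈ {i | i ≤ k}, K i} =
      Subtype.val ⁻¹' (⋃ i ∈ {i | i ≤ k}, K i) := by
    ext x
    simp only [mem_ofPred_eq, mem_inter_iff, mem_preimage]
    exact ⟨fun h => h.2, fun h => ⟨x.2, h⟩⟩
  rw [this]
  exact ((finite_le_nat k).isClosed_biUnion (fun i _ => hK i)).preimage continuous_subtype_val

theorem finite_in_accum {X : Set ℝ} {K : ℕ → Set ℝ} {F : Set (X ∩ ⋃ k, K k : Set ℝ)}
    (hF : F.Finite) : ∃ k, ∀ y ∈ F, (y : ℝ) ∈ X ∩ ⋃ i ∈ {i | i ≤ k}, K i := by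
  induction F, hF using Set.Finite.induction_on with
  | empty => exact ⟨0, fun y hy => absurd hy (notMem_empty y)⟩
  | @insert a S haS hS ih =>
    obtain ⟨k, hk⟩ := ih
    obtain ⟨i, hi⟩ := mem_iUnion.1 a.2.2
    refine ⟨max i k, ?_⟩
    rintro y (rfl | hy)
    · refine ⟨y.2.1, ?_⟩
      simp only [mem_iUnion]
      have hle : i ≤ max i k := le_max_left _ _
      exact ⟨i, hle, hi⟩
    · obtain ⟨h1, h2⟩ := hk y hy
      refine ⟨h1, ?_⟩
      simp only [mem_iUnion] at h2 ⊢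
      obtain ⟨j, hj, hyj⟩ := h2
      have hj' : j ≤ k := hj
      have hle : j ≤ max i k := hj'.trans (le_max_right _ _)
      exact ⟨j, hle, hyj⟩

/-- `S₁(Γ, Ω)` is hereditary for `F_σ` subsets. -/
theorem s1_gamma_omega_fsigma (X : Set ℝ) (K : ℕ → Set ℝ) (hK : ∀ k, IsClosed (K k))
    (h : S1 (GammaOf (OpenFam X)) (OmegaOf (OpenFam X))) :
    S1 (GammaOf (OpenFam (X ∩ ⋃ k, K k : Set ℝ))) (OmegaOf (OpenFam (X ∩ ⋃ k, K k : Set ℝ))) := by
  classical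
  intro U hU
  let D : ℕ → Set ℝ := fun k => X ∩ ⋃ i ∈ {i | i ≤ k}, K i
  have hDY : ∀ k, D k ⊆ X ∩ ⋃ k, K k := by
    rintro k x ⟨hx, hxk⟩
    refine ⟨hx, ?_⟩
    simp only [mem_iUnion] at hxk ⊢
    obtain ⟨i, _, hi⟩ := hxk
    exact ⟨i, hi⟩
  have key : ∀ k, ∃ V : ℕ → Set (X ∩ ⋃ k, K k : Set ℝ), (∀ j, V j ∈ U (Nat.pair k j)) ∧
      ∀ F : Set (X ∩ ⋃ k, K k : Set ℝ), F.Finite → (∀ y ∈ F, (y : ℝ) ∈ D k) →
        ∃ j, F ⊆ V j := by
    intro k
    by_cases hc : ∃ j, ∃ u ∈ U (Nat.pair k j), ∀ y : (X ∩ ⋃ k, K k : Set ℝ), (y : ℝ) ∈ D k → y ∈ u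
    · obtain ⟨j0, u0, hu0, hDu0⟩ := hc
      have hne : ∀ j, ∃ u, u ∈ U (Nat.pair k j) := fun j => (hU _).2.2.1.nonempty
      choose v hv using hne
      refine ⟨fun j => if j = j0 then u0 else v j, ?_, ?_⟩
      · intro j
        by_cases hj : j = j0
        · simp only [if_pos hj]; rw [hj]; exact hu0
        · simp only [if_neg hj]; exact hv j
      · intro F _ hFD
        refine ⟨j0, ?_⟩
        simp only [if_true]
        exact fun y hy => hDu0 y (hFD y hy)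
    · push Not at hc
      obtain ⟨W, hW, hWO⟩ := h (fun j => lift (D k) '' U (Nat.pair k j)) (fun j =>
        lift_gamma (hDY k) inter_subset_left (closed_accum hK k) (hU _) (hc j))
      choose V hV hVW using hW
      refine ⟨V, hV, ?_⟩
      intro F hF hFD
      let F' : Set X := (fun y => (⟨y.1, y.2.1⟩ : X)) '' F
      obtain ⟨w, ⟨j, rfl⟩, hFw⟩ := hWO.2.2 F' (hF.image _)
      refine ⟨j, ?_⟩
      intro y hy
      have : (⟨y.1, y.2.1⟩ : X) ∈ W j := hFw ⟨y, hy, rfl⟩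
      rw [← hVW j] at this
      rcases this with h | ⟨h, hyV⟩
      · exact absurd (hFD y hy) h
      · exact hyV
  choose V hV hVF using key
  refine ⟨fun n => V (Nat.unpair n).1 (Nat.unpair n).2, ?_, ?_, ⟨?_, ?_⟩, ?_⟩
  · intro n
    have := hV (Nat.unpair n).1 (Nat.unpair n).2
    rwa [Nat.pair_unpair] at this
  · rintro _ ⟨n, rfl⟩
    exact (hU _).1 _ (hV _ _)
  · rw [eq_univ_iff_forall]
    intro y
    obtain ⟨k, hk⟩ := finite_in_accum (F := {y}) (finite_singleton y)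
    obtain ⟨j, hj⟩ := hVF k {y} (finite_singleton y) hk
    refine ⟨V k j, ⟨Nat.pair k j, by simp⟩, hj rfl⟩
  · rintro ⟨n, hn⟩
    have := hV (Nat.unpair n).1 (Nat.unpair n).2
    have hn' : V (Nat.unpair n).1 (Nat.unpair n).2 = univ := hn
    rw [hn'] at this
    exact (hU _).2.1.2 this
  · intro F hF
    obtain ⟨k, hk⟩ := finite_in_accum hF
    obtain ⟨j, hj⟩ := hVF k F hF hk
    exact ⟨V k j, ⟨Nat.pair k j, by simp⟩, hj⟩

/-- `S_fin(Γ, Ω)` is hereditary for `F_σ` subsets. -/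
theorem sfin_gamma_omega_fsigma (X : Set ℝ) (K : ℕ → Set ℝ) (hK : ∀ k, IsClosed (K k))
    (h : Sfin (GammaOf (OpenFam X)) (OmegaOf (OpenFam X))) :
    Sfin (GammaOf (OpenFam (X ∩ ⋃ k, K k : Set ℝ)))
      (OmegaOf (OpenFam (X ∩ ⋃ k, K k : Set ℝ))) := by
  classical
  intro U hU
  let D : ℕ → Set ℝ := fun k => X ∩ ⋃ i ∈ {i | i ≤ k}, K i
  have hDY : ∀ k, D k ⊆ X ∩ ⋃ k, K k := by
    rintro k x ⟨hx, hxk⟩
    refine ⟨hx, ?_⟩
    simp only [mem_iUnion] at hxk ⊢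
    obtain ⟨i, _, hi⟩ := hxk
    exact ⟨i, hi⟩
  have key : ∀ k, ∃ V : ℕ → Set (Set (X ∩ ⋃ k, K k : Set ℝ)),
      (∀ j, (V j).Finite ∧ V j ⊆ U (Nat.pair k j)) ∧
      ∀ F : Set (X ∩ ⋃ k, K k : Set ℝ), F.Finite → (∀ y ∈ F, (y : ℝ) ∈ D k) →
        ∃ j, ∃ v ∈ V j, F ⊆ v := by
    intro k
    by_cases hc : ∃ j, ∃ u ∈ U (Nat.pair k j), ∀ y : (X ∩ ⋃ k, K k : Set ℝ), (y : ℝ) ∈ D k → y ∈ u
    · obtain ⟨j0, u0, hu0, hDu0⟩ := hc
      refine ⟨fun j => if j = j0 then {u0} else ∅, ?_, ?_⟩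
      · intro j
        by_cases hj : j = j0
        · simp only [if_pos hj]
          refine ⟨finite_singleton _, ?_⟩
          rw [hj]
          exact singleton_subset_iff.2 hu0
        · simp only [if_neg hj]
          exact ⟨finite_empty, empty_subset _⟩
      · intro F _ hFD
        refine ⟨j0, u0, ?_, fun y hy => hDu0 y (hFD y hy)⟩
        simp
    · push Not at hc
      obtain ⟨W, hW, hWO⟩ := h (fun j => lift (D k) '' U (Nat.pair k j)) (fun j =>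
        lift_gamma (hDY k) inter_subset_left (closed_accum hK k) (hU _) (hc j))
      have hpre : ∀ j, ∃ V : Set (Set (X ∩ ⋃ k, K k : Set ℝ)), V.Finite ∧
          V ⊆ U (Nat.pair k j) ∧ ∀ w ∈ W j, ∃ v ∈ V, lift (D k) v = w := by
        intro j
        have hfin := (hW j).1
        have hsub := (hW j).2
        have hch : ∀ w : Set X, ∃ v : Set (X ∩ ⋃ k, K k : Set ℝ), w ∈ W j →
            v ∈ U (Nat.pair k j) ∧ lift (D k) v = w := by
          intro w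
          by_cases hw : w ∈ W j
          · obtain ⟨v, hv, hvw⟩ := hsub hw
            exact ⟨v, fun _ => ⟨hv, hvw⟩⟩
          · exact ⟨∅, fun h => absurd h hw⟩
        choose c hc' using hch
        refine ⟨c '' W j, hfin.image c, ?_, ?_⟩
        · rintro _ ⟨w, hw, rfl⟩
          exact (hc' w hw).1
        · intro w hw
          exact ⟨c w, ⟨w, hw, rfl⟩, (hc' w hw).2⟩
      choose V hVfin hVU hVW using hpre
      refine ⟨V, fun j => ⟨hVfin j, hVU j⟩, ?_⟩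
      intro F hF hFD
      let F' : Set X := (fun y => (⟨y.1, y.2.1⟩ : X)) '' F
      obtain ⟨w, hw, hFw⟩ := hWO.2.2 F' (hF.image _)
      obtain ⟨j, hj⟩ := mem_iUnion.1 hw
      obtain ⟨v, hv, hvw⟩ := hVW j w hj
      refine ⟨j, v, hv, ?_⟩
      intro y hy
      have : (⟨y.1, y.2.1⟩ : X) ∈ w := hFw ⟨y, hy, rfl⟩
      rw [← hvw] at this
      rcases this with h | ⟨h, hyV⟩
      · exact absurd (hFD y hy) h
      · exact hyV
  choose V hV hVF using key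
  refine ⟨fun n => V (Nat.unpair n).1 (Nat.unpair n).2, ?_, ?_, ⟨?_, ?_⟩, ?_⟩
  · intro n
    have := hV (Nat.unpair n).1 (Nat.unpair n).2
    rwa [Nat.pair_unpair] at this
  · intro v hv
    obtain ⟨n, hn⟩ := mem_iUnion.1 hv
    exact (hU _).1 _ ((hV _ _).2 hn)
  · rw [eq_univ_iff_forall]
    intro y
    obtain ⟨k, hk⟩ := finite_in_accum (F := {y}) (finite_singleton y)
    obtain ⟨j, v, hv, hj⟩ := hVF k {y} (finite_singleton y) hk
    refine ⟨v, mem_iUnion.2 ⟨Nat.pair k j, by simpa using hv⟩, hj rfl⟩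
  · intro hv
    obtain ⟨n, hn⟩ := mem_iUnion.1 hv
    exact (hU _).2.1.2 ((hV _ _).2 hn)
  · intro F hF
    obtain ⟨k, hk⟩ := finite_in_accum hF
    obtain ⟨j, v, hv, hj⟩ := hVF k F hF hk
    exact ⟨v, mem_iUnion.2 ⟨Nat.pair k j, by simpa using hv⟩, hj⟩

end Pool.Agent.Helper185.Sel
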