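import Pool.Agent.Helper185.SelMore

namespace Pool.Agent.Helper185.Sel

set_option linter.unusedSectionVars false

open Set

section

variable {X : Type*} [TopologicalSpace X]

/-- The Hurewicz property, from goodness of the space. -/
theorem hurewicz_of_good [SecondCountableTopology X] (h : Good (OpenFam X) univ)
    (U : ℕ → Set (Set X)) (hU : ∀ n, (∀ u ∈ U n, IsOpen u) ∧ ⋃₀ U n = univ) :
    ∃ F : ℕ → Set (Set X), (∀ n, (F n).Finite ∧ F n ⊆ U n) ∧
      ∀ x, {n | x ∉ ⋃₀ F n}.Finite := by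
  classical
  rcases isEmpty_or_nonempty X with hX | ⟨⟨x0⟩⟩
  · exact ⟨fun _ => ∅, fun n => ⟨finite_empty, empty_subset _⟩, fun x => (IsEmpty.false x).elim⟩
  have hcount : ∀ n, ∃ t : ℕ → Set X, (∀ i, t i ∈ U n) ∧ ⋃ i, t i = univ := by
    intro n
    obtain ⟨T, hT, hTU, hTc⟩ := TopologicalSpace.isOpen_sUnion_countable (U n) (hU n).1
    rw [(hU n).2] at hTc
    have hne : T.Nonempty := by
      have : x0 ∈ ⋃₀ T := by rw [hTc]; trivial
      obtain ⟨u, hu, -⟩ := this
      exact ⟨u, hu⟩
    obtain ⟨t, ht⟩ := hT.exists_eq_range hne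
    refine ⟨t, fun i => hTU (by rw [ht]; exact mem_range_self i), ?_⟩
    rw [← hTc, ht, sUnion_range]
  choose t htU htc using hcount
  let W : ℕ → ℕ → Set X := fun n k => ⋃ i ∈ {i | i ≤ k}, t n i
  have hWo : ∀ n k, IsOpen (W n k) := fun n k =>
    isOpen_biUnion (fun i _ => (hU n).1 _ (htU n i))
  have hWx : ∀ n x, {k | x ∉ W n k}.Finite := by
    intro n x
    have : x ∈ ⋃ i, t n i := by rw [htc]; trivial
    obtain ⟨i, hi⟩ := mem_iUnion.1 this
    apply (finite_lt_nat i).subset
    intro k hk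
    by_contra hik
    apply hk
    simp only [W, mem_iUnion]
    have hle : i ≤ k := le_of_not_gt (fun h => hik h)
    exact ⟨i, hle, hi⟩
  let N : Set ℕ := {n | ∀ k, W n k ≠ univ}
  have hWF : ∀ n k, ∃ F : Set (Set X), F.Finite ∧ F ⊆ U n ∧ ⋃₀ F = W n k := by
    intro n k
    refine ⟨t n '' {i | i ≤ k}, (finite_le_nat k).image _, ?_, ?_⟩
    · rintro _ ⟨i, _, rfl⟩; exact htU n i
    · simp only [sUnion_image, W]
  choose F hFfin hFU hFW using hWF
  by_cases hN : N.Nonempty
  · obtain ⟨n0, hn0⟩ := hN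
    let e : ℕ → ℕ := fun n => if n ∈ N then n else n0
    have he : ∀ n, e n ∈ N := by
      intro n
      by_cases hn : n ∈ N
      · simp only [e, if_pos hn]; exact hn
      · simp only [e, if_neg hn]; exact hn0
    obtain ⟨V, hV, hVx⟩ := h (fun n => range (W (e n))) (fun n =>
      range_gamma (adm_open X) (U := fun k => {W (e n) k})
        (fun k u hu => by rw [mem_singleton_iff] at hu; rw [hu]; exact hWo _ _)
        (fun k hk => (he n) k (mem_singleton_iff.1 hk).symm) (fun k => rfl) (hWx (e n)))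
    choose k hk using hV
    have hk0 : ∀ n, ∃ k', n ∉ N → W n k' = univ := by
      intro n
      by_cases hn : n ∈ N
      · exact ⟨0, fun h => absurd hn h⟩
      · simp only [N, mem_ofPred_eq, not_forall, not_not] at hn
        obtain ⟨k', hk'⟩ := hn
        exact ⟨k', fun _ => hk'⟩
    choose k0 hk0 using hk0
    refine ⟨fun n => if n ∈ N then F n (k n) else F n (k0 n), ?_, ?_⟩
    · intro n
      by_cases hn : n ∈ N
      · simp only [if_pos hn]; exact ⟨hFfin _ _, hFU _ _⟩
      · simp only [if_neg hn]; exact ⟨hFfin _ _, hFU _ _⟩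
    · intro x
      apply (hVx x trivial).subset
      intro n hn
      by_cases hnN : n ∈ N
      · simp only [mem_ofPred_eq, if_pos hnN, hFW] at hn
        intro hx
        apply hn
        have h1 := hk n
        simp only [e, if_pos hnN] at h1
        rw [h1]; exact hx
      · simp only [mem_ofPred_eq, if_neg hnN, hFW, hk0 n hnN] at hn
        exact absurd trivial hn
  · have hk0 : ∀ n, ∃ k', W n k' = univ := by
      intro n
      by_contra hcon
      push Not at hcon
      exact hN ⟨n, hcon⟩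
    choose k0 hk0 using hk0
    refine ⟨fun n => F n (k0 n), fun n => ⟨hFfin _ _, hFU _ _⟩, ?_⟩
    intro x
    have : {n | x ∉ ⋃₀ F n (k0 n)} = ∅ := by
      rw [eq_empty_iff_forall_notMem]
      intro n hn
      simp only [mem_ofPred_eq, hFW, hk0] at hn
      exact hn trivial
    rw [this]; exact finite_empty

theorem hurewicz_of_s1_omega_tau [SecondCountableTopology X] [T2Space X]
    (h : S1 (OmegaOf (OpenFam X)) (TauOf (OpenFam X)))
    (U : ℕ → Set (Set X)) (hU : ∀ n, (∀ u ∈ U n, IsOpen u) ∧ ⋃₀ U n = univ) :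
    ∃ F : ℕ → Set (Set X), (∀ n, (F n).Finite ∧ F n ⊆ U n) ∧
      ∀ x, {n | x ∉ ⋃₀ F n}.Finite := by
  rcases isEmpty_or_nonempty X with hX | hX
  · exact ⟨fun _ => ∅, fun n => ⟨finite_empty, empty_subset _⟩, fun x => (IsEmpty.false x).elim⟩
  · exact hurewicz_of_good
      (good_of_s1_tau_tau (adm_open X) (s1_tau_tau_of_s1_omega_tau h)) U hU

/-- the finite power lemma -/
theorem exists_open_pow {k : ℕ} {F : Set X} (hF : F.Finite) {U : Set (Fin k → X)}
    (hU : IsOpen U) (hFU : ∀ f : Fin k → X, (∀ i, f i ∈ F) → f ∈ U) :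
    ∃ V : Set X, IsOpen V ∧ F ⊆ V ∧ ∀ g : Fin k → X, (∀ i, g i ∈ V) → g ∈ U := by
  classical
  have hbox : ∀ f : Fin k → X, ∃ O : Fin k → Set X, (∀ i, IsOpen (O i)) ∧
      (∀ i, f i ∈ O i) ∧ ((∀ i, f i ∈ F) → ∀ g : Fin k → X, (∀ i, g i ∈ O i) → g ∈ U) := by
    intro f
    by_cases hf : ∀ i, f i ∈ F
    · have hfU := hFU f hf
      obtain ⟨I, O, hO, hOU⟩ := isOpen_pi_iff.1 hU f hfU
      refine ⟨fun i => if i ∈ I then O i else univ, ?_, ?_, ?_⟩
      · intro i
        by_cases hi : i ∈ I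
        · simp only [if_pos hi]; exact (hO i hi).1
        · simp only [if_neg hi]; exact isOpen_univ
      · intro i
        by_cases hi : i ∈ I
        · simp only [if_pos hi]; exact (hO i hi).2
        · simp only [if_neg hi]; trivial
      · intro _ g hg
        apply hOU
        intro i hi
        have := hg i
        simp only [if_pos (Finset.mem_coe.1 hi)] at this
        exact this
    · exact ⟨fun _ => univ, fun _ => isOpen_univ, fun _ => trivial, fun h => absurd h hf⟩
  choose O hO hfO hOU using hbox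
  have hfin : {f : Fin k → X | ∀ i, f i ∈ F}.Finite := by
    have := Set.Finite.pi' (ι := Fin k) (t := fun _ => F) (fun _ => hF)
    exact this
  refine ⟨⋃ x ∈ F, ⋂ f ∈ {f : Fin k → X | ∀ i, f i ∈ F}, ⋂ i ∈ {i | f i = x}, O f i, ?_, ?_, ?_⟩
  · apply isOpen_biUnion
    intro x _
    apply hfin.isOpen_biInter
    intro f _
    apply (Set.toFinite _).isOpen_biInter
    intro i _
    exact hO f i
  · intro x hx
    simp only [mem_iUnion]
    refine ⟨x, hx, ?_⟩
    simp only [mem_iInter]
    rintro f _ i hi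
    have : f i = x := hi
    rw [← this]
    exact hfO f i
  · intro g hg
    simp only [mem_iUnion] at hg
    choose x hx hgx using hg
    apply hOU x hx
    intro i
    have := hgx i
    simp only [mem_iInter] at this
    exact this x hx i rfl

/-- `S₁(Ω, Γ)` is preserved by finite powers. -/
theorem s1_omega_gamma_pow {k : ℕ} (h : S1 (OmegaOf (OpenFam X)) (GammaOf (OpenFam X))) :
    S1 (OmegaOf (OpenFam (Fin k → X))) (GammaOf (OpenFam (Fin k → X))) := by
  intro U hU
  let P : ℕ → Set (Set X) := fun n => {V | IsOpen V ∧ ∃ u ∈ U n, ∀ g : Fin k → X,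
    (∀ i, g i ∈ V) → g ∈ u}
  have hP : ∀ n, P n ∈ OmegaOf (OpenFam X) := by
    intro n
    have hfin : ∀ F : Set X, F.Finite → ∃ V ∈ P n, F ⊆ V := by
      intro F hF
      have hfin : {f : Fin k → X | ∀ i, f i ∈ F}.Finite :=
        Set.Finite.pi' (ι := Fin k) (t := fun _ => F) (fun _ => hF)
      obtain ⟨u, hu, hFu⟩ := (hU n).2.2 _ hfin
      obtain ⟨V, hV, hFV, hVu⟩ := exists_open_pow hF ((hU n).1 u hu) (fun f hf => hFu hf)
      exact ⟨V, ⟨hV, u, hu, hVu⟩, hFV⟩
    refine ⟨fun V hV => hV.1, ⟨?_, ?_⟩, hfin⟩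
    · rw [eq_univ_iff_forall]
      intro x
      obtain ⟨V, hV, hx⟩ := hfin {x} (finite_singleton x)
      exact ⟨V, hV, hx rfl⟩
    · rintro ⟨_, u, hu, huniv⟩
      apply (hU n).2.1.2
      have : u = univ := by
        rw [eq_univ_iff_forall]
        intro g
        exact huniv g (fun _ => trivial)
      exact this ▸ hu
  obtain ⟨V, hV, hVx⟩ := s1_omega_gamma_index (interClosed_open X) h hP
  choose _ S hSU hVS using hV
  refine ⟨S, hSU, range_gamma (adm_open _) (fun n => (hU n).1) (fun n => (hU n).2.1.2) hSU ?_⟩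
  intro g
  apply (Set.finite_iUnion (fun i : Fin k => hVx (g i))).subset
  intro n hn
  by_contra hcon
  simp only [mem_iUnion, mem_ofPred_eq, not_exists, not_not] at hcon
  exact hn (hVS n g hcon)

/-- `S₁(Ω, T)` is preserved by finite powers. -/
theorem s1_omega_tau_pow [SecondCountableTopology X] [T2Space X] {k : ℕ}
    (h : S1 (OmegaOf (OpenFam X)) (TauOf (OpenFam X))) :
    S1 (OmegaOf (OpenFam (Fin k → X))) (TauOf (OpenFam (Fin k → X))) :=
  (s1_omega_gamma_pow (s1_omega_gamma_of_s1_omega_tau (adm_open X) (interClosed_open X)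
    h)).mono_right gamma_sub_tau

end

end Pool.Agent.Helper185.Sel
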