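import Pool.Agent.Helper185.SelTransport

namespace Pool.Agent.Helper185.Sel

set_option linter.unusedSectionVars false

open Set

section

variable {Y : Type*} [TopologicalSpace Y]

/-- in an infinite space an `n`-cover contains each set of at most `n` points in a member -/
theorem ncov_le [Infinite Y] {G : Set (Set (Set Y))} {n : ℕ} {U : Set (Set Y)}
    (hU : U ∈ NCovOf G n) {F : Finset Y} (hF : F.card ≤ n) : ∃ u ∈ U, (F : Set Y) ⊆ u := by
  obtain ⟨F', hFF', hF'⟩ := Infinite.exists_superset_card_eq F n hF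
  obtain ⟨u, hu, hFu⟩ := hU.2.2 F' hF'
  exact ⟨u, hu, fun x hx => hFu (hFF' hx)⟩

/-- the refined families -/
def refFam (U : ℕ → Set (Set Y)) (y : ℕ → Y) (m : ℕ) : Set (Set Y) :=
  {A | IsOpen A ∧ (∀ n, 2 * m ≤ n → n < 2 * m + 4 → ∃ u ∈ U n, A ⊆ u) ∧ (∀ i < m, y i ∈ A) ∧
    ∃ i, y i ∉ A}

theorem refFam_ne_univ {U : ℕ → Set (Set Y)} {y : ℕ → Y} {m : ℕ} {A : Set Y}
    (hA : A ∈ refFam U y m) : A ≠ univ := by
  rintro rfl
  obtain ⟨-, -, -, i, hi⟩ := hA
  exact hi trivial

theorem refFam_cover [Infinite Y] [T1Space Y] {U : ℕ → Set (Set Y)}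
    (hU : ∀ n, U n ∈ NCovOf (OpenFam Y) n) {y : ℕ → Y} (hy : Function.Injective y) {m : ℕ}
    {F : Finset Y} (hF : F.card ≤ m) : ∃ A ∈ refFam U y m, (F : Set Y) ⊆ A := by
  classical
  let F' : Finset Y := F ∪ (Finset.range m).image y
  have hF' : F'.card ≤ 2 * m := by
    have h1 := Finset.card_union_le F ((Finset.range m).image y)
    have h2 : ((Finset.range m).image y).card ≤ m := by
      have := Finset.card_image_le (s := Finset.range m) (f := y)
      simpa using this
    change (F ∪ (Finset.range m).image y).card ≤ 2 * m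
    omega
  have hn : ∀ n, ∃ u, 2 * m ≤ n → u ∈ U n ∧ (F' : Set Y) ⊆ u := by
    intro n
    by_cases hmn : 2 * m ≤ n
    · obtain ⟨u, hu, hFu⟩ := ncov_le (hU n) (hF'.trans hmn)
      exact ⟨u, fun _ => ⟨hu, hFu⟩⟩
    · exact ⟨∅, fun h => absurd h hmn⟩
  choose u hu using hn
  -- an index outside F'
  obtain ⟨i, hi⟩ : ∃ i, y i ∉ F' := by
    by_contra hcon
    push Not at hcon
    have : (range y).Finite := F'.finite_toSet.subset (by
      rintro _ ⟨i, rfl⟩
      exact Finset.mem_coe.2 (hcon i))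
    exact infinite_range_of_injective hy this
  refine ⟨(⋂ n ∈ Finset.Ico (2 * m) (2 * m + 4), u n) ∩ {y i}ᶜ, ⟨?_, ?_, ?_, i, ?_⟩, ?_⟩
  · apply IsOpen.inter
    · apply isOpen_biInter_finset
      intro n hn
      have := Finset.mem_Ico.1 hn
      exact (hU n).1 _ (hu n this.1).1
    · exact isOpen_compl_singleton
  · intro n h1 h2
    refine ⟨u n, (hu n h1).1, ?_⟩
    intro x hx
    have := hx.1
    simp only [mem_iInter] at this
    exact this n (Finset.mem_Ico.2 ⟨h1, h2⟩)
  · intro j hj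
    have hjF : y j ∈ F' := by
      apply Finset.mem_union_right
      exact Finset.mem_image_of_mem _ (Finset.mem_range.2 hj)
    refine ⟨?_, ?_⟩
    · simp only [mem_iInter]
      intro n hn
      exact (hu n (Finset.mem_Ico.1 hn).1).2 (Finset.mem_coe.2 hjF)
    · intro h
      rw [mem_singleton_iff] at h
      exact hi (h ▸ hjF)
  · intro h
    exact h.2 rfl
  · intro x hx
    have hxF : x ∈ F' := Finset.mem_union_left _ (Finset.mem_coe.1 hx)
    refine ⟨?_, ?_⟩
    · simp only [mem_iInter]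
      intro n hn
      exact (hu n (Finset.mem_Ico.1 hn).1).2 (Finset.mem_coe.2 hxF)
    · intro h
      rw [mem_singleton_iff] at h
      exact hi (h ▸ hxF)

/-- a selection from the refined families is finite-to-one -/
theorem refFam_fibers {U : ℕ → Set (Set Y)} {y : ℕ → Y} (A : Set Y) :
    {m | A ∈ refFam U y m}.Finite := by
  by_cases h : ∃ i, y i ∉ A
  · obtain ⟨i, hi⟩ := h
    apply (finite_le_nat i).subset
    intro m hm
    by_contra hmi
    exact hi (hm.2.2.1 i (lt_of_not_ge (fun h => hmi h)))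
  · have : {m | A ∈ refFam U y m} = ∅ := by
      rw [eq_empty_iff_forall_notMem]
      intro m hm
      exact h hm.2.2.2
    rw [this]; exact finite_empty

/-- the copy of `A` on one side and everything on the other side -/
def side (p : Prop) (A : Set Y) : Set (Y ⊕ Y) :=
  {z | (∀ x, z = Sum.inl x → p → x ∈ A) ∧ (∀ x, z = Sum.inr x → ¬ p → x ∈ A)}

theorem inl_mem_side {p : Prop} {A : Set Y} {x : Y} : Sum.inl x ∈ side p A ↔ (p → x ∈ A) := by
  simp [side]

theorem inr_mem_side {p : Prop} {A : Set Y} {x : Y} : Sum.inr x ∈ side p A ↔ (¬ p → x ∈ A) := by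
  simp [side]

theorem isOpen_side {p : Prop} {A : Set Y} (hA : IsOpen A) : IsOpen (side p A) := by
  rw [isOpen_sum_iff]
  by_cases hp : p
  · constructor
    · have : Sum.inl ⁻¹' (side p A) = A := by
        ext x; simp [inl_mem_side, hp]
      rw [this]; exact hA
    · have : Sum.inr ⁻¹' (side p A) = univ := by
        ext x; simp [inr_mem_side, hp]
      rw [this]; exact isOpen_univ
  · constructor
    · have : Sum.inl ⁻¹' (side p A) = univ := by
        ext x; simp [inl_mem_side, hp]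
      rw [this]; exact isOpen_univ
    · have : Sum.inr ⁻¹' (side p A) = A := by
        ext x; simp [inr_mem_side, hp]
      rw [this]; exact hA

theorem side_injective {p : Prop} : Function.Injective (side p : Set Y → Set (Y ⊕ Y)) := by
  intro A B h
  ext x
  by_cases hp : p
  · have := congrArg (fun s => Sum.inl x ∈ s) h
    simpa [inl_mem_side, hp] using this
  · have := congrArg (fun s => Sum.inr x ∈ s) h
    simpa [inr_mem_side, hp] using this

theorem side_ne_univ {p : Prop} {A : Set Y} (hA : A ≠ univ) : side p A ≠ univ := by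
  intro h
  apply hA
  apply side_injective (p := p)
  rw [h]
  symm
  rw [eq_univ_iff_forall]
  rintro (x | x)
  · exact inl_mem_side.2 (fun _ => trivial)
  · exact inr_mem_side.2 (fun _ => trivial)

/-- If the double of `Y` satisfies `S₁((O_n)_n, T)` then `Y` satisfies `S₁((O_n)_n, Γ)`. -/
theorem strong_of_double [T1Space Y]
    (h : S1seq (NCovOf (OpenFam (Y ⊕ Y))) (TauOf (OpenFam (Y ⊕ Y)))) :
    S1seq (NCovOf (OpenFam Y)) (GammaOf (OpenFam Y)) := by
  classical
  intro U hU
  rcases finite_or_infinite Y with hfin | hinf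
  · -- finite spaces have no `card`-covers
    have := Fintype.ofFinite Y
    obtain ⟨u, hu, hFu⟩ := (hU (Fintype.card Y)).2.2 Finset.univ rfl
    exfalso
    apply (hU (Fintype.card Y)).2.1.2
    have : u = univ := by
      rw [eq_univ_iff_forall]
      intro x
      exact hFu (Finset.mem_coe.2 (Finset.mem_univ x))
    exact this ▸ hu
  obtain ⟨y, hy⟩ : ∃ y : ℕ → Y, Function.Injective y :=
    ⟨Infinite.natEmbedding Y, (Infinite.natEmbedding Y).injective⟩
  -- the covers of the double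
  let W : ℕ → Set (Set (Y ⊕ Y)) := fun m => side (m % 2 = 0) '' refFam U y (m + 1)
  have hW : ∀ m, W m ∈ NCovOf (OpenFam (Y ⊕ Y)) m := by
    intro m
    have hcov : ∀ F : Finset (Y ⊕ Y), F.card ≤ m + 1 →
        ∃ w ∈ W m, (F : Set (Y ⊕ Y)) ⊆ w := by
      intro F hF
      let F1 : Finset Y := F.image (Sum.elim id id)
      have hF1 : F1.card ≤ m + 1 := Finset.card_image_le.trans hF
      obtain ⟨A, hA, hFA⟩ := refFam_cover hU hy hF1
      refine ⟨side (m % 2 = 0) A, ⟨A, hA, rfl⟩, ?_⟩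
      rintro (x | x) hx
      · refine inl_mem_side.2 (fun _ => hFA ?_)
        exact Finset.mem_coe.2 (Finset.mem_image.2 ⟨_, Finset.mem_coe.1 hx, rfl⟩)
      · refine inr_mem_side.2 (fun _ => hFA ?_)
        exact Finset.mem_coe.2 (Finset.mem_image.2 ⟨_, Finset.mem_coe.1 hx, rfl⟩)
    refine ⟨?_, ⟨?_, ?_⟩, fun F hF => hcov F (by omega)⟩
    · rintro _ ⟨A, hA, rfl⟩
      exact isOpen_side hA.1
    · rw [eq_univ_iff_forall]
      intro z
      obtain ⟨w, hw, hz⟩ := hcov {z} (by simp)
      exact ⟨w, hw, hz (by simp)⟩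
    · rintro ⟨A, hA, hAu⟩
      exact side_ne_univ (refFam_ne_univ hA) hAu
  obtain ⟨V, hV, hVT⟩ := h W hW
  choose A hA hAV using hV
  have hVfib : ∀ a, (V ⁻¹' {a}).Finite := by
    intro a
    by_cases ha : ∃ m, V m = a
    · obtain ⟨m0, rfl⟩ := ha
      have h1 : V ⁻¹' {V m0} ⊆
          ((fun m => m + 1) ⁻¹' {m | Sum.inl ⁻¹' (V m0) ∈ refFam U y m}) ∪
          ((fun m => m + 1) ⁻¹' {m | Sum.inr ⁻¹' (V m0) ∈ refFam U y m}) := by
        intro m hm
        rw [mem_preimage, mem_singleton_iff] at hm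
        by_cases hp : m % 2 = 0
        · left
          rw [mem_preimage, mem_ofPred_eq, ← hm, ← hAV]
          have : Sum.inl ⁻¹' (side (m % 2 = 0) (A m)) = A m := by
            ext x; simp [inl_mem_side, hp]
          rw [this]; exact hA m
        · right
          rw [mem_preimage, mem_ofPred_eq, ← hm, ← hAV]
          have : Sum.inr ⁻¹' (side (m % 2 = 0) (A m)) = A m := by
            ext x; simp [inr_mem_side, hp]
          rw [this]; exact hA m
      refine Finite.subset (Finite.union ?_ ?_) h1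
      · exact (refFam_fibers _).preimage (fun a _ b _ hab => by simpa using hab)
      · exact (refFam_fibers _).preimage (fun a _ b _ hab => by simpa using hab)
    · have : V ⁻¹' {a} = ∅ := by
        rw [eq_empty_iff_forall_notMem]
        intro m hm
        exact ha ⟨m, hm⟩
      rw [this]; exact finite_empty
  -- one of the two parities is pointwise cofinite
  have hcase : (∀ x, {m | m % 2 = 0 ∧ x ∉ A m}.Finite) ∨ (∀ x, {m | m % 2 ≠ 0 ∧ x ∉ A m}.Finite) := by
    by_contra hcon
    push Not at hcon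
    obtain ⟨⟨x, hx⟩, ⟨z, hz⟩⟩ := hcon
    have himg : ∀ S : Set ℕ, S.Infinite → (V '' S).Infinite :=
      fun S hS => infinite_image_of_fibers hS hVfib
    rcases hVT.2.2.2 (Sum.inl x) (Sum.inr z) with hf | hf
    · apply himg _ hz
      apply hf.subset
      rintro _ ⟨m, ⟨hm, hzm⟩, rfl⟩
      refine ⟨mem_range_self m, ?_, ?_⟩
      · rw [← hAV]; exact inl_mem_side.2 (fun h => absurd h hm)
      · rw [← hAV, inr_mem_side]; exact fun h => hzm (h hm)
    · apply himg _ hx
      apply hf.subset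
      rintro _ ⟨m, ⟨hm, hxm⟩, rfl⟩
      refine ⟨mem_range_self m, ?_, ?_⟩
      · rw [← hAV]; exact inr_mem_side.2 (fun h => absurd hm h)
      · rw [← hAV, inl_mem_side]; exact fun h => hxm (h hm)
  -- conclude for one parity
  have hconc : ∀ (e : ℕ → ℕ), (∀ n, 4 ≤ n → 2 * (e n + 1) ≤ n ∧ n < 2 * (e n + 1) + 4) →
      (∀ x, {n | 4 ≤ n ∧ x ∉ A (e n)}.Finite) →
      ∃ S : ℕ → Set Y, (∀ n, S n ∈ U n) ∧ range S ∈ GammaOf (OpenFam Y) := by
    intro e he hx
    have hex : ∀ n, ∃ u ∈ U n, 4 ≤ n → A (e n) ⊆ u := by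
      intro n
      by_cases hn : 4 ≤ n
      · obtain ⟨u, hu, hAu⟩ := (hA (e n)).2.1 n (he n hn).1 (he n hn).2
        exact ⟨u, hu, fun _ => hAu⟩
      · have := (hU n).2.1.1
        obtain ⟨u, hu, -⟩ : y 0 ∈ ⋃₀ U n := by rw [this]; trivial
        exact ⟨u, hu, fun h => absurd h hn⟩
    choose S hS hAS using hex
    refine ⟨S, hS, range_gamma (adm_open Y) (fun n => (hU n).1) (fun n => (hU n).2.1.2) hS ?_⟩
    intro x
    apply ((hx x).union (finite_lt_nat 4)).subset
    intro n hn
    by_cases h4 : 4 ≤ n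
    · exact Or.inl ⟨h4, fun h => hn (hAS n h4 h)⟩
    · exact Or.inr (not_le.1 h4)
  have hfinpre : ∀ (e : ℕ → ℕ) (S : Set ℕ), S.Finite →
      (∀ n, 4 ≤ n → n < 2 * (e n + 1) + 4) → {n | 4 ≤ n ∧ e n ∈ S}.Finite := by
    intro e S hS he
    obtain ⟨K, hK⟩ := hS.bddAbove
    apply (finite_lt_nat (2 * (K + 1) + 4)).subset
    rintro n ⟨h4, hn⟩
    have h1 := hK hn
    have h2 := he n h4
    have : n < 2 * (K + 1) + 4 := by omega
    exact this
  rcases hcase with hc | hc
  · refine hconc (fun n => 2 * ((n - 2) / 4)) (fun n hn => by constructor <;> omega) ?_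
    intro x
    apply (hfinpre (fun n => 2 * ((n - 2) / 4)) _ (hc x) (fun n hn => by omega)).subset
    rintro n ⟨h4, hn⟩
    refine ⟨h4, ?_, hn⟩
    omega
  · refine hconc (fun n => 2 * ((n - 4) / 4) + 1) (fun n hn => by constructor <;> omega) ?_
    intro x
    apply (hfinpre (fun n => 2 * ((n - 4) / 4) + 1) _ (hc x) (fun n hn => by omega)).subset
    rintro n ⟨h4, hn⟩
    refine ⟨h4, ?_, hn⟩
    omega

/-- `S₁(Ω, Γ)` passes to the double. -/
theorem s1_omega_gamma_double (h : S1 (OmegaOf (OpenFam Y)) (GammaOf (OpenFam Y))) :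
    S1 (OmegaOf (OpenFam (Y ⊕ Y))) (GammaOf (OpenFam (Y ⊕ Y))) := by
  intro U hU
  let P : ℕ → Set (Set Y) := fun n => {V | IsOpen V ∧ ∃ u ∈ U n,
    (∀ x ∈ V, Sum.inl x ∈ u) ∧ (∀ x ∈ V, Sum.inr x ∈ u)}
  have hP : ∀ n, P n ∈ OmegaOf (OpenFam Y) := by
    intro n
    have hfin : ∀ F : Set Y, F.Finite → ∃ V ∈ P n, F ⊆ V := by
      intro F hF
      obtain ⟨u, hu, hFu⟩ := (hU n).2.2 (Sum.inl '' F ∪ Sum.inr '' F)
        ((hF.image _).union (hF.image _))
      have huo := isOpen_sum_iff.1 ((hU n).1 u hu)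
      refine ⟨Sum.inl ⁻¹' u ∩ Sum.inr ⁻¹' u, ⟨huo.1.inter huo.2, u, hu, fun x hx => hx.1,
        fun x hx => hx.2⟩, fun x hx => ⟨hFu (Or.inl ⟨x, hx, rfl⟩), hFu (Or.inr ⟨x, hx, rfl⟩)⟩⟩
    refine ⟨fun V hV => hV.1, ⟨?_, ?_⟩, hfin⟩
    · rw [eq_univ_iff_forall]
      intro x
      obtain ⟨V, hV, hx⟩ := hfin {x} (finite_singleton x)
      exact ⟨V, hV, hx rfl⟩
    · rintro ⟨_, u, hu, h1, h2⟩
      apply (hU n).2.1.2
      have : u = univ := by
        rw [eq_univ_iff_forall]
        rintro (x | x)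
        · exact h1 x trivial
        · exact h2 x trivial
      exact this ▸ hu
  obtain ⟨V, hV, hVx⟩ := s1_omega_gamma_index (interClosed_open Y) h hP
  choose _ S hSU hS1 hS2 using hV
  refine ⟨S, hSU, range_gamma (adm_open _) (fun n => (hU n).1) (fun n => (hU n).2.1.2) hSU ?_⟩
  rintro (x | x)
  · apply (hVx x).subset
    intro n hn hx
    exact hn (hS1 n x hx)
  · apply (hVx x).subset
    intro n hn hx
    exact hn (hS2 n x hx)

end

theorem isEmbedding_sumElim {A B : Type*} [TopologicalSpace A] [TopologicalSpace B]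
    {i j : A → B} (hi : Topology.IsEmbedding i) (hj : Topology.IsEmbedding j) {P Q : Set B}
    (hP : IsOpen P) (hQ : IsOpen Q) (hPQ : Disjoint P Q) (hiP : ∀ a, i a ∈ P)
    (hjQ : ∀ a, j a ∈ Q) : Topology.IsEmbedding (Sum.elim i j) := by
  refine ⟨⟨?_⟩, ?_⟩
  · apply le_antisymm
    · exact continuous_iff_le_induced.1 (hi.continuous.sumElim hj.continuous)
    · intro s hs
      have hs' := isOpen_sum_iff.1 hs
      obtain ⟨O1, hO1, h1⟩ := hi.isOpen_iff.1 hs'.1
      obtain ⟨O2, hO2, h2⟩ := hj.isOpen_iff.1 hs'.2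
      refine isOpen_induced_iff.2 ⟨(O1 ∩ P) ∪ (O2 ∩ Q), (hO1.inter hP).union (hO2.inter hQ), ?_⟩
      ext z
      rcases z with a | a
      · have h3 : i a ∉ Q := Set.disjoint_left.1 hPQ (hiP a)
        have h4 : i a ∈ O1 ↔ Sum.inl a ∈ s := by
          have := congrArg (fun t => a ∈ t) h1
          simpa using this
        simp [h3, h4, hiP a]
      · have h3 : j a ∉ P := Set.disjoint_right.1 hPQ (hjQ a)
        have h4 : j a ∈ O2 ↔ Sum.inr a ∈ s := by
          have := congrArg (fun t => a ∈ t) h2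
          simpa using this
        simp [h3, h4, hjQ a]
  · rintro (a | a) (b | b) hab
    · simp only [Sum.elim_inl] at hab
      rw [hi.injective hab]
    · simp only [Sum.elim_inl, Sum.elim_inr] at hab
      exact absurd (hjQ b) (hab ▸ Set.disjoint_left.1 hPQ (hiP a))
    · simp only [Sum.elim_inl, Sum.elim_inr] at hab
      exact absurd (hjQ a) (hab ▸ Set.disjoint_left.1 hPQ (hiP b))
    · simp only [Sum.elim_inr] at hab
      rw [hj.injective hab]

/-- the double of a set of reals, as a set of reals -/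
theorem exists_double (A : Set ℝ) : ∃ B : Set ℝ, Nonempty ((A ⊕ A) ≃ₜ B) := by
  have h1 : Topology.IsEmbedding (fun a : A => Real.exp (a : ℝ)) :=
    Real.isOpenEmbedding_exp.isEmbedding.comp Topology.IsEmbedding.subtypeVal
  have h2 : Topology.IsEmbedding (fun a : A => - Real.exp (a : ℝ)) :=
    (Homeomorph.neg ℝ).isEmbedding.comp h1
  have h := isEmbedding_sumElim h1 h2 (P := Ioi 0) (Q := Iio 0) isOpen_Ioi isOpen_Iio
    (by
      rw [Set.disjoint_left]
      intro x hx hx'
      rw [mem_Ioi] at hx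
      rw [mem_Iio] at hx'
      linarith)
    (fun a => Real.exp_pos _) (fun a => by
      rw [mem_Iio]; linarith [Real.exp_pos (a : ℝ)])
  exact ⟨_, ⟨h.toHomeomorph⟩⟩

/-- Consistency transfer: there is a set of reals with `S₁(Ω, T)` and without
`S₁((O_n)_n, T)` if and only if there is a set of reals with the gamma-property and without
the strong gamma-property. -/
theorem strict_iff :
    (∃ A : Set ℝ, S1 (OmegaOf (OpenFam A)) (TauOf (OpenFam A)) ∧
      ¬ S1seq (NCovOf (OpenFam A)) (TauOf (OpenFam A))) ↔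
    (∃ A : Set ℝ, S1 (OmegaOf (OpenFam A)) (GammaOf (OpenFam A)) ∧
      ¬ S1seq (NCovOf (OpenFam A)) (GammaOf (OpenFam A))) := by
  constructor
  · rintro ⟨A, h1, h2⟩
    refine ⟨A, s1_omega_gamma_of_s1_omega_tau (adm_open A) (interClosed_open A) h1, fun h => h2 ?_⟩
    intro U hU
    obtain ⟨V, hV, hVG⟩ := h U hU
    exact ⟨V, hV, gamma_sub_tau hVG⟩
  · rintro ⟨A, h1, h2⟩
    obtain ⟨B, ⟨e⟩⟩ := exists_double A
    refine ⟨B, ?_, fun h => h2 ?_⟩
    · have hd := s1_omega_gamma_double h1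
      exact (s1_transport e (fun U hU => pull_omega e hU)
        (fun U hU => pull_gamma e.symm hU) hd).mono_right gamma_sub_tau
    · exact strong_of_double (s1seq_transport e.symm (fun n U hU => pull_ncov e.symm hU)
        (fun U hU => pull_tau e hU) h)

end Pool.Agent.Helper185.Sel
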