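import Pool.Agent.Helper185.SilverReal

namespace Pool.Agent.Helper185.Silver

set_option linter.unusedSectionVars false

open Set Filter Topology Pool.Agent.Helper185.Sel

section

variable {X : Type*} {G : Set (Set (Set X))}

theorem gamma_sub_omega : GammaOf G ⊆ OmegaOf G := by
  rintro U ⟨h1, h2, h3, h4⟩
  refine ⟨h1, h2, ?_⟩
  intro F hF
  by_contra hcon
  push Not at hcon
  apply h3
  apply (hF.biUnion (fun x _ => h4 x)).subset
  intro u hu
  obtain ⟨x, hx, hxu⟩ := not_subset.1 (hcon u hu)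
  exact mem_biUnion hx ⟨hu, hxu⟩

theorem omega_sub_cov : OmegaOf G ⊆ CovOf G := fun _ h => ⟨h.1, h.2.1⟩

theorem Sfin.mono_right {A B C : Set (Set (Set X))} (h : Sfin A B) (hBC : B ⊆ C) :
    Sfin A C := by
  intro U hU
  obtain ⟨F, hF, hFB⟩ := h U hU
  exact ⟨F, hF, hBC hFB⟩

theorem Sfin.mono_left {A B C : Set (Set (Set X))} (h : Sfin A B) (hCA : C ⊆ A) :
    Sfin C B := fun U hU => h U (fun n => hCA (hU n))

theorem sfin_of_s1 {A B : Set (Set (Set X))} (h : S1 A B) : Sfin A B := by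
  intro U hU
  obtain ⟨V, hV, hVB⟩ := h U hU
  refine ⟨fun n => {V n}, fun n => ⟨finite_singleton _, singleton_subset_iff.2 (hV n)⟩, ?_⟩
  have : (⋃ n, ({V n} : Set (Set X))) = range V := by
    ext u
    simp only [mem_iUnion, mem_singleton_iff, mem_range]
    exact ⟨fun ⟨n, hn⟩ => ⟨n, hn.symm⟩, fun ⟨n, hn⟩ => ⟨n, hn.symm⟩⟩
  rw [this]
  exact hVB

end

/-- finite powers -/
theorem powers (hCH : Cardinal.aleph 1 = Cardinal.continuum.{0}) :
    ∃ X : Set ℝ,
      (S1 (OmegaOf (BorelFam X)) (GammaOf (BorelFam X)) ∧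
        S1 (OmegaOf (BorelFam X)) (OmegaOf (BorelFam X)) ∧
        Sfin (OmegaOf (BorelFam X)) (OmegaOf (BorelFam X))) ∧
      ¬ S1 (OmegaOf (BorelFam (Fin 2 → X))) (GammaOf (BorelFam (Fin 2 → X))) ∧
      ¬ S1 (OmegaOf (BorelFam (Fin 2 → X))) (OmegaOf (BorelFam (Fin 2 → X))) ∧
      ¬ Sfin (OmegaOf (BorelFam (Fin 2 → X))) (OmegaOf (BorelFam (Fin 2 → X))) := by
  obtain ⟨X, Y, -, h1, h2, -⟩ := exists_real hCH
  have h3 : S1 (OmegaOf (BorelFam X)) (OmegaOf (BorelFam X)) := h1.mono_right gamma_sub_omega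
  have h4 : ¬ Sfin (OmegaOf (BorelFam (Fin 2 → X))) (OmegaOf (BorelFam (Fin 2 → X))) :=
    fun h => h2 (Sfin.mono_right (Sfin.mono_left h gamma_sub_omega) omega_sub_cov)
  exact ⟨X, ⟨h1, h3, sfin_of_s1 h3⟩, fun h => h4 (sfin_of_s1 (h.mono_right gamma_sub_omega)),
    fun h => h4 (sfin_of_s1 h), h4⟩

/-- subsets -/
theorem subsets (hCH : Cardinal.aleph 1 = Cardinal.continuum.{0}) :
    ∃ X Y : Set ℝ, Y ⊆ X ∧
      (S1 (OmegaOf (BorelFam X)) (OmegaOf (BorelFam X)) ∧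
        Sfin (OmegaOf (BorelFam X)) (OmegaOf (BorelFam X))) ∧
      ¬ S1 (OmegaOf (BorelFam Y)) (OmegaOf (BorelFam Y)) ∧
      ¬ Sfin (OmegaOf (BorelFam Y)) (OmegaOf (BorelFam Y)) := by
  obtain ⟨X, Y, hYX, h1, -, h2⟩ := exists_real hCH
  have h3 : S1 (OmegaOf (BorelFam X)) (OmegaOf (BorelFam X)) := h1.mono_right gamma_sub_omega
  exact ⟨X, Y, hYX, ⟨h3, sfin_of_s1 h3⟩, fun h => h2 (sfin_of_s1 h), h2⟩

/-- every Borel subset of `X ^ 2` is the trace of a Borel subset of the plane -/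
theorem exists_trace {X : Set ℝ} {V : Set (Fin 2 → X)}
    (hV : @MeasurableSet (Fin 2 → X) (borel (Fin 2 → X)) V) :
    ∃ W : Set (Fin 2 → ℝ), MeasurableSet W ∧
      V = (fun p : Fin 2 → X => fun i => (p i : ℝ)) ⁻¹' W := by
  have hind : Topology.IsInducing (fun p : Fin 2 → X => fun i => (p i : ℝ)) :=
    Topology.IsInducing.piMap (fun _ => Topology.IsInducing.subtypeVal)
  have h1 : borel (Fin 2 → X) = MeasurableSpace.comap (fun p : Fin 2 → X => fun i => (p i : ℝ))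
      (borel (Fin 2 → ℝ)) := by
    rw [hind.eq_induced]
    exact borel_comap
  rw [h1, MeasurableSpace.measurableSet_comap] at hV
  obtain ⟨W, hW, hWV⟩ := hV
  refine ⟨W, ?_, hWV.symm⟩
  rw [← BorelSpace.measurable_eq (α := Fin 2 → ℝ)] at hW
  exact hW

/-- the statement in terms of enumerated families of Borel sets -/
theorem enumerated (hCH : Cardinal.aleph 1 = Cardinal.continuum.{0}) :
    ∃ X : Set ℝ,
      (∀ U : ℕ → ℕ → Set ℝ,
        (∀ m, (∀ n, MeasurableSet (U m n)) ∧ (∀ n, ¬ X ⊆ U m n) ∧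
          ∀ F : Finset ℝ, (F : Set ℝ) ⊆ X → ∃ n, (F : Set ℝ) ⊆ U m n) →
        ∃ f : ℕ → ℕ, (∀ n, ¬ X ⊆ U n (f n)) ∧
          ∀ F : Finset ℝ, (F : Set ℝ) ⊆ X → ∃ n, (F : Set ℝ) ⊆ U n (f n)) ∧
      ∃ V : ℕ → ℕ → Set (Fin 2 → ℝ),
        (∀ m, (∀ n, MeasurableSet (V m n)) ∧ Set.pi Set.univ (fun _ => X) ⊆ ⋃ n, V m n) ∧
        ∀ f : ℕ → ℕ, ¬ Set.pi Set.univ (fun _ => X) ⊆ ⋃ m, V m (f m) := by
  classical
  obtain ⟨X, Y, -, h1, h2, -⟩ := exists_real hCH
  have h3 : S1 (OmegaOf (BorelFam X)) (OmegaOf (BorelFam X)) := h1.mono_right gamma_sub_omega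
  refine ⟨X, ?_, ?_⟩
  · intro U hU
    have h4 : ∀ m, range (fun n => (Subtype.val ⁻¹' (U m n) : Set X)) ∈
        OmegaOf (BorelFam X) := by
      intro m
      have hω : ∀ F : Set X, F.Finite →
          ∃ u ∈ range (fun n => (Subtype.val ⁻¹' (U m n) : Set X)), F ⊆ u := by
        intro F hF
        obtain ⟨n, hn⟩ := (hU m).2.2 (hF.image Subtype.val).toFinset (by
          rw [Set.Finite.coe_toFinset]
          rintro _ ⟨x, _, rfl⟩
          exact x.2)
        rw [Set.Finite.coe_toFinset] at hn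
        exact ⟨_, ⟨n, rfl⟩, fun x hx => hn ⟨x, hx, rfl⟩⟩
      refine ⟨⟨countable_range _, ?_⟩, ⟨?_, ?_⟩, hω⟩
      · rintro _ ⟨n, rfl⟩
        let _ := borel X
        have _ : BorelSpace X := ⟨rfl⟩
        exact continuous_subtype_val.measurable ((hU m).1 n)
      · rw [eq_univ_iff_forall]
        intro x
        obtain ⟨u, hu, hxu⟩ := hω {x} (finite_singleton x)
        exact ⟨u, hu, hxu rfl⟩
      · rintro ⟨n, hn⟩
        apply (hU m).2.1 n
        intro x hx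
        have : (⟨x, hx⟩ : X) ∈ (Subtype.val ⁻¹' (U m n) : Set X) := by
          have h5 : (Subtype.val ⁻¹' (U m n) : Set X) = univ := hn
          rw [h5]
          trivial
        exact this
    obtain ⟨V, hV, hVΩ⟩ := h3 _ h4
    choose f hf using hV
    refine ⟨f, fun n => (hU n).2.1 (f n), ?_⟩
    intro F hF
    obtain ⟨_, ⟨n, rfl⟩, hn⟩ := hVΩ.2.2 (Subtype.val ⁻¹' (F : Set ℝ))
      (F.finite_toSet.preimage Subtype.val_injective.injOn)
    refine ⟨n, fun x hx => ?_⟩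
    have h5 : (⟨x, hF hx⟩ : X) ∈ V n := hn hx
    rw [← hf n] at h5
    exact h5
  · by_contra hcon
    push Not at hcon
    apply h2
    apply sfin_of_s1
    intro U hU
    have h5 : ∀ n, (U n).Nonempty := fun n => omega_nonempty (gamma_sub_omega (hU n))
    have h6 : ∀ n, ∃ W : ℕ → Set (Fin 2 → ℝ), (∀ m, MeasurableSet (W m)) ∧
        U n = range (fun m => (fun p : Fin 2 → X => fun i => (p i : ℝ)) ⁻¹' (W m)) := by
      intro n
      obtain ⟨V, hV⟩ := (hU n).1.1.exists_eq_range (h5 n)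
      have h7 := fun m => exists_trace ((hU n).1.2 (V m) (by rw [hV]; exact mem_range_self m))
      choose W hW1 hW2 using h7
      refine ⟨W, hW1, ?_⟩
      rw [hV]
      congr 1
      funext m
      exact hW2 m
    choose W hW1 hW2 using h6
    obtain ⟨f, hf⟩ := hcon W (by
      intro n
      refine ⟨hW1 n, fun p hp => ?_⟩
      let p' : Fin 2 → X := fun i => ⟨p i, hp i trivial⟩
      have h7 : p' ∈ ⋃₀ (U n) := by rw [(hU n).2.1.1]; trivial
      obtain ⟨u, hu, hpu⟩ := h7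
      rw [hW2 n] at hu
      obtain ⟨m, rfl⟩ := hu
      exact mem_iUnion.2 ⟨m, hpu⟩)
    have hmem : ∀ n, (fun p : Fin 2 → X => fun i => (p i : ℝ)) ⁻¹' (W n (f n)) ∈ U n := by
      intro n
      rw [hW2 n]
      exact mem_range_self _
    refine ⟨fun n => (fun p : Fin 2 → X => fun i => (p i : ℝ)) ⁻¹' (W n (f n)), hmem, ?_⟩
    refine ⟨(adm_borel _).range (fun n => (hU n).1) hmem, ?_, ?_⟩
    · rw [eq_univ_iff_forall]
      intro p
      have h7 := hf (show (fun i => (p i : ℝ)) ∈ Set.pi Set.univ (fun _ => X) from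
        fun i _ => (p i).2)
      obtain ⟨n, hn⟩ := mem_iUnion.1 h7
      exact ⟨_, ⟨n, rfl⟩, hn⟩
    · rintro ⟨n, hn⟩
      apply (hU n).2.1.2
      have h8 : (fun p : Fin 2 → X => fun i => (p i : ℝ)) ⁻¹' (W n (f n)) = univ := hn
      rw [← h8]
      exact hmem n

end Pool.Agent.Helper185.Silver
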