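import Pool.Agent.Helper185.SierpPow
import Pool.Agent.Helper185.SilverFinal

namespace Pool.Agent.Helper185.Sierp

set_option linter.unusedSectionVars false

open Set Filter Topology MeasureTheory Pool.Agent.Helper185.Sel
open Pool.Agent.Helper185.Silver (sfin_of_s1 omega_sub_cov gamma_sub_omega)

theorem tau_sub_cov {X : Type*} {G : Set (Set (Set X))} : TauOf G ⊆ CovOf G :=
  fun _ h => ⟨h.1, h.2.1⟩

/-- the five properties for a space -/
theorem five_of {X : Type*} [TopologicalSpace X] (h : S1 (TauOf (OpenFam X)) (GammaOf (OpenFam X))) :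
    S1 (TauOf (OpenFam X)) (GammaOf (OpenFam X)) ∧
    S1 (TauOf (OpenFam X)) (TauOf (OpenFam X)) ∧
    S1 (TauOf (OpenFam X)) (OmegaOf (OpenFam X)) ∧
    Sfin (TauOf (OpenFam X)) (TauOf (OpenFam X)) ∧
    Sfin (TauOf (OpenFam X)) (OmegaOf (OpenFam X)) :=
  ⟨h, h.mono_right gamma_sub_tau, h.mono_right gamma_sub_omega,
    sfin_of_s1 (h.mono_right gamma_sub_tau), sfin_of_s1 (h.mono_right gamma_sub_omega)⟩

theorem five_not {X : Type*} [TopologicalSpace X]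
    (h : ¬ Sfin (GammaOf (OpenFam X)) (CovOf (OpenFam X))) :
    ¬ S1 (TauOf (OpenFam X)) (GammaOf (OpenFam X)) ∧
    ¬ S1 (TauOf (OpenFam X)) (TauOf (OpenFam X)) ∧
    ¬ S1 (TauOf (OpenFam X)) (OmegaOf (OpenFam X)) ∧
    ¬ Sfin (TauOf (OpenFam X)) (TauOf (OpenFam X)) ∧
    ¬ Sfin (TauOf (OpenFam X)) (OmegaOf (OpenFam X)) := by
  have h1 : ¬ Sfin (TauOf (OpenFam X)) (CovOf (OpenFam X)) :=
    fun h' => h (Silver.Sfin.mono_left h' gamma_sub_tau)
  exact ⟨fun h' => h1 (sfin_of_s1 ((h'.mono_right gamma_sub_tau).mono_right tau_sub_cov)),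
    fun h' => h1 (sfin_of_s1 (h'.mono_right tau_sub_cov)),
    fun h' => h1 (sfin_of_s1 (h'.mono_right omega_sub_cov)),
    fun h' => h1 (Silver.Sfin.mono_right h' tau_sub_cov),
    fun h' => h1 (Silver.Sfin.mono_right h' omega_sub_cov)⟩

theorem five (hCH : Cardinal.aleph 1 = Cardinal.continuum.{0}) :
    ∃ X : Set ℝ,
      (S1 (TauOf (OpenFam X)) (GammaOf (OpenFam X)) ∧
        S1 (TauOf (OpenFam X)) (TauOf (OpenFam X)) ∧
        S1 (TauOf (OpenFam X)) (OmegaOf (OpenFam X)) ∧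
        Sfin (TauOf (OpenFam X)) (TauOf (OpenFam X)) ∧
        Sfin (TauOf (OpenFam X)) (OmegaOf (OpenFam X))) ∧
      (¬ S1 (TauOf (OpenFam (Fin 2 → X))) (GammaOf (OpenFam (Fin 2 → X))) ∧
        ¬ S1 (TauOf (OpenFam (Fin 2 → X))) (TauOf (OpenFam (Fin 2 → X))) ∧
        ¬ S1 (TauOf (OpenFam (Fin 2 → X))) (OmegaOf (OpenFam (Fin 2 → X))) ∧
        ¬ Sfin (TauOf (OpenFam (Fin 2 → X))) (TauOf (OpenFam (Fin 2 → X))) ∧
        ¬ Sfin (TauOf (OpenFam (Fin 2 → X))) (OmegaOf (OpenFam (Fin 2 → X)))) := by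
  obtain ⟨X, h1, -, h2⟩ := exists_tau_square hCH
  exact ⟨X, five_of h1, five_not h2⟩

end Pool.Agent.Helper185.Sierp
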