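import Pool.Agent.Helper185.SierpTau

namespace Pool.Agent.Helper185.Sierp

set_option linter.unusedSectionVars false

open Set Filter Topology MeasureTheory Pool.Agent.Helper185.Sel
open scoped Pointwise

/-- the Cantor set is null -/
theorem volume_cantorSet : volume cantorSet = 0 := by
  have h1 : volume cantorSet ≤ 1 := by
    calc volume cantorSet ≤ volume (Icc (0 : ℝ) 1) := measure_mono cantorSet_subset_unitInterval
      _ = 1 := by rw [Real.volume_Icc]; simp
  have h2 : volume ((· / 3) '' cantorSet) = ENNReal.ofReal (1 / 3) * volume cantorSet := by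
    have h3 : (· / 3) '' cantorSet = (3⁻¹ : ℝ) • cantorSet := by
      ext x
      simp only [mem_image, mem_smul_set, smul_eq_mul]
      constructor
      · rintro ⟨y, hy, rfl⟩
        exact ⟨y, hy, by ring⟩
      · rintro ⟨y, hy, rfl⟩
        exact ⟨y, hy, by ring⟩
    rw [h3, Measure.addHaar_smul]
    simp only [Module.finrank_self, pow_one]
    congr 2
    rw [abs_of_pos (by norm_num)]
    norm_num
  have h4 : volume ((fun x => (2 + x) / 3) '' cantorSet) =
      ENNReal.ofReal (1 / 3) * volume cantorSet := by
    have h3 : (fun x : ℝ => (2 + x) / 3) '' cantorSet = (fun x => 2 / 3 + x) '' ((· / 3) '' cantorSet) := by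
      rw [image_image]
      apply image_congr
      intro x _
      ring
    rw [h3]
    have h5 : volume ((fun x : ℝ => 2 / 3 + x) '' ((· / 3) '' cantorSet)) =
        volume ((· / 3) '' cantorSet) := by
      rw [image_add_left, measure_preimage_add]
    rw [h5, h2]
  have h5 : volume cantorSet ≤ ENNReal.ofReal (2 / 3) * volume cantorSet := by
    calc volume cantorSet = volume ((· / 3) '' cantorSet ∪ (fun x => (2 + x) / 3) '' cantorSet) := by
          rw [← cantorSet_eq_union_halves]
      _ ≤ volume ((· / 3) '' cantorSet) + volume ((fun x => (2 + x) / 3) '' cantorSet) :=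
          measure_union_le _ _
      _ = ENNReal.ofReal (1 / 3) * volume cantorSet + ENNReal.ofReal (1 / 3) * volume cantorSet := by
          rw [h2, h4]
      _ = ENNReal.ofReal (2 / 3) * volume cantorSet := by
          rw [← add_mul, ← ENNReal.ofReal_add (by norm_num) (by norm_num)]
          norm_num
  by_contra h0
  have hfin : volume cantorSet ≠ ⊤ := ne_top_of_le_ne_top (by simp) h1
  have h6 : ENNReal.ofReal (2 / 3) * volume cantorSet < 1 * volume cantorSet := by
    apply ENNReal.mul_lt_mul_left h0 hfin
    rw [ENNReal.ofReal_lt_one]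
    norm_num
  rw [one_mul] at h6
  exact absurd h5 (not_le.2 h6)

/-- coding of points of the Cantor space in the interval `[10, 11]` -/
noncomputable def code (z : ℕ → Bool) : ℝ := 10 + (cantorSetHomeomorphNatToBool.symm z : ℝ)

theorem code_injective : Function.Injective code := by
  intro a b hab
  have h1 : (cantorSetHomeomorphNatToBool.symm a : ℝ) = cantorSetHomeomorphNatToBool.symm b := by
    have := hab
    unfold code at this
    linarith
  exact cantorSetHomeomorphNatToBool.symm.injective (Subtype.ext h1)

theorem continuous_code : Continuous code :=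
  continuous_const.add (continuous_subtype_val.comp cantorSetHomeomorphNatToBool.symm.continuous)

theorem code_bounds (z : ℕ → Bool) : 10 ≤ code z ∧ code z ≤ 11 := by
  have := cantorSet_subset_unitInterval (cantorSetHomeomorphNatToBool.symm z).2
  unfold code
  constructor
  · linarith [this.1]
  · linarith [this.2]

theorem isClosed_image {K : Set (ℕ → Bool)} (hK : IsClosed K) : IsClosed (code '' K) :=
  (hK.isCompact.image continuous_code).isClosed

theorem volume_range : volume (range code) = 0 := by
  have h1 : range code = (fun x => 10 + x) '' cantorSet := by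
    ext x
    constructor
    · rintro ⟨z, rfl⟩
      exact ⟨_, (cantorSetHomeomorphNatToBool.symm z).2, rfl⟩
    · rintro ⟨y, hy, rfl⟩
      refine ⟨cantorSetHomeomorphNatToBool ⟨y, hy⟩, ?_⟩
      simp [code]
  rw [h1, image_add_left, measure_preimage_add]
  exact volume_cantorSet

theorem null_sub_left {N : Set ℝ} (h : volume N = 0) (a : ℝ) : volume {x | a - x ∈ N} = 0 := by
  have h1 : {x | a - x ∈ N} = -((fun x => a + x) ⁻¹' N) := by
    ext x
    simp [sub_eq_add_neg]
  rw [h1, Measure.measure_neg, measure_preimage_add]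
  exact h

theorem null_add_right {N : Set ℝ} (h : volume N = 0) (a : ℝ) : volume {x | x + a ∈ N} = 0 := by
  have h1 : {x | x + a ∈ N} = (fun x => x + a) ⁻¹' N := rfl
  rw [h1, measure_preimage_add_right]
  exact h

/-- choices along a well-order -/
theorem wf_choice {I : Type} [LinearOrder I] [WellFoundedLT I] {D : Type}
    (R : (i : I) → ((j : I) → j < i → D) → D → Prop) (h : ∀ i prev, ∃ d, R i prev d) :
    ∃ b : I → D, ∀ i, R i (fun j _ => b j) (b i) := by
  choose step hstep using h
  let b : I → D := WellFounded.fix (wellFounded_lt (α := I)) step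
  have hb : ∀ i, b i = step i (fun j _ => b j) := fun i =>
    WellFounded.fix_eq (wellFounded_lt (α := I)) step i
  refine ⟨b, fun i => ?_⟩
  rw [hb i]
  exact hstep i (fun j _ => b j)

theorem exists_pairs_aux {I : Type} [LinearOrder I] [WellFoundedLT I]
    (hI : ∀ i : I, (Iio i).Countable) (g : I → ℝ) {C : Set ℝ} (hC : volume C = 0)
    (N : I → Set ℝ) (hN : ∀ i, volume (N i) = 0) :
    ∃ x : I → ℝ, ∀ i, x i ∈ Ioo (0 : ℝ) 1 ∧ ∀ j, j < i → x i ∉ N j ∧ x i + g i ∉ N j ∧
      x j + g j - x i ∉ C ∧ x i + g i - x j ∉ C := by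
  obtain ⟨x, hx⟩ := wf_choice (I := I) (D := ℝ) (fun i prev d => d ∈ Ioo (0 : ℝ) 1 ∧
    ∀ j, ∀ h : j < i, d ∉ N j ∧ d + g i ∉ N j ∧ prev j h + g j - d ∉ C ∧
      d + g i - prev j h ∉ C) (by
    intro i prev
    have hc : Countable (Iio i) := (hI i).to_subtype
    let B : Set ℝ := ⋃ j : Iio i, (N j ∪ {x | x + g i ∈ N j} ∪
      {x | prev j.1 j.2 + g j - x ∈ C} ∪ {x | x + (g i - prev j.1 j.2) ∈ C})
    have hB : volume B = 0 := by
      apply measure_iUnion_null
      intro j
      exact measure_union_null (measure_union_null (measure_union_null (hN j)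
        (null_add_right (hN j) _)) (null_sub_left hC _)) (null_add_right hC _)
    have h1 : ¬ (Ioo (0 : ℝ) 1 ⊆ B) := by
      intro h
      have h2 := measure_mono_null h hB
      rw [Real.volume_Ioo] at h2
      simp at h2
    obtain ⟨d, hd1, hd2⟩ := not_subset.1 h1
    refine ⟨d, hd1, fun j h => ?_⟩
    simp only [B, mem_iUnion, not_exists] at hd2
    have h3 := hd2 ⟨j, h⟩
    simp only [mem_union, not_or, mem_ofPred_eq] at h3
    refine ⟨h3.1.1.1, h3.1.1.2, h3.1.2, ?_⟩
    have h4 : d + g i - prev j h = d + (g i - prev j h) := by ring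
    rw [h4]
    exact h3.2)
  exact ⟨x, hx⟩

theorem mk_null_le : Cardinal.mk {s : Set ℝ // MeasurableSet s ∧ volume s = 0} ≤
    Cardinal.continuum.{0} := by
  have h1 : (inferInstance : MeasurableSpace ℝ) =
      MeasurableSpace.generateFrom (TopologicalSpace.countableBasis ℝ) := by
    rw [BorelSpace.measurable_eq (α := ℝ)]
    exact (TopologicalSpace.isBasis_countableBasis ℝ).borel_eq_generateFrom
  have h2 := MeasurableSpace.cardinal_measurableSet_le_continuum
    (s := TopologicalSpace.countableBasis ℝ)
    ((Cardinal.le_aleph0_iff_set_countable.2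
      (TopologicalSpace.countable_countableBasis ℝ)).trans Cardinal.aleph0_le_continuum)
  rw [← h1] at h2
  refine le_trans ?_ h2
  exact Cardinal.mk_subtype_mono (fun s hs => hs.1)

/-- Under the continuum hypothesis there are Sierpinski-type sets with prescribed paired
differences such that all other differences avoid the range of the coding. -/
theorem exists_pairs (hCH : Cardinal.aleph 1 = Cardinal.continuum.{0}) {J : Type}
    (hJ : Cardinal.mk J ≤ Cardinal.continuum.{0}) (g : J → ℝ) :
    ∃ x : J → ℝ, (∀ j, x j ∈ Ioo (0 : ℝ) 1) ∧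
      (∀ i j, i ≠ j → x j + g j - x i ∉ range code) ∧
      Sp (range x ∪ range (fun j => x j + g j)) := by
  classical
  let I : Type := (Cardinal.aleph 1).ord.ToType
  have hI : ∀ i : I, (Iio i).Countable := by
    intro i
    rw [← Cardinal.le_aleph0_iff_set_countable, ← Cardinal.lt_aleph_one_iff]
    exact Cardinal.mk_Iio_toType_ord_lt i
  have hIc : Cardinal.mk I = Cardinal.continuum := by
    rw [← hCH]
    exact Cardinal.mk_ord_toType _
  obtain ⟨e⟩ := (Cardinal.le_def J I).1 (hJ.trans hIc.ge)
  obtain ⟨en⟩ := (Cardinal.le_def _ I).1 (mk_null_le.trans hIc.ge)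
  have hne : Nonempty {s : Set ℝ // MeasurableSet s ∧ volume s = 0} :=
    ⟨⟨∅, MeasurableSet.empty, measure_empty⟩⟩
  let N : I → {s : Set ℝ // MeasurableSet s ∧ volume s = 0} := Function.invFun en
  have hNs : Function.Surjective N := Function.invFun_surjective en.injective
  let g' : I → ℝ := fun i => if h : ∃ j, e j = i then g h.choose else 0
  have hg' : ∀ j, g' (e j) = g j := by
    intro j
    have h : ∃ j', e j' = e j := ⟨j, rfl⟩
    simp only [g', dif_pos h]
    congr 1
    exact e.injective h.choose_spec
  obtain ⟨x, hx⟩ := exists_pairs_aux hI g' volume_range (fun i => (N i).1)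
    (fun i => (N i).2.2)
  refine ⟨fun j => x (e j), fun j => (hx (e j)).1, ?_, ?_⟩
  · intro i j hij
    rcases lt_or_gt_of_ne (fun h => hij (e.injective h)) with h | h
    · have h1 := ((hx (e j)).2 (e i) h).2.2.2
      rw [hg'] at h1
      exact h1
    · have h1 := ((hx (e i)).2 (e j) h).2.2.1
      rw [hg'] at h1
      exact h1
  · intro M hM
    obtain ⟨M', hMM', hM'm, hM'0⟩ := exists_measurable_superset_of_null hM
    obtain ⟨i, hi⟩ := hNs ⟨M', hM'm, hM'0⟩
    have hi' : (N i).1 = M' := by rw [hi]
    have hc : (e ⁻¹' (Iic i)).Countable := by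
      have h1 : (Iic i).Countable := by
        rw [← Iio_insert]
        exact (hI i).insert i
      exact h1.preimage e.injective
    apply ((hc.image (fun j => x (e j))).union (hc.image (fun j => x (e j) + g j))).mono
    rintro y ⟨hy, hyM⟩
    rcases hy with ⟨j, rfl⟩ | ⟨j, rfl⟩
    · left
      refine ⟨j, ?_, rfl⟩
      by_contra h
      have h1 : i < e j := not_le.1 h
      have h2 := ((hx (e j)).2 i h1).1
      rw [hi'] at h2
      exact h2 (hMM' hyM)
    · right
      refine ⟨j, ?_, rfl⟩
      by_contra h
      have h1 : i < e j := not_le.1 h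
      have h2 := ((hx (e j)).2 i h1).2.1
      rw [hi', hg'] at h2
      exact h2 (hMM' hyM)

end Pool.Agent.Helper185.Sierp
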