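import Pool.Agent.Helper185.SierpPairs

namespace Pool.Agent.Helper185.Sierp

set_option linter.unusedSectionVars false

open Set Filter Topology MeasureTheory Pool.Agent.Helper185.Sel

/-- number of ones below `m` -/
def cz (z : ℕ → Bool) (m : ℕ) : ℕ := ((Finset.range m).filter (fun n => z n = true)).card

theorem cz_mono (z : ℕ → Bool) : Monotone (cz z) := by
  intro m n hmn
  apply Finset.card_le_card
  intro k hk
  simp only [Finset.mem_filter, Finset.mem_range] at hk ⊢
  exact ⟨by omega, hk.2⟩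

theorem cz_unbounded {z : ℕ → Bool} (h : ∀ N, ∃ n, N ≤ n ∧ z n = true) (k : ℕ) :
    ∃ M, ∀ m, M ≤ m → k < cz z m := by
  induction k with
  | zero =>
    obtain ⟨n, _, hn⟩ := h 0
    refine ⟨n + 1, fun m hm => ?_⟩
    apply Finset.card_pos.2
    exact ⟨n, by simp only [Finset.mem_filter, Finset.mem_range]; exact ⟨by omega, hn⟩⟩
  | succ k ih =>
    obtain ⟨M, hM⟩ := ih
    obtain ⟨n, hn1, hn2⟩ := h M
    refine ⟨n + 1, fun m hm => ?_⟩
    have h2 := hM M le_rfl
    have h3 : insert n ((Finset.range M).filter (fun n => z n = true)) ⊆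
        (Finset.range m).filter (fun n => z n = true) := by
      intro l hl
      simp only [Finset.mem_insert, Finset.mem_filter, Finset.mem_range] at hl ⊢
      rcases hl with rfl | hl
      · exact ⟨by omega, hn2⟩
      · exact ⟨by omega, hl.2⟩
    have h4 := Finset.card_le_card h3
    rw [Finset.card_insert_of_notMem (by
      simp only [Finset.mem_filter, Finset.mem_range]
      omega)] at h4
    unfold cz at h2 ⊢
    omega

theorem continuous_cz (m : ℕ) : Continuous (fun z => cz z m) := by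
  have h1 : (fun z => cz z m) = fun z : ℕ → Bool => ∑ n ∈ Finset.range m,
      (if z n = true then 1 else 0) := by
    funext p
    exact Finset.card_filter _ _
  rw [h1]
  apply continuous_finsetSum
  intro n _
  have h2 : Continuous (fun b : Bool => if b = true then (1 : ℕ) else 0) :=
    continuous_of_discreteTopology
  exact h2.comp (continuous_apply n)

/-- infinite sparse sets -/
theorem exists_sparse (h : ℕ → ℕ) :
    ∃ z : ℕ → Bool, (∀ N, ∃ n, N ≤ n ∧ z n = true) ∧ ∀ n, cz z (h n) ≤ n := by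
  classical
  obtain ⟨δ, hδmono, hδ⟩ : ∃ δ : ℕ → ℕ, StrictMono δ ∧
      ∀ k, ∑ j ∈ Finset.range (k + 1), h j ≤ δ k := by
    apply extraction_forall_of_frequently
      (P := fun n k => ∑ j ∈ Finset.range (n + 1), h j ≤ k)
    intro n
    rw [frequently_atTop]
    intro a
    exact ⟨max a (∑ j ∈ Finset.range (n + 1), h j), le_max_left _ _, le_max_right _ _⟩
  refine ⟨fun n => decide (n ∈ range δ), ?_, ?_⟩
  · intro N
    refine ⟨δ N, hδmono.le_apply, by simp⟩
  · intro n
    have hsub : (Finset.range (h n)).filter (fun k => decide (k ∈ range δ) = true) ⊆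
        (Finset.range n).image δ := by
      intro k hk
      simp only [Finset.mem_filter, Finset.mem_range, decide_eq_true_eq] at hk
      obtain ⟨hk1, j, rfl⟩ := hk
      apply Finset.mem_image_of_mem
      rw [Finset.mem_range]
      by_contra hjn
      have h4 : h n ≤ ∑ i ∈ Finset.range (j + 1), h i :=
        Finset.single_le_sum (f := h) (fun _ _ => Nat.zero_le _)
          (Finset.mem_range.2 (by omega))
      have h5 := hδ j
      omega
    calc cz (fun n => decide (n ∈ range δ)) (h n) ≤ ((Finset.range n).image δ).card :=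
          Finset.card_le_card hsub
      _ ≤ (Finset.range n).card := Finset.card_image_le
      _ = n := Finset.card_range n

/-- differences in the range of the coding occur only between the two sides -/
theorem pair_of_diff {J : Type} {g : J → ℝ} {x : J → ℝ} (hg : ∀ j, 10 ≤ g j ∧ g j ≤ 11)
    (hx : ∀ j, x j ∈ Ioo (0 : ℝ) 1)
    (hd : ∀ i j, i ≠ j → x j + g j - x i ∉ range code) {a b : ℝ}
    (ha : a ∈ range x ∪ range (fun j => x j + g j))
    (hb : b ∈ range x ∪ range (fun j => x j + g j)) (hab : b - a ∈ range code) :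
    ∃ j, a = x j ∧ b = x j + g j := by
  obtain ⟨z, hz⟩ := hab
  have h1 := code_bounds z
  rw [hz] at h1
  rcases ha with ⟨i, rfl⟩ | ⟨i, rfl⟩
  · rcases hb with ⟨j, rfl⟩ | ⟨j, rfl⟩
    · exfalso
      have h2 := hx i
      have h3 := hx j
      linarith [h2.1, h3.2, h1.1]
    · by_cases hij : i = j
      · subst hij
        exact ⟨i, rfl, rfl⟩
      · exact absurd ⟨z, hz⟩ (hd i j hij)
  · exfalso
    rcases hb with ⟨j, rfl⟩ | ⟨j, rfl⟩
    · have h2 := hx i
      have h3 := hx j
      simp only at h1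
      linarith [h2.1, h3.2, h1.1, (hg i).1]
    · have h2 := hx i
      have h3 := hx j
      simp only at h1
      linarith [h2.1, h3.2, h1.1, (hg i).1, (hg j).2]

theorem volume_ne_top {J : Type} {g : J → ℝ} {x : J → ℝ} (hg : ∀ j, 10 ≤ g j ∧ g j ≤ 11)
    (hx : ∀ j, x j ∈ Ioo (0 : ℝ) 1) :
    volume (range x ∪ range (fun j => x j + g j)) ≠ ⊤ := by
  have h1 : range x ∪ range (fun j => x j + g j) ⊆ Icc (0 : ℝ) 12 := by
    rintro y (⟨j, rfl⟩ | ⟨j, rfl⟩)
    · exact ⟨(hx j).1.le, by linarith [(hx j).2]⟩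
    · refine ⟨?_, ?_⟩
      · show (0 : ℝ) ≤ x j + g j
        linarith [(hx j).1, (hg j).1]
      · show x j + g j ≤ 12
        linarith [(hx j).2, (hg j).2]
  refine ne_top_of_le_ne_top ?_ (measure_mono h1)
  rw [Real.volume_Icc]
  exact ENNReal.ofReal_ne_top

/-- Under the continuum hypothesis there is a set of reals satisfying `S₁(T, Γ)` whose square
fails `S_fin(Γ, O)`. -/
theorem exists_tau_square (hCH : Cardinal.aleph 1 = Cardinal.continuum.{0}) :
    ∃ X : Set ℝ, S1 (TauOf (OpenFam X)) (GammaOf (OpenFam X)) ∧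
      S1 (TauOf (BorelFam X)) (GammaOf (BorelFam X)) ∧
      ¬ Sfin (GammaOf (OpenFam (Fin 2 → X))) (CovOf (OpenFam (Fin 2 → X))) := by
  classical
  let J : Type := {z : ℕ → Bool // ∀ N, ∃ n, N ≤ n ∧ z n = true}
  have hJ : Cardinal.mk J ≤ Cardinal.continuum.{0} := by
    refine (Cardinal.mk_subtype_le _).trans ?_
    simp
  let g : J → ℝ := fun z => code z.1
  have hg : ∀ j, 10 ≤ g j ∧ g j ≤ 11 := fun j => code_bounds j.1
  obtain ⟨x, hx, hd, hSp⟩ := exists_pairs hCH hJ g
  let X : Set ℝ := range x ∪ range (fun j => x j + g j)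
  obtain ⟨z0, hz0, _⟩ := exists_sparse (fun _ => 0)
  have hne : X.Nonempty := ⟨x ⟨z0, hz0⟩, Or.inl (mem_range_self _)⟩
  have hfin : volume X ≠ ⊤ := volume_ne_top hg hx
  refine ⟨X, s1_tau_gamma_open hfin hSp hne,
    s1_tau_gamma (adm_borel X) (tauGamma_borel hfin hSp hne)
      (good_of_sp hfin hSp (fun U hU => hU.2)), ?_⟩
  intro h
  let K : ℕ → ℕ → Set (ℕ → Bool) := fun k m => {z | cz z m ≤ k}
  have hK : ∀ k m, IsClosed (K k m) := fun k m =>
    (isClosed_discrete {c | c ≤ k}).preimage (continuous_cz m)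
  let V : ℕ → ℕ → Set (Fin 2 → X) := fun k m => {p | ((p 1 : X) : ℝ) - (p 0 : X) ∉ code '' K k m}
  have hV : ∀ k m, IsOpen (V k m) := by
    intro k m
    have h1 : Continuous (fun p : Fin 2 → X => ((p 1 : X) : ℝ) - (p 0 : X)) :=
      (continuous_subtype_val.comp (continuous_apply 1)).sub
        (continuous_subtype_val.comp (continuous_apply 0))
    exact (isClosed_image (hK k m)).isOpen_compl.preimage h1
  let pt : J → (Fin 2 → X) := fun j =>
    ![⟨x j, Or.inl (mem_range_self j)⟩, ⟨x j + g j, Or.inr ⟨j, rfl⟩⟩]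
  have hpt : ∀ j k m, cz j.1 m ≤ k → pt j ∉ V k m := by
    intro j k m hm hcon
    apply hcon
    have h0 : ((pt j 0 : X) : ℝ) = x j := rfl
    have h1 : ((pt j 1 : X) : ℝ) = x j + g j := rfl
    rw [h0, h1]
    refine ⟨j.1, hm, ?_⟩
    simp [g]
  have hne' : ∀ k m, V k m ≠ univ := by
    intro k m hcon
    obtain ⟨z, hz, hzm⟩ := exists_sparse (fun _ => m)
    apply hpt ⟨z, hz⟩ k m ((hzm 0).trans (Nat.zero_le k))
    rw [hcon]
    trivial
  have hgam : ∀ k, range (V k) ∈ GammaOf (OpenFam (Fin 2 → X)) := by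
    intro k
    refine range_gamma (adm_open _) (U := fun _ => range (V k)) ?_ ?_
      (fun m => mem_range_self m) ?_
    · rintro _ _ ⟨m, rfl⟩
      exact hV k m
    · rintro _ ⟨m, hm⟩
      exact hne' k m hm
    · intro p
      by_cases hp : ((p 1 : X) : ℝ) - (p 0 : X) ∈ range code
      · obtain ⟨j, h0, h1⟩ := pair_of_diff hg hx hd (p 0).2 (p 1).2 hp
        obtain ⟨M, hM⟩ := cz_unbounded j.2 k
        apply (finite_lt_nat M).subset
        intro m hm
        by_contra hmM
        have h2 := hM m (le_of_not_gt (fun h => hmM h))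
        apply hm
        rintro ⟨z, hz, hzc⟩
        have h3 : code z = code j.1 := by
          rw [hzc, h0, h1]
          simp [g]
        have h4 := code_injective h3
        subst h4
        have h5 : cz j.1 m ≤ k := hz
        omega
      · apply finite_empty.subset
        intro m hm
        apply hm
        rintro ⟨z, _, hz⟩
        exact hp ⟨z, hz⟩
  obtain ⟨F, hF, hFc⟩ := h (fun k => range (V k)) hgam
  have hbd : ∀ k, ∃ G : ℕ, ∀ v ∈ F k, ∃ m, m ≤ G ∧ v = V k m := by
    intro k
    have h1 : ∀ v : Set (Fin 2 → X), ∃ m, v ∈ F k → v = V k m := by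
      intro v
      by_cases hv : v ∈ F k
      · obtain ⟨m, hm⟩ := (hF k).2 hv
        exact ⟨m, fun _ => hm.symm⟩
      · exact ⟨0, fun h => absurd h hv⟩
    choose μ hμ using h1
    obtain ⟨G, hG⟩ := ((hF k).1.image μ).bddAbove
    exact ⟨G, fun v hv => ⟨μ v, hG ⟨v, hv, rfl⟩, hμ v hv⟩⟩
  choose G hG using hbd
  obtain ⟨z, hz, hzG⟩ := exists_sparse G
  have h1 : pt ⟨z, hz⟩ ∈ ⋃₀ (⋃ k, F k) := by rw [hFc.2.1]; trivial
  obtain ⟨v, hv, hpv⟩ := h1
  obtain ⟨k, hvk⟩ := mem_iUnion.1 hv
  obtain ⟨m, hm, rfl⟩ := hG k v hvk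
  exact hpt ⟨z, hz⟩ k m ((cz_mono z hm).trans (hzG k)) hpv

end Pool.Agent.Helper185.Sierp
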