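import Pool.Agent.Helper185.SierpPow
import Pool.Agent.Helper185.SelDefs2

namespace Pool.Agent.Helper185.Sierp

set_option linter.unusedSectionVars false

open Set Filter Topology MeasureTheory Pool.Agent.Helper185.Sel

theorem split_infinite {α : Type*} {V : Set α} (hV : V.Infinite) :
    ∃ V1 V2 : Set α, V1 ⊆ V ∧ V2 ⊆ V ∧ V1.Infinite ∧ V2.Infinite ∧ Disjoint V1 V2 := by
  let e := hV.natEmbedding V
  have he : Function.Injective (fun n => (e n : α)) := fun a b h => e.injective (Subtype.ext h)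
  refine ⟨range (fun n => (e (2 * n) : α)), range (fun n => (e (2 * n + 1) : α)), ?_, ?_, ?_, ?_, ?_⟩
  · rintro _ ⟨n, rfl⟩
    exact (e (2 * n)).2
  · rintro _ ⟨n, rfl⟩
    exact (e (2 * n + 1)).2
  · apply infinite_range_of_injective
    intro a b h
    have := he h
    omega
  · apply infinite_range_of_injective
    intro a b h
    have := he h
    omega
  · rw [Set.disjoint_left]
    rintro _ ⟨n, rfl⟩ ⟨m, hm⟩
    have := he hm
    omega

theorem split_of_tauGamma {X : Type*} [TopologicalSpace X] {G : Set (Set (Set X))} (hA : Adm G)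
    (h : TauGamma G) : SplitP (TauOf G) (TauOf G) := by
  intro U hU
  obtain ⟨V, hVU, hV⟩ := h U hU
  obtain ⟨V1, V2, h1, h2, h3, h4, h5⟩ := split_infinite hV.2.2.1
  refine ⟨V1, U \ V1, ?_, disjoint_sdiff_right, ⟨V1, subset_rfl, ?_⟩, V2, ?_, ?_⟩
  · exact union_sdiff_cancel (h1.trans hVU)
  · exact gamma_sub_tau (gamma_sub hA hV h1 h3)
  · intro v hv
    exact ⟨hVU (h2 hv), fun h => Set.disjoint_left.1 h5 h hv⟩
  · exact gamma_sub_tau (gamma_sub hA hV h2 h4)

section Tower

variable {I : Type} [LinearOrder I] [WellFoundedLT I]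

/-- the previous sets form a decreasing chain -/
def Chain (i : I) (prev : (j : I) → j < i → Set ℕ) : Prop :=
  (∀ j h, (prev j h).Infinite) ∧
    ∀ (j k : I) (hj : j < i) (hk : k < i), j < k → (prev k hk \ prev j hj).Finite

theorem exists_next {i : I} (hI : (Iio i).Countable) (S : Set ℕ)
    (prev : (j : I) → j < i → Set ℕ) (hc : Chain i prev) :
    ∃ T : Set ℕ, T.Infinite ∧ (∀ j h, (T \ prev j h).Finite) ∧ (T ⊆ S ∨ Disjoint T S) := by
  classical
  have hcount : Countable (Iio i) := hI.to_subtype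
  obtain ⟨A, hA, hAB⟩ : ∃ A : Set ℕ, A.Infinite ∧
      ∀ (j : I) (h : j < i), (A \ prev j h).Finite := by
    rcases isEmpty_or_nonempty (Iio i) with he | hne
    · exact ⟨univ, infinite_univ, fun j h => (he.false ⟨j, h⟩).elim⟩
    · obtain ⟨A, hA, hAB⟩ := CH.exists_pseudo_nat (ι := Iio i) (fun j => prev j.1 j.2) (by
        intro s hs
        obtain ⟨m, hm, hmax⟩ := s.exists_max_image (fun j => j) hs
        have hfin : (prev m.1 m.2 \ ⋂ j ∈ s, prev j.1 j.2).Finite := by
          have hsub : prev m.1 m.2 \ ⋂ j ∈ s, prev j.1 j.2 ⊆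
              ⋃ j ∈ s, (prev m.1 m.2 \ prev j.1 j.2) := by
            rintro n ⟨hn, hn2⟩
            simp only [mem_iInter, not_forall] at hn2
            obtain ⟨j, hj, hnj⟩ := hn2
            simp only [mem_iUnion]
            exact ⟨j, hj, hn, hnj⟩
          refine Finite.subset (Set.Finite.biUnion s.finite_toSet ?_) hsub
          intro j hj
          rcases eq_or_lt_of_le (hmax j hj) with h | h
          · subst h
            rw [sdiff_self]
            exact finite_empty
          · exact hc.2 j.1 m.1 j.2 m.2 h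
        intro hcon
        apply hc.1 m.1 m.2
        apply (hcon.union hfin).subset
        intro n hn
        by_cases h : n ∈ ⋂ j ∈ s, prev j.1 j.2
        · exact Or.inl h
        · exact Or.inr ⟨hn, h⟩)
      exact ⟨A, hA, fun j h => hAB ⟨j, h⟩⟩
  by_cases h : (A ∩ S).Infinite
  · exact ⟨A ∩ S, h, fun j hj => (hAB j hj).subset (fun n hn => ⟨hn.1.1, hn.2⟩),
      Or.inl inter_subset_right⟩
  · have h2 : (A \ S).Infinite := by
      intro h3
      apply hA
      apply ((not_infinite.1 h).union h3).subset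
      intro n hn
      by_cases hS : n ∈ S
      · exact Or.inl ⟨hn, hS⟩
      · exact Or.inr ⟨hn, hS⟩
    exact ⟨A \ S, h2, fun j hj => (hAB j hj).subset (fun n hn => ⟨hn.1.1, hn.2⟩),
      Or.inr disjoint_sdiff_left⟩

end Tower

/-- Under the continuum hypothesis there is a tower generating an ultrafilter. -/
theorem exists_ultra_tower (hCH : Cardinal.aleph 1 = Cardinal.continuum.{0}) :
    ∃ 𝒯 : Set (Set ℕ), (∀ T ∈ 𝒯, T.Infinite) ∧
      (∀ S ∈ 𝒯, ∀ T ∈ 𝒯, (S \ T).Finite ∨ (T \ S).Finite) ∧
      (∀ S : Set ℕ, ∃ T ∈ 𝒯, (T \ S).Finite ∨ (T ∩ S).Finite) ∧ ∀ n, ({n}ᶜ : Set ℕ) ∈ 𝒯 := by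
  classical
  let I : Type := (Cardinal.aleph 1).ord.ToType
  have hI : ∀ i : I, (Iio i).Countable := by
    intro i
    rw [← Cardinal.le_aleph0_iff_set_countable, ← Cardinal.lt_aleph_one_iff]
    exact Cardinal.mk_Iio_toType_ord_lt i
  have hIc : Cardinal.mk I = Cardinal.continuum := by
    rw [← hCH]
    exact Cardinal.mk_ord_toType _
  have hS : Cardinal.mk (Set ℕ) ≤ Cardinal.mk I := by
    rw [hIc, Cardinal.mk_set, Cardinal.mk_nat, Cardinal.two_power_aleph0]
  obtain ⟨e⟩ := (Cardinal.le_def _ I).1 hS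
  let S : I → Set ℕ := Function.invFun e
  have hSs : Function.Surjective S := Function.invFun_surjective e.injective
  obtain ⟨T, hT⟩ := wf_choice (I := I) (D := Set ℕ) (fun i prev T => Chain i prev →
    T.Infinite ∧ (∀ j h, (T \ prev j h).Finite) ∧ (T ⊆ S i ∨ Disjoint T (S i))) (by
    intro i prev
    by_cases hc : Chain i prev
    · obtain ⟨T, hT⟩ := exists_next (hI i) (S i) prev hc
      exact ⟨T, fun _ => hT⟩
    · exact ⟨∅, fun h => absurd h hc⟩)
  have hall : ∀ i, (T i).Infinite ∧ (∀ j, j < i → (T i \ T j).Finite) ∧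
      (T i ⊆ S i ∨ Disjoint (T i) (S i)) := by
    intro i
    induction i using WellFoundedLT.induction with
    | ind i ih =>
      apply hT i
      exact ⟨fun j h => (ih j h).1, fun j k _ hk hjk => (ih k hk).2.1 j hjk⟩
  refine ⟨range T ∪ range (fun n => ({n}ᶜ : Set ℕ)), ?_, ?_, ?_, ?_⟩
  · rintro _ (⟨i, rfl⟩ | ⟨n, rfl⟩)
    · exact (hall i).1
    · exact (finite_singleton n).infinite_compl
  · have h1 : ∀ (A : Set ℕ) (n : ℕ), (A \ ({n}ᶜ : Set ℕ)).Finite := by
      intro A n
      apply (finite_singleton n).subset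
      rintro k ⟨_, hk⟩
      simpa using hk
    rintro _ (⟨i, rfl⟩ | ⟨n, rfl⟩) _ (⟨j, rfl⟩ | ⟨m, rfl⟩)
    · rcases lt_trichotomy i j with h | h | h
      · exact Or.inr ((hall j).2.1 i h)
      · subst h
        left
        rw [sdiff_self]
        exact finite_empty
      · exact Or.inl ((hall i).2.1 j h)
    · exact Or.inl (h1 _ _)
    · exact Or.inr (h1 _ _)
    · exact Or.inl (h1 _ _)
  · intro A
    obtain ⟨i, hi⟩ := hSs A
    refine ⟨T i, Or.inl (mem_range_self i), ?_⟩
    rcases (hall i).2.2 with h | h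
    · left
      rw [hi] at h
      rw [sdiff_eq_empty.2 h]
      exact finite_empty
    · right
      rw [hi] at h
      rw [disjoint_iff_inter_eq_empty.1 h]
      exact finite_empty
  · intro n
    exact Or.inr (mem_range_self n)

/-- Under the continuum hypothesis, two sets of reals in which each tau-cover contains a
gamma-cover may have a product with an open tau-cover that cannot be split. -/
theorem exists_product (hCH : Cardinal.aleph 1 = Cardinal.continuum.{0}) :
    ∃ A B : Set ℝ, TauGamma (OpenFam A) ∧ TauGamma (OpenFam B) ∧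
      ¬ SplitP (TauOf (OpenFam (A × B))) (TauOf (OpenFam (A × B))) := by
  classical
  obtain ⟨𝒯, hinf, hlin, hult, hco⟩ := exists_ultra_tower hCH
  let J : Type := {z : ℕ → Bool // {n | z n = true} ∈ 𝒯}
  have hJ : Cardinal.mk J ≤ Cardinal.continuum.{0} := by
    refine (Cardinal.mk_subtype_le _).trans ?_
    simp
  have hJT : ∀ T ∈ 𝒯, ∃ j : J, {n | j.1 n = true} = T := by
    intro T hT
    have h1 : {n | (fun n => decide (n ∈ T)) n = true} = T := by
      ext n; simp
    exact ⟨⟨fun n => decide (n ∈ T), by rw [h1]; exact hT⟩, h1⟩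
  let g : J → ℝ := fun z => code z.1
  have hg : ∀ j, 10 ≤ g j ∧ g j ≤ 11 := fun j => code_bounds j.1
  obtain ⟨x, hx, hd, hSp⟩ := exists_pairs hCH hJ g
  let A : Set ℝ := range x
  let B : Set ℝ := range (fun j => x j + g j)
  obtain ⟨j0, -⟩ := hJT _ (hco 0)
  have hfin := volume_ne_top hg hx
  have hA : TauGamma (OpenFam A) := tauGamma_open
    (ne_top_of_le_ne_top hfin (measure_mono subset_union_left)) (hSp.mono subset_union_left)
    ⟨x j0, mem_range_self j0⟩
  have hB : TauGamma (OpenFam B) := tauGamma_open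
    (ne_top_of_le_ne_top hfin (measure_mono subset_union_right)) (hSp.mono subset_union_right)
    ⟨x j0 + g j0, j0, rfl⟩
  refine ⟨A, B, hA, hB, ?_⟩
  intro hsplit
  let K : ℕ → Set (ℕ → Bool) := fun n => {z | z n = false}
  have hK : ∀ n, IsClosed (K n) := fun n =>
    isClosed_eq (continuous_apply n) continuous_const
  let V : ℕ → Set (A × B) := fun n => {p | ((p.2 : B) : ℝ) - (p.1 : A) ∉ code '' K n}
  have hV : ∀ n, IsOpen (V n) := by
    intro n
    have h1 : Continuous (fun p : A × B => ((p.2 : B) : ℝ) - (p.1 : A)) :=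
      (continuous_subtype_val.comp continuous_snd).sub
        (continuous_subtype_val.comp continuous_fst)
    exact (isClosed_image (hK n)).isOpen_compl.preimage h1
  let pt : J → A × B := fun j => (⟨x j, mem_range_self j⟩, ⟨x j + g j, j, rfl⟩)
  have hpt : ∀ j n, pt j ∈ V n ↔ j.1 n = true := by
    intro j n
    have h0 : (((pt j).2 : B) : ℝ) - ((pt j).1 : A) = code j.1 := by
      simp [pt, g]
    constructor
    · intro h
      by_contra hcon
      apply h
      rw [h0]
      refine ⟨j.1, ?_, rfl⟩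
      simpa [K] using hcon
    · intro h hcon
      rw [h0] at hcon
      obtain ⟨z, hz, hzc⟩ := hcon
      have h1 := code_injective hzc
      rw [h1] at hz
      have h2 : j.1 n = false := hz
      rw [h] at h2
      cases h2
  have hother : ∀ p : A × B, (∀ n, p ∈ V n) ∨ ∃ j, p = pt j := by
    rintro ⟨⟨a, i, rfl⟩, ⟨b, j, rfl⟩⟩
    by_cases hij : i = j
    · subst hij
      exact Or.inr ⟨i, rfl⟩
    · left
      intro n hcon
      obtain ⟨z, _, hz⟩ := hcon
      exact hd i j hij ⟨z, hz⟩
  have hVinj : Function.Injective V := by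
    intro n m hnm
    by_contra hne
    obtain ⟨j, hj⟩ := hJT _ (hco n)
    have h1 : pt j ∉ V n := by
      rw [hpt]
      intro h
      have h2 : n ∈ {n | j.1 n = true} := h
      rw [hj] at h2
      exact h2 rfl
    have h2 : pt j ∈ V m := by
      rw [hpt]
      have h3 : m ∈ ({n}ᶜ : Set ℕ) := fun h => hne h.symm
      rw [← hj] at h3
      exact h3
    exact h1 (hnm ▸ h2)
  -- the sets of indices
  have hS : ∀ p : A × B, {n | p ∈ V n} = univ ∨ {n | p ∈ V n} ∈ 𝒯 := by
    intro p
    rcases hother p with h | ⟨j, rfl⟩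
    · left
      rw [eq_univ_iff_forall]
      exact h
    · right
      have : {n | pt j ∈ V n} = {n | j.1 n = true} := by
        ext n
        exact hpt j n
      rw [this]
      exact j.2
  have hLin : Lin (range V) := by
    constructor
    · intro p
      have h1 : {n | p ∈ V n}.Infinite := by
        rcases hS p with h | h
        · rw [h]
          exact infinite_univ
        · exact hinf _ h
      apply (h1.image hVinj.injOn).mono
      rintro _ ⟨n, hn, rfl⟩
      exact ⟨mem_range_self n, hn⟩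
    · intro p q
      have h1 : ∀ p q : A × B, ({n | p ∈ V n} \ {n | q ∈ V n}).Finite →
          {u | u ∈ range V ∧ p ∈ u ∧ q ∉ u}.Finite := by
        intro p q h
        apply (h.image V).subset
        rintro _ ⟨⟨n, rfl⟩, h2, h3⟩
        exact ⟨n, ⟨h2, h3⟩, rfl⟩
      rcases hS q with h | h
      · left
        apply h1
        rw [h, sdiff_univ]
        exact finite_empty
      · rcases hS p with h' | h'
        · right
          apply h1
          rw [h', sdiff_univ]
          exact finite_empty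
        · rcases hlin _ h' _ h with h2 | h2
          · exact Or.inl (h1 _ _ h2)
          · exact Or.inr (h1 _ _ h2)
  have hne : univ ∉ range V := by
    rintro ⟨n, hn⟩
    obtain ⟨j, hj⟩ := hJT _ (hco n)
    have h1 : pt j ∈ V n := by rw [hn]; trivial
    rw [hpt] at h1
    have h2 : n ∈ {n | j.1 n = true} := h1
    rw [hj] at h2
    exact h2 rfl
  have hτ : range V ∈ TauOf (OpenFam (A × B)) := by
    refine tau_of_lin ?_ hne hLin
    rintro _ ⟨n, rfl⟩
    exact hV n
  obtain ⟨V1, W1, hVW, hdis, ⟨V', hV'1, hV'2⟩, ⟨W', hW'1, hW'2⟩⟩ := hsplit _ hτ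
  obtain ⟨T, hT, h⟩ := hult {n | V n ∈ V1}
  obtain ⟨j, hj⟩ := hJT T hT
  rcases h with h | h
  · apply hW'2.2.2.1 (pt j)
    apply (h.image V).subset
    rintro w ⟨hw, hjw⟩
    have h1 : w ∈ range V := by rw [← hVW]; exact Or.inr (hW'1 hw)
    obtain ⟨n, rfl⟩ := h1
    refine ⟨n, ⟨?_, ?_⟩, rfl⟩
    · rw [← hj]
      exact (hpt j n).1 hjw
    · intro hn
      exact Set.disjoint_left.1 hdis hn (hW'1 hw)
  · apply hV'2.2.2.1 (pt j)
    apply (h.image V).subset
    rintro w ⟨hw, hjw⟩
    have h1 : w ∈ range V := by rw [← hVW]; exact Or.inl (hV'1 hw)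
    obtain ⟨n, rfl⟩ := h1
    refine ⟨n, ⟨?_, ?_⟩, rfl⟩
    · rw [← hj]
      exact (hpt j n).1 hjw
    · exact hV'1 hw

theorem products (hCH : Cardinal.aleph 1 = Cardinal.continuum.{0}) :
    ∃ A B : Set ℝ,
      (SplitP (TauOf (OpenFam A)) (TauOf (OpenFam A)) ∧
        SplitP (TauOf (OpenFam B)) (TauOf (OpenFam B)) ∧
        ¬ SplitP (TauOf (OpenFam (A × B))) (TauOf (OpenFam (A × B)))) ∧
      (Choose (TauOf (OpenFam A)) (GammaOf (OpenFam A)) ∧
        Choose (TauOf (OpenFam B)) (GammaOf (OpenFam B)) ∧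
        ¬ Choose (TauOf (OpenFam (A × B))) (GammaOf (OpenFam (A × B)))) := by
  obtain ⟨A, B, h1, h2, h3⟩ := exists_product hCH
  exact ⟨A, B, ⟨split_of_tauGamma (adm_open A) h1, split_of_tauGamma (adm_open B) h2, h3⟩,
    h1, h2, fun h => h3 (split_of_tauGamma (adm_open _) h)⟩

end Pool.Agent.Helper185.Sierp
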