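import Pool.Agent.Helper185.SierpBase

namespace Pool.Agent.Helper185.Sierp

set_option linter.unusedSectionVars false

open Set Filter Topology MeasureTheory Pool.Agent.Helper185.Sel

/-- Borel total preorders on a Sierpinski-type set have countable coinitiality -/
theorem coinitial {X : Set ℝ} (hfin : volume X ≠ ⊤) (hSp : Sp X) (hne : X.Nonempty)
    {W : Set (ℝ × ℝ)} (hW : MeasurableSet W) (hrefl : ∀ x, (x, x) ∈ W)
    (htrans : ∀ x y z, (x, y) ∈ W → (y, z) ∈ W → (x, z) ∈ W)
    (htot : ∀ x ∈ X, ∀ y ∈ X, (x, y) ∈ W ∨ (y, x) ∈ W) :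
    ∃ C : ℕ → ℝ, (∀ n, C n ∈ X) ∧ ∀ y ∈ X, ∃ n, (C n, y) ∈ W := by
  have hfm : IsFiniteMeasure (volume.restrict X) := ⟨by
    rw [Measure.restrict_apply MeasurableSet.univ, univ_inter]
    exact lt_top_iff_ne_top.2 hfin⟩
  let D : ℝ → Set ℝ := fun x => {y | (x, y) ∉ W}
  have hD : ∀ x, MeasurableSet (D x) := fun x => (measurable_prodMk_left hW).compl
  let F : ℝ → ENNReal := fun x => (volume.restrict X) (D x)
  obtain ⟨u, hanti, hlim, hu⟩ := exists_seq_tendsto_sInf (S := F '' X) (hne.image F)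
    ⟨0, fun _ _ => bot_le⟩
  choose x hxX hxF using hu
  let E : Set ℝ := ⋂ n, D (x n)
  have hE : MeasurableSet E := MeasurableSet.iInter (fun n => hD (x n))
  by_cases hL : (X ∩ E).Countable
  · have hc : (range x ∪ (X ∩ E)).Countable := (countable_range x).union hL
    obtain ⟨C, hC⟩ := hc.exists_eq_range ⟨x 0, Or.inl (mem_range_self 0)⟩
    refine ⟨C, ?_, ?_⟩
    · intro n
      have : C n ∈ range x ∪ (X ∩ E) := by rw [hC]; exact mem_range_self n
      rcases this with ⟨m, hm⟩ | h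
      · rw [← hm]
        exact hxX m
      · exact h.1
    · intro y hy
      by_cases hyE : y ∈ E
      · have : y ∈ range C := by rw [← hC]; exact Or.inr ⟨hy, hyE⟩
        obtain ⟨n, hn⟩ := this
        exact ⟨n, by rw [hn]; exact hrefl y⟩
      · simp only [E, mem_iInter, not_forall] at hyE
        obtain ⟨n, hn⟩ := hyE
        have : x n ∈ range C := by rw [← hC]; exact Or.inl (mem_range_self n)
        obtain ⟨m, hm⟩ := this
        refine ⟨m, ?_⟩
        rw [hm]
        by_contra h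
        exact hn h
  · exfalso
    apply hL
    have hsub : ∀ z ∈ X ∩ E, D z ⊆ E := by
      intro z hz y hy
      refine mem_iInter.2 (fun n => ?_)
      intro h
      have h1 : (x n, z) ∉ W := mem_iInter.1 hz.2 n
      have h2 : (z, x n) ∈ W := by
        rcases htot z hz.1 (x n) (hxX n) with h | h
        · exact h
        · exact absurd h h1
      exact hy (htrans _ _ _ h2 h)
    have hEle : (volume.restrict X) E ≤ sInf (F '' X) := by
      apply ge_of_tendsto' hlim
      intro n
      rw [← hxF n]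
      exact measure_mono (iInter_subset _ n)
    have hfinL : volume (X ∩ E) ≠ ⊤ := ne_top_of_le_ne_top hfin (measure_mono inter_subset_left)
    have h0 : volume (X ∩ E) = 0 := by
      apply fubini_total hfinL hW
      · intro z hz
        have h1 : (volume.restrict X) (D z) = (volume.restrict X) E := by
          apply le_antisymm (measure_mono (hsub z hz))
          exact hEle.trans (csInf_le ⟨0, fun _ _ => bot_le⟩ ⟨z, hz.1, rfl⟩)
        have h2 : (volume.restrict X) (E \ D z) = 0 := by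
          rw [measure_sdiff (hsub z hz) (hD z).nullMeasurableSet (measure_ne_top _ _), h1,
            tsub_self]
        rw [Measure.restrict_apply (hE.diff (hD z))] at h2
        have hms : MeasurableSet {y | (z, y) ∈ W} := measurable_prodMk_left hW
        rw [Measure.restrict_apply hms]
        refine measure_mono_null ?_ h2
        rintro y ⟨hy1, hy2⟩
        exact ⟨⟨hy2.2, fun h => h hy1⟩, hy2.1⟩
      · intro a ha b hb
        exact htot a ha.1 b hb.1
    have h3 := hSp (X ∩ E) h0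
    refine h3.mono ?_
    intro y hy
    exact ⟨hy.1, hy⟩

/-- countable Borel linear families on Sierpinski-type sets have infinite point-cofinite
subfamilies -/
theorem exists_gamma_of_lin {X : Set ℝ} (hfin : volume X ≠ ⊤) (hSp : Sp X) (hne : X.Nonempty)
    {U : Set (Set X)} (hc : U.Countable) (hB : ∀ u ∈ U, @MeasurableSet X (borel X) u)
    (hlin : Lin U) : ∃ V ⊆ U, V.Infinite ∧ ∀ x, {v | v ∈ V ∧ x ∉ v}.Finite := by
  classical
  have hinf : U.Infinite := by
    obtain ⟨x, hx⟩ := hne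
    intro h
    exact hlin.large ⟨x, hx⟩ (h.subset (fun u hu => hu.1))
  have : Infinite U := hinf.to_subtype
  have : Countable U := hc.to_subtype
  obtain ⟨e⟩ : Nonempty (ℕ ≃ U) := inferInstance
  have h1 := fun n => exists_borel_ext (hB (e n).1 (e n).2)
  choose w hw hwu using h1
  let W : Set (ℝ × ℝ) := {p | ∃ N : ℕ, ∀ n, N ≤ n → p.1 ∈ w n → p.2 ∈ w n}
  have hWm : MeasurableSet W := by
    have h2 : W = ⋃ N : ℕ, ⋂ n : ℕ, ⋂ (_ : N ≤ n), ({p : ℝ × ℝ | p.1 ∈ w n}ᶜ ∪
        {p : ℝ × ℝ | p.2 ∈ w n}) := by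
      ext p
      simp only [W, mem_ofPred_eq, mem_iUnion, mem_iInter, mem_union, mem_compl_iff]
      constructor
      · rintro ⟨N, hN⟩
        refine ⟨N, fun n hn => ?_⟩
        by_cases h : p.1 ∈ w n
        · exact Or.inr (hN n hn h)
        · exact Or.inl h
      · rintro ⟨N, hN⟩
        refine ⟨N, fun n hn h => ?_⟩
        rcases hN n hn with h' | h'
        · exact absurd h h'
        · exact h'
    rw [h2]
    refine MeasurableSet.iUnion (fun N => MeasurableSet.iInter (fun n =>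
      MeasurableSet.iInter (fun _ => ?_)))
    exact (measurable_fst (hw n)).compl.union (measurable_snd (hw n))
  -- relation with `Le`
  have hmem : ∀ (x : X) n, x ∈ (e n).1 ↔ (x : ℝ) ∈ w n := by
    intro x n
    rw [← hwu n]
    rfl
  have hLe : ∀ x y : X, Le U x y ↔ ((x : ℝ), (y : ℝ)) ∈ W := by
    intro x y
    constructor
    · intro h
      have h2 : {n | x ∈ (e n).1 ∧ y ∉ (e n).1}.Finite := by
        have h3 : Set.InjOn (fun n => (e n).1) ((fun n => (e n).1) ⁻¹'
            {u | u ∈ U ∧ x ∈ u ∧ y ∉ u}) := by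
          intro a _ b _ hab
          exact e.injective (Subtype.ext hab)
        apply (h.preimage h3).subset
        rintro n ⟨h4, h5⟩
        exact ⟨(e n).2, h4, h5⟩
      obtain ⟨M, hM⟩ := h2.bddAbove
      refine ⟨M + 1, fun n hn hx => ?_⟩
      by_contra hy
      have h6 := hM (show n ∈ {n | x ∈ (e n).1 ∧ y ∉ (e n).1} from
        ⟨(hmem x n).2 hx, fun h => hy ((hmem y n).1 h)⟩)
      omega
    · rintro ⟨N, hN⟩
      apply ((finite_lt_nat N).image (fun n => (e n).1)).subset
      rintro u ⟨hu, hx, hy⟩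
      refine ⟨e.symm ⟨u, hu⟩, ?_, by simp⟩
      by_contra hcon
      have h2 : N ≤ e.symm ⟨u, hu⟩ := le_of_not_gt (fun h => hcon h)
      apply hy
      have h3 := hN _ h2 ((hmem x _).1 (by simpa using hx))
      simpa using (hmem y _).2 h3
  obtain ⟨C, hC, hCW⟩ := coinitial hfin hSp hne hWm (fun x => ⟨0, fun n _ h => h⟩)
    (fun x y z ⟨N, hN⟩ ⟨M, hM⟩ => ⟨max N M, fun n hn h =>
      hM n (le_of_max_le_right hn) (hN n (le_of_max_le_left hn) h)⟩)
    (fun x hx y hy => by
      rcases hlin.lin ⟨x, hx⟩ ⟨y, hy⟩ with h | h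
      · exact Or.inl ((hLe _ _).1 h)
      · exact Or.inr ((hLe _ _).1 h))
  obtain ⟨V, hVU, hVinf, hV⟩ := hlin.exists_pseudo (fun n => ⟨C n, hC n⟩)
  refine ⟨V, hVU, hVinf, fun y => ?_⟩
  obtain ⟨n, hn⟩ := hCW y y.2
  have h2 : Le U ⟨C n, hC n⟩ y := (hLe ⟨C n, hC n⟩ y).2 hn
  apply ((hV n).union h2).subset
  rintro v ⟨hv, hyv⟩
  by_cases h : (⟨C n, hC n⟩ : X) ∈ v
  · exact Or.inr ⟨hVU hv, h, hyv⟩
  · exact Or.inl ⟨hv, h⟩

/-- open tau-covers of Sierpinski-type sets contain gamma-covers -/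
theorem tauGamma_open {X : Set ℝ} (hfin : volume X ≠ ⊤) (hSp : Sp X) (hne : X.Nonempty) :
    TauGamma (OpenFam X) := by
  intro U hU
  have : Nonempty X := hne.to_subtype
  obtain ⟨V, hVU, hVc, hV⟩ := exists_countable_tau hU
  obtain ⟨hV1, hV2, hV3⟩ := tau_iff.1 hV
  obtain ⟨V', hV'V, hinf, hV'⟩ := exists_gamma_of_lin hfin hSp hne hVc (fun u hu => by
    let _ := borel X
    have _ : BorelSpace X := ⟨rfl⟩
    exact (hV1 u hu).measurableSet) hV3
  exact ⟨V', hV'V.trans hVU, gamma_of_seq (fun u hu => hV1 u (hV'V hu))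
    (fun h => hV2.2 (hV'V h)) hinf hV'⟩

/-- countable Borel tau-covers of Sierpinski-type sets contain gamma-covers -/
theorem tauGamma_borel {X : Set ℝ} (hfin : volume X ≠ ⊤) (hSp : Sp X) (hne : X.Nonempty) :
    TauGamma (BorelFam X) := by
  intro U hU
  obtain ⟨hV1, hV2, hV3⟩ := tau_iff.1 hU
  obtain ⟨V', hV'V, hinf, hV'⟩ := exists_gamma_of_lin hfin hSp hne hV1.1 hV1.2 hV3
  exact ⟨V', hV'V, gamma_of_seq ((adm_borel X).mono hV1 hV'V)
    (fun h => hV2.2 (hV'V h)) hinf hV'⟩

/-- Sierpinski-type sets satisfy selection for families of Borel gamma-covers -/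
theorem good_of_sp {X : Set ℝ} (hfin : volume X ≠ ⊤) (hSp : Sp X) {G : Set (Set (Set X))}
    (hG : ∀ U ∈ G, ∀ u ∈ U, @MeasurableSet X (borel X) u) : Good G univ := by
  classical
  have hfm : IsFiniteMeasure (volume.restrict X) := ⟨by
    rw [Measure.restrict_apply MeasurableSet.univ, univ_inter]
    exact lt_top_iff_ne_top.2 hfin⟩
  intro U hU
  have hemb : ∀ n, ∃ v : ℕ → Set X, Function.Injective v ∧ ∀ k, v k ∈ U n := by
    intro n
    refine ⟨fun k => (((hU n).2.2.1.natEmbedding (U n) k : U n) : Set X), ?_, ?_⟩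
    · intro a b hab
      exact ((hU n).2.2.1.natEmbedding (U n)).injective (Subtype.ext hab)
    · intro k
      exact ((hU n).2.2.1.natEmbedding (U n) k).2
  choose v hvinj hvU using hemb
  have h1 := fun n k => exists_borel_ext (hG (U n) (hU n).1 (v n k) (hvU n k))
  choose w hw hwv using h1
  have hmem : ∀ (x : X) n k, x ∈ v n k ↔ (x : ℝ) ∈ w n k := by
    intro x n k
    rw [← hwv n k]
    rfl
  -- thresholds
  have hthr : ∀ (x : X) n, ∃ M : ℕ, ∀ k, M ≤ k → x ∈ v n k := by
    intro x n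
    have h2 : {k | x ∉ v n k}.Finite := by
      have h3 : Set.InjOn (v n) (v n ⁻¹' {u | u ∈ U n ∧ x ∉ u}) := (hvinj n).injOn
      apply (((hU n).2.2.2 x).preimage h3).subset
      intro k hk
      exact ⟨hvU n k, hk⟩
    obtain ⟨M, hM⟩ := h2.bddAbove
    refine ⟨M + 1, fun k hk => ?_⟩
    by_contra hx
    have := hM (show k ∈ {k | x ∉ v n k} from hx)
    omega
  choose M hM using hthr
  -- tails
  let E : ℕ → ℕ → Set ℝ := fun n m => ⋃ k : ℕ, ⋃ (_ : m ≤ k), (w n k)ᶜ
  have hE : ∀ n m, MeasurableSet (E n m) := fun n m =>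
    MeasurableSet.iUnion (fun k => MeasurableSet.iUnion (fun _ => (hw n k).compl))
  have hEanti : ∀ n, Antitone (E n) := by
    intro n m m' hmm x hx
    simp only [E, mem_iUnion] at hx ⊢
    obtain ⟨k, hk, hx⟩ := hx
    exact ⟨k, hmm.trans hk, hx⟩
  have hlim : ∀ n, Tendsto (fun m => (volume.restrict X) (E n m)) atTop (𝓝 0) := by
    intro n
    have h2 : (volume.restrict X) (⋂ m, E n m) = 0 := by
      apply restrict_zero (MeasurableSet.iInter (hE n))
      intro x hx h
      have h3 := mem_iInter.1 h (M ⟨x, hx⟩ n)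
      simp only [E, mem_iUnion] at h3
      obtain ⟨k, hk, hxk⟩ := h3
      exact hxk ((hmem ⟨x, hx⟩ n k).1 (hM ⟨x, hx⟩ n k hk))
    have h3 := tendsto_measure_iInter_atTop (μ := volume.restrict X) (s := E n)
      (fun m => (hE n m).nullMeasurableSet) (hEanti n) ⟨0, measure_ne_top _ _⟩
    rw [h2] at h3
    exact h3
  have hf : ∀ n, ∃ m, (volume.restrict X) (E n m) ≤ (2⁻¹ : ENNReal) ^ n := by
    intro n
    have h2 : (0 : ENNReal) < (2⁻¹ : ENNReal) ^ n := by
      apply ENNReal.pow_pos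
      simp
    obtain ⟨m, hm⟩ := ((hlim n).eventually (Iio_mem_nhds h2)).exists
    exact ⟨m, le_of_lt hm⟩
  choose f hf using hf
  have hBC : (volume.restrict X) (limsup (fun n => E n (f n)) atTop) = 0 := by
    apply measure_limsup_atTop_eq_zero
    apply ne_top_of_le_ne_top _ (ENNReal.tsum_le_tsum hf)
    rw [ENNReal.tsum_geometric]
    simp
  have hlm : MeasurableSet (limsup (fun n => E n (f n)) atTop) :=
    MeasurableSet.measurableSet_limsup (fun n => hE n (f n))
  rw [Measure.restrict_apply hlm] at hBC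
  have hcount := hSp _ hBC
  let N : Set X := {x | (x : ℝ) ∈ limsup (fun n => E n (f n)) atTop}
  have hN : N.Countable := by
    apply (hcount.preimage (Subtype.val_injective (p := fun x => x ∈ X))).mono
    intro x hx
    exact ⟨x.2, hx, x.2⟩
  obtain ⟨F, hFfin, hFev⟩ : ∃ F : ℕ → Set X, (∀ n, (F n).Finite) ∧
      ∀ x ∈ N, ∃ K, ∀ n, K ≤ n → x ∈ F n := by
    rcases N.eq_empty_or_nonempty with he | hne
    · exact ⟨fun _ => ∅, fun _ => finite_empty, fun x hx => by rw [he] at hx; exact hx.elim⟩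
    · obtain ⟨c, hc⟩ := hN.exists_eq_range hne
      refine ⟨fun n => c '' {i | i ≤ n}, fun n => (finite_le_nat n).image c, ?_⟩
      intro x hx
      rw [hc] at hx
      obtain ⟨i, rfl⟩ := hx
      refine ⟨i, fun n hn => ⟨i, ?_, rfl⟩⟩
      have hle : i ≤ n := hn
      exact hle
  have hg : ∀ n, ∃ g, f n ≤ g ∧ ∀ x ∈ F n, M x n ≤ g := by
    intro n
    obtain ⟨B, hB⟩ := ((hFfin n).image (fun x => M x n)).bddAbove
    exact ⟨max (f n) B, le_max_left _ _, fun x hx => (hB ⟨x, hx, rfl⟩).trans (le_max_right _ _)⟩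
  choose g hg1 hg2 using hg
  refine ⟨fun n => v n (g n), fun n => hvU n (g n), fun x _ => ?_⟩
  by_cases hx : x ∈ N
  · obtain ⟨K, hK⟩ := hFev x hx
    apply (finite_lt_nat K).subset
    intro n hn
    by_contra hnK
    exact hn (hM x n (g n) (hg2 n x (hK n (le_of_not_gt (fun h => hnK h)))))
  · have h2 : ¬ ((x : ℝ) ∈ limsup (fun n => E n (f n)) atTop) := hx
    rw [mem_limsup_iff_frequently_mem, not_frequently] at h2
    obtain ⟨K, hK⟩ := eventually_atTop.1 h2
    apply (finite_lt_nat K).subset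
    intro n hn
    by_contra hnK
    have h3 := hK n (le_of_not_gt (fun h => hnK h))
    apply h3
    simp only [E, mem_iUnion]
    exact ⟨g n, hg1 n, fun h => hn ((hmem x n (g n)).2 h)⟩

theorem s1_tau_gamma_open {X : Set ℝ} (hfin : volume X ≠ ⊤) (hSp : Sp X) (hne : X.Nonempty) :
    S1 (TauOf (OpenFam X)) (GammaOf (OpenFam X)) :=
  s1_tau_gamma (adm_open X) (tauGamma_open hfin hSp hne) (good_of_sp hfin hSp (fun U hU u hu => by
    let _ := borel X
    have _ : BorelSpace X := ⟨rfl⟩
    exact (hU u hu).measurableSet))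

end Pool.Agent.Helper185.Sierp
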