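import Mathlib

/-!
Finite binary words and sets of words containing large binary trees.
-/

namespace Pool.Agent.Helper185.Tre

open Set Filter

/-- finite binary words -/
def W : Type := List Bool

instance : TopologicalSpace W := ⊥
instance : DiscreteTopology W := ⟨rfl⟩
instance : MeasurableSpace W := ⊤
instance : Countable W := inferInstanceAs (Countable (List Bool))
instance : Inhabited W := ⟨([] : List Bool)⟩

/-- the order of extension -/
def pre (v w : W) : Prop := List.IsPrefix (v : List Bool) (w : List Bool)

/-- the word with one more letter -/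
def app (v : W) (b : Bool) : W := List.append v [b]

/-- the length -/
def len (v : W) : ℕ := (v : List Bool).length

theorem pre_refl (v : W) : pre v v := List.prefix_refl _

theorem pre_trans {u v w : W} (h : pre u v) (h' : pre v w) : pre u w := List.IsPrefix.trans h h'

theorem pre_app (v : W) (b : Bool) : pre v (app v b) := List.prefix_append v [b]

theorem len_app (v : W) (b : Bool) : len (app v b) = len v + 1 := by
  exact List.length_append (as := v) (bs := [b])

theorem app_incomp {v w : W} {b : Bool} (h1 : pre (app v b) w) (h2 : pre (app v (!b)) w) :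
    False := by
  have h3 : (app v b : W) = (app v (!b) : W) := by
    have h4 := List.prefix_of_prefix_length_le h1 h2 (by
      have := len_app v b
      have := len_app v (!b)
      simp only [len] at *
      omega)
    exact h4.eq_of_length (by
      have := len_app v b
      have := len_app v (!b)
      simp only [len] at *
      omega)
  have h5 : [b] = [!b] := List.append_cancel_left (as := v) h3
  cases b <;> simp at h5

/-- the words extending `v` -/
def cone (v : W) : Set W := {w | pre v w}

/-- `A` contains a binary tree of height `m` -/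
def Big : ℕ → Set W → Prop
  | 0, _ => True
  | m + 1, A => ∃ v ∈ A, ∀ b : Bool, Big m (A ∩ cone (app v b))

theorem Big.mono : ∀ {m : ℕ} {A B : Set W}, Big m A → A ⊆ B → Big m B
  | 0, _, _, _, _ => trivial
  | m + 1, A, B, h, hAB => by
    obtain ⟨v, hv, h⟩ := h
    exact ⟨v, hAB hv, fun b => (h b).mono (inter_subset_inter_left _ hAB)⟩

theorem Big.pred : ∀ {m : ℕ} {A : Set W}, Big (m + 1) A → Big m A
  | 0, _, _ => trivial
  | m + 1, A, h => by
    obtain ⟨v, hv, h⟩ := h
    exact ⟨v, hv, fun b => (h b).pred⟩

theorem Big.anti {m n : ℕ} {A : Set W} (h : Big n A) (hmn : m ≤ n) : Big m A := by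
  induction n with
  | zero =>
    obtain rfl : m = 0 := by omega
    exact h
  | succ n ih =>
    rcases Nat.le_succ_iff.1 hmn with h' | rfl
    · exact ih h.pred h'
    · exact h

theorem Big.nonempty {m : ℕ} {A : Set W} (h : Big (m + 1) A) : A.Nonempty := by
  obtain ⟨v, hv, -⟩ := h
  exact ⟨v, hv⟩

theorem Big.nonempty' {m : ℕ} {A : Set W} (h : Big m A) (hm : 0 < m) : A.Nonempty := by
  obtain ⟨m, rfl⟩ : ∃ k, m = k + 1 := ⟨m - 1, by omega⟩
  exact h.nonempty

theorem Big.union : ∀ {n a b : ℕ} {A C : Set W}, n = a + b → Big n (A ∪ C) → Big a A ∨ Big b C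
  | 0, a, b, A, C, hn, h => by
    obtain rfl : a = 0 := by omega
    exact Or.inl trivial
  | n + 1, a, b, A, C, hn, h => by
    rcases Nat.eq_zero_or_pos a with rfl | ha
    · exact Or.inl trivial
    rcases Nat.eq_zero_or_pos b with rfl | hb
    · exact Or.inr trivial
    obtain ⟨v, hv, h⟩ := h
    rcases hv with hv | hv
    · obtain ⟨a, rfl⟩ : ∃ k, a = k + 1 := ⟨a - 1, by omega⟩
      have h1 : ∀ c : Bool, Big a (A ∩ cone (app v c)) ∨ Big b (C ∩ cone (app v c)) := by
        intro c
        apply Big.union (n := n) (by omega)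
        rw [← union_inter_distrib_right]
        exact h c
      by_cases h2 : ∃ c, Big b (C ∩ cone (app v c))
      · obtain ⟨c, hc⟩ := h2
        exact Or.inr (hc.mono inter_subset_left)
      · push Not at h2
        exact Or.inl ⟨v, hv, fun c => (h1 c).resolve_right (h2 c)⟩
    · obtain ⟨b, rfl⟩ : ∃ k, b = k + 1 := ⟨b - 1, by omega⟩
      have h1 : ∀ c : Bool, Big a (A ∩ cone (app v c)) ∨ Big b (C ∩ cone (app v c)) := by
        intro c
        apply Big.union (n := n) (by omega)
        rw [← union_inter_distrib_right]
        exact h c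
      by_cases h2 : ∃ c, Big a (A ∩ cone (app v c))
      · obtain ⟨c, hc⟩ := h2
        exact Or.inl (hc.mono inter_subset_left)
      · push Not at h2
        exact Or.inr ⟨v, hv, fun c => (h1 c).resolve_left (h2 c)⟩

theorem Big.split {a b : ℕ} {A B C : Set W} (h : Big (a + b) A) (hA : A ⊆ B ∪ C) :
    Big a B ∨ Big b C := Big.union rfl (h.mono hA)

theorem Big.remove {T : Type*} [DecidableEq T] (K : Finset T) (C : T → Set W) (d m : ℕ) :
    ∀ {A B : Set W}, A ⊆ B ∪ ⋃ h ∈ K, C h → (∀ h ∈ K, ¬ Big d (C h)) →
      Big (m + K.card * d) A → Big m B := by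
  induction K using Finset.induction_on with
  | empty =>
    intro A B hA _ h
    simp only [Finset.card_empty, zero_mul, add_zero] at h
    exact h.mono (by simpa using hA)
  | insert k K hk ih =>
    intro A B hA hC h
    rw [Finset.card_insert_of_notMem hk] at h
    have h1 : A ⊆ (B ∪ ⋃ h ∈ K, C h) ∪ C k := by
      intro a ha
      rcases hA ha with h | h
      · exact Or.inl (Or.inl h)
      · simp only [mem_iUnion] at h
        obtain ⟨l, hl, hal⟩ := h
        rcases Finset.mem_insert.1 hl with rfl | hl
        · exact Or.inr hal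
        · exact Or.inl (Or.inr (mem_biUnion (x := l) hl hal))
    have h2 : m + (K.card + 1) * d = (m + K.card * d) + d := by ring
    rw [h2] at h
    rcases h.split h1 with h | h
    · exact ih subset_rfl (fun l hl => hC l (Finset.mem_insert_of_mem hl)) h
    · exact absurd h (hC k (Finset.mem_insert_self _ _))

theorem Big.thin : ∀ {m : ℕ} {A : Set W}, Big m A →
    ∃ F : Finset W, (F : Set W) ⊆ A ∧ F.card + 1 ≤ 2 ^ m ∧ Big m (F : Set W)
  | 0, _, _ => ⟨∅, by simp, by simp, trivial⟩
  | m + 1, A, h => by
    classical
    obtain ⟨v, hv, h⟩ := h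
    obtain ⟨F, hF1, hF2, hF3⟩ := (h false).thin
    obtain ⟨G, hG1, hG2, hG3⟩ := (h true).thin
    refine ⟨insert v (F ∪ G), ?_, ?_, ?_⟩
    · intro a ha
      simp only [Finset.coe_insert, Finset.coe_union, mem_insert_iff, mem_union] at ha
      rcases ha with rfl | ha | ha
      · exact hv
      · exact (hF1 ha).1
      · exact (hG1 ha).1
    · have h1 := Finset.card_insert_le v (F ∪ G)
      have h2 := Finset.card_union_le F G
      rw [pow_succ]
      omega
    · refine ⟨v, by simp, ?_⟩
      intro b
      cases b
      · refine hF3.mono ?_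
        intro a ha
        exact ⟨by simp [Finset.mem_coe.1 ha], (hF1 ha).2⟩
      · refine hG3.mono ?_
        intro a ha
        exact ⟨by simp [Finset.mem_coe.1 ha], (hG1 ha).2⟩

theorem big_full : ∀ (m : ℕ) (u : W), Big m (cone u ∩ {w | len w < len u + m})
  | 0, _ => trivial
  | m + 1, u => by
    refine ⟨u, ⟨pre_refl u, by simp⟩, ?_⟩
    intro b
    refine (big_full m (app u b)).mono ?_
    rintro w ⟨hw1, hw2⟩
    refine ⟨⟨pre_trans (pre_app u b) hw1, ?_⟩, hw1⟩
    simp only [mem_ofPred_eq, len_app] at hw2 ⊢
    omega

theorem finite_len (m : ℕ) : {w : W | len w < m}.Finite := List.finite_length_lt Bool m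

/-- the words of length less than `m` -/
noncomputable def full (m : ℕ) : Finset W := (finite_len m).toFinset

theorem mem_full {m : ℕ} {w : W} : w ∈ full m ↔ len w < m := by
  simp [full]

theorem big_full' (m : ℕ) : Big m (full m : Set W) := by
  refine (big_full m (([] : List Bool) : W)).mono ?_
  rintro w ⟨-, hw⟩
  simp only [mem_ofPred_eq] at hw
  rw [Finset.mem_coe, mem_full]
  simpa [len] using hw

end Pool.Agent.Helper185.Tre
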