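import Pool.Agent.Helper185.TrePair

/-!
Decisions for Borel relations; the tasks of the construction.
-/

namespace Pool.Agent.Helper185.Tre

open Set Filter

/-- inclusion at almost all levels -/
def Sub (q' q : ℕ → Set W) : Prop := ∀ᶠ i in atTop, q' i ⊆ q i

theorem Sub.refl (q : ℕ → Set W) : Sub q q := Eventually.of_forall (fun _ => subset_rfl)

theorem Sub.trans {a b c : ℕ → Set W} (h : Sub a b) (h' : Sub b c) : Sub a c := by
  filter_upwards [h, h'] with i h1 h2
  exact h1.trans h2

theorem St.mono {q' q : ℕ → Set W} (h : Sub q' q) {x : ℕ → W} (hx : x ∈ St q') : x ∈ St q := by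
  refine ⟨hx.1, ?_⟩
  filter_upwards [h, hx.2] with i h1 h2
  exact h1 h2

theorem DecP.mono {q r q' r' : ℕ → Set W} {R : (ℕ → W) → (ℕ → W) → Prop} (h : DecP q r R)
    (hq : Sub q' q) (hr : Sub r' r) : DecP q' r' R := by
  obtain ⟨k0, hk0⟩ := eventually_atTop.1 (hq.and hr)
  filter_upwards [h, eventually_ge_atTop k0] with k hk hkk
  intro s hs t ht
  rcases hk s hs t ht with h1 | h1
  · exact Or.inl (fun z y hzy => h1 z y (fun i hi => ⟨(hk0 i (by omega)).1 (hzy i hi).1,
      (hk0 i (by omega)).2 (hzy i hi).2⟩))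
  · exact Or.inr (fun z y hzy => h1 z y (fun i hi => ⟨(hk0 i (by omega)).1 (hzy i hi).1,
      (hk0 i (by omega)).2 (hzy i hi).2⟩))

theorem lower_dir {q : ℕ → ℕ → Set W} (hq : ∀ n, Cnd (q n))
    (hd : ∀ n, ∃ m, ∀ j ≤ n, Sub (q m) (q j)) : ∃ q' : ℕ → Set W, Cnd q' ∧ ∀ n, Sub q' (q n) := by
  choose M hM using hd
  obtain ⟨f, hf, hev⟩ := diag (fun n k => (∀ j ≤ n, q (M n) k ⊆ q j k) ∧ Big (hgt k n) (q (M n) k))
    (by
      intro n
      refine Eventually.and ?_ ((hq (M n)).2 n)
      have h1 : ∀ N, N ≤ n → ∀ᶠ k in atTop, ∀ j ≤ N, q (M n) k ⊆ q j k := by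
        intro N
        induction N with
        | zero =>
          intro _
          filter_upwards [hM n 0 (Nat.zero_le n)] with k hk
          intro j hj
          obtain rfl : j = 0 := by omega
          exact hk
        | succ N ih =>
          intro hN
          filter_upwards [ih (by omega), hM n (N + 1) hN] with k hk1 hk2
          intro j hj
          rcases Nat.le_succ_iff.1 hj with h | rfl
          · exact hk1 j h
          · exact hk2
      exact h1 n le_rfl)
  refine ⟨fun k => q (M (f k)) k, cnd_of_tendsto (fun i => (hq _).1 i) hf (hev.mono fun k h => h.2),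
    ?_⟩
  intro n
  filter_upwards [hev, hf.eventually_ge_atTop n] with k h1 h2
  exact h1.1 n h2

theorem lower_seq {q : ℕ → ℕ → Set W} (hq : ∀ n, Cnd (q n)) (hd : ∀ n, Sub (q (n + 1)) (q n)) :
    ∃ q' : ℕ → Set W, Cnd q' ∧ ∀ n, Sub q' (q n) := by
  apply lower_dir hq
  intro n
  refine ⟨n, ?_⟩
  intro j hj
  induction n, hj using Nat.le_induction with
  | base => exact Sub.refl _
  | succ n _ ih => exact (hd n).trans ih

theorem Cnd.ne {q : ℕ → Set W} (h : Cnd q) : ∀ᶠ i in atTop, (q i).Nonempty := by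
  filter_upwards [h.2 0] with i hi
  exact hi.nonempty' (hgt_pos i 0)

theorem glue_beg_eq {z z' : ℕ → W} {K : ℕ} (h : ∀ i, i < K → z' i = z i) :
    glue (beg z K) z' = z' := by
  funext i
  rcases lt_or_ge i K with hi | hi
  · rw [glue_beg_lt z z' hi, h i hi]
  · exact glue_ge (by rw [beg_length]; exact hi)

/-- relations which can be decided -/
def Good (R : Set ((ℕ → W) × (ℕ → W))) : Prop :=
  ∀ q r : ℕ → Set W, Cnd q → Cnd r → ∃ q' r' : ℕ → Set W, Cnd q' ∧ Cnd r' ∧ Sub q' q ∧ Sub r' r ∧
    DecP q' r' (fun z y => (z, y) ∈ R)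

theorem good_seq {R : ℕ → Set ((ℕ → W) × (ℕ → W))} (hR : ∀ n, Good (R n)) {q r : ℕ → Set W}
    (hq : Cnd q) (hr : Cnd r) : ∃ q' r' : ℕ → Set W, Cnd q' ∧ Cnd r' ∧ Sub q' q ∧ Sub r' r ∧
      ∀ n, DecP q' r' (fun z y => (z, y) ∈ R n) := by
  classical
  let S : Type := {p : (ℕ → Set W) × (ℕ → Set W) // Cnd p.1 ∧ Cnd p.2}
  have hstep : ∀ n (s : S), ∃ t : S, Sub t.1.1 s.1.1 ∧ Sub t.1.2 s.1.2 ∧
      DecP t.1.1 t.1.2 (fun z y => (z, y) ∈ R n) := by
    rintro n ⟨⟨a, b⟩, ha, hb⟩
    obtain ⟨a', b', h1, h2, h3, h4, h5⟩ := hR n a b ha hb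
    exact ⟨⟨(a', b'), h1, h2⟩, h3, h4, h5⟩
  choose next hnext using hstep
  let s : ℕ → S := fun n => Nat.rec (motive := fun _ => S) ⟨(q, r), hq, hr⟩ (fun n t => next n t) n
  have hs : ∀ n, Sub (s (n + 1)).1.1 (s n).1.1 ∧ Sub (s (n + 1)).1.2 (s n).1.2 ∧
      DecP (s (n + 1)).1.1 (s (n + 1)).1.2 (fun z y => (z, y) ∈ R n) := fun n => hnext n (s n)
  obtain ⟨q', hq'1, hq'2⟩ := lower_seq (q := fun n => (s n).1.1) (fun n => (s n).2.1)
    (fun n => (hs n).1)
  obtain ⟨r', hr'1, hr'2⟩ := lower_seq (q := fun n => (s n).1.2) (fun n => (s n).2.2)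
    (fun n => (hs n).2.1)
  exact ⟨q', r', hq'1, hr'1, hq'2 0, hr'2 0, fun n => (hs n).2.2.mono (hq'2 (n + 1)) (hr'2 (n + 1))⟩

/-- the sigma-algebra of relations which can be decided -/
@[reducible] def mD : MeasurableSpace ((ℕ → W) × (ℕ → W)) where
  MeasurableSet' R := Good R
  measurableSet_empty := by
    intro q r hq hr
    exact ⟨q, r, hq, hr, Sub.refl _, Sub.refl _, Eventually.of_forall
      (fun k s _ t _ => Or.inr (fun z y _ h => h))⟩
  measurableSet_compl := by
    intro R hR q r hq hr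
    obtain ⟨q', r', h1, h2, h3, h4, h5⟩ := hR q r hq hr
    refine ⟨q', r', h1, h2, h3, h4, ?_⟩
    filter_upwards [h5] with k hk
    intro s hs t ht
    rcases hk s hs t ht with h | h
    · exact Or.inr (fun z y hzy hcon => hcon (h z y hzy))
    · exact Or.inl (fun z y hzy => h z y hzy)
  measurableSet_iUnion := by
    intro R hR q r hq hr
    obtain ⟨q1, r1, h1, h2, h3, h4, h5⟩ := good_seq hR hq hr
    obtain ⟨q2, r2, g1, g2, g3, g4, g5⟩ := pair_open h1 h2
      (fun z y => (z, y) ∈ ⋃ n, R n) (by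
        intro z hz y hy hzy
        obtain ⟨n, hn⟩ := mem_iUnion.1 hzy
        obtain ⟨k1, hk1⟩ := eventually_atTop.1 hz.2
        obtain ⟨k2, hk2⟩ := eventually_atTop.1 hy.2
        filter_upwards [h5 n, eventually_ge_atTop k1, eventually_ge_atTop k2] with K hK hKk1 hKk2
        intro z' y' hag hin
        rcases hK (beg z K) (beg_mem hz.1 K) (beg y K) (beg_mem hy.1 K) with h | h
        · have h6 := h z' y' hin
          rw [glue_beg_eq (fun i hi => (hag i hi).1), glue_beg_eq (fun i hi => (hag i hi).2)] at h6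
          exact mem_iUnion.2 ⟨n, h6⟩
        · exfalso
          have h6 := h z y (fun i hi => ⟨hk1 i (by omega), hk2 i (by omega)⟩)
          rw [glue_beg, glue_beg] at h6
          exact h6 hn)
    exact ⟨q2, r2, g1, g2, Sub.trans (Eventually.of_forall g3) h3,
      Sub.trans (Eventually.of_forall g4) h4, g5⟩

theorem good_of_measurable {R : Set ((ℕ → W) × (ℕ → W))} (hR : MeasurableSet R) : Good R := by
  have h : (inferInstance : MeasurableSpace ((ℕ → W) × (ℕ → W))) ≤ mD := by
    apply sup_le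
    · rw [MeasurableSpace.comap_le_iff_le_map]
      apply iSup_le
      intro i
      rw [MeasurableSpace.comap_le_iff_le_map]
      intro C _ q r hq hr
      refine ⟨q, r, hq, hr, Sub.refl _, Sub.refl _, ?_⟩
      filter_upwards [eventually_gt_atTop i] with k hk
      intro s hs t _
      by_cases hC : glue s (fun _ => default) i ∈ C
      · left
        intro z y _
        change glue s z i ∈ C
        rw [glue_lt (by rw [len_Hs hs]; exact hk)]
        exact hC
      · right
        intro z y _ hcon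
        change glue s z i ∈ C at hcon
        rw [glue_lt (y := fun _ => default) (by rw [len_Hs hs]; exact hk)] at hcon
        exact hC hcon
    · rw [MeasurableSpace.comap_le_iff_le_map]
      apply iSup_le
      intro i
      rw [MeasurableSpace.comap_le_iff_le_map]
      intro C _ q r hq hr
      refine ⟨q, r, hq, hr, Sub.refl _, Sub.refl _, ?_⟩
      filter_upwards [eventually_gt_atTop i] with k hk
      intro s _ t ht
      by_cases hC : glue t (fun _ => default) i ∈ C
      · left
        intro z y _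
        change glue t y i ∈ C
        rw [glue_lt (by rw [len_Hs ht]; exact hk)]
        exact hC
      · right
        intro z y _ hcon
        change glue t y i ∈ C at hcon
        rw [glue_lt (y := fun _ => default) (by rw [len_Hs ht]; exact hk)] at hcon
        exact hC hcon
  exact h R hR

end Pool.Agent.Helper185.Tre
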