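import Pool.Agent.Helper185.TreMain
import Pool.Agent.Helper185.SilverFinal

/-!
Transport to the real line.
-/

namespace Pool.Agent.Helper185.Tre

open Set Filter Topology Pool.Agent.Helper185.Sel Pool.Agent.Helper185.Silver

theorem exists_emb : ∃ f : (ℕ → W) → (ℕ → Bool), IsEmbedding f := by
  classical
  obtain ⟨d, hd⟩ := exists_surjective_nat W
  let f : (ℕ → W) → (ℕ → Bool) := fun x n => decide (x n.unpair.1 = d n.unpair.2)
  have hc : Continuous f := by
    apply continuous_pi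
    intro n
    exact (continuous_of_discreteTopology (f := fun w : W => decide (w = d n.unpair.2))).comp
      (continuous_apply _)
  refine ⟨f, ⟨⟨?_⟩, ?_⟩⟩
  · apply le_antisymm (continuous_iff_le_induced.1 hc)
    apply le_iInf
    intro i
    intro U hU
    obtain ⟨s, _, rfl⟩ := isOpen_induced_iff.1 hU
    rw [isOpen_induced_iff]
    refine ⟨⋃ k ∈ {k | d k ∈ s}, {z | z (Nat.pair i k) = true}, ?_, ?_⟩
    · apply isOpen_biUnion
      intro k _
      have h2 : Continuous (fun z : ℕ → Bool => z (Nat.pair i k)) := continuous_apply _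
      exact (isOpen_discrete {true}).preimage h2
    · ext x
      simp only [f, mem_preimage, mem_iUnion, mem_ofPred_eq, Nat.unpair_pair, decide_eq_true_eq,
        exists_prop]
      constructor
      · rintro ⟨k, hk, hxk⟩
        rw [hxk]
        exact hk
      · intro hx
        obtain ⟨k, hk⟩ := hd (x i)
        exact ⟨k, by rw [hk]; exact hx, hk.symm⟩
  · intro x y hxy
    funext i
    obtain ⟨k, hk⟩ := hd (y i)
    have h1 := congrFun hxy (Nat.pair i k)
    simp only [f, Nat.unpair_pair, hk, decide_true, decide_eq_true_eq] at h1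
    exact h1

theorem exists_embR : ∃ g : (ℕ → W) → ℝ, IsEmbedding g := by
  obtain ⟨f, hf⟩ := exists_emb
  obtain ⟨g, hg⟩ := exists_embedding_Z
  exact ⟨g ∘ f, hg.comp hf⟩

theorem homeo_image' {g : (ℕ → W) → ℝ} (hg : IsEmbedding g) (X : Set (ℕ → W)) :
    Nonempty (X ≃ₜ (g '' X : Set ℝ)) := by
  have hgX : IsEmbedding (fun x : X => g x) := hg.comp IsEmbedding.subtypeVal
  have h1 : range (fun x : X => g x) = g '' X := by
    ext r
    constructor
    · rintro ⟨x, rfl⟩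
      exact ⟨x, x.2, rfl⟩
    · rintro ⟨x, hx, rfl⟩
      exact ⟨⟨x, hx⟩, rfl⟩
  exact ⟨hgX.toHomeomorph.trans (Homeomorph.setCongr h1)⟩

section

variable {A B : Type*} [TopologicalSpace A] [TopologicalSpace B]

theorem pullB_tau (e : A ≃ₜ B) {U : Set (Set B)} (hU : U ∈ TauOf (BorelFam B)) :
    pullFam e U ∈ TauOf (BorelFam A) := by
  refine ⟨pullB_fam e hU.1, pull_isCov e hU.2.1, ?_, ?_⟩
  · intro x
    apply ((hU.2.2.1 (e x)).image (pre_injective e).injOn).mono
    rintro _ ⟨u, ⟨hu, hx⟩, rfl⟩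
    exact ⟨⟨u, hu, rfl⟩, hx⟩
  · intro x y
    rcases hU.2.2.2 (e x) (e y) with h | h
    · left
      apply (h.image (fun u => e ⁻¹' u)).subset
      rintro _ ⟨⟨u, hu, rfl⟩, hx, hy⟩
      exact ⟨u, ⟨hu, hx, hy⟩, rfl⟩
    · right
      apply (h.image (fun u => e ⁻¹' u)).subset
      rintro _ ⟨⟨u, hu, rfl⟩, hx, hy⟩
      exact ⟨u, ⟨hu, hx, hy⟩, rfl⟩

end

/-- Under the continuum hypothesis there are sets of reals `Y ⊆ X` such that `X` satisfies
`S₁(B_T, B_Γ)` and `Y` satisfies neither `S₁(B_T, B)` nor `S_fin(B_T, B_Ω)`. -/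
theorem exists_real (hCH : Cardinal.aleph 1 = Cardinal.continuum.{0}) :
    ∃ X Y : Set ℝ, Y ⊆ X ∧ Y.Nonempty ∧ S1 (TauOf (BorelFam X)) (GammaOf (BorelFam X)) ∧
      ¬ S1 (TauOf (BorelFam Y)) (CovOf (BorelFam Y)) ∧
      ¬ Sfin (TauOf (BorelFam Y)) (OmegaOf (BorelFam Y)) := by
  obtain ⟨I, _, hne, hI, hmax, e, b, he, hb⟩ := exists_tower hCH
  have h1 := s1_XS hne hI he hb
  have h2 := not_s1_YS hne he hb
  have h3 := not_sfin_YS hne hmax he hb
  obtain ⟨g, hg⟩ := exists_embR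
  obtain ⟨eX⟩ := homeo_image' hg (XS b)
  obtain ⟨eY⟩ := homeo_image' hg (YS b)
  refine ⟨g '' XS b, g '' YS b, image_mono (YS_sub b), ?_, ?_, fun h => h2 ?_, fun h => h3 ?_⟩
  · obtain ⟨i⟩ := hne
    exact ⟨_, _, ⟨i, rfl⟩, rfl⟩
  · exact s1_transport eX (fun U hU => pullB_tau eX hU) (fun U hU => pullB_gamma eX.symm hU) h1
  · exact s1_transport eY.symm (fun U hU => pullB_tau eY.symm hU)
      (fun U hU => pullB_cov eY hU) h
  · exact sfin_transport eY.symm (fun U hU => pullB_tau eY.symm hU)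
      (fun U hU => pullB_omega eY hU) h

/-- all six properties -/
theorem six (hCH : Cardinal.aleph 1 = Cardinal.continuum.{0}) :
    ∃ X Y : Set ℝ, Y ⊆ X ∧
      (S1 (TauOf (BorelFam X)) (GammaOf (BorelFam X)) ∧
        S1 (TauOf (BorelFam X)) (TauOf (BorelFam X)) ∧
        S1 (TauOf (BorelFam X)) (OmegaOf (BorelFam X)) ∧
        S1 (TauOf (BorelFam X)) (CovOf (BorelFam X)) ∧
        Sfin (TauOf (BorelFam X)) (TauOf (BorelFam X)) ∧
        Sfin (TauOf (BorelFam X)) (OmegaOf (BorelFam X))) ∧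
      ¬ S1 (TauOf (BorelFam Y)) (GammaOf (BorelFam Y)) ∧
      ¬ S1 (TauOf (BorelFam Y)) (TauOf (BorelFam Y)) ∧
      ¬ S1 (TauOf (BorelFam Y)) (OmegaOf (BorelFam Y)) ∧
      ¬ S1 (TauOf (BorelFam Y)) (CovOf (BorelFam Y)) ∧
      ¬ Sfin (TauOf (BorelFam Y)) (TauOf (BorelFam Y)) ∧
      ¬ Sfin (TauOf (BorelFam Y)) (OmegaOf (BorelFam Y)) := by
  obtain ⟨X, Y, hYX, hY, h1, h2, h3⟩ := exists_real hCH
  have : Nonempty Y := hY.to_subtype
  have t : TauOf (BorelFam Y) ⊆ CovOf (BorelFam Y) := fun U hU => ⟨hU.1, hU.2.1⟩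
  refine ⟨X, Y, hYX, ⟨h1, h1.mono_right gamma_sub_tau, h1.mono_right gamma_sub_omega,
    (h1.mono_right gamma_sub_omega).mono_right omega_sub_cov,
    sfin_of_s1 (h1.mono_right gamma_sub_tau), sfin_of_s1 (h1.mono_right gamma_sub_omega)⟩,
    fun h => h2 ((h.mono_right gamma_sub_tau).mono_right t), fun h => h2 (h.mono_right t),
    fun h => h2 (h.mono_right omega_sub_cov), h2,
    fun h => h3 (Pool.Agent.Helper185.Silver.Sfin.mono_right h tau_sub_omega), h3⟩

end Pool.Agent.Helper185.Tre
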