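import Pool.Agent.Helper185.TreTower
import Pool.Agent.Helper185.SelTransport
import Pool.Agent.Helper185.SelGamma

/-!
The set of reals and its subset.
-/

namespace Pool.Agent.Helper185.Tre

open Set Filter Pool.Agent.Helper185.Sel

set_option linter.unusedSectionVars false

section

variable {I : Type} [LinearOrder I]

/-- the constructed set -/
def XS (b : I → Da) : Set (ℕ → W) := {x | ∃ i, x = (b i).2.1 ∨ x ∈ (b i).2.2}

/-- the constructed subset -/
def YS (b : I → Da) : Set (ℕ → W) := {x | ∃ i, x = (b i).2.1}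

/-- the points added up to stage `i` -/
def Early (b : I → Da) (i : I) : Set (ℕ → W) := {x | ∃ j, j ≤ i ∧ (x = (b j).2.1 ∨ x ∈ (b j).2.2)}

theorem YS_sub (b : I → Da) : YS b ⊆ XS b := by
  rintro x ⟨i, hi⟩
  exact ⟨i, Or.inl hi⟩

theorem Early_sub (b : I → Da) (i : I) : Early b i ⊆ XS b := by
  rintro x ⟨j, _, hj⟩
  exact ⟨j, hj⟩

theorem Early_countable {e : I → Tk} {b : I → Da} (hI : ∀ i : I, (Iio i).Countable)
    (hb : ∀ i, Req e i (fun j _ => b j) (b i)) (i : I) : (Early b i).Countable := by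
  have h : Early b i ⊆ ⋃ j ∈ (Iio i ∪ {i}), ({(b j).2.1} ∪ (b j).2.2) := by
    rintro x ⟨j, hj, hx⟩
    refine mem_biUnion (x := j) ?_ ?_
    · rcases eq_or_lt_of_le hj with h | h
      · exact Or.inr h
      · exact Or.inl h
    · rcases hx with hx | hx
      · exact Or.inl hx
      · exact Or.inr hx
  refine Set.Countable.mono h ?_
  exact ((hI i).union (countable_singleton i)).biUnion
    (fun j _ => (countable_singleton _).union (hb j).cnt)

theorem late {e : I → Tk} {b : I → Da}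
    (hb : ∀ i, Req e i (fun j _ => b j) (b i)) (i : I) {x : ℕ → W} (hx : x ∈ XS b) :
    x ∈ Early b i ∨ x ∈ St (b i).1 := by
  obtain ⟨j, hj⟩ := hx
  rcases le_or_gt j i with h | h
  · exact Or.inl ⟨j, h, hj⟩
  · right
    rcases hj with rfl | hj
    · exact ((hb j).prev i h).2.1
    · exact ((hb j).prev i h).2.2 hj

theorem Early_nonempty (b : I → Da) (i : I) : (Early b i).Nonempty :=
  ⟨(b i).2.1, i, le_rfl, Or.inl rfl⟩

theorem pseudo_lin {c : ℕ → Set ℕ} (h1 : ∀ i, (c i).Infinite)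
    (h2 : ∀ i j, (c i \ c j).Finite ∨ (c j \ c i).Finite) :
    ∃ D : Set ℕ, D.Infinite ∧ ∀ i, (D \ c i).Finite := by
  have key : ∀ n, ∃ m, ∀ k ≤ n, (c m \ c k).Finite := by
    intro n
    induction n with
    | zero =>
      refine ⟨0, fun k hk => ?_⟩
      obtain rfl : k = 0 := by omega
      simp
    | succ n ih =>
      obtain ⟨m, hm⟩ := ih
      rcases h2 m (n + 1) with h | h
      · refine ⟨m, fun k hk => ?_⟩
        rcases Nat.le_succ_iff.1 hk with hk' | rfl
        · exact hm k hk'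
        · exact h
      · refine ⟨n + 1, fun k hk => ?_⟩
        rcases Nat.le_succ_iff.1 hk with hk' | rfl
        · refine (h.union (hm k hk')).subset ?_
          intro a ha
          by_cases ham : a ∈ c m
          · exact Or.inr ⟨ham, ha.2⟩
          · exact Or.inl ⟨ha.1, ham⟩
        · simp
  apply Pool.Agent.Helper185.Del.exists_pseudo
  intro n
  obtain ⟨m, hm⟩ := key n
  intro hfin
  apply h1 m
  have h3 : (⋃ k ∈ {k | k ≤ n}, (c m \ c k)).Finite := (finite_le_nat n).biUnion (fun k hk => hm k hk)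
  refine (hfin.union h3).subset ?_
  intro a ha
  by_cases hall : ∀ k ≤ n, a ∈ c k
  · left
    simp only [mem_iInter]
    exact fun k hk => hall k hk
  · right
    push Not at hall
    obtain ⟨k, hk, hak⟩ := hall
    simp only [mem_iUnion]
    exact ⟨k, hk, ha, hak⟩

/-- description of countable infinite Borel families on a subset -/
theorem exists_enum_inj {X : Set (ℕ → W)} {U : Set (Set X)} (hU : U ∈ BorelFam X)
    (hinf : U.Infinite) :
    ∃ w : ℕ → Set (ℕ → W), (∀ m, MeasurableSet (w m)) ∧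
      Function.Injective (fun m => (Subtype.val ⁻¹' (w m) : Set X)) ∧
      U = range (fun m => (Subtype.val ⁻¹' (w m) : Set X)) := by
  classical
  have h0 : Countable U := hU.1.to_subtype
  have h0' : Infinite U := hinf.to_subtype
  obtain ⟨eq⟩ := nonempty_denumerable U
  let f : ℕ → Set X := fun n => ((Denumerable.eqv U).symm n : Set X)
  have hf : Function.Injective f := fun m n h =>
    (Denumerable.eqv U).symm.injective (Subtype.val_injective h)
  have hr : U = range f := by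
    ext u
    constructor
    · intro hu
      exact ⟨Denumerable.eqv U ⟨u, hu⟩, by simp [f]⟩
    · rintro ⟨n, rfl⟩
      exact Subtype.mem _
  have h1 : ∀ m, ∃ w : Set (ℕ → W), MeasurableSet w ∧ (Subtype.val ⁻¹' w : Set X) = f m := by
    intro m
    have h2 : @MeasurableSet X (borel X) (f m) := hU.2 _ (by rw [hr]; exact mem_range_self m)
    have h3 : borel X = MeasurableSpace.comap Subtype.val (borel (ℕ → W)) := borel_comap
    rw [h3, MeasurableSpace.measurableSet_comap] at h2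
    have h4 : borel (ℕ → W) = (inferInstance : MeasurableSpace (ℕ → W)) :=
      (BorelSpace.measurable_eq).symm
    rw [h4] at h2
    exact h2
  choose w hw1 hw2 using h1
  have hfw : (fun m => (Subtype.val ⁻¹' (w m) : Set X)) = f := funext hw2
  exact ⟨w, hw1, by rw [hfw]; exact hf, by rw [hfw]; exact hr⟩

/-- the constructed set satisfies `S₁(B_T, B_Γ)` -/
theorem s1_XS {e : I → Tk} {b : I → Da} (hne : Nonempty I) (hI : ∀ i : I, (Iio i).Countable)
    (he : Function.Surjective e) (hb : ∀ i, Req e i (fun j _ => b j) (b i)) :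
    S1 (TauOf (BorelFam (XS b))) (GammaOf (BorelFam (XS b))) := by
  classical
  intro U hU
  obtain ⟨i0⟩ := hne
  let x0 : XS b := ⟨(b i0).2.1, i0, Or.inl rfl⟩
  have hinf : ∀ n, (U n).Infinite := fun n => ((hU n).2.2.1 x0).mono (fun u hu => hu.1)
  have h1 := fun n => exists_enum_inj (hU n).1 (hinf n)
  choose w hw hinj hUw using h1
  -- linearity
  have hlin : ∀ n, ∀ x ∈ XS b, ∀ y ∈ XS b, Al (w n) x y ∨ Al (w n) y x := by
    intro n x hx y hy
    have aux : ∀ (x y : ℕ → W) (hx : x ∈ XS b) (hy : y ∈ XS b),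
        {u | u ∈ U n ∧ (⟨x, hx⟩ : XS b) ∈ u ∧ (⟨y, hy⟩ : XS b) ∉ u}.Finite → Al (w n) x y := by
      intro x y hx hy hfin
      refine (hfin.preimage (hinj n).injOn).subset ?_
      intro m hm
      refine ⟨?_, hm.1, hm.2⟩
      rw [hUw n]
      exact mem_range_self m
    rcases (hU n).2.2.2 ⟨x, hx⟩ ⟨y, hy⟩ with h | h
    · exact Or.inl (aux x y hx hy h)
    · exact Or.inr (aux y x hy hx h)
  have hlarge : ∀ n, ∀ x ∈ XS b, {m | x ∈ w n m}.Infinite := by
    intro n x hx hfin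
    apply (hU n).2.2.1 ⟨x, hx⟩
    refine (hfin.image (fun m => (Subtype.val ⁻¹' (w n m) : Set (XS b)))).subset ?_
    rintro u ⟨hu, hxu⟩
    rw [hUw n] at hu
    obtain ⟨m, rfl⟩ := hu
    exact ⟨m, hxu, rfl⟩
  -- gamma subcovers
  have hD : ∀ n, ∃ D : Set ℕ, D.Infinite ∧ ∀ x ∈ XS b, {m | m ∈ D ∧ x ∉ w n m}.Finite := by
    intro n
    obtain ⟨i, hi⟩ := he (fun m => ⟨w n m, hw n m⟩, fun _ _ => ⟨univ, MeasurableSet.univ⟩,
      fun _ => 0, fun _ => default)
    have hi1 : (fun m => ((e i).1 m).1) = w n := by rw [hi]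
    obtain ⟨c, hc⟩ := (Early_countable hI hb i).exists_eq_range (Early_nonempty b i)
    have hcE : ∀ k, c k ∈ Early b i := fun k => by rw [hc]; exact mem_range_self k
    obtain ⟨D, hD1, hD2⟩ := pseudo_lin (c := fun k => {m | c k ∈ w n m})
      (fun k => hlarge n _ (Early_sub b i (hcE k)))
      (fun k l => by
        rcases hlin n _ (Early_sub b i (hcE k)) _ (Early_sub b i (hcE l)) with h | h
        · exact Or.inl (h.subset (fun m hm => hm))
        · exact Or.inr (h.subset (fun m hm => hm)))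
    have hDE : ∀ x ∈ Early b i, {m | m ∈ D ∧ x ∉ w n m}.Finite := by
      intro x hx
      rw [hc] at hx
      obtain ⟨k, rfl⟩ := hx
      exact (hD2 k).subset (fun m hm => hm)
    refine ⟨D, hD1, ?_⟩
    intro x hx
    rcases late hb i hx with h | h
    · exact hDE x h
    · have hcmp := (hb i).cmp
      rw [hi1] at hcmp
      rcases hcmp with ⟨a, ha, a', ha', h1, h2⟩ | hcmp
      · exfalso
        rcases hlin n a ⟨i, Or.inr ha⟩ a' ⟨i, Or.inr ha'⟩ with h3 | h3
        · exact h1 h3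
        · exact h2 h3
      · obtain ⟨z, hz, hzx⟩ := hcmp x h
        refine ((hDE z ⟨i, le_rfl, Or.inr hz⟩).union hzx).subset ?_
        intro m hm
        by_cases hzm : z ∈ w n m
        · exact Or.inr ⟨hzm, hm.2⟩
        · exact Or.inl ⟨hm.1, hzm⟩
  choose D hD1 hD2 using hD
  -- the sets of the second task
  let B1 : ℕ → ℕ → Set (ℕ → W) := fun n m => ⋂ j, ⋂ (_ : m ≤ j), ⋂ (_ : j ∈ D n), w n j
  let B : ℕ → ℕ → Set (ℕ → W) := fun n m => B1 n m ∪ (⋃ m', B1 n m')ᶜ
  have hB1 : ∀ n m, MeasurableSet (B1 n m) := fun n m =>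
    MeasurableSet.iInter (fun j => MeasurableSet.iInter (fun _ => MeasurableSet.iInter
      (fun _ => hw n j)))
  have hB : ∀ n m, MeasurableSet (B n m) := fun n m =>
    (hB1 n m).union (MeasurableSet.iUnion (fun m' => hB1 n m')).compl
  have hB1mono : ∀ n m m', m ≤ m' → B1 n m ⊆ B1 n m' := by
    intro n m m' hmm x hx
    simp only [B1, mem_iInter] at hx ⊢
    exact fun j hj => hx j (hmm.trans hj)
  have hBmono : ∀ n m m', m ≤ m' → B n m ⊆ B n m' := fun n m m' hmm =>
    union_subset_union_left _ (hB1mono n m m' hmm)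
  have hBall : ∀ n, ⋃ m, B n m = univ := by
    intro n
    rw [eq_univ_iff_forall]
    intro x
    by_cases hx : x ∈ ⋃ m', B1 n m'
    · obtain ⟨m, hm⟩ := mem_iUnion.1 hx
      exact mem_iUnion.2 ⟨m, Or.inl hm⟩
    · exact mem_iUnion.2 ⟨0, Or.inr hx⟩
  have hXB : ∀ x ∈ XS b, ∀ n, ∃ m, x ∈ B1 n m := by
    intro x hx n
    obtain ⟨M, hM⟩ := (hD2 n x hx).bddAbove
    refine ⟨M + 1, ?_⟩
    simp only [B1, mem_iInter]
    intro j hj hjD
    by_contra hcon
    have : j ≤ M := hM ⟨hjD, hcon⟩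
    omega
  obtain ⟨i, hi⟩ := he (fun _ => ⟨univ, MeasurableSet.univ⟩, fun n m => ⟨B n m, hB n m⟩,
    fun _ => 0, fun _ => default)
  have hbdd := (hb i).bdd
  simp only [hi] at hbdd
  obtain ⟨f, hf⟩ := hbdd hBmono hBall
  obtain ⟨c, hc⟩ := (Early_countable hI hb i).exists_eq_range (Early_nonempty b i)
  have hcE : ∀ k, c k ∈ Early b i := fun k => by rw [hc]; exact mem_range_self k
  choose ψ hψ using (fun k n => hXB (c k) (Early_sub b i (hcE k)) n)
  let g : ℕ → ℕ := fun n => f n + ∑ k ∈ Finset.range (n + 1), ψ k n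
  have hg : ∀ x ∈ XS b, ∀ᶠ n in atTop, x ∈ B1 n (g n) := by
    intro x hx
    rcases late hb i hx with h | h
    · rw [hc] at h
      obtain ⟨k, rfl⟩ := h
      filter_upwards [eventually_ge_atTop k] with n hn
      refine hB1mono n (ψ k n) (g n) ?_ (hψ k n)
      have : ψ k n ≤ ∑ k ∈ Finset.range (n + 1), ψ k n :=
        Finset.single_le_sum (f := fun k => ψ k n) (fun _ _ => Nat.zero_le _)
          (Finset.mem_range.2 (by omega))
      simp only [g]
      omega
    · filter_upwards [hf x h] with n hn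
      rcases hn with hn | hn
      · exact hB1mono n (f n) (g n) (by simp only [g]; omega) hn
      · exfalso
        obtain ⟨m, hm⟩ := hXB x hx n
        exact hn (mem_iUnion.2 ⟨m, hm⟩)
  have hsel : ∀ n, ∃ m ∈ D n, g n < m := fun n => (hD1 n).exists_gt (g n)
  choose m hm1 hm2 using hsel
  refine ⟨fun n => Subtype.val ⁻¹' (w n (m n)), ?_, ?_⟩
  · intro n
    rw [hUw n]
    exact mem_range_self _
  · refine range_gamma (adm_borel _) (fun n => (hU n).1) (fun n => (hU n).2.1.2) ?_ ?_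
    · intro n
      rw [hUw n]
      exact mem_range_self _
    · intro x
      obtain ⟨N, hN⟩ := eventually_atTop.1 (hg x x.2)
      apply (finite_lt_nat N).subset
      intro n hn
      by_contra hcon
      apply hn
      have h3 := hN n (le_of_not_gt hcon)
      simp only [B1, mem_iInter] at h3
      exact h3 (m n) (hm2 n).le (hm1 n)

/-- the sets in the covers of the subset -/
def V (b : I → Da) (i : ℕ) (l : W) : Set (YS b) := {y | pre ((y : ℕ → W) i) l}

/-- the covers of the subset -/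
def UT (b : I → Da) (n : ℕ) : Set (Set (YS b)) :=
  {u | ∃ k, ∃ l ∈ T (Nat.pair n k), u = V b (Nat.pair n k) l}

theorem V_borel (b : I → Da) (i : ℕ) (l : W) : @MeasurableSet (YS b) (borel (YS b)) (V b i l) := by
  let _ := borel (YS b)
  have _ : BorelSpace (YS b) := ⟨rfl⟩
  apply IsOpen.measurableSet
  have hc : Continuous (fun y : YS b => (y : ℕ → W) i) :=
    (continuous_apply i).comp continuous_subtype_val
  exact (isOpen_discrete {v : W | pre v l}).preimage hc

theorem UT_borel (b : I → Da) (n : ℕ) : UT b n ∈ BorelFam (YS b) := by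
  refine ⟨?_, ?_⟩
  · refine (countable_range (fun p : ℕ × W => V b (Nat.pair n p.1) p.2)).mono ?_
    rintro _ ⟨k, l, _, rfl⟩
    exact ⟨(k, l), rfl⟩
  · rintro _ ⟨k, l, _, rfl⟩
    exact V_borel b _ l

theorem V_ne {e : I → Tk} {b : I → Da} (he : Function.Surjective e)
    (hb : ∀ i, Req e i (fun j _ => b j) (b i)) (i : ℕ) (l : W) : V b i l ≠ univ := by
  intro hcon
  obtain ⟨j, hj⟩ := he (fun _ => ⟨univ, MeasurableSet.univ⟩, fun _ _ => ⟨univ, MeasurableSet.univ⟩,
    fun _ => i.unpair.2 + 1, fun _ => l)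
  have h1 := (hb j).zone i
  rw [hj] at h1
  apply h1 (by simp [Zone])
  have h2 : (⟨(b j).2.1, j, rfl⟩ : YS b) ∈ V b i l := by rw [hcon]; trivial
  exact h2

theorem tower_le {e : I → Tk} {b : I → Da} (hb : ∀ i, Req e i (fun j _ => b j) (b i))
    {i j : I} (hij : i ≤ j) (n : ℕ) :
    ∀ᶠ k in atTop, pre ((b i).2.1 (Nat.pair n k)) ((b j).2.1 (Nat.pair n k)) := by
  rcases eq_or_lt_of_le hij with h | h
  · subst h
    exact Eventually.of_forall (fun k => pre_refl _)
  · have h1 := (hb i).twr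
    have h2 := ((hb j).prev i h).2.1.2
    have h3 : Tendsto (fun k => Nat.pair n k) atTop atTop :=
      tendsto_atTop_mono (fun k => Nat.right_le_pair n k) tendsto_id
    filter_upwards [h3.eventually h1, h3.eventually h2,
      eventually_ge_atTop ((e i).2.2.1 n)] with k hk1 hk2 hk3
    apply hk1 _ _ hk2
    unfold Zone
    rw [Nat.unpair_pair]
    exact not_lt.2 hk3

theorem finite_bound (hne : Nonempty I) {b : I → Da} {F : Set (YS b)} (hF : F.Finite) :
    ∃ j, ∀ y ∈ F, ∃ i, i ≤ j ∧ (y : ℕ → W) = (b i).2.1 := by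
  classical
  induction F, hF using Set.Finite.induction_on with
  | empty =>
    obtain ⟨i⟩ := hne
    exact ⟨i, fun y hy => absurd hy (by simp)⟩
  | @insert a s _ _ ih =>
    obtain ⟨j, hj⟩ := ih
    obtain ⟨i, hi⟩ := a.2
    refine ⟨max i j, ?_⟩
    rintro y (rfl | hy)
    · exact ⟨i, le_max_left _ _, hi⟩
    · obtain ⟨k, hk, hk2⟩ := hj y hy
      exact ⟨k, hk.trans (le_max_right _ _), hk2⟩

theorem UT_omega {e : I → Tk} {b : I → Da} (hne : Nonempty I)
    (hb : ∀ i, Req e i (fun j _ => b j) (b i)) (n : ℕ) {F : Set (YS b)} (hF : F.Finite) :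
    ∃ u ∈ UT b n, F ⊆ u := by
  obtain ⟨j, hj⟩ := finite_bound hne hF
  have h1 : ∀ᶠ k in atTop, ∀ y ∈ F, pre ((y : ℕ → W) (Nat.pair n k)) ((b j).2.1 (Nat.pair n k)) := by
    rw [hF.eventually_all]
    intro y hy
    obtain ⟨i, hi, hyi⟩ := hj y hy
    rw [hyi]
    exact tower_le hb hi n
  obtain ⟨k, hk⟩ := h1.exists
  exact ⟨V b (Nat.pair n k) ((b j).2.1 (Nat.pair n k)), ⟨k, _, (hb j).memT.1 _, rfl⟩, hk⟩

theorem large_of_omega {X : Type*} {U : Set (Set X)} (huniv : univ ∉ U)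
    (hω : ∀ F : Set X, F.Finite → ∃ u ∈ U, F ⊆ u) (x : X) : {u | u ∈ U ∧ x ∈ u}.Infinite := by
  classical
  intro hfin
  have h1 : ∀ u : Set X, ∃ y : X, u ∈ U → y ∉ u := by
    intro u
    by_cases hu : u ∈ U
    · have : u ≠ univ := fun h => huniv (h ▸ hu)
      obtain ⟨y, hy⟩ := (ne_univ_iff_exists_notMem u).1 this
      exact ⟨y, fun _ => hy⟩
    · exact ⟨x, fun h => absurd h hu⟩
  choose y hy using h1
  obtain ⟨u, hu, hF⟩ := hω (insert x (y '' {u | u ∈ U ∧ x ∈ u})) ((hfin.image y).insert x)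
  exact hy u hu (hF (Or.inr ⟨u, ⟨hu, hF (Or.inl rfl)⟩, rfl⟩))

theorem UT_tau {e : I → Tk} {b : I → Da} (hne : Nonempty I) (he : Function.Surjective e)
    (hb : ∀ i, Req e i (fun j _ => b j) (b i)) (n : ℕ) : UT b n ∈ TauOf (BorelFam (YS b)) := by
  classical
  have huniv : univ ∉ UT b n := by
    rintro ⟨k, l, _, h⟩
    exact V_ne he hb _ l h.symm
  have hcov : ⋃₀ UT b n = univ := by
    rw [eq_univ_iff_forall]
    intro y
    obtain ⟨u, hu, hyu⟩ := UT_omega hne hb n (finite_singleton y)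
    exact ⟨u, hu, hyu rfl⟩
  refine ⟨UT_borel b n, ⟨hcov, huniv⟩, large_of_omega huniv (fun F hF => UT_omega hne hb n hF), ?_⟩
  have aux : ∀ x y : YS b, ∀ i j : I, (x : ℕ → W) = (b i).2.1 → (y : ℕ → W) = (b j).2.1 → i ≤ j →
      {u | u ∈ UT b n ∧ y ∈ u ∧ x ∉ u}.Finite := by
    intro x y i j hx hy hij
    obtain ⟨K, hK⟩ := eventually_atTop.1 (tower_le hb hij n)
    have hfin : (⋃ k ∈ {k | k < K}, ⋃ l ∈ (T (Nat.pair n k) : Set W),
        {V b (Nat.pair n k) l}).Finite :=
      (finite_lt_nat K).biUnion (fun k _ => (T (Nat.pair n k)).finite_toSet.biUnion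
        (fun l _ => finite_singleton _))
    refine hfin.subset ?_
    rintro _ ⟨⟨k, l, hl, rfl⟩, hyu, hxu⟩
    have hk : k < K := by
      by_contra hcon
      apply hxu
      have h1 := hK k (not_lt.1 hcon)
      rw [← hx, ← hy] at h1
      exact pre_trans h1 hyu
    exact mem_biUnion (x := k) hk (mem_biUnion (x := l) hl rfl)
  intro x y
  obtain ⟨i, hi⟩ := x.2
  obtain ⟨j, hj⟩ := y.2
  rcases le_total i j with h | h
  · exact Or.inr (aux x y i j hi hj h)
  · exact Or.inl (aux y x j i hj hi h)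

/-- the constructed subset fails `S₁(B_T, B)` -/
theorem not_s1_YS {e : I → Tk} {b : I → Da} (hne : Nonempty I) (he : Function.Surjective e)
    (hb : ∀ i, Req e i (fun j _ => b j) (b i)) :
    ¬ S1 (TauOf (BorelFam (YS b))) (CovOf (BorelFam (YS b))) := by
  classical
  intro h
  obtain ⟨v, hv, hvc⟩ := h (UT b) (fun n => UT_tau hne he hb n)
  choose k l _ hkl using hv
  obtain ⟨i, hi⟩ := he (fun _ => ⟨univ, MeasurableSet.univ⟩, fun _ _ => ⟨univ, MeasurableSet.univ⟩,
    fun n => k n + 1, fun m => l m.unpair.1)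
  have h1 : (⟨(b i).2.1, i, rfl⟩ : YS b) ∈ ⋃₀ range v := by rw [hvc.2.1]; trivial
  obtain ⟨_, ⟨n, rfl⟩, hn⟩ := h1
  rw [hkl n] at hn
  have h2 := (hb i).zone (Nat.pair n (k n))
  rw [hi] at h2
  simp only [Zone, Nat.unpair_pair] at h2
  exact h2 (by omega) hn

/-- the constructed subset fails `S_fin(B_T, B_Ω)` -/
theorem not_sfin_YS {e : I → Tk} {b : I → Da} (hne : Nonempty I) (hmax : ∀ i : I, ∃ j, i < j)
    (he : Function.Surjective e) (hb : ∀ i, Req e i (fun j _ => b j) (b i)) :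
    ¬ Sfin (TauOf (BorelFam (YS b))) (OmegaOf (BorelFam (YS b))) := by
  classical
  intro h
  obtain ⟨F, hF, hFc⟩ := h (UT b) (fun n => UT_tau hne he hb n)
  have hbd : ∀ n, ∃ G : ℕ, ∀ u ∈ F n, ∃ k, k < G ∧ ∃ l ∈ T (Nat.pair n k), u = V b (Nat.pair n k) l := by
    intro n
    have h1 : ∀ u : Set (YS b), ∃ k, u ∈ F n → ∃ l ∈ T (Nat.pair n k), u = V b (Nat.pair n k) l := by
      intro u
      by_cases hu : u ∈ F n
      · obtain ⟨k, l, hl, h1⟩ := (hF n).2 hu
        exact ⟨k, fun _ => ⟨l, hl, h1⟩⟩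
      · exact ⟨0, fun h => absurd h hu⟩
    choose κ hκ using h1
    obtain ⟨G, hG⟩ := ((hF n).1.image κ).bddAbove
    refine ⟨G + 1, fun u hu => ⟨κ u, ?_, hκ u hu⟩⟩
    have : κ u ≤ G := hG ⟨u, hu, rfl⟩
    omega
  choose g hg using hbd
  obtain ⟨i, hi⟩ := he (fun _ => ⟨univ, MeasurableSet.univ⟩, fun _ _ => ⟨univ, MeasurableSet.univ⟩,
    g, fun _ => default)
  obtain ⟨j, hij⟩ := hmax i
  have hinc := (hb i).inc
  have hnear := ((hb j).prev i hij).2.1.2
  obtain ⟨K, hK⟩ := eventually_atTop.1 (hinc.and hnear)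
  let y1 : YS b := ⟨(b i).2.1, i, rfl⟩
  let y2 : YS b := ⟨(b j).2.1, j, rfl⟩
  have hfin : {u | u ∈ (⋃ n, F n) ∧ y1 ∈ u ∧ y2 ∈ u}.Finite := by
    have hfin' : (⋃ k ∈ {k | k < K}, ⋃ l ∈ (T k : Set W), {V b k l}).Finite :=
      (finite_lt_nat K).biUnion (fun k _ => (T k).finite_toSet.biUnion
        (fun l _ => finite_singleton _))
    refine hfin'.subset ?_
    rintro u ⟨hu, h1, h2⟩
    obtain ⟨n, hn⟩ := mem_iUnion.1 hu
    obtain ⟨k, hk, l, hl, rfl⟩ := hg n u hn
    have hlt : Nat.pair n k < K := by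
      by_contra hcon
      have h3 := hK (Nat.pair n k) (not_lt.1 hcon)
      rw [hi] at h3
      refine h3.1 ?_ _ h3.2 l h2 h1
      simp only [Zone, Nat.unpair_pair]
      exact hk
    exact mem_biUnion (x := Nat.pair n k) hlt (mem_biUnion (x := l) hl rfl)
  have hw : ∀ u : Set (YS b), ∃ y : YS b, u ∈ (⋃ n, F n) → y ∉ u := by
    intro u
    by_cases hu : u ∈ (⋃ n, F n)
    · have : u ≠ univ := fun h => hFc.2.1.2 (h ▸ hu)
      obtain ⟨y, hy⟩ := (ne_univ_iff_exists_notMem u).1 this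
      exact ⟨y, fun _ => hy⟩
    · exact ⟨y1, fun h => absurd h hu⟩
  choose y hy using hw
  obtain ⟨u, hu, hFu⟩ := hFc.2.2 (insert y1 (insert y2
    (y '' {u | u ∈ (⋃ n, F n) ∧ y1 ∈ u ∧ y2 ∈ u}))) (((hfin.image y).insert y2).insert y1)
  exact hy u hu (hFu (Or.inr (Or.inr ⟨u, ⟨hu, hFu (Or.inl rfl), hFu (Or.inr (Or.inl rfl))⟩, rfl⟩)))

end

end Pool.Agent.Helper185.Tre
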