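import Pool.Agent.Helper185.TreBig

/-!
The decision lemma for open sets, for sequences of finite trees, by halving.
-/

namespace Pool.Agent.Helper185.Tre

open Set Filter

/-- the budget function -/
def G (c n d : ℕ) : ℕ := (c + 1) ^ (2 ^ n) * d

theorem G_zero (c d : ℕ) : G c 0 d = (c + 1) * d := by simp [G]

theorem G_succ (c n d : ℕ) : G c (n + 1) d = G c n (G c n d) := by
  unfold G
  rw [pow_succ, pow_mul]
  ring

theorem le_G (c n d : ℕ) : d ≤ G c n d := by
  unfold G
  exact Nat.le_mul_of_pos_left d (pow_pos (Nat.succ_pos c) _)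

theorem G_mono {c c' n n' d d' : ℕ} (hc : c ≤ c') (hn : n ≤ n') (hd : d ≤ d') :
    G c n d ≤ G c' n' d' := by
  unfold G
  apply Nat.mul_le_mul _ hd
  calc (c + 1) ^ 2 ^ n ≤ (c' + 1) ^ 2 ^ n := Nat.pow_le_pow_left (by omega) _
    _ ≤ (c' + 1) ^ 2 ^ n' := Nat.pow_le_pow_right (by omega) (Nat.pow_le_pow_right (by omega) hn)

section

variable {Hist : Type} (ext : ℕ → Hist → W → Hist) (B : ℕ → Hist → (ℕ → W) → Prop)

/-- all branches through `r` from level `j` on are in `B` -/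
def Pos (j : ℕ) (h : Hist) (r : ℕ → Set W) : Prop := ∀ x, (∀ i, j ≤ i → x i ∈ r i) → B j h x

/-- `h` is decided by `A`, with respect to the bounds `d` -/
def Dec (j : ℕ) (h : Hist) (A : ℕ → Set W) (d : ℕ → ℕ) : Prop :=
  Pos B j h A ∨ ¬ ∃ r : ℕ → Set W, (∀ i, j ≤ i → r i ⊆ A i ∧ Big (d i) (r i)) ∧ Pos B j h r

theorem Dec.mono {j : ℕ} {h : Hist} {A A' : ℕ → Set W} {d d' : ℕ → ℕ} (hd : Dec B j h A d)
    (hA : ∀ i, j ≤ i → A' i ⊆ A i) (hdd : ∀ i, j ≤ i → d i ≤ d' i) : Dec B j h A' d' := by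
  rcases hd with hd | hd
  · exact Or.inl (fun x hx => hd x (fun i hi => hA i hi (hx i hi)))
  · right
    rintro ⟨r, hr, hp⟩
    exact hd ⟨r, fun i hi => ⟨(hr i hi).1.trans (hA i hi), (hr i hi).2.anti (hdd i hi)⟩, hp⟩

/-- one task -/
theorem step_one (c : ℕ → ℕ) (j : ℕ) (h : Hist) (A : ℕ → Set W) (d n : ℕ → ℕ)
    (hbig : ∀ i, j ≤ i → Big (G (c i) (n i + 1) (d i)) (A i)) :
    ∃ (A' : ℕ → Set W) (d' : ℕ → ℕ), (∀ i, i < j → A' i = A i ∧ d' i = d i) ∧
      (∀ i, A' i ⊆ A i ∧ d i ≤ d' i) ∧ (∀ i, j ≤ i → Big (G (c i) (n i) (d' i)) (A' i)) ∧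
      Dec B j h A' d' := by
  classical
  by_cases hex : ∃ r : ℕ → Set W, (∀ i, j ≤ i → r i ⊆ A i ∧ Big (G (c i) (n i) (d i)) (r i)) ∧
      Pos B j h r
  · obtain ⟨r, hr, hp⟩ := hex
    refine ⟨fun i => if j ≤ i then r i else A i, d, ?_, ?_, ?_, ?_⟩
    · intro i hi
      exact ⟨if_neg (by omega), rfl⟩
    · intro i
      refine ⟨?_, le_rfl⟩
      by_cases hi : j ≤ i
      · simp only [if_pos hi]
        exact (hr i hi).1
      · simp only [if_neg hi]
        exact subset_rfl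
    · intro i hi
      simp only [if_pos hi]
      exact (hr i hi).2
    · left
      intro x hx
      apply hp
      intro i hi
      have := hx i hi
      simpa only [if_pos hi] using this
  · refine ⟨A, fun i => if j ≤ i then G (c i) (n i) (d i) else d i, ?_, ?_, ?_, ?_⟩
    · intro i hi
      exact ⟨rfl, if_neg (by omega)⟩
    · intro i
      refine ⟨subset_rfl, ?_⟩
      by_cases hi : j ≤ i
      · simp only [if_pos hi]
        exact le_G _ _ _
      · simp only [if_neg hi]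
        exact le_rfl
    · intro i hi
      simp only [if_pos hi]
      rw [← G_succ]
      exact hbig i hi
    · right
      rintro ⟨r, hr, hp⟩
      apply hex
      refine ⟨r, fun i hi => ?_, hp⟩
      have := hr i hi
      simpa only [if_pos hi] using this

/-- all tasks of one level -/
theorem step_level (c : ℕ → ℕ) (j : ℕ) (K : Finset Hist) :
    ∀ (A : ℕ → Set W) (d n : ℕ → ℕ),
      (∀ i, j ≤ i → Big (G (c i) (n i + K.card) (d i)) (A i)) →
      ∃ (A' : ℕ → Set W) (d' : ℕ → ℕ), (∀ i, i < j → A' i = A i ∧ d' i = d i) ∧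
        (∀ i, A' i ⊆ A i ∧ d i ≤ d' i) ∧ (∀ i, j ≤ i → Big (G (c i) (n i) (d' i)) (A' i)) ∧
        ∀ h ∈ K, Dec B j h A' d' := by
  classical
  induction K using Finset.induction_on with
  | empty =>
    intro A d n hbig
    exact ⟨A, d, fun i _ => ⟨rfl, rfl⟩, fun i => ⟨subset_rfl, le_rfl⟩, by simpa using hbig,
      by simp⟩
  | insert k K hk ih =>
    intro A d n hbig
    rw [Finset.card_insert_of_notMem hk] at hbig
    obtain ⟨A1, d1, h1, h2, h3, h4⟩ := step_one B c j k A d (fun i => n i + K.card) hbig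
    obtain ⟨A2, d2, g1, g2, g3, g4⟩ := ih A1 d1 n h3
    refine ⟨A2, d2, ?_, ?_, g3, ?_⟩
    · intro i hi
      exact ⟨(g1 i hi).1.trans (h1 i hi).1, (g1 i hi).2.trans (h1 i hi).2⟩
    · intro i
      exact ⟨(g2 i).1.trans (h2 i).1, (h2 i).2.trans (g2 i).2⟩
    · intro h hh
      rcases Finset.mem_insert.1 hh with rfl | hh
      · exact h4.mono B (fun i _ => (g2 i).1) (fun i _ => (g2 i).2)
      · exact g4 h hh

/-- number of tasks between levels `j` and `i` -/
def nn (c : ℕ → ℕ) (j i : ℕ) : ℕ := ∑ k ∈ Finset.Ico j (i + 1), c k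

theorem nn_step (c : ℕ → ℕ) {j i : ℕ} (h : j ≤ i) : nn c j i = nn c (j + 1) i + c j := by
  unfold nn
  rw [Finset.sum_eq_sum_Ico_succ_bot (by omega : j < i + 1), add_comm]

theorem nn_self (c : ℕ → ℕ) {j i : ℕ} (h : i < j) : nn c j i = 0 := by
  unfold nn
  rw [Finset.Ico_eq_empty (by omega), Finset.sum_empty]

/-- all tasks -/
theorem all_levels (H : ℕ → Finset Hist) (A : ℕ → Set W) (e : ℕ → ℕ)
    (hbig : ∀ i, Big (G (H i).card (nn (fun k => (H k).card) 0 i) (e i)) (A i)) :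
    ∃ (A' : ℕ → Set W) (d' : ℕ → ℕ), (∀ i, A' i ⊆ A i ∧ e i ≤ d' i) ∧
      (∀ i, Big (((H i).card + 1) * d' i) (A' i)) ∧ ∀ j, ∀ h ∈ H j, Dec B j h A' d' := by
  classical
  let c : ℕ → ℕ := fun k => (H k).card
  let S : Type := (ℕ → Set W) × (ℕ → ℕ)
  let P : ℕ → S → Prop := fun j s => ∀ i, Big (G (c i) (nn c j i) (s.2 i)) (s.1 i)
  let R : ℕ → S → S → Prop := fun j s t => (∀ i, i < j → t.1 i = s.1 i ∧ t.2 i = s.2 i) ∧
    (∀ i, t.1 i ⊆ s.1 i ∧ s.2 i ≤ t.2 i) ∧ ∀ h ∈ H j, Dec B j h t.1 t.2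
  have hstep : ∀ j (s : {s : S // P j s}), ∃ t : {t : S // P (j + 1) t}, R j s.1 t.1 := by
    rintro j ⟨s, hs⟩
    obtain ⟨A1, d1, h1, h2, h3, h4⟩ := step_level B c j (H j) s.1 s.2 (fun i => nn c (j + 1) i) (by
      intro i hi
      have := hs i
      rw [nn_step c hi] at this
      exact this)
    refine ⟨⟨(A1, d1), ?_⟩, h1, h2, h4⟩
    intro i
    rcases lt_or_ge i j with hi | hi
    · have h5 := hs i
      rw [nn_self c (by omega : i < j)] at h5
      change Big (G (c i) (nn c (j + 1) i) (d1 i)) (A1 i)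
      rw [nn_self c (by omega : i < j + 1), (h1 i hi).1, (h1 i hi).2]
      exact h5
    · exact h3 i hi
  choose next hnext using hstep
  let s : (j : ℕ) → {s : S // P j s} := fun j =>
    Nat.rec (motive := fun j => {s : S // P j s}) ⟨(A, e), hbig⟩ (fun j s => next j s) j
  have hs : ∀ j, R j (s j).1 (s (j + 1)).1 := fun j => hnext j (s j)
  have hdesc : ∀ j k, j ≤ k → ∀ i, (s k).1.1 i ⊆ (s j).1.1 i ∧ (s j).1.2 i ≤ (s k).1.2 i := by
    intro j k hjk
    induction k, hjk using Nat.le_induction with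
    | base => intro i; exact ⟨subset_rfl, le_rfl⟩
    | succ k _ ih =>
      intro i
      exact ⟨((hs k).2.1 i).1.trans (ih i).1, (ih i).2.trans ((hs k).2.1 i).2⟩
  refine ⟨fun i => (s (i + 1)).1.1 i, fun i => (s (i + 1)).1.2 i, ?_, ?_, ?_⟩
  · intro i
    exact hdesc 0 (i + 1) (by omega) i
  · intro i
    have h1 := (s (i + 1)).2 i
    rw [nn_self c (by omega : i < i + 1), G_zero] at h1
    exact h1
  · intro j h hh
    refine ((hs j).2.2 h hh).mono B ?_ ?_
    · intro i hi
      exact (hdesc (j + 1) (i + 1) (by omega) i).1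
    · intro i hi
      exact (hdesc (j + 1) (i + 1) (by omega) i).2

/-- the history `n` levels later -/
def hist (j : ℕ) (h : Hist) (x : ℕ → W) : ℕ → Hist
  | 0 => h
  | n + 1 => ext (j + n) (hist j h x n) (x (j + n))

/-- The decision lemma for open sets. -/
theorem open_decide (H : ℕ → Finset Hist) (A : ℕ → Set W) (e : ℕ → ℕ)
    (hbig : ∀ i, Big (G (H i).card (nn (fun k => (H k).card) 0 i) (e i)) (A i))
    (hext : ∀ j, ∀ h ∈ H j, ∀ v ∈ A j, ext j h v ∈ H (j + 1))
    (hinv : ∀ j, ∀ h ∈ H j, ∀ x : ℕ → W, x j ∈ A j → (B j h x ↔ B (j + 1) (ext j h (x j)) x))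
    (hloc : ∀ j, ∀ h ∈ H j, ∀ x y : ℕ → W, (∀ i, j ≤ i → x i = y i) → (B j h x → B j h y))
    (hopen : ∀ j, ∀ h ∈ H j, ∀ x : ℕ → W, (∀ i, j ≤ i → x i ∈ A i) → B j h x →
      ∃ K, j ≤ K ∧ ∀ y : ℕ → W, (∀ i, i < K → y i = x i) → (∀ i, K ≤ i → y i ∈ A i) → B j h y) :
    ∃ A' : ℕ → Set W, (∀ i, A' i ⊆ A i ∧ Big (e i) (A' i)) ∧
      ∀ j, ∀ h ∈ H j, Pos B j h A' ∨ (∀ x, (∀ i, j ≤ i → x i ∈ A' i) → ¬ B j h x) := by
  classical
  obtain ⟨A1, d, h1, h2, h3⟩ := all_levels B H A e hbig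
  let C : ℕ → Hist → Set W := fun i h => {v | v ∈ A1 i ∧ Pos B (i + 1) (ext i h v) A1}
  let K : ℕ → Finset Hist := fun i => (H i).filter (fun h => ¬ Pos B i h A1)
  let A2 : ℕ → Set W := fun i => {v | v ∈ A1 i ∧ ∀ h ∈ K i, v ∉ C i h}
  have hA21 : ∀ i, A2 i ⊆ A1 i := fun i v hv => hv.1
  have hd : ∀ i, Big (d i) (A1 i) := fun i => (h2 i).anti (Nat.le_mul_of_pos_left _ (by omega))
  have hC : ∀ i, ∀ h ∈ K i, ¬ Big (d i) (C i h) := by
    intro i h hh hbigC
    have hh1 := (Finset.mem_filter.1 hh).1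
    have hh2 := (Finset.mem_filter.1 hh).2
    rcases h3 i h hh1 with h4 | h4
    · exact hh2 h4
    · apply h4
      refine ⟨fun k => if k = i then C i h else A1 k, ?_, ?_⟩
      · intro k _
        by_cases hk : k = i
        · subst hk
          simp only [if_true]
          exact ⟨fun v hv => hv.1, hbigC⟩
        · simp only [if_neg hk]
          exact ⟨subset_rfl, hd k⟩
      · intro x hx
        have hxi : x i ∈ C i h := by
          have := hx i le_rfl
          simpa only [if_true] using this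
        rw [hinv i h hh1 x ((h1 i).1 hxi.1)]
        apply hxi.2
        intro k hk
        have h9 := hx k (by omega)
        simp only [if_neg (by omega : ¬ k = i)] at h9
        exact h9
  have hbig2 : ∀ i, Big (d i) (A2 i) := by
    intro i
    refine Big.remove (K i) (C i) (d i) (d i) (A := A1 i) ?_ (hC i) ?_
    · intro v hv
      by_cases hv2 : v ∈ A2 i
      · exact Or.inl hv2
      · right
        have : ∃ h ∈ K i, v ∈ C i h := by
          by_contra hcon
          push Not at hcon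
          exact hv2 ⟨hv, hcon⟩
        obtain ⟨h, hh, hvh⟩ := this
        exact mem_biUnion (x := h) hh hvh
    · refine (h2 i).anti ?_
      have h5 : (K i).card ≤ (H i).card := Finset.card_filter_le _ _
      nlinarith [Nat.mul_le_mul_right (d i) h5]
  refine ⟨A2, fun i => ⟨(hA21 i).trans (h1 i).1, (hbig2 i).anti (h1 i).2⟩, ?_⟩
  intro j h hh
  by_cases hp : Pos B j h A1
  · exact Or.inl (fun x hx => hp x (fun i hi => hA21 i (hx i hi)))
  right
  intro x hx hB
  have hxA : ∀ i, j ≤ i → x i ∈ A i := fun i hi => (h1 i).1 (hA21 i (hx i hi))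
  -- histories
  have hmem : ∀ n, hist ext j h x n ∈ H (j + n) := by
    intro n
    induction n with
    | zero => exact hh
    | succ n ih => exact hext (j + n) _ ih _ (hxA (j + n) (by omega))
  have hbad : ∀ n, ¬ Pos B (j + n) (hist ext j h x n) A1 := by
    intro n
    induction n with
    | zero => exact hp
    | succ n ih =>
      intro hcon
      have h5 := (hx (j + n) (by omega)).2 (hist ext j h x n)
        (Finset.mem_filter.2 ⟨hmem n, ih⟩)
      exact h5 ⟨hA21 _ (hx (j + n) (by omega)), hcon⟩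
  have hiff : ∀ n (y : ℕ → W), (∀ i, j ≤ i → i < j + n → y i = x i) →
      (B j h y ↔ B (j + n) (hist ext j h x n) y) := by
    intro n
    induction n with
    | zero => intro y _; exact Iff.rfl
    | succ n ih =>
      intro y hy
      rw [ih y (fun i hi hi' => hy i hi (by omega))]
      have h6 : y (j + n) = x (j + n) := hy (j + n) (by omega) (by omega)
      rw [hinv (j + n) _ (hmem n) y (by rw [h6]; exact hxA _ (by omega)), h6]
      exact Iff.rfl
  obtain ⟨L, hL, hy⟩ := hopen j h hh x hxA hB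
  obtain ⟨n, rfl⟩ : ∃ n, L = j + n := ⟨L - j, by omega⟩
  apply hbad n
  intro y hyA
  let z : ℕ → W := fun i => if i < j + n then x i else y i
  have h7 : B j h z := by
    apply hy z
    · intro i hi
      simp only [z, if_pos hi]
    · intro i hi
      simp only [z, if_neg (by omega : ¬ i < j + n)]
      exact (h1 i).1 (hyA i hi)
  have h8 : B (j + n) (hist ext j h x n) z := by
    rw [← hiff n z (fun i _ hi => by simp only [z, if_pos hi])]
    exact h7
  refine hloc (j + n) _ (hmem n) z y ?_ h8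
  intro i hi
  simp only [z, if_neg (by omega : ¬ i < j + n)]

end

end Pool.Agent.Helper185.Tre
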