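import Pool.Agent.Helper185.TreOpen

/-!
Fast growing trees, conditions, and decisions for pairs of conditions.
-/

namespace Pool.Agent.Helper185.Tre

open Set Filter

/-- first bound -/
def Wz (M S e : ℕ) : ℕ := G (M ^ 2) S e

/-- second bound -/
def Wy (M S e : ℕ) : ℕ := G (M ^ 2 * 2 ^ (Wz M S e)) (S + M ^ 2 * 2 ^ (Wz M S e)) e

/-- heights -/
def aseq (M S : ℕ) : ℕ → ℕ
  | 0 => 1
  | m + 1 => Wz M S (aseq M S m) + Wy M S (aseq M S m) + 1

/-- bounds for the number of histories and of tasks -/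
noncomputable def st : ℕ → ℕ × ℕ
  | 0 => (1, 0)
  | i + 1 => ((st i).1 * (full (aseq (st i).1 ((st i).2 + (st i).1 ^ 2) (i + 1))).card,
      (st i).2 + ((st i).1 ^ 2 + (st i).1 ^ 2 *
        (full (aseq (st i).1 ((st i).2 + (st i).1 ^ 2) (i + 1))).card))

/-- the height of norm `m` at level `i` -/
noncomputable def hgt (i m : ℕ) : ℕ := aseq (st i).1 ((st i).2 + (st i).1 ^ 2) m

/-- the tree at level `i` -/
noncomputable def T (i : ℕ) : Finset W := full (hgt i (i + 1))

theorem st_succ (i : ℕ) : st (i + 1) = ((st i).1 * (T i).card,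
    (st i).2 + ((st i).1 ^ 2 + (st i).1 ^ 2 * (T i).card)) := rfl

theorem hgt_succ (i m : ℕ) : hgt i (m + 1) = Wz (st i).1 ((st i).2 + (st i).1 ^ 2) (hgt i m) +
    Wy (st i).1 ((st i).2 + (st i).1 ^ 2) (hgt i m) + 1 := rfl

theorem hgt_lt (i m : ℕ) : hgt i m < hgt i (m + 1) := by
  rw [hgt_succ]
  have := le_G ((st i).1 ^ 2) ((st i).2 + (st i).1 ^ 2) (hgt i m)
  unfold Wz
  omega

theorem hgt_mono (i : ℕ) : StrictMono (hgt i) := strictMono_nat_of_lt_succ (hgt_lt i)

theorem hgt_pos (i m : ℕ) : 1 ≤ hgt i m := by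
  have h : hgt i 0 = 1 := rfl
  rw [← h]
  exact (hgt_mono i).monotone (Nat.zero_le m)

theorem hgt_two (i m : ℕ) : 2 ≤ hgt i (m + 1) := by
  have := hgt_lt i m
  have := hgt_pos i m
  omega

theorem big_T (i m : ℕ) (h : m ≤ i + 1) : Big (hgt i m) (T i : Set W) :=
  (big_full' _).anti ((hgt_mono i).monotone h)

/-- histories -/
noncomputable def Hs : ℕ → Finset (List W)
  | 0 => {[]}
  | k + 1 => by
    classical
    exact ((Hs k) ×ˢ (T k)).image (fun p => p.1 ++ [p.2])

theorem mem_Hs_succ {k : ℕ} {s : List W} :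
    s ∈ Hs (k + 1) ↔ ∃ t ∈ Hs k, ∃ v ∈ T k, s = t ++ [v] := by
  classical
  simp only [Hs, Finset.mem_image, Finset.mem_product, Prod.exists]
  constructor
  · rintro ⟨t, v, ⟨h1, h2⟩, rfl⟩
    exact ⟨t, h1, v, h2, rfl⟩
  · rintro ⟨t, h1, v, h2, rfl⟩
    exact ⟨t, v, ⟨h1, h2⟩, rfl⟩

theorem card_Hs (k : ℕ) : (Hs k).card ≤ (st k).1 := by
  classical
  induction k with
  | zero => simp [Hs, st]
  | succ k ih =>
    rw [st_succ]
    simp only [Hs]
    refine Finset.card_image_le.trans ?_
    rw [Finset.card_product]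
    exact Nat.mul_le_mul_right _ ih

theorem len_Hs {k : ℕ} {s : List W} (hs : s ∈ Hs k) : s.length = k := by
  induction k generalizing s with
  | zero => simp [Hs] at hs; simp [hs]
  | succ k ih =>
    obtain ⟨t, ht, v, _, rfl⟩ := mem_Hs_succ.1 hs
    simp [ih ht]

theorem getD_Hs {k : ℕ} {s : List W} (hs : s ∈ Hs k) {i : ℕ} (hi : i < k) (w : W) :
    s.getD i w ∈ T i := by
  induction k generalizing s with
  | zero => omega
  | succ k ih =>
    obtain ⟨t, ht, v, hv, rfl⟩ := mem_Hs_succ.1 hs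
    have hl := len_Hs ht
    rcases Nat.lt_succ_iff_lt_or_eq.1 hi with h | rfl
    · rw [List.getD_append _ _ _ _ (by omega)]
      exact ih ht h
    · rw [List.getD_append_right _ _ _ _ (by omega)]
      simpa [hl] using hv

/-- the sequence `x` with a new beginning `s` -/
def glue (s : List W) (x : ℕ → W) : ℕ → W := fun i => s.getD i (x i)

theorem glue_lt {s : List W} {x : ℕ → W} {i : ℕ} (h : i < s.length) (y : ℕ → W) :
    glue s x i = glue s y i := by
  unfold glue
  rw [List.getD_eq_getElem _ _ h, List.getD_eq_getElem _ _ h]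

theorem glue_ge {s : List W} {x : ℕ → W} {i : ℕ} (h : s.length ≤ i) : glue s x i = x i := by
  unfold glue
  rw [List.getD_eq_default _ _ h]

theorem glue_app {s : List W} {x : ℕ → W} {k : ℕ} (h : s.length = k) :
    glue (s ++ [x k]) x = glue s x := by
  funext i
  rcases lt_trichotomy i k with hi | hi | hi
  · simp only [glue]
    rw [List.getD_append _ _ _ _ (by omega)]
  · subst hi
    rw [glue_ge (s := s) (by omega)]
    simp only [glue]
    rw [List.getD_append_right _ _ _ _ (by omega)]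
    simp [h]
  · rw [glue_ge (s := s) (by omega), glue_ge (s := s ++ [x k]) (by
      rw [List.length_append, List.length_singleton]; omega)]

theorem glue_congr {s : List W} {x y : ℕ → W} (h : ∀ i, s.length ≤ i → x i = y i) :
    glue s x = glue s y := by
  funext i
  rcases lt_or_ge i s.length with hi | hi
  · exact glue_lt hi y
  · rw [glue_ge hi, glue_ge hi, h i hi]

/-- the beginning of `x` -/
def beg (x : ℕ → W) (k : ℕ) : List W := (List.range k).map x

theorem beg_length (x : ℕ → W) (k : ℕ) : (beg x k).length = k := by simp [beg]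

theorem beg_succ (x : ℕ → W) (k : ℕ) : beg x (k + 1) = beg x k ++ [x k] := by
  simp [beg, List.range_succ]

theorem beg_mem {x : ℕ → W} (hx : ∀ i, x i ∈ T i) (k : ℕ) : beg x k ∈ Hs k := by
  induction k with
  | zero => simp [beg, Hs]
  | succ k ih =>
    rw [beg_succ, mem_Hs_succ]
    exact ⟨_, ih, x k, hx k, rfl⟩

theorem glue_beg_lt (x y : ℕ → W) {k i : ℕ} (h : i < k) : glue (beg x k) y i = x i := by
  simp [glue, beg, List.getD_eq_getElem?_getD, h]

theorem glue_beg (x : ℕ → W) (k : ℕ) : glue (beg x k) x = x := by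
  funext i
  rcases lt_or_ge i k with h | h
  · exact glue_beg_lt x x h
  · exact glue_ge (by rw [beg_length]; exact h)

theorem glue_mem {k : ℕ} {s : List W} (hs : s ∈ Hs k) {x : ℕ → W} (hx : ∀ i, k ≤ i → x i ∈ T i)
    (i : ℕ) : glue s x i ∈ T i := by
  rcases lt_or_ge i k with h | h
  · exact getD_Hs hs h _
  · rw [glue_ge (by rw [len_Hs hs]; exact h)]
    exact hx i h

/-- conditions -/
def Cnd (q : ℕ → Set W) : Prop :=
  (∀ i, q i ⊆ (T i : Set W)) ∧ ∀ m, ∀ᶠ i in atTop, Big (hgt i m) (q i)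

/-- the points near a condition -/
def St (q : ℕ → Set W) : Set (ℕ → W) := {x | (∀ i, x i ∈ T i) ∧ ∀ᶠ i in atTop, x i ∈ q i}

theorem diag (Q : ℕ → ℕ → Prop) (h : ∀ m, ∀ᶠ k in atTop, Q m k) :
    ∃ n : ℕ → ℕ, Tendsto n atTop atTop ∧ ∀ᶠ k in atTop, Q (n k) k := by
  classical
  have h1 : ∀ m, ∃ K, ∀ k, K ≤ k → Q m k := fun m => eventually_atTop.1 (h m)
  choose K hK using h1
  let L : ℕ → ℕ := fun m => K m + m
  let n : ℕ → ℕ := fun k => Nat.findGreatest (fun m => L m ≤ k) k
  refine ⟨n, ?_, ?_⟩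
  · rw [tendsto_atTop]
    intro m
    filter_upwards [eventually_ge_atTop (L m)] with k hk
    exact Nat.le_findGreatest (by simp only [L] at hk; omega) hk
  · filter_upwards [eventually_ge_atTop (L 0)] with k hk
    have h2 : L (n k) ≤ k := Nat.findGreatest_spec (P := fun m => L m ≤ k) (Nat.zero_le k) hk
    exact hK (n k) k (by simp only [L] at h2; omega)

theorem cnd_of_tendsto {q : ℕ → Set W} (h : ∀ i, q i ⊆ (T i : Set W)) {n : ℕ → ℕ}
    (hn : Tendsto n atTop atTop) (hb : ∀ᶠ i in atTop, Big (hgt i (n i)) (q i)) : Cnd q := by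
  refine ⟨h, fun m => ?_⟩
  filter_upwards [hb, hn.eventually_ge_atTop m] with i hi hi2
  exact hi.anti ((hgt_mono i).monotone hi2)

/-- interleaving -/
def par {α : Type*} (f g : ℕ → α) (j : ℕ) : α := if j % 2 = 0 then f (j / 2) else g (j / 2)

theorem par_even {α : Type*} (f g : ℕ → α) (k : ℕ) : par f g (2 * k) = f k := by
  unfold par
  rw [if_pos (by omega)]
  congr 1
  omega

theorem par_odd {α : Type*} (f g : ℕ → α) (k : ℕ) : par f g (2 * k + 1) = g k := by
  unfold par
  rw [if_neg (by omega)]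
  congr 1
  omega

theorem par_cases {p : ℕ → Prop} (h0 : ∀ k, p (2 * k)) (h1 : ∀ k, p (2 * k + 1)) : ∀ j, p j := by
  intro j
  rcases Nat.even_or_odd' j with ⟨k, rfl | rfl⟩
  · exact h0 k
  · exact h1 k

/-- the relation `R` is decided by the pair of conditions -/
def DecP (q r : ℕ → Set W) (R : (ℕ → W) → (ℕ → W) → Prop) : Prop :=
  ∀ᶠ k in atTop, ∀ s ∈ Hs k, ∀ t ∈ Hs k,
    (∀ z y : ℕ → W, (∀ i, k ≤ i → z i ∈ q i ∧ y i ∈ r i) → R (glue s z) (glue t y)) ∨
    (∀ z y : ℕ → W, (∀ i, k ≤ i → z i ∈ q i ∧ y i ∈ r i) → ¬ R (glue s z) (glue t y))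

theorem pair_open {q r : ℕ → Set W} (hq : Cnd q) (hr : Cnd r)
    (R : (ℕ → W) → (ℕ → W) → Prop)
    (hopen : ∀ z ∈ St q, ∀ y ∈ St r, R z y → ∀ᶠ K in atTop, ∀ z' y' : ℕ → W,
      (∀ i, i < K → z' i = z i ∧ y' i = y i) → (∀ i, K ≤ i → z' i ∈ q i ∧ y' i ∈ r i) →
      R z' y') :
    ∃ q' r' : ℕ → Set W, Cnd q' ∧ Cnd r' ∧ (∀ i, q' i ⊆ q i) ∧ (∀ i, r' i ⊆ r i) ∧
      DecP q' r' R := by
  classical
  obtain ⟨n, hn, hev⟩ := diag (fun m k => Big (hgt k (m + 1)) (q k) ∧ Big (hgt k (m + 1)) (r k))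
    (fun m => (hq.2 (m + 1)).and (hr.2 (m + 1)))
  obtain ⟨k0, hk0⟩ := eventually_atTop.1 hev
  have hthin : ∀ k, ∃ F : Finset W, (F : Set W) ⊆ q k ∧ (k0 ≤ k →
      F.card + 1 ≤ 2 ^ (Wz (st k).1 ((st k).2 + (st k).1 ^ 2) (hgt k (n k))) ∧
      Big (Wz (st k).1 ((st k).2 + (st k).1 ^ 2) (hgt k (n k))) (F : Set W)) := by
    intro k
    by_cases hk : k0 ≤ k
    · have h1 : Big (Wz (st k).1 ((st k).2 + (st k).1 ^ 2) (hgt k (n k))) (q k) := by
        refine (hk0 k hk).1.anti ?_
        rw [hgt_succ]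
        omega
      obtain ⟨F, hF1, hF2, hF3⟩ := h1.thin
      exact ⟨F, hF1, fun _ => ⟨hF2, hF3⟩⟩
    · exact ⟨∅, by simp, fun h => absurd h hk⟩
  choose F hFq hF using hthin
  have hFT : ∀ k, F k ⊆ T k := fun k v hv => hq.1 k (hFq k hv)
  let A : ℕ → Set W := par (fun k => if k0 ≤ k then (F k : Set W) else q k) r
  let e : ℕ → ℕ := par (fun k => if k0 ≤ k then hgt k (n k) else 0)
    (fun k => if k0 ≤ k then hgt k (n k) else 0)
  let H : ℕ → Finset (List W × List W) := par
    (fun k => if k0 ≤ k then Hs k ×ˢ Hs k else ∅)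
    (fun k => if k0 ≤ k then ((Hs k ×ˢ F k).image (fun p => p.1 ++ [p.2])) ×ˢ Hs k else ∅)
  let ext : ℕ → (List W × List W) → W → (List W × List W) := fun j h v =>
    par (fun _ => (h.1 ++ [v], h.2)) (fun _ => (h.1, h.2 ++ [v])) j
  let B : ℕ → (List W × List W) → (ℕ → W) → Prop := fun _ h x =>
    R (glue h.1 (fun i => x (2 * i))) (glue h.2 (fun i => x (2 * i + 1)))
  have hA0 : ∀ k, A (2 * k) = if k0 ≤ k then (F k : Set W) else q k := fun k => par_even _ _ k
  have hA1 : ∀ k, A (2 * k + 1) = r k := fun k => par_odd _ _ k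
  have hA0' : ∀ k, A (2 * k) ⊆ q k := by
    intro k
    rw [hA0]
    split_ifs
    · exact hFq k
    · exact subset_rfl
  have hH0 : ∀ k, H (2 * k) = if k0 ≤ k then Hs k ×ˢ Hs k else ∅ := fun k => par_even _ _ k
  have hH1 : ∀ k, H (2 * k + 1) = if k0 ≤ k then
      ((Hs k ×ˢ F k).image (fun p => p.1 ++ [p.2])) ×ˢ Hs k else ∅ := fun k => par_odd _ _ k
  have he0 : ∀ k, e (2 * k) = if k0 ≤ k then hgt k (n k) else 0 := fun k => par_even _ _ k
  have he1 : ∀ k, e (2 * k + 1) = if k0 ≤ k then hgt k (n k) else 0 := fun k => par_odd _ _ k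
  have hcH0 : ∀ k, (H (2 * k)).card ≤ (st k).1 ^ 2 := by
    intro k
    rw [hH0]
    split_ifs
    · rw [Finset.card_product, sq]
      exact Nat.mul_le_mul (card_Hs k) (card_Hs k)
    · simp
  have hcH1 : ∀ k, (H (2 * k + 1)).card ≤ (st k).1 ^ 2 * (F k).card := by
    intro k
    rw [hH1]
    split_ifs
    · rw [Finset.card_product]
      have h1 : ((Hs k ×ˢ F k).image (fun p => p.1 ++ [p.2])).card ≤ (Hs k).card * (F k).card := by
        refine Finset.card_image_le.trans ?_
        rw [Finset.card_product]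
      calc ((Hs k ×ˢ F k).image (fun p => p.1 ++ [p.2])).card * (Hs k).card
          ≤ ((Hs k).card * (F k).card) * (Hs k).card := Nat.mul_le_mul_right _ h1
        _ ≤ ((st k).1 * (F k).card) * (st k).1 :=
            Nat.mul_le_mul (Nat.mul_le_mul_right _ (card_Hs k)) (card_Hs k)
        _ = (st k).1 ^ 2 * (F k).card := by ring
    · simp
  let c : ℕ → ℕ := fun k => (H k).card
  have hsum : ∀ k, ∑ i ∈ Finset.range (2 * k), c i ≤ (st k).2 := by
    intro k
    induction k with
    | zero => simp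
    | succ k ih =>
      rw [show 2 * (k + 1) = 2 * k + 1 + 1 by ring, Finset.sum_range_succ, Finset.sum_range_succ,
        st_succ]
      have h1 := hcH0 k
      have h2 := (hcH1 k).trans (Nat.mul_le_mul_left _ (Finset.card_le_card (hFT k)))
      simp only [c]
      simp only [c] at ih
      omega
  have hnn0 : ∀ k, nn c 0 (2 * k) ≤ (st k).2 + (st k).1 ^ 2 := by
    intro k
    unfold nn
    rw [← Finset.range_eq_Ico, Finset.sum_range_succ]
    have h1 := hcH0 k
    have h2 := hsum k
    simp only [c] at h2 ⊢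
    omega
  have hnn1 : ∀ k, nn c 0 (2 * k + 1) ≤ (st k).2 + (st k).1 ^ 2 + (st k).1 ^ 2 * (F k).card := by
    intro k
    unfold nn
    rw [← Finset.range_eq_Ico, Finset.sum_range_succ, Finset.sum_range_succ]
    have h1 := hcH0 k
    have h2 := hsum k
    have h3 := hcH1 k
    simp only [c] at h2 ⊢
    omega
  have hbig : ∀ i, Big (G (H i).card (nn (fun k => (H k).card) 0 i) (e i)) (A i) := by
    apply par_cases
    · intro k
      rw [he0, hA0]
      split_ifs with hk
      · refine (hF k hk).2.anti ?_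
        exact G_mono (hcH0 k) (hnn0 k) le_rfl
      · simp only [G, mul_zero]
        exact trivial
    · intro k
      rw [he1, hA1]
      split_ifs with hk
      · refine (hk0 k hk).2.anti ?_
        rw [hgt_succ]
        have h1 : (F k).card ≤ 2 ^ (Wz (st k).1 ((st k).2 + (st k).1 ^ 2) (hgt k (n k))) := by
          have := (hF k hk).1
          omega
        have h2 := Nat.mul_le_mul_left ((st k).1 ^ 2) h1
        have h3 : G (H (2 * k + 1)).card (nn (fun k => (H k).card) 0 (2 * k + 1)) (hgt k (n k)) ≤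
            Wy (st k).1 ((st k).2 + (st k).1 ^ 2) (hgt k (n k)) := by
          unfold Wy
          apply G_mono ((hcH1 k).trans h2) _ le_rfl
          refine (hnn1 k).trans ?_
          omega
        omega
      · simp only [G, mul_zero]
        exact trivial
  have hmem0 : ∀ k (h : List W × List W), h ∈ H (2 * k) → k0 ≤ k ∧ h.1 ∈ Hs k ∧ h.2 ∈ Hs k := by
    intro k h hh
    rw [hH0] at hh
    split_ifs at hh with hk
    · exact ⟨hk, (Finset.mem_product.1 hh).1, (Finset.mem_product.1 hh).2⟩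
    · simp at hh
  have hmem1 : ∀ k (h : List W × List W), h ∈ H (2 * k + 1) →
      k0 ≤ k ∧ h.1 ∈ Hs (k + 1) ∧ h.2 ∈ Hs k := by
    intro k h hh
    rw [hH1] at hh
    split_ifs at hh with hk
    · refine ⟨hk, ?_, (Finset.mem_product.1 hh).2⟩
      obtain ⟨p, hp, hp2⟩ := Finset.mem_image.1 (Finset.mem_product.1 hh).1
      rw [← hp2, mem_Hs_succ]
      exact ⟨p.1, (Finset.mem_product.1 hp).1, p.2, hFT k (Finset.mem_product.1 hp).2, rfl⟩
    · simp at hh
  obtain ⟨A', hA', hdec⟩ := open_decide ext B H A e hbig (by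
    apply par_cases
    · intro k h hh v hv
      obtain ⟨hk, h1, h2⟩ := hmem0 k h hh
      rw [hA0, if_pos hk] at hv
      rw [hH1, if_pos hk]
      have h3 : ext (2 * k) h v = (h.1 ++ [v], h.2) := par_even _ _ k
      rw [h3]
      exact Finset.mem_product.2 ⟨Finset.mem_image.2 ⟨(h.1, v), Finset.mem_product.2 ⟨h1, hv⟩, rfl⟩,
        h2⟩
    · intro k h hh v hv
      obtain ⟨hk, h1, h2⟩ := hmem1 k h hh
      rw [hA1] at hv
      rw [show 2 * k + 1 + 1 = 2 * (k + 1) by ring, hH0, if_pos (by omega)]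
      have h3 : ext (2 * k + 1) h v = (h.1, h.2 ++ [v]) := par_odd _ _ k
      rw [h3]
      exact Finset.mem_product.2 ⟨h1, mem_Hs_succ.2 ⟨h.2, h2, v, hr.1 k hv, rfl⟩⟩)
    (by
    apply par_cases
    · intro k h hh x hx
      obtain ⟨hk, h1, h2⟩ := hmem0 k h hh
      have h3 : ext (2 * k) h (x (2 * k)) = (h.1 ++ [x (2 * k)], h.2) := par_even _ _ k
      rw [h3]
      change R _ _ ↔ R _ _
      simp only
      rw [glue_app (x := fun i => x (2 * i)) (len_Hs h1)]
    · intro k h hh x hx
      obtain ⟨hk, h1, h2⟩ := hmem1 k h hh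
      have h3 : ext (2 * k + 1) h (x (2 * k + 1)) = (h.1, h.2 ++ [x (2 * k + 1)]) := par_odd _ _ k
      rw [h3]
      change R _ _ ↔ R _ _
      simp only
      rw [glue_app (x := fun i => x (2 * i + 1)) (len_Hs h2)])
    (by
    apply par_cases
    · intro k h hh x y hxy hB
      obtain ⟨hk, h1, h2⟩ := hmem0 k h hh
      change R _ _
      have g1 : glue h.1 (fun i => y (2 * i)) = glue h.1 (fun i => x (2 * i)) :=
        glue_congr (fun i hi => (hxy (2 * i) (by rw [len_Hs h1] at hi; omega)).symm)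
      have g2 : glue h.2 (fun i => y (2 * i + 1)) = glue h.2 (fun i => x (2 * i + 1)) :=
        glue_congr (fun i hi => (hxy (2 * i + 1) (by rw [len_Hs h2] at hi; omega)).symm)
      rw [g1, g2]
      exact hB
    · intro k h hh x y hxy hB
      obtain ⟨hk, h1, h2⟩ := hmem1 k h hh
      change R _ _
      have g1 : glue h.1 (fun i => y (2 * i)) = glue h.1 (fun i => x (2 * i)) :=
        glue_congr (fun i hi => (hxy (2 * i) (by rw [len_Hs h1] at hi; omega)).symm)
      have g2 : glue h.2 (fun i => y (2 * i + 1)) = glue h.2 (fun i => x (2 * i + 1)) :=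
        glue_congr (fun i hi => (hxy (2 * i + 1) (by rw [len_Hs h2] at hi; omega)).symm)
      rw [g1, g2]
      exact hB)
    (by
    intro j h hh x hx hB
    obtain ⟨k, k', hs, ht, hk, hk'⟩ : ∃ k k', h.1 ∈ Hs k ∧ h.2 ∈ Hs k' ∧ j ≤ 2 * k ∧
        j ≤ 2 * k' + 1 := by
      rcases Nat.even_or_odd' j with ⟨k, rfl | rfl⟩
      · obtain ⟨hk, h1, h2⟩ := hmem0 k h hh
        exact ⟨k, k, h1, h2, by omega, by omega⟩
      · obtain ⟨hk, h1, h2⟩ := hmem1 k h hh
        exact ⟨k + 1, k, h1, h2, by omega, by omega⟩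
    have hz : glue h.1 (fun i => x (2 * i)) ∈ St q := by
      refine ⟨glue_mem hs (fun i hi => hq.1 i (hA0' i (hx _ (by omega)))), ?_⟩
      filter_upwards [eventually_ge_atTop k] with i hi
      rw [glue_ge (by rw [len_Hs hs]; exact hi)]
      exact hA0' i (hx _ (by omega))
    have hy : glue h.2 (fun i => x (2 * i + 1)) ∈ St r := by
      have hx' : ∀ i, k' ≤ i → x (2 * i + 1) ∈ r i := by
        intro i hi
        have := hx (2 * i + 1) (by omega)
        rwa [hA1] at this
      refine ⟨glue_mem ht (fun i hi => hr.1 i (hx' i hi)), ?_⟩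
      filter_upwards [eventually_ge_atTop k'] with i hi
      rw [glue_ge (by rw [len_Hs ht]; exact hi)]
      exact hx' i hi
    obtain ⟨K0, hK0⟩ := eventually_atTop.1 (hopen _ hz _ hy hB)
    let K := max K0 (max j (max k k'))
    have hKK0 : K0 ≤ K := le_max_left _ _
    have hKj : j ≤ K := (le_max_left _ _).trans (le_max_right _ _)
    have hKk : k ≤ K := (le_max_left _ _).trans ((le_max_right _ _).trans (le_max_right _ _))
    have hKk' : k' ≤ K := (le_max_right _ _).trans ((le_max_right _ _).trans (le_max_right _ _))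
    refine ⟨2 * K, by omega, ?_⟩
    intro y hy1 hy2
    apply hK0 K hKK0
    · intro i hi
      constructor
      · rcases lt_or_ge i h.1.length with hil | hil
        · exact glue_lt hil _
        · rw [glue_ge hil, glue_ge hil]
          exact hy1 _ (by omega)
      · rcases lt_or_ge i h.2.length with hil | hil
        · exact glue_lt hil _
        · rw [glue_ge hil, glue_ge hil]
          exact hy1 _ (by omega)
    · intro i hi
      rw [glue_ge (by rw [len_Hs hs]; omega), glue_ge (by rw [len_Hs ht]; omega)]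
      refine ⟨hA0' i (hy2 _ (by omega)), ?_⟩
      have := hy2 (2 * i + 1) (by omega)
      rwa [hA1] at this)
  refine ⟨fun i => A' (2 * i), fun i => A' (2 * i + 1), ?_, ?_, ?_, ?_, ?_⟩
  · refine cnd_of_tendsto (n := n) (fun i => ((hA' _).1.trans (hA0' i)).trans (hq.1 i)) hn ?_
    filter_upwards [eventually_ge_atTop k0] with i hi
    have := (hA' (2 * i)).2
    rwa [he0, if_pos hi] at this
  · refine cnd_of_tendsto (n := n) (fun i => ?_) hn ?_
    · have := (hA' (2 * i + 1)).1
      rw [hA1] at this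
      exact this.trans (hr.1 i)
    · filter_upwards [eventually_ge_atTop k0] with i hi
      have := (hA' (2 * i + 1)).2
      rwa [he1, if_pos hi] at this
  · exact fun i => (hA' _).1.trans (hA0' i)
  · intro i
    have := (hA' (2 * i + 1)).1
    rwa [hA1] at this
  · filter_upwards [eventually_ge_atTop k0] with k hk
    intro s hs t ht
    have h1 : (s, t) ∈ H (2 * k) := by
      rw [hH0, if_pos hk]
      exact Finset.mem_product.2 ⟨hs, ht⟩
    have key : ∀ z y : ℕ → W, (∀ i, k ≤ i → z i ∈ A' (2 * i) ∧ y i ∈ A' (2 * i + 1)) →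
        (∀ i, 2 * k ≤ i → par z y i ∈ A' i) := by
      intro z y hzy i
      rcases Nat.even_or_odd' i with ⟨l, rfl | rfl⟩
      · intro hi
        rw [par_even]
        exact (hzy l (by omega)).1
      · intro hi
        rw [par_odd]
        exact (hzy l (by omega)).2
    have hpz : ∀ z y : ℕ → W, (fun i => par z y (2 * i)) = z := fun z y => by
      funext i; exact par_even z y i
    have hpy : ∀ z y : ℕ → W, (fun i => par z y (2 * i + 1)) = y := fun z y => by
      funext i; exact par_odd z y i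
    rcases hdec (2 * k) (s, t) h1 with h2 | h2
    · left
      intro z y hzy
      have h3 := h2 (par z y) (key z y hzy)
      change R (glue s (fun i => par z y (2 * i))) (glue t (fun i => par z y (2 * i + 1))) at h3
      rw [hpz, hpy] at h3
      exact h3
    · right
      intro z y hzy
      have h3 := h2 (par z y) (key z y hzy)
      change ¬ R (glue s (fun i => par z y (2 * i))) (glue t (fun i => par z y (2 * i + 1))) at h3
      rw [hpz, hpy] at h3
      exact h3

end Pool.Agent.Helper185.Tre
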