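import Pool.Agent.Helper185.TreDec

/-!
The three kinds of tasks of the construction.
-/

namespace Pool.Agent.Helper185.Tre

open Set Filter

/-- `x` is almost below `y` with respect to the family `U` -/
def Al (U : ℕ → Set (ℕ → W)) (x y : ℕ → W) : Prop := {m | x ∈ U m ∧ y ∉ U m}.Finite

theorem finite_iff_bdd {P : ℕ → Prop} : {m | P m}.Finite ↔ ∃ N, ∀ m, N ≤ m → ¬ P m := by
  constructor
  · intro h
    obtain ⟨N, hN⟩ := h.bddAbove
    exact ⟨N + 1, fun m hm hP => by have : m ≤ N := hN hP; omega⟩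
  · rintro ⟨N, hN⟩
    apply (finite_lt_nat N).subset
    intro m hm
    by_contra h
    exact hN m (le_of_not_gt h) hm

theorem measurable_Al {U : ℕ → Set (ℕ → W)} (hU : ∀ m, MeasurableSet (U m)) :
    MeasurableSet {p : (ℕ → W) × (ℕ → W) | Al U p.1 p.2} := by
  have h : {p : (ℕ → W) × (ℕ → W) | Al U p.1 p.2} =
      ⋃ N : ℕ, ⋂ m : ℕ, ⋂ (_ : N ≤ m), (Prod.fst ⁻¹' (U m) ∩ Prod.snd ⁻¹' (U m)ᶜ)ᶜ := by
    ext p
    simp only [Al, finite_iff_bdd, mem_ofPred_eq, mem_iUnion, mem_iInter, mem_compl_iff, mem_inter_iff,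
      mem_preimage]
  rw [h]
  refine MeasurableSet.iUnion (fun N => MeasurableSet.iInter (fun m => MeasurableSet.iInter
    (fun _ => MeasurableSet.compl ?_)))
  exact (measurable_fst (hU m)).inter (measurable_snd (hU m).compl)

theorem Cnd.point {q : ℕ → Set W} (h : Cnd q) : ∃ z : ℕ → W, (∀ i, z i ∈ T i) ∧
    ∀ᶠ i in atTop, z i ∈ q i := by
  classical
  have h1 : ∀ i, ∃ w, w ∈ T i ∧ ((q i).Nonempty → w ∈ q i) := by
    intro i
    by_cases hi : (q i).Nonempty
    · obtain ⟨w, hw⟩ := hi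
      exact ⟨w, h.1 i hw, fun _ => hw⟩
    · have h2 : ((T i : Set W)).Nonempty := (big_T i 0 (Nat.zero_le _)).nonempty' (hgt_pos i 0)
      obtain ⟨w, hw⟩ := h2
      exact ⟨w, hw, fun h => absurd h hi⟩
  choose z hz using h1
  exact ⟨z, fun i => (hz i).1, h.ne.mono (fun i hi => (hz i).2 hi)⟩

theorem task_compare {p : ℕ → Set W} (hp : Cnd p) (U : ℕ → Set (ℕ → W))
    (hU : ∀ m, MeasurableSet (U m)) :
    ∃ (p' : ℕ → Set W) (Z : Set (ℕ → W)), Cnd p' ∧ Sub p' p ∧ Z.Countable ∧ Z ⊆ St p ∧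
      ((∃ a ∈ Z, ∃ b ∈ Z, ¬ Al U a b ∧ ¬ Al U b a) ∨ ∀ x ∈ St p', ∃ z ∈ Z, Al U z x) := by
  classical
  have hR1 : MeasurableSet {p : (ℕ → W) × (ℕ → W) | Al U p.1 p.2} := measurable_Al hU
  have hR2 : MeasurableSet {p : (ℕ → W) × (ℕ → W) | Al U p.2 p.1} :=
    measurable_swap (measurable_Al hU)
  obtain ⟨q1, r1, h1, h2, h3, h4, h5⟩ := good_of_measurable hR1 p p hp hp
  obtain ⟨q, r, hq, hr, g3, g4, g5⟩ := good_of_measurable hR2 q1 r1 h1 h2
  have hD1 : DecP q r (fun z y => Al U z y) := h5.mono g3 g4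
  have hD2 : DecP q r (fun z y => Al U y z) := g5
  have hqp : Sub q p := g3.trans h3
  have hrp : Sub r p := g4.trans h4
  obtain ⟨z0, hz0T, hz0⟩ := hq.point
  obtain ⟨y0, hy0T, hy0⟩ := hr.point
  have hgz : ∀ k, ∀ s ∈ Hs k, glue s z0 ∈ St q := by
    intro k s hs
    refine ⟨glue_mem hs (fun i _ => hz0T i), ?_⟩
    filter_upwards [hz0, eventually_ge_atTop k] with i hi hk
    rw [glue_ge (by rw [len_Hs hs]; exact hk)]
    exact hi
  have hgy : ∀ k, ∀ s ∈ Hs k, glue s y0 ∈ St r := by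
    intro k s hs
    refine ⟨glue_mem hs (fun i _ => hy0T i), ?_⟩
    filter_upwards [hy0, eventually_ge_atTop k] with i hi hk
    rw [glue_ge (by rw [len_Hs hs]; exact hk)]
    exact hi
  let Zq : Set (ℕ → W) := ⋃ k : ℕ, (fun s => glue s z0) '' (Hs k : Set (List W))
  let Zr : Set (ℕ → W) := ⋃ k : ℕ, (fun s => glue s y0) '' (Hs k : Set (List W))
  have hZq : Zq.Countable := countable_iUnion (fun k => ((Hs k).countable_toSet.image _))
  have hZr : Zr.Countable := countable_iUnion (fun k => ((Hs k).countable_toSet.image _))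
  have hZqp : Zq ⊆ St p := by
    intro z hz
    obtain ⟨k, s, hs, rfl⟩ := mem_iUnion.1 hz
    exact St.mono hqp (hgz k s hs)
  have hZrp : Zr ⊆ St p := by
    intro z hz
    obtain ⟨k, s, hs, rfl⟩ := mem_iUnion.1 hz
    exact St.mono hrp (hgy k s hs)
  by_cases hinc : ∃ a ∈ Zq ∪ Zr, ∃ b ∈ Zq ∪ Zr, ¬ Al U a b ∧ ¬ Al U b a
  · exact ⟨p, Zq ∪ Zr, hp, Sub.refl _, hZq.union hZr, union_subset hZqp hZrp, Or.inl hinc⟩
  push Not at hinc
  obtain ⟨k1, hk1⟩ := eventually_atTop.1 (hD1.and (hD2.and (hz0.and hy0)))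
  have htype : ∀ k, k1 ≤ k → ∀ s ∈ Hs k, ∀ t ∈ Hs k,
      (∀ z y : ℕ → W, (∀ i, k ≤ i → z i ∈ q i ∧ y i ∈ r i) → Al U (glue s z) (glue t y)) ∨
      (∀ z y : ℕ → W, (∀ i, k ≤ i → z i ∈ q i ∧ y i ∈ r i) → Al U (glue t y) (glue s z)) := by
    intro k hk s hs t ht
    have hbase : ∀ i, k ≤ i → z0 i ∈ q i ∧ y0 i ∈ r i := fun i hi => (hk1 i (by omega)).2.2
    rcases (hk1 k hk).1 s hs t ht with h | h
    · exact Or.inl h
    rcases (hk1 k hk).2.1 s hs t ht with h' | h'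
    · exact Or.inr h'
    exfalso
    have e1 := h z0 y0 hbase
    have e2 := h' z0 y0 hbase
    have e3 := hinc (glue s z0) (Or.inl (mem_iUnion.2 ⟨k, s, hs, rfl⟩)) (glue t y0)
      (Or.inr (mem_iUnion.2 ⟨k, t, ht, rfl⟩)) e1
    exact e2 e3
  by_cases hfr : ∃ᶠ k in atTop, ∀ t ∈ Hs k, ∃ s ∈ Hs k,
      (∀ z y : ℕ → W, (∀ i, k ≤ i → z i ∈ q i ∧ y i ∈ r i) → Al U (glue s z) (glue t y))
  · refine ⟨r, Zq ∪ Zr, hr, hrp, hZq.union hZr, union_subset hZqp hZrp, Or.inr ?_⟩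
    intro x hx
    obtain ⟨k2, hk2⟩ := eventually_atTop.1 hx.2
    obtain ⟨k, hk, h⟩ := (frequently_atTop.1 hfr) (max k1 k2)
    obtain ⟨s, hs, h⟩ := h (beg x k) (beg_mem hx.1 k)
    refine ⟨glue s z0, Or.inl (mem_iUnion.2 ⟨k, s, hs, rfl⟩), ?_⟩
    have h6 := h z0 x (fun i hi => ⟨(hk1 i ((le_max_left k1 k2).trans (hk.trans hi))).2.2.1,
      hk2 i ((le_max_right k1 k2).trans (hk.trans hi))⟩)
    rw [glue_beg] at h6
    exact h6
  · rw [not_frequently] at hfr
    refine ⟨q, Zq ∪ Zr, hq, hqp, hZq.union hZr, union_subset hZqp hZrp, Or.inr ?_⟩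
    intro x hx
    obtain ⟨k2, hk2⟩ := eventually_atTop.1 hx.2
    obtain ⟨k3, hk3⟩ := eventually_atTop.1 hfr
    let k := max k1 (max k2 k3)
    have hkk1 : k1 ≤ k := le_max_left _ _
    have hkk2 : k2 ≤ k := (le_max_left _ _).trans (le_max_right _ _)
    have hkk3 : k3 ≤ k := (le_max_right _ _).trans (le_max_right _ _)
    have h := hk3 k hkk3
    push Not at h
    obtain ⟨t, ht, h⟩ := h
    have h7 := (htype k hkk1 (beg x k) (beg_mem hx.1 k) t ht).resolve_left (by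
      intro hcon
      obtain ⟨z, y, hzy, hn⟩ := h (beg x k) (beg_mem hx.1 k)
      exact hn (hcon z y hzy))
    refine ⟨glue t y0, Or.inr (mem_iUnion.2 ⟨k, t, ht, rfl⟩), ?_⟩
    have h8 := h7 x y0 (fun i hi => ⟨hk2 i (by omega), (hk1 i (by omega)).2.2.2⟩)
    rw [glue_beg] at h8
    exact h8

/-- a countable intersection of decisions for sets -/
theorem decide_sets {p : ℕ → Set W} (hp : Cnd p) (B : ℕ → Set (ℕ → W))
    (hB : ∀ n, MeasurableSet (B n)) :
    ∃ p' : ℕ → Set W, Cnd p' ∧ Sub p' p ∧ ∀ n, ∀ᶠ k in atTop, ∀ t ∈ Hs k,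
      (∀ y : ℕ → W, (∀ i, k ≤ i → y i ∈ p' i) → glue t y ∈ B n) ∨
      (∀ y : ℕ → W, (∀ i, k ≤ i → y i ∈ p' i) → glue t y ∉ B n) := by
  classical
  obtain ⟨q, r, hq, hr, _, h4, h5⟩ := good_seq (R := fun n => Prod.snd ⁻¹' (B n))
    (fun n => good_of_measurable (measurable_snd (hB n))) hp hp
  refine ⟨r, hr, h4, ?_⟩
  intro n
  obtain ⟨z0, hz0T, hz0⟩ := hq.point
  obtain ⟨k1, hk1⟩ := eventually_atTop.1 hz0
  filter_upwards [h5 n, eventually_ge_atTop k1] with k hk hkk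
  intro t ht
  rcases hk (beg z0 k) (beg_mem hz0T k) t ht with h | h
  · exact Or.inl (fun y hy => h z0 y (fun i hi => ⟨hk1 i (by omega), hy i hi⟩))
  · exact Or.inr (fun y hy => h z0 y (fun i hi => ⟨hk1 i (by omega), hy i hi⟩))

theorem task_bounded {p : ℕ → Set W} (hp : Cnd p) (B : ℕ → ℕ → Set (ℕ → W))
    (hB : ∀ n m, MeasurableSet (B n m)) :
    ∃ p' : ℕ → Set W, Cnd p' ∧ Sub p' p ∧
      ((∀ n m m', m ≤ m' → B n m ⊆ B n m') → (∀ n, ⋃ m, B n m = univ) →
        ∃ g : ℕ → ℕ, ∀ x ∈ St p', ∀ᶠ n in atTop, x ∈ B n (g n)) := by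
  classical
  obtain ⟨p', h1, h2, h3⟩ := decide_sets hp (fun i => B i.unpair.1 i.unpair.2) (fun i => hB _ _)
  refine ⟨p', h1, h2, ?_⟩
  intro hmono hall
  have h3' : ∀ n m, ∀ᶠ k in atTop, ∀ t ∈ Hs k,
      (∀ y : ℕ → W, (∀ i, k ≤ i → y i ∈ p' i) → glue t y ∈ B n m) ∨
      (∀ y : ℕ → W, (∀ i, k ≤ i → y i ∈ p' i) → glue t y ∉ B n m) := by
    intro n m
    have := h3 (Nat.pair n m)
    simpa using this
  -- bounds on compact sets
  have key : ∀ k n, ∃ m, ∀ x : ℕ → W, (∀ i, x i ∈ T i) → (∀ i, k ≤ i → x i ∈ p' i) →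
      x ∈ B n m := by
    intro k n
    let K : Set (ℕ → W) := {x | ∀ i, x i ∈ (if k ≤ i then (T i : Set W) ∩ p' i else (T i : Set W))}
    have hK : IsCompact K := by
      apply isCompact_pi_infinite
      intro i
      apply Set.Finite.isCompact
      split_ifs
      · exact (T i).finite_toSet.subset inter_subset_left
      · exact (T i).finite_toSet
    have hKT : ∀ x ∈ K, ∀ i, x i ∈ T i := by
      intro x hx i
      have := hx i
      split_ifs at this
      · exact this.1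
      · exact this
    have hKp : ∀ x ∈ K, ∀ i, k ≤ i → x i ∈ p' i := by
      intro x hx i hi
      have := hx i
      rw [if_pos hi] at this
      exact this.2
    have hnb : ∀ x ∈ K, ∃ V : Set (ℕ → W), IsOpen V ∧ x ∈ V ∧ ∃ m, V ∩ K ⊆ B n m := by
      intro x hx
      have hxm : x ∈ ⋃ m, B n m := by rw [hall n]; trivial
      obtain ⟨m, hm⟩ := mem_iUnion.1 hxm
      obtain ⟨L, hL, hLk⟩ := ((h3' n m).and (eventually_ge_atTop k)).exists
      refine ⟨{y | ∀ i, i < L → y i = x i}, ?_, fun i _ => rfl, m, ?_⟩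
      · have h6 : {y : ℕ → W | ∀ i, i < L → y i = x i} =
            ⋂ i ∈ {i | i < L}, (fun y : ℕ → W => y i) ⁻¹' {x i} := by
          ext y; simp
        rw [h6]
        exact (finite_lt_nat L).isOpen_biInter (fun i _ =>
          (isOpen_discrete _).preimage (continuous_apply i))
      · rintro y ⟨hy1, hy2⟩
        rcases hL (beg x L) (beg_mem (hKT x hx) L) with h | h
        · have h7 := h y (fun i hi => hKp y hy2 i (by omega))
          rw [glue_beg_eq hy1] at h7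
          exact h7
        · exfalso
          have h7 := h x (fun i hi => hKp x hx i (by omega))
          rw [glue_beg] at h7
          exact h7 hm
    choose! V hV1 hV2 hV3 using hnb
    obtain ⟨F, hF1, hF2⟩ := hK.elim_nhds_subcover V (fun x hx => (hV1 x hx).mem_nhds (hV2 x hx))
    have hm : ∀ x, ∃ m, x ∈ K → V x ∩ K ⊆ B n m := by
      intro x
      by_cases hx : x ∈ K
      · obtain ⟨m, hm⟩ := hV3 x hx
        exact ⟨m, fun _ => hm⟩
      · exact ⟨0, fun h => absurd h hx⟩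
    choose μ hμ using hm
    refine ⟨F.sup μ, ?_⟩
    intro x hxT hxp
    have hxK : x ∈ K := by
      intro i
      split_ifs with hi
      · exact ⟨hxT i, hxp i hi⟩
      · exact hxT i
    obtain ⟨y, hy, hxy⟩ := mem_iUnion₂.1 (hF2 hxK)
    exact hmono n (μ y) (F.sup μ) (Finset.le_sup hy) (hμ y (hF1 y hy) ⟨hxy, hxK⟩)
  choose g hg using key
  refine ⟨fun n => (Finset.range (n + 1)).sup (fun k => g k n), ?_⟩
  intro x hx
  obtain ⟨k, hk⟩ := eventually_atTop.1 hx.2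
  filter_upwards [eventually_ge_atTop k] with n hn
  exact hmono n (g k n) _ (Finset.le_sup (f := fun k => g k n) (Finset.mem_range.2 (by omega)))
    (hg k n x hx.1 hk)

/-- the zone given by `g` -/
def Zone (g : ℕ → ℕ) (i : ℕ) : Prop := i.unpair.2 < g i.unpair.1

/-- the empty word -/
def root : W := ([] : List Bool)

theorem exists_avoid (i : ℕ) (l : W) : ∃ w ∈ T i, ¬ pre w l := by
  by_contra hcon
  push Not at hcon
  have h : ∀ b : Bool, app root b ∈ T i := by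
    intro b
    have h1 : len (app root b) = len root + 1 := len_app root b
    have h2 : len root = 0 := rfl
    have h3 := hgt_two i i
    unfold T
    rw [mem_full]
    omega
  exact app_incomp (v := root) (b := false) (hcon _ (h false)) (hcon _ (h true))

theorem task_tower {p : ℕ → Set W} (hp : Cnd p) (g : ℕ → ℕ) (l : ℕ → W) :
    ∃ (p' : ℕ → Set W) (y : ℕ → W), Cnd p' ∧ Sub p' p ∧ y ∈ St p ∧
      (∀ i, Zone g i → ¬ pre (y i) (l i)) ∧
      (∀ᶠ i in atTop, Zone g i → ∀ v ∈ p' i, ∀ w, pre v w → ¬ pre (y i) w) ∧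
      (∀ᶠ i in atTop, ¬ Zone g i → ∀ v ∈ p' i, pre (y i) v) := by
  classical
  obtain ⟨n, hn, hev⟩ := diag (fun m k => Big (hgt k (m + 1)) (p k)) (fun m => hp.2 (m + 1))
  have key : ∀ i, ∃ (P : Set W) (y : W), y ∈ T i ∧ P ⊆ (T i : Set W) ∧
      (Zone g i → ¬ pre y (l i)) ∧ (Big (hgt i (n i + 1)) (p i) → P ⊆ p i ∧ y ∈ p i ∧
        Big (hgt i (n i)) P ∧ (Zone g i → ∀ v ∈ P, ∀ w, pre v w → ¬ pre y w) ∧
        (¬ Zone g i → ∀ v ∈ P, pre y v)) := by
    intro i
    by_cases hb : Big (hgt i (n i + 1)) (p i)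
    · have hb1 : Big (hgt i (n i) + 1) (p i) := hb.anti (hgt_lt i (n i))
      obtain ⟨v, hv, hc⟩ := hb1
      by_cases hz : Zone g i
      · have hex : ∃ b : Bool, ¬ pre (app v b) (l i) := by
          by_contra hcon
          push Not at hcon
          exact app_incomp (hcon false) (hcon true)
        obtain ⟨b, hb2⟩ := hex
        obtain ⟨y, hy1, hy2⟩ := (hc b).nonempty' (hgt_pos i (n i))
        refine ⟨p i ∩ cone (app v (!b)), y, hp.1 i hy1, inter_subset_left.trans (hp.1 i), ?_, ?_⟩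
        · intro _ hcon
          exact hb2 (pre_trans hy2 hcon)
        · intro _
          refine ⟨inter_subset_left, hy1, hc (!b), ?_, fun h => absurd hz h⟩
          intro _ u hu w huw hyw
          exact app_incomp (pre_trans hy2 hyw) (pre_trans hu.2 huw)
      · refine ⟨p i ∩ cone (app v false), v, hp.1 i hv, inter_subset_left.trans (hp.1 i),
          fun h => absurd h hz, ?_⟩
        intro _
        exact ⟨inter_subset_left, hv, hc false, fun h => absurd h hz,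
          fun _ u hu => pre_trans (pre_app v false) hu.2⟩
    · obtain ⟨w, hw, hwl⟩ := exists_avoid i (l i)
      exact ⟨∅, w, hw, empty_subset _, fun _ => hwl, fun h => absurd h hb⟩
  choose P y hyT hPT hzone hrest using key
  refine ⟨P, y, cnd_of_tendsto hPT hn (hev.mono fun i hi => (hrest i hi).2.2.1),
    hev.mono fun i hi => (hrest i hi).1, ⟨hyT, hev.mono fun i hi => (hrest i hi).2.1⟩, hzone,
    hev.mono fun i hi => (hrest i hi).2.2.2.1, hev.mono fun i hi => (hrest i hi).2.2.2.2⟩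

end Pool.Agent.Helper185.Tre
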