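import Pool.Agent.Helper185.TreTask
import Pool.Agent.Helper185.DelUltra

/-!
The recursion of length `ω₁`.
-/

namespace Pool.Agent.Helper185.Tre

open Set Filter

instance : BorelSpace W := ⟨(borel_eq_top_of_discrete (α := W)).symm⟩

/-- Borel sets -/
abbrev BS : Type := {s : Set (ℕ → W) // MeasurableSet s}

/-- tasks -/
abbrev Tk : Type := (ℕ → BS) × (ℕ → ℕ → BS) × (ℕ → ℕ) × (ℕ → W)

/-- data of the construction: condition, point, countable set of points -/
abbrev Da : Type := (ℕ → Set W) × (ℕ → W) × Set (ℕ → W)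

theorem mk_BS_le : Cardinal.mk BS ≤ Cardinal.continuum.{0} := by
  have h1 : (inferInstance : MeasurableSpace (ℕ → W)) =
      MeasurableSpace.generateFrom (TopologicalSpace.countableBasis (ℕ → W)) := by
    rw [BorelSpace.measurable_eq (α := ℕ → W)]
    exact (TopologicalSpace.isBasis_countableBasis (ℕ → W)).borel_eq_generateFrom
  have h2 := MeasurableSpace.cardinal_measurableSet_le_continuum
    (s := TopologicalSpace.countableBasis (ℕ → W))
    ((Cardinal.le_aleph0_iff_set_countable.2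
      (TopologicalSpace.countable_countableBasis (ℕ → W))).trans Cardinal.aleph0_le_continuum)
  rw [← h1] at h2
  exact h2

theorem mk_fun_le {S : Type} (h : Cardinal.mk S ≤ Cardinal.continuum.{0}) :
    Cardinal.mk (ℕ → S) ≤ Cardinal.continuum.{0} := by
  rw [← Cardinal.power_def, Cardinal.mk_nat]
  calc Cardinal.mk S ^ Cardinal.aleph0
      ≤ Cardinal.continuum ^ Cardinal.aleph0 := Cardinal.power_le_power_right h
    _ = Cardinal.continuum := Cardinal.continuum_power_aleph0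

theorem mk_prod_le {S S' : Type} (h : Cardinal.mk S ≤ Cardinal.continuum.{0})
    (h' : Cardinal.mk S' ≤ Cardinal.continuum.{0}) :
    Cardinal.mk (S × S') ≤ Cardinal.continuum.{0} := by
  rw [Cardinal.mk_prod, Cardinal.lift_id, Cardinal.lift_id]
  calc Cardinal.mk S * Cardinal.mk S'
      ≤ Cardinal.continuum * Cardinal.continuum := mul_le_mul' h h'
    _ = Cardinal.continuum := Cardinal.continuum_mul_self

theorem mk_Tk_le : Cardinal.mk Tk ≤ Cardinal.continuum.{0} := by
  refine mk_prod_le (mk_fun_le mk_BS_le) (mk_prod_le (mk_fun_le (mk_fun_le mk_BS_le))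
    (mk_prod_le (by simp) (mk_fun_le ?_)))
  exact (Cardinal.mk_le_aleph0 (α := W)).trans Cardinal.aleph0_le_continuum

section

variable {I : Type} [LinearOrder I]

/-- the requirements at stage `i` -/
structure Req (e : I → Tk) (i : I) (g : (j : I) → j < i → Da) (d : Da) : Prop where
  cnd : Cnd d.1
  cnt : d.2.2.Countable
  memT : (∀ k, d.2.1 k ∈ T k) ∧ ∀ z ∈ d.2.2, ∀ k, z k ∈ T k
  prev : ∀ j (hj : j < i), Sub d.1 (g j hj).1 ∧ d.2.1 ∈ St (g j hj).1 ∧ d.2.2 ⊆ St (g j hj).1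
  cmp : (∃ a ∈ d.2.2, ∃ b ∈ d.2.2, ¬ Al (fun m => ((e i).1 m).1) a b ∧
    ¬ Al (fun m => ((e i).1 m).1) b a) ∨ ∀ x ∈ St d.1, ∃ z ∈ d.2.2, Al (fun m => ((e i).1 m).1) z x
  bdd : (∀ n m m', m ≤ m' → ((e i).2.1 n m).1 ⊆ ((e i).2.1 n m').1) →
    (∀ n, ⋃ m, ((e i).2.1 n m).1 = univ) →
    ∃ f : ℕ → ℕ, ∀ x ∈ St d.1, ∀ᶠ n in atTop, x ∈ ((e i).2.1 n (f n)).1
  zone : ∀ k, Zone (e i).2.2.1 k → ¬ pre (d.2.1 k) ((e i).2.2.2 k)
  inc : ∀ᶠ k in atTop, Zone (e i).2.2.1 k → ∀ v ∈ d.1 k, ∀ w, pre v w → ¬ pre (d.2.1 k) w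
  twr : ∀ᶠ k in atTop, ¬ Zone (e i).2.2.1 k → ∀ v ∈ d.1 k, pre (d.2.1 k) v

theorem cnd_T : Cnd (fun i => (T i : Set W)) := by
  refine ⟨fun i => subset_rfl, fun m => ?_⟩
  filter_upwards [eventually_ge_atTop m] with i hi
  exact big_T i m (by omega)

theorem exists_lower {i : I} (hI : (Iio i).Countable) (g : (j : I) → j < i → Da)
    (h1 : ∀ j hj, Cnd (g j hj).1)
    (h2 : ∀ j (hj : j < i) k (hk : k < i), j < k → Sub (g k hk).1 (g j hj).1) :
    ∃ p : ℕ → Set W, Cnd p ∧ ∀ j hj, Sub p (g j hj).1 := by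
  classical
  by_cases hne : (Iio i).Nonempty
  · obtain ⟨s, hs⟩ := hI.exists_eq_range hne
    have hsi : ∀ n, s n < i := fun n => by
      have : s n ∈ Iio i := hs ▸ mem_range_self n
      exact this
    have hle : ∀ j (hj : j < i) k (hk : k < i), j ≤ k → Sub (g k hk).1 (g j hj).1 := by
      intro j hj k hk hjk
      rcases eq_or_lt_of_le hjk with h | h
      · subst h
        exact Sub.refl _
      · exact h2 j hj k hk h
    have key : ∀ n, ∃ m, ∀ k ≤ n, s k ≤ s m := by
      intro n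
      induction n with
      | zero =>
        refine ⟨0, fun k hk => ?_⟩
        obtain rfl : k = 0 := by omega
        exact le_rfl
      | succ n ih =>
        obtain ⟨m, hm⟩ := ih
        rcases le_total (s m) (s (n + 1)) with h | h
        · refine ⟨n + 1, fun k hk => ?_⟩
          rcases Nat.le_succ_iff.1 hk with hk' | rfl
          · exact (hm k hk').trans h
          · exact le_rfl
        · refine ⟨m, fun k hk => ?_⟩
          rcases Nat.le_succ_iff.1 hk with hk' | rfl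
          · exact hm k hk'
          · exact h
    obtain ⟨p, hp1, hp2⟩ := lower_dir (q := fun n => (g (s n) (hsi n)).1) (fun n => h1 _ _) (by
      intro n
      obtain ⟨m, hm⟩ := key n
      exact ⟨m, fun j hj => hle _ _ _ _ (hm j hj)⟩)
    refine ⟨p, hp1, ?_⟩
    intro j hj
    have : j ∈ range s := hs ▸ hj
    obtain ⟨n, rfl⟩ := this
    exact hp2 n
  · exact ⟨_, cnd_T, fun j hj => absurd ⟨j, hj⟩ hne⟩

theorem exists_stage (e : I → Tk) (i : I) (hI : (Iio i).Countable) (g : (j : I) → j < i → Da)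
    (hg : ∀ j (hj : j < i), Req e j (fun k hk => g k (hk.trans hj)) (g j hj)) :
    ∃ d : Da, Req e i g d := by
  obtain ⟨p0, hp0, hlow⟩ := exists_lower hI g (fun j hj => (hg j hj).cnd)
    (fun j hj k hk hjk => ((hg k hk).prev j hjk).1)
  obtain ⟨p1, Z, hp1, hs1, hZ1, hZ2, hZ3⟩ := task_compare hp0 (fun m => ((e i).1 m).1)
    (fun m => ((e i).1 m).2)
  obtain ⟨p2, hp2, hs2, hb⟩ := task_bounded hp1 (fun n m => ((e i).2.1 n m).1)
    (fun n m => ((e i).2.1 n m).2)
  obtain ⟨p3, y, hp3, hs3, hy, hz, hi1, hi2⟩ := task_tower hp2 (e i).2.2.1 (e i).2.2.2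
  refine ⟨(p3, y, Z), ⟨hp3, hZ1, ⟨hy.1, fun z hz => (hZ2 hz).1⟩, ?_, ?_, ?_, hz, hi1, hi2⟩⟩
  · intro j hj
    refine ⟨((hs3.trans hs2).trans hs1).trans (hlow j hj), ?_, ?_⟩
    · exact St.mono ((hs2.trans hs1).trans (hlow j hj)) hy
    · exact fun z hz => St.mono (hlow j hj) (hZ2 hz)
  · rcases hZ3 with h | h
    · exact Or.inl h
    · exact Or.inr (fun x hx => h x (St.mono (hs3.trans hs2) hx))
  · intro h1 h2
    obtain ⟨f, hf⟩ := hb h1 h2
    exact ⟨f, fun x hx => hf x (St.mono hs3 hx)⟩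

end

theorem exists_tower (hCH : Cardinal.aleph 1 = Cardinal.continuum.{0}) :
    ∃ (I : Type) (_ : LinearOrder I), Nonempty I ∧ (∀ i : I, (Iio i).Countable) ∧
      (∀ i : I, ∃ j, i < j) ∧ ∃ (e : I → Tk) (b : I → Da), Function.Surjective e ∧
        ∀ i, Req e i (fun j _ => b j) (b i) := by
  classical
  have : Nonempty Tk := ⟨(fun _ => ⟨univ, MeasurableSet.univ⟩, fun _ _ => ⟨univ, MeasurableSet.univ⟩,
    fun _ => 0, fun _ => default)⟩
  obtain ⟨I, _, _, hI, hunc, e, he⟩ := Pool.Agent.Helper185.Del.exists_enum mk_Tk_le hCH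
  have : Nonempty Da := ⟨(fun _ => ∅, fun _ => default, ∅)⟩
  obtain ⟨b, hb⟩ := Pool.Agent.Helper185.Del.exists_rec (I := I) (Y := Da) (fun i g d => Req e i g d)
    (fun i g hg => exists_stage e i (hI i) g hg)
  refine ⟨I, inferInstance, ?_, hI, ?_, e, b, he, hb⟩
  · by_contra hcon
    apply hunc
    rw [not_nonempty_iff] at hcon
    exact Set.countable_univ_iff.2 inferInstance
  · intro i
    by_contra hcon
    push Not at hcon
    apply hunc
    refine ((hI i).union (countable_singleton i)).mono ?_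
    intro j _
    rcases eq_or_lt_of_le (hcon j) with h | h
    · exact Or.inr h
    · exact Or.inl h

end Pool.Agent.Helper185.Tre
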